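import Mathlib

/-!
Hoffman's circulation theorem for antisymmetric integer functions on a finite vertex set.
-/

namespace MP974d84

open Finset

variable {V : Type*} [Fintype V] [DecidableEq V]

/-- Divergence (net outflow) of `f` at `v`. -/
def dv (f : V → V → ℤ) (v : V) : ℤ := ∑ w, f v w

/-- Antisymmetric functions. -/
def Anti (f : V → V → ℤ) : Prop := ∀ v w, f v w = - f w v

theorem reach_split {r : V → V → Prop} {A : Finset V} {s t : V}
    (h : Relation.ReflTransGen (fun a b => r a b ∧ a ∈ A ∧ b ∈ A) s t) (hst : s ≠ t) :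
    ∃ s1, (r s s1 ∧ s ∈ A ∧ s1 ∈ A) ∧ s1 ≠ s ∧
      Relation.ReflTransGen (fun a b => r a b ∧ a ∈ A.erase s ∧ b ∈ A.erase s) s1 t := by
  induction h with
  | refl => exact absurd rfl hst
  | @tail b c hb hbc ih =>
    by_cases hbs : s = b
    · subst hbs
      exact ⟨c, hbc, fun h => hst h.symm, Relation.ReflTransGen.refl⟩
    · obtain ⟨s1, h1, h2, h3⟩ := ih hbs
      refine ⟨s1, h1, h2, h3.tail ⟨hbc.1, ?_, ?_⟩⟩
      · exact mem_erase.2 ⟨fun h => hbs h.symm, hbc.2.1⟩
      · exact mem_erase.2 ⟨fun h => hst h.symm, hbc.2.2⟩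

/-- Unit flow along a path. -/
theorem path_flow (r : V → V → Prop) :
    ∀ (n : ℕ) (A : Finset V) (s t : V), A.card = n →
      Relation.ReflTransGen (fun a b => r a b ∧ a ∈ A ∧ b ∈ A) s t →
      ∃ g : V → V → ℤ, Anti g ∧ (∀ v w, g v w = 0 ∨ (g v w = 1 ∧ r v w ∧ v ∈ A ∧ w ∈ A) ∨
          (g v w = -1 ∧ r w v ∧ v ∈ A ∧ w ∈ A)) ∧
        ∀ v, dv g v = (if v = s then 1 else 0) - (if v = t then 1 else 0) := by
  intro n
  induction n with
  | zero =>
    intro A s t hA h
    have hA' : A = ∅ := card_eq_zero.1 hA
    subst hA'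
    have hst : s = t := by
      by_contra hne
      obtain ⟨s1, h1, _⟩ := reach_split h hne
      simp at h1
    subst hst
    exact ⟨fun _ _ => 0, fun _ _ => by simp, fun _ _ => Or.inl rfl, fun v => by simp [dv]⟩
  | succ n ih =>
    intro A s t hA h
    by_cases hst : s = t
    · subst hst
      exact ⟨fun _ _ => 0, fun _ _ => by simp, fun _ _ => Or.inl rfl, fun v => by simp [dv]⟩
    · obtain ⟨s1, ⟨hr, hsA, hs1A⟩, hs1, h3⟩ := reach_split h hst
      have hc : (A.erase s).card = n := by rw [card_erase_of_mem hsA, hA]; rfl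
      obtain ⟨g, hg1, hg2, hg3⟩ := ih (A.erase s) s1 t hc h3
      have hgs : ∀ w, g s w = 0 := by
        intro w
        rcases hg2 s w with h | ⟨_, _, h, _⟩ | ⟨_, _, h, _⟩
        · exact h
        · simp at h
        · simp at h
      have hgs' : ∀ w, g w s = 0 := by
        intro w; rw [hg1 w s, hgs w]; simp
      refine ⟨fun v w => g v w + ((if v = s ∧ w = s1 then 1 else 0) -
        (if v = s1 ∧ w = s then 1 else 0)), ?_, ?_, ?_⟩
      · intro v w
        simp only
        rw [hg1 v w]
        have e1 : (v = s ∧ w = s1) ↔ (w = s1 ∧ v = s) := and_comm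
        have e2 : (v = s1 ∧ w = s) ↔ (w = s ∧ v = s1) := and_comm
        simp only [e1, e2]
        ring
      · intro v w
        simp only
        by_cases h1 : v = s ∧ w = s1
        · obtain ⟨rfl, rfl⟩ := h1
          right; left
          refine ⟨?_, hr, hsA, hs1A⟩
          have : ¬ (v = w ∧ w = v) := fun hh => hs1 hh.2
          simp [hgs, this]
        · by_cases h2 : v = s1 ∧ w = s
          · obtain ⟨rfl, rfl⟩ := h2
            right; right
            refine ⟨?_, hr, hs1A, hsA⟩
            have : ¬ (v = w ∧ w = v) := fun hh => hs1 hh.1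
            simp [hgs', this]
          · simp only [h1, h2, if_false, sub_self, add_zero]
            rcases hg2 v w with h | ⟨h, h', h4, h5⟩ | ⟨h, h', h4, h5⟩
            · exact Or.inl h
            · exact Or.inr (Or.inl ⟨h, h', mem_of_mem_erase h4, mem_of_mem_erase h5⟩)
            · exact Or.inr (Or.inr ⟨h, h', mem_of_mem_erase h4, mem_of_mem_erase h5⟩)
      · intro v
        have : dv (fun v w => g v w + ((if v = s ∧ w = s1 then 1 else 0) -
            (if v = s1 ∧ w = s then 1 else 0))) v
            = dv g v + ((if v = s then 1 else 0) - (if v = s1 then 1 else 0)) := by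
          simp only [dv, sum_add_distrib, sum_sub_distrib]
          congr 2
          · by_cases hv : v = s
            · simp [hv]
            · simp [hv]
          · by_cases hv : v = s1
            · simp [hv]
            · simp [hv]
        rw [this, hg3 v]
        ring

/-- Cut sum of `u` from `Z` to its complement. -/
def cs (u : V → V → ℤ) (Z : Finset V) : ℤ := ∑ v ∈ Z, ∑ w ∈ Zᶜ, u v w

theorem anti_inner {f : V → V → ℤ} (hf : Anti f) (Z : Finset V) :
    ∑ v ∈ Z, ∑ w ∈ Z, f v w = 0 := by
  have h1 : ∑ v ∈ Z, ∑ w ∈ Z, f v w = ∑ v ∈ Z, ∑ w ∈ Z, f w v := sum_comm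
  have h2 : ∑ v ∈ Z, ∑ w ∈ Z, f w v = - ∑ v ∈ Z, ∑ w ∈ Z, f v w := by
    rw [← sum_neg_distrib]
    refine sum_congr rfl fun v _ => ?_
    rw [← sum_neg_distrib]
    exact sum_congr rfl fun w _ => hf w v
  omega

theorem dv_cut {f : V → V → ℤ} (hf : Anti f) (Z : Finset V) :
    ∑ v ∈ Z, dv f v = cs f Z := by
  have : ∀ v, dv f v = ∑ w ∈ Z, f v w + ∑ w ∈ Zᶜ, f v w := by
    intro v
    rw [dv, ← sum_add_sum_compl Z]
  simp only [this, sum_add_distrib, anti_inner hf Z, cs, zero_add]

theorem dv_total {f : V → V → ℤ} (hf : Anti f) : ∑ v, dv f v = 0 := anti_inner hf univ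

/-- Hoffman's theorem with prescribed divergence. -/
theorem hoffman (u : V → V → ℤ) (d : V → ℤ) (f0 : V → V → ℤ) (hf0 : Anti f0)
    (hf0u : ∀ v w, f0 v w ≤ u v w) (hd : ∑ v, d v = 0)
    (hcut : ∀ Z : Finset V, ∑ v ∈ Z, d v ≤ cs u Z) :
    ∃ f : V → V → ℤ, Anti f ∧ (∀ v w, f v w ≤ u v w) ∧ ∀ v, dv f v = d v := by
  classical
  suffices H : ∀ (n : ℕ) (f : V → V → ℤ), (∑ v, (d v - dv f v).natAbs) = n → Anti f →
      (∀ v w, f v w ≤ u v w) →
      ∃ f : V → V → ℤ, Anti f ∧ (∀ v w, f v w ≤ u v w) ∧ ∀ v, dv f v = d v from
    H _ f0 rfl hf0 hf0u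
  intro n
  induction n using Nat.strong_induction_on with
  | _ n ih =>
    intro f hn hf hfu
    by_cases hall : ∀ v, dv f v = d v
    · exact ⟨f, hf, hfu, hall⟩
    · -- there is `s` with `dv f s < d s`
      obtain ⟨s, hs⟩ : ∃ s, dv f s < d s := by
        by_contra hno
        push Not at hno
        apply hall
        have htot : ∑ v, (dv f v - d v) = 0 := by
          rw [sum_sub_distrib, dv_total hf, hd]; rfl
        have := (sum_eq_zero_iff_of_nonneg (fun v _ => sub_nonneg.2 (hno v))).1 htot
        intro v
        have := this v (mem_univ v)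
        omega
      let r : V → V → Prop := fun a b => f a b < u a b
      let R : Finset V := univ.filter fun t =>
        Relation.ReflTransGen (fun a b => r a b ∧ a ∈ (univ : Finset V) ∧ b ∈ (univ : Finset V)) s t
      have hsR : s ∈ R := by
        simp only [R, mem_filter, mem_univ, true_and]
        exact Relation.ReflTransGen.refl
      by_cases ht : ∃ t ∈ R, d t < dv f t
      · obtain ⟨t, htR, htd⟩ := ht
        have hst : s ≠ t := by rintro rfl; omega
        have hreach := (mem_filter.1 htR).2
        obtain ⟨g, hg1, hg2, hg3⟩ := path_flow r _ univ s t rfl hreach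
        have hdv : ∀ v, dv (fun v w => f v w + g v w) v
            = dv f v + ((if v = s then 1 else 0) - (if v = t then 1 else 0)) := by
          intro v
          rw [← hg3 v]
          simp only [dv, sum_add_distrib]
        refine ih (∑ v, (d v - dv (fun v w => f v w + g v w) v).natAbs) ?_ _ rfl ?_ ?_
        · rw [← hn]
          apply sum_lt_sum
          · intro v _
            rw [hdv v]
            by_cases h1 : v = s
            · subst h1
              simp only [if_true, hst, if_false]
              omega
            · by_cases h2 : v = t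
              · subst h2
                simp only [h1, if_true, if_false]
                omega
              · simp only [h1, h2, if_false]
                omega
          · refine ⟨s, mem_univ s, ?_⟩
            rw [hdv s]
            simp only [if_true, hst, if_false]
            omega
        · intro v w
          simp only
          rw [hf v w, hg1 v w]; ring
        · intro v w
          rcases hg2 v w with h | ⟨h, h', _⟩ | ⟨h, h', _⟩
          · rw [h]; simpa using hfu v w
          · have : f v w < u v w := h'
            omega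
          · have := hfu v w
            omega
      · exfalso
        push Not at ht
        have h1 : ∑ v ∈ R, dv f v < ∑ v ∈ R, d v :=
          sum_lt_sum ht ⟨s, hsR, hs⟩
        have h2 : cs u R = cs f R := by
          refine sum_congr rfl fun v hv => sum_congr rfl fun w hw => ?_
          by_contra hne
          have hlt : f v w < u v w := lt_of_le_of_ne (hfu v w) (fun h => hne h.symm)
          have hw' : w ∉ R := by simpa using hw
          apply hw'
          have hv' := (mem_filter.1 hv).2
          exact mem_filter.2 ⟨mem_univ _, hv'.tail ⟨hlt, mem_univ _, mem_univ _⟩⟩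
        have h3 := hcut R
        rw [h2, ← dv_cut hf R] at h3
        omega

end MP974d84
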