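import Mathlib
import Pool.Agent.Work.MP_974d84_co.Hoffman

/-!
Hoffman's circulation theorem for multigraphs given by two endpoint maps `s t : E → V`.
-/

namespace MP974d84

open Finset

variable {V E : Type*} [Fintype V] [DecidableEq V] [Fintype E] [DecidableEq E]

/-- Net outflow at a vertex. -/
def D {A : Type*} [AddCommGroup A] (s t : E → V) (f : E → A) (a : V) : A :=
  ∑ e, ((if s e = a then f e else 0) - (if t e = a then f e else 0))

/-- Outward value of an edge for a vertex set. -/
def ov {A : Type*} [AddCommGroup A] (s t : E → V) (f : E → A) (Z : Finset V) (e : E) : A :=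
  (if s e ∈ Z then f e else 0) - (if t e ∈ Z then f e else 0)

theorem D_cut {A : Type*} [AddCommGroup A] (s t : E → V) (f : E → A) (Z : Finset V) :
    ∑ a ∈ Z, D s t f a = ∑ e, ov s t f Z e := by
  simp only [D]
  rw [sum_comm]
  refine sum_congr rfl fun e _ => ?_
  rw [sum_sub_distrib, sum_ite_eq, sum_ite_eq, ov]

theorem D_total {A : Type*} [AddCommGroup A] (s t : E → V) (f : E → A) :
    ∑ a, D s t f a = 0 := by
  rw [D_cut]
  exact sum_eq_zero fun e _ => by simp [ov]

theorem D_add {A : Type*} [AddCommGroup A] (s t : E → V) (f g : E → A) (a : V) :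
    D s t (fun e => f e + g e) a = D s t f a + D s t g a := by
  simp only [D]
  rw [← sum_add_distrib]
  refine sum_congr rfl fun e _ => ?_
  split_ifs <;> abel

theorem D_neg {A : Type*} [AddCommGroup A] (s t : E → V) (f : E → A) (a : V) :
    D s t (fun e => - f e) a = - D s t f a := by
  simp only [D]
  rw [← sum_neg_distrib]
  refine sum_congr rfl fun e _ => ?_
  split_ifs <;> abel

theorem D_map {A B : Type*} [AddCommGroup A] [AddCommGroup B] (g : A →+ B) (s t : E → V)
    (f : E → A) (a : V) : D s t (fun e => g (f e)) a = g (D s t f a) := by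
  simp only [D, map_sum, map_sub]
  refine sum_congr rfl fun e _ => ?_
  split_ifs <;> simp

/-- Capacity of an edge in a cut. -/
def cap (s t : E → V) (l u : E → ℤ) (Z : Finset V) (e : E) : ℤ :=
  if s e ∈ Z then (if t e ∈ Z then 0 else u e) else (if t e ∈ Z then - l e else 0)

/-- Bounds on the subdivided graph. -/
def ubS (s t : E → V) (l u : E → ℤ) : (V ⊕ E) → (V ⊕ E) → ℤ
  | Sum.inl a, Sum.inr e => if s e = t e then 0 else if s e = a then u e else
      if t e = a then - l e else 0
  | Sum.inr e, Sum.inl a => if s e = t e then 0 else if s e = a then - l e else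
      if t e = a then u e else 0
  | _, _ => 0

/-- A start on the subdivided graph. -/
def fS (s t : E → V) (l : E → ℤ) : (V ⊕ E) → (V ⊕ E) → ℤ
  | Sum.inl a, Sum.inr e => if s e = t e then 0 else if s e = a then l e else
      if t e = a then - l e else 0
  | Sum.inr e, Sum.inl a => if s e = t e then 0 else if s e = a then - l e else
      if t e = a then l e else 0
  | _, _ => 0

/-- Hoffman's theorem for multigraphs. -/
theorem hoffmanE (s t : E → V) (l u : E → ℤ) (hlu : ∀ e, l e ≤ u e) (d : V → ℤ)
    (hd : ∑ v, d v = 0) (hcut : ∀ Z : Finset V, ∑ v ∈ Z, d v ≤ ∑ e, cap s t l u Z e) :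
    ∃ f : E → ℤ, (∀ e, l e ≤ f e ∧ f e ≤ u e) ∧ ∀ a, D s t f a = d a := by
  classical
  obtain ⟨F, hF1, hF2, hF3⟩ := hoffman (V := V ⊕ E) (ubS s t l u) (Sum.elim d (fun _ => 0))
    (fS s t l)
    (by
      rintro (a | e) (b | e') <;> simp only [fS] <;> first | (split_ifs <;> simp) | simp)
    (by
      rintro (a | e) (b | e') <;> simp only [fS, ubS]
      · exact le_rfl
      · have := hlu e'
        split_ifs <;> omega
      · have := hlu e
        split_ifs <;> omega
      · exact le_rfl)
    (by simp [hd])
    (by
      intro Z'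
      set Z : Finset V := univ.filter fun a => Sum.inl a ∈ Z' with hZ
      have h1 : ∑ p ∈ Z', (Sum.elim d (fun _ => 0) : V ⊕ E → ℤ) p = ∑ a ∈ Z, d a := by
        have : ∑ p ∈ Z', (Sum.elim d (fun _ => 0) : V ⊕ E → ℤ) p
            = ∑ p, if p ∈ Z' then (Sum.elim d (fun _ => 0) : V ⊕ E → ℤ) p else 0 := by
          rw [sum_ite_mem, univ_inter]
        rw [this, Fintype.sum_sum_type, hZ, sum_filter]
        simp
      have h2 : cs (ubS s t l u) Z' = ∑ e, ((∑ a, if Sum.inl a ∈ Z' ∧ Sum.inr e ∉ Z' then
            ubS s t l u (Sum.inl a) (Sum.inr e) else 0)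
          + ∑ a, if Sum.inr e ∈ Z' ∧ Sum.inl a ∉ Z' then
            ubS s t l u (Sum.inr e) (Sum.inl a) else 0) := by
        have ind : cs (ubS s t l u) Z' = ∑ p, ∑ q, (if p ∈ Z' ∧ q ∉ Z' then ubS s t l u p q else 0) := by
          have h1 : ∀ v, ∑ w, (if v ∈ Z' ∧ w ∉ Z' then ubS s t l u v w else 0)
              = if v ∈ Z' then ∑ w ∈ Z'ᶜ, ubS s t l u v w else 0 := by
            intro v
            by_cases hv : v ∈ Z'
            · simp only [hv, true_and, if_true]
              rw [← sum_filter]
              congr 1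
              ext w; simp
            · simp [hv]
          simp only [h1, cs]
          rw [sum_ite_mem, univ_inter]
        rw [ind, Fintype.sum_sum_type]
        simp only [Fintype.sum_sum_type]
        have z1 : ∀ a b : V, ubS s t l u (Sum.inl a) (Sum.inl b) = 0 := fun _ _ => rfl
        have z2 : ∀ a b : E, ubS s t l u (Sum.inr a) (Sum.inr b) = 0 := fun _ _ => rfl
        simp only [z1, z2, ite_self, sum_const_zero, zero_add, add_zero]
        rw [sum_comm, ← sum_add_distrib]
      rw [h1, h2]
      refine (hcut Z).trans (sum_le_sum fun e _ => ?_)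
      have hs : s e ∈ Z ↔ Sum.inl (s e) ∈ Z' := by simp [hZ]
      have ht : t e ∈ Z ↔ Sum.inl (t e) ∈ Z' := by simp [hZ]
      have hle := hlu e
      by_cases hloop : s e = t e
      · have : cap s t l u Z e = 0 := by
          unfold cap; rw [hloop]; split_ifs <;> rfl
        rw [this]
        simp [ubS, hloop]
      · have g1 : ∑ a, (if Sum.inl a ∈ Z' ∧ Sum.inr e ∉ Z' then
            ubS s t l u (Sum.inl a) (Sum.inr e) else 0)
            = (if s e ∈ Z ∧ Sum.inr e ∉ Z' then u e else 0)
              + (if t e ∈ Z ∧ Sum.inr e ∉ Z' then - l e else 0) := by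
          have : ∀ a, (if Sum.inl a ∈ Z' ∧ Sum.inr e ∉ Z' then
              ubS s t l u (Sum.inl a) (Sum.inr e) else 0)
              = (if s e = a then (if s e ∈ Z ∧ Sum.inr e ∉ Z' then u e else 0) else 0)
              + (if t e = a then (if t e ∈ Z ∧ Sum.inr e ∉ Z' then - l e else 0) else 0) := by
            intro a
            by_cases h3 : s e = a
            · subst h3
              simp [ubS, hloop, Ne.symm hloop, hs]
            · by_cases h4 : t e = a
              · subst h4
                simp [ubS, hloop, ht]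
              · simp [ubS, hloop, h3, h4]
          simp only [this, sum_add_distrib, sum_ite_eq, mem_univ, if_true]
        have g2 : ∑ a, (if Sum.inr e ∈ Z' ∧ Sum.inl a ∉ Z' then
            ubS s t l u (Sum.inr e) (Sum.inl a) else 0)
            = (if Sum.inr e ∈ Z' ∧ s e ∉ Z then - l e else 0)
              + (if Sum.inr e ∈ Z' ∧ t e ∉ Z then u e else 0) := by
          have : ∀ a, (if Sum.inr e ∈ Z' ∧ Sum.inl a ∉ Z' then
              ubS s t l u (Sum.inr e) (Sum.inl a) else 0)
              = (if s e = a then (if Sum.inr e ∈ Z' ∧ s e ∉ Z then - l e else 0) else 0)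
              + (if t e = a then (if Sum.inr e ∈ Z' ∧ t e ∉ Z then u e else 0) else 0) := by
            intro a
            by_cases h3 : s e = a
            · subst h3
              simp [ubS, hloop, Ne.symm hloop, hs]
            · by_cases h4 : t e = a
              · subst h4
                simp [ubS, hloop, ht]
              · simp [ubS, hloop, h3, h4]
          simp only [this, sum_add_distrib, sum_ite_eq, mem_univ, if_true]
        rw [g1, g2]
        unfold cap
        by_cases c1 : s e ∈ Z <;> by_cases c2 : t e ∈ Z <;> by_cases c3 : Sum.inr e ∈ Z' <;>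
          simp [c1, c2, c3] <;> omega)
  refine ⟨fun e => if s e = t e then l e else F (Sum.inl (s e)) (Sum.inr e), ?_, ?_⟩
  · intro e
    by_cases hloop : s e = t e
    · simp [hloop, hlu e]
    · have b1 := hF2 (Sum.inl (s e)) (Sum.inr e)
      have b2 := hF2 (Sum.inr e) (Sum.inl (s e))
      have b3 := hF1 (Sum.inl (s e)) (Sum.inr e)
      simp only [ubS, hloop, if_false, if_true] at b1 b2 ⊢
      omega
  · intro a
    have zero1 : ∀ a b : V, F (Sum.inl a) (Sum.inl b) = 0 := by
      intro a b
      have b1 := hF2 (Sum.inl a) (Sum.inl b)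
      have b2 := hF2 (Sum.inl b) (Sum.inl a)
      have b3 := hF1 (Sum.inl a) (Sum.inl b)
      simp only [ubS] at b1 b2
      omega
    have zero2 : ∀ a b : E, F (Sum.inr a) (Sum.inr b) = 0 := by
      intro a b
      have b1 := hF2 (Sum.inr a) (Sum.inr b)
      have b2 := hF2 (Sum.inr b) (Sum.inr a)
      have b3 := hF1 (Sum.inr a) (Sum.inr b)
      simp only [ubS] at b1 b2
      omega
    have zero3 : ∀ (a : V) (e : E), (s e = t e ∨ (s e ≠ a ∧ t e ≠ a)) →
        F (Sum.inl a) (Sum.inr e) = 0 := by
      intro a e h
      have b1 := hF2 (Sum.inl a) (Sum.inr e)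
      have b2 := hF2 (Sum.inr e) (Sum.inl a)
      have b3 := hF1 (Sum.inl a) (Sum.inr e)
      rcases h with h | ⟨h, h'⟩
      · simp only [ubS, h, if_true] at b1 b2
        omega
      · simp only [ubS, h, h', if_false, ite_self] at b1 b2
        omega
    have hbal : ∀ e, s e ≠ t e → F (Sum.inl (t e)) (Sum.inr e) = - F (Sum.inl (s e)) (Sum.inr e) := by
      intro e he
      have h1 := hF3 (Sum.inr e)
      rw [dv, Fintype.sum_sum_type] at h1
      simp only [zero2, sum_const_zero, add_zero, Sum.elim_inr] at h1
      have h2 : ∑ a, F (Sum.inr e) (Sum.inl a)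
          = ∑ a, ((if s e = a then F (Sum.inr e) (Sum.inl (s e)) else 0)
            + (if t e = a then F (Sum.inr e) (Sum.inl (t e)) else 0)) := by
        refine sum_congr rfl fun a _ => ?_
        by_cases h3 : s e = a
        · subst h3; simp [Ne.symm he]
        · by_cases h4 : t e = a
          · subst h4; simp [he]
          · have := zero3 a e (Or.inr ⟨h3, h4⟩)
            have b3 := hF1 (Sum.inl a) (Sum.inr e)
            simp only [h3, h4, if_false, add_zero]
            omega
      rw [h2, sum_add_distrib, sum_ite_eq, sum_ite_eq] at h1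
      simp only [mem_univ, if_true] at h1
      have b3 := hF1 (Sum.inl (s e)) (Sum.inr e)
      have b4 := hF1 (Sum.inl (t e)) (Sum.inr e)
      omega
    have h1 := hF3 (Sum.inl a)
    rw [dv, Fintype.sum_sum_type] at h1
    simp only [zero1, sum_const_zero, zero_add, Sum.elim_inl] at h1
    rw [← h1, D]
    refine sum_congr rfl fun e _ => ?_
    by_cases hloop : s e = t e
    · rw [zero3 a e (Or.inl hloop)]
      simp [hloop]
    · simp only [hloop, if_false]
      by_cases h3 : s e = a
      · subst h3; simp [Ne.symm hloop]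
      · by_cases h4 : t e = a
        · subst h4
          rw [hbal e hloop]; simp [hloop]
        · rw [zero3 a e (Or.inr ⟨h3, h4⟩)]; simp [h3, h4]

end MP974d84
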