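import Mathlib
import Pool.Agent.Work.MP_974d84_co.MHoffman

/-!
Flows on multigraphs: parity lifting, tight cuts, and extension of 4-flows to 5-flows.
-/

namespace MP974d84

open Finset

variable {V E : Type*} [Fintype V] [DecidableEq V] [Fintype E] [DecidableEq E]

/-- Nowhere-zero flow with support exactly the edge set `S`. -/
def HasFlow (A : Type*) [AddCommGroup A] (s t : E → V) (S : Finset E) : Prop :=
  ∃ f : E → A, (∀ e, f e ≠ 0 ↔ e ∈ S) ∧ ∀ a, D s t f a = 0

theorem ov_zero {A : Type*} [AddCommGroup A] {s t : E → V} {f : E → A} {Z : Finset V} {e : E}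
    (h : f e = 0) : ov s t f Z e = 0 := by
  unfold ov; rw [h]; simp

theorem sum_ov {A : Type*} [AddCommGroup A] {s t : E → V} {f : E → A}
    (h : ∀ a, D s t f a = 0) (Z : Finset V) : ∑ e, ov s t f Z e = 0 := by
  rw [← D_cut]; exact sum_eq_zero fun a _ => h a

/-- Lifting a flow modulo 2 to an integer flow with values in `{0, 1, -1}`. -/
theorem lift2 (s t : E → V) (β : E → ZMod 2) (hβ : ∀ a, D s t β a = 0) :
    ∃ b : E → ℤ, (∀ e, -1 ≤ b e ∧ b e ≤ 1) ∧ (∀ a, D s t b a = 0) ∧
      ∀ e, ((b e : ℤ) : ZMod 2) = β e := by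
  let w : E → ℤ := fun e => ((β e).val : ℤ)
  have hw : ∀ e, w e = 0 ∨ w e = 1 := by
    intro e
    have := ZMod.val_lt (β e)
    simp only [w]
    omega
  have hwc : ∀ e, ((w e : ℤ) : ZMod 2) = β e := fun e => by simp [w]
  have hev : ∀ a, (2 : ℤ) ∣ D s t w a := by
    intro a
    have h1 : ((D s t w a : ℤ) : ZMod 2) = 0 := by
      have := D_map (Int.castAddHom (ZMod 2)) s t w a
      simp only [Int.coe_castAddHom] at this
      rw [← this]
      simp only [hwc]
      exact hβ a
    simpa using (ZMod.intCast_zmod_eq_zero_iff_dvd (D s t w a) 2).1 h1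
  choose k hk using hev
  obtain ⟨g, hg1, hg2⟩ := hoffmanE s t (fun _ => 0) w (fun e => by have := hw e; omega) k (by
      have h1 := D_total s t w
      have h2 : 2 * ∑ v, k v = 0 := by
        rw [mul_sum, ← h1]
        exact sum_congr rfl fun v _ => (hk v).symm
      omega) (by
      intro Z
      have h1 := D_cut s t w Z
      have h2 : 2 * ∑ v ∈ Z, k v = ∑ e, ov s t w Z e := by
        rw [mul_sum, ← h1]
        exact sum_congr rfl fun v _ => (hk v).symm
      have h3 : ∑ e, ov s t w Z e ≤ 2 * ∑ e, cap s t (fun _ => 0) w Z e := by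
        rw [mul_sum]
        refine sum_le_sum fun e _ => ?_
        have := hw e
        simp only [ov, cap]
        split_ifs <;> omega
      omega)
  refine ⟨fun e => w e - 2 * g e, fun e => ?_, fun a => ?_, fun e => ?_⟩
  · have := hg1 e
    have := hw e
    simp only
    omega
  · have h1 : D s t (fun e => w e - 2 * g e) a = D s t w a - 2 * D s t g a := by
      simp only [D, mul_sum, ← sum_sub_distrib]
      refine sum_congr rfl fun e _ => ?_
      split_ifs <;> ring
    rw [h1, hg2, hk a]; ring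
  · push_cast
    rw [hwc]
    have : (2 : ZMod 2) = 0 := rfl
    rw [this]; ring

/-- Upper capacity. -/
def hi (z : ℤ) : ℤ := if 0 < z then 4 else if z < 0 then -1 else 0

/-- Slack of a cut. -/
def hh (s t : E → V) (φ : E → ℤ) (Z : Finset V) : ℤ := ∑ e, hi (ov s t φ Z e)

theorem ov_abs {s t : E → V} {f : E → ℤ} {c : ℤ} (hc : 0 ≤ c) (hf : ∀ e, -c ≤ f e ∧ f e ≤ c)
    (Z : Finset V) (e : E) : -c ≤ ov s t f Z e ∧ ov s t f Z e ≤ c := by
  have := hf e
  unfold ov
  split_ifs <;> omega

theorem hi_sub {z : ℤ} (h : -3 ≤ z ∧ z ≤ 3) : 0 ≤ hi z - z := by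
  unfold hi; split_ifs <;> omega

theorem hh_nonneg {s t : E → V} {φ : E → ℤ} (h3 : ∀ e, -3 ≤ φ e ∧ φ e ≤ 3)
    (h0 : ∀ a, D s t φ a = 0) (Z : Finset V) : 0 ≤ hh s t φ Z := by
  have h1 := sum_ov h0 Z
  have h2 : ∑ e, ov s t φ Z e ≤ hh s t φ Z :=
    sum_le_sum fun e _ => by
      have := hi_sub (ov_abs (s := s) (t := t) (by norm_num) h3 Z e)
      omega
  omega

theorem hh_zero {s t : E → V} {φ : E → ℤ} (h3 : ∀ e, -3 ≤ φ e ∧ φ e ≤ 3)
    (h0 : ∀ a, D s t φ a = 0) {Z : Finset V} (hZ : hh s t φ Z = 0) (e : E) :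
    ov s t φ Z e = 0 := by
  have h1 := sum_ov h0 Z
  have h2 : ∑ e, (hi (ov s t φ Z e) - ov s t φ Z e) = 0 := by
    rw [sum_sub_distrib, h1]; simpa [hh] using hZ
  have h4 := (sum_eq_zero_iff_of_nonneg
    (fun e _ => hi_sub (ov_abs (by norm_num) h3 Z e))).1 h2
  have h5 : ∀ e ∈ (univ : Finset E), ov s t φ Z e ≤ 0 := by
    intro e he
    have h6 := h4 e he
    have h7 := ov_abs (s := s) (t := t) (by norm_num) h3 Z e
    unfold hi at h6
    split_ifs at h6 <;> omega
  exact (sum_eq_zero_iff_of_nonpos h5).1 h1 e (mem_univ e)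

/-- Submodularity. -/
theorem hh_submod (s t : E → V) (φ : E → ℤ) (X Y : Finset V) :
    hh s t φ (X ∩ Y) + hh s t φ (X ∪ Y) ≤ hh s t φ X + hh s t φ Y := by
  simp only [hh, ← sum_add_distrib]
  refine sum_le_sum fun e _ => ?_
  unfold ov hi
  by_cases a : s e ∈ X <;> by_cases b : s e ∈ Y <;> by_cases c : t e ∈ X <;> by_cases d : t e ∈ Y <;>
    simp only [mem_inter, mem_union, a, b, c, d, if_true, if_false, and_true, and_false, or_true,
      or_false, true_and, false_and, true_or, false_or, sub_zero, zero_sub, sub_self, and_self,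
      or_self] <;> split_ifs <;> omega

theorem ov_comb (s t : E → V) (b a : E → ℤ) (Z : Finset V) (e : E) :
    ov s t (fun e => b e + 2 * a e) Z e = ov s t b Z e + 2 * ov s t a Z e := by
  unfold ov; split_ifs <;> ring

theorem D_comb (s t : E → V) (b a : E → ℤ) (v : V) :
    D s t (fun e => b e + 2 * a e) v = D s t b v + 2 * D s t a v := by
  simp only [D, mul_sum, ← sum_add_distrib]
  refine sum_congr rfl fun e _ => ?_
  split_ifs <;> ring

/-- Structure of a tight cut. -/
theorem tight_struct {s t : E → V} {b a : E → ℤ} (hb : ∀ e, -1 ≤ b e ∧ b e ≤ 1)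
    (ha : ∀ e, -1 ≤ a e ∧ a e ≤ 1) (hb0 : ∀ v, D s t b v = 0) (ha0 : ∀ v, D s t a v = 0)
    {T : Finset V} (hT : hh s t (fun e => b e + 2 * a e) T = 1) :
    ∃ e1 e2 e3 e4 : E, e1 ≠ e2 ∧ e1 ≠ e3 ∧ e1 ≠ e4 ∧ e2 ≠ e3 ∧ e2 ≠ e4 ∧ e3 ≠ e4 ∧
      (ov s t b T e1 = -1 ∧ ov s t a T e1 = 0) ∧ (ov s t b T e2 = -1 ∧ ov s t a T e2 = 0) ∧
      (ov s t b T e3 = 1 ∧ ov s t a T e3 = 1) ∧ (ov s t b T e4 = 1 ∧ ov s t a T e4 = -1) ∧
      ∀ e, e ≠ e1 → e ≠ e2 → e ≠ e3 → e ≠ e4 → ov s t b T e = 0 ∧ ov s t a T e = 0 := by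
  have hB := fun e => ov_abs (s := s) (t := t) (by norm_num) hb T e
  have hA := fun e => ov_abs (s := s) (t := t) (by norm_num) ha T e
  have hBs := sum_ov hb0 T
  have hAs := sum_ov ha0 T
  have h1 : ∑ e, (hi (ov s t b T e + 2 * ov s t a T e) - (ov s t b T e + 2 * ov s t a T e)) = 1 := by
    rw [sum_sub_distrib, sum_add_distrib, ← mul_sum, hBs, hAs]
    simp only [hh, ov_comb] at hT
    rw [hT]; norm_num
  have hnn : ∀ e ∈ (univ : Finset E),
      0 ≤ hi (ov s t b T e + 2 * ov s t a T e) - (ov s t b T e + 2 * ov s t a T e) := by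
    intro e _
    have := hB e
    have := hA e
    exact hi_sub ⟨by omega, by omega⟩
  -- the special edge
  obtain ⟨e3, h3⟩ : ∃ e3, hi (ov s t b T e3 + 2 * ov s t a T e3)
      - (ov s t b T e3 + 2 * ov s t a T e3) ≠ 0 := by
    by_contra hno
    push Not at hno
    rw [sum_eq_zero (fun e _ => hno e)] at h1
    norm_num at h1
  have h3' : hi (ov s t b T e3 + 2 * ov s t a T e3)
      - (ov s t b T e3 + 2 * ov s t a T e3) = 1 := by
    have := single_le_sum hnn (mem_univ e3)
    have := hnn e3 (mem_univ e3)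
    omega
  have hoth : ∀ e, e ≠ e3 → hi (ov s t b T e + 2 * ov s t a T e)
      - (ov s t b T e + 2 * ov s t a T e) = 0 := by
    intro e he
    have h4 := add_sum_erase univ (fun e => hi (ov s t b T e + 2 * ov s t a T e)
      - (ov s t b T e + 2 * ov s t a T e)) (mem_univ e3)
    have h5 : ∑ e ∈ univ.erase e3, (hi (ov s t b T e + 2 * ov s t a T e)
      - (ov s t b T e + 2 * ov s t a T e)) = 0 := by
      omega
    exact (sum_eq_zero_iff_of_nonneg (fun e _ => hnn e (mem_univ e))).1 h5 e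
      (mem_erase.2 ⟨he, mem_univ e⟩)
  have hval : ∀ e, e ≠ e3 → (ov s t b T e = 0 ∧ ov s t a T e = 0) ∨
      (ov s t b T e = -1 ∧ ov s t a T e = 0) ∨ (ov s t b T e = 1 ∧ ov s t a T e = -1) := by
    intro e he
    have h4 := hoth e he
    have h5 := hB e
    have h6 := hA e
    unfold hi at h4
    split_ifs at h4 <;> omega
  have h3v : ov s t b T e3 = 1 ∧ ov s t a T e3 = 1 := by
    have h5 := hB e3
    have h6 := hA e3
    have h7 : ov s t b T e3 + 2 * ov s t a T e3 = 3 ∨ ov s t b T e3 + 2 * ov s t a T e3 = -2 := by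
      unfold hi at h3'
      split_ifs at h3' <;> omega
    rcases h7 with h7 | h7
    · omega
    · exfalso
      have h8 : ∑ e, (ov s t b T e + 2 * ov s t a T e) < 0 := by
        refine sum_neg' (fun e _ => ?_) ⟨e3, mem_univ e3, by omega⟩
        by_cases he : e = e3
        · rw [he]; omega
        · rcases hval e he with h | h | h <;> omega
      rw [sum_add_distrib, ← mul_sum, hBs, hAs] at h8
      norm_num at h8
  -- the second edge of the same colour
  have hS2 : (univ.filter fun e => ov s t a T e = -1).card = 1 := by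
    have h4 : ∑ e, ov s t a T e = ∑ e, ((if e = e3 then (1 : ℤ) else 0)
        - (if ov s t a T e = -1 then (1 : ℤ) else 0)) := by
      refine sum_congr rfl fun e _ => ?_
      by_cases he : e = e3
      · rw [he]; simp [h3v]
      · rcases hval e he with h | h | h <;> simp [he, h]
    rw [hAs, sum_sub_distrib, sum_ite_eq', sum_boole] at h4
    simp only [mem_univ, if_true] at h4
    have : ((univ.filter fun e => ov s t a T e = -1).card : ℤ) = 1 := by omega
    exact_mod_cast this
  obtain ⟨e4, he4⟩ := card_eq_one.1 hS2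
  have h4m : ∀ e, ov s t a T e = -1 ↔ e = e4 := by
    intro e
    have : e ∈ (univ.filter fun e => ov s t a T e = -1) ↔ e ∈ ({e4} : Finset E) := by rw [he4]
    simpa using this
  have h34 : e3 ≠ e4 := by
    intro h
    have := (h4m e3).2 h
    omega
  have h4v : ov s t b T e4 = 1 ∧ ov s t a T e4 = -1 := by
    have h5 := (h4m e4).2 rfl
    rcases hval e4 (Ne.symm h34) with h | h | h <;> omega
  have hS3 : (univ.filter fun e => ov s t b T e = -1).card = 2 := by
    have h5 : ∑ e, ov s t b T e = ∑ e, (((if e = e3 then (1 : ℤ) else 0)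
        + (if e = e4 then (1 : ℤ) else 0)) - (if ov s t b T e = -1 then (1 : ℤ) else 0)) := by
      refine sum_congr rfl fun e _ => ?_
      by_cases he : e = e3
      · rw [he]; simp [h3v, h34]
      · by_cases he' : e = e4
        · rw [he']; simp [h4v, Ne.symm h34]
        · have := h4m e
          rcases hval e he with h | h | h
          · simp [he, he', h]
          · simp [he, he', h]
          · exact absurd (this.1 h.2) he'
    rw [hBs, sum_sub_distrib, sum_add_distrib, sum_ite_eq', sum_ite_eq', sum_boole] at h5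
    simp only [mem_univ, if_true] at h5
    have : ((univ.filter fun e => ov s t b T e = -1).card : ℤ) = 2 := by omega
    exact_mod_cast this
  obtain ⟨e1, e2, h12, he12⟩ := card_eq_two.1 hS3
  have h12m : ∀ e, ov s t b T e = -1 ↔ (e = e1 ∨ e = e2) := by
    intro e
    have : e ∈ (univ.filter fun e => ov s t b T e = -1) ↔ e ∈ ({e1, e2} : Finset E) := by rw [he12]
    simpa using this
  have h1m := (h12m e1).2 (Or.inl rfl)
  have h2m := (h12m e2).2 (Or.inr rfl)
  have h13 : e1 ≠ e3 := by rintro rfl; omega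
  have h14 : e1 ≠ e4 := by rintro rfl; omega
  have h23 : e2 ≠ e3 := by rintro rfl; omega
  have h24 : e2 ≠ e4 := by rintro rfl; omega
  refine ⟨e1, e2, e3, e4, h12, h13, h14, h23, h24, h34, ?_, ?_, h3v, h4v, ?_⟩
  · rcases hval e1 h13 with h | h | h <;> omega
  · rcases hval e2 h23 with h | h | h <;> omega
  · intro e c1 c2 c3 c4
    rcases hval e c3 with h | h | h
    · exact h
    · exact absurd ((h12m e).1 h.1) (by simp [c1, c2])
    · exact absurd ((h4m e).1 h.2) c4

/-- Extension of a 4-flow by prescribed values to a nowhere-zero flow modulo 5. -/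
theorem extendE {s t : E → V} {φ ρ : E → ℤ} {S : Finset E} (h3 : ∀ e, -3 ≤ φ e ∧ φ e ≤ 3)
    (hρ : ∀ e, -4 ≤ ρ e ∧ ρ e ≤ 4) (hdis : ∀ e, φ e ≠ 0 → ρ e = 0)
    (hS : ∀ e, e ∈ S ↔ (φ e ≠ 0 ∨ ρ e ≠ 0))
    (hcut : ∀ Z : Finset V, - ∑ e, ov s t ρ Z e ≤ hh s t φ Z) : HasFlow (ZMod 5) s t S := by
  obtain ⟨g, hg1, hg2⟩ := hoffmanE s t (fun e => - hi (- φ e)) (fun e => hi (φ e))
    (fun e => by unfold hi; split_ifs <;> omega) (fun a => - D s t ρ a)
    (by rw [sum_neg_distrib, D_total]; rfl) (by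
      intro Z
      rw [sum_neg_distrib, D_cut]
      refine (hcut Z).trans (le_of_eq ?_)
      refine sum_congr rfl fun e _ => ?_
      unfold ov cap
      by_cases c1 : s e ∈ Z <;> by_cases c2 : t e ∈ Z <;> simp [c1, c2, hi])
  refine ⟨fun e => ((g e + ρ e : ℤ) : ZMod 5), fun e => ?_, fun a => ?_⟩
  · rw [hS e]
    have h1 := hg1 e
    have h2 := hρ e
    have h4 := h3 e
    have h5 := hdis e
    have hz : (((g e + ρ e : ℤ) : ZMod 5) = 0) ↔ g e + ρ e = 0 := by
      rw [ZMod.intCast_zmod_eq_zero_iff_dvd]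
      constructor
      · intro h6
        unfold hi at h1
        by_cases hφ : φ e = 0
        · simp only [hφ] at h1
          norm_num at h1
          omega
        · have := h5 hφ
          simp only [Nat.cast_ofNat] at h6
          split_ifs at h1 <;> omega
      · intro h6; rw [h6]; simp
    rw [ne_eq, hz]
    unfold hi at h1
    by_cases hφ : φ e = 0
    · simp only [hφ] at h1
      norm_num at h1
      simp only [hφ, ne_eq, not_true_eq_false, false_or]
      omega
    · have := h5 hφ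
      simp only [ne_eq, hφ, not_false_iff, true_or, iff_true]
      split_ifs at h1 <;> omega
  · have h1 : D s t (fun e => g e + ρ e) a = 0 := by
      rw [D_add, hg2]; ring
    have h2 := D_map (Int.castAddHom (ZMod 5)) s t (fun e => g e + ρ e) a
    simp only [Int.coe_castAddHom] at h2
    rw [h2, h1]; simp

end MP974d84
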