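import Mathlib
import Pool.Agent.Work.MP_974d84_co.Kochol

/-!
Splitting a flow along a five-edge cut, gluing, and transfer to a gadget.
-/

namespace MP974d84

open Finset

variable {V E : Type*} [Fintype V] [DecidableEq V] [Fintype E] [DecidableEq E]
variable {A : Type*} [AddCommGroup A]

/-- Function supported on one edge. -/
def sgl (e : E) (c : A) (e' : E) : A := if e' = e then c else 0

theorem D_sgl (s t : E → V) (e : E) (c : A) (a : V) :
    D s t (sgl e c) a = (if s e = a then c else 0) - (if t e = a then c else 0) := by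
  rw [D, sum_eq_single e]
  · simp [sgl]
  · intro b _ hb; simp [sgl, hb]
  · simp

/-- Inner end of a crossing edge. -/
def attI (s t : E → V) (T : Finset V) (e : E) : V := if s e ∈ T then s e else t e

/-- Outer end of a crossing edge. -/
def attO (s t : E → V) (T : Finset V) (e : E) : V := if s e ∈ T then t e else s e

/-- Crossing edges. -/
def crs (s t : E → V) (T : Finset V) (e : E) : Prop :=
  (s e ∈ T ∧ t e ∉ T) ∨ (s e ∉ T ∧ t e ∈ T)

instance (s t : E → V) (T : Finset V) (e : E) : Decidable (crs s t T e) := by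
  unfold crs; infer_instance

theorem attI_mem {s t : E → V} {T : Finset V} {e : E} (h : crs s t T e) : attI s t T e ∈ T := by
  unfold attI; rcases h with ⟨h1, _⟩ | ⟨h1, h2⟩
  · rw [if_pos h1]; exact h1
  · rw [if_neg h1]; exact h2

theorem attO_notMem {s t : E → V} {T : Finset V} {e : E} (h : crs s t T e) :
    attO s t T e ∉ T := by
  unfold attO; rcases h with ⟨h1, h2⟩ | ⟨h1, h2⟩
  · rw [if_pos h1]; exact h2
  · rw [if_neg h1]; exact h1

/-- Inner part. -/
def innP (s t : E → V) (T : Finset V) (f : E → A) (e : E) : A :=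
  if s e ∈ T ∧ t e ∈ T then f e else 0

/-- Outer part. -/
def outP (s t : E → V) (T : Finset V) (f : E → A) (e : E) : A :=
  if s e ∉ T ∧ t e ∉ T then f e else 0

/-- Terminal data for a five-edge cut. -/
structure Term (s t : E → V) (S : Finset E) (T : Finset V) (tm : Fin 5 → E) : Prop where
  inj : Function.Injective tm
  mem : ∀ i, tm i ∈ S
  crs : ∀ i, crs s t T (tm i)
  all : ∀ e ∈ S, MP974d84.crs s t T e → ∃ i, e = tm i

theorem D_split {s t : E → V} {S : Finset E} {T : Finset V} {tm : Fin 5 → E}
    (h : Term s t S T tm) (f : E → A) (hf : ∀ e, f e ≠ 0 → e ∈ S) (a : V) :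
    D s t f a = D s t (innP s t T f) a + D s t (outP s t T f) a
      + (inj (fun i => attI s t T (tm i)) (fun i => ov s t f T (tm i)) a
        - inj (fun i => attO s t T (tm i)) (fun i => ov s t f T (tm i)) a) := by
  have h1 : inj (fun i => attI s t T (tm i)) (fun i => ov s t f T (tm i)) a
        - inj (fun i => attO s t T (tm i)) (fun i => ov s t f T (tm i)) a
      = ∑ e, (if crs s t T e then (if attI s t T e = a then ov s t f T e else 0)
        - (if attO s t T e = a then ov s t f T e else 0) else 0) := by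
    rw [inj, inj, ← sum_sub_distrib]
    have h2 : ∑ i, ((if attI s t T (tm i) = a then ov s t f T (tm i) else 0)
        - (if attO s t T (tm i) = a then ov s t f T (tm i) else 0))
        = ∑ e ∈ univ.image tm, (if crs s t T e then (if attI s t T e = a then ov s t f T e else 0)
        - (if attO s t T e = a then ov s t f T e else 0) else 0) := by
      rw [sum_image (fun i _ j _ hij => h.inj hij)]
      refine sum_congr rfl fun i _ => ?_
      rw [if_pos (h.crs i)]
    rw [h2]
    apply sum_subset (subset_univ _)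
    intro e _ he
    by_cases hc : crs s t T e
    · rw [if_pos hc]
      have hfe : f e = 0 := by
        by_contra hne
        obtain ⟨i, hi⟩ := h.all e (hf e hne) hc
        exact he (mem_image.2 ⟨i, mem_univ i, hi.symm⟩)
      rw [ov_zero hfe]; simp
    · rw [if_neg hc]
  rw [h1]
  simp only [D]
  rw [← sum_add_distrib, ← sum_add_distrib]
  refine sum_congr rfl fun e _ => ?_
  unfold innP outP crs attI attO ov
  by_cases c1 : s e ∈ T <;> by_cases c2 : t e ∈ T
  · simp [c1, c2]
  · simp [c1, c2]
  · simp only [c1, c2, and_true, and_false, true_and, false_and, not_true_eq_false,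
      not_false_iff, if_true, if_false, sub_self, or_true, or_false, zero_sub, add_zero,
      zero_add, ite_self]
    split_ifs <;> abel
  · simp [c1, c2]

theorem D_innP_out {s t : E → V} {T : Finset V} (f : E → A) {a : V} (ha : a ∉ T) :
    D s t (innP s t T f) a = 0 := by
  refine sum_eq_zero fun e _ => ?_
  unfold innP
  by_cases c1 : s e ∈ T <;> by_cases c2 : t e ∈ T <;> simp only [c1, c2, and_self, and_true,
    and_false, if_true, if_false, ite_self, sub_self, false_and]
  have h1 : s e ≠ a := by rintro rfl; exact ha c1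
  have h2 : t e ≠ a := by rintro rfl; exact ha c2
  simp [h1, h2]

theorem D_outP_in {s t : E → V} {T : Finset V} (f : E → A) {a : V} (ha : a ∈ T) :
    D s t (outP s t T f) a = 0 := by
  refine sum_eq_zero fun e _ => ?_
  unfold outP
  by_cases c1 : s e ∈ T
  · simp [c1]
  · by_cases c2 : t e ∈ T
    · simp [c2]
    · have h1 : s e ≠ a := by rintro rfl; exact c1 ha
      have h2 : t e ≠ a := by rintro rfl; exact c2 ha
      simp [h1, h2]

theorem inj_attI_out {s t : E → V} {S : Finset E} {T : Finset V} {tm : Fin 5 → E}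
    (h : Term s t S T tm) (w : Fin 5 → A) {a : V} (ha : a ∉ T) :
    inj (fun i => attI s t T (tm i)) w a = 0 := by
  refine sum_eq_zero fun i _ => if_neg ?_
  rintro rfl
  exact ha (attI_mem (h.crs i))

theorem inj_attO_in {s t : E → V} {S : Finset E} {T : Finset V} {tm : Fin 5 → E}
    (h : Term s t S T tm) (w : Fin 5 → A) {a : V} (ha : a ∈ T) :
    inj (fun i => attO s t T (tm i)) w a = 0 := by
  refine sum_eq_zero fun i _ => if_neg ?_
  rintro rfl
  exact attO_notMem (h.crs i) ha

theorem inj_neg (att : Fin 5 → V) (w : Fin 5 → A) (a : V) :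
    inj att (fun i => - w i) a = - inj att w a := by
  unfold inj
  rw [← sum_neg_distrib]
  refine sum_congr rfl fun i _ => ?_
  split_ifs <;> simp

/-- The two parts of a conserved flow. -/
theorem split_flow {s t : E → V} {S : Finset E} {T : Finset V} {tm : Fin 5 → E}
    (h : Term s t S T tm) (f : E → A) (hf : ∀ e, f e ≠ 0 → e ∈ S) (h0 : ∀ a, D s t f a = 0) :
    (∀ a, D s t (innP s t T f) a
      = inj (fun i => attI s t T (tm i)) (fun i => - ov s t f T (tm i)) a) ∧
    (∀ a, D s t (outP s t T f) a
      = inj (fun i => attO s t T (tm i)) (fun i => ov s t f T (tm i)) a) := by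
  constructor
  · intro a
    by_cases ha : a ∈ T
    · have h1 := D_split h f hf a
      rw [h0 a, D_outP_in f ha, inj_attO_in h _ ha] at h1
      rw [inj_neg, eq_neg_iff_add_eq_zero, h1]
      abel
    · rw [D_innP_out f ha, inj_attI_out h _ ha]
  · intro a
    by_cases ha : a ∈ T
    · rw [D_outP_in f ha, inj_attO_in h _ ha]
    · have h1 := D_split h f hf a
      rw [h0 a, D_innP_out f ha, inj_attI_out h _ ha] at h1
      rw [← sub_eq_zero, h1]
      abel

/-- Conversely, conservation from the two parts. -/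
theorem join_flow {s t : E → V} {S : Finset E} {T : Finset V} {tm : Fin 5 → E}
    (h : Term s t S T tm) (f : E → A) (hf : ∀ e, f e ≠ 0 → e ∈ S)
    (h1 : ∀ a, D s t (innP s t T f) a
      = inj (fun i => attI s t T (tm i)) (fun i => - ov s t f T (tm i)) a)
    (h2 : ∀ a, D s t (outP s t T f) a
      = inj (fun i => attO s t T (tm i)) (fun i => ov s t f T (tm i)) a) (a : V) :
    D s t f a = 0 := by
  rw [D_split h f hf a, h1, h2, inj_neg]
  abel

theorem ov_tm {s t : E → V} {T : Finset V} {e : E} (h : crs s t T e) (f : E → A) :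
    ov s t f T e = if s e ∈ T then f e else - f e := by
  unfold ov; rcases h with ⟨h1, h2⟩ | ⟨h1, h2⟩ <;> simp [h1, h2]

theorem ov_tm_ne {s t : E → V} {T : Finset V} {e : E} (h : crs s t T e) (f : E → A) :
    ov s t f T e ≠ 0 ↔ f e ≠ 0 := by
  rw [ov_tm h]; split_ifs <;> simp

/-- Gluing: a graph without nowhere-zero flow modulo 5 has complementary sides. -/
theorem glue {s t : E → V} {S : Finset E} {T : Finset V} {tm : Fin 5 → E}
    (h : Term s t S T tm) (hno : ¬ HasFlow (ZMod 5) s t S) (τ : Fin 5 → ZMod 5)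
    (hτ : ∀ i, τ i ≠ 0) :
    cnt s t (S.filter fun e => s e ∈ T ∧ t e ∈ T) (fun i => attI s t T (tm i)) τ = 0 ∨
    cnt s t (S.filter fun e => s e ∉ T ∧ t e ∉ T) (fun i => attO s t T (tm i))
      (fun i => - τ i) = 0 := by
  by_contra hc
  push Not at hc
  obtain ⟨hc1, hc2⟩ := hc
  obtain ⟨f1, hf1⟩ := card_pos.1 (Nat.pos_of_ne_zero hc1)
  obtain ⟨f2, hf2⟩ := card_pos.1 (Nat.pos_of_ne_zero hc2)
  simp only [mem_filter, mem_univ, true_and] at hf1 hf2
  apply hno
  obtain ⟨p1, p2⟩ := hf1
  obtain ⟨q1, q2⟩ := hf2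
  -- the crossing part
  let f3 : E → ZMod 5 := fun e => ∑ i, sgl (tm i) (if s (tm i) ∈ T then - τ i else τ i) e
  have hf3 : ∀ i, f3 (tm i) = if s (tm i) ∈ T then - τ i else τ i := by
    intro i
    simp only [f3, sgl]
    rw [sum_eq_single i]
    · simp
    · intro j _ hj
      rw [if_neg]
      intro hij
      exact hj (h.inj hij).symm
    · simp
  have hf3z : ∀ e, (∀ i, e ≠ tm i) → f3 e = 0 := by
    intro e he
    exact sum_eq_zero fun i _ => if_neg (he i)
  have hin : ∀ e, s e ∈ T → t e ∈ T → ∀ i, e ≠ tm i := by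
    intro e h1 h2 i hi
    subst hi
    rcases h.crs i with ⟨_, h4⟩ | ⟨h3, _⟩
    · exact h4 h2
    · exact h3 h1
  have hout : ∀ e, s e ∉ T → t e ∉ T → ∀ i, e ≠ tm i := by
    intro e h1 h2 i hi
    subst hi
    rcases h.crs i with ⟨h3, _⟩ | ⟨_, h4⟩
    · exact h1 h3
    · exact h2 h4
  have z1 : ∀ e, ¬ (s e ∈ T ∧ t e ∈ T) → f1 e = 0 := by
    intro e he
    by_contra hne
    exact he ((p1 e).1 hne).2
  have z2 : ∀ e, ¬ (s e ∉ T ∧ t e ∉ T) → f2 e = 0 := by
    intro e he
    by_contra hne
    exact he ((q1 e).1 hne).2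
  refine ⟨fun e => f1 e + f2 e + f3 e, ?_, ?_⟩
  · intro e
    change f1 e + f2 e + f3 e ≠ 0 ↔ e ∈ S
    by_cases c1 : s e ∈ T <;> by_cases c2 : t e ∈ T
    · rw [z2 e (by simp [c1]), hf3z e (hin e c1 c2), add_zero, add_zero, p1 e]
      simp [c1, c2]
    · rw [z1 e (by simp [c2]), z2 e (by simp [c1]), zero_add, zero_add]
      constructor
      · intro hne
        by_contra hS
        apply hne
        apply hf3z
        rintro i rfl
        exact hS (h.mem i)
      · intro hS
        obtain ⟨i, rfl⟩ := h.all e hS (Or.inl ⟨c1, c2⟩)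
        rw [hf3 i, if_pos c1]
        exact neg_ne_zero.2 (hτ i)
    · rw [z1 e (by simp [c1]), z2 e (by simp [c2]), zero_add, zero_add]
      constructor
      · intro hne
        by_contra hS
        apply hne
        apply hf3z
        rintro i rfl
        exact hS (h.mem i)
      · intro hS
        obtain ⟨i, rfl⟩ := h.all e hS (Or.inr ⟨c1, c2⟩)
        rw [hf3 i, if_neg c1]
        exact hτ i
    · rw [z1 e (by simp [c1]), hf3z e (hout e c1 c2), add_zero, zero_add, q1 e]
      simp [c1, c2]
  · intro a
    have e1 : D s t (fun e => f1 e + f2 e + f3 e) a = D s t f1 a + D s t f2 a + D s t f3 a := by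
      rw [D_add s t (fun e => f1 e + f2 e) f3, D_add]
    have e2 : D s t f3 a = ∑ i, D s t (sgl (tm i) (if s (tm i) ∈ T then - τ i else τ i)) a := by
      simp only [D, f3]
      rw [sum_comm]
      refine sum_congr rfl fun e _ => ?_
      rw [sum_sub_distrib]
      congr 1
      · by_cases hc : s e = a <;> simp [hc]
      · by_cases hc : t e = a <;> simp [hc]
    rw [e1, e2, p2, q2, inj, inj, ← sum_add_distrib, ← sum_add_distrib]
    refine sum_eq_zero fun i _ => ?_
    rw [D_sgl]
    unfold attI attO
    by_cases c1 : s (tm i) ∈ T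
    · simp only [c1, if_true]
      split_ifs <;> ring
    · simp only [c1, if_false]
      split_ifs <;> ring

end MP974d84
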