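import Mathlib
import Pool.Agent.Work.MP_974d84_co.Split

/-!
The inner side of a tight five-edge cut: boundary values realised by nowhere-zero flows modulo 5.
-/

namespace MP974d84

open Finset

variable {V E : Type*} [Fintype V] [DecidableEq V] [Fintype E] [DecidableEq E]

theorem sum_crs {A : Type*} [AddCommGroup A] {s t : E → V} {S : Finset E} {T : Finset V}
    {tm : Fin 5 → E} (h : Term s t S T tm) (G : E → A) (hG : ∀ e, e ∉ S → G e = 0) :
    ∑ e, (if crs s t T e then G e else 0) = ∑ i, G (tm i) := by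
  have h2 : ∑ i, G (tm i) = ∑ e ∈ univ.image tm, (if crs s t T e then G e else 0) := by
    rw [sum_image (fun i _ j _ hij => h.inj hij)]
    refine sum_congr rfl fun i _ => ?_
    rw [if_pos (h.crs i)]
  rw [h2]
  symm
  apply sum_subset (subset_univ _)
  intro e _ he
  by_cases hc : crs s t T e
  · rw [if_pos hc]
    by_cases hS : e ∈ S
    · obtain ⟨i, hi⟩ := h.all e hS hc
      exact absurd (mem_image.2 ⟨i, mem_univ i, hi.symm⟩) he
    · exact hG e hS
  · rw [if_neg hc]

theorem inj_total {A : Type*} [AddCommGroup A] (att : Fin 5 → V) (w : Fin 5 → A) (Z : Finset V) :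
    ∑ a ∈ Z, inj att w a = ∑ i, if att i ∈ Z then w i else 0 := by
  simp only [inj]
  rw [sum_comm]
  refine sum_congr rfl fun i _ => ?_
  rw [sum_ite_eq]

theorem cast2 {z : ℤ} (h : -1 ≤ z ∧ z ≤ 1) : ((z : ZMod 2) = 0 ↔ z = 0) := by
  rw [ZMod.intCast_zmod_eq_zero_iff_dvd]
  simp only [Nat.cast_ofNat]
  omega

/-- A tight five-edge cut. -/
structure Sit (s t : E → V) (S F : Finset E) (T : Finset V) (tm : Fin 5 → E) (b a : E → ℤ) :
    Prop where
  term : Term s t S T tm
  b1 : ∀ e, -1 ≤ b e ∧ b e ≤ 1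
  a1 : ∀ e, -1 ≤ a e ∧ a e ≤ 1
  bD : ∀ v, D s t b v = 0
  aD : ∀ v, D s t a v = 0
  supp : ∀ e, (b e ≠ 0 ∨ a e ≠ 0) ↔ (e ∈ S ∧ e ∉ F)
  h0 : tm 0 ∈ F
  hF : ∀ e ∈ F, e ≠ tm 0 → s e ∉ T ∧ t e ∉ T
  v1 : ov s t b T (tm 1) = -1 ∧ ov s t a T (tm 1) = 0
  v2 : ov s t b T (tm 2) = -1 ∧ ov s t a T (tm 2) = 0
  v3 : ov s t b T (tm 3) = 1 ∧ ov s t a T (tm 3) = 1
  v4 : ov s t b T (tm 4) = 1 ∧ ov s t a T (tm 4) = -1
  br : ∀ Z : Finset V, (S.filter fun e => crs s t Z e).card ≠ 1

section
variable {s t : E → V} {S F : Finset E} {T : Finset V} {tm : Fin 5 → E} {b a : E → ℤ}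
  (h : Sit s t S F T tm b a)
include h

theorem Sit.phi_abs (e : E) : -3 ≤ b e + 2 * a e ∧ b e + 2 * a e ≤ 3 := by
  have := h.b1 e
  have := h.a1 e
  omega

theorem Sit.phi_ne (e : E) : b e + 2 * a e ≠ 0 ↔ (e ∈ S ∧ e ∉ F) := by
  rw [← h.supp e]
  have := h.b1 e
  have := h.a1 e
  omega

theorem Sit.z0 : b (tm 0) = 0 ∧ a (tm 0) = 0 := by
  have := h.supp (tm 0)
  have h0 := h.h0
  by_contra hc
  have : b (tm 0) ≠ 0 ∨ a (tm 0) ≠ 0 := by omega
  exact ((h.supp _).1 this).2 h0

theorem Sit.inner_notF {e : E} (h1 : s e ∈ T) (h2 : t e ∈ T) : e ∉ F := by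
  intro hF
  by_cases he : e = tm 0
  · subst he
    rcases h.term.crs 0 with ⟨_, h3⟩ | ⟨h3, _⟩
    · exact h3 h2
    · exact h3 h1
  · exact (h.hF e hF he).1 h1

/-- Boundary values all equal are realised on the inner side. -/
theorem Sit.exit : 0 < cnt s t (S.filter fun e => s e ∈ T ∧ t e ∈ T)
    (fun i => attI s t T (tm i)) (fun _ => 1) := by
  set φ : E → ℤ := fun e => b e + 2 * a e with hφ
  have hDφ : ∀ v, D s t φ v = 0 := by
    intro v
    rw [hφ, D_comb, h.bD, h.aD]; rfl
  let c : Fin 5 → ℤ := fun i => if i = 0 then 1 else - hi (ov s t φ T (tm i))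
  have hov : ∀ i, ov s t φ T (tm i) = ov s t b T (tm i) + 2 * ov s t a T (tm i) := fun i =>
    ov_comb s t b a T (tm i)
  have c1 : c 1 = 1 := by simp [c, hov, h.v1, hi]
  have c2 : c 2 = 1 := by simp [c, hov, h.v2, hi]
  have c3 : c 3 = -4 := by simp [c, hov, h.v3, hi]
  have c4 : c 4 = 1 := by simp [c, hov, h.v4, hi]
  have c0 : c 0 = 1 := by simp [c]
  obtain ⟨g, hg1, hg2⟩ := hoffmanE s t
    (fun e => if s e ∈ T ∧ t e ∈ T then - hi (- φ e) else 0)
    (fun e => if s e ∈ T ∧ t e ∈ T then hi (φ e) else 0)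
    (fun e => by
      split_ifs
      · unfold hi; split_ifs <;> omega
      · exact le_rfl)
    (inj (fun i => attI s t T (tm i)) c)
    (by
      rw [inj_total]
      simp only [mem_univ, if_true, Fin.sum_univ_five, c0, c1, c2, c3, c4]
      norm_num)
    (by
      intro Z
      rw [inj_total]
      -- compare with the slack of `Z ∩ T`
      have e1 : ∀ e, hi (ov s t φ (Z ∩ T) e) = cap s t
          (fun e => if s e ∈ T ∧ t e ∈ T then - hi (- φ e) else 0)
          (fun e => if s e ∈ T ∧ t e ∈ T then hi (φ e) else 0) Z e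
          + (if crs s t T e then (if attI s t T e ∈ Z then hi (ov s t φ T e) else 0) else 0) := by
        intro e
        unfold ov cap crs attI
        simp only [mem_inter]
        by_cases m1 : s e ∈ T <;> by_cases m2 : t e ∈ T <;> by_cases m3 : s e ∈ Z <;>
          by_cases m4 : t e ∈ Z <;> simp [m1, m2, m3, m4, hi]
      have e2 : hh s t φ (Z ∩ T) = ∑ e, cap s t
          (fun e => if s e ∈ T ∧ t e ∈ T then - hi (- φ e) else 0)
          (fun e => if s e ∈ T ∧ t e ∈ T then hi (φ e) else 0) Z e
          + ∑ i, (if attI s t T (tm i) ∈ Z then hi (ov s t φ T (tm i)) else 0) := by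
        rw [hh, sum_congr rfl fun e _ => e1 e, sum_add_distrib]
        congr 1
        refine sum_crs h.term (fun e => if attI s t T e ∈ Z then hi (ov s t φ T e) else 0) ?_
        intro e he
        have : φ e = 0 := by
          by_contra hne
          exact he ((h.phi_ne e).1 hne).1
        simp [ov_zero this, hi]
      have e3 : ov s t φ T (tm 0) = 0 := by
        apply ov_zero
        simp [hφ, h.z0]
      have e4 : ∑ i, (if attI s t T (tm i) ∈ Z then c i else 0)
          = (if attI s t T (tm 0) ∈ Z then 1 else 0)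
            - ∑ i, (if attI s t T (tm i) ∈ Z then hi (ov s t φ T (tm i)) else 0) := by
        simp only [Fin.sum_univ_five, e3]
        simp only [c]
        simp only [hi, Fin.isValue, ↓reduceIte, lt_self_iff_false, one_ne_zero, Fin.reduceEq]
        split_ifs <;> ring
      rw [e4]
      have e5 : (if attI s t T (tm 0) ∈ Z then (1 : ℤ) else 0) ≤ hh s t φ (Z ∩ T) := by
        have hnn := hh_nonneg (s := s) (t := t) (φ := φ) h.phi_abs hDφ (Z ∩ T)
        by_cases hx : attI s t T (tm 0) ∈ Z
        · rw [if_pos hx]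
          by_contra hlt
          have hz : hh s t φ (Z ∩ T) = 0 := by omega
          have hz' := hh_zero (s := s) (t := t) (φ := φ) h.phi_abs hDφ hz
          apply h.br (Z ∩ T)
          rw [card_eq_one]
          refine ⟨tm 0, ?_⟩
          ext e
          simp only [mem_filter, mem_singleton]
          constructor
          · rintro ⟨he, hce⟩
            by_cases hF : e ∈ F
            · by_contra hne
              have := h.hF e hF hne
              unfold crs at hce
              simp only [mem_inter, this.1, this.2, and_false, false_and, or_self] at hce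
            · exfalso
              have h1 := (h.phi_ne e).2 ⟨he, hF⟩
              exact (ov_tm_ne hce φ).2 h1 (hz' e)
          · rintro rfl
            refine ⟨h.term.mem 0, ?_⟩
            have hm := attI_mem (h.term.crs 0)
            unfold attI at hx hm
            rcases h.term.crs 0 with ⟨n1, n2⟩ | ⟨n1, n2⟩
            · rw [if_pos n1] at hx
              left
              simp [n1, n2, hx]
            · rw [if_neg n1] at hx
              right
              simp [n1, n2, hx]
        · rw [if_neg hx]; exact hnn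
      omega)
  apply card_pos.2
  refine ⟨fun e => ((g e : ℤ) : ZMod 5), ?_⟩
  simp only [mem_filter, mem_univ, true_and]
  refine ⟨fun e => ?_, fun v => ?_⟩
  · have h1 := hg1 e
    have h2 := h.phi_abs e
    have h3 := h.phi_ne e
    by_cases hc : s e ∈ T ∧ t e ∈ T
    · simp only [hc, and_self, if_true, and_true] at h1 ⊢
      have h4 := h.inner_notF hc.1 hc.2
      have h5 : φ e ≠ 0 ↔ e ∈ S := by
        rw [h3]; simp [h4]
      rw [← h5, ne_eq, ZMod.intCast_zmod_eq_zero_iff_dvd]
      simp only [Nat.cast_ofNat]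
      have h6 : -3 ≤ φ e ∧ φ e ≤ 3 := h2
      unfold hi at h1
      split_ifs at h1 <;> omega
    · simp only [hc, if_false, and_false] at h1 ⊢
      have : g e = 0 := by omega
      simp [this]
  · have h1 := D_map (Int.castAddHom (ZMod 5)) s t g v
    simp only [Int.coe_castAddHom] at h1
    rw [h1, hg2 v]
    unfold inj
    push_cast
    refine sum_congr rfl fun i _ => ?_
    split_ifs
    · fin_cases i
      · simp [c0]
      · simp [c1]
      · simp [c2]
      · simp [c3]; decide
      · simp [c4]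
    · simp

end

end MP974d84
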