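import Mathlib
import Pool.Agent.Work.MP_974d84_co.Inner

/-!
Closing the inner side of a tight five-edge cut: two terminals of one colour are joined.
-/

namespace MP974d84

open Finset

variable {V E : Type*} [Fintype V] [DecidableEq V] [Fintype E] [DecidableEq E]

/-- Source map of the closed graph. -/
def cS1 (s t : E → V) (T : Finset V) (tm : Fin 5 → E) (p r r' : Fin 5) (e : E) : V :=
  if e = tm p ∨ e = tm r ∨ e = tm r' then attI s t T e else s e

/-- Target map of the closed graph. -/
def cT1 (s t : E → V) (T : Finset V) (tm : Fin 5 → E) (p q r r' : Fin 5) (e : E) : V :=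
  if e = tm p then attI s t T (tm q) else if e = tm r ∨ e = tm r' then attO s t T (tm 0) else t e

/-- The functions living on the closed graph. -/
def cF {A : Type*} [AddCommGroup A] (s t : E → V) (T : Finset V) (tm : Fin 5 → E)
    (p r r' : Fin 5) (f : E → A) (e : E) : A :=
  if (s e ∈ T ∧ t e ∈ T) ∨ e = tm 0 ∨ e = tm p ∨ e = tm r ∨ e = tm r' then f e else 0

/-- Edge set of the closed graph. -/
def cE (s t : E → V) (S : Finset E) (T : Finset V) (tm : Fin 5 → E) (p r r' : Fin 5) : Finset E :=
  S.filter fun e => (s e ∈ T ∧ t e ∈ T) ∨ e = tm 0 ∨ e = tm p ∨ e = tm r ∨ e = tm r'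

/-- The two admissible closings. -/
def Adm (p q r r' : Fin 5) : Prop :=
  (p = 3 ∧ q = 4 ∧ r = 1 ∧ r' = 2) ∨ (p = 1 ∧ q = 2 ∧ r = 3 ∧ r' = 4)

theorem Adm.sum {p q r r' : Fin 5} (h : Adm p q r r') {A : Type*} [AddCommGroup A]
    (G : Fin 5 → A) : ∑ i, G i = G 0 + G p + G q + G r + G r' := by
  rcases h with ⟨rfl, rfl, rfl, rfl⟩ | ⟨rfl, rfl, rfl, rfl⟩ <;>
    (rw [Fin.sum_univ_five]; try abel)

theorem Adm.ne {p q r r' : Fin 5} (h : Adm p q r r') : p ≠ 0 ∧ q ≠ 0 ∧ r ≠ 0 ∧ r' ≠ 0 ∧ p ≠ q ∧
    p ≠ r ∧ p ≠ r' ∧ q ≠ r ∧ q ≠ r' ∧ r ≠ r' := by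
  rcases h with ⟨rfl, rfl, rfl, rfl⟩ | ⟨rfl, rfl, rfl, rfl⟩ <;> decide

section
variable {s t : E → V} {S F : Finset E} {T : Finset V} {tm : Fin 5 → E} {b a : E → ℤ}
  (h : Sit s t S F T tm b a) {p q r r' : Fin 5} (hA : Adm p q r r')
include h hA

theorem Sit.D_closed {A : Type*} [AddCommGroup A] (f : E → A) (v : V) :
    D (cS1 s t T tm p r r') (cT1 s t T tm p q r r') (cF s t T tm p r r' f) v
      = D s t (innP s t T f) v
        + (((if s (tm 0) = v then f (tm 0) else 0) - (if t (tm 0) = v then f (tm 0) else 0))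
        + ((if attI s t T (tm p) = v then f (tm p) else 0)
          - (if attI s t T (tm q) = v then f (tm p) else 0))
        + ((if attI s t T (tm r) = v then f (tm r) else 0)
          - (if attO s t T (tm 0) = v then f (tm r) else 0))
        + ((if attI s t T (tm r') = v then f (tm r') else 0)
          - (if attO s t T (tm 0) = v then f (tm r') else 0))) := by
  obtain ⟨n1, n2, n3, n4, n5, n6, n7, n8, n9, n10⟩ := hA.ne
  have inj := h.term.inj
  have hni : ∀ i, ¬ (s (tm i) ∈ T ∧ t (tm i) ∈ T) := by
    intro i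
    rcases h.term.crs i with ⟨_, h2⟩ | ⟨h1, _⟩
    · exact fun hc => h2 hc.2
    · exact fun hc => h1 hc.1
  have key : ∀ e, (if cS1 s t T tm p r r' e = v then cF s t T tm p r r' f e else 0)
      - (if cT1 s t T tm p q r r' e = v then cF s t T tm p r r' f e else 0)
      = ((if s e = v then innP s t T f e else 0) - (if t e = v then innP s t T f e else 0))
        + ((if e = tm 0 then (if s (tm 0) = v then f (tm 0) else 0)
            - (if t (tm 0) = v then f (tm 0) else 0) else 0)
        + (if e = tm p then (if attI s t T (tm p) = v then f (tm p) else 0)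
            - (if attI s t T (tm q) = v then f (tm p) else 0) else 0)
        + (if e = tm r then (if attI s t T (tm r) = v then f (tm r) else 0)
            - (if attO s t T (tm 0) = v then f (tm r) else 0) else 0)
        + (if e = tm r' then (if attI s t T (tm r') = v then f (tm r') else 0)
            - (if attO s t T (tm 0) = v then f (tm r') else 0) else 0)) := by
    intro e
    unfold cS1 cT1 cF innP
    by_cases c0 : e = tm 0
    · subst c0
      have m1 : tm 0 ≠ tm p := fun hc => n1 (inj hc).symm
      have m2 : tm 0 ≠ tm r := fun hc => n3 (inj hc).symm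
      have m3 : tm 0 ≠ tm r' := fun hc => n4 (inj hc).symm
      simp [m1, m2, m3, hni 0]
    · by_cases cp : e = tm p
      · subst cp
        have m2 : tm p ≠ tm r := fun hc => n6 (inj hc)
        have m3 : tm p ≠ tm r' := fun hc => n7 (inj hc)
        simp [c0, m2, m3, hni p]
      · by_cases cr : e = tm r
        · subst cr
          have m3 : tm r ≠ tm r' := fun hc => n10 (inj hc)
          simp [c0, cp, m3, hni r]
        · by_cases cr' : e = tm r'
          · subst cr'
            simp [c0, cp, cr, hni r']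
          · simp [c0, cp, cr, cr']
  rw [D, sum_congr rfl fun e _ => key e, sum_add_distrib, sum_add_distrib, sum_add_distrib,
    sum_add_distrib]
  simp only [sum_ite_eq', mem_univ, if_true]
  rfl

theorem Sit.parity_closed (f : E → ZMod 2) (hf : ∀ e, f e ≠ 0 → e ∈ S) (h0 : ∀ v, D s t f v = 0)
    (hf0 : f (tm 0) = 0) (hpq : f (tm p) = f (tm q)) (hr : f (tm r) = f (tm r')) (v : V) :
    D (cS1 s t T tm p r r') (cT1 s t T tm p q r r') (cF s t T tm p r r' f) v = 0 := by
  have hw : ∀ i, - ov s t f T (tm i) = f (tm i) := by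
    intro i
    rw [ov_tm (h.term.crs i)]
    have : ∀ z : ZMod 2, - z = z := by decide
    split_ifs <;> simp [this]
  have h1 := (split_flow h.term f hf h0).1 v
  rw [h.D_closed hA, h1]
  simp only [hw, inj]
  rw [hA.sum, hf0, ← hpq, ← hr]
  have hzz : ∀ z : ZMod 2, z + z = 0 := by decide
  have hz2 : (2 : ZMod 2) = 0 := rfl
  simp only [ite_self, sub_self, zero_add]
  generalize f (tm p) = x
  generalize f (tm r) = y
  have e1 : ∀ (P : Prop) [Decidable P] (z : ZMod 2), (if P then z else 0) + (if P then z else 0) = 0 := by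
    intro P _ z; split_ifs <;> simp [hzz]
  have e2 : ∀ z : ZMod 2, - z = z := by decide
  simp only [sub_eq_add_neg, e2]
  have a1 := e1 (attI s t T (tm p) = v) x
  have a2 := e1 (attI s t T (tm q) = v) x
  have a3 := e1 (attI s t T (tm r) = v) y
  have a4 := e1 (attI s t T (tm r') = v) y
  have a5 := e1 (attO s t T (tm 0) = v) y
  linear_combination a1 + a2 + a3 + a4 + a5

theorem Sit.closed_flow (hpq : ((b (tm p) : ℤ) : ZMod 2) = (b (tm q) : ℤ) ∧
      ((a (tm p) : ℤ) : ZMod 2) = (a (tm q) : ℤ))
    (hr : ((b (tm r) : ℤ) : ZMod 2) = (b (tm r') : ℤ) ∧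
      ((a (tm r) : ℤ) : ZMod 2) = (a (tm r') : ℤ))
    (hne : ov s t b T (tm p) + ov s t b T (tm q) ≠ 0) :
    HasFlow (ZMod 5) (cS1 s t T tm p r r') (cT1 s t T tm p q r r') (cE s t S T tm p r r') := by
  obtain ⟨n1, n2, n3, n4, n5, n6, n7, n8, n9, n10⟩ := hA.ne
  have inj := h.term.inj
  set s' := cS1 s t T tm p r r' with hs'
  set t' := cT1 s t T tm p q r r' with ht'
  have hz := h.z0
  have hsup : ∀ e, (b e ≠ 0 ∨ a e ≠ 0) → e ∈ S := fun e he => ((h.supp e).1 he).1
  have hcast : ∀ (g : E → ℤ), (∀ v, D s t g v = 0) → ∀ v, D s t (fun e => ((g e : ℤ) : ZMod 2)) v = 0 := by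
    intro g hg v
    have h1 := D_map (Int.castAddHom (ZMod 2)) s t g v
    simp only [Int.coe_castAddHom] at h1
    rw [h1, hg v]; simp
  obtain ⟨b', hb1, hbD, hbc⟩ := lift2 s' t' (cF s t T tm p r r' fun e => ((b e : ℤ) : ZMod 2))
    (h.parity_closed hA _ (fun e he => hsup e (Or.inl (fun h0 => he (by simp [h0])))) (hcast b h.bD)
      (by simp [hz.1]) hpq.1 hr.1)
  obtain ⟨a', ha1, haD, hac⟩ := lift2 s' t' (cF s t T tm p r r' fun e => ((a e : ℤ) : ZMod 2))
    (h.parity_closed hA _ (fun e he => hsup e (Or.inr (fun h0 => he (by simp [h0])))) (hcast a h.aD)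
      (by simp [hz.2]) hpq.2 hr.2)
  -- support of the new flow
  have hsupp : ∀ e, (b' e + 2 * a' e ≠ 0) ↔
      ((s e ∈ T ∧ t e ∈ T) ∨ e = tm 0 ∨ e = tm p ∨ e = tm r ∨ e = tm r') ∧ e ∈ S ∧ e ∉ F := by
    intro e
    have k1 := cast2 (hb1 e)
    have k2 := cast2 (ha1 e)
    rw [hbc e] at k1
    rw [hac e] at k2
    have k3 := hb1 e
    have k4 := ha1 e
    have k5 : b' e + 2 * a' e ≠ 0 ↔ ¬ (b' e = 0 ∧ a' e = 0) := by omega
    rw [k5, ← k1, ← k2]
    unfold cF
    by_cases hc : (s e ∈ T ∧ t e ∈ T) ∨ e = tm 0 ∨ e = tm p ∨ e = tm r ∨ e = tm r'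
    · simp only [hc, if_true, true_and]
      rw [cast2 (h.b1 e), cast2 (h.a1 e), ← h.supp e]
      omega
    · simp only [hc, if_false, and_self, not_true_eq_false, false_and]
  have hstm0 : s' (tm 0) = s (tm 0) := by
    have m1 : tm 0 ≠ tm p := fun hc => n1 (inj hc).symm
    have m2 : tm 0 ≠ tm r := fun hc => n3 (inj hc).symm
    have m3 : tm 0 ≠ tm r' := fun hc => n4 (inj hc).symm
    simp [hs', cS1, m1, m2, m3]
  have httm0 : t' (tm 0) = t (tm 0) := by
    have m1 : tm 0 ≠ tm p := fun hc => n1 (inj hc).symm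
    have m2 : tm 0 ≠ tm r := fun hc => n3 (inj hc).symm
    have m3 : tm 0 ≠ tm r' := fun hc => n4 (inj hc).symm
    simp [ht', cT1, m1, m2, m3]
  have h3 : ∀ e, -3 ≤ b' e + 2 * a' e ∧ b' e + 2 * a' e ≤ 3 := by
    intro e
    have := hb1 e
    have := ha1 e
    omega
  have hD : ∀ v, D s' t' (fun e => b' e + 2 * a' e) v = 0 := by
    intro v
    rw [D_comb, hbD, haD]; rfl
  refine extendE (φ := fun e => b' e + 2 * a' e) (ρ := sgl (tm 0) 1) h3 ?_ ?_ ?_ ?_
  · intro e
    unfold sgl; split_ifs <;> norm_num
  · intro e he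
    unfold sgl
    rw [if_neg]
    rintro rfl
    exact ((hsupp _).1 he).2.2 h.h0
  · intro e
    simp only [hsupp]
    unfold cE sgl
    simp only [mem_filter]
    by_cases he : e = tm 0
    · subst he
      simp [h.term.mem 0]
    · simp only [he, if_false, ne_eq, not_true_eq_false, or_false, false_or]
      constructor
      · rintro ⟨k1, k2⟩
        refine ⟨k2, k1, ?_⟩
        rcases k2 with k2 | rfl | rfl | rfl
        · exact h.inner_notF k2.1 k2.2
        · intro hF
          have := h.hF _ hF he
          rcases h.term.crs p with ⟨h1, _⟩ | ⟨_, h1⟩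
          · exact this.1 h1
          · exact this.2 h1
        · intro hF
          have := h.hF _ hF he
          rcases h.term.crs r with ⟨h1, _⟩ | ⟨_, h1⟩
          · exact this.1 h1
          · exact this.2 h1
        · intro hF
          have := h.hF _ hF he
          rcases h.term.crs r' with ⟨h1, _⟩ | ⟨_, h1⟩
          · exact this.1 h1
          · exact this.2 h1
      · rintro ⟨k1, k2, k3⟩
        exact ⟨k2, k1⟩
  · intro Z
    have hρ : ∑ e, ov s' t' (sgl (tm 0) (1 : ℤ)) Z e
        = (if s (tm 0) ∈ Z then 1 else 0) - (if t (tm 0) ∈ Z then 1 else 0) := by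
      rw [sum_eq_single (tm 0)]
      · unfold ov sgl
        simp [hstm0, httm0]
      · intro e _ he
        exact ov_zero (by simp [sgl, he])
      · simp
    rw [hρ]
    have hnn := hh_nonneg h3 hD Z
    by_contra hlt
    push Not at hlt
    have hst : s (tm 0) ∉ Z ∧ t (tm 0) ∈ Z := by
      by_cases c1 : s (tm 0) ∈ Z <;> by_cases c2 : t (tm 0) ∈ Z <;>
        simp only [c1, c2, if_true, if_false] at hlt
      · omega
      · omega
      · exact ⟨c1, c2⟩
      · omega
    have hz0 : hh s' t' (fun e => b' e + 2 * a' e) Z = 0 := by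
      simp only [hst.1, hst.2, if_true, if_false] at hlt
      omega
    have hcross : ∀ e, e ∈ S → e ∉ F →
        ((s e ∈ T ∧ t e ∈ T) ∨ e = tm 0 ∨ e = tm p ∨ e = tm r ∨ e = tm r') →
        (s' e ∈ Z ↔ t' e ∈ Z) := by
      intro e he1 he2 he3
      have k1 := hh_zero h3 hD hz0 e
      have k2 := (hsupp e).2 ⟨he3, he1, he2⟩
      unfold ov at k1
      by_cases c1 : s' e ∈ Z <;> by_cases c2 : t' e ∈ Z <;>
        simp only [c1, c2, if_true, if_false] at k1 ⊢
      · exact absurd (by omega) k2
      · exact absurd (by omega) k2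
    -- membership of terminals outside `F`
    have htmF : ∀ i, i ≠ 0 → tm i ∉ F := by
      intro i hi hF
      have := h.hF _ hF (fun hc => hi (inj hc))
      rcases h.term.crs i with ⟨h1, _⟩ | ⟨_, h1⟩
      · exact this.1 h1
      · exact this.2 h1
    have hr1 : ∀ i, (i = r ∨ i = r') → (attI s t T (tm i) ∈ Z ↔ attO s t T (tm 0) ∈ Z) := by
      intro i hi
      have hi0 : i ≠ 0 := by rcases hi with rfl | rfl <;> assumption
      have k1 := hcross (tm i) (h.term.mem i) (htmF i hi0)
        (by rcases hi with rfl | rfl <;> simp)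
      have k2 : s' (tm i) = attI s t T (tm i) := by
        rcases hi with rfl | rfl <;> simp [hs', cS1]
      have k3 : t' (tm i) = attO s t T (tm 0) := by
        have m1 : tm i ≠ tm p := by
          rcases hi with rfl | rfl
          · exact fun hc => n6 (inj hc).symm
          · exact fun hc => n7 (inj hc).symm
        rcases hi with rfl | rfl <;> simp [ht', cT1, m1]
      rw [k2, k3] at k1
      exact k1
    have hp1 : attI s t T (tm p) ∈ Z ↔ attI s t T (tm q) ∈ Z := by
      have k1 := hcross (tm p) (h.term.mem p) (htmF p n1) (by simp)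
      have k2 : s' (tm p) = attI s t T (tm p) := by simp [hs', cS1]
      have k3 : t' (tm p) = attI s t T (tm q) := by simp [ht', cT1]
      rw [k2, k3] at k1
      exact k1
    have hx : ¬ (attI s t T (tm 0) ∈ Z ↔ attO s t T (tm 0) ∈ Z) := by
      unfold attI attO
      split_ifs <;> simp [hst.1, hst.2]
    -- the side of `T` on which the end of `tm 0` lies
    let W : Finset V := T.filter fun v => (v ∈ Z ↔ attI s t T (tm 0) ∈ Z)
    have hWT : ∀ v, v ∈ W → v ∈ T := fun v hv => (mem_filter.1 hv).1
    have hinner : ∀ e ∈ S, s e ∈ T → t e ∈ T → (s e ∈ W ↔ t e ∈ W) := by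
      intro e he h1 h2
      have hF := h.inner_notF h1 h2
      have htm : ∀ i, e ≠ tm i := by
        rintro i rfl
        rcases h.term.crs i with ⟨_, h4⟩ | ⟨h4, _⟩
        · exact h4 h2
        · exact h4 h1
      have k1 := hcross e he hF (Or.inl ⟨h1, h2⟩)
      have k2 : s' e = s e := by simp [hs', cS1, htm]
      have k3 : t' e = t e := by simp [ht', cT1, htm]
      rw [k2, k3] at k1
      simp only [W, mem_filter, h1, h2, true_and, k1]
    have hcr : ∀ i, crs s t W (tm i) ↔ attI s t T (tm i) ∈ W := by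
      intro i
      unfold crs attI
      rcases h.term.crs i with ⟨h1, h2⟩ | ⟨h1, h2⟩
      · have h3 : t (tm i) ∉ W := fun hc => h2 (hWT _ hc)
        simp [h1, h3]
      · have h3 : s (tm i) ∉ W := fun hc => h1 (hWT _ hc)
        simp [h1, h3]
    have hW0 : attI s t T (tm 0) ∈ W := by
      simp only [W, mem_filter, attI_mem (h.term.crs 0), true_and]
    have hWr : ∀ i, (i = r ∨ i = r') → attI s t T (tm i) ∉ W := by
      intro i hi hc
      have := (mem_filter.1 hc).2
      exact hx (this.symm.trans (hr1 i hi))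
    have hWpq : attI s t T (tm p) ∈ W ↔ attI s t T (tm q) ∈ W := by
      simp only [W, mem_filter, attI_mem (h.term.crs p), attI_mem (h.term.crs q), true_and, hp1]
    by_cases hpW : attI s t T (tm p) ∈ W
    · -- conservation of `b` over `W`
      have k1 := sum_ov h.bD W
      have k2 : ∀ e, ov s t b W e
          = if crs s t T e then (if attI s t T e ∈ W then ov s t b T e else 0) else 0 := by
        intro e
        by_cases hb0 : b e = 0
        · rw [ov_zero hb0, ov_zero hb0]; simp
        · have heS : e ∈ S := hsup e (Or.inl hb0)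
          by_cases c1 : s e ∈ T <;> by_cases c2 : t e ∈ T
          · have k3 := hinner e heS c1 c2
            have : ¬ crs s t T e := by unfold crs; simp [c1, c2]
            rw [if_neg this]
            unfold ov
            by_cases c3 : s e ∈ W
            · simp [c3, k3.1 c3]
            · have : t e ∉ W := fun hc => c3 (k3.2 hc)
              simp [c3, this]
          · have c4 : t e ∉ W := fun hc => c2 (hWT _ hc)
            have : crs s t T e := Or.inl ⟨c1, c2⟩
            rw [if_pos this]
            unfold ov attI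
            simp [c1, c2, c4]
          · have c4 : s e ∉ W := fun hc => c1 (hWT _ hc)
            have : crs s t T e := Or.inr ⟨c1, c2⟩
            rw [if_pos this]
            unfold ov attI
            by_cases c5 : t e ∈ W <;> simp [c1, c2, c4, c5]
          · have c4 : s e ∉ W := fun hc => c1 (hWT _ hc)
            have c5 : t e ∉ W := fun hc => c2 (hWT _ hc)
            have : ¬ crs s t T e := by unfold crs; simp [c1, c2]
            rw [if_neg this]
            unfold ov
            simp [c4, c5]
      simp only [k2] at k1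
      rw [sum_crs h.term (fun e => if attI s t T e ∈ W then ov s t b T e else 0) (by
        intro e he
        have : b e = 0 := by
          by_contra hne
          exact he (hsup e (Or.inl hne))
        rw [ov_zero this]; simp), hA.sum] at k1
      have k3 : ov s t b T (tm 0) = 0 := ov_zero hz.1
      simp only [k3, ite_self, hpW, hWpq.1 hpW, if_true, hWr r (Or.inl rfl),
        hWr r' (Or.inr rfl), if_false, add_zero, zero_add] at k1
      exact hne k1
    · -- then `tm 0` alone crosses `W`
      apply h.br W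
      rw [card_eq_one]
      refine ⟨tm 0, ?_⟩
      ext e
      simp only [mem_filter, mem_singleton]
      constructor
      · rintro ⟨he, hce⟩
        by_cases hTc : crs s t T e
        · obtain ⟨i, rfl⟩ := h.term.all e he hTc
          have k1 := (hcr i).1 hce
          have k2 : i = 0 ∨ i = p ∨ i = q ∨ i = r ∨ i = r' := by
            rcases hA with ⟨rfl, rfl, rfl, rfl⟩ | ⟨rfl, rfl, rfl, rfl⟩ <;> (clear * -; revert i; decide)
          rcases k2 with rfl | rfl | rfl | rfl | rfl
          · rfl
          · exact absurd k1 hpW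
          · exact absurd (hWpq.2 k1) hpW
          · exact absurd k1 (hWr _ (Or.inl rfl))
          · exact absurd k1 (hWr _ (Or.inr rfl))
        · exfalso
          by_cases c1 : s e ∈ T <;> by_cases c2 : t e ∈ T
          · have k3 := hinner e he c1 c2
            unfold crs at hce
            tauto
          · exact hTc (Or.inl ⟨c1, c2⟩)
          · exact hTc (Or.inr ⟨c1, c2⟩)
          · have c4 : s e ∉ W := fun hc => c1 (hWT _ hc)
            have c5 : t e ∉ W := fun hc => c2 (hWT _ hc)
            unfold crs at hce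
            tauto
      · rintro rfl
        exact ⟨h.term.mem 0, (hcr 0).2 hW0⟩

/-- Boundary values with `τ p + τ q = 0` realised on the inner side. -/
theorem Sit.closing (hpq : ((b (tm p) : ℤ) : ZMod 2) = (b (tm q) : ℤ) ∧
      ((a (tm p) : ℤ) : ZMod 2) = (a (tm q) : ℤ))
    (hr : ((b (tm r) : ℤ) : ZMod 2) = (b (tm r') : ℤ) ∧
      ((a (tm r) : ℤ) : ZMod 2) = (a (tm r') : ℤ))
    (hne : ov s t b T (tm p) + ov s t b T (tm q) ≠ 0) :
    ∃ τ : Fin 5 → ZMod 5, (∀ i, τ i ≠ 0) ∧ ∑ i, τ i = 0 ∧ τ p + τ q = 0 ∧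
      0 < cnt s t (S.filter fun e => s e ∈ T ∧ t e ∈ T) (fun i => attI s t T (tm i)) τ := by
  obtain ⟨f, hf1, hf2⟩ := h.closed_flow hA hpq hr hne
  obtain ⟨n1, n2, n3, n4, n5, n6, n7, n8, n9, n10⟩ := hA.ne
  have inj' := h.term.inj
  have hfF : cF s t T tm p r r' f = f := by
    ext e
    unfold cF
    split_ifs with hc
    · rfl
    · by_contra hne'
      have := (hf1 e).1 (Ne.symm hne')
      unfold cE at this
      exact hc (mem_filter.1 this).2
  have hfne : ∀ i, (i = 0 ∨ i = p ∨ i = r ∨ i = r') → f (tm i) ≠ 0 := by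
    intro i hi
    refine (hf1 _).2 (mem_filter.2 ⟨h.term.mem i, Or.inr ?_⟩)
    rcases hi with rfl | rfl | rfl | rfl <;> simp
  let w : Fin 5 → ZMod 5 := fun i => if i = 0 then ov s t f T (tm 0) else if i = p then f (tm p)
    else if i = q then - f (tm p) else f (tm i)
  have w0 : w 0 = ov s t f T (tm 0) := by simp [w]
  have wp : w p = f (tm p) := by simp [w, n1]
  have wq : w q = - f (tm p) := by simp [w, n2, Ne.symm n5]
  have wr : w r = f (tm r) := by simp [w, n3, Ne.symm n6, Ne.symm n8]
  have wr' : w r' = f (tm r') := by simp [w, n4, Ne.symm n7, Ne.symm n9]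
  have hcov : ∀ i : Fin 5, i = 0 ∨ i = p ∨ i = q ∨ i = r ∨ i = r' := by
    rcases hA with ⟨rfl, rfl, rfl, rfl⟩ | ⟨rfl, rfl, rfl, rfl⟩ <;> decide
  have hwne : ∀ i, w i ≠ 0 := by
    intro i
    rcases hcov i with rfl | rfl | rfl | rfl | rfl
    · rw [w0]; exact (ov_tm_ne (h.term.crs 0) f).2 (hfne 0 (Or.inl rfl))
    · rw [wp]; exact hfne _ (by simp)
    · rw [wq]; exact neg_ne_zero.2 (hfne _ (by simp))
    · rw [wr]; exact hfne _ (by simp)
    · rw [wr']; exact hfne _ (by simp)
  have hcons : ∀ v, D s t (innP s t T f) v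
      = inj (fun i => attI s t T (tm i)) (fun i => - w i) v := by
    intro v
    by_cases hv : v ∈ T
    · have k1 := h.D_closed hA f v
      rw [hfF, hf2 v] at k1
      have k2 : attO s t T (tm 0) ≠ v := by
        rintro rfl
        exact attO_notMem (h.term.crs 0) hv
      have k3 : (if s (tm 0) = v then f (tm 0) else 0) - (if t (tm 0) = v then f (tm 0) else 0)
          = if attI s t T (tm 0) = v then ov s t f T (tm 0) else 0 := by
        rw [ov_tm (h.term.crs 0)]
        unfold attI
        rcases h.term.crs 0 with ⟨h1, h2⟩ | ⟨h1, h2⟩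
        · have : t (tm 0) ≠ v := by rintro rfl; exact h2 hv
          simp [h1, this]
        · have : s (tm 0) ≠ v := by rintro rfl; exact h1 hv
          simp only [h1, this, if_false, zero_sub]
          split_ifs <;> simp
      rw [k3] at k1
      simp only [k2, if_false, sub_zero] at k1
      rw [inj, hA.sum, w0, wp, wq, wr, wr', neg_neg]
      have e1 : ∀ (P : Prop) [Decidable P] (z : ZMod 5), (if P then - z else 0) = - (if P then z else 0) := by
        intro P _ z; split_ifs <;> simp
      simp only [e1]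
      linear_combination -k1
    · rw [D_innP_out f hv, inj_attI_out h.term _ hv]
  refine ⟨fun i => - w i, fun i => neg_ne_zero.2 (hwne i), ?_, ?_, ?_⟩
  · have k1 := inj_total (fun i => attI s t T (tm i)) (fun i => - w i) univ
    simp only [mem_univ, if_true] at k1
    rw [← k1, ← D_total s t (innP s t T f)]
    exact sum_congr rfl fun v _ => (hcons v).symm
  · simp only [wp, wq]; ring
  · apply card_pos.2
    refine ⟨innP s t T f, ?_⟩
    simp only [mem_filter, mem_univ, true_and]
    refine ⟨fun e => ?_, hcons⟩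
    unfold innP
    by_cases hc : s e ∈ T ∧ t e ∈ T
    · rw [if_pos hc, hf1 e]
      unfold cE
      simp [hc]
    · rw [if_neg hc]
      simp only [ne_eq, not_true_eq_false, false_iff]
      exact fun hh => hc hh.2

end

end MP974d84
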