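import Mathlib
import Pool.Agent.Work.MP_974d84_co.Kochol

/-!
The finite part of the five-edge-cut reduction.
-/

namespace MP974d84

open Finset

/-- Colour classes of the five terminals. -/
def col (i : Fin 5) : ℕ := if i = 0 then 0 else if i = 1 ∨ i = 2 then 1 else 2

theorem expand (x : Fin 5 → Fin 5 → ℤ) (τ : Fin 5 → ZMod 5) :
    ∑ i, ∑ j, (if i < j ∧ τ i + τ j = 0 then x i j else 0) =
      (if τ 0 + τ 1 = 0 then x 0 1 else 0)
      + (if τ 0 + τ 2 = 0 then x 0 2 else 0)
      + (if τ 0 + τ 3 = 0 then x 0 3 else 0)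
      + (if τ 0 + τ 4 = 0 then x 0 4 else 0)
      + (if τ 1 + τ 2 = 0 then x 1 2 else 0)
      + (if τ 1 + τ 3 = 0 then x 1 3 else 0)
      + (if τ 1 + τ 4 = 0 then x 1 4 else 0)
      + (if τ 2 + τ 3 = 0 then x 2 3 else 0)
      + (if τ 2 + τ 4 = 0 then x 2 4 else 0)
      + (if τ 3 + τ 4 = 0 then x 3 4 else 0) := by
  have h : ∀ i j : Fin 5, ¬ i < j → (if i < j ∧ τ i + τ j = 0 then x i j else 0) = 0 :=
    fun i j hij => if_neg fun hc => hij hc.1
  have h' : ∀ i j : Fin 5, i < j → (if i < j ∧ τ i + τ j = 0 then x i j else 0)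
      = if τ i + τ j = 0 then x i j else 0 := fun i j hij => by simp [hij]
  simp only [Fin.sum_univ_five]
  rw [h 0 0 (by decide),
    h' 0 1 (by decide),
    h' 0 2 (by decide),
    h' 0 3 (by decide),
    h' 0 4 (by decide),
    h 1 0 (by decide),
    h 1 1 (by decide),
    h' 1 2 (by decide),
    h' 1 3 (by decide),
    h' 1 4 (by decide),
    h 2 0 (by decide),
    h 2 1 (by decide),
    h 2 2 (by decide),
    h' 2 3 (by decide),
    h' 2 4 (by decide),
    h 3 0 (by decide),
    h 3 1 (by decide),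
    h 3 2 (by decide),
    h 3 3 (by decide),
    h' 3 4 (by decide),
    h 4 0 (by decide),
    h 4 1 (by decide),
    h 4 2 (by decide),
    h 4 3 (by decide),
    h 4 4 (by decide)]
  ring

theorem centre3 {x0 a b c a' b' c' : ℤ} (h0 : 0 < x0)
    (hab : 0 ≤ a + b ∧ 0 ≤ x0 + (a' + b') ∧ (x0 + (a' + b') = 0 ∨ a + b = 0))
    (hac : 0 ≤ a + c ∧ 0 ≤ x0 + (a' + c') ∧ (x0 + (a' + c') = 0 ∨ a + c = 0))
    (hbc : 0 ≤ b + c ∧ 0 ≤ x0 + (b' + c') ∧ (x0 + (b' + c') = 0 ∨ b + c = 0))
    (habc : 0 ≤ a + b + c ∧ 0 ≤ x0 + (a' + b' + c') ∧ (x0 + (a' + b' + c') = 0 ∨ a + b + c = 0)) :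
    a + b = 0 ∨ a + c = 0 ∨ b + c = 0 := by
  obtain ⟨p1, q1, r1⟩ := hab
  obtain ⟨p2, q2, r2⟩ := hac
  obtain ⟨p3, q3, r3⟩ := hbc
  obtain ⟨p4, q4, r4⟩ := habc
  rcases r1 with r1 | r1
  · rcases r2 with r2 | r2
    · rcases r3 with r3 | r3
      · exfalso; omega
      · exact Or.inr (Or.inr r3)
    · exact Or.inr (Or.inl r2)
  · exact Or.inl r1

theorem centre4b {a b c d : ℤ} (pab : 0 ≤ a + b) (pac : 0 ≤ a + c) (pad : 0 ≤ a + d)
    (pbc : 0 ≤ b + c) (pbd : 0 ≤ b + d) (pcd : 0 ≤ c + d)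
    (labc : a + b = 0 ∨ a + c = 0 ∨ b + c = 0) (labd : a + b = 0 ∨ a + d = 0 ∨ b + d = 0)
    (lacd : a + c = 0 ∨ a + d = 0 ∨ c + d = 0) (lbcd : b + c = 0 ∨ b + d = 0 ∨ c + d = 0) :
    (0 ≤ a ∧ 0 ≤ b ∧ 0 ≤ c ∧ 0 ≤ d) ∧ (a = 0 ∨ b = 0) ∧ (a = 0 ∨ c = 0) ∧ (a = 0 ∨ d = 0) ∧
      (b = 0 ∨ c = 0) ∧ (b = 0 ∨ d = 0) ∧ (c = 0 ∨ d = 0) := by
  rcases labc with h1 | h1 | h1 <;> rcases labd with h2 | h2 | h2 <;>
    rcases lacd with h3 | h3 | h3 <;> rcases lbcd with h4 | h4 | h4 <;>
    refine ⟨⟨?_, ?_, ?_, ?_⟩, ?_, ?_, ?_, ?_, ?_, ?_⟩ <;> omega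

theorem centre4 {x0 a b c d a' b' c' d' : ℤ} (h0 : 0 < x0)
    (hab : 0 ≤ a + b ∧ 0 ≤ x0 + (a' + b') ∧ (x0 + (a' + b') = 0 ∨ a + b = 0))
    (hac : 0 ≤ a + c ∧ 0 ≤ x0 + (a' + c') ∧ (x0 + (a' + c') = 0 ∨ a + c = 0))
    (had : 0 ≤ a + d ∧ 0 ≤ x0 + (a' + d') ∧ (x0 + (a' + d') = 0 ∨ a + d = 0))
    (hbc : 0 ≤ b + c ∧ 0 ≤ x0 + (b' + c') ∧ (x0 + (b' + c') = 0 ∨ b + c = 0))
    (hbd : 0 ≤ b + d ∧ 0 ≤ x0 + (b' + d') ∧ (x0 + (b' + d') = 0 ∨ b + d = 0))
    (hcd : 0 ≤ c + d ∧ 0 ≤ x0 + (c' + d') ∧ (x0 + (c' + d') = 0 ∨ c + d = 0))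
    (habc : 0 ≤ a + b + c ∧ 0 ≤ x0 + (a' + b' + c') ∧ (x0 + (a' + b' + c') = 0 ∨ a + b + c = 0))
    (habd : 0 ≤ a + b + d ∧ 0 ≤ x0 + (a' + b' + d') ∧ (x0 + (a' + b' + d') = 0 ∨ a + b + d = 0))
    (hacd : 0 ≤ a + c + d ∧ 0 ≤ x0 + (a' + c' + d') ∧ (x0 + (a' + c' + d') = 0 ∨ a + c + d = 0))
    (hbcd : 0 ≤ b + c + d ∧ 0 ≤ x0 + (b' + c' + d') ∧ (x0 + (b' + c' + d') = 0 ∨ b + c + d = 0)) :
    (0 ≤ a ∧ 0 ≤ b ∧ 0 ≤ c ∧ 0 ≤ d) ∧ (a = 0 ∨ b = 0) ∧ (a = 0 ∨ c = 0) ∧ (a = 0 ∨ d = 0) ∧
      (b = 0 ∨ c = 0) ∧ (b = 0 ∨ d = 0) ∧ (c = 0 ∨ d = 0) :=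
  centre4b hab.1 hac.1 had.1 hbc.1 hbd.1 hcd.1 (centre3 h0 hab hac hbc habc) (centre3 h0 hab had hbd habd)
    (centre3 h0 hac had hcd hacd) (centre3 h0 hbc hbd hcd hbcd)

theorem mkfact {n m A B : ℤ} (h1 : n = A) (h2 : m = B) (h3 : n = 0 ∨ m = 0) (h4 : 0 ≤ n)
    (h5 : 0 ≤ m) : 0 ≤ B ∧ 0 ≤ A ∧ (A = 0 ∨ B = 0) := by
  subst h1 h2
  exact ⟨h5, h4, h3⟩

theorem finite_lemma (n m : (Fin 5 → ZMod 5) → ℤ) (hn : Form n) (hm : Form m)
    (hn0 : ∀ τ, 0 ≤ n τ) (hm0 : ∀ τ, 0 ≤ m τ)
    (hdis : ∀ τ, (∀ i, τ i ≠ 0) → ∑ i, τ i = 0 → n τ = 0 ∨ m τ = 0)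
    (hI : 0 < n (fun _ => 1))
    (h12 : ∃ τ, (∀ i, τ i ≠ 0) ∧ ∑ i, τ i = 0 ∧ τ 1 + τ 2 = 0 ∧ 0 < n τ)
    (h34 : ∃ τ, (∀ i, τ i ≠ 0) ∧ ∑ i, τ i = 0 ∧ τ 3 + τ 4 = 0 ∧ 0 < n τ)
    (hM : ∀ a b c d : Fin 5, a ≠ b → a ≠ c → a ≠ d → b ≠ c → b ≠ d → c ≠ d →
      col a ≠ col b → col c ≠ col d →
      ∃ τ, (∀ i, τ i ≠ 0) ∧ ∑ i, τ i = 0 ∧ τ a + τ b ≠ 0 ∧ τ c + τ d ≠ 0 ∧ 0 < m τ) : False := by
  obtain ⟨x0, x, hx⟩ := hn
  obtain ⟨y0, y, hy⟩ := hm
  simp only [expand] at hx hy
  have eI : n (fun _ => 1) = x0 := by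
    rw [hx (fun _ => 1) (by decide) (by decide)]
    simp only [show ((1 : ZMod 5) + 1 = 0) = False from by simp; decide, if_false, add_zero]
  have eI' : m (fun _ => 1) = y0 := by
    rw [hy (fun _ => 1) (by decide) (by decide)]
    simp only [show ((1 : ZMod 5) + 1 = 0) = False from by simp; decide, if_false, add_zero]
  have hx0 : 0 < x0 := by omega
  have hy0 : y0 = 0 := by
    have := hdis (fun _ => 1) (by decide) (by decide)
    omega
  have f0_12 : 0 ≤ y 0 1 + y 0 2 ∧ 0 ≤ x0 + (x 0 1 + x 0 2) ∧ (x0 + (x 0 1 + x 0 2) = 0 ∨ y 0 1 + y 0 2 = 0) :=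
    mkfact (n := n ![4, 1, 1, 2, 2]) (m := m ![4, 1, 1, 2, 2])
      (by rw [hx ![4, 1, 1, 2, 2] (by decide) (by decide), if_pos (by decide), if_pos (by decide), if_neg (by decide), if_neg (by decide), if_neg (by decide), if_neg (by decide), if_neg (by decide), if_neg (by decide), if_neg (by decide), if_neg (by decide)]; ring)
      (by rw [hy ![4, 1, 1, 2, 2] (by decide) (by decide), if_pos (by decide), if_pos (by decide), if_neg (by decide), if_neg (by decide), if_neg (by decide), if_neg (by decide), if_neg (by decide), if_neg (by decide), if_neg (by decide), if_neg (by decide), hy0]; ring)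
      (hdis _ (by decide) (by decide)) (hn0 _) (hm0 _)
  have f0_13 : 0 ≤ y 0 1 + y 0 3 ∧ 0 ≤ x0 + (x 0 1 + x 0 3) ∧ (x0 + (x 0 1 + x 0 3) = 0 ∨ y 0 1 + y 0 3 = 0) :=
    mkfact (n := n ![4, 1, 2, 1, 2]) (m := m ![4, 1, 2, 1, 2])
      (by rw [hx ![4, 1, 2, 1, 2] (by decide) (by decide), if_pos (by decide), if_neg (by decide), if_pos (by decide), if_neg (by decide), if_neg (by decide), if_neg (by decide), if_neg (by decide), if_neg (by decide), if_neg (by decide), if_neg (by decide)]; ring)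
      (by rw [hy ![4, 1, 2, 1, 2] (by decide) (by decide), if_pos (by decide), if_neg (by decide), if_pos (by decide), if_neg (by decide), if_neg (by decide), if_neg (by decide), if_neg (by decide), if_neg (by decide), if_neg (by decide), if_neg (by decide), hy0]; ring)
      (hdis _ (by decide) (by decide)) (hn0 _) (hm0 _)
  have f0_14 : 0 ≤ y 0 1 + y 0 4 ∧ 0 ≤ x0 + (x 0 1 + x 0 4) ∧ (x0 + (x 0 1 + x 0 4) = 0 ∨ y 0 1 + y 0 4 = 0) :=
    mkfact (n := n ![4, 1, 2, 2, 1]) (m := m ![4, 1, 2, 2, 1])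
      (by rw [hx ![4, 1, 2, 2, 1] (by decide) (by decide), if_pos (by decide), if_neg (by decide), if_neg (by decide), if_pos (by decide), if_neg (by decide), if_neg (by decide), if_neg (by decide), if_neg (by decide), if_neg (by decide), if_neg (by decide)]; ring)
      (by rw [hy ![4, 1, 2, 2, 1] (by decide) (by decide), if_pos (by decide), if_neg (by decide), if_neg (by decide), if_pos (by decide), if_neg (by decide), if_neg (by decide), if_neg (by decide), if_neg (by decide), if_neg (by decide), if_neg (by decide), hy0]; ring)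
      (hdis _ (by decide) (by decide)) (hn0 _) (hm0 _)
  have f0_23 : 0 ≤ y 0 2 + y 0 3 ∧ 0 ≤ x0 + (x 0 2 + x 0 3) ∧ (x0 + (x 0 2 + x 0 3) = 0 ∨ y 0 2 + y 0 3 = 0) :=
    mkfact (n := n ![4, 2, 1, 1, 2]) (m := m ![4, 2, 1, 1, 2])
      (by rw [hx ![4, 2, 1, 1, 2] (by decide) (by decide), if_neg (by decide), if_pos (by decide), if_pos (by decide), if_neg (by decide), if_neg (by decide), if_neg (by decide), if_neg (by decide), if_neg (by decide), if_neg (by decide), if_neg (by decide)]; ring)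
      (by rw [hy ![4, 2, 1, 1, 2] (by decide) (by decide), if_neg (by decide), if_pos (by decide), if_pos (by decide), if_neg (by decide), if_neg (by decide), if_neg (by decide), if_neg (by decide), if_neg (by decide), if_neg (by decide), if_neg (by decide), hy0]; ring)
      (hdis _ (by decide) (by decide)) (hn0 _) (hm0 _)
  have f0_24 : 0 ≤ y 0 2 + y 0 4 ∧ 0 ≤ x0 + (x 0 2 + x 0 4) ∧ (x0 + (x 0 2 + x 0 4) = 0 ∨ y 0 2 + y 0 4 = 0) :=
    mkfact (n := n ![4, 2, 1, 2, 1]) (m := m ![4, 2, 1, 2, 1])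
      (by rw [hx ![4, 2, 1, 2, 1] (by decide) (by decide), if_neg (by decide), if_pos (by decide), if_neg (by decide), if_pos (by decide), if_neg (by decide), if_neg (by decide), if_neg (by decide), if_neg (by decide), if_neg (by decide), if_neg (by decide)]; ring)
      (by rw [hy ![4, 2, 1, 2, 1] (by decide) (by decide), if_neg (by decide), if_pos (by decide), if_neg (by decide), if_pos (by decide), if_neg (by decide), if_neg (by decide), if_neg (by decide), if_neg (by decide), if_neg (by decide), if_neg (by decide), hy0]; ring)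
      (hdis _ (by decide) (by decide)) (hn0 _) (hm0 _)
  have f0_34 : 0 ≤ y 0 3 + y 0 4 ∧ 0 ≤ x0 + (x 0 3 + x 0 4) ∧ (x0 + (x 0 3 + x 0 4) = 0 ∨ y 0 3 + y 0 4 = 0) :=
    mkfact (n := n ![4, 2, 2, 1, 1]) (m := m ![4, 2, 2, 1, 1])
      (by rw [hx ![4, 2, 2, 1, 1] (by decide) (by decide), if_neg (by decide), if_neg (by decide), if_pos (by decide), if_pos (by decide), if_neg (by decide), if_neg (by decide), if_neg (by decide), if_neg (by decide), if_neg (by decide), if_neg (by decide)]; ring)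
      (by rw [hy ![4, 2, 2, 1, 1] (by decide) (by decide), if_neg (by decide), if_neg (by decide), if_pos (by decide), if_pos (by decide), if_neg (by decide), if_neg (by decide), if_neg (by decide), if_neg (by decide), if_neg (by decide), if_neg (by decide), hy0]; ring)
      (hdis _ (by decide) (by decide)) (hn0 _) (hm0 _)
  have f0_123 : 0 ≤ y 0 1 + y 0 2 + y 0 3 ∧ 0 ≤ x0 + (x 0 1 + x 0 2 + x 0 3) ∧ (x0 + (x 0 1 + x 0 2 + x 0 3) = 0 ∨ y 0 1 + y 0 2 + y 0 3 = 0) :=
    mkfact (n := n ![4, 1, 1, 1, 3]) (m := m ![4, 1, 1, 1, 3])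
      (by rw [hx ![4, 1, 1, 1, 3] (by decide) (by decide), if_pos (by decide), if_pos (by decide), if_pos (by decide), if_neg (by decide), if_neg (by decide), if_neg (by decide), if_neg (by decide), if_neg (by decide), if_neg (by decide), if_neg (by decide)]; ring)
      (by rw [hy ![4, 1, 1, 1, 3] (by decide) (by decide), if_pos (by decide), if_pos (by decide), if_pos (by decide), if_neg (by decide), if_neg (by decide), if_neg (by decide), if_neg (by decide), if_neg (by decide), if_neg (by decide), if_neg (by decide), hy0]; ring)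
      (hdis _ (by decide) (by decide)) (hn0 _) (hm0 _)
  have f0_124 : 0 ≤ y 0 1 + y 0 2 + y 0 4 ∧ 0 ≤ x0 + (x 0 1 + x 0 2 + x 0 4) ∧ (x0 + (x 0 1 + x 0 2 + x 0 4) = 0 ∨ y 0 1 + y 0 2 + y 0 4 = 0) :=
    mkfact (n := n ![4, 1, 1, 3, 1]) (m := m ![4, 1, 1, 3, 1])
      (by rw [hx ![4, 1, 1, 3, 1] (by decide) (by decide), if_pos (by decide), if_pos (by decide), if_neg (by decide), if_pos (by decide), if_neg (by decide), if_neg (by decide), if_neg (by decide), if_neg (by decide), if_neg (by decide), if_neg (by decide)]; ring)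
      (by rw [hy ![4, 1, 1, 3, 1] (by decide) (by decide), if_pos (by decide), if_pos (by decide), if_neg (by decide), if_pos (by decide), if_neg (by decide), if_neg (by decide), if_neg (by decide), if_neg (by decide), if_neg (by decide), if_neg (by decide), hy0]; ring)
      (hdis _ (by decide) (by decide)) (hn0 _) (hm0 _)
  have f0_134 : 0 ≤ y 0 1 + y 0 3 + y 0 4 ∧ 0 ≤ x0 + (x 0 1 + x 0 3 + x 0 4) ∧ (x0 + (x 0 1 + x 0 3 + x 0 4) = 0 ∨ y 0 1 + y 0 3 + y 0 4 = 0) :=
    mkfact (n := n ![4, 1, 3, 1, 1]) (m := m ![4, 1, 3, 1, 1])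
      (by rw [hx ![4, 1, 3, 1, 1] (by decide) (by decide), if_pos (by decide), if_neg (by decide), if_pos (by decide), if_pos (by decide), if_neg (by decide), if_neg (by decide), if_neg (by decide), if_neg (by decide), if_neg (by decide), if_neg (by decide)]; ring)
      (by rw [hy ![4, 1, 3, 1, 1] (by decide) (by decide), if_pos (by decide), if_neg (by decide), if_pos (by decide), if_pos (by decide), if_neg (by decide), if_neg (by decide), if_neg (by decide), if_neg (by decide), if_neg (by decide), if_neg (by decide), hy0]; ring)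
      (hdis _ (by decide) (by decide)) (hn0 _) (hm0 _)
  have f0_234 : 0 ≤ y 0 2 + y 0 3 + y 0 4 ∧ 0 ≤ x0 + (x 0 2 + x 0 3 + x 0 4) ∧ (x0 + (x 0 2 + x 0 3 + x 0 4) = 0 ∨ y 0 2 + y 0 3 + y 0 4 = 0) :=
    mkfact (n := n ![4, 3, 1, 1, 1]) (m := m ![4, 3, 1, 1, 1])
      (by rw [hx ![4, 3, 1, 1, 1] (by decide) (by decide), if_neg (by decide), if_pos (by decide), if_pos (by decide), if_pos (by decide), if_neg (by decide), if_neg (by decide), if_neg (by decide), if_neg (by decide), if_neg (by decide), if_neg (by decide)]; ring)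
      (by rw [hy ![4, 3, 1, 1, 1] (by decide) (by decide), if_neg (by decide), if_pos (by decide), if_pos (by decide), if_pos (by decide), if_neg (by decide), if_neg (by decide), if_neg (by decide), if_neg (by decide), if_neg (by decide), if_neg (by decide), hy0]; ring)
      (hdis _ (by decide) (by decide)) (hn0 _) (hm0 _)
  have f1_02 : 0 ≤ y 0 1 + y 1 2 ∧ 0 ≤ x0 + (x 0 1 + x 1 2) ∧ (x0 + (x 0 1 + x 1 2) = 0 ∨ y 0 1 + y 1 2 = 0) :=
    mkfact (n := n ![1, 4, 1, 2, 2]) (m := m ![1, 4, 1, 2, 2])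
      (by rw [hx ![1, 4, 1, 2, 2] (by decide) (by decide), if_pos (by decide), if_neg (by decide), if_neg (by decide), if_neg (by decide), if_pos (by decide), if_neg (by decide), if_neg (by decide), if_neg (by decide), if_neg (by decide), if_neg (by decide)]; ring)
      (by rw [hy ![1, 4, 1, 2, 2] (by decide) (by decide), if_pos (by decide), if_neg (by decide), if_neg (by decide), if_neg (by decide), if_pos (by decide), if_neg (by decide), if_neg (by decide), if_neg (by decide), if_neg (by decide), if_neg (by decide), hy0]; ring)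
      (hdis _ (by decide) (by decide)) (hn0 _) (hm0 _)
  have f1_03 : 0 ≤ y 0 1 + y 1 3 ∧ 0 ≤ x0 + (x 0 1 + x 1 3) ∧ (x0 + (x 0 1 + x 1 3) = 0 ∨ y 0 1 + y 1 3 = 0) :=
    mkfact (n := n ![1, 4, 2, 1, 2]) (m := m ![1, 4, 2, 1, 2])
      (by rw [hx ![1, 4, 2, 1, 2] (by decide) (by decide), if_pos (by decide), if_neg (by decide), if_neg (by decide), if_neg (by decide), if_neg (by decide), if_pos (by decide), if_neg (by decide), if_neg (by decide), if_neg (by decide), if_neg (by decide)]; ring)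
      (by rw [hy ![1, 4, 2, 1, 2] (by decide) (by decide), if_pos (by decide), if_neg (by decide), if_neg (by decide), if_neg (by decide), if_neg (by decide), if_pos (by decide), if_neg (by decide), if_neg (by decide), if_neg (by decide), if_neg (by decide), hy0]; ring)
      (hdis _ (by decide) (by decide)) (hn0 _) (hm0 _)
  have f1_04 : 0 ≤ y 0 1 + y 1 4 ∧ 0 ≤ x0 + (x 0 1 + x 1 4) ∧ (x0 + (x 0 1 + x 1 4) = 0 ∨ y 0 1 + y 1 4 = 0) :=
    mkfact (n := n ![1, 4, 2, 2, 1]) (m := m ![1, 4, 2, 2, 1])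
      (by rw [hx ![1, 4, 2, 2, 1] (by decide) (by decide), if_pos (by decide), if_neg (by decide), if_neg (by decide), if_neg (by decide), if_neg (by decide), if_neg (by decide), if_pos (by decide), if_neg (by decide), if_neg (by decide), if_neg (by decide)]; ring)
      (by rw [hy ![1, 4, 2, 2, 1] (by decide) (by decide), if_pos (by decide), if_neg (by decide), if_neg (by decide), if_neg (by decide), if_neg (by decide), if_neg (by decide), if_pos (by decide), if_neg (by decide), if_neg (by decide), if_neg (by decide), hy0]; ring)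
      (hdis _ (by decide) (by decide)) (hn0 _) (hm0 _)
  have f1_23 : 0 ≤ y 1 2 + y 1 3 ∧ 0 ≤ x0 + (x 1 2 + x 1 3) ∧ (x0 + (x 1 2 + x 1 3) = 0 ∨ y 1 2 + y 1 3 = 0) :=
    mkfact (n := n ![2, 4, 1, 1, 2]) (m := m ![2, 4, 1, 1, 2])
      (by rw [hx ![2, 4, 1, 1, 2] (by decide) (by decide), if_neg (by decide), if_neg (by decide), if_neg (by decide), if_neg (by decide), if_pos (by decide), if_pos (by decide), if_neg (by decide), if_neg (by decide), if_neg (by decide), if_neg (by decide)]; ring)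
      (by rw [hy ![2, 4, 1, 1, 2] (by decide) (by decide), if_neg (by decide), if_neg (by decide), if_neg (by decide), if_neg (by decide), if_pos (by decide), if_pos (by decide), if_neg (by decide), if_neg (by decide), if_neg (by decide), if_neg (by decide), hy0]; ring)
      (hdis _ (by decide) (by decide)) (hn0 _) (hm0 _)
  have f1_24 : 0 ≤ y 1 2 + y 1 4 ∧ 0 ≤ x0 + (x 1 2 + x 1 4) ∧ (x0 + (x 1 2 + x 1 4) = 0 ∨ y 1 2 + y 1 4 = 0) :=
    mkfact (n := n ![2, 4, 1, 2, 1]) (m := m ![2, 4, 1, 2, 1])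
      (by rw [hx ![2, 4, 1, 2, 1] (by decide) (by decide), if_neg (by decide), if_neg (by decide), if_neg (by decide), if_neg (by decide), if_pos (by decide), if_neg (by decide), if_pos (by decide), if_neg (by decide), if_neg (by decide), if_neg (by decide)]; ring)
      (by rw [hy ![2, 4, 1, 2, 1] (by decide) (by decide), if_neg (by decide), if_neg (by decide), if_neg (by decide), if_neg (by decide), if_pos (by decide), if_neg (by decide), if_pos (by decide), if_neg (by decide), if_neg (by decide), if_neg (by decide), hy0]; ring)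
      (hdis _ (by decide) (by decide)) (hn0 _) (hm0 _)
  have f1_34 : 0 ≤ y 1 3 + y 1 4 ∧ 0 ≤ x0 + (x 1 3 + x 1 4) ∧ (x0 + (x 1 3 + x 1 4) = 0 ∨ y 1 3 + y 1 4 = 0) :=
    mkfact (n := n ![2, 4, 2, 1, 1]) (m := m ![2, 4, 2, 1, 1])
      (by rw [hx ![2, 4, 2, 1, 1] (by decide) (by decide), if_neg (by decide), if_neg (by decide), if_neg (by decide), if_neg (by decide), if_neg (by decide), if_pos (by decide), if_pos (by decide), if_neg (by decide), if_neg (by decide), if_neg (by decide)]; ring)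
      (by rw [hy ![2, 4, 2, 1, 1] (by decide) (by decide), if_neg (by decide), if_neg (by decide), if_neg (by decide), if_neg (by decide), if_neg (by decide), if_pos (by decide), if_pos (by decide), if_neg (by decide), if_neg (by decide), if_neg (by decide), hy0]; ring)
      (hdis _ (by decide) (by decide)) (hn0 _) (hm0 _)
  have f1_023 : 0 ≤ y 0 1 + y 1 2 + y 1 3 ∧ 0 ≤ x0 + (x 0 1 + x 1 2 + x 1 3) ∧ (x0 + (x 0 1 + x 1 2 + x 1 3) = 0 ∨ y 0 1 + y 1 2 + y 1 3 = 0) :=
    mkfact (n := n ![1, 4, 1, 1, 3]) (m := m ![1, 4, 1, 1, 3])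
      (by rw [hx ![1, 4, 1, 1, 3] (by decide) (by decide), if_pos (by decide), if_neg (by decide), if_neg (by decide), if_neg (by decide), if_pos (by decide), if_pos (by decide), if_neg (by decide), if_neg (by decide), if_neg (by decide), if_neg (by decide)]; ring)
      (by rw [hy ![1, 4, 1, 1, 3] (by decide) (by decide), if_pos (by decide), if_neg (by decide), if_neg (by decide), if_neg (by decide), if_pos (by decide), if_pos (by decide), if_neg (by decide), if_neg (by decide), if_neg (by decide), if_neg (by decide), hy0]; ring)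
      (hdis _ (by decide) (by decide)) (hn0 _) (hm0 _)
  have f1_024 : 0 ≤ y 0 1 + y 1 2 + y 1 4 ∧ 0 ≤ x0 + (x 0 1 + x 1 2 + x 1 4) ∧ (x0 + (x 0 1 + x 1 2 + x 1 4) = 0 ∨ y 0 1 + y 1 2 + y 1 4 = 0) :=
    mkfact (n := n ![1, 4, 1, 3, 1]) (m := m ![1, 4, 1, 3, 1])
      (by rw [hx ![1, 4, 1, 3, 1] (by decide) (by decide), if_pos (by decide), if_neg (by decide), if_neg (by decide), if_neg (by decide), if_pos (by decide), if_neg (by decide), if_pos (by decide), if_neg (by decide), if_neg (by decide), if_neg (by decide)]; ring)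
      (by rw [hy ![1, 4, 1, 3, 1] (by decide) (by decide), if_pos (by decide), if_neg (by decide), if_neg (by decide), if_neg (by decide), if_pos (by decide), if_neg (by decide), if_pos (by decide), if_neg (by decide), if_neg (by decide), if_neg (by decide), hy0]; ring)
      (hdis _ (by decide) (by decide)) (hn0 _) (hm0 _)
  have f1_034 : 0 ≤ y 0 1 + y 1 3 + y 1 4 ∧ 0 ≤ x0 + (x 0 1 + x 1 3 + x 1 4) ∧ (x0 + (x 0 1 + x 1 3 + x 1 4) = 0 ∨ y 0 1 + y 1 3 + y 1 4 = 0) :=
    mkfact (n := n ![1, 4, 3, 1, 1]) (m := m ![1, 4, 3, 1, 1])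
      (by rw [hx ![1, 4, 3, 1, 1] (by decide) (by decide), if_pos (by decide), if_neg (by decide), if_neg (by decide), if_neg (by decide), if_neg (by decide), if_pos (by decide), if_pos (by decide), if_neg (by decide), if_neg (by decide), if_neg (by decide)]; ring)
      (by rw [hy ![1, 4, 3, 1, 1] (by decide) (by decide), if_pos (by decide), if_neg (by decide), if_neg (by decide), if_neg (by decide), if_neg (by decide), if_pos (by decide), if_pos (by decide), if_neg (by decide), if_neg (by decide), if_neg (by decide), hy0]; ring)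
      (hdis _ (by decide) (by decide)) (hn0 _) (hm0 _)
  have f1_234 : 0 ≤ y 1 2 + y 1 3 + y 1 4 ∧ 0 ≤ x0 + (x 1 2 + x 1 3 + x 1 4) ∧ (x0 + (x 1 2 + x 1 3 + x 1 4) = 0 ∨ y 1 2 + y 1 3 + y 1 4 = 0) :=
    mkfact (n := n ![3, 4, 1, 1, 1]) (m := m ![3, 4, 1, 1, 1])
      (by rw [hx ![3, 4, 1, 1, 1] (by decide) (by decide), if_neg (by decide), if_neg (by decide), if_neg (by decide), if_neg (by decide), if_pos (by decide), if_pos (by decide), if_pos (by decide), if_neg (by decide), if_neg (by decide), if_neg (by decide)]; ring)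
      (by rw [hy ![3, 4, 1, 1, 1] (by decide) (by decide), if_neg (by decide), if_neg (by decide), if_neg (by decide), if_neg (by decide), if_pos (by decide), if_pos (by decide), if_pos (by decide), if_neg (by decide), if_neg (by decide), if_neg (by decide), hy0]; ring)
      (hdis _ (by decide) (by decide)) (hn0 _) (hm0 _)
  have f2_01 : 0 ≤ y 0 2 + y 1 2 ∧ 0 ≤ x0 + (x 0 2 + x 1 2) ∧ (x0 + (x 0 2 + x 1 2) = 0 ∨ y 0 2 + y 1 2 = 0) :=
    mkfact (n := n ![1, 1, 4, 2, 2]) (m := m ![1, 1, 4, 2, 2])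
      (by rw [hx ![1, 1, 4, 2, 2] (by decide) (by decide), if_neg (by decide), if_pos (by decide), if_neg (by decide), if_neg (by decide), if_pos (by decide), if_neg (by decide), if_neg (by decide), if_neg (by decide), if_neg (by decide), if_neg (by decide)]; ring)
      (by rw [hy ![1, 1, 4, 2, 2] (by decide) (by decide), if_neg (by decide), if_pos (by decide), if_neg (by decide), if_neg (by decide), if_pos (by decide), if_neg (by decide), if_neg (by decide), if_neg (by decide), if_neg (by decide), if_neg (by decide), hy0]; ring)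
      (hdis _ (by decide) (by decide)) (hn0 _) (hm0 _)
  have f2_03 : 0 ≤ y 0 2 + y 2 3 ∧ 0 ≤ x0 + (x 0 2 + x 2 3) ∧ (x0 + (x 0 2 + x 2 3) = 0 ∨ y 0 2 + y 2 3 = 0) :=
    mkfact (n := n ![1, 2, 4, 1, 2]) (m := m ![1, 2, 4, 1, 2])
      (by rw [hx ![1, 2, 4, 1, 2] (by decide) (by decide), if_neg (by decide), if_pos (by decide), if_neg (by decide), if_neg (by decide), if_neg (by decide), if_neg (by decide), if_neg (by decide), if_pos (by decide), if_neg (by decide), if_neg (by decide)]; ring)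
      (by rw [hy ![1, 2, 4, 1, 2] (by decide) (by decide), if_neg (by decide), if_pos (by decide), if_neg (by decide), if_neg (by decide), if_neg (by decide), if_neg (by decide), if_neg (by decide), if_pos (by decide), if_neg (by decide), if_neg (by decide), hy0]; ring)
      (hdis _ (by decide) (by decide)) (hn0 _) (hm0 _)
  have f2_04 : 0 ≤ y 0 2 + y 2 4 ∧ 0 ≤ x0 + (x 0 2 + x 2 4) ∧ (x0 + (x 0 2 + x 2 4) = 0 ∨ y 0 2 + y 2 4 = 0) :=
    mkfact (n := n ![1, 2, 4, 2, 1]) (m := m ![1, 2, 4, 2, 1])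
      (by rw [hx ![1, 2, 4, 2, 1] (by decide) (by decide), if_neg (by decide), if_pos (by decide), if_neg (by decide), if_neg (by decide), if_neg (by decide), if_neg (by decide), if_neg (by decide), if_neg (by decide), if_pos (by decide), if_neg (by decide)]; ring)
      (by rw [hy ![1, 2, 4, 2, 1] (by decide) (by decide), if_neg (by decide), if_pos (by decide), if_neg (by decide), if_neg (by decide), if_neg (by decide), if_neg (by decide), if_neg (by decide), if_neg (by decide), if_pos (by decide), if_neg (by decide), hy0]; ring)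
      (hdis _ (by decide) (by decide)) (hn0 _) (hm0 _)
  have f2_13 : 0 ≤ y 1 2 + y 2 3 ∧ 0 ≤ x0 + (x 1 2 + x 2 3) ∧ (x0 + (x 1 2 + x 2 3) = 0 ∨ y 1 2 + y 2 3 = 0) :=
    mkfact (n := n ![2, 1, 4, 1, 2]) (m := m ![2, 1, 4, 1, 2])
      (by rw [hx ![2, 1, 4, 1, 2] (by decide) (by decide), if_neg (by decide), if_neg (by decide), if_neg (by decide), if_neg (by decide), if_pos (by decide), if_neg (by decide), if_neg (by decide), if_pos (by decide), if_neg (by decide), if_neg (by decide)]; ring)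
      (by rw [hy ![2, 1, 4, 1, 2] (by decide) (by decide), if_neg (by decide), if_neg (by decide), if_neg (by decide), if_neg (by decide), if_pos (by decide), if_neg (by decide), if_neg (by decide), if_pos (by decide), if_neg (by decide), if_neg (by decide), hy0]; ring)
      (hdis _ (by decide) (by decide)) (hn0 _) (hm0 _)
  have f2_14 : 0 ≤ y 1 2 + y 2 4 ∧ 0 ≤ x0 + (x 1 2 + x 2 4) ∧ (x0 + (x 1 2 + x 2 4) = 0 ∨ y 1 2 + y 2 4 = 0) :=
    mkfact (n := n ![2, 1, 4, 2, 1]) (m := m ![2, 1, 4, 2, 1])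
      (by rw [hx ![2, 1, 4, 2, 1] (by decide) (by decide), if_neg (by decide), if_neg (by decide), if_neg (by decide), if_neg (by decide), if_pos (by decide), if_neg (by decide), if_neg (by decide), if_neg (by decide), if_pos (by decide), if_neg (by decide)]; ring)
      (by rw [hy ![2, 1, 4, 2, 1] (by decide) (by decide), if_neg (by decide), if_neg (by decide), if_neg (by decide), if_neg (by decide), if_pos (by decide), if_neg (by decide), if_neg (by decide), if_neg (by decide), if_pos (by decide), if_neg (by decide), hy0]; ring)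
      (hdis _ (by decide) (by decide)) (hn0 _) (hm0 _)
  have f2_34 : 0 ≤ y 2 3 + y 2 4 ∧ 0 ≤ x0 + (x 2 3 + x 2 4) ∧ (x0 + (x 2 3 + x 2 4) = 0 ∨ y 2 3 + y 2 4 = 0) :=
    mkfact (n := n ![2, 2, 4, 1, 1]) (m := m ![2, 2, 4, 1, 1])
      (by rw [hx ![2, 2, 4, 1, 1] (by decide) (by decide), if_neg (by decide), if_neg (by decide), if_neg (by decide), if_neg (by decide), if_neg (by decide), if_neg (by decide), if_neg (by decide), if_pos (by decide), if_pos (by decide), if_neg (by decide)]; ring)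
      (by rw [hy ![2, 2, 4, 1, 1] (by decide) (by decide), if_neg (by decide), if_neg (by decide), if_neg (by decide), if_neg (by decide), if_neg (by decide), if_neg (by decide), if_neg (by decide), if_pos (by decide), if_pos (by decide), if_neg (by decide), hy0]; ring)
      (hdis _ (by decide) (by decide)) (hn0 _) (hm0 _)
  have f2_013 : 0 ≤ y 0 2 + y 1 2 + y 2 3 ∧ 0 ≤ x0 + (x 0 2 + x 1 2 + x 2 3) ∧ (x0 + (x 0 2 + x 1 2 + x 2 3) = 0 ∨ y 0 2 + y 1 2 + y 2 3 = 0) :=
    mkfact (n := n ![1, 1, 4, 1, 3]) (m := m ![1, 1, 4, 1, 3])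
      (by rw [hx ![1, 1, 4, 1, 3] (by decide) (by decide), if_neg (by decide), if_pos (by decide), if_neg (by decide), if_neg (by decide), if_pos (by decide), if_neg (by decide), if_neg (by decide), if_pos (by decide), if_neg (by decide), if_neg (by decide)]; ring)
      (by rw [hy ![1, 1, 4, 1, 3] (by decide) (by decide), if_neg (by decide), if_pos (by decide), if_neg (by decide), if_neg (by decide), if_pos (by decide), if_neg (by decide), if_neg (by decide), if_pos (by decide), if_neg (by decide), if_neg (by decide), hy0]; ring)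
      (hdis _ (by decide) (by decide)) (hn0 _) (hm0 _)
  have f2_014 : 0 ≤ y 0 2 + y 1 2 + y 2 4 ∧ 0 ≤ x0 + (x 0 2 + x 1 2 + x 2 4) ∧ (x0 + (x 0 2 + x 1 2 + x 2 4) = 0 ∨ y 0 2 + y 1 2 + y 2 4 = 0) :=
    mkfact (n := n ![1, 1, 4, 3, 1]) (m := m ![1, 1, 4, 3, 1])
      (by rw [hx ![1, 1, 4, 3, 1] (by decide) (by decide), if_neg (by decide), if_pos (by decide), if_neg (by decide), if_neg (by decide), if_pos (by decide), if_neg (by decide), if_neg (by decide), if_neg (by decide), if_pos (by decide), if_neg (by decide)]; ring)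
      (by rw [hy ![1, 1, 4, 3, 1] (by decide) (by decide), if_neg (by decide), if_pos (by decide), if_neg (by decide), if_neg (by decide), if_pos (by decide), if_neg (by decide), if_neg (by decide), if_neg (by decide), if_pos (by decide), if_neg (by decide), hy0]; ring)
      (hdis _ (by decide) (by decide)) (hn0 _) (hm0 _)
  have f2_034 : 0 ≤ y 0 2 + y 2 3 + y 2 4 ∧ 0 ≤ x0 + (x 0 2 + x 2 3 + x 2 4) ∧ (x0 + (x 0 2 + x 2 3 + x 2 4) = 0 ∨ y 0 2 + y 2 3 + y 2 4 = 0) :=
    mkfact (n := n ![1, 3, 4, 1, 1]) (m := m ![1, 3, 4, 1, 1])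
      (by rw [hx ![1, 3, 4, 1, 1] (by decide) (by decide), if_neg (by decide), if_pos (by decide), if_neg (by decide), if_neg (by decide), if_neg (by decide), if_neg (by decide), if_neg (by decide), if_pos (by decide), if_pos (by decide), if_neg (by decide)]; ring)
      (by rw [hy ![1, 3, 4, 1, 1] (by decide) (by decide), if_neg (by decide), if_pos (by decide), if_neg (by decide), if_neg (by decide), if_neg (by decide), if_neg (by decide), if_neg (by decide), if_pos (by decide), if_pos (by decide), if_neg (by decide), hy0]; ring)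
      (hdis _ (by decide) (by decide)) (hn0 _) (hm0 _)
  have f2_134 : 0 ≤ y 1 2 + y 2 3 + y 2 4 ∧ 0 ≤ x0 + (x 1 2 + x 2 3 + x 2 4) ∧ (x0 + (x 1 2 + x 2 3 + x 2 4) = 0 ∨ y 1 2 + y 2 3 + y 2 4 = 0) :=
    mkfact (n := n ![3, 1, 4, 1, 1]) (m := m ![3, 1, 4, 1, 1])
      (by rw [hx ![3, 1, 4, 1, 1] (by decide) (by decide), if_neg (by decide), if_neg (by decide), if_neg (by decide), if_neg (by decide), if_pos (by decide), if_neg (by decide), if_neg (by decide), if_pos (by decide), if_pos (by decide), if_neg (by decide)]; ring)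
      (by rw [hy ![3, 1, 4, 1, 1] (by decide) (by decide), if_neg (by decide), if_neg (by decide), if_neg (by decide), if_neg (by decide), if_pos (by decide), if_neg (by decide), if_neg (by decide), if_pos (by decide), if_pos (by decide), if_neg (by decide), hy0]; ring)
      (hdis _ (by decide) (by decide)) (hn0 _) (hm0 _)
  have f3_01 : 0 ≤ y 0 3 + y 1 3 ∧ 0 ≤ x0 + (x 0 3 + x 1 3) ∧ (x0 + (x 0 3 + x 1 3) = 0 ∨ y 0 3 + y 1 3 = 0) :=
    mkfact (n := n ![1, 1, 2, 4, 2]) (m := m ![1, 1, 2, 4, 2])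
      (by rw [hx ![1, 1, 2, 4, 2] (by decide) (by decide), if_neg (by decide), if_neg (by decide), if_pos (by decide), if_neg (by decide), if_neg (by decide), if_pos (by decide), if_neg (by decide), if_neg (by decide), if_neg (by decide), if_neg (by decide)]; ring)
      (by rw [hy ![1, 1, 2, 4, 2] (by decide) (by decide), if_neg (by decide), if_neg (by decide), if_pos (by decide), if_neg (by decide), if_neg (by decide), if_pos (by decide), if_neg (by decide), if_neg (by decide), if_neg (by decide), if_neg (by decide), hy0]; ring)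
      (hdis _ (by decide) (by decide)) (hn0 _) (hm0 _)
  have f3_02 : 0 ≤ y 0 3 + y 2 3 ∧ 0 ≤ x0 + (x 0 3 + x 2 3) ∧ (x0 + (x 0 3 + x 2 3) = 0 ∨ y 0 3 + y 2 3 = 0) :=
    mkfact (n := n ![1, 2, 1, 4, 2]) (m := m ![1, 2, 1, 4, 2])
      (by rw [hx ![1, 2, 1, 4, 2] (by decide) (by decide), if_neg (by decide), if_neg (by decide), if_pos (by decide), if_neg (by decide), if_neg (by decide), if_neg (by decide), if_neg (by decide), if_pos (by decide), if_neg (by decide), if_neg (by decide)]; ring)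
      (by rw [hy ![1, 2, 1, 4, 2] (by decide) (by decide), if_neg (by decide), if_neg (by decide), if_pos (by decide), if_neg (by decide), if_neg (by decide), if_neg (by decide), if_neg (by decide), if_pos (by decide), if_neg (by decide), if_neg (by decide), hy0]; ring)
      (hdis _ (by decide) (by decide)) (hn0 _) (hm0 _)
  have f3_04 : 0 ≤ y 0 3 + y 3 4 ∧ 0 ≤ x0 + (x 0 3 + x 3 4) ∧ (x0 + (x 0 3 + x 3 4) = 0 ∨ y 0 3 + y 3 4 = 0) :=
    mkfact (n := n ![1, 2, 2, 4, 1]) (m := m ![1, 2, 2, 4, 1])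
      (by rw [hx ![1, 2, 2, 4, 1] (by decide) (by decide), if_neg (by decide), if_neg (by decide), if_pos (by decide), if_neg (by decide), if_neg (by decide), if_neg (by decide), if_neg (by decide), if_neg (by decide), if_neg (by decide), if_pos (by decide)]; ring)
      (by rw [hy ![1, 2, 2, 4, 1] (by decide) (by decide), if_neg (by decide), if_neg (by decide), if_pos (by decide), if_neg (by decide), if_neg (by decide), if_neg (by decide), if_neg (by decide), if_neg (by decide), if_neg (by decide), if_pos (by decide), hy0]; ring)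
      (hdis _ (by decide) (by decide)) (hn0 _) (hm0 _)
  have f3_12 : 0 ≤ y 1 3 + y 2 3 ∧ 0 ≤ x0 + (x 1 3 + x 2 3) ∧ (x0 + (x 1 3 + x 2 3) = 0 ∨ y 1 3 + y 2 3 = 0) :=
    mkfact (n := n ![2, 1, 1, 4, 2]) (m := m ![2, 1, 1, 4, 2])
      (by rw [hx ![2, 1, 1, 4, 2] (by decide) (by decide), if_neg (by decide), if_neg (by decide), if_neg (by decide), if_neg (by decide), if_neg (by decide), if_pos (by decide), if_neg (by decide), if_pos (by decide), if_neg (by decide), if_neg (by decide)]; ring)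
      (by rw [hy ![2, 1, 1, 4, 2] (by decide) (by decide), if_neg (by decide), if_neg (by decide), if_neg (by decide), if_neg (by decide), if_neg (by decide), if_pos (by decide), if_neg (by decide), if_pos (by decide), if_neg (by decide), if_neg (by decide), hy0]; ring)
      (hdis _ (by decide) (by decide)) (hn0 _) (hm0 _)
  have f3_14 : 0 ≤ y 1 3 + y 3 4 ∧ 0 ≤ x0 + (x 1 3 + x 3 4) ∧ (x0 + (x 1 3 + x 3 4) = 0 ∨ y 1 3 + y 3 4 = 0) :=
    mkfact (n := n ![2, 1, 2, 4, 1]) (m := m ![2, 1, 2, 4, 1])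
      (by rw [hx ![2, 1, 2, 4, 1] (by decide) (by decide), if_neg (by decide), if_neg (by decide), if_neg (by decide), if_neg (by decide), if_neg (by decide), if_pos (by decide), if_neg (by decide), if_neg (by decide), if_neg (by decide), if_pos (by decide)]; ring)
      (by rw [hy ![2, 1, 2, 4, 1] (by decide) (by decide), if_neg (by decide), if_neg (by decide), if_neg (by decide), if_neg (by decide), if_neg (by decide), if_pos (by decide), if_neg (by decide), if_neg (by decide), if_neg (by decide), if_pos (by decide), hy0]; ring)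
      (hdis _ (by decide) (by decide)) (hn0 _) (hm0 _)
  have f3_24 : 0 ≤ y 2 3 + y 3 4 ∧ 0 ≤ x0 + (x 2 3 + x 3 4) ∧ (x0 + (x 2 3 + x 3 4) = 0 ∨ y 2 3 + y 3 4 = 0) :=
    mkfact (n := n ![2, 2, 1, 4, 1]) (m := m ![2, 2, 1, 4, 1])
      (by rw [hx ![2, 2, 1, 4, 1] (by decide) (by decide), if_neg (by decide), if_neg (by decide), if_neg (by decide), if_neg (by decide), if_neg (by decide), if_neg (by decide), if_neg (by decide), if_pos (by decide), if_neg (by decide), if_pos (by decide)]; ring)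
      (by rw [hy ![2, 2, 1, 4, 1] (by decide) (by decide), if_neg (by decide), if_neg (by decide), if_neg (by decide), if_neg (by decide), if_neg (by decide), if_neg (by decide), if_neg (by decide), if_pos (by decide), if_neg (by decide), if_pos (by decide), hy0]; ring)
      (hdis _ (by decide) (by decide)) (hn0 _) (hm0 _)
  have f3_012 : 0 ≤ y 0 3 + y 1 3 + y 2 3 ∧ 0 ≤ x0 + (x 0 3 + x 1 3 + x 2 3) ∧ (x0 + (x 0 3 + x 1 3 + x 2 3) = 0 ∨ y 0 3 + y 1 3 + y 2 3 = 0) :=
    mkfact (n := n ![1, 1, 1, 4, 3]) (m := m ![1, 1, 1, 4, 3])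
      (by rw [hx ![1, 1, 1, 4, 3] (by decide) (by decide), if_neg (by decide), if_neg (by decide), if_pos (by decide), if_neg (by decide), if_neg (by decide), if_pos (by decide), if_neg (by decide), if_pos (by decide), if_neg (by decide), if_neg (by decide)]; ring)
      (by rw [hy ![1, 1, 1, 4, 3] (by decide) (by decide), if_neg (by decide), if_neg (by decide), if_pos (by decide), if_neg (by decide), if_neg (by decide), if_pos (by decide), if_neg (by decide), if_pos (by decide), if_neg (by decide), if_neg (by decide), hy0]; ring)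
      (hdis _ (by decide) (by decide)) (hn0 _) (hm0 _)
  have f3_014 : 0 ≤ y 0 3 + y 1 3 + y 3 4 ∧ 0 ≤ x0 + (x 0 3 + x 1 3 + x 3 4) ∧ (x0 + (x 0 3 + x 1 3 + x 3 4) = 0 ∨ y 0 3 + y 1 3 + y 3 4 = 0) :=
    mkfact (n := n ![1, 1, 3, 4, 1]) (m := m ![1, 1, 3, 4, 1])
      (by rw [hx ![1, 1, 3, 4, 1] (by decide) (by decide), if_neg (by decide), if_neg (by decide), if_pos (by decide), if_neg (by decide), if_neg (by decide), if_pos (by decide), if_neg (by decide), if_neg (by decide), if_neg (by decide), if_pos (by decide)]; ring)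
      (by rw [hy ![1, 1, 3, 4, 1] (by decide) (by decide), if_neg (by decide), if_neg (by decide), if_pos (by decide), if_neg (by decide), if_neg (by decide), if_pos (by decide), if_neg (by decide), if_neg (by decide), if_neg (by decide), if_pos (by decide), hy0]; ring)
      (hdis _ (by decide) (by decide)) (hn0 _) (hm0 _)
  have f3_024 : 0 ≤ y 0 3 + y 2 3 + y 3 4 ∧ 0 ≤ x0 + (x 0 3 + x 2 3 + x 3 4) ∧ (x0 + (x 0 3 + x 2 3 + x 3 4) = 0 ∨ y 0 3 + y 2 3 + y 3 4 = 0) :=
    mkfact (n := n ![1, 3, 1, 4, 1]) (m := m ![1, 3, 1, 4, 1])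
      (by rw [hx ![1, 3, 1, 4, 1] (by decide) (by decide), if_neg (by decide), if_neg (by decide), if_pos (by decide), if_neg (by decide), if_neg (by decide), if_neg (by decide), if_neg (by decide), if_pos (by decide), if_neg (by decide), if_pos (by decide)]; ring)
      (by rw [hy ![1, 3, 1, 4, 1] (by decide) (by decide), if_neg (by decide), if_neg (by decide), if_pos (by decide), if_neg (by decide), if_neg (by decide), if_neg (by decide), if_neg (by decide), if_pos (by decide), if_neg (by decide), if_pos (by decide), hy0]; ring)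
      (hdis _ (by decide) (by decide)) (hn0 _) (hm0 _)
  have f3_124 : 0 ≤ y 1 3 + y 2 3 + y 3 4 ∧ 0 ≤ x0 + (x 1 3 + x 2 3 + x 3 4) ∧ (x0 + (x 1 3 + x 2 3 + x 3 4) = 0 ∨ y 1 3 + y 2 3 + y 3 4 = 0) :=
    mkfact (n := n ![3, 1, 1, 4, 1]) (m := m ![3, 1, 1, 4, 1])
      (by rw [hx ![3, 1, 1, 4, 1] (by decide) (by decide), if_neg (by decide), if_neg (by decide), if_neg (by decide), if_neg (by decide), if_neg (by decide), if_pos (by decide), if_neg (by decide), if_pos (by decide), if_neg (by decide), if_pos (by decide)]; ring)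
      (by rw [hy ![3, 1, 1, 4, 1] (by decide) (by decide), if_neg (by decide), if_neg (by decide), if_neg (by decide), if_neg (by decide), if_neg (by decide), if_pos (by decide), if_neg (by decide), if_pos (by decide), if_neg (by decide), if_pos (by decide), hy0]; ring)
      (hdis _ (by decide) (by decide)) (hn0 _) (hm0 _)
  have f4_01 : 0 ≤ y 0 4 + y 1 4 ∧ 0 ≤ x0 + (x 0 4 + x 1 4) ∧ (x0 + (x 0 4 + x 1 4) = 0 ∨ y 0 4 + y 1 4 = 0) :=
    mkfact (n := n ![1, 1, 2, 2, 4]) (m := m ![1, 1, 2, 2, 4])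
      (by rw [hx ![1, 1, 2, 2, 4] (by decide) (by decide), if_neg (by decide), if_neg (by decide), if_neg (by decide), if_pos (by decide), if_neg (by decide), if_neg (by decide), if_pos (by decide), if_neg (by decide), if_neg (by decide), if_neg (by decide)]; ring)
      (by rw [hy ![1, 1, 2, 2, 4] (by decide) (by decide), if_neg (by decide), if_neg (by decide), if_neg (by decide), if_pos (by decide), if_neg (by decide), if_neg (by decide), if_pos (by decide), if_neg (by decide), if_neg (by decide), if_neg (by decide), hy0]; ring)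
      (hdis _ (by decide) (by decide)) (hn0 _) (hm0 _)
  have f4_02 : 0 ≤ y 0 4 + y 2 4 ∧ 0 ≤ x0 + (x 0 4 + x 2 4) ∧ (x0 + (x 0 4 + x 2 4) = 0 ∨ y 0 4 + y 2 4 = 0) :=
    mkfact (n := n ![1, 2, 1, 2, 4]) (m := m ![1, 2, 1, 2, 4])
      (by rw [hx ![1, 2, 1, 2, 4] (by decide) (by decide), if_neg (by decide), if_neg (by decide), if_neg (by decide), if_pos (by decide), if_neg (by decide), if_neg (by decide), if_neg (by decide), if_neg (by decide), if_pos (by decide), if_neg (by decide)]; ring)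
      (by rw [hy ![1, 2, 1, 2, 4] (by decide) (by decide), if_neg (by decide), if_neg (by decide), if_neg (by decide), if_pos (by decide), if_neg (by decide), if_neg (by decide), if_neg (by decide), if_neg (by decide), if_pos (by decide), if_neg (by decide), hy0]; ring)
      (hdis _ (by decide) (by decide)) (hn0 _) (hm0 _)
  have f4_03 : 0 ≤ y 0 4 + y 3 4 ∧ 0 ≤ x0 + (x 0 4 + x 3 4) ∧ (x0 + (x 0 4 + x 3 4) = 0 ∨ y 0 4 + y 3 4 = 0) :=
    mkfact (n := n ![1, 2, 2, 1, 4]) (m := m ![1, 2, 2, 1, 4])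
      (by rw [hx ![1, 2, 2, 1, 4] (by decide) (by decide), if_neg (by decide), if_neg (by decide), if_neg (by decide), if_pos (by decide), if_neg (by decide), if_neg (by decide), if_neg (by decide), if_neg (by decide), if_neg (by decide), if_pos (by decide)]; ring)
      (by rw [hy ![1, 2, 2, 1, 4] (by decide) (by decide), if_neg (by decide), if_neg (by decide), if_neg (by decide), if_pos (by decide), if_neg (by decide), if_neg (by decide), if_neg (by decide), if_neg (by decide), if_neg (by decide), if_pos (by decide), hy0]; ring)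
      (hdis _ (by decide) (by decide)) (hn0 _) (hm0 _)
  have f4_12 : 0 ≤ y 1 4 + y 2 4 ∧ 0 ≤ x0 + (x 1 4 + x 2 4) ∧ (x0 + (x 1 4 + x 2 4) = 0 ∨ y 1 4 + y 2 4 = 0) :=
    mkfact (n := n ![2, 1, 1, 2, 4]) (m := m ![2, 1, 1, 2, 4])
      (by rw [hx ![2, 1, 1, 2, 4] (by decide) (by decide), if_neg (by decide), if_neg (by decide), if_neg (by decide), if_neg (by decide), if_neg (by decide), if_neg (by decide), if_pos (by decide), if_neg (by decide), if_pos (by decide), if_neg (by decide)]; ring)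
      (by rw [hy ![2, 1, 1, 2, 4] (by decide) (by decide), if_neg (by decide), if_neg (by decide), if_neg (by decide), if_neg (by decide), if_neg (by decide), if_neg (by decide), if_pos (by decide), if_neg (by decide), if_pos (by decide), if_neg (by decide), hy0]; ring)
      (hdis _ (by decide) (by decide)) (hn0 _) (hm0 _)
  have f4_13 : 0 ≤ y 1 4 + y 3 4 ∧ 0 ≤ x0 + (x 1 4 + x 3 4) ∧ (x0 + (x 1 4 + x 3 4) = 0 ∨ y 1 4 + y 3 4 = 0) :=
    mkfact (n := n ![2, 1, 2, 1, 4]) (m := m ![2, 1, 2, 1, 4])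
      (by rw [hx ![2, 1, 2, 1, 4] (by decide) (by decide), if_neg (by decide), if_neg (by decide), if_neg (by decide), if_neg (by decide), if_neg (by decide), if_neg (by decide), if_pos (by decide), if_neg (by decide), if_neg (by decide), if_pos (by decide)]; ring)
      (by rw [hy ![2, 1, 2, 1, 4] (by decide) (by decide), if_neg (by decide), if_neg (by decide), if_neg (by decide), if_neg (by decide), if_neg (by decide), if_neg (by decide), if_pos (by decide), if_neg (by decide), if_neg (by decide), if_pos (by decide), hy0]; ring)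
      (hdis _ (by decide) (by decide)) (hn0 _) (hm0 _)
  have f4_23 : 0 ≤ y 2 4 + y 3 4 ∧ 0 ≤ x0 + (x 2 4 + x 3 4) ∧ (x0 + (x 2 4 + x 3 4) = 0 ∨ y 2 4 + y 3 4 = 0) :=
    mkfact (n := n ![2, 2, 1, 1, 4]) (m := m ![2, 2, 1, 1, 4])
      (by rw [hx ![2, 2, 1, 1, 4] (by decide) (by decide), if_neg (by decide), if_neg (by decide), if_neg (by decide), if_neg (by decide), if_neg (by decide), if_neg (by decide), if_neg (by decide), if_neg (by decide), if_pos (by decide), if_pos (by decide)]; ring)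
      (by rw [hy ![2, 2, 1, 1, 4] (by decide) (by decide), if_neg (by decide), if_neg (by decide), if_neg (by decide), if_neg (by decide), if_neg (by decide), if_neg (by decide), if_neg (by decide), if_neg (by decide), if_pos (by decide), if_pos (by decide), hy0]; ring)
      (hdis _ (by decide) (by decide)) (hn0 _) (hm0 _)
  have f4_012 : 0 ≤ y 0 4 + y 1 4 + y 2 4 ∧ 0 ≤ x0 + (x 0 4 + x 1 4 + x 2 4) ∧ (x0 + (x 0 4 + x 1 4 + x 2 4) = 0 ∨ y 0 4 + y 1 4 + y 2 4 = 0) :=
    mkfact (n := n ![1, 1, 1, 3, 4]) (m := m ![1, 1, 1, 3, 4])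
      (by rw [hx ![1, 1, 1, 3, 4] (by decide) (by decide), if_neg (by decide), if_neg (by decide), if_neg (by decide), if_pos (by decide), if_neg (by decide), if_neg (by decide), if_pos (by decide), if_neg (by decide), if_pos (by decide), if_neg (by decide)]; ring)
      (by rw [hy ![1, 1, 1, 3, 4] (by decide) (by decide), if_neg (by decide), if_neg (by decide), if_neg (by decide), if_pos (by decide), if_neg (by decide), if_neg (by decide), if_pos (by decide), if_neg (by decide), if_pos (by decide), if_neg (by decide), hy0]; ring)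
      (hdis _ (by decide) (by decide)) (hn0 _) (hm0 _)
  have f4_013 : 0 ≤ y 0 4 + y 1 4 + y 3 4 ∧ 0 ≤ x0 + (x 0 4 + x 1 4 + x 3 4) ∧ (x0 + (x 0 4 + x 1 4 + x 3 4) = 0 ∨ y 0 4 + y 1 4 + y 3 4 = 0) :=
    mkfact (n := n ![1, 1, 3, 1, 4]) (m := m ![1, 1, 3, 1, 4])
      (by rw [hx ![1, 1, 3, 1, 4] (by decide) (by decide), if_neg (by decide), if_neg (by decide), if_neg (by decide), if_pos (by decide), if_neg (by decide), if_neg (by decide), if_pos (by decide), if_neg (by decide), if_neg (by decide), if_pos (by decide)]; ring)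
      (by rw [hy ![1, 1, 3, 1, 4] (by decide) (by decide), if_neg (by decide), if_neg (by decide), if_neg (by decide), if_pos (by decide), if_neg (by decide), if_neg (by decide), if_pos (by decide), if_neg (by decide), if_neg (by decide), if_pos (by decide), hy0]; ring)
      (hdis _ (by decide) (by decide)) (hn0 _) (hm0 _)
  have f4_023 : 0 ≤ y 0 4 + y 2 4 + y 3 4 ∧ 0 ≤ x0 + (x 0 4 + x 2 4 + x 3 4) ∧ (x0 + (x 0 4 + x 2 4 + x 3 4) = 0 ∨ y 0 4 + y 2 4 + y 3 4 = 0) :=
    mkfact (n := n ![1, 3, 1, 1, 4]) (m := m ![1, 3, 1, 1, 4])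
      (by rw [hx ![1, 3, 1, 1, 4] (by decide) (by decide), if_neg (by decide), if_neg (by decide), if_neg (by decide), if_pos (by decide), if_neg (by decide), if_neg (by decide), if_neg (by decide), if_neg (by decide), if_pos (by decide), if_pos (by decide)]; ring)
      (by rw [hy ![1, 3, 1, 1, 4] (by decide) (by decide), if_neg (by decide), if_neg (by decide), if_neg (by decide), if_pos (by decide), if_neg (by decide), if_neg (by decide), if_neg (by decide), if_neg (by decide), if_pos (by decide), if_pos (by decide), hy0]; ring)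
      (hdis _ (by decide) (by decide)) (hn0 _) (hm0 _)
  have f4_123 : 0 ≤ y 1 4 + y 2 4 + y 3 4 ∧ 0 ≤ x0 + (x 1 4 + x 2 4 + x 3 4) ∧ (x0 + (x 1 4 + x 2 4 + x 3 4) = 0 ∨ y 1 4 + y 2 4 + y 3 4 = 0) :=
    mkfact (n := n ![3, 1, 1, 1, 4]) (m := m ![3, 1, 1, 1, 4])
      (by rw [hx ![3, 1, 1, 1, 4] (by decide) (by decide), if_neg (by decide), if_neg (by decide), if_neg (by decide), if_neg (by decide), if_neg (by decide), if_neg (by decide), if_pos (by decide), if_neg (by decide), if_pos (by decide), if_pos (by decide)]; ring)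
      (by rw [hy ![3, 1, 1, 1, 4] (by decide) (by decide), if_neg (by decide), if_neg (by decide), if_neg (by decide), if_neg (by decide), if_neg (by decide), if_neg (by decide), if_pos (by decide), if_neg (by decide), if_pos (by decide), if_pos (by decide), hy0]; ring)
      (hdis _ (by decide) (by decide)) (hn0 _) (hm0 _)
  have c0 := centre4 hx0 f0_12 f0_13 f0_14 f0_23 f0_24 f0_34 f0_123 f0_124 f0_134 f0_234
  have c1 := centre4 hx0 f1_02 f1_03 f1_04 f1_23 f1_24 f1_34 f1_023 f1_024 f1_034 f1_234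
  have c2 := centre4 hx0 f2_01 f2_03 f2_04 f2_13 f2_14 f2_34 f2_013 f2_014 f2_034 f2_134
  have c3 := centre4 hx0 f3_01 f3_02 f3_04 f3_12 f3_14 f3_24 f3_012 f3_014 f3_024 f3_124
  have c4 := centre4 hx0 f4_01 f4_02 f4_03 f4_12 f4_13 f4_23 f4_012 f4_013 f4_023 f4_123
  clear f0_12 f0_13 f0_14 f0_23 f0_24 f0_34 f0_123 f0_124 f0_134 f0_234 f1_02 f1_03 f1_04 f1_23 f1_24 f1_34 f1_023 f1_024 f1_034 f1_234 f2_01 f2_03 f2_04 f2_13 f2_14 f2_34 f2_013 f2_014 f2_034 f2_134 f3_01 f3_02 f3_04 f3_12 f3_14 f3_24 f3_012 f3_014 f3_024 f3_124 f4_01 f4_02 f4_03 f4_12 f4_13 f4_23 f4_012 f4_013 f4_023 f4_123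
  have n01 : 0 ≤ y 0 1 := c0.1.1
  have n02 : 0 ≤ y 0 2 := c0.1.2.1
  have n03 : 0 ≤ y 0 3 := c0.1.2.2.1
  have n04 : 0 ≤ y 0 4 := c0.1.2.2.2
  have n12 : 0 ≤ y 1 2 := c1.1.2.1
  have n13 : 0 ≤ y 1 3 := c1.1.2.2.1
  have n14 : 0 ≤ y 1 4 := c1.1.2.2.2
  have n23 : 0 ≤ y 2 3 := c2.1.2.2.1
  have n24 : 0 ≤ y 2 4 := c2.1.2.2.2
  have n34 : 0 ≤ y 3 4 := c3.1.2.2.2
  have z12 : y 1 2 = 0 := by
    obtain ⟨τ, t1, t2, t3, t4⟩ := h12
    have g2 := hy τ t1 t2
    have g3 : m τ = 0 := (hdis τ t1 t2).resolve_left (ne_of_gt t4)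
    rw [if_pos (show τ 1 + τ 2 = 0 from t3)] at g2
    have q01 : 0 ≤ (if τ 0 + τ 1 = 0 then y 0 1 else 0) := by
      split_ifs
      · exact n01
      · exact le_rfl
    have q02 : 0 ≤ (if τ 0 + τ 2 = 0 then y 0 2 else 0) := by
      split_ifs
      · exact n02
      · exact le_rfl
    have q03 : 0 ≤ (if τ 0 + τ 3 = 0 then y 0 3 else 0) := by
      split_ifs
      · exact n03
      · exact le_rfl
    have q04 : 0 ≤ (if τ 0 + τ 4 = 0 then y 0 4 else 0) := by
      split_ifs
      · exact n04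
      · exact le_rfl
    have q13 : 0 ≤ (if τ 1 + τ 3 = 0 then y 1 3 else 0) := by
      split_ifs
      · exact n13
      · exact le_rfl
    have q14 : 0 ≤ (if τ 1 + τ 4 = 0 then y 1 4 else 0) := by
      split_ifs
      · exact n14
      · exact le_rfl
    have q23 : 0 ≤ (if τ 2 + τ 3 = 0 then y 2 3 else 0) := by
      split_ifs
      · exact n23
      · exact le_rfl
    have q24 : 0 ≤ (if τ 2 + τ 4 = 0 then y 2 4 else 0) := by
      split_ifs
      · exact n24
      · exact le_rfl
    have q34 : 0 ≤ (if τ 3 + τ 4 = 0 then y 3 4 else 0) := by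
      split_ifs
      · exact n34
      · exact le_rfl
    linarith
  have z34 : y 3 4 = 0 := by
    obtain ⟨τ, t1, t2, t3, t4⟩ := h34
    have g2 := hy τ t1 t2
    have g3 : m τ = 0 := (hdis τ t1 t2).resolve_left (ne_of_gt t4)
    rw [if_pos (show τ 3 + τ 4 = 0 from t3)] at g2
    have q01 : 0 ≤ (if τ 0 + τ 1 = 0 then y 0 1 else 0) := by
      split_ifs
      · exact n01
      · exact le_rfl
    have q02 : 0 ≤ (if τ 0 + τ 2 = 0 then y 0 2 else 0) := by
      split_ifs
      · exact n02
      · exact le_rfl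
    have q03 : 0 ≤ (if τ 0 + τ 3 = 0 then y 0 3 else 0) := by
      split_ifs
      · exact n03
      · exact le_rfl
    have q04 : 0 ≤ (if τ 0 + τ 4 = 0 then y 0 4 else 0) := by
      split_ifs
      · exact n04
      · exact le_rfl
    have q12 : 0 ≤ (if τ 1 + τ 2 = 0 then y 1 2 else 0) := by
      split_ifs
      · exact n12
      · exact le_rfl
    have q13 : 0 ≤ (if τ 1 + τ 3 = 0 then y 1 3 else 0) := by
      split_ifs
      · exact n13
      · exact le_rfl
    have q14 : 0 ≤ (if τ 1 + τ 4 = 0 then y 1 4 else 0) := by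
      split_ifs
      · exact n14
      · exact le_rfl
    have q23 : 0 ≤ (if τ 2 + τ 3 = 0 then y 2 3 else 0) := by
      split_ifs
      · exact n23
      · exact le_rfl
    have q24 : 0 ≤ (if τ 2 + τ 4 = 0 then y 2 4 else 0) := by
      split_ifs
      · exact n24
      · exact le_rfl
    linarith
  have fin : ∀ a b c d : Fin 5, a ≠ b → a ≠ c → a ≠ d → b ≠ c → b ≠ d → c ≠ d →
      col a ≠ col b → col c ≠ col d → a < b → c < d →
      (∀ i j : Fin 5, i < j → ¬ (i = a ∧ j = b) → ¬ (i = c ∧ j = d) → y i j = 0) → False := by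
    intro a b c d k1 k2 k3 k4 k5 k6 k7 k8 hab hcd hz
    obtain ⟨τ, t1, t2, t3, t4, t5⟩ := hM a b c d k1 k2 k3 k4 k5 k6 k7 k8
    have g2 := hy τ t1 t2
    have hzero : ∀ i j : Fin 5, i < j → (if τ i + τ j = 0 then y i j else 0) = 0 := by
      intro i j hij
      by_cases e1 : i = a ∧ j = b
      · obtain ⟨rfl, rfl⟩ := e1
        exact if_neg t3
      · by_cases e2 : i = c ∧ j = d
        · obtain ⟨rfl, rfl⟩ := e2
          exact if_neg t4
        · rw [hz i j hij e1 e2]; simp
    rw [hzero 0 1 (by decide), hzero 0 2 (by decide), hzero 0 3 (by decide), hzero 0 4 (by decide), hzero 1 2 (by decide), hzero 1 3 (by decide), hzero 1 4 (by decide), hzero 2 3 (by decide), hzero 2 4 (by decide), hzero 3 4 (by decide)] at g2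
    linarith
  have zall : ∀ (P : Fin 5 → Fin 5 → Prop), P 0 1 → P 0 2 → P 0 3 → P 0 4 → P 1 2 → P 1 3 → P 1 4 → P 2 3 → P 2 4 → P 3 4 → ∀ i j : Fin 5, i < j → P i j := by
    intro P p01 p02 p03 p04 p12 p13 p14 p23 p24 p34 i j hij
    fin_cases i <;> fin_cases j <;> first | assumption | (exact absurd hij (by decide))
  by_cases y01 : y 0 1 = 0
  · by_cases y02 : y 0 2 = 0
    · by_cases y03 : y 0 3 = 0
      · by_cases y04 : y 0 4 = 0
        · by_cases y13 : y 1 3 = 0
          · by_cases y14 : y 1 4 = 0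
            · by_cases y23 : y 2 3 = 0
              · exact fin 0 1 2 4 (by decide) (by decide) (by decide) (by decide) (by decide) (by decide)
                  (by decide) (by decide) (by decide) (by decide)
                  (zall (fun i j => ¬ (i = 0 ∧ j = 1) → ¬ (i = 2 ∧ j = 4) → y i j = 0)
                    (fun h _ => absurd ⟨rfl, rfl⟩ h)
      (fun _ _ => y02)
      (fun _ _ => y03)
      (fun _ _ => y04)
      (fun _ _ => z12)
      (fun _ _ => y13)
      (fun _ _ => y14)
      (fun _ _ => y23)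
      (fun _ h => absurd ⟨rfl, rfl⟩ h)
      (fun _ _ => z34))
              · exact fin 0 1 2 3 (by decide) (by decide) (by decide) (by decide) (by decide) (by decide)
                  (by decide) (by decide) (by decide) (by decide)
                  (zall (fun i j => ¬ (i = 0 ∧ j = 1) → ¬ (i = 2 ∧ j = 3) → y i j = 0)
                    (fun h _ => absurd ⟨rfl, rfl⟩ h)
      (fun _ _ => y02)
      (fun _ _ => y03)
      (fun _ _ => y04)
      (fun _ _ => z12)
      (fun _ _ => y13)
      (fun _ _ => y14)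
      (fun _ h => absurd ⟨rfl, rfl⟩ h)
      (fun _ _ => (c2.2.2.2.2.2.2.resolve_left y23))
      (fun _ _ => z34))
            · exact fin 1 4 2 3 (by decide) (by decide) (by decide) (by decide) (by decide) (by decide)
                (by decide) (by decide) (by decide) (by decide)
                (zall (fun i j => ¬ (i = 1 ∧ j = 4) → ¬ (i = 2 ∧ j = 3) → y i j = 0)
                  (fun _ _ => y01)
      (fun _ _ => y02)
      (fun _ _ => y03)
      (fun _ _ => y04)
      (fun _ _ => z12)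
      (fun _ _ => y13)
      (fun h _ => absurd ⟨rfl, rfl⟩ h)
      (fun _ h => absurd ⟨rfl, rfl⟩ h)
      (fun _ _ => (c4.2.2.2.2.1.resolve_left y14))
      (fun _ _ => z34))
          · exact fin 1 3 2 4 (by decide) (by decide) (by decide) (by decide) (by decide) (by decide)
              (by decide) (by decide) (by decide) (by decide)
              (zall (fun i j => ¬ (i = 1 ∧ j = 3) → ¬ (i = 2 ∧ j = 4) → y i j = 0)
                (fun _ _ => y01)
      (fun _ _ => y02)
      (fun _ _ => y03)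
      (fun _ _ => y04)
      (fun _ _ => z12)
      (fun h _ => absurd ⟨rfl, rfl⟩ h)
      (fun _ _ => (c1.2.2.2.2.2.2.resolve_left y13))
      (fun _ _ => (c3.2.2.2.2.1.resolve_left y13))
      (fun _ h => absurd ⟨rfl, rfl⟩ h)
      (fun _ _ => z34))
        · by_cases y13 : y 1 3 = 0
          · exact fin 0 4 2 3 (by decide) (by decide) (by decide) (by decide) (by decide) (by decide)
              (by decide) (by decide) (by decide) (by decide)
              (zall (fun i j => ¬ (i = 0 ∧ j = 4) → ¬ (i = 2 ∧ j = 3) → y i j = 0)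
                (fun _ _ => y01)
      (fun _ _ => y02)
      (fun _ _ => y03)
      (fun h _ => absurd ⟨rfl, rfl⟩ h)
      (fun _ _ => z12)
      (fun _ _ => y13)
      (fun _ _ => (c4.2.1.resolve_left y04))
      (fun _ h => absurd ⟨rfl, rfl⟩ h)
      (fun _ _ => (c4.2.2.1.resolve_left y04))
      (fun _ _ => z34))
          · exact fin 0 4 1 3 (by decide) (by decide) (by decide) (by decide) (by decide) (by decide)
              (by decide) (by decide) (by decide) (by decide)
              (zall (fun i j => ¬ (i = 0 ∧ j = 4) → ¬ (i = 1 ∧ j = 3) → y i j = 0)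
                (fun _ _ => y01)
      (fun _ _ => y02)
      (fun _ _ => y03)
      (fun h _ => absurd ⟨rfl, rfl⟩ h)
      (fun _ _ => z12)
      (fun _ h => absurd ⟨rfl, rfl⟩ h)
      (fun _ _ => (c4.2.1.resolve_left y04))
      (fun _ _ => (c3.2.2.2.2.1.resolve_left y13))
      (fun _ _ => (c4.2.2.1.resolve_left y04))
      (fun _ _ => z34))
      · by_cases y14 : y 1 4 = 0
        · exact fin 0 3 2 4 (by decide) (by decide) (by decide) (by decide) (by decide) (by decide)
            (by decide) (by decide) (by decide) (by decide)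
            (zall (fun i j => ¬ (i = 0 ∧ j = 3) → ¬ (i = 2 ∧ j = 4) → y i j = 0)
              (fun _ _ => y01)
      (fun _ _ => y02)
      (fun h _ => absurd ⟨rfl, rfl⟩ h)
      (fun _ _ => (c0.2.2.2.2.2.2.resolve_left y03))
      (fun _ _ => z12)
      (fun _ _ => (c3.2.1.resolve_left y03))
      (fun _ _ => y14)
      (fun _ _ => (c3.2.2.1.resolve_left y03))
      (fun _ h => absurd ⟨rfl, rfl⟩ h)
      (fun _ _ => z34))
        · exact fin 0 3 1 4 (by decide) (by decide) (by decide) (by decide) (by decide) (by decide)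
            (by decide) (by decide) (by decide) (by decide)
            (zall (fun i j => ¬ (i = 0 ∧ j = 3) → ¬ (i = 1 ∧ j = 4) → y i j = 0)
              (fun _ _ => y01)
      (fun _ _ => y02)
      (fun h _ => absurd ⟨rfl, rfl⟩ h)
      (fun _ _ => (c0.2.2.2.2.2.2.resolve_left y03))
      (fun _ _ => z12)
      (fun _ _ => (c3.2.1.resolve_left y03))
      (fun _ h => absurd ⟨rfl, rfl⟩ h)
      (fun _ _ => (c3.2.2.1.resolve_left y03))
      (fun _ _ => (c4.2.2.2.2.1.resolve_left y14))
      (fun _ _ => z34))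
    · by_cases y13 : y 1 3 = 0
      · exact fin 0 2 1 4 (by decide) (by decide) (by decide) (by decide) (by decide) (by decide)
          (by decide) (by decide) (by decide) (by decide)
          (zall (fun i j => ¬ (i = 0 ∧ j = 2) → ¬ (i = 1 ∧ j = 4) → y i j = 0)
            (fun _ _ => y01)
      (fun h _ => absurd ⟨rfl, rfl⟩ h)
      (fun _ _ => (c0.2.2.2.2.1.resolve_left y02))
      (fun _ _ => (c0.2.2.2.2.2.1.resolve_left y02))
      (fun _ _ => z12)
      (fun _ _ => y13)
      (fun _ h => absurd ⟨rfl, rfl⟩ h)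
      (fun _ _ => (c2.2.2.1.resolve_left y02))
      (fun _ _ => (c2.2.2.2.1.resolve_left y02))
      (fun _ _ => z34))
      · exact fin 0 2 1 3 (by decide) (by decide) (by decide) (by decide) (by decide) (by decide)
          (by decide) (by decide) (by decide) (by decide)
          (zall (fun i j => ¬ (i = 0 ∧ j = 2) → ¬ (i = 1 ∧ j = 3) → y i j = 0)
            (fun _ _ => y01)
      (fun h _ => absurd ⟨rfl, rfl⟩ h)
      (fun _ _ => (c0.2.2.2.2.1.resolve_left y02))
      (fun _ _ => (c0.2.2.2.2.2.1.resolve_left y02))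
      (fun _ _ => z12)
      (fun _ h => absurd ⟨rfl, rfl⟩ h)
      (fun _ _ => (c1.2.2.2.2.2.2.resolve_left y13))
      (fun _ _ => (c2.2.2.1.resolve_left y02))
      (fun _ _ => (c2.2.2.2.1.resolve_left y02))
      (fun _ _ => z34))
  · by_cases y23 : y 2 3 = 0
    · exact fin 0 1 2 4 (by decide) (by decide) (by decide) (by decide) (by decide) (by decide)
        (by decide) (by decide) (by decide) (by decide)
        (zall (fun i j => ¬ (i = 0 ∧ j = 1) → ¬ (i = 2 ∧ j = 4) → y i j = 0)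
          (fun h _ => absurd ⟨rfl, rfl⟩ h)
      (fun _ _ => (c0.2.1.resolve_left y01))
      (fun _ _ => (c0.2.2.1.resolve_left y01))
      (fun _ _ => (c0.2.2.2.1.resolve_left y01))
      (fun _ _ => z12)
      (fun _ _ => (c1.2.2.1.resolve_left y01))
      (fun _ _ => (c1.2.2.2.1.resolve_left y01))
      (fun _ _ => y23)
      (fun _ h => absurd ⟨rfl, rfl⟩ h)
      (fun _ _ => z34))
    · exact fin 0 1 2 3 (by decide) (by decide) (by decide) (by decide) (by decide) (by decide)
        (by decide) (by decide) (by decide) (by decide)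
        (zall (fun i j => ¬ (i = 0 ∧ j = 1) → ¬ (i = 2 ∧ j = 3) → y i j = 0)
          (fun h _ => absurd ⟨rfl, rfl⟩ h)
      (fun _ _ => (c0.2.1.resolve_left y01))
      (fun _ _ => (c0.2.2.1.resolve_left y01))
      (fun _ _ => (c0.2.2.2.1.resolve_left y01))
      (fun _ _ => z12)
      (fun _ _ => (c1.2.2.1.resolve_left y01))
      (fun _ _ => (c1.2.2.2.1.resolve_left y01))
      (fun _ h => absurd ⟨rfl, rfl⟩ h)
      (fun _ _ => (c2.2.2.2.2.2.2.resolve_left y23))
      (fun _ _ => z34))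

end MP974d84
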