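import Mathlib
import Pool.Agent.Work.MP_974d84_co.Split

/-!
Replacing one side of a five-edge cut by a path with three vertices.
-/

namespace MP974d84

open Finset

variable {V E : Type*} [Fintype V] [DecidableEq V] [Fintype E] [DecidableEq E]
variable {A : Type*} [AddCommGroup A]

/-- Index of a terminal edge. -/
def idx (tm : Fin 5 → E) (e : E) : Fin 5 :=
  if e = tm 1 then 1 else if e = tm 2 then 2 else if e = tm 3 then 3 else if e = tm 4 then 4 else 0

theorem idx_tm {tm : Fin 5 → E} (h : Function.Injective tm) (i : Fin 5) : idx tm (tm i) = i := by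
  unfold idx
  fin_cases i <;> simp [h.eq_iff]

/-- Source map after the replacement. -/
def gs (s : E → V) (T : Finset V) (tm : Fin 5 → E) (k : Fin 3 → V) (g1 g2 : E)
    (pos : Fin 5 → Fin 3) (e : E) : V :=
  if e = g1 then k 0 else if e = g2 then k 1 else if s e ∈ T then k (pos (idx tm e)) else s e

/-- Target map after the replacement. -/
def gt (t : E → V) (T : Finset V) (tm : Fin 5 → E) (k : Fin 3 → V) (g1 g2 : E)
    (pos : Fin 5 → Fin 3) (e : E) : V :=
  if e = g1 then k 1 else if e = g2 then k 2 else if t e ∈ T then k (pos (idx tm e)) else t e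

/-- Edge set after the replacement. -/
def gS (s t : E → V) (S : Finset E) (T : Finset V) (g1 g2 : E) : Finset E :=
  insert g1 (insert g2 (S.filter fun e => ¬ (s e ∈ T ∧ t e ∈ T)))

/-- Data of the replacement. -/
structure Gad (s t : E → V) (S : Finset E) (T : Finset V) (tm : Fin 5 → E) (k : Fin 3 → V)
    (g1 g2 : E) : Prop where
  term : Term s t S T tm
  kinj : Function.Injective k
  kmem : ∀ j, k j ∈ T
  gne : g1 ≠ g2
  g1S : g1 ∈ S
  g1s : s g1 ∈ T
  g1t : t g1 ∈ T
  g2S : g2 ∈ S
  g2s : s g2 ∈ T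
  g2t : t g2 ∈ T

section
variable {s t : E → V} {S : Finset E} {T : Finset V} {tm : Fin 5 → E} {k : Fin 3 → V} {g1 g2 : E}
  (h : Gad s t S T tm k g1 g2) (pos : Fin 5 → Fin 3)
include h

theorem Gad.s_mem (e : E) : gs s T tm k g1 g2 pos e ∈ T ↔ s e ∈ T := by
  unfold gs
  split_ifs with h1 h2 h3
  · simp [h.kmem, h1, h.g1s]
  · simp [h.kmem, h2, h.g2s]
  · simp [h.kmem, h3]
  · rfl

theorem Gad.t_mem (e : E) : gt t T tm k g1 g2 pos e ∈ T ↔ t e ∈ T := by
  unfold gt
  split_ifs with h1 h2 h3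
  · simp [h.kmem, h1, h.g1t]
  · simp [h.kmem, h2, h.g2t]
  · simp [h.kmem, h3]
  · rfl

theorem Gad.tm_ne1 (i : Fin 5) : tm i ≠ g1 := by
  intro hi
  rcases h.term.crs i with ⟨_, h2⟩ | ⟨h1, _⟩
  · exact h2 (by rw [hi]; exact h.g1t)
  · exact h1 (by rw [hi]; exact h.g1s)

theorem Gad.tm_ne2 (i : Fin 5) : tm i ≠ g2 := by
  intro hi
  rcases h.term.crs i with ⟨_, h2⟩ | ⟨h1, _⟩
  · exact h2 (by rw [hi]; exact h.g2t)
  · exact h1 (by rw [hi]; exact h.g2s)

theorem Gad.crs_iff (e : E) : crs (gs s T tm k g1 g2 pos) (gt t T tm k g1 g2 pos) T e ↔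
    crs s t T e := by
  unfold crs; rw [h.s_mem pos, h.t_mem pos]

theorem Gad.gterm : Term (gs s T tm k g1 g2 pos) (gt t T tm k g1 g2 pos) (gS s t S T g1 g2) T tm where
  inj := h.term.inj
  mem i := by
    unfold gS
    refine mem_insert_of_mem (mem_insert_of_mem (mem_filter.2 ⟨h.term.mem i, ?_⟩))
    rcases h.term.crs i with ⟨_, h2⟩ | ⟨h1, _⟩
    · exact fun hc => h2 hc.2
    · exact fun hc => h1 hc.1
  crs i := (h.crs_iff pos _).2 (h.term.crs i)
  all e he hc := by
    have hc' := (h.crs_iff pos e).1 hc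
    unfold gS at he
    rcases mem_insert.1 he with rfl | he
    · rcases hc' with ⟨_, h2⟩ | ⟨h1, _⟩
      · exact absurd h.g1t h2
      · exact absurd h.g1s h1
    · rcases mem_insert.1 he with rfl | he
      · rcases hc' with ⟨_, h2⟩ | ⟨h1, _⟩
        · exact absurd h.g2t h2
        · exact absurd h.g2s h1
      · exact h.term.all e (mem_filter.1 he).1 hc'

theorem Gad.attI_tm (i : Fin 5) :
    attI (gs s T tm k g1 g2 pos) (gt t T tm k g1 g2 pos) T (tm i) = k (pos i) := by
  have e1 := h.s_mem pos (tm i)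
  unfold attI
  by_cases hs : s (tm i) ∈ T
  · rw [if_pos (e1.2 hs)]
    unfold gs
    rw [if_neg (h.tm_ne1 i), if_neg (h.tm_ne2 i), if_pos hs, idx_tm h.term.inj]
  · rw [if_neg (fun hc => hs (e1.1 hc))]
    have ht : t (tm i) ∈ T := by
      rcases h.term.crs i with ⟨h1, _⟩ | ⟨_, h2⟩
      · exact absurd h1 hs
      · exact h2
    unfold gt
    rw [if_neg (h.tm_ne1 i), if_neg (h.tm_ne2 i), if_pos ht, idx_tm h.term.inj]

theorem Gad.attO_tm (i : Fin 5) :
    attO (gs s T tm k g1 g2 pos) (gt t T tm k g1 g2 pos) T (tm i) = attO s t T (tm i) := by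
  have e1 := h.s_mem pos (tm i)
  unfold attO
  by_cases hs : s (tm i) ∈ T
  · rw [if_pos (e1.2 hs), if_pos hs]
    have ht : t (tm i) ∉ T := by
      rcases h.term.crs i with ⟨_, h2⟩ | ⟨h1, _⟩
      · exact h2
      · exact absurd hs h1
    unfold gt
    rw [if_neg (h.tm_ne1 i), if_neg (h.tm_ne2 i), if_neg ht]
  · rw [if_neg (fun hc => hs (e1.1 hc)), if_neg hs]
    unfold gs
    rw [if_neg (h.tm_ne1 i), if_neg (h.tm_ne2 i), if_neg hs]

theorem Gad.out_ne {e : E} (h1 : s e ∉ T) : e ≠ g1 ∧ e ≠ g2 := by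
  constructor
  · rintro rfl; exact h1 h.g1s
  · rintro rfl; exact h1 h.g2s

theorem Gad.D_out (f : E → A) (a : V) :
    D (gs s T tm k g1 g2 pos) (gt t T tm k g1 g2 pos) (outP s t T f) a
      = D s t (outP s t T f) a := by
  refine sum_congr rfl fun e _ => ?_
  unfold outP
  by_cases hc : s e ∉ T ∧ t e ∉ T
  · have h1 := h.out_ne hc.1
    have e1 : gs s T tm k g1 g2 pos e = s e := by
      unfold gs; rw [if_neg h1.1, if_neg h1.2, if_neg hc.1]
    have e2 : gt t T tm k g1 g2 pos e = t e := by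
      unfold gt; rw [if_neg h1.1, if_neg h1.2, if_neg hc.2]
    rw [e1, e2]
  · simp only [hc, if_false, ite_self, sub_self]

theorem Gad.outP_eq (f : E → A) :
    outP (gs s T tm k g1 g2 pos) (gt t T tm k g1 g2 pos) T f = outP s t T f := by
  ext e
  unfold outP
  simp only [h.s_mem pos, h.t_mem pos]

theorem Gad.D_two (c1 c2 : A) (a : V) :
    D (gs s T tm k g1 g2 pos) (gt t T tm k g1 g2 pos) (fun e => sgl g1 c1 e + sgl g2 c2 e) a
      = (if k 0 = a then c1 else 0) + (if k 1 = a then c2 - c1 else 0)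
        + (if k 2 = a then - c2 else 0) := by
  have e1 : gs s T tm k g1 g2 pos g1 = k 0 := by simp [gs]
  have e2 : gt t T tm k g1 g2 pos g1 = k 1 := by simp [gt]
  have e3 : gs s T tm k g1 g2 pos g2 = k 1 := by simp [gs, h.gne.symm]
  have e4 : gt t T tm k g1 g2 pos g2 = k 2 := by simp [gt, h.gne.symm]
  rw [D_add, D_sgl, D_sgl, e1, e2, e3, e4]
  split_ifs <;> abel

theorem inj_pos (w : Fin 5 → A) (a : V) :
    inj (fun i => k (pos i)) w a = ∑ j, if k j = a then (∑ i, if pos i = j then w i else 0) else 0 := by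
  have h1 : ∀ j, (if k j = a then (∑ i, if pos i = j then w i else 0) else 0)
      = ∑ i, if pos i = j then (if k (pos i) = a then w i else 0) else 0 := by
    intro j
    by_cases hj : k j = a
    · rw [if_pos hj]
      refine sum_congr rfl fun i _ => ?_
      by_cases hi : pos i = j
      · rw [if_pos hi, if_pos hi, hi, if_pos hj]
      · rw [if_neg hi, if_neg hi]
    · rw [if_neg hj]
      symm
      refine sum_eq_zero fun i _ => ?_
      by_cases hi : pos i = j
      · rw [if_pos hi, hi, if_neg hj]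
      · rw [if_neg hi]
  simp only [h1]
  rw [sum_comm, inj]
  refine sum_congr rfl fun i _ => ?_
  rw [sum_ite_eq]
  simp

/-- The transferred flow. -/
def gf (s t : E → V) (T : Finset V) (tm : Fin 5 → E) (g1 g2 : E) (pos : Fin 5 → Fin 3)
    (f : E → A) (e : E) : A :=
  if e = g1 then - ∑ i, (if pos i = 0 then ov s t f T (tm i) else 0)
  else if e = g2 then ∑ i, (if pos i = 2 then ov s t f T (tm i) else 0)
  else if s e ∈ T ∧ t e ∈ T then 0 else f e

theorem sum_pos (w : Fin 5 → A) : ∑ j : Fin 3, (∑ i, if pos i = j then w i else 0) = ∑ i, w i := by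
  rw [sum_comm]
  refine sum_congr rfl fun i _ => ?_
  rw [sum_ite_eq]; simp

theorem Gad.D_gf (f : E → A) (hf : ∀ e, f e ≠ 0 → e ∈ S) (h0 : ∀ a, D s t f a = 0) (a : V) :
    D (gs s T tm k g1 g2 pos) (gt t T tm k g1 g2 pos) (gf s t T tm g1 g2 pos f) a = 0 := by
  obtain ⟨k1, k2⟩ := split_flow h.term f hf h0
  have htot : ∑ i, ov s t f T (tm i) = 0 := by
    rw [← sum_ov h0 T, ← sum_image (f := fun e => ov s t f T e) (fun i _ j _ hij => h.term.inj hij)]
    apply sum_subset (subset_univ _)
    intro e _ he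
    by_cases hfe : f e = 0
    · exact ov_zero hfe
    · have hnc : ¬ crs s t T e := by
        intro hc
        obtain ⟨i, hi⟩ := h.term.all e (hf e hfe) hc
        exact he (mem_image.2 ⟨i, mem_univ i, hi.symm⟩)
      unfold ov
      unfold crs at hnc
      by_cases c1 : s e ∈ T <;> by_cases c2 : t e ∈ T <;> simp_all
  have hw : ∀ i, ov (gs s T tm k g1 g2 pos) (gt t T tm k g1 g2 pos) (gf s t T tm g1 g2 pos f) T (tm i)
      = ov s t f T (tm i) := by
    intro i
    have hni : ¬ (s (tm i) ∈ T ∧ t (tm i) ∈ T) := by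
      rcases h.term.crs i with ⟨_, h2⟩ | ⟨h1, _⟩
      · exact fun hc => h2 hc.2
      · exact fun hc => h1 hc.1
    have e1 : gf s t T tm g1 g2 pos f (tm i) = f (tm i) := by
      unfold gf
      rw [if_neg (h.tm_ne1 i), if_neg (h.tm_ne2 i), if_neg hni]
    unfold ov
    simp only [h.s_mem pos, h.t_mem pos, e1]
  refine join_flow (h.gterm pos) (gf s t T tm g1 g2 pos f) ?_ ?_ ?_ a
  · intro e he
    unfold gf at he
    unfold gS
    by_cases c1 : e = g1
    · exact mem_insert.2 (Or.inl c1)
    · by_cases c2 : e = g2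
      · exact mem_insert_of_mem (mem_insert.2 (Or.inl c2))
      · rw [if_neg c1, if_neg c2] at he
        by_cases c3 : s e ∈ T ∧ t e ∈ T
        · rw [if_pos c3] at he; exact absurd rfl he
        · rw [if_neg c3] at he
          exact mem_insert_of_mem (mem_insert_of_mem (mem_filter.2 ⟨hf e he, c3⟩))
  · intro a
    have e1 : innP (gs s T tm k g1 g2 pos) (gt t T tm k g1 g2 pos) T (gf s t T tm g1 g2 pos f)
        = fun e => sgl g1 (- ∑ i, (if pos i = 0 then ov s t f T (tm i) else 0)) e
          + sgl g2 (∑ i, (if pos i = 2 then ov s t f T (tm i) else 0)) e := by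
      ext e
      unfold innP sgl
      simp only [h.s_mem pos, h.t_mem pos]
      unfold gf
      by_cases c1 : e = g1
      · subst c1; simp [h.g1s, h.g1t, h.gne]
      · by_cases c2 : e = g2
        · subst c2; simp [h.g2s, h.g2t, c1]
        · simp [c1, c2]
          intro c3 c4; simp [c3, c4]
    rw [e1, h.D_two pos]
    simp only [hw, h.attI_tm pos]
    rw [inj_neg, inj_pos h pos]
    have hs := sum_pos h pos (fun i => ov s t f T (tm i))
    rw [htot, Fin.sum_univ_three] at hs
    rw [Fin.sum_univ_three]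
    have hs' : ∑ i, (if pos i = 1 then ov s t f T (tm i) else 0)
        = - ∑ i, (if pos i = 0 then ov s t f T (tm i) else 0)
          - ∑ i, (if pos i = 2 then ov s t f T (tm i) else 0) := by
      refine sub_eq_zero.1 (Eq.trans ?_ hs)
      abel
    rw [hs']
    split_ifs <;> abel
  · intro a
    have e2 : outP s t T (gf s t T tm g1 g2 pos f) = outP s t T f := by
      ext e
      unfold outP
      by_cases hc : s e ∉ T ∧ t e ∉ T
      · rw [if_pos hc, if_pos hc]
        unfold gf
        rw [if_neg (h.out_ne hc.1).1, if_neg (h.out_ne hc.1).2, if_neg (fun hh => hc.1 hh.1)]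
      · rw [if_neg hc, if_neg hc]
    rw [h.outP_eq pos, e2, h.D_out pos, k2]
    simp only [hw, h.attO_tm pos]

/-- A flow of the reduced graph gives boundary values for the outer side. -/
theorem Gad.back (hflow : HasFlow (ZMod 5) (gs s T tm k g1 g2 pos) (gt t T tm k g1 g2 pos)
    (gS s t S T g1 g2)) :
    ∃ τ : Fin 5 → ZMod 5, (∀ i, τ i ≠ 0) ∧ ∑ i, τ i = 0 ∧
      ∑ i, (if pos i = 0 then τ i else 0) ≠ 0 ∧ ∑ i, (if pos i = 2 then τ i else 0) ≠ 0 ∧
      0 < cnt s t (S.filter fun e => s e ∉ T ∧ t e ∉ T) (fun i => attO s t T (tm i))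
        (fun i => - τ i) := by
  obtain ⟨f, hf1, hf2⟩ := hflow
  obtain ⟨k1, k2⟩ := split_flow (h.gterm pos) f (fun e he => (hf1 e).1 he) hf2
  set w : Fin 5 → ZMod 5 := fun i =>
    ov (gs s T tm k g1 g2 pos) (gt t T tm k g1 g2 pos) f T (tm i) with hw
  have hw0 : ∀ i, w i ≠ 0 := by
    intro i
    exact (ov_tm_ne ((h.gterm pos).crs i) f).2 ((hf1 _).2 ((h.gterm pos).mem i))
  have hg1 : f g1 ≠ 0 := (hf1 _).2 (mem_insert_self _ _)
  have hg2 : f g2 ≠ 0 := (hf1 _).2 (mem_insert_of_mem (mem_insert_self _ _))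
  have e1 : innP (gs s T tm k g1 g2 pos) (gt t T tm k g1 g2 pos) T f
      = fun e => sgl g1 (f g1) e + sgl g2 (f g2) e := by
    ext e
    unfold innP sgl
    simp only [h.s_mem pos, h.t_mem pos]
    by_cases c1 : e = g1
    · subst c1; simp [h.g1s, h.g1t, h.gne]
    · by_cases c2 : e = g2
      · subst c2; simp [h.g2s, h.g2t, c1]
      · simp only [c1, c2, if_false, add_zero, ite_eq_right_iff]
        intro c3
        by_contra hne
        have := (hf1 e).1 hne
        unfold gS at this
        simp only [mem_insert, c1, c2, false_or, mem_filter] at this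
        exact this.2 c3
  have k1' : ∀ a, (if k 0 = a then f g1 else 0) + (if k 1 = a then f g2 - f g1 else 0)
        + (if k 2 = a then - f g2 else 0) = inj (fun i => k (pos i)) (fun i => - w i) a := by
    intro a
    rw [← h.D_two pos, ← e1, k1 a]
    simp only [h.attI_tm pos, hw]
  have h01 : k 0 ≠ k 1 := fun hc => absurd (h.kinj hc) (by decide)
  have h02 : k 0 ≠ k 2 := fun hc => absurd (h.kinj hc) (by decide)
  have h12 : k 1 ≠ k 2 := fun hc => absurd (h.kinj hc) (by decide)
  refine ⟨fun i => - w i, fun i => neg_ne_zero.2 (hw0 i), ?_, ?_, ?_, ?_⟩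
  · -- total
    have h3 := sum_pos h pos (fun i => - w i)
    rw [← h3, Fin.sum_univ_three]
    have a0 := k1' (k 0)
    have a1 := k1' (k 1)
    have a2 := k1' (k 2)
    rw [inj_pos h pos, Fin.sum_univ_three] at a0 a1 a2
    simp only [h01, h02, h12, h01.symm, h02.symm, h12.symm, if_true, if_false, add_zero,
      zero_add] at a0 a1 a2
    rw [← a0, ← a1, ← a2]
    ring
  · have a0 := k1' (k 0)
    rw [inj_pos h pos, Fin.sum_univ_three] at a0
    simp only [h01, h02, h12, h01.symm, h02.symm, h12.symm, if_true, if_false, add_zero,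
      zero_add] at a0
    rw [← a0]; exact hg1
  · have a2 := k1' (k 2)
    rw [inj_pos h pos, Fin.sum_univ_three] at a2
    simp only [h01, h02, h12, h01.symm, h02.symm, h12.symm, if_true, if_false, add_zero,
      zero_add] at a2
    rw [← a2]; exact neg_ne_zero.2 hg2
  · apply card_pos.2
    refine ⟨outP s t T f, ?_⟩
    simp only [mem_filter, mem_univ, true_and]
    refine ⟨fun e => ?_, fun a => ?_⟩
    · unfold outP
      by_cases hc : s e ∉ T ∧ t e ∉ T
      · rw [if_pos hc, hf1 e]
        have hne := h.out_ne hc.1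
        unfold gS
        simp only [mem_insert, hne.1, hne.2, false_or, mem_filter]
        constructor
        · exact fun hh => ⟨hh.1, hc⟩
        · exact fun hh => ⟨hh.1, fun hc' => hc.1 hc'.1⟩
      · rw [if_neg hc]
        simp only [ne_eq, not_true_eq_false, false_iff]
        exact fun hh => hc hh.2
    · have a3 := k2 a
      rw [h.outP_eq pos, h.D_out pos] at a3
      rw [a3]
      simp only [h.attO_tm pos, neg_neg, hw]

end

end MP974d84
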