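import Mathlib
import Pool.Agent.Work.MP_974d84_co.Closing
import Pool.Agent.Work.MP_974d84_co.Gadget
import Pool.Agent.Work.MP_974d84_co.Finite5

/-!
Reduction of a tight five-edge cut.
-/

namespace MP974d84

open Finset

variable {V E : Type*} [Fintype V] [DecidableEq V] [Fintype E] [DecidableEq E]

theorem Form.negArg {n : (Fin 5 → ZMod 5) → ℤ} (hn : Form n) :
    Form (fun τ => n (fun i => - τ i)) := by
  obtain ⟨x0, x, hx⟩ := hn
  refine ⟨x0, x, fun τ h1 h2 => ?_⟩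
  simp only
  rw [hx (fun i => - τ i) (fun i => neg_ne_zero.2 (h1 i)) (by rw [sum_neg_distrib, h2, neg_zero])]
  congr 1
  refine sum_congr rfl fun i _ => sum_congr rfl fun j _ => ?_
  have : - τ i + - τ j = 0 ↔ τ i + τ j = 0 := by
    rw [← neg_add, neg_eq_zero]
  simp only [this]

/-- Positions of the terminals on the three-vertex path. -/
def posOf (p q r r' : Fin 5) (i : Fin 5) : Fin 3 :=
  if i = p ∨ i = q then 0 else if i = r ∨ i = r' then 2 else 1

theorem posOf_sum {p q r r' : Fin 5} (h1 : p ≠ q) (h2 : p ≠ r) (h3 : p ≠ r') (h4 : q ≠ r)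
    (h5 : q ≠ r') (h6 : r ≠ r') {A : Type*} [AddCommGroup A] (τ : Fin 5 → A) :
    ∑ i, (if posOf p q r r' i = 0 then τ i else 0) = τ p + τ q ∧
    ∑ i, (if posOf p q r r' i = 2 then τ i else 0) = τ r + τ r' := by
  constructor
  · rw [← sum_pair h1, ← sum_subset (subset_univ {p, q})]
    · refine sum_congr rfl fun i hi => ?_
      simp only [mem_insert, mem_singleton] at hi
      simp [posOf, hi]
    · intro i _ hi
      simp only [mem_insert, mem_singleton] at hi
      unfold posOf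
      rw [if_neg hi]
      by_cases hc : i = r ∨ i = r' <;> simp [hc]
  · rw [← sum_pair h6, ← sum_subset (subset_univ {r, r'})]
    · refine sum_congr rfl fun i hi => ?_
      simp only [mem_insert, mem_singleton] at hi
      have : ¬ (i = p ∨ i = q) := by
        rcases hi with rfl | rfl
        · simp [Ne.symm h2, Ne.symm h4]
        · simp [Ne.symm h3, Ne.symm h5]
      simp [posOf, hi, this]
    · intro i _ hi
      simp only [mem_insert, mem_singleton] at hi
      unfold posOf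
      by_cases hc : i = p ∨ i = q <;> simp [hc, hi]

section
variable {s t : E → V} {S F : Finset E} {T : Finset V} {tm : Fin 5 → E} {b a : E → ℤ}
  (h : Sit s t S F T tm b a)
include h

theorem Sit.castOv (f : E → ℤ) (i : Fin 5) :
    ((f (tm i) : ℤ) : ZMod 2) = ((ov s t f T (tm i) : ℤ) : ZMod 2) := by
  rw [ov_tm (h.term.crs i)]
  have : ∀ z : ZMod 2, - z = z := by decide
  split_ifs
  · rfl
  · push_cast; rw [this]

theorem Sit.reduce {k : Fin 3 → V} {g1 g2 : E} (hG : Gad s t S T tm k g1 g2)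
    (hflow : ∀ p q r r' : Fin 5, p ≠ q → p ≠ r → p ≠ r' → q ≠ r → q ≠ r' → r ≠ r' →
      col p ≠ col q → col r ≠ col r' →
      HasFlow (ZMod 5) (gs s T tm k g1 g2 (posOf p q r r')) (gt t T tm k g1 g2 (posOf p q r r'))
        (gS s t S T g1 g2)) :
    HasFlow (ZMod 5) s t S := by
  by_contra hno
  refine finite_lemma
    (fun τ => (cnt s t (S.filter fun e => s e ∈ T ∧ t e ∈ T) (fun i => attI s t T (tm i)) τ : ℤ))
    (fun τ => (cnt s t (S.filter fun e => s e ∉ T ∧ t e ∉ T) (fun i => attO s t T (tm i))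
      (fun i => - τ i) : ℤ))
    (cnt_form _ _ _ _) (Form.negArg (cnt_form _ s t _)) (fun τ => Int.natCast_nonneg _)
    (fun τ => Int.natCast_nonneg _) ?_ ?_ ?_ ?_ ?_
  · intro τ h1 _
    rcases glue h.term hno τ h1 with h2 | h2
    · left; exact_mod_cast h2
    · right; exact_mod_cast h2
  · exact_mod_cast h.exit
  · have hA : Adm 1 2 3 4 := Or.inr ⟨rfl, rfl, rfl, rfl⟩
    obtain ⟨τ, h1, h2, h3, h4⟩ := h.closing hA
      ⟨by rw [h.castOv b 1, h.castOv b 2, h.v1.1, h.v2.1],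
        by rw [h.castOv a 1, h.castOv a 2, h.v1.2, h.v2.2]⟩
      ⟨by rw [h.castOv b 3, h.castOv b 4, h.v3.1, h.v4.1],
        by rw [h.castOv a 3, h.castOv a 4, h.v3.2, h.v4.2]; decide⟩
      (by rw [h.v1.1, h.v2.1]; norm_num)
    exact ⟨τ, h1, h2, h3, by exact_mod_cast h4⟩
  · have hA : Adm 3 4 1 2 := Or.inl ⟨rfl, rfl, rfl, rfl⟩
    obtain ⟨τ, h1, h2, h3, h4⟩ := h.closing hA
      ⟨by rw [h.castOv b 3, h.castOv b 4, h.v3.1, h.v4.1],
        by rw [h.castOv a 3, h.castOv a 4, h.v3.2, h.v4.2]; decide⟩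
      ⟨by rw [h.castOv b 1, h.castOv b 2, h.v1.1, h.v2.1],
        by rw [h.castOv a 1, h.castOv a 2, h.v1.2, h.v2.2]⟩
      (by rw [h.v3.1, h.v4.1]; norm_num)
    exact ⟨τ, h1, h2, h3, by exact_mod_cast h4⟩
  · intro p q r r' d1 d2 d3 d4 d5 d6 c1 c2
    obtain ⟨τ, h1, h2, h3, h4, h5⟩ := hG.back _ (hflow p q r r' d1 d2 d3 d4 d5 d6 c1 c2)
    obtain ⟨e1, e2⟩ := posOf_sum d1 d2 d3 d4 d5 d6 τ
    rw [e1] at h3
    rw [e2] at h4
    exact ⟨τ, h1, h2, h3, h4, by exact_mod_cast h5⟩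

/-- The transferred parities are again a nowhere-zero pair. -/
theorem Sit.transfer {k : Fin 3 → V} {g1 g2 : E} (hG : Gad s t S T tm k g1 g2)
    {p q r r' : Fin 5} (d1 : p ≠ q) (d2 : p ≠ r) (d3 : p ≠ r') (d4 : q ≠ r) (d5 : q ≠ r')
    (d6 : r ≠ r') (c1 : col p ≠ col q) (c2 : col r ≠ col r') :
    ∃ β γ : E → ZMod 2,
      (∀ v, D (gs s T tm k g1 g2 (posOf p q r r')) (gt t T tm k g1 g2 (posOf p q r r')) β v = 0) ∧
      (∀ v, D (gs s T tm k g1 g2 (posOf p q r r')) (gt t T tm k g1 g2 (posOf p q r r')) γ v = 0) ∧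
      ∀ e, (β e ≠ 0 ∨ γ e ≠ 0) ↔ (e ∈ gS s t S T g1 g2 ∧ e ∉ F) := by
  have hcast : ∀ (g : E → ℤ), (∀ v, D s t g v = 0) → ∀ v, D s t (fun e => ((g e : ℤ) : ZMod 2)) v = 0 := by
    intro g hg v
    have h1 := D_map (Int.castAddHom (ZMod 2)) s t g v
    simp only [Int.coe_castAddHom] at h1
    rw [h1, hg v]; simp
  have hsup : ∀ e, (b e ≠ 0 ∨ a e ≠ 0) → e ∈ S := fun e he => ((h.supp e).1 he).1
  refine ⟨gf s t T tm g1 g2 (posOf p q r r') (fun e => ((b e : ℤ) : ZMod 2)),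
    gf s t T tm g1 g2 (posOf p q r r') (fun e => ((a e : ℤ) : ZMod 2)),
    hG.D_gf _ _ (fun e he => hsup e (Or.inl (fun h0 => he (by simp [h0])))) (hcast b h.bD),
    hG.D_gf _ _ (fun e he => hsup e (Or.inr (fun h0 => he (by simp [h0])))) (hcast a h.aD), ?_⟩
  intro e
  have hcolb : ∀ i, (((b (tm i) : ℤ) : ZMod 2), ((a (tm i) : ℤ) : ZMod 2))
      = if col i = 0 then (0, 0) else if col i = 1 then (1, 0) else (1, 1) := by
    intro i
    have hz := h.z0
    fin_cases i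
    · simp [hz.1, hz.2, col]
    · rw [show (((⟨1, by decide⟩ : Fin 5)) : Fin 5) = 1 from rfl, h.castOv b 1, h.castOv a 1, h.v1.1, h.v1.2]
      decide
    · rw [show (((⟨2, by decide⟩ : Fin 5)) : Fin 5) = 2 from rfl, h.castOv b 2, h.castOv a 2, h.v2.1, h.v2.2]
      decide
    · rw [show (((⟨3, by decide⟩ : Fin 5)) : Fin 5) = 3 from rfl, h.castOv b 3, h.castOv a 3, h.v3.1, h.v3.2]
      decide
    · rw [show (((⟨4, by decide⟩ : Fin 5)) : Fin 5) = 4 from rfl, h.castOv b 4, h.castOv a 4, h.v4.1, h.v4.2]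
      decide
  have hpair : ∀ i j : Fin 5, col i ≠ col j →
      (((b (tm i) : ℤ) : ZMod 2) + ((b (tm j) : ℤ) : ZMod 2) ≠ 0 ∨
       ((a (tm i) : ℤ) : ZMod 2) + ((a (tm j) : ℤ) : ZMod 2) ≠ 0) := by
    intro i j hij
    have k1 := hcolb i
    have k2 := hcolb j
    have k3 : ∀ i : Fin 5, col i = 0 ∨ col i = 1 ∨ col i = 2 := by decide
    rcases k3 i with m1 | m1 | m1 <;> rcases k3 j with m2 | m2 | m2 <;>
      simp only [m1, m2, ne_eq, not_true_eq_false] at hij k1 k2 <;>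
      simp only [OfNat.ofNat_ne_zero, OfNat.ofNat_ne_one, one_ne_zero, if_true, if_false,
        Prod.mk.injEq] at k1 k2 <;>
      rw [k1.1, k1.2, k2.1, k2.2] <;> decide
  have hov : ∀ (f : E → ℤ) i, ov s t (fun e => ((f e : ℤ) : ZMod 2)) T (tm i) = ((f (tm i) : ℤ) : ZMod 2) := by
    intro f i
    rw [ov_tm (h.term.crs i)]
    have : ∀ z : ZMod 2, - z = z := by decide
    split_ifs
    · rfl
    · rw [this]
  have hneg : ∀ z : ZMod 2, - z = z := by decide
  unfold gf gS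
  by_cases e1 : e = g1
  · subst e1
    simp only [if_true, mem_insert, true_or, true_and]
    rw [(posOf_sum d1 d2 d3 d4 d5 d6 _).1, (posOf_sum d1 d2 d3 d4 d5 d6 _).1, hneg, hneg]
    simp only [hov]
    exact iff_of_true (hpair p q c1) (h.inner_notF hG.g1s hG.g1t)
  · by_cases e2 : e = g2
    · subst e2
      simp only [e1, if_true, if_false, mem_insert, true_or, or_true, true_and]
      rw [(posOf_sum d1 d2 d3 d4 d5 d6 _).2, (posOf_sum d1 d2 d3 d4 d5 d6 _).2]
      simp only [hov]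
      exact iff_of_true (hpair r r' c2) (h.inner_notF hG.g2s hG.g2t)
    · simp only [e1, e2, if_false, mem_insert, false_or, mem_filter]
      by_cases hc : s e ∈ T ∧ t e ∈ T
      · simp [hc]
      · simp only [hc, if_false, not_false_iff, and_true]
        rw [← h.supp e, ne_eq, ne_eq, cast2 (h.b1 e), cast2 (h.a1 e)]

end

end MP974d84
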