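import Mathlib
import Pool.Agent.Work.MP_974d84_co.Reduce

/-!
The class of cubic multigraphs for the induction, and its stability under the reduction.
-/

namespace MP974d84

open Finset

variable {V E : Type*} [Fintype V] [DecidableEq V] [Fintype E] [DecidableEq E]

/-- Edges of `S` at a vertex. -/
def inc (s t : E → V) (S : Finset E) (v : V) : Finset E := S.filter fun e => s e = v ∨ t e = v

/-- Cubic bridgeless multigraph `S` (isolated vertices allowed) with a set `F` of edges, all edges
at a vertex or two edges, such that `S` without `F` has a nowhere-zero 4-flow. -/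
structure Cls (s t : E → V) (S F : Finset E) : Prop where
  FS : F ⊆ S
  loop : ∀ e ∈ S, s e ≠ t e
  deg : ∀ v, (inc s t S v).card = 3 ∨ inc s t S v = ∅
  br : ∀ Z : Finset V, (S.filter fun e => crs s t Z e).card ≠ 1
  flow : ∃ β γ : E → ZMod 2, (∀ v, D s t β v = 0) ∧ (∀ v, D s t γ v = 0) ∧
    ∀ e, (β e ≠ 0 ∨ γ e ≠ 0) ↔ (e ∈ S ∧ e ∉ F)
  kind : (∃ v, (inc s t S v).card = 3 ∧ F = inc s t S v) ∨ (∃ e1 e2, e1 ≠ e2 ∧ F = {e1, e2})

theorem card_pos0 : ∀ p q r r' : Fin 5, (p ≠ q ∧ p ≠ r ∧ p ≠ r' ∧ q ≠ r ∧ q ≠ r' ∧ r ≠ r') →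
    ((univ.filter fun i => posOf p q r r' i = 0).card = 2 ∧
    (univ.filter fun i => posOf p q r r' i = 1).card = 1 ∧
    (univ.filter fun i => posOf p q r r' i = 2).card = 2) := by
  unfold posOf
  decide +kernel

section
variable {s t : E → V} {S F : Finset E} {T : Finset V} {tm : Fin 5 → E} {k : Fin 3 → V} {g1 g2 : E}
  (h : Gad s t S T tm k g1 g2) (pos : Fin 5 → Fin 3)
include h

theorem Gad.inc_out {v : V} (hv : v ∉ T) :
    inc (gs s T tm k g1 g2 pos) (gt t T tm k g1 g2 pos) (gS s t S T g1 g2) v = inc s t S v := by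
  ext e
  unfold inc gS
  simp only [mem_filter, mem_insert]
  by_cases c1 : e = g1
  · subst c1
    have e1 : gs s T tm k e g2 pos e = k 0 := by simp [gs]
    have e2 : gt t T tm k e g2 pos e = k 1 := by simp [gt]
    rw [e1, e2]
    have m0 : k 0 ≠ v := by rintro rfl; exact hv (h.kmem 0)
    have m1 : k 1 ≠ v := by rintro rfl; exact hv (h.kmem 1)
    have m2 : s e ≠ v := by rintro rfl; exact hv h.g1s
    have m3 : t e ≠ v := by rintro rfl; exact hv h.g1t
    simp [m0, m1, m2, m3]
  · by_cases c2 : e = g2
    · subst c2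
      have e1 : gs s T tm k g1 e pos e = k 1 := by simp [gs, c1]
      have e2 : gt t T tm k g1 e pos e = k 2 := by simp [gt, c1]
      rw [e1, e2]
      have m0 : k 1 ≠ v := by rintro rfl; exact hv (h.kmem 1)
      have m1 : k 2 ≠ v := by rintro rfl; exact hv (h.kmem 2)
      have m2 : s e ≠ v := by rintro rfl; exact hv h.g2s
      have m3 : t e ≠ v := by rintro rfl; exact hv h.g2t
      simp [m0, m1, m2, m3]
    · have e1 : gs s T tm k g1 g2 pos e = v ↔ s e = v := by
        unfold gs
        rw [if_neg c1, if_neg c2]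
        split_ifs with c3
        · constructor
          · intro hh; exact absurd (hh ▸ h.kmem _) hv
          · intro hh; exact absurd (hh ▸ c3) hv
        · rfl
      have e2 : gt t T tm k g1 g2 pos e = v ↔ t e = v := by
        unfold gt
        rw [if_neg c1, if_neg c2]
        split_ifs with c3
        · constructor
          · intro hh; exact absurd (hh ▸ h.kmem _) hv
          · intro hh; exact absurd (hh ▸ c3) hv
        · rfl
      rw [e1, e2]
      simp only [c1, c2, false_or]
      constructor
      · rintro ⟨⟨k1, _⟩, k2⟩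
        exact ⟨k1, k2⟩
      · rintro ⟨k1, k2⟩
        refine ⟨⟨k1, ?_⟩, k2⟩
        rintro ⟨m1, m2⟩
        rcases k2 with k2 | k2
        · exact hv (k2 ▸ m1)
        · exact hv (k2 ▸ m2)

theorem Gad.mem_inc_in {v : V} (hv : v ∈ T) (e : E) :
    e ∈ inc (gs s T tm k g1 g2 pos) (gt t T tm k g1 g2 pos) (gS s t S T g1 g2) v ↔
      (e = g1 ∧ (k 0 = v ∨ k 1 = v)) ∨ (e = g2 ∧ (k 1 = v ∨ k 2 = v)) ∨
      ∃ i, e = tm i ∧ k (pos i) = v := by
  unfold inc gS
  simp only [mem_filter, mem_insert]
  by_cases c1 : e = g1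
  · subst c1
    have e1 : gs s T tm k e g2 pos e = k 0 := by simp [gs]
    have e2 : gt t T tm k e g2 pos e = k 1 := by simp [gt]
    rw [e1, e2]
    have e3 : ¬ ∃ i, e = tm i ∧ k (pos i) = v := by
      rintro ⟨i, hi, _⟩
      exact h.tm_ne1 i hi.symm
    simp [e3, h.gne]
  · by_cases c2 : e = g2
    · subst c2
      have e1 : gs s T tm k g1 e pos e = k 1 := by simp [gs, c1]
      have e2 : gt t T tm k g1 e pos e = k 2 := by simp [gt, c1]
      rw [e1, e2]
      have e3 : ¬ ∃ i, e = tm i ∧ k (pos i) = v := by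
        rintro ⟨i, hi, _⟩
        exact h.tm_ne2 i hi.symm
      simp [e3, c1]
    · simp only [c1, c2, false_or, false_and]
      constructor
      · rintro ⟨⟨k1, k2⟩, k3⟩
        have hc : crs s t T e := by
          unfold crs
          by_cases c3 : s e ∈ T <;> by_cases c4 : t e ∈ T
          · exact absurd ⟨c3, c4⟩ k2
          · exact Or.inl ⟨c3, c4⟩
          · exact Or.inr ⟨c3, c4⟩
          · exfalso
            unfold gs gt at k3
            rw [if_neg c1, if_neg c2, if_neg c3, if_neg c1, if_neg c2, if_neg c4] at k3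
            rcases k3 with rfl | rfl
            · exact c3 hv
            · exact c4 hv
        obtain ⟨i, rfl⟩ := h.term.all e k1 hc
        refine ⟨i, rfl, ?_⟩
        rw [← h.attI_tm pos i]
        have m1 := attO_notMem ((h.crs_iff pos (tm i)).2 hc)
        unfold attI
        unfold attO at m1
        rcases k3 with k3 | k3
        · split_ifs with c5
          · exact k3
          · exact absurd (k3 ▸ hv) c5
        · split_ifs with c5
          · rw [if_pos c5] at m1
            exact absurd (k3 ▸ hv) m1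
          · exact k3
      · rintro ⟨i, rfl, hi⟩
        refine ⟨⟨h.term.mem i, ?_⟩, ?_⟩
        · rcases h.term.crs i with ⟨_, h2⟩ | ⟨h2, _⟩
          · exact fun hc => h2 hc.2
          · exact fun hc => h2 hc.1
        · rw [← h.attI_tm pos i] at hi
          unfold attI at hi
          split_ifs at hi with c5
          · exact Or.inl hi
          · exact Or.inr hi

theorem Gad.deg_in (h0 : (univ.filter fun i => pos i = 0).card = 2)
    (h1 : (univ.filter fun i => pos i = 1).card = 1)
    (h2 : (univ.filter fun i => pos i = 2).card = 2) {v : V} (hv : v ∈ T) :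
    (inc (gs s T tm k g1 g2 pos) (gt t T tm k g1 g2 pos) (gS s t S T g1 g2) v).card = 3 ∨
    inc (gs s T tm k g1 g2 pos) (gt t T tm k g1 g2 pos) (gS s t S T g1 g2) v = ∅ := by
  have h01 : k 0 ≠ k 1 := fun hc => absurd (h.kinj hc) (by decide)
  have h02 : k 0 ≠ k 2 := fun hc => absurd (h.kinj hc) (by decide)
  have h12 : k 1 ≠ k 2 := fun hc => absurd (h.kinj hc) (by decide)
  have him : ∀ j, ((univ.filter fun i => pos i = j).image tm).card
      = (univ.filter fun i => pos i = j).card := fun j =>
    card_image_of_injective _ h.term.inj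
  have hn1 : ∀ j, g1 ∉ (univ.filter fun i => pos i = j).image tm := by
    intro j hc
    obtain ⟨i, _, hi⟩ := mem_image.1 hc
    exact h.tm_ne1 i hi
  have hn2 : ∀ j, g2 ∉ (univ.filter fun i => pos i = j).image tm := by
    intro j hc
    obtain ⟨i, _, hi⟩ := mem_image.1 hc
    exact h.tm_ne2 i hi
  have hex : ∀ j e, (∃ i, e = tm i ∧ k (pos i) = k j) ↔
      e ∈ (univ.filter fun i => pos i = j).image tm := by
    intro j e
    simp only [mem_image, mem_filter, mem_univ, true_and]
    constructor
    · rintro ⟨i, hi, hk⟩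
      exact ⟨i, h.kinj hk, hi.symm⟩
    · rintro ⟨i, hi, hk⟩
      exact ⟨i, hk.symm, by rw [hi]⟩
  by_cases c0 : k 0 = v
  · left
    subst c0
    have : inc (gs s T tm k g1 g2 pos) (gt t T tm k g1 g2 pos) (gS s t S T g1 g2) (k 0)
        = insert g1 ((univ.filter fun i => pos i = 0).image tm) := by
      ext e
      rw [h.mem_inc_in pos hv, hex, mem_insert]
      simp [h01.symm, h02.symm]
    rw [this, card_insert_of_notMem (hn1 0), him, h0]
  · by_cases c1 : k 1 = v
    · left
      subst c1
      have : inc (gs s T tm k g1 g2 pos) (gt t T tm k g1 g2 pos) (gS s t S T g1 g2) (k 1)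
          = insert g1 (insert g2 ((univ.filter fun i => pos i = 1).image tm)) := by
        ext e
        rw [h.mem_inc_in pos hv, hex, mem_insert, mem_insert]
        simp
      rw [this, card_insert_of_notMem, card_insert_of_notMem (hn2 1), him, h1]
      rw [mem_insert]
      rintro (hc | hc)
      · exact h.gne hc
      · exact hn1 1 hc
    · by_cases c2 : k 2 = v
      · left
        subst c2
        have : inc (gs s T tm k g1 g2 pos) (gt t T tm k g1 g2 pos) (gS s t S T g1 g2) (k 2)
            = insert g2 ((univ.filter fun i => pos i = 2).image tm) := by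
          ext e
          rw [h.mem_inc_in pos hv, hex, mem_insert]
          simp [h02, h12]
        rw [this, card_insert_of_notMem (hn2 2), him, h2]
      · right
        rw [eq_empty_iff_forall_notMem]
        intro e he
        rw [h.mem_inc_in pos hv] at he
        rcases he with ⟨_, he | he⟩ | ⟨_, he | he⟩ | ⟨i, _, he⟩
        · exact c0 he
        · exact c1 he
        · exact c1 he
        · exact c2 he
        · have h3 : ∀ j : Fin 3, j = 0 ∨ j = 1 ∨ j = 2 := by decide
          rcases h3 (pos i) with hj | hj | hj <;> rw [hj] at he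
          · exact c0 he
          · exact c1 he
          · exact c2 he

end

/-- The reduced graph is in the class. -/
theorem Sit.cls {s t : E → V} {S F : Finset E} {T : Finset V} {tm : Fin 5 → E} {b a : E → ℤ}
    (h : Sit s t S F T tm b a) (hC : Cls s t S F) {k : Fin 3 → V} {g1 g2 : E}
    (hG : Gad s t S T tm k g1 g2) {p q r r' : Fin 5} (d1 : p ≠ q) (d2 : p ≠ r) (d3 : p ≠ r')
    (d4 : q ≠ r) (d5 : q ≠ r') (d6 : r ≠ r') (c1 : col p ≠ col q) (c2 : col r ≠ col r') :
    Cls (gs s T tm k g1 g2 (posOf p q r r')) (gt t T tm k g1 g2 (posOf p q r r'))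
      (gS s t S T g1 g2) F := by
  obtain ⟨q0, q1, q2⟩ := card_pos0 p q r r' ⟨d1, d2, d3, d4, d5, d6⟩
  set pos := posOf p q r r' with hpos
  have hFi : ∀ e ∈ F, ¬ (s e ∈ T ∧ t e ∈ T) := fun e he hc => h.inner_notF hc.1 hc.2 he
  obtain ⟨β, γ, hβ, hγ, hβγ⟩ := h.transfer hG d1 d2 d3 d4 d5 d6 c1 c2
  refine ⟨?_, ?_, ?_, ?_, ⟨β, γ, hβ, hγ, hβγ⟩, ?_⟩
  · intro e he
    exact mem_insert_of_mem (mem_insert_of_mem (mem_filter.2 ⟨hC.FS he, hFi e he⟩))
  · intro e he
    unfold gS at he
    rcases mem_insert.1 he with rfl | he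
    · have e1 : gs s T tm k e g2 pos e = k 0 := by simp [gs]
      have e2 : gt t T tm k e g2 pos e = k 1 := by simp [gt]
      rw [e1, e2]
      exact fun hc => absurd (hG.kinj hc) (by decide)
    · rcases mem_insert.1 he with rfl | he
      · have e1 : gs s T tm k g1 e pos e = k 1 := by simp [gs, hG.gne.symm]
        have e2 : gt t T tm k g1 e pos e = k 2 := by simp [gt, hG.gne.symm]
        rw [e1, e2]
        exact fun hc => absurd (hG.kinj hc) (by decide)
      · obtain ⟨h1, h2⟩ := mem_filter.1 he
        intro heq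
        have m1 := hG.s_mem pos e
        have m2 := hG.t_mem pos e
        rw [heq] at m1
        by_cases c3 : s e ∈ T <;> by_cases c4 : t e ∈ T
        · exact h2 ⟨c3, c4⟩
        · exact c4 (m2.1 (m1.2 c3))
        · exact c3 (m1.1 (m2.2 c4))
        · have hne := hG.out_ne c3
          unfold gs gt at heq
          rw [if_neg hne.1, if_neg hne.2, if_neg c3, if_neg hne.1, if_neg hne.2, if_neg c4] at heq
          exact hC.loop e h1 heq
  · intro v
    by_cases hv : v ∈ T
    · exact hG.deg_in pos q0 q1 q2 hv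
    · rw [hG.inc_out pos hv]; exact hC.deg v
  · intro Z hZ
    obtain ⟨e', he'⟩ := card_eq_one.1 hZ
    have hmem : ∀ e, (e ∈ gS s t S T g1 g2 ∧
        crs (gs s T tm k g1 g2 pos) (gt t T tm k g1 g2 pos) Z e) ↔ e = e' := by
      intro e
      have : e ∈ ((gS s t S T g1 g2).filter fun e =>
          crs (gs s T tm k g1 g2 pos) (gt t T tm k g1 g2 pos) Z e) ↔ e ∈ ({e'} : Finset E) := by
        rw [he']
      simpa using this
    -- the crossing edge is in `F`
    have hsum : ∀ f : E → ZMod 2, (∀ v, D (gs s T tm k g1 g2 pos) (gt t T tm k g1 g2 pos) f v = 0) →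
        (∀ e, f e ≠ 0 → e ∈ gS s t S T g1 g2) → f e' = 0 := by
      intro f hf hfS
      have k1 := sum_ov hf Z
      rw [sum_eq_single e'] at k1
      · by_contra hne
        exact (ov_tm_ne ((hmem e').2 rfl).2 f).2 hne k1
      · intro e _ hne
        by_cases hfe : f e = 0
        · exact ov_zero hfe
        · have hnc : ¬ crs (gs s T tm k g1 g2 pos) (gt t T tm k g1 g2 pos) Z e := fun hc =>
            hne ((hmem e).1 ⟨hfS e hfe, hc⟩)
          unfold crs at hnc
          unfold ov
          by_cases m1 : gs s T tm k g1 g2 pos e ∈ Z <;> by_cases m2 : gt t T tm k g1 g2 pos e ∈ Z <;>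
            simp_all
      · simp
    have heF : e' ∈ F := by
      by_contra hnF
      have k1 := (hβγ e').2 ⟨((hmem e').2 rfl).1, hnF⟩
      rcases k1 with k1 | k1
      · exact k1 (hsum β hβ fun e he => ((hβγ e).1 (Or.inl he)).1)
      · exact k1 (hsum γ hγ fun e he => ((hβγ e).1 (Or.inr he)).1)
    have hg1F : g1 ∉ F := fun hc => hFi g1 hc ⟨hG.g1s, hG.g1t⟩
    have hg2F : g2 ∉ F := fun hc => hFi g2 hc ⟨hG.g2s, hG.g2t⟩
    have hnc1 : ¬ crs (gs s T tm k g1 g2 pos) (gt t T tm k g1 g2 pos) Z g1 := by
      intro hc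
      have := (hmem g1).1 ⟨mem_insert_self _ _, hc⟩
      rw [this] at hg1F; exact hg1F heF
    have hnc2 : ¬ crs (gs s T tm k g1 g2 pos) (gt t T tm k g1 g2 pos) Z g2 := by
      intro hc
      have := (hmem g2).1 ⟨mem_insert_of_mem (mem_insert_self _ _), hc⟩
      rw [this] at hg2F; exact hg2F heF
    have hk01 : k 0 ∈ Z ↔ k 1 ∈ Z := by
      unfold crs gs gt at hnc1
      simp only [if_true] at hnc1
      tauto
    have hk12 : k 1 ∈ Z ↔ k 2 ∈ Z := by
      unfold crs gs gt at hnc2
      simp only [hG.gne.symm, if_false, if_true] at hnc2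
      tauto
    have hkj : ∀ j, k j ∈ Z ↔ k 0 ∈ Z := by
      have h3 : ∀ j : Fin 3, j = 0 ∨ j = 1 ∨ j = 2 := by decide
      intro j
      rcases h3 j with rfl | rfl | rfl
      · rfl
      · exact hk01.symm
      · exact (hk01.trans hk12).symm
    -- the corresponding set in the original graph
    let Z' : Finset V := univ.filter fun v => if v ∈ T then k 0 ∈ Z else v ∈ Z
    apply hC.br Z'
    rw [card_eq_one]
    refine ⟨e', ?_⟩
    ext e
    rw [mem_filter, mem_singleton, ← hmem e]
    have hss : ∀ e, e ≠ g1 → e ≠ g2 → (s e ∈ Z' ↔ gs s T tm k g1 g2 pos e ∈ Z) := by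
      intro e n1 n2
      unfold gs
      rw [if_neg n1, if_neg n2]
      by_cases c3 : s e ∈ T
      · simp only [Z', mem_filter, mem_univ, true_and, c3, if_true, hkj]
      · simp only [Z', mem_filter, mem_univ, true_and, c3, if_false]
    have htt : ∀ e, e ≠ g1 → e ≠ g2 → (t e ∈ Z' ↔ gt t T tm k g1 g2 pos e ∈ Z) := by
      intro e n1 n2
      unfold gt
      rw [if_neg n1, if_neg n2]
      by_cases c3 : t e ∈ T
      · simp only [Z', mem_filter, mem_univ, true_and, c3, if_true, hkj]
      · simp only [Z', mem_filter, mem_univ, true_and, c3, if_false]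
    have hinn : ∀ e, s e ∈ T → t e ∈ T → ¬ crs s t Z' e := by
      intro e n1 n2
      unfold crs
      simp only [Z', mem_filter, mem_univ, true_and, n1, n2, if_true]
      tauto
    by_cases m1 : e = g1
    · subst m1
      constructor
      · rintro ⟨_, hc⟩; exact absurd hc (hinn e hG.g1s hG.g1t)
      · rintro ⟨_, hc⟩; exact absurd hc hnc1
    · by_cases m2 : e = g2
      · subst m2
        constructor
        · rintro ⟨_, hc⟩; exact absurd hc (hinn e hG.g2s hG.g2t)
        · rintro ⟨_, hc⟩; exact absurd hc hnc2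
      · have m3 : crs s t Z' e ↔ crs (gs s T tm k g1 g2 pos) (gt t T tm k g1 g2 pos) Z e := by
          unfold crs
          rw [hss e m1 m2, htt e m1 m2]
        rw [m3]
        constructor
        · rintro ⟨n1, n2⟩
          refine ⟨mem_insert_of_mem (mem_insert_of_mem (mem_filter.2 ⟨n1, ?_⟩)), n2⟩
          rintro ⟨n3, n4⟩
          exact hinn e n3 n4 (m3.2 n2)
        · rintro ⟨n1, n2⟩
          unfold gS at n1
          simp only [mem_insert, m1, m2, false_or, mem_filter] at n1
          exact ⟨n1.1, n2⟩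
  · rcases hC.kind with ⟨v, hv1, hv2⟩ | hk
    · left
      have hvT : v ∉ T := by
        intro hvT
        have hc : ∃ e ∈ F, e ≠ tm 0 := by
          by_contra hno
          push Not at hno
          have : F ⊆ {tm 0} := fun e he => mem_singleton.2 (hno e he)
          have := card_le_card this
          rw [hv2, hv1, card_singleton] at this
          omega
        obtain ⟨e, he, hne⟩ := hc
        have h1 := h.hF e he hne
        rw [hv2] at he
        have h2 := (mem_filter.1 he).2
        rcases h2 with rfl | rfl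
        · exact h1.1 hvT
        · exact h1.2 hvT
      refine ⟨v, ?_, ?_⟩
      · rw [hG.inc_out pos hvT]; exact hv1
      · rw [hG.inc_out pos hvT]; exact hv2
    · exact Or.inr hk

end MP974d84
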