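import Mathlib
import Pool.Agent.Work.MP_974d84_co.Class

/-!
If a graph of the class has no nowhere-zero flow modulo 5 then every 4-flow of the reduced graph
has a tight cut around one end of a removed edge.
-/

namespace MP974d84

open Finset

variable {V E : Type*} [Fintype V] [DecidableEq V] [Fintype E] [DecidableEq E]

/-- A zero-slack set is crossed only by edges of `F`. -/
theorem zero_slack {s t : E → V} {S F : Finset E} {φ : E → ℤ} (hFS : F ⊆ S)
    (h3 : ∀ e, -3 ≤ φ e ∧ φ e ≤ 3) (h0 : ∀ a, D s t φ a = 0)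
    (hs : ∀ e, φ e ≠ 0 ↔ (e ∈ S ∧ e ∉ F)) {Z : Finset V} (hZ : hh s t φ Z = 0) :
    (S.filter fun e => crs s t Z e) = F.filter fun e => crs s t Z e := by
  ext e
  simp only [mem_filter]
  constructor
  · rintro ⟨h1, h2⟩
    refine ⟨?_, h2⟩
    by_contra hF
    have h4 := hh_zero h3 h0 hZ e
    exact (ov_tm_ne h2 φ).2 ((hs e).2 ⟨h1, hF⟩) h4
  · rintro ⟨h1, h2⟩
    exact ⟨hFS h1, h2⟩

/-- The conclusion of the failure analysis. -/
def Tight (s t : E → V) (S F : Finset E) (e0 : E) (x : V) : Prop :=
  ∀ φ : E → ℤ, (∀ e, -3 ≤ φ e ∧ φ e ≤ 3) → (∀ v, D s t φ v = 0) →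
    (∀ e, φ e ≠ 0 ↔ (e ∈ S ∧ e ∉ F)) →
    ∃ T : Finset V, hh s t φ T = 1 ∧ x ∈ T ∧ crs s t T e0 ∧
      ∀ e ∈ F, e ≠ e0 → s e ∉ T ∧ t e ∉ T

theorem fail_star {s t : E → V} {S F : Finset E} (hC : Cls s t S F)
    (hno : ¬ HasFlow (ZMod 5) s t S) {v : V} (hv3 : (inc s t S v).card = 3)
    (hF : F = inc s t S v) : ∃ e0 ∈ F, ∃ x, (s e0 = x ∨ t e0 = x) ∧ Tight s t S F e0 x := by
  have hFc : F.card = 3 := by rw [hF]; exact hv3
  obtain ⟨e0, he0⟩ : F.Nonempty := card_pos.1 (by omega)
  -- the other end
  let o : E → V := fun e => if s e = v then t e else s e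
  have hFv : ∀ e, e ∈ F ↔ e ∈ S ∧ (s e = v ∨ t e = v) := by
    intro e; rw [hF]; unfold inc; rw [mem_filter]
  have hov : ∀ e ∈ F, o e ≠ v := by
    intro e he
    have h1 := (hFv e).1 he
    have h2 := hC.loop e h1.1
    simp only [o]
    split_ifs with hc
    · exact fun h => h2 (hc.trans h.symm)
    · exact hc
  refine ⟨e0, he0, o e0, ?_, ?_⟩
  · simp only [o]
    split_ifs
    · exact Or.inr rfl
    · exact Or.inl rfl
  intro φ h3 h0 hs
  by_contra hnot
  apply hno
  let m : E → ℤ := fun e => 3 * (if e = e0 then 1 else 0) - 1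
  let ρ : E → ℤ := fun e => if e ∈ F then (if s e = v then m e else - m e) else 0
  have hm : ∀ e, m e = 2 ∨ m e = -1 := by
    intro e
    simp only [m]; split_ifs <;> simp
  have hms : ∑ e ∈ F, m e = 0 := by
    simp only [m, sum_sub_distrib, ← mul_sum, sum_ite_eq', he0, if_true, sum_const, hFc]
    norm_num
  have hρs : ∀ Z : Finset V, - ∑ e, ov s t ρ Z e
      = 3 * (if o e0 ∈ Z then 1 else 0) - ((F.filter fun e => o e ∈ Z).card : ℤ) := by
    intro Z
    have e1 : ∀ e, ov s t ρ Z e
        = if e ∈ F then (if v ∈ Z then m e else 0) - (if o e ∈ Z then m e else 0) else 0 := by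
      intro e
      by_cases he : e ∈ F
      · have h2 := hC.loop e ((hFv e).1 he).1
        simp only [ov, ρ, he, if_true, o]
        rcases ((hFv e).1 he).2 with h4 | h4
        · simp only [h4, if_true]
        · have h5 : s e ≠ v := fun hc => h2 (hc.trans h4.symm)
          simp only [h4, h5, if_false]
          split_ifs <;> ring
      · simp [ov, ρ, he]
    simp only [e1]
    rw [sum_ite_mem, univ_inter, sum_sub_distrib]
    have e2 : ∑ e ∈ F, (if v ∈ Z then m e else 0) = 0 := by
      split_ifs
      · exact hms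
      · simp
    have e3 : ∑ e ∈ F, (if o e ∈ Z then m e else 0)
        = 3 * (if o e0 ∈ Z then 1 else 0) - ((F.filter fun e => o e ∈ Z).card : ℤ) := by
      have e4 : ∀ e, (if o e ∈ Z then m e else 0)
          = 3 * (if e = e0 then (if o e0 ∈ Z then 1 else 0) else 0) - (if o e ∈ Z then 1 else 0) := by
        intro e
        by_cases h5 : e = e0
        · subst h5
          simp only [m, if_true]
          split_ifs <;> norm_num
        · simp only [m, h5, if_false]
          split_ifs <;> norm_num
      simp only [e4]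
      rw [sum_sub_distrib, ← mul_sum, sum_ite_eq', if_pos he0, sum_boole]
    rw [e2, e3]; ring
  refine extendE (φ := φ) (ρ := ρ) h3 ?_ ?_ ?_ ?_
  · intro e
    have := hm e
    simp only [ρ]
    split_ifs <;> omega
  · intro e he
    have := ((hs e).1 he).2
    simp [ρ, this]
  · intro e
    rw [hs e]
    by_cases he : e ∈ F
    · have h6 : ρ e ≠ 0 := by
        have := hm e
        simp only [ρ, he, if_true]
        split_ifs <;> omega
      simp [h6, hC.FS he]
    · simp [ρ, he]
  · intro Z
    rw [hρs Z]
    by_contra hlt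
    push Not at hlt
    -- remove `v`
    set T := Z.erase v with hT
    have hvT : v ∉ T := notMem_erase v Z
    have hoT : ∀ e ∈ F, (o e ∈ T ↔ o e ∈ Z) := by
      intro e he
      rw [hT, mem_erase]
      exact ⟨fun h => h.2, fun h => ⟨hov e he, h⟩⟩
    have hhT : hh s t φ T = hh s t φ Z := by
      unfold hh
      refine sum_congr rfl fun e _ => ?_
      congr 1
      by_cases hφ : φ e = 0
      · rw [ov_zero hφ, ov_zero hφ]
      · have h1 := (hs e).1 hφ
        have h2 : ¬ (s e = v ∨ t e = v) := fun hc => h1.2 ((hFv e).2 ⟨h1.1, hc⟩)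
        push Not at h2
        unfold ov
        simp only [hT, mem_erase, ne_eq, h2.1, h2.2, not_false_iff, true_and]
    have hn : (F.filter fun e => o e ∈ Z).card = (F.filter fun e => o e ∈ T).card := by
      congr 1
      refine filter_congr fun e he => ?_
      rw [hoT e he]
    rw [hn, ← hhT] at hlt
    have hxT : (if o e0 ∈ Z then (1 : ℤ) else 0) = if o e0 ∈ T then 1 else 0 := by
      simp only [hoT e0 he0]
    rw [hxT] at hlt
    have hnn := hh_nonneg h3 h0 T
    have hx : o e0 ∈ T := by
      by_contra hx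
      rw [if_neg hx] at hlt
      have : (0 : ℤ) ≤ ((F.filter fun e => o e ∈ T).card : ℤ) := Int.natCast_nonneg _
      omega
    rw [if_pos hx] at hlt
    have hn1 : 1 ≤ (F.filter fun e => o e ∈ T).card :=
      card_pos.2 ⟨e0, mem_filter.2 ⟨he0, hx⟩⟩
    -- crossing edges of `F`
    have hcrF : ∀ e ∈ F, (crs s t T e ↔ o e ∈ T) := by
      intro e he
      have h2 := hC.loop e ((hFv e).1 he).1
      unfold crs
      simp only [o]
      rcases ((hFv e).1 he).2 with h4 | h4
      · simp [h4, hvT]
      · have h5 : s e ≠ v := fun hc => h2 (hc.trans h4.symm)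
        simp [h4, h5, hvT]
    by_cases hz : hh s t φ T = 0
    · have hS := zero_slack hC.FS h3 h0 hs hz
      by_cases hn' : (F.filter fun e => o e ∈ T).card = 1
      · apply hC.br T
        rw [hS, filter_congr hcrF]
        exact hn'
      · have hn2 : (F.filter fun e => o e ∈ T).card = 2 := by omega
        have hzI : (S.filter fun e => crs s t (insert v T) e)
            = F.filter fun e => o e ∉ T := by
          ext e
          simp only [mem_filter]
          constructor
          · rintro ⟨h6, h7⟩
            have h8 : e ∈ F := by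
              by_contra hF'
              have h9 : ¬ (s e = v ∨ t e = v) := fun hc => hF' ((hFv e).2 ⟨h6, hc⟩)
              push Not at h9
              have h10 : crs s t T e := by
                unfold crs at h7 ⊢
                simp only [mem_insert, h9.1, h9.2, false_or] at h7
                exact h7
              have h11 : e ∈ S.filter fun e => crs s t T e := mem_filter.2 ⟨h6, h10⟩
              rw [hS] at h11
              exact hF' (mem_filter.1 h11).1
            refine ⟨h8, ?_⟩
            intro ho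
            have h2 := hC.loop e h6
            unfold crs at h7
            simp only [o] at ho
            rcases ((hFv e).1 h8).2 with h4 | h4
            · rw [if_pos h4] at ho
              simp [h4, ho] at h7
            · have h5 : s e ≠ v := fun hc => h2 (hc.trans h4.symm)
              rw [if_neg h5] at ho
              simp [h4, ho] at h7
          · rintro ⟨h6, h7⟩
            refine ⟨hC.FS h6, ?_⟩
            have h2 := hC.loop e (hC.FS h6)
            unfold crs
            simp only [o] at h7
            rcases ((hFv e).1 h6).2 with h4 | h4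
            · rw [if_pos h4] at h7
              left
              have h8 : t e ≠ v := fun hc => h2 (h4.trans hc.symm)
              simp [h4, h7, h8]
            · have h5 : s e ≠ v := fun hc => h2 (hc.trans h4.symm)
              rw [if_neg h5] at h7
              right
              simp [h4, h5, h7]
        apply hC.br (insert v T)
        rw [hzI]
        have := card_filter_add_card_filter_not (s := F) (fun e => o e ∈ T)
        omega
    · have hz1 : hh s t φ T = 1 := by omega
      have hn' : (F.filter fun e => o e ∈ T).card = 1 := by omega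
      apply hnot
      refine ⟨T, hz1, hx, (hcrF e0 he0).2 hx, ?_⟩
      intro e he hne
      have h6 : o e ∉ T := by
        intro hc
        obtain ⟨e', he'⟩ := card_eq_one.1 hn'
        have k1 : e ∈ ({e'} : Finset E) := by rw [← he']; exact mem_filter.2 ⟨he, hc⟩
        have k2 : e0 ∈ ({e'} : Finset E) := by rw [← he']; exact mem_filter.2 ⟨he0, hx⟩
        rw [mem_singleton] at k1 k2
        exact hne (k1.trans k2.symm)
      have h2 := hC.loop e ((hFv e).1 he).1
      simp only [o] at h6
      rcases ((hFv e).1 he).2 with h4 | h4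
      · rw [if_pos h4] at h6
        exact ⟨by rw [h4]; exact hvT, h6⟩
      · have h5 : s e ≠ v := fun hc => h2 (hc.trans h4.symm)
        rw [if_neg h5] at h6
        exact ⟨h6, by rw [h4]; exact hvT⟩

theorem fail_match {s t : E → V} {S F : Finset E} (hC : Cls s t S F)
    (hno : ¬ HasFlow (ZMod 5) s t S) {e1 e2 : E} (h12 : e1 ≠ e2) (hF : F = {e1, e2}) :
    ∃ e0 ∈ F, ∃ x, (s e0 = x ∨ t e0 = x) ∧ Tight s t S F e0 x := by
  have hF1 : e1 ∈ F := by rw [hF]; simp
  have hF2 : e2 ∈ F := by rw [hF]; simp
  refine ⟨e1, hF1, s e1, Or.inl rfl, ?_⟩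
  intro φ h3 h0 hs
  by_contra hnot
  have hFf : ∀ Z : Finset V, ((F.filter fun e => crs s t Z e).card : ℤ)
      = (if crs s t Z e1 then 1 else 0) + (if crs s t Z e2 then 1 else 0) := by
    intro Z
    rw [hF, card_filter, sum_pair h12]
    push_cast
    rfl
  have hz : ∀ Z : Finset V, hh s t φ Z = 0 →
      (if crs s t Z e1 then (1 : ℤ) else 0) + (if crs s t Z e2 then 1 else 0) ≠ 1 := by
    intro Z hZ hc
    have h1 := zero_slack hC.FS h3 h0 hs hZ
    apply hC.br Z
    rw [h1]
    have := hFf Z
    omega
  -- one choice of sign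
  have fail : ∀ σ : ℤ, (σ = 1 ∨ σ = -1) → ∃ Z : Finset V, hh s t φ Z ≤ 1 ∧ s e1 ∈ Z ∧ t e1 ∉ Z ∧
      ((σ = -1 ∧ s e2 ∈ Z ∧ t e2 ∉ Z) ∨ (σ = 1 ∧ t e2 ∈ Z ∧ s e2 ∉ Z)) := by
    intro σ hσ
    by_contra hnf
    apply hno
    refine extendE (φ := φ) (ρ := fun e => sgl e1 (-1) e + sgl e2 σ e) h3 ?_ ?_ ?_ ?_
    · intro e
      unfold sgl
      split_ifs <;> omega
    · intro e he
      have h1 := ((hs e).1 he).2
      have h2 : e ≠ e1 := by rintro rfl; exact h1 hF1
      have h4 : e ≠ e2 := by rintro rfl; exact h1 hF2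
      simp [sgl, h2, h4]
    · intro e
      rw [hs e]
      by_cases c1 : e = e1
      · subst c1
        simp [sgl, h12, hC.FS hF1]
      · by_cases c2 : e = e2
        · subst c2
          have : σ ≠ 0 := by omega
          simp [sgl, c1, hC.FS hF2, this]
        · have h1 : e ∉ F := by rw [hF]; simp [c1, c2]
          simp [sgl, c1, c2, h1]
    · intro Z
      have hρ : ∑ e, ov s t (fun e => sgl e1 (-1) e + sgl e2 σ e) Z e
          = ((if s e1 ∈ Z then -1 else 0) - (if t e1 ∈ Z then -1 else 0))
            + ((if s e2 ∈ Z then σ else 0) - (if t e2 ∈ Z then σ else 0)) := by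
        have k1 : ∀ e, ov s t (fun e => sgl e1 (-1) e + sgl e2 σ e) Z e
            = (if e = e1 then ((if s e1 ∈ Z then -1 else 0) - (if t e1 ∈ Z then -1 else 0)) else 0)
              + (if e = e2 then ((if s e2 ∈ Z then σ else 0) - (if t e2 ∈ Z then σ else 0)) else 0) := by
          intro e
          by_cases c1 : e = e1
          · subst c1
            simp [ov, sgl, h12]
          · by_cases c2 : e = e2
            · subst c2
              simp [ov, sgl, c1]
            · simp [ov, sgl, c1, c2]
        simp only [k1, sum_add_distrib, sum_ite_eq', mem_univ, if_true]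
      rw [hρ]
      by_contra hlt
      push Not at hlt
      have hnn := hh_nonneg h3 h0 Z
      have hzZ := hz Z
      unfold crs at hzZ
      apply hnf
      by_cases c1 : s e1 ∈ Z <;> by_cases c2 : t e1 ∈ Z <;> by_cases c3 : s e2 ∈ Z <;>
        by_cases c4 : t e2 ∈ Z <;>
        simp only [c1, c2, c3, c4, if_true, if_false, not_true_eq_false, not_false_iff, and_true,
          and_false, true_and, false_and, or_true, or_false, or_self, sub_self, sub_zero, zero_sub,
          add_zero, zero_add] at hlt hzZ <;>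
        first
        | (exfalso; omega)
        | (rcases hσ with rfl | rfl
           · first
             | (exfalso; omega)
             | exact ⟨Z, by omega, c1, c2, Or.inr ⟨rfl, c4, c3⟩⟩
           · first
             | (exfalso; omega)
             | exact ⟨Z, by omega, c1, c2, Or.inl ⟨rfl, c3, c4⟩⟩)
  obtain ⟨Z1, a1, a2, a3, a4⟩ := fail (-1) (Or.inr rfl)
  obtain ⟨Z2, b1, b2, b3, b4⟩ := fail 1 (Or.inl rfl)
  have a4' : s e2 ∈ Z1 ∧ t e2 ∉ Z1 := by
    rcases a4 with ⟨_, h⟩ | ⟨h, _⟩
    · exact h
    · norm_num at h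
  have b4' : t e2 ∈ Z2 ∧ s e2 ∉ Z2 := by
    rcases b4 with ⟨h, _⟩ | ⟨_, h⟩
    · norm_num at h
    · exact h
  have hsub := hh_submod s t φ Z1 Z2
  have nI := hh_nonneg h3 h0 (Z1 ∩ Z2)
  have nU := hh_nonneg h3 h0 (Z1 ∪ Z2)
  have hI : hh s t φ (Z1 ∩ Z2) ≠ 0 := by
    intro hc
    apply hz _ hc
    unfold crs
    simp [a2, a3, a4', b2, b4']
  have hU : hh s t φ (Z1 ∪ Z2) ≠ 0 := by
    intro hc
    apply hz _ hc
    unfold crs
    simp [a2, a3, a4', b3, b4']
  apply hnot
  refine ⟨Z1 ∩ Z2, by omega, by simp [a2, b2], Or.inl ⟨by simp [a2, b2], by simp [a3]⟩, ?_⟩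
  intro e he hne
  rw [hF] at he
  simp only [mem_insert, mem_singleton, hne, false_or] at he
  subst he
  exact ⟨by simp [b4'], by simp [a4']⟩

theorem fail_cls {s t : E → V} {S F : Finset E} (hC : Cls s t S F)
    (hno : ¬ HasFlow (ZMod 5) s t S) :
    ∃ e0 ∈ F, ∃ x, (s e0 = x ∨ t e0 = x) ∧ Tight s t S F e0 x := by
  rcases hC.kind with ⟨v, h1, h2⟩ | ⟨e1, e2, h1, h2⟩
  · exact fail_star hC hno h1 h2
  · exact fail_match hC hno h1 h2

end MP974d84
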