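import Mathlib
import Pool.Agent.Work.MP_974d84_co.Fail

/-!
Induction: every graph of the class has a nowhere-zero flow modulo 5.
-/

namespace MP974d84

open Finset

variable {V E : Type*} [Fintype V] [DecidableEq V] [Fintype E] [DecidableEq E]

/-- Change of basis making the first coordinate vanish at a prescribed edge. -/
theorem change_basis {s t : E → V} {β γ : E → ZMod 2} (hβ : ∀ v, D s t β v = 0)
    (hγ : ∀ v, D s t γ v = 0) {g : E} (hg : β g ≠ 0 ∨ γ g ≠ 0) :
    ∃ β' γ' : E → ZMod 2, (∀ v, D s t β' v = 0) ∧ (∀ v, D s t γ' v = 0) ∧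
      (∀ e, (β' e ≠ 0 ∨ γ' e ≠ 0) ↔ (β e ≠ 0 ∨ γ e ≠ 0)) ∧ β' g = 0 := by
  have h2 : ∀ z : ZMod 2, z = 0 ∨ z = 1 := by decide
  rcases h2 (β g) with h | h
  · exact ⟨β, γ, hβ, hγ, fun _ => Iff.rfl, h⟩
  · rcases h2 (γ g) with h' | h'
    · exact ⟨γ, β, hγ, hβ, fun _ => or_comm, h'⟩
    · refine ⟨fun e => β e + γ e, γ, fun v => by rw [D_add, hβ, hγ, add_zero], hγ, ?_, ?_⟩
      · intro e
        simp only
        rcases h2 (β e) with m1 | m1 <;> rcases h2 (γ e) with m2 | m2 <;> rw [m1, m2] <;> decide
      · simp only [h, h']; decide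

/-- Integer flows from parity flows. -/
theorem int_flows {s t : E → V} {P : E → Prop} {β γ : E → ZMod 2} (hβ : ∀ v, D s t β v = 0)
    (hγ : ∀ v, D s t γ v = 0) (hs : ∀ e, (β e ≠ 0 ∨ γ e ≠ 0) ↔ P e) :
    ∃ b a : E → ℤ, (∀ e, -1 ≤ b e ∧ b e ≤ 1) ∧ (∀ e, -1 ≤ a e ∧ a e ≤ 1) ∧
      (∀ v, D s t b v = 0) ∧ (∀ v, D s t a v = 0) ∧ (∀ e, (b e ≠ 0 ∨ a e ≠ 0) ↔ P e) ∧
      ∀ e, (β e = 0 ↔ b e = 0) := by
  obtain ⟨b, hb1, hb2, hb3⟩ := lift2 s t β hβ
  obtain ⟨a, ha1, ha2, ha3⟩ := lift2 s t γ hγ
  refine ⟨b, a, hb1, ha1, hb2, ha2, fun e => ?_, fun e => ?_⟩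
  · rw [← hs e, ← hb3 e, ← ha3 e, ne_eq, ne_eq, ne_eq, ne_eq, cast2 (hb1 e), cast2 (ha1 e)]
  · rw [← hb3 e, cast2 (hb1 e)]

theorem filter_two_sum {s t : E → V} {S : Finset E} (hl : ∀ e ∈ S, s e ≠ t e) (T : Finset V) :
    ∑ v ∈ T, (inc s t S v).card = 2 * (S.filter fun e => s e ∈ T ∧ t e ∈ T).card
      + (S.filter fun e => crs s t T e).card := by
  have h1 : ∀ v, (inc s t S v).card = ∑ e ∈ S, if s e = v ∨ t e = v then 1 else 0 := by
    intro v; unfold inc; rw [card_filter]
  simp only [h1]
  rw [sum_comm, card_filter, card_filter, mul_sum, ← sum_add_distrib]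
  refine sum_congr rfl fun e he => ?_
  have hle := hl e he
  have h2 : ∀ v, (if s e = v ∨ t e = v then 1 else 0)
      = (if s e = v then 1 else 0) + (if t e = v then 1 else 0) := by
    intro v
    by_cases c1 : s e = v
    · have : t e ≠ v := fun hc => hle (c1.trans hc.symm)
      simp [c1, this]
    · simp [c1]
  simp only [h2, sum_add_distrib, sum_ite_eq]
  unfold crs
  by_cases c1 : s e ∈ T <;> by_cases c2 : t e ∈ T <;> simp [c1, c2]

/-- Assembling a tight five-edge cut. -/
theorem mk_sit {s t : E → V} {S F : Finset E} (hC : Cls s t S F) {b a : E → ℤ}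
    (hb : ∀ e, -1 ≤ b e ∧ b e ≤ 1) (ha : ∀ e, -1 ≤ a e ∧ a e ≤ 1) (hb0 : ∀ v, D s t b v = 0)
    (ha0 : ∀ v, D s t a v = 0) (hs : ∀ e, (b e ≠ 0 ∨ a e ≠ 0) ↔ (e ∈ S ∧ e ∉ F))
    {T : Finset V} (hT : hh s t (fun e => b e + 2 * a e) T = 1) {e0 : E} (he0 : e0 ∈ F)
    (hc0 : crs s t T e0) (hF : ∀ e ∈ F, e ≠ e0 → s e ∉ T ∧ t e ∉ T) :
    ∃ tm : Fin 5 → E, tm 0 = e0 ∧ Sit s t S F T tm b a := by
  obtain ⟨e1, e2, e3, e4, d12, d13, d14, d23, d24, d34, v1, v2, v3, v4, hoth⟩ :=
    tight_struct hb ha hb0 ha0 hT
  have hz0 : b e0 = 0 ∧ a e0 = 0 := by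
    by_contra hc
    have : b e0 ≠ 0 ∨ a e0 ≠ 0 := by omega
    exact ((hs e0).1 this).2 he0
  have hne : ∀ e, (ov s t b T e ≠ 0) → e ∈ S ∧ e ≠ e0 ∧ crs s t T e := by
    intro e he
    have h1 : b e ≠ 0 := fun hc => he (ov_zero hc)
    refine ⟨((hs e).1 (Or.inl h1)).1, ?_, ?_⟩
    · rintro rfl; exact h1 hz0.1
    · unfold ov at he
      unfold crs
      by_cases c1 : s e ∈ T <;> by_cases c2 : t e ∈ T <;> simp_all
  have k1 := hne e1 (by rw [v1.1]; norm_num)
  have k2 := hne e2 (by rw [v2.1]; norm_num)
  have k3 := hne e3 (by rw [v3.1]; norm_num)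
  have k4 := hne e4 (by rw [v4.1]; norm_num)
  refine ⟨![e0, e1, e2, e3, e4], rfl, ?_⟩
  refine
    { term := ⟨?_, ?_, ?_, ?_⟩
      b1 := hb, a1 := ha, bD := hb0, aD := ha0, supp := hs
      h0 := he0, hF := hF, v1 := v1, v2 := v2, v3 := v3, v4 := v4, br := hC.br }
  · intro i j hij
    fin_cases i <;> fin_cases j <;> first
      | rfl
      | (exfalso
         simp only [Matrix.cons_val_zero, Matrix.cons_val_one, Matrix.cons_val] at hij
         first
         | exact d12 hij | exact d13 hij | exact d14 hij | exact d23 hij | exact d24 hij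
         | exact d34 hij | exact d12 hij.symm | exact d13 hij.symm | exact d14 hij.symm
         | exact d23 hij.symm | exact d24 hij.symm | exact d34 hij.symm
         | exact k1.2.1 hij | exact k2.2.1 hij | exact k3.2.1 hij | exact k4.2.1 hij
         | exact k1.2.1 hij.symm | exact k2.2.1 hij.symm | exact k3.2.1 hij.symm
         | exact k4.2.1 hij.symm)
  · intro i
    fin_cases i
    · exact hC.FS he0
    · exact k1.1
    · exact k2.1
    · exact k3.1
    · exact k4.1
  · intro i
    fin_cases i
    · exact hc0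
    · exact k1.2.2
    · exact k2.2.2
    · exact k3.2.2
    · exact k4.2.2
  · intro e he hce
    by_cases h0 : e = e0
    · exact ⟨0, h0⟩
    · by_cases h1 : e = e1
      · exact ⟨1, h1⟩
      · by_cases h2 : e = e2
        · exact ⟨2, h2⟩
        · by_cases h3 : e = e3
          · exact ⟨3, h3⟩
          · by_cases h4 : e = e4
            · exact ⟨4, h4⟩
            · exfalso
              have h5 := hoth e h1 h2 h3 h4
              have h6 : e ∉ F := by
                intro hc
                have := hF e hc h0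
                unfold crs at hce
                tauto
              rcases (hs e).2 ⟨he, h6⟩ with h7 | h7
              · exact (ov_tm_ne hce b).2 h7 h5.1
              · exact (ov_tm_ne hce a).2 h7 h5.2

/-- The number of edges inside a tight cut, and its non-isolated vertices. -/
theorem Sit.count {s t : E → V} {S F : Finset E} {T : Finset V} {tm : Fin 5 → E} {b a : E → ℤ}
    (h : Sit s t S F T tm b a) (hC : Cls s t S F) :
    3 * (T.filter fun v => inc s t S v ≠ ∅).card
      = 2 * (S.filter fun e => s e ∈ T ∧ t e ∈ T).card + 5 := by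
  have h1 := filter_two_sum hC.loop T
  have h2 : (S.filter fun e => crs s t T e) = univ.image tm := by
    ext e
    simp only [mem_filter, mem_image, mem_univ, true_and]
    constructor
    · rintro ⟨k1, k2⟩
      obtain ⟨i, hi⟩ := h.term.all e k1 k2
      exact ⟨i, hi.symm⟩
    · rintro ⟨i, rfl⟩
      exact ⟨h.term.mem i, h.term.crs i⟩
  rw [h2, card_image_of_injective _ h.term.inj, card_univ, Fintype.card_fin] at h1
  rw [← h1, card_filter, mul_sum]
  refine sum_congr rfl fun v _ => ?_
  rcases hC.deg v with h3 | h3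
  · have : inc s t S v ≠ ∅ := by
      intro hc
      rw [hc] at h3
      simp at h3
    simp [this, h3]
  · simp [h3]

/-- A tight cut with at least three inner edges gives a smaller counterexample. -/
theorem Sit.step {s t : E → V} {S F : Finset E} {T : Finset V} {tm : Fin 5 → E} {b a : E → ℤ}
    (h : Sit s t S F T tm b a) (hC : Cls s t S F) (hno : ¬ HasFlow (ZMod 5) s t S)
    (ih : ∀ (s' t' : E → V) (S' : Finset E), S'.card < S.card → Cls s' t' S' F →
      HasFlow (ZMod 5) s' t' S')
    (h3 : 3 ≤ (S.filter fun e => s e ∈ T ∧ t e ∈ T).card) : False := by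
  have hcount := h.count hC
  obtain ⟨g1, g2, g3, hg1, hg2, hg3, n12, n13, n23⟩ := two_lt_card_iff.1 (by omega :
    2 < (S.filter fun e => s e ∈ T ∧ t e ∈ T).card)
  obtain ⟨k0, k1, k2, hk0, hk1, hk2, m01, m02, m12⟩ := two_lt_card_iff.1 (by omega :
    2 < (T.filter fun v => inc s t S v ≠ ∅).card)
  rw [mem_filter] at hg1 hg2 hg3 hk0 hk1 hk2
  have hG : Gad s t S T tm ![k0, k1, k2] g1 g2 := by
    refine ⟨h.term, ?_, ?_, n12, hg1.1, hg1.2.1, hg1.2.2, hg2.1, hg2.2.1, hg2.2.2⟩
    · intro i j hij
      fin_cases i <;> fin_cases j <;> first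
        | rfl
        | (exfalso
           simp only [Matrix.cons_val_zero, Matrix.cons_val_one, Matrix.cons_val] at hij
           first
           | exact m01 hij | exact m02 hij | exact m12 hij
           | exact m01 hij.symm | exact m02 hij.symm | exact m12 hij.symm)
    · intro j
      fin_cases j
      · exact hk0.1
      · exact hk1.1
      · exact hk2.1
  apply hno
  refine h.reduce hG ?_
  intro p q r r' d1 d2 d3 d4 d5 d6 c1 c2
  refine ih _ _ _ ?_ (h.cls hC hG d1 d2 d3 d4 d5 d6 c1 c2)
  unfold gS
  have e1 : (insert g1 (insert g2 (S.filter fun e => ¬ (s e ∈ T ∧ t e ∈ T)))).card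
      ≤ (S.filter fun e => ¬ (s e ∈ T ∧ t e ∈ T)).card + 2 := by
    have := card_insert_le g1 (insert g2 (S.filter fun e => ¬ (s e ∈ T ∧ t e ∈ T)))
    have := card_insert_le g2 (S.filter fun e => ¬ (s e ∈ T ∧ t e ∈ T))
    omega
  have e2 := card_filter_add_card_filter_not (s := S) (fun e => s e ∈ T ∧ t e ∈ T)
  omega

theorem main_cls : ∀ (n : ℕ) (s t : E → V) (S F : Finset E), S.card = n → Cls s t S F →
    HasFlow (ZMod 5) s t S := by
  intro n
  induction n using Nat.strong_induction_on with
  | _ n ih =>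
    intro s t S F hn hC
    by_contra hno
    obtain ⟨e0, he0, x, hx, htight⟩ := fail_cls hC hno
    obtain ⟨β, γ, hβ, hγ, hβγ⟩ := hC.flow
    -- first flow, to see the edges at `x`
    obtain ⟨g1, g2, hg12, hinc⟩ : ∃ g1 g2, (g1 ≠ g2 ∧ g1 ≠ e0 ∧ g2 ≠ e0 ∧ g1 ∉ F ∧ g2 ∉ F) ∧
        inc s t S x = {e0, g1, g2} := by
      obtain ⟨b, a, hb, ha, hb0, ha0, hs, _⟩ := int_flows hβ hγ hβγ
      obtain ⟨T, hT1, hT2, hT3, hT4⟩ := htight (fun e => b e + 2 * a e)
        (fun e => by have := hb e; have := ha e; omega)
        (fun v => by rw [D_comb, hb0, ha0]; rfl)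
        (fun e => by rw [← hs e]; have := hb e; have := ha e; omega)
      have h1 : e0 ∈ inc s t S x := mem_filter.2 ⟨hC.FS he0, hx⟩
      have h2 : (inc s t S x).card = 3 := by
        rcases hC.deg x with h | h
        · exact h
        · rw [h] at h1; simp at h1
      have h3 : ((inc s t S x).erase e0).card = 2 := by
        rw [card_erase_of_mem h1, h2]
      obtain ⟨g1, g2, h4, h5⟩ := card_eq_two.1 h3
      have h6 : ∀ g ∈ (inc s t S x).erase e0, g ≠ e0 ∧ g ∉ F := by
        intro g hg
        rw [mem_erase] at hg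
        refine ⟨hg.1, fun hgF => ?_⟩
        have h7 := hT4 g hgF hg.1
        rcases (mem_filter.1 hg.2).2 with h8 | h8
        · exact h7.1 (h8 ▸ hT2)
        · exact h7.2 (h8 ▸ hT2)
      have m1 := h6 g1 (by rw [h5]; simp)
      have m2 := h6 g2 (by rw [h5]; simp)
      refine ⟨g1, g2, ⟨h4, m1.1, m2.1, m1.2, m2.2⟩, ?_⟩
      rw [← insert_erase h1, h5]
    obtain ⟨n12, n10, n20, n1F, n2F⟩ := hg12
    have hg1S : g1 ∈ S ∧ (s g1 = x ∨ t g1 = x) := by
      have : g1 ∈ inc s t S x := by rw [hinc]; simp
      exact mem_filter.1 this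
    have hg2S : g2 ∈ S ∧ (s g2 = x ∨ t g2 = x) := by
      have : g2 ∈ inc s t S x := by rw [hinc]; simp
      exact mem_filter.1 this
    -- second flow
    obtain ⟨β', γ', hβ', hγ', hs', hz'⟩ := change_basis hβ hγ ((hβγ g1).2 ⟨hg1S.1, n1F⟩)
    obtain ⟨b, a, hb, ha, hb0, ha0, hs, hbz⟩ := int_flows hβ' hγ'
      (fun e => (hs' e).trans (hβγ e))
    have hb1 : b g1 = 0 := (hbz g1).1 hz'
    have hz0 : b e0 = 0 ∧ a e0 = 0 := by
      by_contra hc
      have : b e0 ≠ 0 ∨ a e0 ≠ 0 := by omega
      exact ((hs e0).1 this).2 he0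
    have hb2 : b g2 = 0 := by
      by_contra hne
      have k1 := sum_ov hb0 {x}
      have k2 : ∀ e, e ≠ g2 → ov s t b {x} e = 0 := by
        intro e he
        by_cases hbe : b e = 0
        · exact ov_zero hbe
        · have heS := ((hs e).1 (Or.inl hbe)).1
          have : e ∉ inc s t S x := by
            rw [hinc]
            simp only [mem_insert, mem_singleton, not_or]
            exact ⟨fun hc => hbe (hc ▸ hz0.1), fun hc => hbe (hc ▸ hb1), he⟩
          unfold inc at this
          simp only [mem_filter, heS, true_and, not_or] at this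
          unfold ov
          simp [this.1, this.2]
      rw [sum_eq_single g2 (fun e _ he => k2 e he) (by simp)] at k1
      have k3 : crs s t {x} g2 := by
        have := hC.loop g2 hg2S.1
        unfold crs
        simp only [mem_singleton]
        rcases hg2S.2 with h | h
        · left; exact ⟨h, fun hc => this (h.trans hc.symm)⟩
        · right; exact ⟨fun hc => this (hc.trans h.symm), h⟩
      exact (ov_tm_ne k3 b).2 hne k1
    have ha1 : a g1 ≠ 0 := by
      rcases (hs g1).2 ⟨hg1S.1, n1F⟩ with h | h
      · exact absurd hb1 h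
      · exact h
    have ha2 : a g2 ≠ 0 := by
      rcases (hs g2).2 ⟨hg2S.1, n2F⟩ with h | h
      · exact absurd hb2 h
      · exact h
    -- analysis of one sign
    have one : ∀ σ : ℤ, (σ = 1 ∨ σ = -1) → ∃ T : Finset V, ∃ tm : Fin 5 → E, tm 0 = e0 ∧
        x ∈ T ∧ Sit s t S F T tm (fun e => σ * b e) (fun e => σ * a e) ∧
        (s g1 ∈ T ∧ t g1 ∈ T) ∧ (s g2 ∈ T ∧ t g2 ∈ T) := by
      intro σ hσ
      have hb' : ∀ e, -1 ≤ σ * b e ∧ σ * b e ≤ 1 := by
        intro e; have := hb e
        rcases hσ with rfl | rfl <;> omega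
      have ha' : ∀ e, -1 ≤ σ * a e ∧ σ * a e ≤ 1 := by
        intro e; have := ha e
        rcases hσ with rfl | rfl <;> omega
      have hmul : ∀ f : E → ℤ, (∀ v, D s t f v = 0) → ∀ v, D s t (fun e => σ * f e) v = 0 := by
        intro f hf v
        have : D s t (fun e => σ * f e) v = σ * D s t f v := by
          simp only [D, mul_sum]
          refine sum_congr rfl fun e _ => ?_
          split_ifs <;> ring
        rw [this, hf v]; ring
      have hsσ : ∀ e, (σ * b e ≠ 0 ∨ σ * a e ≠ 0) ↔ (e ∈ S ∧ e ∉ F) := by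
        intro e
        rw [← hs e]
        rcases hσ with rfl | rfl <;> omega
      obtain ⟨T, hT1, hT2, hT3, hT4⟩ := htight (fun e => σ * b e + 2 * (σ * a e))
        (fun e => by have := hb' e; have := ha' e; omega)
        (fun v => by rw [D_comb, hmul b hb0, hmul a ha0]; rfl)
        (fun e => by rw [← hsσ e]; have := hb' e; have := ha' e; omega)
      obtain ⟨tm, htm0, hsit⟩ := mk_sit hC hb' ha' (hmul b hb0) (hmul a ha0) hsσ hT1 he0 hT3 hT4
      have hin : ∀ g, g ∈ S → (s g = x ∨ t g = x) → g ≠ e0 → b g = 0 → s g ∈ T ∧ t g ∈ T := by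
        intro g hgS hgx hg0 hbg
        by_contra hc
        have hcr : crs s t T g := by
          unfold crs
          rcases hgx with h | h
          · have h5 : s g ∈ T := h ▸ hT2
            exact Or.inl ⟨h5, fun h6 => hc ⟨h5, h6⟩⟩
          · have h5 : t g ∈ T := h ▸ hT2
            exact Or.inr ⟨fun h6 => hc ⟨h6, h5⟩, h5⟩
        obtain ⟨i, hi⟩ := hsit.term.all g hgS hcr
        have hzz : ov s t (fun e => σ * b e) T g = 0 := ov_zero (by simp [hbg])
        fin_cases i
        · exact hg0 (hi.trans htm0)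
        · have := hsit.v1.1
          rw [hi] at hzz
          simp only [Fin.mk_one] at hzz
          rw [this] at hzz; norm_num at hzz
        · have := hsit.v2.1
          rw [hi] at hzz
          simp only [Fin.reduceFinMk] at hzz
          rw [this] at hzz; norm_num at hzz
        · have := hsit.v3.1
          rw [hi] at hzz
          simp only [Fin.reduceFinMk] at hzz
          rw [this] at hzz; norm_num at hzz
        · have := hsit.v4.1
          rw [hi] at hzz
          simp only [Fin.reduceFinMk] at hzz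
          rw [this] at hzz; norm_num at hzz
      exact ⟨T, tm, htm0, hT2, hsit, hin g1 hg1S.1 hg1S.2 n10 hb1, hin g2 hg2S.1 hg2S.2 n20 hb2⟩
    obtain ⟨T, tm, tm0, xT, hsit, i1, i2⟩ := one 1 (Or.inl rfl)
    obtain ⟨T', tm', tm0', xT', hsit', i1', i2'⟩ := one (-1) (Or.inr rfl)
    have ih' : ∀ (s' t' : E → V) (S' : Finset E), S'.card < S.card → Cls s' t' S' F →
        HasFlow (ZMod 5) s' t' S' := fun s' t' S' h1 h2 => ih _ (hn ▸ h1) s' t' S' F rfl h2
    by_cases c3 : 3 ≤ (S.filter fun e => s e ∈ T ∧ t e ∈ T).card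
    · exact hsit.step hC hno ih' c3
    by_cases c3' : 3 ≤ (S.filter fun e => s e ∈ T' ∧ t e ∈ T').card
    · exact hsit'.step hC hno ih' c3'
    -- both sides are the trivial side
    have hinc3 : (inc s t S x).card = 3 := by
      rw [hinc, card_insert_of_notMem, card_insert_of_notMem, card_singleton]
      · simpa using n12
      · simp [Ne.symm n10, Ne.symm n20]
    -- other ends of g1 and g2
    let o : E → V := fun e => if s e = x then t e else s e
    have ho : ∀ g, g ∈ S → (s g = x ∨ t g = x) → o g ≠ x ∧ (s g = x ∧ t g = o g ∨ t g = x ∧ s g = o g) := by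
      intro g hg hgx
      have hl := hC.loop g hg
      simp only [o]
      split_ifs with hc
      · exact ⟨fun h => hl (hc.trans h.symm), Or.inl ⟨hc, rfl⟩⟩
      · exact ⟨hc, Or.inr ⟨hgx.resolve_left hc, rfl⟩⟩
    obtain ⟨o1x, o1⟩ := ho g1 hg1S.1 hg1S.2
    obtain ⟨o2x, o2⟩ := ho g2 hg2S.1 hg2S.2
    have triv : ∀ (σ : ℤ) (T : Finset V) (tm : Fin 5 → E), tm 0 = e0 → x ∈ T →
        Sit s t S F T tm (fun e => σ * b e) (fun e => σ * a e) →
        (s g1 ∈ T ∧ t g1 ∈ T) → (s g2 ∈ T ∧ t g2 ∈ T) → (σ = 1 ∨ σ = -1) →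
        ¬ 3 ≤ (S.filter fun e => s e ∈ T ∧ t e ∈ T).card →
        o g1 ≠ o g2 ∧ (T.filter fun v => inc s t S v ≠ ∅) = {x, o g1, o g2} := by
      intro σ T tm tm0 xT hsit i1 i2 hσ c3
      have hcount := hsit.count hC
      have h2 : ({g1, g2} : Finset E) ⊆ (S.filter fun e => s e ∈ T ∧ t e ∈ T) := by
        intro e he
        simp only [mem_insert, mem_singleton] at he
        rcases he with rfl | rfl
        · exact mem_filter.2 ⟨hg1S.1, i1⟩
        · exact mem_filter.2 ⟨hg2S.1, i2⟩
      have h3 := card_le_card h2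
      rw [card_pair n12] at h3
      have h4 : (S.filter fun e => s e ∈ T ∧ t e ∈ T).card = 2 := by omega
      have h5 : (T.filter fun v => inc s t S v ≠ ∅).card = 3 := by omega
      have hinn : (S.filter fun e => s e ∈ T ∧ t e ∈ T) = {g1, g2} := by
        symm
        apply eq_of_subset_of_card_le h2
        rw [h4, card_pair n12]
      have o1T : o g1 ∈ T := by
        rcases o1 with ⟨_, h⟩ | ⟨_, h⟩
        · rw [← h]; exact i1.2
        · rw [← h]; exact i1.1
      have o2T : o g2 ∈ T := by
        rcases o2 with ⟨_, h⟩ | ⟨_, h⟩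
        · rw [← h]; exact i2.2
        · rw [← h]; exact i2.1
      have hg1o : g1 ∈ inc s t S (o g1) := by
        refine mem_filter.2 ⟨hg1S.1, ?_⟩
        rcases o1 with ⟨_, h⟩ | ⟨_, h⟩
        · exact Or.inr h
        · exact Or.inl h
      have hg2o : g2 ∈ inc s t S (o g2) := by
        refine mem_filter.2 ⟨hg2S.1, ?_⟩
        rcases o2 with ⟨_, h⟩ | ⟨_, h⟩
        · exact Or.inr h
        · exact Or.inl h
      have hne : o g1 ≠ o g2 := by
        intro heq
        -- third edge at the common end
        have h6 : (inc s t S (o g1)).card = 3 := by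
          rcases hC.deg (o g1) with h | h
          · exact h
          · rw [h] at hg1o; simp at hg1o
        have hg2o' : g2 ∈ inc s t S (o g1) := by rw [heq]; exact hg2o
        obtain ⟨g3, hg3, hg3n⟩ : ∃ g3 ∈ inc s t S (o g1), g3 ≠ g1 ∧ g3 ≠ g2 := by
          by_contra hno3
          push Not at hno3
          have h7 : inc s t S (o g1) ⊆ {g1, g2} := by
            intro g hg
            simp only [mem_insert, mem_singleton]
            by_cases h8 : g = g1
            · exact Or.inl h8
            · exact Or.inr (hno3 g hg h8)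
          have := card_le_card h7
          rw [h6, card_pair n12] at this
          omega
        have hg3S := mem_filter.1 hg3
        have hg30 : g3 ≠ e0 := by
          rintro rfl
          -- then `e0` joins `x` and `o g1`, both in `T`
          have hc := hsit.term.crs 0
          rw [tm0] at hc
          have hl := hC.loop g3 hg3S.1
          rcases hx with h7 | h7 <;> rcases hg3S.2 with h8 | h8
          · exact o1x (h8.symm.trans h7)
          · unfold crs at hc
            rw [h7, h8] at hc
            tauto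
          · unfold crs at hc
            rw [h7, h8] at hc
            tauto
          · exact o1x (h8.symm.trans h7)
        have hg3F : g3 ∉ F := by
          intro hc
          have h7 := hsit.hF g3 hc (by rw [tm0]; exact hg30)
          rcases hg3S.2 with h8 | h8
          · exact h7.1 (h8 ▸ o1T)
          · exact h7.2 (h8 ▸ o1T)
        -- conservation over `{x, o g1}`
        have hg3x : ¬ (s g3 = x ∨ t g3 = x) := by
          intro hc
          have : g3 ∈ inc s t S x := mem_filter.2 ⟨hg3S.1, hc⟩
          rw [hinc] at this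
          simp only [mem_insert, mem_singleton, hg30, hg3n.1, hg3n.2, or_self] at this
        push Not at hg3x
        have hcr3 : crs s t {x, o g1} g3 := by
          have hl := hC.loop g3 hg3S.1
          unfold crs
          simp only [mem_insert, mem_singleton, hg3x.1, hg3x.2, false_or]
          rcases hg3S.2 with h8 | h8
          · exact Or.inl ⟨h8, fun hc => hl (h8.trans hc.symm)⟩
          · exact Or.inr ⟨fun hc => hl (hc.trans h8.symm), h8⟩
        have hcons : ∀ f : E → ℤ, (∀ v, D s t f v = 0) → (∀ e, f e ≠ 0 → e ∈ S) → f e0 = 0 →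
            f g3 = 0 := by
          intro f hf hfS hf0
          by_contra hfn
          have k1 := sum_ov hf {x, o g1}
          rw [sum_eq_single g3] at k1
          · exact (ov_tm_ne hcr3 f).2 hfn k1
          · intro e _ hen
            by_cases hfe : f e = 0
            · exact ov_zero hfe
            · have heS := hfS e hfe
              by_cases hex : s e = x ∨ t e = x
              · have h9 : e ∈ inc s t S x := mem_filter.2 ⟨heS, hex⟩
                rw [hinc] at h9
                simp only [mem_insert, mem_singleton] at h9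
                rcases h9 with rfl | rfl | rfl
                · exact absurd hf0 hfe
                · unfold ov
                  rcases o1 with ⟨m1, m2⟩ | ⟨m1, m2⟩ <;> simp [m1, m2]
                · unfold ov
                  rcases o2 with ⟨m1, m2⟩ | ⟨m1, m2⟩ <;> simp [m1, m2, heq]
              · by_cases heo : s e = o g1 ∨ t e = o g1
                · -- then `e` is one of `g1, g2, g3`
                  have h10 : e ∈ inc s t S (o g1) := mem_filter.2 ⟨heS, heo⟩
                  have h11 : inc s t S (o g1) = {g1, g2, g3} := by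
                    symm
                    apply eq_of_subset_of_card_le
                    · intro g hg
                      simp only [mem_insert, mem_singleton] at hg
                      rcases hg with rfl | rfl | rfl <;> assumption
                    · rw [h6, card_insert_of_notMem, card_pair (Ne.symm hg3n.2)]
                      simp [n12, Ne.symm hg3n.1]
                  rw [h11] at h10
                  simp only [mem_insert, mem_singleton, hen, or_false] at h10
                  exfalso
                  rcases h10 with rfl | rfl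
                  · exact hex hg1S.2
                  · exact hex hg2S.2
                · push Not at hex heo
                  unfold ov
                  simp [hex.1, hex.2, heo.1, heo.2]
          · simp
        rcases (hs g3).2 ⟨hg3S.1, hg3F⟩ with h9 | h9
        · exact h9 (hcons b hb0 (fun e he => ((hs e).1 (Or.inl he)).1) hz0.1)
        · exact h9 (hcons a ha0 (fun e he => ((hs e).1 (Or.inr he)).1) hz0.2)
      refine ⟨hne, ?_⟩
      symm
      apply eq_of_subset_of_card_le
      · intro v hv
        simp only [mem_insert, mem_singleton] at hv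
        rcases hv with rfl | rfl | rfl
        · refine mem_filter.2 ⟨xT, ?_⟩
          rw [hinc]; simp
        · exact mem_filter.2 ⟨o1T, fun hc => by rw [hc] at hg1o; simp at hg1o⟩
        · exact mem_filter.2 ⟨o2T, fun hc => by rw [hc] at hg2o; simp at hg2o⟩
      · rw [h5, card_insert_of_notMem, card_pair hne]
        simp [Ne.symm o1x, Ne.symm o2x]
    obtain ⟨_, t1⟩ := triv 1 T tm tm0 xT hsit i1 i2 (Or.inl rfl) c3
    obtain ⟨_, t2⟩ := triv (-1) T' tm' tm0' xT' hsit' i1' i2' (Or.inr rfl) c3'
    -- hence the two cuts have the same edges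
    have hmem : ∀ v, inc s t S v ≠ ∅ → (v ∈ T ↔ v ∈ T') := by
      intro v hv
      have e1 : v ∈ (T.filter fun v => inc s t S v ≠ ∅) ↔ v ∈ (T'.filter fun v => inc s t S v ≠ ∅) := by
        rw [t1, t2]
      simpa [mem_filter, hv] using e1
    have hsT : ∀ e ∈ S, (s e ∈ T ↔ s e ∈ T') := fun e he =>
      hmem _ (fun hc => by
        have : e ∈ inc s t S (s e) := mem_filter.2 ⟨he, Or.inl rfl⟩
        rw [hc] at this; simp at this)
    have htT : ∀ e ∈ S, (t e ∈ T ↔ t e ∈ T') := fun e he =>
      hmem _ (fun hc => by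
        have : e ∈ inc s t S (t e) := mem_filter.2 ⟨he, Or.inr rfl⟩
        rw [hc] at this; simp at this)
    -- compare the values at `tm 3`
    have hS3 := hsit.term.mem 3
    have hc3 := hsit.term.crs 3
    have hc3' : crs s t T' (tm 3) := by
      unfold crs at hc3 ⊢
      rw [← hsT _ hS3, ← htT _ hS3]; exact hc3
    obtain ⟨i, hi⟩ := hsit'.term.all _ hS3 hc3'
    have w1 := hsit.v3
    have hov : ∀ f : E → ℤ, ov s t (fun e => -1 * f e) T' (tm 3) = - ov s t f T (tm 3) := by
      intro f
      unfold ov
      simp only [hsT _ hS3, htT _ hS3]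
      split_ifs <;> ring
    have w2 := hov b
    have w3 := hov a
    simp only [one_mul] at w1
    rw [w1.1] at w2
    rw [w1.2] at w3
    have hz3 : tm 3 ≠ e0 := by
      rw [← tm0]
      intro hc
      exact absurd (hsit.term.inj hc) (by decide)
    rw [hi] at w2 w3
    have hi0 : i ≠ 0 := by
      rintro rfl
      rw [tm0'] at hi
      exact hz3 hi
    fin_cases i
    · exact hi0 rfl
    · have := hsit'.v1
      simp only [Fin.mk_one] at w2 w3
      rw [this.2] at w3; norm_num at w3
    · have := hsit'.v2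
      simp only [Fin.reduceFinMk] at w2 w3
      rw [this.2] at w3; norm_num at w3
    · have := hsit'.v3
      simp only [Fin.reduceFinMk] at w2 w3
      rw [this.1] at w2; norm_num at w2
    · have := hsit'.v4
      simp only [Fin.reduceFinMk] at w2 w3
      rw [this.1] at w2; norm_num at w2

end MP974d84
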