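import Mathlib

/-!
Nowhere-zero flows of finite simple graphs with values in an abelian group.
-/

namespace MP974d84

variable {V : Type*} [Fintype V]

/-- `G` has a nowhere-zero flow with values in the abelian group `A`: an antisymmetric function
`f` on ordered pairs of vertices which is nonzero exactly on the pairs of adjacent vertices and
which is conserved at every vertex. -/
def HasNZFlow (A : Type) [AddCommGroup A] (G : SimpleGraph V) : Prop :=
  ∃ f : V → V → A, (∀ u v, f u v = - f v u) ∧ (∀ u v, f u v ≠ 0 ↔ G.Adj u v) ∧
    ∀ v, ∑ u, f v u = 0

end MP974d84
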