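import Mathlib
import Pool.Agent.Work.MP_974d84_co.Hoffman
import Pool.Agent.Work.MP_974d84_co.Defs

/-!
Lifting flows: from a nowhere-zero flow with values in the integers modulo 4 to an integer 4-flow,
and the binary decomposition of integer 4-flows.
-/

namespace MP974d84

open Finset

variable {V : Type*} [Fintype V] [DecidableEq V]

/-- Integer nowhere-zero 4-flow with support `G`. -/
def IntFlow4 (G : SimpleGraph V) (φ : V → V → ℤ) : Prop :=
  Anti φ ∧ (∀ v w, φ v w ≠ 0 ↔ G.Adj v w) ∧ (∀ v w, φ v w ≤ 3) ∧ ∀ v, dv φ v = 0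

theorem IntFlow4.neg {G : SimpleGraph V} {φ : V → V → ℤ} (h : IntFlow4 G φ) :
    IntFlow4 G (fun v w => - φ v w) := by
  obtain ⟨h1, h2, h3, h4⟩ := h
  refine ⟨fun v w => by simp only; rw [h1 v w], fun v w => ?_, fun v w => ?_, fun v => ?_⟩
  · simpa using h2 v w
  · have := h3 w v
    have := h1 v w
    simp only; omega
  · have : dv (fun v w => - φ v w) v = - dv φ v := by simp [dv]
    rw [this, h4 v]; rfl

theorem IntFlow4.ge {G : SimpleGraph V} {φ : V → V → ℤ} (h : IntFlow4 G φ) (v w : V) :
    -3 ≤ φ v w := by
  have := h.1 v w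
  have := h.2.2.1 w v
  omega

/-- Every integer flow is congruent modulo 2 to one with values in `{0, 1, -1}`. -/
theorem mod_two (f : V → V → ℤ) (hf : Anti f) (hd : ∀ v, dv f v = 0) :
    ∃ b : V → V → ℤ, Anti b ∧ (∀ v, dv b v = 0) ∧
      ∀ v w, (-1 ≤ b v w ∧ b v w ≤ 1) ∧ (2 : ℤ) ∣ f v w - b v w := by
  obtain ⟨g, hg1, hg2, hg3⟩ := hoffman (fun v w => (f v w + 1) / 2) (fun _ => 0)
    (fun v w => if 0 < f v w then f v w / 2 else - ((- f v w) / 2)) (by
      intro v w
      have := hf v w
      simp only
      split_ifs <;> omega) (by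
      intro v w
      try simp only
      split_ifs <;> omega) (by simp) (by
      intro Z
      simp only [sum_const_zero]
      have h1 : cs f Z = 0 := by rw [← dv_cut hf Z]; exact sum_eq_zero fun v _ => hd v
      have h2 : cs f Z ≤ 2 * cs (fun v w => (f v w + 1) / 2) Z := by
        simp only [cs, mul_sum]
        refine sum_le_sum fun v _ => sum_le_sum fun w _ => ?_
        omega
      omega)
  refine ⟨fun v w => f v w - 2 * g v w, ?_, ?_, ?_⟩
  · intro v w
    have := hf v w
    have := hg1 v w
    simp only; omega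
  · intro v
    have : dv (fun v w => f v w - 2 * g v w) v = dv f v - 2 * dv g v := by
      simp only [dv, sum_sub_distrib, mul_sum]
    rw [this, hd v, hg3 v]; rfl
  · intro v w
    have h1 := hf v w
    have h2 := hg1 v w
    have h3 := hg2 v w
    have h4 := hg2 w v
    simp only at h3 h4 ⊢
    refine ⟨⟨?_, ?_⟩, ⟨g v w, by ring⟩⟩ <;> omega

/-- Tutte: a nowhere-zero flow modulo 4 lifts to an integer nowhere-zero 4-flow. -/
theorem lift_four {G : SimpleGraph V} (h : HasNZFlow (ZMod 4) G) :
    ∃ φ : V → V → ℤ, IntFlow4 G φ := by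
  classical
  obtain ⟨f, hf1, hf2, hf3⟩ := h
  let e := Fintype.equivFin V
  let F : V → V → ℤ := fun v w => if e v < e w then ((f v w).val : ℤ) else - ((f w v).val : ℤ)
  have hlt : ∀ v w, ((f v w).val : ℤ) < 4 := fun v w => by exact_mod_cast ZMod.val_lt (f v w)
  have hnn : ∀ v w, (0 : ℤ) ≤ ((f v w).val : ℤ) := fun v w => by positivity
  have hF1 : Anti F := by
    intro v w
    simp only [F]
    rcases lt_trichotomy (e v) (e w) with h | h | h
    · rw [if_pos h, if_neg (not_lt.2 h.le)]; ring
    · have : v = w := e.injective h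
      subst this
      have hz : f v v = 0 := by
        by_contra hne
        exact G.loopless.irrefl v ((hf2 v v).1 hne)
      simp [hz]
    · rw [if_neg (not_lt.2 h.le), if_pos h]
  have hFc : ∀ v w, ((F v w : ℤ) : ZMod 4) = f v w := by
    intro v w
    simp only [F]
    split_ifs
    · simp
    · push_cast
      rw [ZMod.natCast_zmod_val, hf1 v w]
  have hF2 : ∀ v w, -3 ≤ F v w ∧ F v w ≤ 3 := by
    intro v w
    have h1 := hlt v w
    have h2 := hlt w v
    have h3 := hnn v w
    have h4 := hnn w v
    simp only [F]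
    split_ifs <;> constructor <;> omega
  have hF0 : ∀ v w, F v w ≠ 0 ↔ G.Adj v w := by
    intro v w
    rw [← hf2 v w]
    constructor
    · intro h h0
      apply h
      have h5 : ((F v w : ℤ) : ZMod 4) = 0 := by rw [hFc, h0]
      have h6 := (ZMod.intCast_zmod_eq_zero_iff_dvd (F v w) 4).1 h5
      have := hF2 v w
      simp only [Nat.cast_ofNat] at h6
      omega
    · intro h h0
      apply h
      rw [← hFc, h0]; simp
  have hFd : ∀ v, (4 : ℤ) ∣ dv F v := by
    intro v
    have h5 : ((dv F v : ℤ) : ZMod 4) = 0 := by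
      rw [dv]
      push_cast
      simp only [hFc]
      exact hf3 v
    simpa using (ZMod.intCast_zmod_eq_zero_iff_dvd (dv F v) 4).1 h5
  choose k hk using hFd
  obtain ⟨g, hg1, hg2, hg3⟩ := hoffman (fun v w => if F v w < 0 then 1 else 0) (fun v => - k v)
    (fun _ _ => 0) (fun _ _ => by simp) (fun v w => by split_ifs <;> simp) (by
      have h1 : ∑ v, dv F v = 0 := dv_total hF1
      have h2 : 4 * ∑ v, k v = 0 := by
        rw [mul_sum, ← h1]
        exact sum_congr rfl fun v _ => (hk v).symm
      rw [sum_neg_distrib]; omega) (by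
      intro Z
      have h1 : ∑ v ∈ Z, dv F v = cs F Z := dv_cut hF1 Z
      have h2 : 4 * ∑ v ∈ Z, k v = cs F Z := by
        rw [mul_sum, ← h1]
        exact sum_congr rfl fun v _ => (hk v).symm
      have h3 : - cs F Z ≤ 4 * cs (fun v w => if F v w < 0 then 1 else 0) Z := by
        simp only [cs, mul_sum, ← sum_neg_distrib]
        refine sum_le_sum fun v _ => sum_le_sum fun w _ => ?_
        have := hF2 v w
        split_ifs <;> omega
      rw [sum_neg_distrib]; omega)
  refine ⟨fun v w => F v w + 4 * g v w, ?_, ?_, ?_, ?_⟩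
  · intro v w
    have := hF1 v w
    have := hg1 v w
    simp only; omega
  · intro v w
    rw [← hF0 v w]
    have h1 := hF1 v w
    have h2 := hg1 v w
    have h3 := hg2 v w
    have h4 := hg2 w v
    have h5 := hF2 v w
    simp only at h3 h4 ⊢
    split_ifs at h3 h4 <;> omega
  · intro v w
    have h1 := hF1 v w
    have h2 := hg1 v w
    have h3 := hg2 v w
    have h4 := hg2 w v
    have h5 := hF2 v w
    simp only at h3 h4 ⊢
    split_ifs at h3 h4 <;> omega
  · intro v
    have : dv (fun v w => F v w + 4 * g v w) v = dv F v + 4 * dv g v := by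
      simp only [dv, sum_add_distrib, mul_sum]
    rw [this, hg3 v, hk v]; ring

/-- One can choose an integer nowhere-zero 4-flow taking value `±2` on a prescribed edge. -/
theorem exists_two {G : SimpleGraph V} {φ : V → V → ℤ} (h : IntFlow4 G φ) {x p : V}
    (hxp : G.Adj x p) : ∃ ψ : V → V → ℤ, IntFlow4 G ψ ∧ (ψ x p = 2 ∨ ψ x p = -2) := by
  classical
  have hge := h.ge
  obtain ⟨h1, h2, h3, h4⟩ := h
  obtain ⟨b, hb1, hb2, hb3⟩ := mod_two φ h1 h4
  -- the half difference
  have hc0 : ∃ c0 : V → V → ℤ, Anti c0 ∧ (∀ v, dv c0 v = 0) ∧ ∀ v w, φ v w = b v w + 2 * c0 v w := by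
    choose c0 hc using fun v w => (hb3 v w).2
    refine ⟨c0, ?_, ?_, fun v w => by have := hc v w; omega⟩
    · intro v w
      have := hc v w
      have := hc w v
      have := h1 v w
      have := hb1 v w
      omega
    · intro v
      have h5 : 2 * dv c0 v = dv φ v - dv b v := by
        simp only [dv, mul_sum, ← sum_sub_distrib]
        exact sum_congr rfl fun w _ => (hc v w).symm
      rw [h4 v, hb2 v] at h5
      omega
  obtain ⟨c0, hc1, hc2, hc3⟩ := hc0
  obtain ⟨c, hcc1, hcc2, hcc3⟩ := mod_two c0 hc1 hc2
  -- general assembly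
  have key : ∀ β : V → V → ℤ, Anti β → (∀ v, dv β v = 0) → (∀ v w, -1 ≤ β v w ∧ β v w ≤ 1) →
      β x p = 0 → b x p ≠ 0 → (∀ v w, φ v w ≠ 0 → β v w = 0 → b v w ≠ 0) →
      (∀ v w, φ v w = 0 → β v w = 0) →
      ∃ ψ : V → V → ℤ, IntFlow4 G ψ ∧ (ψ x p = 2 ∨ ψ x p = -2) := by
    intro β k1 k2 k3 k4 k5 k6 k7
    refine ⟨fun v w => β v w + 2 * b v w, ⟨?_, ?_, ?_, ?_⟩, ?_⟩
    · intro v w
      have := k1 v w
      have := hb1 v w
      simp only; omega
    · intro v w
      rw [← h2 v w]
      have a1 := k3 v w
      have a2 := k6 v w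
      have a3 := k7 v w
      have a4 := (hb3 v w).1
      have a5 := (hb3 v w).2
      simp only
      constructor
      · intro hne h0
        have := a3 h0
        omega
      · intro hne h0
        by_cases hz : β v w = 0
        · have := a2 hne hz
          omega
        · omega
    · intro v w
      have a1 := k3 v w
      have a4 := (hb3 v w).1
      simp only; omega
    · intro v
      have : dv (fun v w => β v w + 2 * b v w) v = dv β v + 2 * dv b v := by
        simp only [dv, sum_add_distrib, mul_sum]
      rw [this, k2 v, hb2 v]; rfl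
    · have a4 := (hb3 x p).1
      simp only
      omega
  by_cases hbx : b x p = 0
  · refine ⟨φ, ⟨h1, h2, h3, h4⟩, ?_⟩
    have a1 := (hb3 x p).2
    have a2 := (h2 x p).2 hxp
    have a3 := h3 x p
    have a4 := hge x p
    omega
  · by_cases hcx : c x p = 0
    · refine key c hcc1 hcc2 (fun v w => (hcc3 v w).1) hcx hbx ?_ ?_
      · intro v w hne hc hb
        have a1 := (hcc3 v w).2
        have a2 := hc3 v w
        have a3 := h3 v w
        have a4 := hge v w
        omega
      · intro v w h0
        have a1 := (hcc3 v w)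
        have a2 := hc3 v w
        have a3 := hb3 v w
        omega
    · obtain ⟨β, hβ1, hβ2, hβ3⟩ := mod_two (fun v w => b v w + c v w) (by
          intro v w
          have := hb1 v w
          have := hcc1 v w
          simp only; omega) (by
          intro v
          have : dv (fun v w => b v w + c v w) v = dv b v + dv c v := by
            simp only [dv, sum_add_distrib]
          rw [this, hb2 v, hcc2 v]; rfl)
      refine key β hβ1 hβ2 (fun v w => (hβ3 v w).1) ?_ hbx ?_ ?_
      · have a1 := hβ3 x p
        have a2 := hcc3 x p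
        have a3 := hb3 x p
        try simp only at a1
        omega
      · intro v w hne hc hb
        have a1 := (hβ3 v w).2
        have a2 := hc3 v w
        have a3 := h3 v w
        have a4 := hge v w
        have a5 := hcc3 v w
        try simp only at a1
        omega
      · intro v w h0
        have a1 := (hcc3 v w)
        have a2 := hc3 v w
        have a3 := hb3 v w
        have a4 := hβ3 v w
        try simp only at a4
        omega

end MP974d84
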