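import Mathlib
import Pool.Agent.Work.MP_974d84_co.Bits

/-!
Analysis of tight cuts of an integer 4-flow.
-/

namespace MP974d84

open Finset

variable {V : Type*} [Fintype V] [DecidableEq V]

/-- Upper bounds for a 5-flow with the same orientation as `φ`. -/
def ub (φ : V → V → ℤ) (v w : V) : ℤ := if 0 < φ v w then 4 else if φ v w < 0 then -1 else 0

theorem cs_zero {φ : V → V → ℤ} (h1 : Anti φ) (h4 : ∀ v, dv φ v = 0) (Z : Finset V) :
    cs φ Z = 0 := by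
  rw [← dv_cut h1 Z]; exact sum_eq_zero fun v _ => h4 v

theorem ub_sub_nonneg {φ : V → V → ℤ} (h3 : ∀ v w, φ v w ≤ 3) (v w : V) :
    0 ≤ ub φ v w - φ v w := by
  have := h3 v w
  unfold ub; split_ifs <;> omega

theorem cs_ub_nonneg {G : SimpleGraph V} {φ : V → V → ℤ} (h : IntFlow4 G φ) (Z : Finset V) :
    0 ≤ cs (ub φ) Z := by
  have h0 := cs_zero h.1 h.2.2.2 Z
  have : cs φ Z ≤ cs (ub φ) Z :=
    sum_le_sum fun v _ => sum_le_sum fun w _ => by
      have := ub_sub_nonneg h.2.2.1 v w; omega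
  omega

/-- Sum over cut pairs as a sum over a product. -/
theorem cs_prod (f : V → V → ℤ) (Z : Finset V) : cs f Z = ∑ p ∈ Z ×ˢ Zᶜ, f p.1 p.2 := by
  rw [cs, sum_product]

theorem cs_ub_zero {G : SimpleGraph V} {φ : V → V → ℤ} (h : IntFlow4 G φ) {Z : Finset V}
    (hZ : cs (ub φ) Z = 0) : ∀ a ∈ Z, ∀ b ∉ Z, ¬ G.Adj a b := by
  have h0 := cs_zero h.1 h.2.2.2 Z
  rw [cs_prod] at h0 hZ
  have h1 : ∑ p ∈ Z ×ˢ Zᶜ, (ub φ p.1 p.2 - φ p.1 p.2) = 0 := by
    rw [sum_sub_distrib, h0, hZ]; rfl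
  have h2 := (sum_eq_zero_iff_of_nonneg (fun p _ => ub_sub_nonneg h.2.2.1 p.1 p.2)).1 h1
  have h3 : ∀ p ∈ Z ×ˢ Zᶜ, φ p.1 p.2 ≤ 0 := by
    intro p hp
    have := h2 p hp
    have := h.2.2.1 p.1 p.2
    by_contra hc
    push Not at hc
    simp only [ub, hc, if_true] at *
    omega
  have h4 := (sum_eq_zero_iff_of_nonpos h3).1 h0
  intro a ha b hb hadj
  have := h4 (a, b) (mem_product.2 ⟨ha, by simpa using hb⟩)
  exact (h.2.1 a b).2 hadj this

/-- The tight cuts: one edge out of value `3`, and edges in of value `1`. -/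
theorem cs_ub_one {G : SimpleGraph V} [DecidableRel G.Adj] {φ : V → V → ℤ} (h : IntFlow4 G φ) {Z : Finset V}
    (hZ : cs (ub φ) Z = 1) : (∀ a ∈ Z, ∀ b ∉ Z, φ a b = 0 ∨ φ a b = 3 ∨ φ a b = -1) ∧
      ∑ a ∈ Z, ∑ b ∈ Zᶜ, (if G.Adj a b then (1 : ℤ) else 0) = 4 := by
  classical
  have h0 := cs_zero h.1 h.2.2.2 Z
  have h0' := h0
  rw [cs_prod] at h0 hZ
  have h1 : ∑ p ∈ Z ×ˢ Zᶜ, (ub φ p.1 p.2 - φ p.1 p.2) = 1 := by
    rw [sum_sub_distrib, h0, hZ]; rfl
  have hle : ∀ p ∈ Z ×ˢ Zᶜ, ub φ p.1 p.2 - φ p.1 p.2 ≤ 1 := by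
    intro p hp
    rw [← h1]
    exact single_le_sum (f := fun p => ub φ p.1 p.2 - φ p.1 p.2)
      (fun q _ => ub_sub_nonneg h.2.2.1 q.1 q.2) hp
  -- some positive pair
  obtain ⟨q, hq, hqpos⟩ : ∃ q ∈ Z ×ˢ Zᶜ, 0 < φ q.1 q.2 := by
    by_contra hno
    push Not at hno
    have h4 := (sum_eq_zero_iff_of_nonpos hno).1 h0
    have h5 : ∑ p ∈ Z ×ˢ Zᶜ, ub φ p.1 p.2 = 0 := by
      refine sum_eq_zero fun p hp => ?_
      simp [ub, h4 p hp]
    omega
  have hq3 : ub φ q.1 q.2 - φ q.1 q.2 = 1 := by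
    have a1 := hle q hq
    have a2 := h.2.2.1 q.1 q.2
    simp only [ub, hqpos, if_true] at *
    omega
  have hothers : ∀ p ∈ Z ×ˢ Zᶜ, p ≠ q → ub φ p.1 p.2 - φ p.1 p.2 = 0 := by
    intro p hp hpq
    have h6 : ∑ p ∈ (Z ×ˢ Zᶜ).erase q, (ub φ p.1 p.2 - φ p.1 p.2) = 0 := by
      have := add_sum_erase (Z ×ˢ Zᶜ) (fun p => ub φ p.1 p.2 - φ p.1 p.2) hq
      omega
    exact (sum_eq_zero_iff_of_nonneg (fun p _ => ub_sub_nonneg h.2.2.1 p.1 p.2)).1 h6 p
      (mem_erase.2 ⟨hpq, hp⟩)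
  have hval : ∀ p ∈ Z ×ˢ Zᶜ, φ p.1 p.2 = 0 ∨ φ p.1 p.2 = 3 ∨ φ p.1 p.2 = -1 := by
    intro p hp
    by_cases hpq : p = q
    · subst hpq
      simp only [ub, hqpos, if_true] at hq3
      omega
    · have := hothers p hp hpq
      have := h.2.2.1 p.1 p.2
      unfold ub at *
      split_ifs at * <;> omega
  refine ⟨fun a ha b hb => hval (a, b) (mem_product.2 ⟨ha, by simpa using hb⟩), ?_⟩
  have h7 : ∑ a ∈ Z, ∑ b ∈ Zᶜ, (if G.Adj a b then (1 : ℤ) else 0)
      = ∑ p ∈ Z ×ˢ Zᶜ, (- φ p.1 p.2 + 4 * (ub φ p.1 p.2 - φ p.1 p.2)) := by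
    rw [← sum_product' (s := Z) (t := Zᶜ) (f := fun a b => if G.Adj a b then (1 : ℤ) else 0)]
    refine sum_congr rfl fun p hp => ?_
    by_cases hadj : G.Adj p.1 p.2
    · have hne := (h.2.1 p.1 p.2).2 hadj
      rw [if_pos hadj]
      rcases hval p hp with h8 | h8 | h8
      · exact absurd h8 hne
      · simp [ub, h8]
      · simp [ub, h8]
    · have hz : φ p.1 p.2 = 0 := by
        by_contra hne
        exact hadj ((h.2.1 p.1 p.2).1 hne)
      rw [if_neg hadj]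
      simp [ub, hz]
  rw [h7, sum_add_distrib, sum_neg_distrib, h0, ← mul_sum, h1]
  norm_num

/-- A tight cut for `φ` is not tight for `-φ`. -/
theorem not_both {G : SimpleGraph V} [DecidableRel G.Adj] {φ : V → V → ℤ} (h : IntFlow4 G φ) {Z : Finset V}
    (hZ : cs (ub φ) Z = 1) (hZ' : cs (ub (fun v w => - φ v w)) Z = 1) : False := by
  obtain ⟨h1, h2⟩ := cs_ub_one h hZ
  obtain ⟨h1', -⟩ := cs_ub_one h.neg hZ'
  have : ∑ a ∈ Z, ∑ b ∈ Zᶜ, (if G.Adj a b then (1 : ℤ) else 0) = 0 := by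
    refine sum_eq_zero fun a ha => sum_eq_zero fun b hb => ?_
    rw [if_neg]
    intro hadj
    have hne := (h.2.1 a b).2 hadj
    have a1 := h1 a ha b (by simpa using hb)
    have a2 := h1' a ha b (by simpa using hb)
    omega
  omega

/-- A vertex outside a tight cut has not exactly two neighbours, all inside the cut. -/
theorem no_pair {G : SimpleGraph V} [DecidableRel G.Adj] {φ : V → V → ℤ} (h : IntFlow4 G φ) {Z : Finset V}
    (hZ : cs (ub φ) Z = 1) {z : V} (hz : z ∉ Z)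
    (h2 : ∑ a ∈ Z, (if G.Adj a z then (1 : ℤ) else 0) = 2)
    (h3 : ∀ b ∉ Z, ¬ G.Adj b z) : False := by
  obtain ⟨h1, -⟩ := cs_ub_one h hZ
  have h4 : ∑ a ∈ Z, φ a z = 0 := by
    have h5 : ∑ a, φ a z = 0 := by
      have : ∑ a, φ a z = - dv φ z := by
        rw [dv, ← sum_neg_distrib]
        exact sum_congr rfl fun a _ => h.1 a z
      rw [this, h.2.2.2 z]; rfl
    rw [← h5, ← sum_add_sum_compl Z]
    have : ∑ a ∈ Zᶜ, φ a z = 0 := by
      refine sum_eq_zero fun b hb => ?_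
      by_contra hne
      exact h3 b (by simpa using hb) ((h.2.1 b z).1 hne)
    omega
  have h6 : (4 : ℤ) ∣ ∑ a ∈ Z, (φ a z + (if G.Adj a z then (1 : ℤ) else 0)) := by
    refine dvd_sum fun a ha => ?_
    by_cases hadj : G.Adj a z
    · rw [if_pos hadj]
      have hne := (h.2.1 a z).2 hadj
      rcases h1 a ha z hz with h8 | h8 | h8
      · exact absurd h8 hne
      · rw [h8]; norm_num
      · rw [h8]; norm_num
    · rw [if_neg hadj]
      have hz : φ a z = 0 := by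
        by_contra hne
        exact hadj ((h.2.1 a z).1 hne)
      rw [hz]; norm_num
  rw [sum_add_distrib, h4, h2] at h6
  norm_num at h6

/-- If all vertices outside a tight cut have degree at most two then there are not exactly three of
them. -/
theorem compl_card_ne_three {G : SimpleGraph V} [DecidableRel G.Adj] {φ : V → V → ℤ} (h : IntFlow4 G φ)
    {Z : Finset V} (hZ : cs (ub φ) Z = 1) (hdeg : ∀ z ∉ Z, ∑ a, (if G.Adj a z then (1 : ℤ) else 0) ≤ 2)
    (hcard : Zᶜ.card = 3) : False := by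
  obtain ⟨h1, h2⟩ := cs_ub_one h hZ
  rw [sum_comm] at h2
  have hex : ∃ z ∈ Zᶜ, 1 < ∑ a ∈ Z, (if G.Adj a z then (1 : ℤ) else 0) := by
    by_contra hno
    push Not at hno
    have := sum_le_sum hno
    rw [h2] at this
    simp [hcard] at this
  obtain ⟨z, hz, hz1⟩ := hex
  have hz' : z ∉ Z := by simpa using hz
  have h3 := hdeg z hz'
  rw [← sum_add_sum_compl Z] at h3
  have h4 : 0 ≤ ∑ a ∈ Zᶜ, (if G.Adj a z then (1 : ℤ) else 0) :=
    sum_nonneg fun a _ => by split_ifs <;> norm_num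
  refine no_pair h hZ hz' (by omega) ?_
  have h5 : ∑ a ∈ Zᶜ, (if G.Adj a z then (1 : ℤ) else 0) = 0 := by omega
  have h6 := (sum_eq_zero_iff_of_nonneg (fun a _ => by split_ifs <;> norm_num)).1 h5
  intro b hb hadj
  have := h6 b (by simpa using hb)
  rw [if_pos hadj] at this
  norm_num at this

/-- Submodularity of cut sums. -/
theorem cs_submod (u : V → V → ℤ) (hu : ∀ v w, 0 ≤ u v w + u w v) (X Y : Finset V) :
    cs u (X ∩ Y) + cs u (X ∪ Y) ≤ cs u X + cs u Y := by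
  have ind : ∀ Z : Finset V, cs u Z = ∑ v, ∑ w, (if v ∈ Z ∧ w ∉ Z then u v w else 0) := by
    intro Z
    have h1 : ∀ v, ∑ w, (if v ∈ Z ∧ w ∉ Z then u v w else 0)
        = if v ∈ Z then ∑ w ∈ Zᶜ, u v w else 0 := by
      intro v
      by_cases hv : v ∈ Z
      · simp only [hv, true_and, if_true]
        rw [← sum_filter]
        congr 1
        ext w; simp
      · simp [hv]
    simp only [h1, cs]
    rw [sum_ite_mem, univ_inter]
  have h1 : ∑ v, ∑ w, (if v ∈ Y \ X ∧ w ∈ X \ Y then u v w else 0)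
      = ∑ v, ∑ w, (if v ∈ X \ Y ∧ w ∈ Y \ X then u w v else 0) := by
    rw [sum_comm]
    refine sum_congr rfl fun v _ => sum_congr rfl fun w _ => ?_
    simp only [and_comm]
  have h2 : 0 ≤ ∑ v, ∑ w, (if v ∈ X \ Y ∧ w ∈ Y \ X then u v w + u w v else 0) :=
    sum_nonneg fun v _ => sum_nonneg fun w _ => by
      split_ifs
      · exact hu v w
      · exact le_rfl
  have h3 : ∑ v, ∑ w, (if v ∈ X \ Y ∧ w ∈ Y \ X then u v w + u w v else 0)
      = ∑ v, ∑ w, (if v ∈ X \ Y ∧ w ∈ Y \ X then u v w else 0)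
        + ∑ v, ∑ w, (if v ∈ Y \ X ∧ w ∈ X \ Y then u v w else 0) := by
    rw [h1, ← sum_add_distrib]
    refine sum_congr rfl fun v _ => ?_
    rw [← sum_add_distrib]
    refine sum_congr rfl fun w _ => ?_
    split_ifs <;> simp
  have h4 : cs u X + cs u Y = cs u (X ∩ Y) + cs u (X ∪ Y)
      + (∑ v, ∑ w, (if v ∈ X \ Y ∧ w ∈ Y \ X then u v w else 0)
        + ∑ v, ∑ w, (if v ∈ Y \ X ∧ w ∈ X \ Y then u v w else 0)) := by
    simp only [ind, ← sum_add_distrib]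
    refine sum_congr rfl fun v _ => sum_congr rfl fun w _ => ?_
    simp only [mem_inter, mem_union, mem_sdiff]
    by_cases a : v ∈ X <;> by_cases b : v ∈ Y <;> by_cases c : w ∈ X <;> by_cases d : w ∈ Y <;>
      simp [a, b, c, d]
  omega

end MP974d84
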