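import Mathlib
import Pool.Agent.Work.MP_974d84_co.Cuts

/-!
Core argument: extension of a 4-flow by prescribed values on a few edges to a 5-flow, and the
analysis of the tight five-edge cuts in cubic graphs.
-/

namespace MP974d84

open Finset

variable {V : Type*} [Fintype V] [DecidableEq V]

/-- An integer nowhere-zero 5-flow gives nowhere-zero flows modulo every `i ≥ 5`. -/
theorem of_int_five {G : SimpleGraph V} (F : V → V → ℤ) (h1 : Anti F)
    (h2 : ∀ a b, F a b ≠ 0 ↔ G.Adj a b) (h3 : ∀ a b, F a b ≤ 4) (h4 : ∀ a, dv F a = 0) :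
    ∀ i : ℕ, 5 ≤ i → HasNZFlow (ZMod i) G := by
  intro i hi
  refine ⟨fun a b => ((F a b : ℤ) : ZMod i), fun a b => ?_, fun a b => ?_, fun a => ?_⟩
  · simp only
    rw [h1 a b]; push_cast; rfl
  · rw [← h2 a b, not_iff_not]
    constructor
    · intro h
      have h6 := (ZMod.intCast_zmod_eq_zero_iff_dvd (F a b) i).1 h
      have h7 := h3 a b
      have h8 := h3 b a
      have h9 := h1 a b
      obtain ⟨k, hk⟩ := h6
      by_contra hne
      have hk0 : k ≠ 0 := by rintro rfl; simp at hk; exact hne hk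
      have hi' : (5 : ℤ) ≤ i := by exact_mod_cast hi
      rcases lt_or_gt_of_ne hk0 with hk1 | hk1
      · nlinarith
      · nlinarith
    · intro h
      change ((F a b : ℤ) : ZMod i) = 0
      rw [h]; simp
  · have := h4 a
    rw [dv] at this
    have h5 : ((∑ w, F a w : ℤ) : ZMod i) = 0 := by rw [this]; simp
    push_cast at h5
    exact h5

/-- Extension of a 4-flow on `H` by prescribed values `ρ` on the other edges of `G`. -/
theorem extend_flow {G H : SimpleGraph V} {φ : V → V → ℤ} (h : IntFlow4 H φ) (ρ : V → V → ℤ)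
    (hρ : Anti ρ) (hsupp : ∀ a b, G.Adj a b ↔ H.Adj a b ∨ ρ a b ≠ 0)
    (hdisj : ∀ a b, H.Adj a b → ρ a b = 0) (hρ4 : ∀ a b, ρ a b ≤ 4)
    (hcut : ∀ Z : Finset V, - ∑ z ∈ Z, dv ρ z ≤ cs (ub φ) Z) :
    ∀ i : ℕ, 5 ≤ i → HasNZFlow (ZMod i) G := by
  obtain ⟨ψ, h1, h2, h3⟩ := hoffman (ub φ) (fun z => - dv ρ z) φ h.1
    (fun v w => by have := ub_sub_nonneg h.2.2.1 v w; omega)
    (by rw [sum_neg_distrib, dv_total hρ]; rfl)
    (by intro Z; rw [sum_neg_distrib]; exact hcut Z)
  refine of_int_five (fun a b => ψ a b + ρ a b) ?_ ?_ ?_ ?_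
  · intro a b
    have := h1 a b
    have := hρ a b
    simp only; omega
  · intro a b
    rw [hsupp a b, ← h.2.1 a b]
    have a1 := h1 a b
    have a2 := h2 a b
    have a3 := h2 b a
    have a4 := h.1 a b
    by_cases hadj : H.Adj a b
    · have a5 := hdisj a b hadj
      have a6 := (h.2.1 a b).2 hadj
      simp only [a5, a6, ne_eq, not_false_iff, true_or, iff_true]
      unfold ub at a2 a3
      split_ifs at a2 a3 <;> omega
    · have a6 : φ a b = 0 := by
        by_contra hne
        exact hadj ((h.2.1 a b).1 hne)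
      have a7 : φ b a = 0 := by omega
      simp only [ub, a6, a7, lt_irrefl, if_false] at a2 a3
      have a8 : ψ a b = 0 := by omega
      simp [a6, a8]
  · intro a b
    have a2 := h2 a b
    by_cases hadj : H.Adj a b
    · have a5 := hdisj a b hadj
      have : ub φ a b ≤ 4 := by unfold ub; split_ifs <;> norm_num
      omega
    · have a6 : φ a b = 0 := by
        by_contra hne
        exact hadj ((h.2.1 a b).1 hne)
      have := hρ4 a b
      simp only [ub, a6, lt_irrefl, if_false] at a2
      omega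
  · intro a
    have : dv (fun a b => ψ a b + ρ a b) a = dv ψ a + dv ρ a := by
      simp only [dv, sum_add_distrib]
    rw [this, h3 a]; simp

/-- A finite nonempty forest has fewer edges than vertices. -/
theorem forest_card {W : Type*} [Fintype W] [Nonempty W] (H : SimpleGraph W)
    [Fintype H.edgeSet] (hH : H.IsAcyclic) : H.edgeFinset.card + 1 ≤ Fintype.card W := by
  classical
  have hconn : (⊤ : SimpleGraph W).Connected := SimpleGraph.connected_top
  obtain ⟨F, h1, -, h3⟩ := hconn.exists_isTree_le_of_le_of_isAcyclic le_top hH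
  have h4 := h3.card_edgeFinset
  have h5 : H.edgeFinset.card ≤ F.edgeFinset.card := card_le_card (SimpleGraph.edgeFinset_mono h1)
  omega

/-- The number of edges leaving `Z`, as an integer double sum. -/
def gcut (G : SimpleGraph V) [DecidableRel G.Adj] (Z : Finset V) : ℤ :=
  ∑ a ∈ Z, ∑ b ∈ Zᶜ, (if G.Adj a b then (1 : ℤ) else 0)

theorem card_interedges (G : SimpleGraph V) [DecidableRel G.Adj] (Z : Finset V) :
    ((G.interedges Z Zᶜ).card : ℤ) = gcut G Z := by
  rw [gcut, ← sum_product' (s := Z) (t := Zᶜ) (f := fun a b => if G.Adj a b then (1 : ℤ) else 0),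
    SimpleGraph.interedges, Rel.interedges, card_filter]
  push_cast
  rfl

theorem deg_sum {G : SimpleGraph V} [DecidableRel G.Adj] (hG : G.IsRegularOfDegree 3) (a : V) :
    ∑ b, (if G.Adj a b then (1 : ℤ) else 0) = 3 := by
  have := hG a
  rw [← SimpleGraph.card_neighborFinset_eq_degree] at this
  rw [sum_boole]
  have h2 : (univ.filter fun b => G.Adj a b) = G.neighborFinset a := by
    ext b; simp
  rw [h2, this]; rfl

/-- In a cubic graph, an acyclic side of a five-edge cut has exactly three vertices. -/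
theorem acyclic_side {G : SimpleGraph V} [DecidableRel G.Adj] (hG : G.IsRegularOfDegree 3)
    {Z : Finset V} (h5 : gcut G Z = 5) (hac : (G.induce (Z : Set V)).IsAcyclic) : Z.card = 3 := by
  classical
  have hne : Z.Nonempty := by
    rw [nonempty_iff_ne_empty]
    rintro rfl
    simp [gcut] at h5
  have : Nonempty ((Z : Set V) : Type _) := hne.to_subtype
  have h1 := forest_card (G.induce (Z : Set V)) hac
  have h2 := (G.induce (Z : Set V)).sum_degrees_eq_twice_card_edges
  have hcard : Fintype.card ((Z : Set V) : Type _) = Z.card := by simp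
  rw [hcard] at h1
  -- total degree
  have h3 : ∑ a ∈ Z, ∑ b, (if G.Adj a b then (1 : ℤ) else 0) = 3 * Z.card := by
    rw [sum_congr rfl fun a _ => deg_sum hG a]
    simp [mul_comm]
  have h4 : ∑ a ∈ Z, ∑ b, (if G.Adj a b then (1 : ℤ) else 0)
      = ∑ a ∈ Z, ∑ b ∈ Z, (if G.Adj a b then (1 : ℤ) else 0) + gcut G Z := by
    rw [gcut, ← sum_add_distrib]
    exact sum_congr rfl fun a _ => (sum_add_sum_compl Z _).symm
  have h6 : ∑ a ∈ Z, ∑ b ∈ Z, (if G.Adj a b then (1 : ℤ) else 0)
      = ((∑ a : ((Z : Set V) : Type _), (G.induce (Z : Set V)).degree a : ℕ) : ℤ) := by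
    push_cast
    rw [← sum_coe_sort Z]
    refine sum_congr rfl fun a _ => ?_
    rw [← SimpleGraph.card_neighborFinset_eq_degree, ← sum_coe_sort Z, sum_boole]
    congr 1
    refine card_bij (fun b _ => b) ?_ ?_ ?_
    · intro b hb
      simpa using hb
    · intro b _ c _ h; exact h
    · intro b hb
      exact ⟨b, by simpa using hb, rfl⟩
  rw [h2] at h6
  push_cast at h6
  have h7 : (Z.card : ℤ) ≥ 1 := by exact_mod_cast hne.card_pos
  omega

theorem gcut_compl (G : SimpleGraph V) [DecidableRel G.Adj] (Z : Finset V) :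
    gcut G Zᶜ = gcut G Z := by
  rw [gcut, gcut, compl_compl, sum_comm]
  simp only [G.adj_comm]

theorem deg_le_two {G H : SimpleGraph V} [DecidableRel G.Adj] [DecidableRel H.Adj]
    (hG : G.IsRegularOfDegree 3) (hle : H ≤ G) {z b : V} (h1 : G.Adj b z) (h2 : ¬ H.Adj b z) :
    ∑ a, (if H.Adj a z then (1 : ℤ) else 0) ≤ 2 := by
  have h3 : ∑ a, (if G.Adj a z then (1 : ℤ) else 0) = 3 := by
    rw [← deg_sum hG z]
    exact sum_congr rfl fun a _ => by simp only [G.adj_comm]
  have h4 : ∑ a, (if H.Adj a z then (1 : ℤ) else 0) < ∑ a, (if G.Adj a z then (1 : ℤ) else 0) := by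
    apply sum_lt_sum
    · intro a _
      by_cases h : H.Adj a z
      · simp [h, hle h]
      · simp only [h, if_false]; split_ifs <;> norm_num
    · exact ⟨b, mem_univ b, by simp [h1, h2]⟩
  omega

/-- Two tight cuts (for `φ` and for `-φ`) around `x` whose five-edge cuts have acyclic sides
cannot exist when the edges at `x` carry the value `2`. -/
theorem two_tight {G H : SimpleGraph V} [DecidableRel G.Adj] [DecidableRel H.Adj]
    (hG : G.IsRegularOfDegree 3) (hle : H ≤ G) {φ : V → V → ℤ} (h : IntFlow4 H φ)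
    {x p q : V} (hxp : x ≠ p) (hxq : x ≠ q) (hpq : p ≠ q)
    (hp : φ x p = 2 ∨ φ x p = -2) (hq : φ x q = 2 ∨ φ x q = -2)
    {T T' : Finset V} (hT : cs (ub φ) T = 1) (hT' : cs (ub (fun v w => - φ v w)) T' = 1)
    (hx : x ∈ T) (hx' : x ∈ T') (h5 : gcut G T = 5) (h5' : gcut G T' = 5)
    (hd : Tᶜ.card = 3 → ∀ z ∉ T, ∃ b, G.Adj b z ∧ ¬ H.Adj b z)
    (hd' : T'ᶜ.card = 3 → ∀ z ∉ T', ∃ b, G.Adj b z ∧ ¬ H.Adj b z)
    (ha : (G.induce (T : Set V)).IsAcyclic ∨ (G.induce ((T : Set V)ᶜ)).IsAcyclic)
    (ha' : (G.induce (T' : Set V)).IsAcyclic ∨ (G.induce ((T' : Set V)ᶜ)).IsAcyclic) : False := by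
  -- a general statement for one sign
  have one : ∀ (ψ : V → V → ℤ) (S : Finset V), IntFlow4 H ψ → (ψ x p = 2 ∨ ψ x p = -2) →
      (ψ x q = 2 ∨ ψ x q = -2) → cs (ub ψ) S = 1 → x ∈ S → gcut G S = 5 →
      (Sᶜ.card = 3 → ∀ z ∉ S, ∃ b, G.Adj b z ∧ ¬ H.Adj b z) →
      ((G.induce (S : Set V)).IsAcyclic ∨ (G.induce ((S : Set V)ᶜ)).IsAcyclic) →
      S = {x, p, q} := by
    intro ψ S hψ k1 k2 k3 k4 k5 k6 k7
    obtain ⟨m1, m2⟩ := cs_ub_one hψ k3
    have hpS : p ∈ S := by
      by_contra hno
      have := m1 x k4 p hno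
      omega
    have hqS : q ∈ S := by
      by_contra hno
      have := m1 x k4 q hno
      omega
    rcases k7 with k7 | k7
    · have hc := acyclic_side hG k5 k7
      symm
      apply eq_of_subset_of_card_le
      · intro a ha
        simp only [mem_insert, mem_singleton] at ha
        rcases ha with rfl | rfl | rfl <;> assumption
      · rw [hc]
        have : ({x, p, q} : Finset V).card = 3 := by
          rw [card_insert_of_notMem, card_insert_of_notMem, card_singleton]
          · simpa using hpq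
          · simp [hxp, hxq]
        rw [this]
    · exfalso
      have hc : Sᶜ.card = 3 := by
        apply acyclic_side hG (Z := Sᶜ)
        · rw [gcut_compl]; exact k5
        · rw [coe_compl]; exact k7
      refine compl_card_ne_three hψ k3 ?_ hc
      intro z hz
      obtain ⟨b, hb1, hb2⟩ := k6 hc z hz
      exact deg_le_two hG hle hb1 hb2
  have e1 := one φ T h hp hq hT hx h5 hd ha
  have e2 := one (fun v w => - φ v w) T' h.neg (by omega) (by omega) hT' hx'
    h5' hd' ha'
  rw [e2, ← e1] at hT'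
  exact not_both h hT hT'

end MP974d84
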