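import Mathlib
import Pool.Agent.Work.MP_974d84_co.Core
import Pool.Agent.Work.MP_974d84_co.Defs
import Pool.Agent.Work.MP_974d84_co.Split

/-!
Translation between simple graphs and the multigraphs of the induction.
-/

namespace MP974d84.K

open Finset MP974d84

variable {V : Type*} [Fintype V] [DecidableEq V]

/-- Edges of `G`, oriented by an enumeration `ν` of the vertices. -/
def oe (ν : V → ℕ) (G : SimpleGraph V) [DecidableRel G.Adj] : Finset (V × V) :=
  univ.filter fun p => G.Adj p.1 p.2 ∧ ν p.1 < ν p.2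

theorem mem_oe {ν : V → ℕ} {G : SimpleGraph V} [DecidableRel G.Adj] {p : V × V} :
    p ∈ oe ν G ↔ G.Adj p.1 p.2 ∧ ν p.1 < ν p.2 := by simp [oe]

theorem D_pair {A : Type*} [AddCommGroup A] (g : V × V → A) (a : V) :
    D (Prod.fst : V × V → V) Prod.snd g a = ∑ w, (g (a, w) - g (w, a)) := by
  unfold D
  rw [sum_sub_distrib, sum_sub_distrib]
  congr 1
  · rw [Fintype.sum_prod_type, sum_eq_single a]
    · simp
    · intro b _ hb
      simp [hb]
    · simp
  · rw [Fintype.sum_prod_type_right, sum_eq_single a]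
    · simp
    · intro b _ hb
      simp [hb]
    · simp

theorem hasNZ_of_hasFlow {A : Type} [AddCommGroup A] {ν : V → ℕ} (hν : Function.Injective ν)
    {G : SimpleGraph V} [DecidableRel G.Adj]
    (h : HasFlow A (Prod.fst : V × V → V) Prod.snd (oe ν G)) : HasNZFlow A G := by
  obtain ⟨g, hg1, hg2⟩ := h
  refine ⟨fun u v => g (u, v) - g (v, u), fun u v => (neg_sub _ _).symm, fun u v => ?_,
    fun v => ?_⟩
  · have h1 := hg1 (u, v)
    have h2 := hg1 (v, u)
    rw [mem_oe] at h1 h2
    simp only at h1 h2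
    by_cases hadj : G.Adj u v
    · have hne : ν u ≠ ν v := fun h => G.ne_of_adj hadj (hν h)
      rcases lt_or_gt_of_ne hne with hlt | hlt
      · have k2 : g (v, u) = 0 := by
          by_contra hc
          exact absurd (h2.1 hc).2 (not_lt.2 hlt.le)
        have k1 := h1.2 ⟨hadj, hlt⟩
        simp [k2, k1, hadj]
      · have k1 : g (u, v) = 0 := by
          by_contra hc
          exact absurd (h1.1 hc).2 (not_lt.2 hlt.le)
        have k2 := h2.2 ⟨hadj.symm, hlt⟩
        simp [k2, k1, hadj]
    · have k1 : g (u, v) = 0 := by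
        by_contra hc
        exact hadj (h1.1 hc).1
      have k2 : g (v, u) = 0 := by
        by_contra hc
        exact hadj (h2.1 hc).1.symm
      simp [k1, k2, hadj]
  · rw [← hg2 v, D_pair]

/-- Tutte: a nowhere-zero flow modulo 5 gives nowhere-zero flows modulo every `i ≥ 5`. -/
theorem lift_five {G : SimpleGraph V} (h : HasNZFlow (ZMod 5) G) :
    ∀ i : ℕ, 5 ≤ i → HasNZFlow (ZMod i) G := by
  classical
  obtain ⟨f, hf1, hf2, hf3⟩ := h
  let e := Fintype.equivFin V
  let F : V → V → ℤ := fun v w => if e v < e w then ((f v w).val : ℤ) else - ((f w v).val : ℤ)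
  have hlt : ∀ v w, ((f v w).val : ℤ) < 5 := fun v w => by exact_mod_cast ZMod.val_lt (f v w)
  have hnn : ∀ v w, (0 : ℤ) ≤ ((f v w).val : ℤ) := fun v w => by positivity
  have hF1 : Anti F := by
    intro v w
    simp only [F]
    rcases lt_trichotomy (e v) (e w) with h | h | h
    · rw [if_pos h, if_neg (not_lt.2 h.le)]; ring
    · have : v = w := e.injective h
      subst this
      have hz : f v v = 0 := by
        by_contra hne
        exact G.loopless.irrefl v ((hf2 v v).1 hne)
      simp [hz]
    · rw [if_neg (not_lt.2 h.le), if_pos h]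
  have hFc : ∀ v w, ((F v w : ℤ) : ZMod 5) = f v w := by
    intro v w
    simp only [F]
    split_ifs
    · simp
    · push_cast
      rw [ZMod.natCast_zmod_val, hf1 v w]
  have hF2 : ∀ v w, -4 ≤ F v w ∧ F v w ≤ 4 := by
    intro v w
    have h1 := hlt v w
    have h2 := hlt w v
    have h3 := hnn v w
    have h4 := hnn w v
    simp only [F]
    split_ifs <;> constructor <;> omega
  have hF0 : ∀ v w, F v w ≠ 0 ↔ G.Adj v w := by
    intro v w
    rw [← hf2 v w]
    constructor
    · intro h h0
      apply h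
      have h5 : ((F v w : ℤ) : ZMod 5) = 0 := by rw [hFc, h0]
      have h6 := (ZMod.intCast_zmod_eq_zero_iff_dvd (F v w) 5).1 h5
      have := hF2 v w
      simp only [Nat.cast_ofNat] at h6
      omega
    · intro h h0
      apply h
      rw [← hFc, h0]; simp
  have hFd : ∀ v, (5 : ℤ) ∣ dv F v := by
    intro v
    have h5 : ((dv F v : ℤ) : ZMod 5) = 0 := by
      rw [dv]
      push_cast
      simp only [hFc]
      exact hf3 v
    simpa using (ZMod.intCast_zmod_eq_zero_iff_dvd (dv F v) 5).1 h5
  choose k hk using hFd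
  obtain ⟨g, hg1, hg2, hg3⟩ := hoffman (fun v w => if F v w < 0 then 1 else 0) (fun v => - k v)
    (fun _ _ => 0) (fun _ _ => by simp) (fun v w => by split_ifs <;> simp) (by
      have h1 : ∑ v, dv F v = 0 := dv_total hF1
      have h2 : 5 * ∑ v, k v = 0 := by
        rw [mul_sum, ← h1]
        exact sum_congr rfl fun v _ => (hk v).symm
      rw [sum_neg_distrib]; omega) (by
      intro Z
      have h1 : ∑ v ∈ Z, dv F v = cs F Z := dv_cut hF1 Z
      have h2 : 5 * ∑ v ∈ Z, k v = cs F Z := by
        rw [mul_sum, ← h1]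
        exact sum_congr rfl fun v _ => (hk v).symm
      have h3 : - cs F Z ≤ 5 * cs (fun v w => if F v w < 0 then 1 else 0) Z := by
        simp only [cs, mul_sum, ← sum_neg_distrib]
        refine sum_le_sum fun v _ => sum_le_sum fun w _ => ?_
        have := hF2 v w
        split_ifs <;> omega
      rw [sum_neg_distrib]; omega)
  refine of_int_five (fun v w => F v w + 5 * g v w) ?_ ?_ ?_ ?_
  · intro v w
    have := hF1 v w
    have := hg1 v w
    simp only; omega
  · intro v w
    rw [← hF0 v w]
    have h1 := hF1 v w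
    have h2 := hg1 v w
    have h3 := hg2 v w
    have h4 := hg2 w v
    have h5 := hF2 v w
    try simp only at h3 h4 ⊢
    split_ifs at h3 h4 <;> omega
  · intro v w
    have h1 := hF1 v w
    have h2 := hg1 v w
    have h3 := hg2 v w
    have h4 := hg2 w v
    have h5 := hF2 v w
    try simp only at h3 h4 ⊢
    split_ifs at h3 h4 <;> omega
  · intro v
    have : dv (fun v w => F v w + 5 * g v w) v = dv F v + 5 * dv g v := by
      simp only [dv, sum_add_distrib, mul_sum]
    rw [this, hg3 v, hk v]; ring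

section
variable {G : SimpleGraph V} [DecidableRel G.Adj] {ν : V → ℕ} (hν : Function.Injective ν)
include hν

theorem crs_card (Z : Finset V) :
    ((oe ν G).filter fun e => crs (Prod.fst : V × V → V) Prod.snd Z e).card =
      (G.interedges Z Zᶜ).card := by
  refine card_bij' (fun p _ => if p.1 ∈ Z then p else (p.2, p.1))
    (fun p _ => if ν p.1 < ν p.2 then p else (p.2, p.1)) ?_ ?_ ?_ ?_
  · intro p hp
    simp only [mem_filter, mem_oe, crs] at hp
    obtain ⟨⟨hadj, hlt⟩, hor⟩ := hp
    rw [SimpleGraph.mem_interedges_iff]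
    split_ifs with hc
    · rcases hor with h | h
      · exact ⟨hc, mem_compl.2 h.2, hadj⟩
      · exact absurd hc h.1
    · rcases hor with h | h
      · exact absurd h.1 hc
      · exact ⟨h.2, mem_compl.2 hc, hadj.symm⟩
  · intro p hp
    rw [SimpleGraph.mem_interedges_iff, mem_compl] at hp
    obtain ⟨h1, h2, h3⟩ := hp
    simp only [mem_filter, mem_oe, crs]
    split_ifs with hc
    · exact ⟨⟨h3, hc⟩, Or.inl ⟨h1, h2⟩⟩
    · refine ⟨⟨h3.symm, ?_⟩, Or.inr ⟨h2, h1⟩⟩
      rcases lt_trichotomy (ν p.1) (ν p.2) with h | h | h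
      · exact absurd h hc
      · exact absurd (hν h) (G.ne_of_adj h3)
      · exact h
  · intro p hp
    simp only [mem_filter, mem_oe, crs] at hp
    obtain ⟨⟨hadj, hlt⟩, hor⟩ := hp
    by_cases hc : p.1 ∈ Z
    · simp [hc, hlt]
    · simp [hc, not_lt.2 hlt.le]
  · intro p hp
    rw [SimpleGraph.mem_interedges_iff, mem_compl] at hp
    obtain ⟨h1, h2, h3⟩ := hp
    by_cases hc : ν p.1 < ν p.2
    · simp [hc, h1]
    · simp [hc, h2]

end

/-- In a graph without bridges no edge cut has exactly one edge. -/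
theorem interedges_ne_one (G : SimpleGraph V) [DecidableRel G.Adj]
    (h : ∀ e ∈ G.edgeSet, ¬ G.IsBridge e) (Z : Finset V) : (G.interedges Z Zᶜ).card ≠ 1 := by
  intro hc
  obtain ⟨⟨u, v⟩, huv⟩ := card_eq_one.1 hc
  have h1 : (u, v) ∈ G.interedges Z Zᶜ := by rw [huv]; simp
  rw [SimpleGraph.mem_interedges_iff, mem_compl] at h1
  obtain ⟨hu, hv, hadj⟩ := h1
  simp only at hu hv hadj
  have h2 := h s(u, v) hadj
  rw [SimpleGraph.isBridge_iff, not_not, SimpleGraph.reachable_iff_reflTransGen] at h2
  apply hv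
  clear hv hadj
  have key : ∀ a, Relation.ReflTransGen (G.deleteEdges {s(u, v)}).Adj u a → a ∈ Z := by
    intro a ha
    induction ha with
    | refl => exact hu
    | @tail b c _ hbc ih =>
      by_contra hcZ
      rw [SimpleGraph.deleteEdges_adj] at hbc
      have h3 : (b, c) ∈ G.interedges Z Zᶜ := by
        rw [SimpleGraph.mem_interedges_iff, mem_compl]
        exact ⟨ih, hcZ, hbc.1⟩
      rw [huv, mem_singleton, Prod.mk.injEq] at h3
      apply hbc.2
      rw [h3.1, h3.2]; rfl
  exact key v h2

end MP974d84.K
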