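import Mathlib
import Pool.Agent.Work.MP_974d84_co.Core
import Pool.Agent.Work.MP_974d84_co.Main5

/-!
Translation between simple graphs and the multigraphs of the induction, and the two final theorems.
-/

namespace MP974d84

open Finset

variable {V : Type*} [Fintype V] [DecidableEq V]

/-- Edges of `G`, oriented by an enumeration `ν` of the vertices. -/
def oe (ν : V → ℕ) (G : SimpleGraph V) [DecidableRel G.Adj] : Finset (V × V) :=
  univ.filter fun p => G.Adj p.1 p.2 ∧ ν p.1 < ν p.2

theorem mem_oe {ν : V → ℕ} {G : SimpleGraph V} [DecidableRel G.Adj] {p : V × V} :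
    p ∈ oe ν G ↔ G.Adj p.1 p.2 ∧ ν p.1 < ν p.2 := by simp [oe]

theorem D_pair {A : Type*} [AddCommGroup A] (g : V × V → A) (a : V) :
    D (Prod.fst : V × V → V) Prod.snd g a = ∑ w, (g (a, w) - g (w, a)) := by
  unfold D
  rw [sum_sub_distrib, sum_sub_distrib]
  congr 1
  · rw [Fintype.sum_prod_type, sum_eq_single a]
    · simp
    · intro b _ hb
      simp [hb]
    · simp
  · rw [Fintype.sum_prod_type_right, sum_eq_single a]
    · simp
    · intro b _ hb
      simp [hb]
    · simp

/-- The restriction of an antisymmetric function to the oriented pairs. -/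
def res {A : Type*} [AddCommGroup A] (ν : V → ℕ) (f : V → V → A) (p : V × V) : A :=
  if ν p.1 < ν p.2 then f p.1 p.2 else 0

theorem D_res {A : Type*} [AddCommGroup A] {ν : V → ℕ} (hν : Function.Injective ν)
    (f : V → V → A) (hf : ∀ u v, f u v = - f v u) (h0 : ∀ v, f v v = 0) (a : V) :
    D (Prod.fst : V × V → V) Prod.snd (res ν f) a = ∑ w, f a w := by
  rw [D_pair]
  refine sum_congr rfl fun w _ => ?_
  unfold res
  rcases lt_trichotomy (ν a) (ν w) with h | h | h
  · simp [h, not_lt.2 h.le]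
  · have : a = w := hν h
    subst this
    simp [h0]
  · simp [h, not_lt.2 h.le]
    rw [hf a w]

theorem hasNZ_of_hasFlow {A : Type} [AddCommGroup A] {ν : V → ℕ} (hν : Function.Injective ν)
    {G : SimpleGraph V} [DecidableRel G.Adj]
    (h : HasFlow A (Prod.fst : V × V → V) Prod.snd (oe ν G)) : HasNZFlow A G := by
  obtain ⟨g, hg1, hg2⟩ := h
  refine ⟨fun u v => g (u, v) - g (v, u), fun u v => (neg_sub _ _).symm, fun u v => ?_,
    fun v => ?_⟩
  · have h1 := hg1 (u, v)
    have h2 := hg1 (v, u)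
    rw [mem_oe] at h1 h2
    simp only at h1 h2
    by_cases hadj : G.Adj u v
    · have hne : ν u ≠ ν v := fun h => G.ne_of_adj hadj (hν h)
      rcases lt_or_gt_of_ne hne with hlt | hlt
      · have k2 : g (v, u) = 0 := by
          by_contra hc
          exact absurd (h2.1 hc).2 (not_lt.2 hlt.le)
        have k1 := h1.2 ⟨hadj, hlt⟩
        simp [k2, k1, hadj]
      · have k1 : g (u, v) = 0 := by
          by_contra hc
          exact absurd (h1.1 hc).2 (not_lt.2 hlt.le)
        have k2 := h2.2 ⟨hadj.symm, hlt⟩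
        simp [k2, k1, hadj]
    · have k1 : g (u, v) = 0 := by
        by_contra hc
        exact hadj (h1.1 hc).1
      have k2 : g (v, u) = 0 := by
        by_contra hc
        exact hadj (h2.1 hc).1.symm
      simp [k1, k2, hadj]
  · rw [← hg2 v, D_pair]

/-- Tutte: a nowhere-zero flow modulo 5 gives nowhere-zero flows modulo every `i ≥ 5`. -/
theorem lift_five {G : SimpleGraph V} (h : HasNZFlow (ZMod 5) G) :
    ∀ i : ℕ, 5 ≤ i → HasNZFlow (ZMod i) G := by
  classical
  obtain ⟨f, hf1, hf2, hf3⟩ := h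
  let e := Fintype.equivFin V
  let F : V → V → ℤ := fun v w => if e v < e w then ((f v w).val : ℤ) else - ((f w v).val : ℤ)
  have hlt : ∀ v w, ((f v w).val : ℤ) < 5 := fun v w => by exact_mod_cast ZMod.val_lt (f v w)
  have hnn : ∀ v w, (0 : ℤ) ≤ ((f v w).val : ℤ) := fun v w => by positivity
  have hF1 : Anti F := by
    intro v w
    simp only [F]
    rcases lt_trichotomy (e v) (e w) with h | h | h
    · rw [if_pos h, if_neg (not_lt.2 h.le)]; ring
    · have : v = w := e.injective h
      subst this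
      have hz : f v v = 0 := by
        by_contra hne
        exact G.loopless.irrefl v ((hf2 v v).1 hne)
      simp [hz]
    · rw [if_neg (not_lt.2 h.le), if_pos h]
  have hFc : ∀ v w, ((F v w : ℤ) : ZMod 5) = f v w := by
    intro v w
    simp only [F]
    split_ifs
    · simp
    · push_cast
      rw [ZMod.natCast_zmod_val, hf1 v w]
  have hF2 : ∀ v w, -4 ≤ F v w ∧ F v w ≤ 4 := by
    intro v w
    have h1 := hlt v w
    have h2 := hlt w v
    have h3 := hnn v w
    have h4 := hnn w v
    simp only [F]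
    split_ifs <;> constructor <;> omega
  have hF0 : ∀ v w, F v w ≠ 0 ↔ G.Adj v w := by
    intro v w
    rw [← hf2 v w]
    constructor
    · intro h h0
      apply h
      have h5 : ((F v w : ℤ) : ZMod 5) = 0 := by rw [hFc, h0]
      have h6 := (ZMod.intCast_zmod_eq_zero_iff_dvd (F v w) 5).1 h5
      have := hF2 v w
      simp only [Nat.cast_ofNat] at h6
      omega
    · intro h h0
      apply h
      rw [← hFc, h0]; simp
  have hFd : ∀ v, (5 : ℤ) ∣ dv F v := by
    intro v
    have h5 : ((dv F v : ℤ) : ZMod 5) = 0 := by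
      rw [dv]
      push_cast
      simp only [hFc]
      exact hf3 v
    simpa using (ZMod.intCast_zmod_eq_zero_iff_dvd (dv F v) 5).1 h5
  choose k hk using hFd
  obtain ⟨g, hg1, hg2, hg3⟩ := hoffman (fun v w => if F v w < 0 then 1 else 0) (fun v => - k v)
    (fun _ _ => 0) (fun _ _ => by simp) (fun v w => by split_ifs <;> simp) (by
      have h1 : ∑ v, dv F v = 0 := dv_total hF1
      have h2 : 5 * ∑ v, k v = 0 := by
        rw [mul_sum, ← h1]
        exact sum_congr rfl fun v _ => (hk v).symm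
      rw [sum_neg_distrib]; omega) (by
      intro Z
      have h1 : ∑ v ∈ Z, dv F v = cs F Z := dv_cut hF1 Z
      have h2 : 5 * ∑ v ∈ Z, k v = cs F Z := by
        rw [mul_sum, ← h1]
        exact sum_congr rfl fun v _ => (hk v).symm
      have h3 : - cs F Z ≤ 5 * cs (fun v w => if F v w < 0 then 1 else 0) Z := by
        simp only [cs, mul_sum, ← sum_neg_distrib]
        refine sum_le_sum fun v _ => sum_le_sum fun w _ => ?_
        have := hF2 v w
        split_ifs <;> omega
      rw [sum_neg_distrib]; omega)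
  refine of_int_five (fun v w => F v w + 5 * g v w) ?_ ?_ ?_ ?_
  · intro v w
    have := hF1 v w
    have := hg1 v w
    simp only; omega
  · intro v w
    rw [← hF0 v w]
    have h1 := hF1 v w
    have h2 := hg1 v w
    have h3 := hg2 v w
    have h4 := hg2 w v
    have h5 := hF2 v w
    try simp only at h3 h4 ⊢
    split_ifs at h3 h4 <;> omega
  · intro v w
    have h1 := hF1 v w
    have h2 := hg1 v w
    have h3 := hg2 v w
    have h4 := hg2 w v
    have h5 := hF2 v w
    try simp only at h3 h4 ⊢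
    split_ifs at h3 h4 <;> omega
  · intro v
    have : dv (fun v w => F v w + 5 * g v w) v = dv F v + 5 * dv g v := by
      simp only [dv, sum_add_distrib, mul_sum]
    rw [this, hg3 v, hk v]; ring

/-- Binary decomposition of a nowhere-zero flow modulo 4. -/
theorem bits {H : SimpleGraph V} (h : HasNZFlow (ZMod 4) H) {ν : V → ℕ}
    (hν : Function.Injective ν) [DecidableRel H.Adj] :
    ∃ β γ : V × V → ZMod 2, (∀ v, D (Prod.fst : V × V → V) Prod.snd β v = 0) ∧
      (∀ v, D (Prod.fst : V × V → V) Prod.snd γ v = 0) ∧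
      ∀ e, (β e ≠ 0 ∨ γ e ≠ 0) ↔ e ∈ oe ν H := by
  obtain ⟨φ, hφ⟩ := lift_four h
  have hge := hφ.ge
  obtain ⟨h1, h2, h3, h4⟩ := hφ
  obtain ⟨b, hb1, hb2, hb3⟩ := mod_two φ h1 h4
  have hc0 : ∃ c0 : V → V → ℤ, Anti c0 ∧ (∀ v, dv c0 v = 0) ∧ ∀ v w, φ v w = b v w + 2 * c0 v w := by
    choose c0 hc using fun v w => (hb3 v w).2
    refine ⟨c0, ?_, ?_, fun v w => by have := hc v w; omega⟩
    · intro v w
      have := hc v w
      have := hc w v
      have := h1 v w
      have := hb1 v w
      omega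
    · intro v
      have h5 : 2 * dv c0 v = dv φ v - dv b v := by
        simp only [dv, mul_sum, ← sum_sub_distrib]
        exact sum_congr rfl fun w _ => (hc v w).symm
      rw [h4 v, hb2 v] at h5
      omega
  obtain ⟨c, hc1, hc2, hc3⟩ := hc0
  have key : ∀ f : V → V → ℤ, Anti f → (∀ v, dv f v = 0) → ∀ v,
      D (Prod.fst : V × V → V) Prod.snd (fun p => ((res ν f p : ℤ) : ZMod 2)) v = 0 := by
    intro f hf hd v
    have h5 := D_map (Int.castAddHom (ZMod 2)) (Prod.fst : V × V → V) Prod.snd (res ν f) v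
    simp only [Int.coe_castAddHom] at h5
    rw [h5, D_res hν f hf (fun v => by have := hf v v; omega) v]
    have := hd v
    unfold dv at this
    rw [this]; simp
  refine ⟨fun p => ((res ν b p : ℤ) : ZMod 2), fun p => ((res ν c p : ℤ) : ZMod 2), key b hb1 hb2,
    key c hc1 hc2, fun p => ?_⟩
  rw [mem_oe]
  have cast0 : ∀ z : ℤ, ((z : ZMod 2) ≠ 0) ↔ ¬ (2 : ℤ) ∣ z := by
    intro z
    rw [Ne, ZMod.intCast_zmod_eq_zero_iff_dvd]; rfl
  simp only [cast0]
  unfold res
  by_cases hlt : ν p.1 < ν p.2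
  · simp only [hlt, if_true, and_true]
    rw [← h2 p.1 p.2]
    have a1 := hb3 p.1 p.2
    have a2 := hc3 p.1 p.2
    have a3 := h3 p.1 p.2
    have a4 := hge p.1 p.2
    omega
  · simp [hlt]

section
variable {G : SimpleGraph V} [DecidableRel G.Adj] {ν : V → ℕ} (hν : Function.Injective ν)
include hν

/-- The oriented pair of an edge. -/
theorem inc_card (hG : G.IsRegularOfDegree 3) (v : V) :
    (inc (Prod.fst : V × V → V) Prod.snd (oe ν G) v).card = 3 := by
  rw [← hG v, ← SimpleGraph.card_neighborFinset_eq_degree]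
  refine card_bij' (fun p _ => if p.1 = v then p.2 else p.1)
    (fun w _ => if ν v < ν w then (v, w) else (w, v)) ?_ ?_ ?_ ?_
  · intro p hp
    simp only [inc, mem_filter, mem_oe] at hp
    obtain ⟨⟨hadj, hlt⟩, hor⟩ := hp
    rw [SimpleGraph.mem_neighborFinset]
    split_ifs with hc
    · rw [← hc]; exact hadj
    · rw [← hor.resolve_left hc]; exact hadj.symm
  · intro w hw
    rw [SimpleGraph.mem_neighborFinset] at hw
    simp only [inc, mem_filter, mem_oe]
    split_ifs with hc
    · exact ⟨⟨hw, hc⟩, Or.inl rfl⟩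
    · refine ⟨⟨hw.symm, ?_⟩, Or.inr rfl⟩
      rcases lt_trichotomy (ν v) (ν w) with h | h | h
      · exact absurd h hc
      · exact absurd (hν h) (G.ne_of_adj hw)
      · exact h
  · intro p hp
    simp only [inc, mem_filter, mem_oe] at hp
    obtain ⟨⟨hadj, hlt⟩, hor⟩ := hp
    by_cases hc : p.1 = v
    · simp only [hc, if_true]
      rw [if_pos (hc ▸ hlt), ← hc]
    · have h2 := hor.resolve_left hc
      simp only [hc, if_false]
      rw [if_neg (by rw [← h2]; exact not_lt.2 hlt.le), ← h2]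
  · intro w hw
    rw [SimpleGraph.mem_neighborFinset] at hw
    split_ifs with hc hd
    · rfl
    · exact absurd rfl hd
    · rename_i hd
      exact absurd hd.symm (G.ne_of_adj hw)
    · rfl

theorem crs_card (Z : Finset V) :
    ((oe ν G).filter fun e => crs (Prod.fst : V × V → V) Prod.snd Z e).card =
      (G.interedges Z Zᶜ).card := by
  refine card_bij' (fun p _ => if p.1 ∈ Z then p else (p.2, p.1))
    (fun p _ => if ν p.1 < ν p.2 then p else (p.2, p.1)) ?_ ?_ ?_ ?_
  · intro p hp
    simp only [mem_filter, mem_oe, crs] at hp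
    obtain ⟨⟨hadj, hlt⟩, hor⟩ := hp
    rw [SimpleGraph.mem_interedges_iff]
    split_ifs with hc
    · rcases hor with h | h
      · exact ⟨hc, mem_compl.2 h.2, hadj⟩
      · exact absurd hc h.1
    · rcases hor with h | h
      · exact absurd h.1 hc
      · exact ⟨h.2, mem_compl.2 hc, hadj.symm⟩
  · intro p hp
    rw [SimpleGraph.mem_interedges_iff, mem_compl] at hp
    obtain ⟨h1, h2, h3⟩ := hp
    simp only [mem_filter, mem_oe, crs]
    split_ifs with hc
    · exact ⟨⟨h3, hc⟩, Or.inl ⟨h1, h2⟩⟩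
    · refine ⟨⟨h3.symm, ?_⟩, Or.inr ⟨h2, h1⟩⟩
      rcases lt_trichotomy (ν p.1) (ν p.2) with h | h | h
      · exact absurd h hc
      · exact absurd (hν h) (G.ne_of_adj h3)
      · exact h
  · intro p hp
    simp only [mem_filter, mem_oe, crs] at hp
    obtain ⟨⟨hadj, hlt⟩, hor⟩ := hp
    by_cases hc : p.1 ∈ Z
    · simp [hc, hlt]
    · simp [hc, not_lt.2 hlt.le]
  · intro p hp
    rw [SimpleGraph.mem_interedges_iff, mem_compl] at hp
    obtain ⟨h1, h2, h3⟩ := hp
    by_cases hc : ν p.1 < ν p.2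
    · simp [hc, h1]
    · simp [hc, h2]

/-- Common final step. -/
theorem final_step (hG : G.IsRegularOfDegree 3)
    (hbr : ∀ Z : Finset V, (G.interedges Z Zᶜ).card ≠ 1) (H : SimpleGraph V)
    [DecidableRel H.Adj] (hH : HasNZFlow (ZMod 4) H) (F : Finset (V × V)) (hF : F ⊆ oe ν G)
    (hHF : oe ν H = oe ν G \ F)
    (kind : (∃ v, F = inc (Prod.fst : V × V → V) Prod.snd (oe ν G) v) ∨
      (∃ e1 e2, e1 ≠ e2 ∧ F = {e1, e2})) :
    ∀ i : ℕ, 5 ≤ i → HasNZFlow (ZMod i) G := by
  apply lift_five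
  apply hasNZ_of_hasFlow hν
  refine main_cls _ _ _ _ F rfl ⟨hF, ?_, fun v => Or.inl (inc_card hν hG v), ?_, ?_, ?_⟩
  · intro e he h
    rw [mem_oe] at he
    rw [h] at he
    exact lt_irrefl _ he.2
  · intro Z
    rw [crs_card hν Z]
    exact hbr Z
  · obtain ⟨β, γ, h1, h2, h3⟩ := bits hH hν
    refine ⟨β, γ, h1, h2, fun e => ?_⟩
    rw [h3 e, hHF, mem_sdiff]
  · rcases kind with ⟨v, hv⟩ | h
    · exact Or.inl ⟨v, inc_card hν hG v, hv⟩
    · exact Or.inr h

end

/-- In a graph without bridges no edge cut has exactly one edge. -/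
theorem interedges_ne_one (G : SimpleGraph V) [DecidableRel G.Adj]
    (h : ∀ e ∈ G.edgeSet, ¬ G.IsBridge e) (Z : Finset V) : (G.interedges Z Zᶜ).card ≠ 1 := by
  intro hc
  obtain ⟨⟨u, v⟩, huv⟩ := card_eq_one.1 hc
  have h1 : (u, v) ∈ G.interedges Z Zᶜ := by rw [huv]; simp
  rw [SimpleGraph.mem_interedges_iff, mem_compl] at h1
  obtain ⟨hu, hv, hadj⟩ := h1
  simp only at hu hv hadj
  have h2 := h s(u, v) hadj
  rw [SimpleGraph.isBridge_iff, not_not, SimpleGraph.reachable_iff_reflTransGen] at h2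
  apply hv
  clear hv hadj
  have key : ∀ a, Relation.ReflTransGen (G.deleteEdges {s(u, v)}).Adj u a → a ∈ Z := by
    intro a ha
    induction ha with
    | refl => exact hu
    | @tail b c _ hbc ih =>
      by_contra hcZ
      rw [SimpleGraph.deleteEdges_adj] at hbc
      have h3 : (b, c) ∈ G.interedges Z Zᶜ := by
        rw [SimpleGraph.mem_interedges_iff, mem_compl]
        exact ⟨ih, hcZ, hbc.1⟩
      rw [huv, mem_singleton, Prod.mk.injEq] at h3
      apply hbc.2
      rw [h3.1, h3.2]; rfl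
  exact key v h2

/-- Vertex version. -/
theorem vertex_final (G : SimpleGraph V) [DecidableRel G.Adj] (hG : G.IsRegularOfDegree 3)
    (hbr : ∀ e ∈ G.edgeSet, ¬ G.IsBridge e) (v : V)
    (h4 : HasNZFlow (ZMod 4) (G.deleteIncidenceSet v)) :
    ∀ i : ℕ, 5 ≤ i → HasNZFlow (ZMod i) G := by
  classical
  let ν : V → ℕ := fun v => (Fintype.equivFin V v : ℕ)
  have hν : Function.Injective ν := fun a b h => (Fintype.equivFin V).injective (Fin.ext h)
  refine final_step hν hG (interedges_ne_one G hbr) (G.deleteIncidenceSet v) h4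
    (inc (Prod.fst : V × V → V) Prod.snd (oe ν G) v) (filter_subset _ _) ?_ (Or.inl ⟨v, rfl⟩)
  ext p
  simp only [mem_oe, mem_sdiff, inc, mem_filter, SimpleGraph.deleteIncidenceSet_adj]
  tauto

/-- Two-edge version. -/
theorem edges_final (G : SimpleGraph V) [DecidableRel G.Adj] (hG : G.IsRegularOfDegree 3)
    (hbr : ∀ e ∈ G.edgeSet, ¬ G.IsBridge e) (x y z w : V) (hxy : G.Adj x y)
    (hzw : G.Adj z w) (hne : s(x, y) ≠ s(z, w))
    (h4 : HasNZFlow (ZMod 4) (G.deleteEdges {s(x, y), s(z, w)})) :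
    ∀ i : ℕ, 5 ≤ i → HasNZFlow (ZMod i) G := by
  classical
  let ν : V → ℕ := fun v => (Fintype.equivFin V v : ℕ)
  have hν : Function.Injective ν := fun a b h => (Fintype.equivFin V).injective (Fin.ext h)
  have key : ∀ a b, G.Adj a b → ∃ p : V × V, p ∈ oe ν G ∧ ∀ q : V × V, q ∈ oe ν G →
      (s(q.1, q.2) = s(a, b) ↔ q = p) := by
    intro a b hab
    have hn : ν a ≠ ν b := fun h => G.ne_of_adj hab (hν h)
    rcases lt_or_gt_of_ne hn with h | h
    · refine ⟨(a, b), mem_oe.2 ⟨hab, h⟩, fun q hq => ?_⟩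
      have hq2 := (mem_oe.1 hq).2
      rw [Sym2.eq_iff, Prod.ext_iff]
      constructor
      · rintro (h1 | ⟨h1, h2⟩)
        · exact h1
        · rw [h1, h2] at hq2
          exact absurd hq2 (not_lt.2 h.le)
      · intro h1; exact Or.inl h1
    · refine ⟨(b, a), mem_oe.2 ⟨hab.symm, h⟩, fun q hq => ?_⟩
      have hq2 := (mem_oe.1 hq).2
      rw [Sym2.eq_iff, Prod.ext_iff]
      constructor
      · rintro (⟨h1, h2⟩ | h1)
        · rw [h1, h2] at hq2
          exact absurd hq2 (not_lt.2 h.le)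
        · exact h1
      · intro h1; exact Or.inr h1
  obtain ⟨p1, hp1, hq1⟩ := key x y hxy
  obtain ⟨p2, hp2, hq2⟩ := key z w hzw
  have hp12 : p1 ≠ p2 := by
    intro h
    apply hne
    rw [← (hq1 p1 hp1).2 rfl, ← (hq2 p1 hp1).2 h]
  refine final_step hν hG (interedges_ne_one G hbr) (G.deleteEdges {s(x, y), s(z, w)}) h4 {p1, p2} ?_ ?_
    (Or.inr ⟨p1, p2, hp12, rfl⟩)
  · intro e he
    simp only [mem_insert, mem_singleton] at he
    rcases he with rfl | rfl <;> assumption
  · ext q
    simp only [mem_sdiff, mem_insert, mem_singleton]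
    constructor
    · intro h
      rw [mem_oe, SimpleGraph.deleteEdges_adj] at h
      obtain ⟨⟨h1, h2⟩, h3⟩ := h
      have hq : q ∈ oe ν G := mem_oe.2 ⟨h1, h3⟩
      refine ⟨hq, ?_⟩
      rintro (h4 | h4)
      · exact h2 (by simp [(hq1 q hq).2 h4])
      · exact h2 (by simp [(hq2 q hq).2 h4])
    · rintro ⟨hq, h2⟩
      rw [mem_oe, SimpleGraph.deleteEdges_adj]
      refine ⟨⟨(mem_oe.1 hq).1, ?_⟩, (mem_oe.1 hq).2⟩
      intro h3
      simp only [Set.mem_insert_iff, Set.mem_singleton_iff] at h3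
      rcases h3 with h3 | h3
      · exact h2 (Or.inl ((hq1 q hq).1 h3))
      · exact h2 (Or.inr ((hq2 q hq).1 h3))

end MP974d84
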