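import Mathlib
import Pool.Agent.Work.MP_974d84_co.MFlow

/-!
Counting nowhere-zero flows modulo 5 with prescribed boundary on finitely many terminals.
-/

namespace MP974d84.J

open Finset

variable {V E : Type*} [Fintype V] [DecidableEq V] [Fintype E] [DecidableEq E] {d : ℕ}

/-- Injected amount at a vertex. -/
def inj {A : Type*} [AddCommGroup A] (att : Fin d → V) (τ : Fin d → A) (a : V) : A :=
  ∑ i, if att i = a then τ i else 0

/-- Number of nowhere-zero flows with support `S` and injection `τ` at the terminals. -/
def cnt (s t : E → V) (S : Finset E) (att : Fin d → V) (τ : Fin d → ZMod 5) : ℕ :=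
  (univ.filter fun f : E → ZMod 5 => (∀ e, f e ≠ 0 ↔ e ∈ S) ∧
    ∀ a, D s t f a = inj att τ a).card

theorem cnt_empty (s t : E → V) (att : Fin d → V) (τ : Fin d → ZMod 5) :
    cnt s t (∅ : Finset E) att τ = if ∀ a, inj att τ a = 0 then 1 else 0 := by
  have h0 : ∀ a, D s t (fun _ : E => (0 : ZMod 5)) a = 0 := fun a => by simp [D]
  unfold cnt
  by_cases h : ∀ a, inj att τ a = 0
  · rw [if_pos h, card_eq_one]
    refine ⟨fun _ => 0, ?_⟩
    ext f
    simp only [notMem_empty, iff_false, not_not, mem_filter, mem_univ, true_and, mem_singleton]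
    constructor
    · intro h'
      ext e; rw [h'.1 e]
    · rintro rfl
      exact ⟨fun _ => rfl, fun a => by rw [h0, h a]⟩
  · rw [if_neg h, card_eq_zero, filter_eq_empty_iff]
    intro f _ hf
    apply h
    intro a
    have hf0 : f = fun _ => 0 := by
      ext e
      have := hf.1 e
      simp only [notMem_empty, iff_false, not_not] at this
      rw [this]
    rw [← hf.2 a, hf0, h0]

/-- Contracting an edge onto its source. -/
def ctr (x y : V) (a : V) : V := if a = y then x else a

theorem D_ctr (s t : E → V) (x y : V) (f : E → ZMod 5) (a : V) :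
    D (fun e => ctr x y (s e)) (fun e => ctr x y (t e)) f a
      = ∑ b, if ctr x y b = a then D s t f b else 0 := by
  have h1 : ∀ b, (if ctr x y b = a then D s t f b else 0)
      = ∑ e, ((if s e = b then (if ctr x y (s e) = a then f e else 0) else 0)
        - (if t e = b then (if ctr x y (t e) = a then f e else 0) else 0)) := by
    intro b
    by_cases hb : ctr x y b = a
    · rw [if_pos hb, D]
      refine sum_congr rfl fun e _ => ?_
      by_cases h1 : s e = b <;> by_cases h2 : t e = b <;> simp [h1, h2, hb]
    · rw [if_neg hb]
      symm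
      refine sum_eq_zero fun e _ => ?_
      by_cases h1 : s e = b <;> by_cases h2 : t e = b <;> simp [h1, h2, hb]
  simp only [h1]
  rw [sum_comm]
  rw [D]
  refine sum_congr rfl fun e _ => ?_
  rw [sum_sub_distrib, sum_ite_eq, sum_ite_eq]
  simp

theorem inj_ctr (att : Fin d → V) (x y : V) (τ : Fin d → ZMod 5) (a : V) :
    inj (fun i => ctr x y (att i)) τ a = ∑ b, if ctr x y b = a then inj att τ b else 0 := by
  have h1 : ∀ b, (if ctr x y b = a then inj att τ b else 0)
      = ∑ i, (if att i = b then (if ctr x y (att i) = a then τ i else 0) else 0) := by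
    intro b
    by_cases hb : ctr x y b = a
    · rw [if_pos hb, inj]
      refine sum_congr rfl fun i _ => ?_
      by_cases h1 : att i = b <;> simp [h1, hb]
    · rw [if_neg hb]
      symm
      refine sum_eq_zero fun i _ => ?_
      by_cases h1 : att i = b <;> simp [h1, hb]
  simp only [h1]
  rw [sum_comm, inj]
  refine sum_congr rfl fun i _ => ?_
  rw [sum_ite_eq]
  simp

theorem D_update (s t : E → V) (f : E → ZMod 5) (e : E) (c : ZMod 5) (a : V) :
    D s t (Function.update f e c) a = D s t f a
      + ((if s e = a then c - f e else 0) - (if t e = a then c - f e else 0)) := by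
  have h1 : Function.update f e c = fun e' => f e' + (if e' = e then c - f e else 0) := by
    ext e'
    by_cases h : e' = e
    · subst h; simp
    · simp [h]
  rw [h1, D_add]
  congr 1
  rw [D, sum_eq_single e]
  · simp
  · intro b _ hb
    simp [hb]
  · simp

theorem cnt_insert_aux (s t : E → V) (S : Finset E) (e : E) (he : e ∉ S) (att : Fin d → V)
    (τ : Fin d → ZMod 5) :
    (univ.filter fun f : E → ZMod 5 => (∀ e', e' ≠ e → (f e' ≠ 0 ↔ e' ∈ S)) ∧
      ∀ a, D s t f a = inj att τ a).card = cnt s t S att τ + cnt s t (insert e S) att τ := by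
  rw [← card_filter_add_card_filter_not (fun f : E → ZMod 5 => f e = 0), filter_filter,
    filter_filter]
  congr 1
  · unfold cnt
    congr 1
    ext f
    simp only [mem_filter, mem_univ, true_and]
    constructor
    · rintro ⟨⟨h1, h2⟩, h3⟩
      refine ⟨fun e' => ?_, h2⟩
      by_cases h : e' = e
      · subst h; simp [h3, he]
      · exact h1 e' h
    · rintro ⟨h1, h2⟩
      refine ⟨⟨fun e' _ => h1 e', h2⟩, ?_⟩
      by_contra h
      exact he ((h1 e).1 h)
  · unfold cnt
    congr 1
    ext f
    simp only [mem_filter, mem_univ, true_and, mem_insert]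
    constructor
    · rintro ⟨⟨h1, h2⟩, h3⟩
      refine ⟨fun e' => ?_, h2⟩
      by_cases h : e' = e
      · subst h; simp [h3]
      · simp only [h, false_or]; exact h1 e' h
    · rintro ⟨h1, h2⟩
      refine ⟨⟨fun e' h => by have := h1 e'; simpa [h] using this, h2⟩, ?_⟩
      exact (h1 e).2 (Or.inl rfl)

theorem cnt_insert_loop (s t : E → V) (S : Finset E) (e : E) (he : e ∉ S) (hl : s e = t e)
    (att : Fin d → V) (τ : Fin d → ZMod 5) :
    (univ.filter fun f : E → ZMod 5 => (∀ e', e' ≠ e → (f e' ≠ 0 ↔ e' ∈ S)) ∧
      ∀ a, D s t f a = inj att τ a).card = 5 * cnt s t S att τ := by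
  have h5 : (univ : Finset (ZMod 5)).card = 5 := by simp [ZMod.card]
  have h6 : 5 * cnt s t S att τ = (univ : Finset (ZMod 5)).card * cnt s t S att τ := by rw [h5]
  rw [h6, cnt, ← card_product]
  refine card_bij' (fun f _ => (f e, Function.update f e 0))
    (fun p _ => Function.update p.2 e p.1) ?_ ?_ ?_ ?_
  · intro f hf
    simp only [mem_filter, mem_univ, true_and] at hf
    simp only [mem_product, mem_univ, mem_filter, true_and]
    refine ⟨fun e' => ?_, fun a => ?_⟩
    · by_cases h : e' = e
      · subst h; simp [he]
      · simpa [h] using hf.1 e' h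
    · rw [D_update, hf.2 a, hl]; simp
  · intro p hp
    simp only [mem_product, mem_univ, mem_filter, true_and] at hp
    simp only [mem_filter, mem_univ, true_and]
    refine ⟨fun e' h => ?_, fun a => ?_⟩
    · simpa [h] using hp.1 e'
    · rw [D_update, hp.2 a, hl]; simp
  · intro f _
    simp
  · intro p hp
    simp only [mem_product, mem_univ, mem_filter, true_and] at hp
    have : p.2 e = 0 := by
      by_contra h
      exact he ((hp.1 e).1 h)
    ext1
    · simp
    · simp [← this]

theorem cnt_insert_nonloop (s t : E → V) (S : Finset E) (e : E) (he : e ∉ S) (hl : s e ≠ t e)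
    (att : Fin d → V) (τ : Fin d → ZMod 5) :
    (univ.filter fun f : E → ZMod 5 => (∀ e', e' ≠ e → (f e' ≠ 0 ↔ e' ∈ S)) ∧
      ∀ a, D s t f a = inj att τ a).card
    = cnt (fun e' => ctr (s e) (t e) (s e')) (fun e' => ctr (s e) (t e) (t e')) S
        (fun i => ctr (s e) (t e) (att i)) τ := by
  unfold cnt
  refine card_bij' (fun f _ => Function.update f e 0)
    (fun g _ => Function.update g e (D s t g (t e) - inj att τ (t e))) ?_ ?_ ?_ ?_
  · intro f hf
    simp only [mem_filter, mem_univ, true_and] at hf ⊢
    refine ⟨fun e' => ?_, fun a => ?_⟩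
    · by_cases h : e' = e
      · subst h; simp [he]
      · simpa [h] using hf.1 e' h
    · rw [D_ctr, inj_ctr]
      have h1 : ∀ b, D s t (Function.update f e 0) b = inj att τ b
          + ((if s e = b then - f e else 0) - (if t e = b then - f e else 0)) := by
        intro b
        rw [D_update, hf.2 b]; simp
      have h2 : ∀ b, (if ctr (s e) (t e) b = a then D s t (Function.update f e 0) b else 0)
          = (if ctr (s e) (t e) b = a then inj att τ b else 0)
            + ((if s e = b then (if ctr (s e) (t e) (s e) = a then - f e else 0) else 0)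
              - (if t e = b then (if ctr (s e) (t e) (t e) = a then - f e else 0) else 0)) := by
        intro b
        rw [h1 b]
        by_cases m1 : s e = b
        · subst m1
          have m2 : ¬ t e = s e := Ne.symm hl
          by_cases hb : ctr (s e) (t e) (s e) = a <;> simp [hb, m2]
        · by_cases m2 : t e = b
          · subst m2
            by_cases hb : ctr (s e) (t e) (t e) = a <;> simp [hb, m1]
          · simp [m1, m2]
      simp only [h2, sum_add_distrib, sum_sub_distrib, sum_ite_eq, mem_univ, if_true]
      have h3 : ctr (s e) (t e) (s e) = s e := by simp [ctr, hl]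
      have h4 : ctr (s e) (t e) (t e) = s e := by simp [ctr]
      rw [h3, h4]; ring
  · intro g hg
    simp only [mem_filter, mem_univ, true_and] at hg ⊢
    refine ⟨fun e' h => ?_, fun a => ?_⟩
    · simpa [h] using hg.1 e'
    · have hge : g e = 0 := by
        by_contra h
        exact he ((hg.1 e).1 h)
      rw [D_update, hge, sub_zero]
      by_cases m2 : t e = a
      · subst m2
        simp [hl]
      · have key := hg.2 a
        rw [D_ctr, inj_ctr] at key
        by_cases m1 : s e = a
        · subst m1
          have h6 : ∀ (φ : V → ZMod 5), ∑ b, (if ctr (s e) (t e) b = s e then φ b else 0)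
              = φ (s e) + φ (t e) := by
            intro φ
            rw [← sum_pair hl, ← sum_subset (subset_univ {s e, t e})]
            · refine sum_congr rfl fun b hb => ?_
              simp only [mem_insert, mem_singleton] at hb
              rcases hb with rfl | rfl <;> simp [ctr]
            · intro b _ hb
              simp only [mem_insert, mem_singleton, not_or] at hb
              simp [ctr, hb.1, hb.2]
          rw [h6, h6] at key
          simp only [if_true, m2, if_false, sub_zero]
          linear_combination key
        · have h6 : ∀ (φ : V → ZMod 5), ∑ b, (if ctr (s e) (t e) b = a then φ b else 0) = φ a := by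
            intro φ
            rw [sum_eq_single a]
            · simp [ctr, Ne.symm m2]
            · intro b _ hb
              by_cases hbt : b = t e
              · simp [ctr, hbt, m1]
              · simp [ctr, hbt, hb]
            · simp
          rw [h6, h6] at key
          simp [m1, m2, key]
  · intro f hf
    simp only [mem_filter, mem_univ, true_and] at hf
    have h1 : D s t (Function.update f e 0) (t e) - inj att τ (t e) = f e := by
      rw [D_update, hf.2 (t e)]
      simp [hl]
    rw [h1]; simp
  · intro g hg
    simp only [mem_filter, mem_univ, true_and] at hg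
    have hge : g e = 0 := by
      by_contra h
      exact he ((hg.1 e).1 h)
    ext e'
    by_cases h : e' = e
    · subst h; simp [hge]
    · simp [h]

/-- Induction principle for the counting functions. -/
theorem cnt_ind (P : ((Fin d → ZMod 5) → ℤ) → Prop)
    (hsub : ∀ n m, P n → P m → P (fun τ => n τ - m τ)) (hmul : ∀ n, P n → P (fun τ => 4 * n τ))
    (hbase : ∀ att : Fin d → V, P (fun τ => if ∀ a, inj att τ a = 0 then 1 else 0))
    (S : Finset E) : ∀ (s t : E → V) (att : Fin d → V), P (fun τ => (cnt s t S att τ : ℤ)) := by
  induction S using Finset.induction_on with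
  | empty =>
    intro s t att
    have h1 : (fun τ => (cnt s t (∅ : Finset E) att τ : ℤ))
        = fun τ => if ∀ a, inj att τ a = 0 then (1 : ℤ) else 0 := by
      ext τ
      rw [cnt_empty]
      split_ifs <;> rfl
    rw [h1]
    exact hbase att
  | insert e S he ih =>
    intro s t att
    by_cases hl : s e = t e
    · have h1 : (fun τ => (cnt s t (insert e S) att τ : ℤ)) = fun τ => 4 * (cnt s t S att τ : ℤ) := by
        ext τ
        have h2 := cnt_insert_aux s t S e he att τ
        rw [cnt_insert_loop s t S e he hl att τ] at h2
        omega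
      rw [h1]
      exact hmul _ (ih s t att)
    · have h1 : (fun τ => (cnt s t (insert e S) att τ : ℤ))
          = fun τ => (cnt (fun e' => ctr (s e) (t e) (s e')) (fun e' => ctr (s e) (t e) (t e')) S
            (fun i => ctr (s e) (t e) (att i)) τ : ℤ) - (cnt s t S att τ : ℤ) := by
        ext τ
        have h2 := cnt_insert_aux s t S e he att τ
        rw [cnt_insert_nonloop s t S e he hl att τ] at h2
        omega
      rw [h1]
      exact hsub _ _ (ih _ _ _) (ih s t att)

/-- With at most three terminals the count does not depend on the nonzero boundary values. -/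
theorem cnt_const (hd : d ≤ 3) (s t : E → V) (S : Finset E) (att : Fin d → V)
    {τ τ' : Fin d → ZMod 5} (h1 : ∀ i, τ i ≠ 0) (h2 : ∑ i, τ i = 0) (h3 : ∀ i, τ' i ≠ 0)
    (h4 : ∑ i, τ' i = 0) : cnt s t S att τ = cnt s t S att τ' := by
  have key := cnt_ind (V := V) (E := E) (d := d) (fun n => ∀ τ τ' : Fin d → ZMod 5,
    (∀ i, τ i ≠ 0) → ∑ i, τ i = 0 → (∀ i, τ' i ≠ 0) → ∑ i, τ' i = 0 → n τ = n τ')
    (fun n m hn hm τ τ' a b c d => by simp only; rw [hn τ τ' a b c d, hm τ τ' a b c d])
    (fun n hn τ τ' a b c d => by simp only; rw [hn τ τ' a b c d]) ?_ S s t att τ τ' h1 h2 h3 h4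
  · beta_reduce at key
    exact_mod_cast key
  · intro att τ τ' a1 a2 a3 a4
    beta_reduce
    have hcase : (∀ i j, att i = att j) ∨ ∃ i, ∀ j, j ≠ i → att j ≠ att i := by
      by_contra hno
      push Not at hno
      obtain ⟨⟨i, j, hij⟩, h⟩ := hno
      obtain ⟨i', hi', hi⟩ := h i
      obtain ⟨j', hj', hj⟩ := h j
      have e1 : i ≠ j := fun h => hij (by rw [h])
      have e2 : i' ≠ j := fun h => hij (by rw [← hi, h])
      have e3 : j' ≠ i := fun h => hij (by rw [← hj, h])
      have e4 : i' ≠ j' := fun h => hij (by rw [← hi, h, hj])
      have h5 : ({i, i', j, j'} : Finset (Fin d)).card = 4 := by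
        rw [card_insert_of_notMem, card_insert_of_notMem, card_insert_of_notMem, card_singleton]
        · simp [hj'.symm]
        · simp [e2, e4]
        · simp [hi'.symm, e1, e3.symm]
      have h6 := card_le_univ ({i, i', j, j'} : Finset (Fin d))
      rw [h5, Fintype.card_fin] at h6
      omega
    rcases hcase with h | ⟨i, hi⟩
    · have key : ∀ τ : Fin d → ZMod 5, ∑ i, τ i = 0 → ∀ a, inj att τ a = 0 := by
        intro τ hs a
        unfold inj
        by_cases hex : ∃ k, att k = a
        · obtain ⟨k, hk⟩ := hex
          rw [← hs]
          exact sum_congr rfl fun i _ => by rw [if_pos ((h i k).trans hk)]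
        · push Not at hex
          exact sum_eq_zero fun i _ => if_neg (hex i)
      rw [if_pos (key τ a2), if_pos (key τ' a4)]
    · have key : ∀ τ : Fin d → ZMod 5, (∀ i, τ i ≠ 0) → ¬ ∀ a, inj att τ a = 0 := by
        intro τ hτ hc
        have := hc (att i)
        rw [inj, sum_eq_single i] at this
        · simp only [if_true] at this
          exact hτ i this
        · intro j _ hj
          exact if_neg (hi j hj)
        · simp
      rw [if_neg (key τ a1), if_neg (key τ' a3)]

end MP974d84.J
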