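import Mathlib
import Pool.Agent.Work.MP_974d84_co.J2

/-!
Basic notions for the class of graphs, and the replacement of one side of a cut.
-/

namespace MP974d84.J

open Finset

variable {V E : Type*} [Fintype V] [DecidableEq V] [Fintype E] [DecidableEq E] {d : ℕ}
variable {A : Type*} [AddCommGroup A]

/-- Edges of `S` at a vertex. -/
def inc (s t : E → V) (S : Finset E) (v : V) : Finset E := S.filter fun e => s e = v ∨ t e = v

/-- Edges of `S` in a cut. -/
def dl (s t : E → V) (S : Finset E) (Z : Finset V) : Finset E := S.filter fun e => crs s t Z e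

/-- Edges of `S` inside a set of vertices. -/
def inn (s t : E → V) (S : Finset E) (Z : Finset V) : Finset E :=
  S.filter fun e => s e ∈ Z ∧ t e ∈ Z

theorem mem_inc {s t : E → V} {S : Finset E} {v : V} {e : E} :
    e ∈ inc s t S v ↔ e ∈ S ∧ (s e = v ∨ t e = v) := by simp [inc]

theorem mem_dl {s t : E → V} {S : Finset E} {Z : Finset V} {e : E} :
    e ∈ dl s t S Z ↔ e ∈ S ∧ crs s t Z e := by simp [dl]

theorem mem_inn {s t : E → V} {S : Finset E} {Z : Finset V} {e : E} :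
    e ∈ inn s t S Z ↔ e ∈ S ∧ s e ∈ Z ∧ t e ∈ Z := by simp [inn]

/-- Vertices where a function modulo 2 is not conserved. -/
def Ts (s t : E → V) (γ : E → ZMod 2) : Finset V := univ.filter fun v => D s t γ v ≠ 0

theorem mem_Ts {s t : E → V} {γ : E → ZMod 2} {v : V} : v ∈ Ts s t γ ↔ D s t γ v ≠ 0 := by
  simp [Ts]

/-- Loopless graphs with maximum degree at most 3 without cuts of size one. -/
structure Base (s t : E → V) (S : Finset E) : Prop where
  loop : ∀ e ∈ S, s e ≠ t e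
  deg : ∀ v, (inc s t S v).card ≤ 3
  br : ∀ Z : Finset V, (dl s t S Z).card ≠ 1

/-- A pair of functions modulo 2 with joint support `S`, the first one conserved, the second one
conserved outside at most four vertices. -/
structure Str (s t : E → V) (S : Finset E) (β γ : E → ZMod 2) : Prop where
  supp : ∀ e, (β e ≠ 0 ∨ γ e ≠ 0) ↔ e ∈ S
  bD : ∀ v, D s t β v = 0
  T4 : (Ts s t γ).card ≤ 4

theorem z2_neg (z : ZMod 2) : -z = z := by
  revert z; decide

theorem z2_ne {z : ZMod 2} : z ≠ 0 ↔ z = 1 := by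
  revert z; decide

theorem D2_inc {s t : E → V} {S : Finset E} (hl : ∀ e ∈ S, s e ≠ t e) {f : E → ZMod 2}
    (hf : ∀ e, f e ≠ 0 → e ∈ S) (a : V) : D s t f a = ∑ e ∈ inc s t S a, f e := by
  rw [inc, sum_filter, D]
  symm
  have h1 : ∑ e ∈ S, (if s e = a ∨ t e = a then f e else 0)
      = ∑ e, (if s e = a ∨ t e = a then f e else 0) := by
    apply sum_subset (subset_univ S)
    intro e _ he
    have : f e = 0 := by
      by_contra h
      exact he (hf e h)
    simp [this]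
  rw [h1]
  refine sum_congr rfl fun e _ => ?_
  by_cases he : f e = 0
  · simp [he]
  · have h2 := hl e (hf e he)
    by_cases c1 : s e = a
    · have c2 : t e ≠ a := fun hc => h2 (c1.trans hc.symm)
      simp [c1, c2]
    · by_cases c2 : t e = a
      · simp [c1, c2, z2_neg]
      · simp [c1, c2]

theorem ov2 {s t : E → V} {f : E → ZMod 2} {Z : Finset V} {e : E} :
    ov s t f Z e = if crs s t Z e then f e else 0 := by
  unfold ov crs
  by_cases c1 : s e ∈ Z <;> by_cases c2 : t e ∈ Z <;> simp [c1, c2, z2_neg]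

theorem cut2 {s t : E → V} {S : Finset E} {f : E → ZMod 2}
    (hf : ∀ e, f e ≠ 0 → e ∈ S) (Z : Finset V) : ∑ a ∈ Z, D s t f a = ∑ e ∈ dl s t S Z, f e := by
  rw [D_cut, dl, sum_filter]
  simp only [ov2]
  symm
  apply sum_subset (subset_univ S)
  intro e _ he
  have : f e = 0 := by
    by_contra h
    exact he (hf e h)
  simp [this]

theorem sum_z2 {ι : Type*} (Z : Finset ι) (f : ι → ZMod 2) :
    ∑ a ∈ Z, f a = ((Z.filter fun a => f a ≠ 0).card : ZMod 2) := by
  rw [card_eq_sum_ones, Nat.cast_sum, sum_filter]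
  refine sum_congr rfl fun a _ => ?_
  by_cases h : f a = 0
  · simp [h]
  · have := z2_ne.1 h
    simp [this]

/-- Parity of the number of defects in a set. -/
theorem parity {s t : E → V} {S : Finset E} {γ : E → ZMod 2}
    (hf : ∀ e, γ e ≠ 0 → e ∈ S) (Z : Finset V) :
    (Ts s t γ ∩ Z).card % 2 = ((dl s t S Z).filter fun e => γ e ≠ 0).card % 2 := by
  have h1 := cut2 hf (s := s) (t := t) Z
  rw [sum_z2, sum_z2] at h1
  have h2 : Z.filter (fun a => D s t γ a ≠ 0) = Ts s t γ ∩ Z := by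
    ext a
    simp only [mem_filter, mem_inter, mem_Ts]
    tauto
  rw [h2] at h1
  exact (ZMod.natCast_eq_natCast_iff' _ _ 2).1 h1

theorem crs_not_inn {s t : E → V} {Z : Finset V} {e : E} (h : crs s t Z e) :
    ¬ (s e ∈ Z ∧ t e ∈ Z) := by
  rcases h with ⟨_, h2⟩ | ⟨h1, _⟩
  · exact fun hc => h2 hc.2
  · exact fun hc => h1 hc.1

/-- New endpoint map. -/
def rs (s : E → V) (Z : Finset V) (P : E → V) (e : E) : V := if s e ∈ Z then P e else s e

/-- New edge set. -/
def rS (s t : E → V) (S : Finset E) (Z : Finset V) (G0 : Finset E) : Finset E :=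
  (S.filter fun e => ¬ (s e ∈ Z ∧ t e ∈ Z)) ∪ G0

/-- Data for the replacement of the side `Z`. -/
structure Rep (s t : E → V) (S : Finset E) (Z : Finset V) (P Q : E → V) (G0 : Finset E) :
    Prop where
  hP : ∀ e, P e ∈ Z
  hQ : ∀ e, Q e ∈ Z
  hG : ∀ e ∈ G0, e ∈ S ∧ s e ∈ Z ∧ t e ∈ Z

theorem rs_mem {s : E → V} {Z : Finset V} {P : E → V} (hP : ∀ e, P e ∈ Z) (e : E) :
    rs s Z P e ∈ Z ↔ s e ∈ Z := by
  unfold rs
  split_ifs with h
  · simp [h, hP e]
  · simp [h]

theorem rs_out {s : E → V} {Z : Finset V} {P : E → V} {e : E} (h : s e ∉ Z) :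
    rs s Z P e = s e := if_neg h

theorem rs_in {s : E → V} {Z : Finset V} {P : E → V} {e : E} (h : s e ∈ Z) :
    rs s Z P e = P e := if_pos h

theorem rs_eq_out {s : E → V} {Z : Finset V} {P : E → V} (hP : ∀ e, P e ∈ Z) {a : V}
    (ha : a ∉ Z) (e : E) : rs s Z P e = a ↔ s e = a := by
  unfold rs
  split_ifs with h
  · constructor
    · intro hc; exact absurd (hc ▸ hP e) ha
    · intro hc; exact absurd (hc ▸ h) ha
  · rfl

section
variable {s t : E → V} {S : Finset E} {Z : Finset V} {P Q : E → V} {G0 : Finset E}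
  (h : Rep s t S Z P Q G0)
include h

theorem Rep.mem_S {e : E} : e ∈ rS s t S Z G0 → e ∈ S := by
  intro he
  rcases mem_union.1 he with h1 | h1
  · exact (mem_filter.1 h1).1
  · exact (h.hG e h1).1

theorem Rep.mem_out {e : E} (hn : ¬ (s e ∈ Z ∧ t e ∈ Z)) : e ∈ rS s t S Z G0 ↔ e ∈ S := by
  constructor
  · exact h.mem_S
  · intro he
    exact mem_union_left _ (mem_filter.2 ⟨he, hn⟩)

theorem Rep.mem_inn {e : E} (hn : s e ∈ Z ∧ t e ∈ Z) : e ∈ rS s t S Z G0 ↔ e ∈ G0 := by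
  constructor
  · intro he
    rcases mem_union.1 he with h1 | h1
    · exact absurd hn (mem_filter.1 h1).2
    · exact h1
  · exact mem_union_right _

theorem Rep.crs_iff (e : E) : MP974d84.crs (rs s Z P) (rs t Z Q) Z e ↔ MP974d84.crs s t Z e := by
  unfold MP974d84.crs; rw [rs_mem h.hP, rs_mem h.hQ]

theorem Rep.term {tm : Fin d → E} (hT : Term s t S Z tm) :
    Term (rs s Z P) (rs t Z Q) (rS s t S Z G0) Z tm where
  inj := hT.inj
  mem i := (h.mem_out (crs_not_inn (hT.crs i))).2 (hT.mem i)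
  crs i := (h.crs_iff _).2 (hT.crs i)
  all e he hc := hT.all e (h.mem_S he) ((h.crs_iff e).1 hc)

theorem Rep.attO_tm (e : E) : attO (rs s Z P) (rs t Z Q) Z e
    = if s e ∈ Z then rs t Z Q e else rs s Z P e := by
  unfold attO; simp only [rs_mem h.hP]

theorem Rep.attO_eq {e : E} (hc : MP974d84.crs s t Z e) :
    attO (rs s Z P) (rs t Z Q) Z e = attO s t Z e := by
  rw [h.attO_tm]
  unfold attO
  rcases hc with ⟨h1, h2⟩ | ⟨h1, h2⟩
  · rw [if_pos h1, if_pos h1, rs_out h2]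
  · rw [if_neg h1, if_neg h1, rs_out h1]

theorem Rep.attI_eq (e : E) : attI (rs s Z P) (rs t Z Q) Z e
    = if s e ∈ Z then P e else rs t Z Q e := by
  unfold attI
  simp only [rs_mem h.hP]
  split_ifs with h1
  · exact rs_in h1
  · rfl

theorem Rep.D_outP (f : E → A) (a : V) :
    D (rs s Z P) (rs t Z Q) (outP s t Z f) a = D s t (outP s t Z f) a := by
  refine sum_congr rfl fun e _ => ?_
  unfold outP
  by_cases hc : s e ∉ Z ∧ t e ∉ Z
  · rw [rs_out hc.1, rs_out hc.2]
  · simp only [hc, if_false, ite_self, sub_self]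

theorem Rep.outP_eq (f : E → A) : outP (rs s Z P) (rs t Z Q) Z f = outP s t Z f := by
  ext e
  unfold outP
  simp only [rs_mem h.hP, rs_mem h.hQ]

theorem Rep.inc_out {a : V} (ha : a ∉ Z) :
    inc (rs s Z P) (rs t Z Q) (rS s t S Z G0) a = inc s t S a := by
  ext e
  rw [mem_inc, mem_inc, rs_eq_out h.hP ha, rs_eq_out h.hQ ha]
  constructor
  · rintro ⟨h1, h2⟩
    exact ⟨h.mem_S h1, h2⟩
  · rintro ⟨h1, h2⟩
    refine ⟨(h.mem_out ?_).2 h1, h2⟩
    rintro ⟨h3, h4⟩
    rcases h2 with rfl | rfl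
    · exact ha h3
    · exact ha h4

/-- A flow of the new graph gives boundary values for the outer side. -/
theorem Rep.back {tm : Fin d → E} (hT : Term s t S Z tm)
    (hflow : HasFlow (ZMod 5) (rs s Z P) (rs t Z Q) (rS s t S Z G0)) :
    ∃ (τ : Fin d → ZMod 5) (f0 : E → ZMod 5), (∀ i, τ i ≠ 0) ∧ ∑ i, τ i = 0 ∧
      (∀ e, f0 e ≠ 0 ↔ e ∈ G0) ∧
      (∀ a, D (rs s Z P) (rs t Z Q) f0 a
        = inj (fun i => attI (rs s Z P) (rs t Z Q) Z (tm i)) τ a) ∧
      0 < cnt s t (S.filter fun e => s e ∉ Z ∧ t e ∉ Z) (fun i => attO s t Z (tm i))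
        (fun i => - τ i) := by
  obtain ⟨f, hf1, hf2⟩ := hflow
  have hT' := h.term hT
  obtain ⟨k1, k2⟩ := split_flow hT' f (fun e he => (hf1 e).1 he) hf2
  set w : Fin d → ZMod 5 := fun i => ov (rs s Z P) (rs t Z Q) f Z (tm i) with hw
  have hw0 : ∀ i, w i ≠ 0 := by
    intro i
    exact (ov_tm_ne (hT'.crs i) f).2 ((hf1 _).2 (hT'.mem i))
  have hsum : ∑ i, w i = 0 := by
    rw [← hT'.sum_eq (f := f) (fun e he => (hf1 e).1 he)]
    exact sum_ov hf2 Z
  refine ⟨fun i => - w i, innP (rs s Z P) (rs t Z Q) Z f, fun i => neg_ne_zero.2 (hw0 i), ?_, ?_, k1, ?_⟩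
  · rw [sum_neg_distrib, hsum, neg_zero]
  · intro e
    unfold innP
    simp only [rs_mem h.hP, rs_mem h.hQ]
    by_cases hc : s e ∈ Z ∧ t e ∈ Z
    · rw [if_pos hc, hf1 e, h.mem_inn hc]
    · rw [if_neg hc]
      simp only [ne_eq, not_true_eq_false, false_iff]
      exact fun hh => hc (h.hG e hh).2
  · apply card_pos.2
    refine ⟨outP s t Z f, ?_⟩
    simp only [mem_filter, mem_univ, true_and]
    refine ⟨fun e => ?_, fun a => ?_⟩
    · unfold outP
      by_cases hc : s e ∉ Z ∧ t e ∉ Z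
      · rw [if_pos hc, hf1 e, h.mem_out (fun hh => hc.1 hh.1)]
        exact ⟨fun hh => ⟨hh, hc⟩, fun hh => hh.1⟩
      · rw [if_neg hc]
        simp only [ne_eq, not_true_eq_false, false_iff]
        exact fun hh => hc hh.2
    · have a3 := k2 a
      rw [h.outP_eq, h.D_outP] at a3
      rw [a3]
      have e1 : ∀ i, attO (rs s Z P) (rs t Z Q) Z (tm i) = attO s t Z (tm i) :=
        fun i => h.attO_eq (hT.crs i)
      simp only [e1, neg_neg, hw]

/-- The cuts of the new graph which do not separate the new vertices. -/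
theorem Rep.uniform {Y : Finset V} {x : V}
    (hYP : ∀ e ∈ rS s t S Z G0, s e ∈ Z → (P e ∈ Y ↔ x ∈ Y))
    (hYQ : ∀ e ∈ rS s t S Z G0, t e ∈ Z → (Q e ∈ Y ↔ x ∈ Y)) :
    dl (rs s Z P) (rs t Z Q) (rS s t S Z G0) Y
      = dl s t S (univ.filter fun v => if v ∈ Z then x ∈ Y else v ∈ Y) := by
  ext e
  rw [mem_dl, mem_dl]
  unfold crs
  simp only [mem_filter, mem_univ, true_and]
  by_cases c1 : s e ∈ Z <;> by_cases c2 : t e ∈ Z
  · simp only [c1, c2, if_true, rs_in c1, rs_in c2]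
    constructor
    · rintro ⟨he, hc⟩
      have := hYP e he c1
      have := hYQ e he c2
      tauto
    · rintro ⟨_, hc⟩; tauto
  · simp only [c1, c2, if_true, if_false, rs_in c1, rs_out c2]
    rw [h.mem_out (fun hh => c2 hh.2)]
    constructor
    · rintro ⟨he, hc⟩
      have := hYP e ((h.mem_out (fun hh => c2 hh.2)).2 he) c1
      tauto
    · rintro ⟨he, hc⟩
      have := hYP e ((h.mem_out (fun hh => c2 hh.2)).2 he) c1
      tauto
  · simp only [c1, c2, if_true, if_false, rs_out c1, rs_in c2]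
    rw [h.mem_out (fun hh => c1 hh.1)]
    constructor
    · rintro ⟨he, hc⟩
      have := hYQ e ((h.mem_out (fun hh => c1 hh.1)).2 he) c2
      tauto
    · rintro ⟨he, hc⟩
      have := hYQ e ((h.mem_out (fun hh => c1 hh.1)).2 he) c2
      tauto
  · simp only [c1, c2, if_false, rs_out c1, rs_out c2]
    rw [h.mem_out (fun hh => c1 hh.1)]

/-- Transfer of a function modulo 2, with new values on `G0`. -/
def tr (s t : E → V) (Z : Finset V) (β b0 : E → ZMod 2) (e : E) : ZMod 2 :=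
  if s e ∈ Z ∧ t e ∈ Z then b0 e else β e

omit h in
theorem tr_out {β b0 : E → ZMod 2} {e : E} (hn : ¬ (s e ∈ Z ∧ t e ∈ Z)) :
    tr s t Z β b0 e = β e := if_neg hn

omit h in
theorem tr_in {β b0 : E → ZMod 2} {e : E} (hn : s e ∈ Z ∧ t e ∈ Z) :
    tr s t Z β b0 e = b0 e := if_pos hn

theorem Rep.tr_supp {β b0 : E → ZMod 2} (hβ : ∀ e, β e ≠ 0 → e ∈ S) (hb : ∀ e, b0 e ≠ 0 → e ∈ G0)
    (e : E) (he : tr s t Z β b0 e ≠ 0) : e ∈ rS s t S Z G0 := by
  by_cases hc : s e ∈ Z ∧ t e ∈ Z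
  · rw [tr_in hc] at he
    exact (h.mem_inn hc).2 (hb e he)
  · rw [tr_out hc] at he
    exact (h.mem_out hc).2 (hβ e he)

theorem Rep.D_tr_out (hl : ∀ e ∈ S, s e ≠ t e)
    (hl' : ∀ e ∈ rS s t S Z G0, rs s Z P e ≠ rs t Z Q e) {β b0 : E → ZMod 2}
    (hβ : ∀ e, β e ≠ 0 → e ∈ S) (hb : ∀ e, b0 e ≠ 0 → e ∈ G0) {a : V} (ha : a ∉ Z) :
    D (rs s Z P) (rs t Z Q) (tr s t Z β b0) a = D s t β a := by
  rw [D2_inc hl' (h.tr_supp hβ hb), D2_inc hl hβ, h.inc_out ha]
  refine sum_congr rfl fun e he => tr_out ?_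
  rintro ⟨h3, h4⟩
  rcases (mem_inc.1 he).2 with rfl | rfl
  · exact ha h3
  · exact ha h4

end

end MP974d84.J
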