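import Mathlib
import Pool.Agent.Work.MP_974d84_co.J3

/-!
Integer lifts with defects, and the structure of the obstructing cuts.
-/

namespace MP974d84.J

open Finset

variable {V E : Type*} [Fintype V] [DecidableEq V] [Fintype E] [DecidableEq E]

/-- Lifting a function modulo 2 to an integer function with values in `{0, 1, -1}` and prescribed
boundary. -/
theorem lift_sigma (s t : E → V) (γ : E → ZMod 2) (σ : V → ℤ)
    (hσ : ∀ v, ((σ v : ℤ) : ZMod 2) = D s t γ v) (hsum : ∑ v, σ v = 0)
    (hcut : ∀ Z : Finset V, - ∑ v ∈ Z, σ v ≤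
      ((univ.filter fun e => crs s t Z e ∧ γ e ≠ 0).card : ℤ)) :
    ∃ a : E → ℤ, (∀ e, -1 ≤ a e ∧ a e ≤ 1) ∧ (∀ v, D s t a v = σ v) ∧
      ∀ e, ((a e : ℤ) : ZMod 2) = γ e := by
  let w : E → ℤ := fun e => ((γ e).val : ℤ)
  have hw : ∀ e, w e = 0 ∨ w e = 1 := by
    intro e
    have := ZMod.val_lt (γ e)
    simp only [w]
    omega
  have hwc : ∀ e, ((w e : ℤ) : ZMod 2) = γ e := fun e => by simp [w]
  have hw1 : ∀ e, w e = if γ e ≠ 0 then 1 else 0 := by
    intro e
    by_cases h : γ e = 0
    · simp [w, h]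
    · have h1 := z2_ne.1 h
      simp only [w, h1]
      rfl
  have hev : ∀ a, (2 : ℤ) ∣ D s t w a - σ a := by
    intro a
    have h1 : ((D s t w a - σ a : ℤ) : ZMod 2) = 0 := by
      have := D_map (Int.castAddHom (ZMod 2)) s t w a
      simp only [Int.coe_castAddHom] at this
      push_cast
      rw [← this, hσ a]
      simp only [hwc]
      ring
    simpa using (ZMod.intCast_zmod_eq_zero_iff_dvd (D s t w a - σ a) 2).1 h1
  choose k hk using hev
  obtain ⟨g, hg1, hg2⟩ := hoffmanE s t (fun _ => 0) w (fun e => by have := hw e; omega) k (by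
      have h1 := D_total s t w
      have h2 : 2 * ∑ v, k v = 0 := by
        rw [mul_sum]
        have : ∑ v, 2 * k v = ∑ v, (D s t w v - σ v) := sum_congr rfl fun v _ => (hk v).symm
        rw [this, sum_sub_distrib, h1, hsum]; rfl
      omega) (by
      intro Z
      have h1 := D_cut s t w Z
      have h2 : 2 * ∑ v ∈ Z, k v = ∑ e, ov s t w Z e - ∑ v ∈ Z, σ v := by
        rw [mul_sum, ← h1, ← sum_sub_distrib]
        exact sum_congr rfl fun v _ => (hk v).symm
      have h3 : ∑ e, ov s t w Z e + ((univ.filter fun e => crs s t Z e ∧ γ e ≠ 0).card : ℤ)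
          = 2 * ∑ e, cap s t (fun _ => 0) w Z e := by
        rw [card_filter]
        push_cast
        rw [mul_sum, ← sum_add_distrib]
        refine sum_congr rfl fun e _ => ?_
        rw [cap, ov]
        unfold crs
        have h5 := hw1 e
        by_cases c1 : s e ∈ Z <;> by_cases c2 : t e ∈ Z <;> by_cases c3 : γ e = 0 <;>
          simp [c1, c2, c3, h5]
      have := hcut Z
      omega)
  refine ⟨fun e => w e - 2 * g e, fun e => ?_, fun a => ?_, fun e => ?_⟩
  · have := hg1 e
    have := hw e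
    simp only
    omega
  · have h1 : D s t (fun e => w e - 2 * g e) a = D s t w a - 2 * D s t g a := by
      simp only [D, mul_sum, ← sum_sub_distrib]
      refine sum_congr rfl fun e _ => ?_
      split_ifs <;> ring
    have := hk a
    rw [h1, hg2]; omega
  · push_cast
    rw [hwc]
    have : (2 : ZMod 2) = 0 := rfl
    rw [this]; ring

/-- The cut obstructing a flow modulo 5. -/
theorem bad_cut {s t : E → V} {S : Finset E} {β γ : E → ZMod 2}
    (supp : ∀ e, (β e ≠ 0 ∨ γ e ≠ 0) ↔ e ∈ S) (br : ∀ Z : Finset V, (dl s t S Z).card ≠ 1)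
    (hno : ¬ HasFlow (ZMod 5) s t S) {a b : E → ℤ} (ha : ∀ e, -1 ≤ a e ∧ a e ≤ 1)
    (hb : ∀ e, -1 ≤ b e ∧ b e ≤ 1) (haγ : ∀ e, ((a e : ℤ) : ZMod 2) = γ e)
    (hbβ : ∀ e, ((b e : ℤ) : ZMod 2) = β e) (hbD : ∀ v, D s t b v = 0)
    (hσ : ∀ Z : Finset V, -2 ≤ ∑ v ∈ Z, D s t a v) :
    ∃ Z : Finset V, ∑ v ∈ Z, D s t a v = -2 ∧ ((dl s t S Z).card = 2 ∨
      ((dl s t S Z).card = 6 ∧ (∀ e ∈ dl s t S Z, γ e ≠ 0) ∧
      ((dl s t S Z).filter fun e => β e ≠ 0).card = 2 ∧
      ∀ e ∈ dl s t S Z, β e = 0 → ov s t a Z e = -1)) := by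
  have ha0 : ∀ e, γ e ≠ 0 ↔ a e ≠ 0 := by
    intro e
    rw [← haγ e, ne_eq, ZMod.intCast_zmod_eq_zero_iff_dvd]
    have := ha e
    constructor
    · rintro h1 h2; exact h1 (by rw [h2]; exact dvd_zero _)
    · intro h1 h2
      obtain ⟨c, hc⟩ := h2
      push_cast at hc
      omega
  have hb0 : ∀ e, β e ≠ 0 ↔ b e ≠ 0 := by
    intro e
    rw [← hbβ e, ne_eq, ZMod.intCast_zmod_eq_zero_iff_dvd]
    have := hb e
    constructor
    · rintro h1 h2; exact h1 (by rw [h2]; exact dvd_zero _)
    · intro h1 h2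
      obtain ⟨c, hc⟩ := h2
      push_cast at hc
      omega
  set φ : E → ℤ := fun e => a e + 2 * b e with hφ
  have hφ3 : ∀ e, -3 ≤ φ e ∧ φ e ≤ 3 := by
    intro e
    have := ha e
    have := hb e
    simp only [hφ]; omega
  have hφS : ∀ e, e ∈ S ↔ φ e ≠ 0 := by
    intro e
    rw [← supp e, ha0, hb0]
    have := ha e
    have := hb e
    simp only [hφ]; omega
  obtain ⟨Z, hZ⟩ : ∃ Z, hh s t φ Z < 0 := by
    by_contra hc
    push Not at hc
    apply hno
    refine extendE (φ := φ) (ρ := fun _ => 0) hφ3 (fun _ => by norm_num) (fun _ _ => rfl)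
      (fun e => by rw [hφS e]; simp) (fun Z => ?_)
    have : ∑ e, ov s t (fun _ : E => (0 : ℤ)) Z e = 0 := sum_eq_zero fun e _ => ov_zero rfl
    rw [this]
    simpa using hc Z
  have hB := fun e => ov_abs (s := s) (t := t) (by norm_num) hb Z e
  have hA := fun e => ov_abs (s := s) (t := t) (by norm_num) ha Z e
  have hov : ∀ e, ov s t φ Z e = ov s t a Z e + 2 * ov s t b Z e := fun e => ov_comb s t a b Z e
  have hBs : ∑ e, ov s t b Z e = 0 := sum_ov hbD Z
  have hAs : ∑ e, ov s t a Z e = ∑ v ∈ Z, D s t a v := (D_cut s t a Z).symm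
  have hφs : ∑ e, ov s t φ Z e = ∑ v ∈ Z, D s t a v := by
    simp only [hov, sum_add_distrib, ← mul_sum]
    rw [hBs, hAs]; ring
  set n := ∑ v ∈ Z, D s t a v with hn
  have hn2 := hσ Z
  rw [← hn] at hn2
  have hsumd : ∑ e, (hi (ov s t φ Z e) - ov s t φ Z e) = hh s t φ Z - n := by
    rw [sum_sub_distrib, hφs]; rfl
  have hnn : ∀ e ∈ (univ : Finset E), 0 ≤ hi (ov s t φ Z e) - ov s t φ Z e := by
    intro e _
    have := hA e
    have := hB e
    exact hi_sub (by rw [hov e]; constructor <;> omega)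
  have hge : 0 ≤ hh s t φ Z - n := by rw [← hsumd]; exact sum_nonneg hnn
  have hdl : ∀ e, e ∈ dl s t S Z ↔ ov s t φ Z e ≠ 0 := by
    intro e
    rw [mem_dl]
    constructor
    · rintro ⟨h1, h2⟩
      exact (ov_tm_ne h2 φ).2 ((hφS e).1 h1)
    · intro h1
      have h2 : crs s t Z e := by
        by_contra hc
        apply h1
        unfold ov
        unfold crs at hc
        by_cases c1 : s e ∈ Z <;> by_cases c2 : t e ∈ Z <;> simp_all
      exact ⟨(hφS e).2 ((ov_tm_ne h2 φ).1 h1), h2⟩
  have hcase : hh s t φ Z = n ∨ (hh s t φ Z = -1 ∧ n = -2) := by omega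
  -- the number of edges with value -1
  have hval0 : ∀ e, hi (ov s t φ Z e) - ov s t φ Z e = 0 → ov s t φ Z e = 0 ∨ ov s t φ Z e = -1 := by
    intro e he
    have := hA e
    have := hB e
    have := hov e
    unfold hi at he
    split_ifs at he <;> omega
  rcases hcase with hc | ⟨hc, hc'⟩
  · have hz : ∀ e, ov s t φ Z e = 0 ∨ ov s t φ Z e = -1 := by
      intro e
      apply hval0
      rw [hc, sub_self] at hsumd
      exact (sum_eq_zero_iff_of_nonneg hnn).1 hsumd e (mem_univ e)
    have h5 : ((dl s t S Z).card : ℤ) = - n := by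
      rw [← hφs, ← sum_neg_distrib, card_eq_sum_ones]
      push_cast
      rw [← sum_subset (subset_univ (dl s t S Z)) (f := fun e => - ov s t φ Z e)]
      · refine sum_congr rfl fun e he => ?_
        have := (hdl e).1 he
        rcases hz e with h | h
        · exact absurd h this
        · simp [h]
      · intro e _ he
        rw [hdl e, not_not] at he
        simp [he]
    have h6 := br Z
    have h7 : (dl s t S Z).card = 2 ∧ n = -2 := by
      have : n = -1 ∨ n = -2 := by omega
      rcases this with h | h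
      · exfalso; apply h6; rw [h] at h5; omega
      · exact ⟨by rw [h] at h5; omega, h⟩
    exact ⟨Z, h7.2, Or.inl h7.1⟩
  · have hsumd1 : ∑ e, (hi (ov s t φ Z e) - ov s t φ Z e) = 1 := by
      rw [hsumd, hc, hc']; norm_num
    obtain ⟨e3, h3⟩ : ∃ e3, hi (ov s t φ Z e3) - ov s t φ Z e3 ≠ 0 := by
      by_contra hno
      push Not at hno
      rw [sum_eq_zero (fun e _ => hno e)] at hsumd1
      norm_num at hsumd1
    have h3' : hi (ov s t φ Z e3) - ov s t φ Z e3 = 1 := by
      have := single_le_sum hnn (mem_univ e3)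
      have := hnn e3 (mem_univ e3)
      omega
    have hoth : ∀ e, e ≠ e3 → hi (ov s t φ Z e) - ov s t φ Z e = 0 := by
      intro e he
      have h4 := add_sum_erase univ (fun e => hi (ov s t φ Z e) - ov s t φ Z e) (mem_univ e3)
      have h5 : ∑ e ∈ univ.erase e3, (hi (ov s t φ Z e) - ov s t φ Z e) = 0 := by
        beta_reduce at h4
        omega
      exact (sum_eq_zero_iff_of_nonneg (fun e _ => hnn e (mem_univ e))).1 h5 e
        (mem_erase.2 ⟨he, mem_univ e⟩)
    have hval : ∀ e, e ≠ e3 → ov s t φ Z e = 0 ∨ ov s t φ Z e = -1 :=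
      fun e he => hval0 e (hoth e he)
    have h3v : ov s t φ Z e3 = 3 := by
      have h7 : ov s t φ Z e3 = 3 ∨ ov s t φ Z e3 = -2 := by
        have := hA e3
        have := hB e3
        have := hov e3
        unfold hi at h3'
        split_ifs at h3' <;> omega
      rcases h7 with h7 | h7
      · exact h7
      · exfalso
        apply br Z
        rw [card_eq_one]
        refine ⟨e3, ?_⟩
        ext e
        rw [hdl, mem_singleton]
        constructor
        · intro h8
          by_contra h9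
          have h10 : ∑ e ∈ univ.erase e3, ov s t φ Z e = 0 := by
            have := add_sum_erase univ (fun e => ov s t φ Z e) (mem_univ e3)
            beta_reduce at this
            rw [hφs, hc', h7] at this
            omega
          have h11 := (sum_eq_zero_iff_of_nonpos (fun e he => by
            rcases hval e (mem_erase.1 he).1 with h | h <;> omega)).1 h10 e
            (mem_erase.2 ⟨h9, mem_univ e⟩)
          exact h8 h11
        · rintro rfl; omega
    -- five edges of value -1
    have hN : (univ.filter fun e => ov s t φ Z e = -1).card = 5 := by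
      have h4 : ∑ e, ov s t φ Z e = ∑ e, ((if e = e3 then (3 : ℤ) else 0)
          - (if ov s t φ Z e = -1 then (1 : ℤ) else 0)) := by
        refine sum_congr rfl fun e _ => ?_
        by_cases he : e = e3
        · rw [he, h3v]; simp
        · rcases hval e he with h | h <;> simp [he, h]
      rw [hφs, hc', sum_sub_distrib, sum_ite_eq', sum_boole] at h4
      simp only [mem_univ, if_true] at h4
      have : ((univ.filter fun e => ov s t φ Z e = -1).card : ℤ) = 5 := by omega
      exact_mod_cast this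
    have hdl' : dl s t S Z = insert e3 (univ.filter fun e => ov s t φ Z e = -1) := by
      ext e
      rw [hdl, mem_insert, mem_filter]
      constructor
      · intro h
        by_cases he : e = e3
        · exact Or.inl he
        · exact Or.inr ⟨mem_univ e, (hval e he).resolve_left h⟩
      · rintro (rfl | ⟨_, h⟩) <;> omega
    have hcard : (dl s t S Z).card = 6 := by
      rw [hdl', card_insert_of_notMem, hN]
      simp only [mem_filter, mem_univ, true_and]
      omega
    -- values of the two lifts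
    have hab : ∀ e, e ≠ e3 → (ov s t a Z e = 0 ∧ ov s t b Z e = 0) ∨
        (ov s t a Z e = -1 ∧ ov s t b Z e = 0) ∨ (ov s t a Z e = 1 ∧ ov s t b Z e = -1) := by
      intro e he
      have := hA e
      have := hB e
      have := hov e
      rcases hval e he with h | h <;> omega
    have hab3 : ov s t a Z e3 = 1 ∧ ov s t b Z e3 = 1 := by
      have := hA e3
      have := hB e3
      have := hov e3
      omega
    have hS2 : (univ.filter fun e => ov s t b Z e = -1).card = 1 := by
      have h4 : ∑ e, ov s t b Z e = ∑ e, ((if e = e3 then (1 : ℤ) else 0)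
          - (if ov s t b Z e = -1 then (1 : ℤ) else 0)) := by
        refine sum_congr rfl fun e _ => ?_
        by_cases he : e = e3
        · rw [he]; simp [hab3]
        · rcases hab e he with h | h | h <;> simp [he, h]
      rw [hBs, sum_sub_distrib, sum_ite_eq', sum_boole] at h4
      simp only [mem_univ, if_true] at h4
      have : ((univ.filter fun e => ov s t b Z e = -1).card : ℤ) = 1 := by omega
      exact_mod_cast this
    refine ⟨Z, hc', Or.inr ⟨hcard, ?_, ?_, ?_⟩⟩
    · intro e he
      have h5 := mem_dl.1 he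
      rw [ha0 e, ← ov_tm_ne h5.2 a]
      rw [hdl'] at he
      by_cases he3 : e = e3
      · rw [he3]; omega
      · have h6 := (hdl e).1 (by rw [hdl']; exact he)
        have := hov e
        rcases hab e he3 with h | h | h <;> omega
    · have h5 : (dl s t S Z).filter (fun e => β e ≠ 0)
          = insert e3 (univ.filter fun e => ov s t b Z e = -1) := by
        ext e
        rw [mem_filter, mem_insert, mem_filter]
        constructor
        · rintro ⟨h6, h7⟩
          by_cases he3 : e = e3
          · exact Or.inl he3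
          · right
            refine ⟨mem_univ e, ?_⟩
            have h8 := (ov_tm_ne (mem_dl.1 h6).2 b).2 ((hb0 e).1 h7)
            rcases hab e he3 with h | h | h <;> omega
        · intro h6
          have h7 : ov s t b Z e ≠ 0 := by
            rcases h6 with rfl | ⟨_, h6⟩ <;> omega
          have h8 : e ∈ dl s t S Z := by
            rw [hdl]
            rcases h6 with rfl | ⟨_, h6⟩
            · omega
            · by_cases he3 : e = e3
              · rw [he3]; omega
              · have := hov e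
                rcases hab e he3 with h | h | h <;> omega
          exact ⟨h8, (hb0 e).2 ((ov_tm_ne (mem_dl.1 h8).2 b).1 h7)⟩
      rw [h5, card_insert_of_notMem, hS2]
      simp only [mem_filter, mem_univ, true_and]
      omega
    · intro e he h0
      have h6 := (ov_tm_ne (mem_dl.1 he).2 b)
      have h7 : ov s t b Z e = 0 := by
        by_contra hc
        exact ((hb0 e).2 (h6.1 hc)) h0
      have he3 : e ≠ e3 := by rintro rfl; omega
      have h8 := (hdl e).1 he
      have := hov e
      rcases hab e he3 with h | h | h <;> omega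

/-- Prescribed boundary: sinks `P` inside the set `T`. -/
def sg (P T : Finset V) (v : V) : ℤ := if v ∈ P then -1 else if v ∈ T then 1 else 0

theorem sum_sg {P T : Finset V} (hP : P ⊆ T) (Z : Finset V) :
    ∑ v ∈ Z, sg P T v = ((T ∩ Z).card : ℤ) - 2 * ((P ∩ Z).card : ℤ) := by
  have h1 : ∀ v, sg P T v = (if v ∈ T then (1 : ℤ) else 0) - 2 * (if v ∈ P then (1 : ℤ) else 0) := by
    intro v
    unfold sg
    by_cases c1 : v ∈ P
    · have := hP c1
      simp [c1, this]
    · simp [c1]
  simp only [h1]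
  have h2 : ∀ W : Finset V, Z.filter (fun v => v ∈ W) = W ∩ Z := by
    intro W
    ext v; simp [and_comm]
  rw [sum_sub_distrib, ← mul_sum, sum_boole, sum_boole, h2, h2]

theorem exists_lift {s t : E → V} {S : Finset E} {γ : E → ZMod 2}
    (hγ : ∀ e, γ e ≠ 0 → e ∈ S) {P : Finset V} (hP : P ⊆ Ts s t γ)
    (hc : (Ts s t γ).card = 2 * P.card) (hP2 : P.card ≤ 2)
    (hfeas : ∀ Z : Finset V, (∀ e ∈ dl s t S Z, γ e = 0) → P.card = 2 → Ts s t γ ∩ Z ≠ P) :
    ∃ a : E → ℤ, (∀ e, -1 ≤ a e ∧ a e ≤ 1) ∧ (∀ v, D s t a v = sg P (Ts s t γ) v) ∧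
      ∀ e, ((a e : ℤ) : ZMod 2) = γ e := by
  refine lift_sigma s t γ (sg P (Ts s t γ)) (fun v => ?_) ?_ (fun Z => ?_)
  · unfold sg
    by_cases c1 : v ∈ Ts s t γ
    · have := z2_ne.1 (mem_Ts.1 c1)
      rw [this]
      split_ifs
      · decide
      · decide
    · have c2 : v ∉ P := fun h => c1 (hP h)
      rw [if_neg c2, if_neg c1]
      rw [mem_Ts, not_not] at c1
      rw [c1]; rfl
  · rw [sum_sg hP, inter_univ, inter_univ, hc]; push_cast; ring
  · rw [sum_sg hP]
    have h1 := parity hγ (s := s) (t := t) Z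
    have h2 : (univ.filter fun e => crs s t Z e ∧ γ e ≠ 0) = (dl s t S Z).filter fun e => γ e ≠ 0 := by
      ext e
      simp only [mem_filter, mem_univ, true_and, mem_dl]
      constructor
      · rintro ⟨h3, h4⟩
        exact ⟨⟨hγ e h4, h3⟩, h4⟩
      · rintro ⟨⟨_, h3⟩, h4⟩
        exact ⟨h3, h4⟩
    rw [h2]
    by_contra hcon
    push Not at hcon
    have h3 : P ∩ Z ⊆ Ts s t γ ∩ Z := inter_subset_inter_right hP
    have h4 := card_le_card h3
    have h5 : (P ∩ Z).card ≤ P.card := card_le_card inter_subset_left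
    have h6 : (P ∩ Z).card = 2 ∧ (Ts s t γ ∩ Z).card = 2 ∧
        ((dl s t S Z).filter fun e => γ e ≠ 0).card = 0 := by omega
    obtain ⟨h7, h8, h9⟩ := h6
    have h10 : P ∩ Z = P := eq_of_subset_of_card_le inter_subset_left (by omega)
    have h11 : P ∩ Z = Ts s t γ ∩ Z := eq_of_subset_of_card_le h3 (by omega)
    refine hfeas Z ?_ (by omega) (h11.symm.trans h10)
    intro e he
    by_contra hne
    have : e ∈ (dl s t S Z).filter fun e => γ e ≠ 0 := mem_filter.2 ⟨he, hne⟩
    rw [card_eq_zero.1 h9] at this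
    simp at this

theorem Ts_even {s t : E → V} {S : Finset E} {γ : E → ZMod 2}
    (hγ : ∀ e, γ e ≠ 0 → e ∈ S) : (Ts s t γ).card % 2 = 0 := by
  have h := parity hγ (s := s) (t := t) univ
  rw [inter_univ] at h
  rw [h]
  have : dl s t S univ = ∅ := by
    ext e
    simp [mem_dl, crs]
  rw [this]; rfl

/-- At most two defects: there is a flow. -/
theorem small_T {s t : E → V} {S : Finset E} {β γ : E → ZMod 2}
    (supp : ∀ e, (β e ≠ 0 ∨ γ e ≠ 0) ↔ e ∈ S) (br : ∀ Z : Finset V, (dl s t S Z).card ≠ 1)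
    (hβ : ∀ v, D s t β v = 0) (hT : (Ts s t γ).card ≤ 2) : HasFlow (ZMod 5) s t S := by
  by_contra hno
  have hγ : ∀ e, γ e ≠ 0 → e ∈ S := fun e he => (supp e).1 (Or.inr he)
  obtain ⟨P, hP, hPc⟩ : ∃ P, P ⊆ Ts s t γ ∧ P.card = (Ts s t γ).card / 2 :=
    exists_subset_card_eq (by omega)
  have hev := Ts_even hγ (s := s) (t := t)
  obtain ⟨a, ha1, ha2, ha3⟩ := exists_lift hγ hP (by omega) (by omega)
    (fun Z _ h => by omega)
  obtain ⟨b, hb1, hb2, hb3⟩ := lift2 s t β hβ
  have hsum : ∀ Z : Finset V, -1 ≤ ∑ v ∈ Z, D s t a v := by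
    intro Z
    simp only [ha2]
    rw [sum_sg hP]
    have h3 : P ∩ Z ⊆ Ts s t γ ∩ Z := inter_subset_inter_right hP
    have h4 := card_le_card h3
    have h5 : (P ∩ Z).card ≤ P.card := card_le_card inter_subset_left
    omega
  obtain ⟨Z, hZ, _⟩ := bad_cut supp br hno ha1 hb1 ha3 hb3 hb2
    (fun Z => by have := hsum Z; omega)
  have := hsum Z
  omega

/-- The obstructing cuts. -/
structure Bad (s t : E → V) (S : Finset E) (β γ : E → ZMod 2) (a : E → ℤ) (X : Finset V) :
    Prop where
  six : (dl s t S X).card = 6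
  H : ∀ e ∈ dl s t S X, γ e ≠ 0
  two : ((dl s t S X).filter fun e => β e ≠ 0).card = 2
  dir : ∀ e ∈ dl s t S X, β e = 0 → ov s t a X e = -1

/-- Existence of an obstructing cut for a given lift. -/
theorem exists_bad {s t : E → V} {S : Finset E} {β γ : E → ZMod 2}
    (supp : ∀ e, (β e ≠ 0 ∨ γ e ≠ 0) ↔ e ∈ S) (br : ∀ Z : Finset V, (dl s t S Z).card ≠ 1)
    (br2 : ∀ Z : Finset V, (dl s t S Z).card ≠ 2)
    (hβ : ∀ v, D s t β v = 0) (hno : ¬ HasFlow (ZMod 5) s t S) {P : Finset V}
    (hP : P ⊆ Ts s t γ) (hc : (Ts s t γ).card = 4) (hP2 : P.card = 2) {a : E → ℤ}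
    (ha1 : ∀ e, -1 ≤ a e ∧ a e ≤ 1) (ha2 : ∀ v, D s t a v = sg P (Ts s t γ) v)
    (ha3 : ∀ e, ((a e : ℤ) : ZMod 2) = γ e) :
    ∃ X : Finset V, Ts s t γ ∩ X = P ∧ Bad s t S β γ a X := by
  obtain ⟨b, hb1, hb2, hb3⟩ := lift2 s t β hβ
  have hsum : ∀ Z : Finset V, ∑ v ∈ Z, D s t a v
      = ((Ts s t γ ∩ Z).card : ℤ) - 2 * ((P ∩ Z).card : ℤ) := by
    intro Z
    simp only [ha2]
    exact sum_sg hP Z
  obtain ⟨X, hX, hX'⟩ := bad_cut supp br hno ha1 hb1 ha3 hb3 hb2 (fun Z => by
    rw [hsum Z]
    have h3 : P ∩ Z ⊆ Ts s t γ ∩ Z := inter_subset_inter_right hP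
    have h4 := card_le_card h3
    have h5 : (P ∩ Z).card ≤ P.card := card_le_card inter_subset_left
    omega)
  rcases hX' with h | ⟨h1, h2, h3, h4⟩
  · exact absurd h (br2 X)
  · refine ⟨X, ?_, ⟨h1, h2, h3, h4⟩⟩
    rw [hsum X] at hX
    have h3 : P ∩ X ⊆ Ts s t γ ∩ X := inter_subset_inter_right hP
    have h4 := card_le_card h3
    have h5 : (P ∩ X).card ≤ P.card := card_le_card inter_subset_left
    have h10 : P ∩ X = P := eq_of_subset_of_card_le inter_subset_left (by omega)
    have h11 : P ∩ X = Ts s t γ ∩ X := eq_of_subset_of_card_le h3 (by omega)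
    exact h11.symm.trans h10

end MP974d84.J
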