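import Mathlib
import Pool.Agent.Work.MP_974d84_co.J4

/-!
Minimal counterexamples: cuts of size at most three.
-/

namespace MP974d84.J

open Finset

variable {V E : Type*} [Fintype V] [DecidableEq V] [Fintype E] [DecidableEq E] {d : ℕ}

section
variable {s t : E → V} {S : Finset E} {Z : Finset V} {P Q : E → V} {G0 : Finset E}
  (h : Rep s t S Z P Q G0)
include h

theorem Rep.loop' (hl : ∀ e ∈ S, s e ≠ t e) (hG : ∀ e ∈ G0, P e ≠ Q e) :
    ∀ e ∈ rS s t S Z G0, rs s Z P e ≠ rs t Z Q e := by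
  intro e he
  by_cases c1 : s e ∈ Z <;> by_cases c2 : t e ∈ Z
  · rw [rs_in c1, rs_in c2]
    exact hG e ((h.mem_inn ⟨c1, c2⟩).1 he)
  · rw [rs_in c1, rs_out c2]
    intro hc; exact c2 (hc ▸ h.hP e)
  · rw [rs_out c1, rs_in c2]
    intro hc; exact c1 (hc ▸ h.hQ e)
  · rw [rs_out c1, rs_out c2]
    exact hl e (h.mem_S he)

theorem Rep.mem_inc_in {K : E → V} (hK : ∀ e ∈ dl s t S Z, P e = K e ∧ Q e = K e) {a : V}
    (ha : a ∈ Z) (e : E) : e ∈ inc (rs s Z P) (rs t Z Q) (rS s t S Z G0) a ↔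
      (e ∈ dl s t S Z ∧ K e = a) ∨ (e ∈ G0 ∧ (P e = a ∨ Q e = a)) := by
  rw [mem_inc]
  by_cases c1 : s e ∈ Z <;> by_cases c2 : t e ∈ Z
  · rw [rs_in c1, rs_in c2, h.mem_inn ⟨c1, c2⟩]
    have : e ∉ dl s t S Z := by
      rw [mem_dl]; unfold crs; tauto
    simp [this]
  · rw [rs_in c1, rs_out c2, h.mem_out (fun hh => c2 hh.2)]
    have h1 : e ∈ dl s t S Z ↔ e ∈ S := by
      rw [mem_dl]; unfold crs; tauto
    have h2 : e ∉ G0 := fun hh => c2 (h.hG e hh).2.2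
    rw [h1]
    constructor
    · rintro ⟨h3, h4⟩
      left
      refine ⟨h3, ?_⟩
      rcases h4 with h4 | h4
      · rw [← (hK e (h1.2 h3)).1]; exact h4
      · exact absurd (h4 ▸ ha) c2
    · rintro (⟨h3, h4⟩ | ⟨h3, _⟩)
      · exact ⟨h3, Or.inl ((hK e (h1.2 h3)).1.trans h4)⟩
      · exact absurd h3 h2
  · rw [rs_out c1, rs_in c2, h.mem_out (fun hh => c1 hh.1)]
    have h1 : e ∈ dl s t S Z ↔ e ∈ S := by
      rw [mem_dl]; unfold crs; tauto
    have h2 : e ∉ G0 := fun hh => c1 (h.hG e hh).2.1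
    rw [h1]
    constructor
    · rintro ⟨h3, h4⟩
      left
      refine ⟨h3, ?_⟩
      rcases h4 with h4 | h4
      · exact absurd (h4 ▸ ha) c1
      · rw [← (hK e (h1.2 h3)).2]; exact h4
    · rintro (⟨h3, h4⟩ | ⟨h3, _⟩)
      · exact ⟨h3, Or.inr ((hK e (h1.2 h3)).2.trans h4)⟩
      · exact absurd h3 h2
  · rw [rs_out c1, rs_out c2]
    have h1 : e ∉ dl s t S Z := by
      rw [mem_dl]; unfold crs; tauto
    have h2 : e ∉ G0 := fun hh => c1 (h.hG e hh).2.1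
    simp only [h1, h2, false_and, or_self, iff_false, not_and, not_or]
    intro _
    constructor
    · rintro rfl; exact c1 ha
    · rintro rfl; exact c2 ha

theorem Rep.attI_K {K : E → V} (hK : ∀ e ∈ dl s t S Z, P e = K e ∧ Q e = K e) {e : E}
    (he : e ∈ dl s t S Z) : attI (rs s Z P) (rs t Z Q) Z e = K e := by
  rw [h.attI_eq]
  rcases (mem_dl.1 he).2 with ⟨h1, h2⟩ | ⟨h1, h2⟩
  · rw [if_pos h1]; exact (hK e he).1
  · rw [if_neg h1, rs_in h2]; exact (hK e he).2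

/-- The boundary of a transferred function at a new vertex. -/
theorem Rep.D_tr_in (hl' : ∀ e ∈ rS s t S Z G0, rs s Z P e ≠ rs t Z Q e) {β b0 : E → ZMod 2}
    (hβ : ∀ e, β e ≠ 0 → e ∈ S) (hb : ∀ e, b0 e ≠ 0 → e ∈ G0) (a : V) :
    D (rs s Z P) (rs t Z Q) (tr s t Z β b0) a
      = ∑ e ∈ inc (rs s Z P) (rs t Z Q) (rS s t S Z G0) a, tr s t Z β b0 e :=
  D2_inc hl' (h.tr_supp hβ hb) a

theorem Rep.supp' {β γ b0 c0 : E → ZMod 2} (supp : ∀ e, (β e ≠ 0 ∨ γ e ≠ 0) ↔ e ∈ S)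
    (hb : ∀ e, (b0 e ≠ 0 ∨ c0 e ≠ 0) ↔ e ∈ G0) (e : E) :
    (tr s t Z β b0 e ≠ 0 ∨ tr s t Z γ c0 e ≠ 0) ↔ e ∈ rS s t S Z G0 := by
  by_cases hc : s e ∈ Z ∧ t e ∈ Z
  · rw [tr_in hc, tr_in hc, hb e, h.mem_inn hc]
  · rw [tr_out hc, tr_out hc, supp e, h.mem_out hc]

/-- The defects of a transferred function. -/
theorem Rep.Ts_sub (hl : ∀ e ∈ S, s e ≠ t e)
    (hl' : ∀ e ∈ rS s t S Z G0, rs s Z P e ≠ rs t Z Q e) {γ c0 : E → ZMod 2}
    (hγ : ∀ e, γ e ≠ 0 → e ∈ S) (hc : ∀ e, c0 e ≠ 0 → e ∈ G0) {W : Finset V}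
    (hW : ∀ a ∈ Z, D (rs s Z P) (rs t Z Q) (tr s t Z γ c0) a ≠ 0 → a ∈ W) :
    Ts (rs s Z P) (rs t Z Q) (tr s t Z γ c0) ⊆ (Ts s t γ \ Z) ∪ W := by
  intro a ha
  rw [mem_Ts] at ha
  by_cases haZ : a ∈ Z
  · exact mem_union_right _ (hW a haZ ha)
  · rw [h.D_tr_out hl hl' hγ hc haZ] at ha
    exact mem_union_left _ (mem_sdiff.2 ⟨mem_Ts.2 ha, haZ⟩)

theorem Rep.card_lt {x y : ℕ} (hx : G0.card = x) (hy : (inn s t S Z).card = y) (hxy : x < y) :
    (rS s t S Z G0).card < S.card := by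
  have h1 := card_filter_add_card_filter_not (s := S) (fun e => s e ∈ Z ∧ t e ∈ Z)
  have h2 : (rS s t S Z G0).card ≤ (S.filter fun e => ¬ (s e ∈ Z ∧ t e ∈ Z)).card + G0.card :=
    card_union_le _ _
  unfold inn at hy
  omega

end

/-- A counterexample with as few edges as possible. -/
structure Ctx (s t : E → V) (S : Finset E) : Prop where
  base : Base s t S
  hno : ¬ HasFlow (ZMod 5) s t S
  ih : ∀ (s' t' : E → V) (S' : Finset E) (β' γ' : E → ZMod 2), S'.card < S.card →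
    Base s' t' S' → Str s' t' S' β' γ' → HasFlow (ZMod 5) s' t' S'

theorem Str.g {s t : E → V} {S : Finset E} {β γ : E → ZMod 2} (h : Str s t S β γ) :
    ∀ e, γ e ≠ 0 → e ∈ S := fun e he => (h.supp e).1 (Or.inr he)

theorem Str.b {s t : E → V} {S : Finset E} {β γ : E → ZMod 2} (h : Str s t S β γ) :
    ∀ e, β e ≠ 0 → e ∈ S := fun e he => (h.supp e).1 (Or.inl he)

theorem Ctx.four {s t : E → V} {S : Finset E} {β γ : E → ZMod 2} (hC : Ctx s t S)
    (h : Str s t S β γ) : (Ts s t γ).card = 4 := by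
  have h1 := Ts_even h.g (s := s) (t := t)
  have h2 := h.T4
  have h3 : ¬ (Ts s t γ).card ≤ 2 := fun hc => hC.hno (small_T h.supp hC.base.br h.bD hc)
  omega

theorem dl_compl (s t : E → V) (S : Finset E) (Z : Finset V) : dl s t S Zᶜ = dl s t S Z := by
  ext e; rw [mem_dl, mem_dl, crs_compl]

/-- Contraction of one side of a small cut. -/
theorem Ctx.contract {s t : E → V} {S : Finset E} {β γ : E → ZMod 2} (hC : Ctx s t S)
    (h : Str s t S β γ) {Z : Finset V} (hd : (dl s t S Z).card ≤ 3)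
    (hi : (inn s t S Z).Nonempty) {k0 : V} (hk : k0 ∈ Z) :
    HasFlow (ZMod 5) (rs s Z fun _ => k0) (rs t Z fun _ => k0) (rS s t S Z ∅) := by
  have hR : Rep s t S Z (fun _ => k0) (fun _ => k0) ∅ :=
    ⟨fun _ => hk, fun _ => hk, fun e he => absurd he (notMem_empty e)⟩
  have hl' := hR.loop' hC.base.loop (fun e he => absurd he (notMem_empty e))
  have hK : ∀ e ∈ dl s t S Z, (fun _ : E => k0) e = (fun _ => k0) e ∧
      (fun _ : E => k0) e = (fun _ => k0) e := fun _ _ => ⟨rfl, rfl⟩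
  have hinc : ∀ a ∈ Z, ∀ e, e ∈ inc (rs s Z fun _ => k0) (rs t Z fun _ => k0) (rS s t S Z ∅) a ↔
      e ∈ dl s t S Z ∧ k0 = a := by
    intro a ha e
    rw [hR.mem_inc_in hK ha]
    simp
  have h0 : ∀ e : E, ((fun _ : E => (0 : ZMod 2)) e) ≠ 0 → e ∈ (∅ : Finset E) :=
    fun e he => absurd rfl he
  have hz : ∀ f : E → ZMod 2, (∀ e, f e ≠ 0 → e ∈ S) → ∀ a ∈ Z, a ≠ k0 →
      D (rs s Z fun _ => k0) (rs t Z fun _ => k0) (tr s t Z f fun _ => 0) a = 0 := by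
    intro f hf a ha hak
    rw [hR.D_tr_in hl' hf h0]
    apply sum_eq_zero
    intro e he
    exact absurd ((hinc a ha e).1 he).2.symm hak
  refine hC.ih _ _ _ (tr s t Z β fun _ => 0) (tr s t Z γ fun _ => 0) ?_ ⟨hl', ?_, ?_⟩
    ⟨?_, ?_, ?_⟩
  · exact hR.card_lt card_empty rfl (card_pos.2 hi)
  · intro a
    by_cases ha : a ∈ Z
    · refine (card_le_card ?_).trans hd
      intro e he
      exact ((hinc a ha e).1 he).1
    · rw [hR.inc_out ha]; exact hC.base.deg a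
  · intro Y
    rw [hR.uniform (x := k0) (fun _ _ _ => Iff.rfl) (fun _ _ _ => Iff.rfl)]
    exact hC.base.br _
  · exact hR.supp' h.supp (by simp)
  · intro a
    by_cases ha : a ∈ Z
    · by_cases hak : a = k0
      · subst hak
        have h1 := D_total (rs s Z fun _ => a) (rs t Z fun _ => a) (tr s t Z β fun _ => 0)
        rw [sum_eq_single a] at h1
        · exact h1
        · intro b _ hb
          by_cases hbZ : b ∈ Z
          · exact hz β h.b b hbZ hb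
          · rw [hR.D_tr_out hC.base.loop hl' h.b h0 hbZ]; exact h.bD b
        · simp
      · exact hz β h.b a ha hak
    · rw [hR.D_tr_out hC.base.loop hl' h.b h0 ha]; exact h.bD a
  · have h1 : Ts (rs s Z fun _ => k0) (rs t Z fun _ => k0) (tr s t Z γ fun _ => 0)
        ⊆ (Ts s t γ \ Z) ∪ {k0} := by
      refine hR.Ts_sub hC.base.loop hl' h.g h0 (fun a ha hne => ?_)
      rw [mem_singleton]
      by_contra hak
      exact hne (hz γ h.g a ha hak)
    have h2 := card_le_card h1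
    have h3 := card_union_le (Ts s t γ \ Z) {k0}
    have h4 : (Ts s t γ \ Z).card ≤ (Ts s t γ).card := card_le_card sdiff_subset
    have h5 := h.T4
    have h6 : ∀ e, tr s t Z γ (fun _ => 0) e ≠ 0 → e ∈ rS s t S Z ∅ := hR.tr_supp h.g h0
    have h7 := Ts_even h6 (s := rs s Z fun _ => k0) (t := rs t Z fun _ => k0)
    rw [card_singleton] at h3
    omega

theorem filter_compl (s t : E → V) (S : Finset E) (Z : Finset V) :
    (S.filter fun e => s e ∉ Zᶜ ∧ t e ∉ Zᶜ) = S.filter fun e => s e ∈ Z ∧ t e ∈ Z := by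
  ext e; simp

/-- Small cuts are trivial. -/
theorem Ctx.small {s t : E → V} {S : Finset E} {β γ : E → ZMod 2} (hC : Ctx s t S)
    (h : Str s t S β γ) {Z : Finset V} (hd : (dl s t S Z).card ≤ 3) :
    inn s t S Z = ∅ ∨ inn s t S Zᶜ = ∅ := by
  by_contra hc
  push Not at hc
  obtain ⟨hi, hi'⟩ := hc
  obtain ⟨e1, he1⟩ := hi
  obtain ⟨e2, he2⟩ := hi'
  obtain ⟨n, hn⟩ : ∃ n, (dl s t S Z).card = n := ⟨_, rfl⟩
  obtain ⟨tm, hT⟩ := exists_term s t S Z hn
  have hR : Rep s t S Z (fun _ => s e1) (fun _ => s e1) ∅ :=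
    ⟨fun _ => (mem_inn.1 he1).2.1, fun _ => (mem_inn.1 he1).2.1,
      fun e he => absurd he (notMem_empty e)⟩
  have hR' : Rep s t S Zᶜ (fun _ => s e2) (fun _ => s e2) ∅ :=
    ⟨fun _ => (mem_inn.1 he2).2.1, fun _ => (mem_inn.1 he2).2.1,
      fun e he => absurd he (notMem_empty e)⟩
  obtain ⟨τ, _, k1, k2, _, _, k3⟩ := hR.back hT (hC.contract h hd ⟨e1, he1⟩ (mem_inn.1 he1).2.1)
  obtain ⟨τ', _, l1, l2, _, _, l3⟩ := hR'.back hT.compl
    (hC.contract h (by rw [dl_compl]; exact hd) ⟨e2, he2⟩ (mem_inn.1 he2).2.1)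
  rw [filter_compl] at l3
  have e3 : (fun i => attO s t Zᶜ (tm i)) = fun i => attI s t Z (tm i) := by
    ext i; exact attO_compl (hT.crs i)
  rw [e3] at l3
  have e4 := cnt_const (V := V) (hn ▸ hd) s t (S.filter fun e => s e ∈ Z ∧ t e ∈ Z)
    (fun i => attI s t Z (tm i)) (τ := τ) (τ' := fun i => - τ' i) k1 k2
    (fun i => neg_ne_zero.2 (l1 i)) (by rw [sum_neg_distrib, l2, neg_zero])
  rcases glue hT hC.hno τ k1 with h5 | h5
  · omega
  · omega

end MP974d84.J
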