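import Mathlib
import Pool.Agent.Work.MP_974d84_co.J5

/-!
Minimal counterexamples are cubic, have no cuts of size two and only trivial cuts of size three.
-/

namespace MP974d84.J

open Finset

variable {V E : Type*} [Fintype V] [DecidableEq V] [Fintype E] [DecidableEq E] {d : ℕ}

/-- Vertices of `Z` which are not isolated. -/
def nv (s t : E → V) (S : Finset E) (Z : Finset V) : Finset V :=
  Z.filter fun v => inc s t S v ≠ ∅

theorem mem_nv {s t : E → V} {S : Finset E} {Z : Finset V} {v : V} :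
    v ∈ nv s t S Z ↔ v ∈ Z ∧ inc s t S v ≠ ∅ := by simp [nv]

theorem handshake {s t : E → V} {S : Finset E} (hl : ∀ e ∈ S, s e ≠ t e) (Z : Finset V) :
    ∑ v ∈ Z, (inc s t S v).card = 2 * (inn s t S Z).card + (dl s t S Z).card := by
  have h1 : ∀ v, (inc s t S v).card = ∑ e ∈ S, ((if s e = v then 1 else 0) + (if t e = v then 1 else 0)) := by
    intro v
    rw [inc, card_filter]
    refine sum_congr rfl fun e he => ?_
    have := hl e he
    by_cases c1 : s e = v
    · have c2 : t e ≠ v := fun hc => this (c1.trans hc.symm)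
      simp [c1, c2]
    · by_cases c2 : t e = v <;> simp [c1, c2]
  simp only [h1]
  rw [sum_comm, inn, dl, card_filter, card_filter, mul_sum, ← sum_add_distrib]
  refine sum_congr rfl fun e _ => ?_
  rw [sum_add_distrib, sum_ite_eq, sum_ite_eq]
  unfold crs
  by_cases c1 : s e ∈ Z <;> by_cases c2 : t e ∈ Z <;> simp [c1, c2]

theorem dl_single {s t : E → V} {S : Finset E} (hl : ∀ e ∈ S, s e ≠ t e) (v : V) :
    dl s t S {v} = inc s t S v := by
  ext e
  rw [mem_dl, mem_inc]
  unfold crs
  simp only [mem_singleton]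
  constructor
  · rintro ⟨h1, h2 | h2⟩
    · exact ⟨h1, Or.inl h2.1⟩
    · exact ⟨h1, Or.inr h2.2⟩
  · rintro ⟨h1, h2 | h2⟩
    · exact ⟨h1, Or.inl ⟨h2, fun h3 => hl e h1 (h2.trans h3.symm)⟩⟩
    · exact ⟨h1, Or.inr ⟨fun h3 => hl e h1 (h3.trans h2.symm), h2⟩⟩

theorem Ts_inc {s t : E → V} {S : Finset E} {γ : E → ZMod 2} (hl : ∀ e ∈ S, s e ≠ t e)
    (hγ : ∀ e, γ e ≠ 0 → e ∈ S) {v : V} (hv : v ∈ Ts s t γ) : inc s t S v ≠ ∅ := by
  intro h
  rw [mem_Ts, D2_inc hl hγ, h] at hv
  exact hv sum_empty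

section
variable {s t : E → V} {S : Finset E} {β γ : E → ZMod 2} (hC : Ctx s t S) (h : Str s t S β γ)
include hC h

theorem Ctx.deg3 (v : V) : (inc s t S v).card = 3 ∨ inc s t S v = ∅ := by
  have h1 := hC.base.deg v
  have h2 := hC.base.br {v}
  rw [dl_single hC.base.loop] at h2
  by_cases h3 : (inc s t S v).card = 2
  · exfalso
    obtain ⟨e, he⟩ : (inc s t S v).Nonempty := card_pos.1 (by omega)
    obtain ⟨heS, hev⟩ := mem_inc.1 he
    obtain ⟨u, huv, hu⟩ : ∃ u, u ≠ v ∧ (s e ∈ ({u, v} : Finset V) ∧ t e ∈ ({u, v} : Finset V)) := by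
      have := hC.base.loop e heS
      rcases hev with h4 | h4
      · exact ⟨t e, fun h5 => this (h4.trans h5.symm), by simp [h4]⟩
      · exact ⟨s e, fun h5 => this (h5.trans h4.symm), by simp [h4]⟩
    have h4 := handshake hC.base.loop ({u, v} : Finset V)
    rw [sum_pair huv, h3] at h4
    have h5 : 1 ≤ (inn s t S {u, v}).card := card_pos.2 ⟨e, mem_inn.2 ⟨heS, hu⟩⟩
    have h6 := hC.base.deg u
    have h7 : (dl s t S {u, v}).card ≤ 3 := by omega
    rcases hC.small h h7 with h8 | h8
    · rw [h8] at h5; simp at h5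
    · have h9 := handshake hC.base.loop ({u, v} : Finset V)ᶜ
      rw [h8, dl_compl, card_empty] at h9
      have h10 : 2 * (nv s t S ({u, v} : Finset V)ᶜ).card
          ≤ ∑ w ∈ ({u, v} : Finset V)ᶜ, (inc s t S w).card := by
        rw [nv, card_filter, mul_sum]
        refine sum_le_sum fun w _ => ?_
        have h11 := hC.base.br {w}
        rw [dl_single hC.base.loop] at h11
        by_cases h12 : inc s t S w = ∅
        · simp [h12]
        · have : 1 ≤ (inc s t S w).card := card_pos.2 (nonempty_iff_ne_empty.2 h12)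
          simp only [ne_eq, h12, not_false_iff, if_true]
          omega
      have h13 : Ts s t γ ⊆ {u, v} ∪ nv s t S ({u, v} : Finset V)ᶜ := by
        intro w hw
        by_cases h14 : w ∈ ({u, v} : Finset V)
        · exact mem_union_left _ h14
        · exact mem_union_right _ (mem_nv.2 ⟨mem_compl.2 h14, Ts_inc hC.base.loop h.g hw⟩)
      have h15 := card_le_card h13
      have h16 := card_union_le ({u, v} : Finset V) (nv s t S ({u, v} : Finset V)ᶜ)
      have h17 : ({u, v} : Finset V).card ≤ 2 := card_le_two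
      have h18 := hC.four h
      omega
  · by_cases h4 : inc s t S v = ∅
    · exact Or.inr h4
    · have : 1 ≤ (inc s t S v).card := card_pos.2 (nonempty_iff_ne_empty.2 h4)
      left; omega

theorem Ctx.count (Z : Finset V) :
    3 * (nv s t S Z).card = 2 * (inn s t S Z).card + (dl s t S Z).card := by
  rw [← handshake hC.base.loop, nv, card_filter, mul_sum]
  refine sum_congr rfl fun w _ => ?_
  rcases hC.deg3 h w with h1 | h1
  · have : inc s t S w ≠ ∅ := by
      intro h2; rw [h2] at h1; simp at h1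
    simp [h1, this]
  · simp [h1]

theorem Ctx.no2 (Z : Finset V) : (dl s t S Z).card ≠ 2 := by
  intro hc
  have h1 := hC.count h Z
  have h2 := hC.count h Zᶜ
  rw [dl_compl] at h2
  rcases hC.small h (Z := Z) (by omega) with h3 | h3
  · rw [h3, card_empty] at h1; omega
  · rw [h3, card_empty] at h2; omega

theorem Ctx.three {Z : Finset V} (hd : (dl s t S Z).card = 3) :
    (nv s t S Z).card = 1 ∨ (nv s t S Zᶜ).card = 1 := by
  have h1 := hC.count h Z
  have h2 := hC.count h Zᶜ
  rw [dl_compl] at h2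
  rcases hC.small h (Z := Z) (by omega) with h3 | h3
  · left; rw [h3, card_empty] at h1; omega
  · right; rw [h3, card_empty] at h2; omega

theorem Ctx.T_nv {Z : Finset V} {v : V} (hv : v ∈ Ts s t γ) (hZ : v ∈ Z) : v ∈ nv s t S Z :=
  mem_nv.2 ⟨hZ, Ts_inc hC.base.loop h.g hv⟩

end

end MP974d84.J
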