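import Mathlib
import Pool.Agent.Work.MP_974d84_co.J6

/-!
Interfaces: normalised pairs, and the statement on five-edge cuts.
-/

namespace MP974d84.J

open Finset

variable {V E : Type*} [Fintype V] [DecidableEq V] [Fintype E] [DecidableEq E]

/-- A set of vertices which is closed for the support of `β`. -/
def Cl (s t : E → V) (β : E → ZMod 2) (Z : Finset V) : Prop := ∀ e, crs s t Z e → β e = 0

/-- All edges at the vertex have `β = 0`. -/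
def Zero (s t : E → V) (S : Finset E) (β : E → ZMod 2) (v : V) : Prop :=
  ∀ e ∈ inc s t S v, β e = 0

/-- Normalised pairs. -/
structure Norm (s t : E → V) (S : Finset E) (β γ : E → ZMod 2) : Prop where
  str : Str s t S β γ
  low : ∀ v ∈ Ts s t γ, Zero s t S β v ∨ ∀ e ∈ inc s t S v, β e ≠ 0 → γ e = 0
  sep : ∀ x ∈ Ts s t γ, ∀ y ∈ Ts s t γ, x ≠ y → ∃ Z, Cl s t β Z ∧ x ∈ Z ∧ y ∉ Z
  star : ∀ x ∈ Ts s t γ, Zero s t S β x → ∀ f ∈ inc s t S x,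
    ∃ Z : Finset V, x ∉ Z ∧ (dl s t S Z).filter (fun e => γ e ≠ 0) = {f}
  mv : ∀ x0 ∈ Ts s t γ, Zero s t S β x0 → ∀ x ∈ Ts s t γ, x ≠ x0 →
    (∀ e ∈ inc s t S x0, e ∉ inc s t S x) → ∀ y, y ∉ Ts s t γ →
    (∃ e ∈ inc s t S x0, e ∈ inc s t S y) → ∃ Z, Cl s t β Z ∧ x ∈ Z ∧ y ∉ Z

/-- The statement on five-edge cuts. -/
def Five (s t : E → V) (S : Finset E) (β γ : E → ZMod 2) : Prop :=
  ∀ W : Finset V, (dl s t S W).card = 5 → (∀ e ∈ dl s t S W, γ e ≠ 0) →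
    (Ts s t γ ∩ W).card = 1 → 5 ≤ (nv s t S Wᶜ).card →
    (∃ x1 : V, ∀ v, v ≠ x1 → ∀ e ∈ dl s t S W, ∀ e' ∈ dl s t S W, e ≠ e' →
      e ∈ inc s t S v → e' ∈ inc s t S v → β e ≠ β e') →
    (nv s t S W).card = 3

end MP974d84.J
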