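import Mathlib
import Pool.Agent.Work.MP_974d84_co.JN

/-!
Existence of normalised pairs.
-/

namespace MP974d84.J

open Finset

variable {V E : Type*} [Fintype V] [DecidableEq V] [Fintype E] [DecidableEq E]
variable {s t : E → V} {S : Finset E} {β γ : E → ZMod 2}

/-- Indicator of a vertex modulo 2. -/
def one (x v : V) : ZMod 2 := if x = v then 1 else 0

theorem z2_add_self (z : ZMod 2) : z + z = 0 := by
  revert z; decide

theorem D_sgl2 (e : E) (v : V) :
    D s t (sgl e (1 : ZMod 2)) v = one (s e) v + one (t e) v := by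
  rw [D_sgl, sub_eq_add_neg, z2_neg]; rfl

/-- Either two vertices are joined by a chain of edges in `R`, or they are separated by a set of
vertices which no edge of `R` crosses. -/
theorem chain (R : E → Prop) (x y : V) :
    (∃ z : E → ZMod 2, (∀ e, z e ≠ 0 → R e) ∧ ∀ v, D s t z v = one x v + one y v) ∨
    ∃ Z : Finset V, x ∈ Z ∧ y ∉ Z ∧ ∀ e, R e → ¬ crs s t Z e := by
  classical
  by_cases hy : ∃ z : E → ZMod 2, (∀ e, z e ≠ 0 → R e) ∧ ∀ v, D s t z v = one x v + one y v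
  · exact Or.inl hy
  · right
    refine ⟨univ.filter fun w => ∃ z : E → ZMod 2, (∀ e, z e ≠ 0 → R e) ∧
      ∀ v, D s t z v = one x v + one w v, ?_, ?_, ?_⟩
    · simp only [mem_filter, mem_univ, true_and]
      exact ⟨fun _ => 0, fun e he => absurd rfl he, fun v => by rw [z2_add_self]; simp [D]⟩
    · simp only [mem_filter, mem_univ, true_and]; exact hy
    · have key : ∀ (e : E) (u w : V), R e → (s e = u ∧ t e = w ∨ s e = w ∧ t e = u) →
          (∃ z : E → ZMod 2, (∀ e, z e ≠ 0 → R e) ∧ ∀ v, D s t z v = one x v + one u v) →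
          ∃ z : E → ZMod 2, (∀ e, z e ≠ 0 → R e) ∧ ∀ v, D s t z v = one x v + one w v := by
        rintro e u w he huw ⟨z, hz, hD⟩
        refine ⟨fun e' => z e' + sgl e (1 : ZMod 2) e', fun e' he' => ?_, fun v => ?_⟩
        · by_cases h1 : e' = e
          · rw [h1]; exact he
          · apply hz
            intro h2
            apply he'
            simp [h2, sgl, h1]
        · rw [D_add, hD, D_sgl2]
          have h1 := z2_add_self (one u v)
          rcases huw with ⟨h2, h3⟩ | ⟨h2, h3⟩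
          · rw [h2, h3]; linear_combination h1
          · rw [h2, h3]; linear_combination h1
      intro e he hc
      unfold crs at hc
      simp only [mem_filter, mem_univ, true_and] at hc
      rcases hc with ⟨h1, h2⟩ | ⟨h1, h2⟩
      · exact h2 (key e (s e) (t e) he (Or.inl ⟨rfl, rfl⟩) h1)
      · exact h1 (key e (t e) (s e) he (Or.inr ⟨rfl, rfl⟩) h2)

theorem crs_inter {Z W : Finset V} {e : E} (h : crs s t (Z ∩ W) e) :
    crs s t Z e ∨ crs s t W e := by
  unfold crs at *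
  simp only [mem_inter] at h
  tauto

theorem Cl.inter {Z W : Finset V} (h1 : Cl s t β Z) (h2 : Cl s t β W) : Cl s t β (Z ∩ W) := by
  intro e he
  rcases crs_inter he with h | h
  · exact h1 e h
  · exact h2 e h

theorem Str.add (h : Str s t S β γ) {z : E → ZMod 2} (hz : ∀ e, z e ≠ 0 → β e ≠ 0)
    (hc : (Ts s t (fun e => γ e + z e)).card ≤ 4) : Str s t S β (fun e => γ e + z e) := by
  refine ⟨fun e => ?_, h.bD, hc⟩
  rw [← h.supp e]
  by_cases hb : β e = 0
  · have : z e = 0 := by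
      by_contra hne
      exact hz e hne hb
    simp [hb, this]
  · simp [hb]

theorem Ctx.sep (hC : Ctx s t S) (h : Str s t S β γ) {x y : V} (hx : x ∈ Ts s t γ)
    (hy : y ∈ Ts s t γ) (hxy : x ≠ y) : ∃ Z, Cl s t β Z ∧ x ∈ Z ∧ y ∉ Z := by
  rcases chain (s := s) (t := t) (fun e => β e ≠ 0) x y with ⟨z, hz, hD⟩ | ⟨Z, h1, h2, h3⟩
  · exfalso
    have hT : Ts s t (fun e => γ e + z e) ⊆ ((Ts s t γ).erase x).erase y := by
      intro v hv
      rw [mem_Ts, D_add, hD] at hv
      have h11 : (1 : ZMod 2) + 1 = 0 := by decide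
      have hvx : v ≠ x := by
        rintro rfl
        apply hv
        rw [z2_ne.1 (mem_Ts.1 hx)]
        simp [one, Ne.symm hxy, h11]
      have hvy : v ≠ y := by
        rintro rfl
        apply hv
        rw [z2_ne.1 (mem_Ts.1 hy)]
        simp [one, hxy, h11]
      rw [mem_erase, mem_erase, mem_Ts]
      refine ⟨hvy, hvx, ?_⟩
      simpa [one, Ne.symm hvx, Ne.symm hvy] using hv
    have h1 := card_le_card hT
    have h2 : y ∈ (Ts s t γ).erase x := mem_erase.2 ⟨Ne.symm hxy, hy⟩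
    rw [card_erase_of_mem h2, card_erase_of_mem hx, hC.four h] at h1
    have h4 := hC.four (h.add hz (by omega))
    omega
  · exact ⟨Z, fun e he => by by_contra hne; exact h3 e hne he, h1, h2⟩

theorem Ctx.sepAll (hC : Ctx s t S) (h : Str s t S β γ) {x : V} (hx : x ∈ Ts s t γ) :
    ∃ Z, Cl s t β Z ∧ x ∈ Z ∧ ∀ v ∈ Ts s t γ, v ∈ Z → v = x := by
  have key : ∀ T' : Finset V, T' ⊆ Ts s t γ →
      ∃ Z, Cl s t β Z ∧ x ∈ Z ∧ ∀ v ∈ T', v ∈ Z → v = x := by
    intro T'
    induction T' using Finset.induction_on with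
    | empty =>
      intro _
      refine ⟨univ, fun e he => ?_, mem_univ x, fun v hv => absurd hv (notMem_empty v)⟩
      unfold crs at he
      simp at he
    | insert y T' _ ih =>
      intro hsub
      obtain ⟨Z, h1, h2, h3⟩ := ih (fun v hv => hsub (mem_insert_of_mem hv))
      by_cases hxy : x = y
      · refine ⟨Z, h1, h2, fun v hv hvZ => ?_⟩
        rcases mem_insert.1 hv with h4 | h4
        · rw [h4, hxy]
        · exact h3 v h4 hvZ
      · obtain ⟨W, k1, k2, k3⟩ := hC.sep h hx (hsub (mem_insert_self y T')) hxy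
        refine ⟨Z ∩ W, h1.inter k1, mem_inter.2 ⟨h2, k2⟩, fun v hv hvZ => ?_⟩
        rcases mem_insert.1 hv with h4 | h4
        · rw [h4] at hvZ; exact absurd (mem_inter.1 hvZ).2 k3
        · exact h3 v h4 (mem_inter.1 hvZ).1
  exact key _ (Subset.refl _)

theorem D_innP_cl {f : E → ZMod 2} {Z : Finset V} (hZ : Cl s t β Z)
    (hf : ∀ e, f e ≠ 0 → β e ≠ 0) (v : V) :
    D s t (innP s t Z f) v = if v ∈ Z then D s t f v else 0 := by
  by_cases hv : v ∈ Z
  · rw [if_pos hv]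
    unfold D
    refine sum_congr rfl fun e _ => ?_
    unfold innP
    by_cases hfe : f e = 0
    · simp [hfe]
    · have hnc : ¬ crs s t Z e := fun hc => hf e hfe (hZ e hc)
      unfold crs at hnc
      by_cases c1 : s e ∈ Z <;> by_cases c2 : t e ∈ Z
      · simp [c1, c2]
      · exact absurd (Or.inl ⟨c1, c2⟩) hnc
      · exact absurd (Or.inr ⟨c1, c2⟩) hnc
      · have d1 : s e ≠ v := by rintro rfl; exact c1 hv
        have d2 : t e ≠ v := by rintro rfl; exact c2 hv
        simp [d1, d2]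
  · rw [if_neg hv, D_innP_out f hv]

theorem innP_supp {f : E → ZMod 2} {Z : Finset V} (hf : ∀ e, f e ≠ 0 → β e ≠ 0) (e : E)
    (he : innP s t Z f e ≠ 0) : β e ≠ 0 := by
  apply hf
  unfold innP at he
  split_ifs at he with hc
  · exact he
  · exact absurd rfl he

theorem innP_at_out {f : E → ZMod 2} {Z : Finset V} {v : V} (hv : v ∉ Z) {e : E}
    (he : e ∈ inc s t S v) : innP s t Z f e = 0 := by
  unfold innP
  rw [if_neg]
  rintro ⟨h1, h2⟩
  rcases (mem_inc.1 he).2 with h | h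
  · exact hv (h ▸ h1)
  · exact hv (h ▸ h2)

theorem innP_at_in {f : E → ZMod 2} {Z : Finset V} (hZ : Cl s t β Z) {v : V} (hv : v ∈ Z) {e : E}
    (he : e ∈ inc s t S v) (hb : β e ≠ 0) : innP s t Z f e = f e := by
  have hnc : ¬ crs s t Z e := fun hc => hb (hZ e hc)
  unfold innP
  rw [if_pos]
  unfold crs at hnc
  rcases (mem_inc.1 he).2 with h | h
  · rw [← h] at hv; tauto
  · rw [← h] at hv; tauto

theorem three_split {ι : Type*} [DecidableEq ι] {I : Finset ι} (hI : I.card = 3) {a : ι}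
    (ha : a ∈ I) : ∃ b c, a ≠ b ∧ a ≠ c ∧ b ≠ c ∧ I = {a, b, c} := by
  have h1 : (I.erase a).card = 2 := by rw [card_erase_of_mem ha, hI]
  obtain ⟨b, c, hbc, h2⟩ := card_eq_two.1 h1
  have hb : b ∈ I.erase a := by rw [h2]; simp
  have hc : c ∈ I.erase a := by rw [h2]; simp
  refine ⟨b, c, (mem_erase.1 hb).1.symm, (mem_erase.1 hc).1.symm, hbc, ?_⟩
  rw [← h2, insert_erase ha]

theorem Ctx.inc3 (hC : Ctx s t S) (h : Str s t S β γ) {v : V} {a : E} (ha : a ∈ inc s t S v) :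
    ∃ b c, a ≠ b ∧ a ≠ c ∧ b ≠ c ∧ inc s t S v = {a, b, c} := by
  apply three_split _ ha
  rcases hC.deg3 h v with h1 | h1
  · exact h1
  · rw [h1] at ha; exact absurd ha (notMem_empty a)

theorem sum3 {f : E → ZMod 2} {a b c : E} (h1 : a ≠ b) (h2 : a ≠ c) (h3 : b ≠ c) :
    ∑ e ∈ ({a, b, c} : Finset E), f e = f a + (f b + f c) := by
  rw [sum_insert, sum_insert, sum_singleton]
  · simpa using h3
  · simp [h1, h2]

theorem z2_case : ∀ x y z : ZMod 2, x ≠ 0 → x + (y + z) = 0 →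
    (y ≠ 0 ∧ z = 0) ∨ (y = 0 ∧ z ≠ 0) := by decide

theorem z2_all : ∀ x y z : ZMod 2, x ≠ 0 → z ≠ 0 → x + (y + z) ≠ 0 → y ≠ 0 := by decide

/-- Edges at a vertex which is not `Zero`. -/
theorem Ctx.beta3 (hC : Ctx s t S) (h : Str s t S β γ) {v : V} {a : E} (ha : a ∈ inc s t S v)
    (hba : β a ≠ 0) : ∃ b c, a ≠ b ∧ a ≠ c ∧ b ≠ c ∧ inc s t S v = {a, b, c} ∧ β b ≠ 0 ∧
      β c = 0 := by
  obtain ⟨b, c, h1, h2, h3, h4⟩ := hC.inc3 h ha
  have h5 := h.bD v
  rw [D2_inc hC.base.loop h.b, h4, sum3 h1 h2 h3] at h5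
  rcases z2_case _ _ _ hba h5 with ⟨h6, h7⟩ | ⟨h6, h7⟩
  · exact ⟨b, c, h1, h2, h3, h4, h6, h7⟩
  · refine ⟨c, b, h2, h1, h3.symm, ?_, h7, h6⟩
    rw [h4, Finset.pair_comm b c]

/-- Defects with all three edges in the support of `γ`. -/
def H3 (s t : E → V) (S : Finset E) (γ : E → ZMod 2) : Finset V :=
  (Ts s t γ).filter fun v => ∀ e ∈ inc s t S v, γ e ≠ 0

theorem mem_H3 {v : V} : v ∈ H3 s t S γ ↔ v ∈ Ts s t γ ∧ ∀ e ∈ inc s t S v, γ e ≠ 0 := by
  simp [H3]

theorem Ctx.drop (hC : Ctx s t S) (h : Str s t S β γ) {x : V} (hx : x ∈ Ts s t γ)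
    (h3 : ∀ e ∈ inc s t S x, γ e ≠ 0) {a : E} (ha : a ∈ inc s t S x) (hba : β a ≠ 0) :
    ∃ γ', Str s t S β γ' ∧ (H3 s t S γ').card < (H3 s t S γ).card := by
  obtain ⟨Z, hZ, hxZ, hZT⟩ := hC.sepAll h hx
  have hD : ∀ v, D s t (fun e => γ e + innP s t Z β e) v = D s t γ v := by
    intro v
    rw [D_add, D_innP_cl hZ (fun _ h => h), h.bD]
    simp
  have hT : Ts s t (fun e => γ e + innP s t Z β e) = Ts s t γ := by
    ext v; rw [mem_Ts, mem_Ts, hD]
  refine ⟨fun e => γ e + innP s t Z β e, h.add (innP_supp fun _ h => h) (hT ▸ h.T4), ?_⟩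
  apply card_lt_card
  rw [ssubset_iff_of_subset]
  · refine ⟨x, mem_H3.2 ⟨hx, h3⟩, fun hc => ?_⟩
    apply (mem_H3.1 hc).2 a ha
    beta_reduce
    rw [innP_at_in hZ hxZ ha hba, z2_ne.1 hba, z2_ne.1 (h3 a ha)]
    decide
  · intro v hv
    obtain ⟨h1, h2⟩ := mem_H3.1 hv
    rw [hT] at h1
    by_cases hvx : v = x
    · rw [hvx]; exact mem_H3.2 ⟨hx, h3⟩
    · refine mem_H3.2 ⟨h1, fun e he => ?_⟩
      have h4 := h2 e he
      beta_reduce at h4
      rwa [innP_at_out (fun hc => hvx (hZT v h1 hc)) he, add_zero] at h4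

/-- Edges joining a `Zero` defect to another defect. -/
def Jt (s t : E → V) (S : Finset E) (β γ : E → ZMod 2) : Finset E :=
  S.filter fun e => ∃ x ∈ Ts s t γ, (∀ e' ∈ inc s t S x, β e' = 0) ∧ e ∈ inc s t S x ∧
    ∃ w ∈ Ts s t γ, w ≠ x ∧ e ∈ inc s t S w

theorem mem_Jt {e : E} : e ∈ Jt s t S β γ ↔ ∃ x ∈ Ts s t γ, Zero s t S β x ∧ e ∈ inc s t S x ∧
    ∃ w ∈ Ts s t γ, w ≠ x ∧ e ∈ inc s t S w := by
  unfold Jt Zero
  rw [mem_filter]
  constructor
  · exact fun h => h.2
  · intro h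
    refine ⟨?_, h⟩
    obtain ⟨x, _, _, h1, _⟩ := h
    exact (mem_inc.1 h1).1

/-- Pairs with the fewest defects of degree three in the support of `γ`, and among those the most
edges joining a `Zero` defect to another defect. -/
structure Mn (s t : E → V) (S : Finset E) (β γ : E → ZMod 2) : Prop where
  str : Str s t S β γ
  h3 : ∀ β' γ', Str s t S β' γ' → (H3 s t S γ).card ≤ (H3 s t S γ').card
  jj : ∀ β' γ', Str s t S β' γ' → (H3 s t S γ').card ≤ (H3 s t S γ).card →
    (Jt s t S β' γ').card ≤ (Jt s t S β γ).card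

theorem exists_mn (h : Str s t S β γ) : ∃ β' γ', Mn s t S β' γ' := by
  classical
  have h1 : ∃ n, ∃ β' γ', Str s t S β' γ' ∧ (H3 s t S γ').card = n := ⟨_, β, γ, h, rfl⟩
  obtain ⟨β1, γ1, h2, h3⟩ := Nat.find_spec h1
  set n := Nat.find h1 with hn
  have hmin : ∀ β' γ', Str s t S β' γ' → n ≤ (H3 s t S γ').card := fun β' γ' h' =>
    Nat.find_min' h1 ⟨β', γ', h', rfl⟩
  have hJ : ∀ β' γ', (Jt s t S β' γ').card ≤ S.card := fun β' γ' => by
    unfold Jt; exact card_filter_le _ _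
  have h4 : ∃ m, ∃ β' γ', Str s t S β' γ' ∧ (H3 s t S γ').card = n ∧
      S.card - (Jt s t S β' γ').card = m := ⟨_, β1, γ1, h2, h3, rfl⟩
  obtain ⟨β2, γ2, h5, h6, h7⟩ := Nat.find_spec h4
  refine ⟨β2, γ2, h5, fun β' γ' h' => ?_, fun β' γ' h' h'' => ?_⟩
  · rw [h6]; exact hmin β' γ' h'
  · have h8 := hmin β' γ' h'
    rw [h6] at h''
    have h9 := Nat.find_min' h4 ⟨β', γ', h', le_antisymm h'' h8, rfl⟩
    rw [← h7] at h9
    have := hJ β' γ'
    have := hJ β2 γ2
    omega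

theorem Ctx.low (hC : Ctx s t S) (h : Mn s t S β γ) : ∀ v ∈ Ts s t γ, Zero s t S β v ∨
    ∀ e ∈ inc s t S v, β e ≠ 0 → γ e = 0 := by
  intro v hv
  by_contra hc
  push Not at hc
  obtain ⟨_, a, ha, hba, hga⟩ := hc
  obtain ⟨b, c, h1, h2, h3, h4, h5, h6⟩ := hC.beta3 h.str ha hba
  have hcS : c ∈ inc s t S v := by rw [h4]; simp
  have hgc : γ c ≠ 0 := ((h.str.supp c).2 (mem_inc.1 hcS).1).resolve_left (fun hh => hh h6)
  have h7 := mem_Ts.1 hv
  rw [D2_inc hC.base.loop h.str.g, h4, sum3 h1 h2 h3] at h7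
  have hgb := z2_all _ _ _ hga hgc h7
  have hall : ∀ e ∈ inc s t S v, γ e ≠ 0 := by
    intro e he
    rw [h4] at he
    simp only [mem_insert, mem_singleton] at he
    rcases he with rfl | rfl | rfl
    · exact hga
    · exact hgb
    · exact hgc
  obtain ⟨γ', h8, h9⟩ := hC.drop h.str hv hall ha hba
  have := h.h3 β γ' h8
  omega

/-- The other end of an edge. -/
def oth (s t : E → V) (x : V) (e : E) : V := if s e = x then t e else s e

theorem oth_spec {x : V} {e : E} (he : e ∈ inc s t S x) :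
    (s e = x ∧ t e = oth s t x e) ∨ (t e = x ∧ s e = oth s t x e) := by
  unfold oth
  by_cases h : s e = x
  · left; rw [if_pos h]; exact ⟨h, rfl⟩
  · right
    rw [if_neg h]
    exact ⟨(mem_inc.1 he).2.resolve_left h, rfl⟩

theorem oth_ne (hl : ∀ e ∈ S, s e ≠ t e) {x : V} {e : E} (he : e ∈ inc s t S x) :
    oth s t x e ≠ x := by
  have := hl e (mem_inc.1 he).1
  rcases oth_spec he with ⟨h1, h2⟩ | ⟨h1, h2⟩
  · rw [← h2]; intro hc; exact this (h1.trans hc.symm)
  · rw [← h2]; intro hc; exact this (hc.trans h1.symm)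

theorem oth_inc {x : V} {e : E} (he : e ∈ inc s t S x) : e ∈ inc s t S (oth s t x e) := by
  rw [mem_inc]
  refine ⟨(mem_inc.1 he).1, ?_⟩
  rcases oth_spec he with ⟨_, h2⟩ | ⟨_, h2⟩
  · exact Or.inr h2
  · exact Or.inl h2

theorem inc_iff {x v : V} {e : E} (he : e ∈ inc s t S x) :
    e ∈ inc s t S v ↔ v = x ∨ v = oth s t x e := by
  rw [mem_inc]
  have h0 := (mem_inc.1 he).1
  rcases oth_spec he with ⟨h1, h2⟩ | ⟨h1, h2⟩
  · rw [h1, h2]
    constructor
    · rintro ⟨_, h | h⟩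
      · exact Or.inl h.symm
      · exact Or.inr h.symm
    · rintro (h | h)
      · exact ⟨h0, Or.inl h.symm⟩
      · exact ⟨h0, Or.inr h.symm⟩
  · rw [h1, h2]
    constructor
    · rintro ⟨_, h | h⟩
      · exact Or.inr h.symm
      · exact Or.inl h.symm
    · rintro (h | h)
      · exact ⟨h0, Or.inr h.symm⟩
      · exact ⟨h0, Or.inl h.symm⟩

theorem one_oth {x : V} {e : E} (he : e ∈ inc s t S x) (v : V) :
    one (s e) v + one (t e) v = one x v + one (oth s t x e) v := by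
  rcases oth_spec he with ⟨h1, h2⟩ | ⟨h1, h2⟩
  · rw [h1, h2]
  · rw [h1, h2, add_comm]

theorem crs_oth {x : V} {e : E} (he : e ∈ inc s t S x) {Z : Finset V} (hx : x ∉ Z) :
    crs s t Z e ↔ oth s t x e ∈ Z := by
  unfold crs
  rcases oth_spec he with ⟨h1, h2⟩ | ⟨h1, h2⟩
  · rw [h1, h2]; tauto
  · rw [h1, h2]; tauto

theorem Ctx.star_aux (hC : Ctx s t S) (h : Mn s t S β γ) {x : V} (hx : x ∈ Ts s t γ)
    (hz : Zero s t S β x) {f g : E} (hf : f ∈ inc s t S x) (hg : g ∈ inc s t S x) (hfg : f ≠ g) :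
    ∃ Z : Finset V, oth s t x f ∈ Z ∧ oth s t x g ∉ Z ∧
      ∀ e, γ e ≠ 0 → e ∉ inc s t S x → ¬ crs s t Z e := by
  have hall : ∀ e ∈ inc s t S x, γ e ≠ 0 := fun e he =>
    ((h.str.supp e).2 (mem_inc.1 he).1).resolve_left (fun hh => hh (hz e he))
  rcases chain (s := s) (t := t) (fun e => γ e ≠ 0 ∧ e ∉ inc s t S x) (oth s t x f)
    (oth s t x g) with ⟨z, hz1, hz2⟩ | ⟨Z, h1, h2, h3⟩
  · exfalso
    let β' : E → ZMod 2 := fun e => β e + (z e + (sgl f (1 : ZMod 2) e + sgl g (1 : ZMod 2) e))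
    have hstr : Str s t S β' γ := by
      refine ⟨fun e => ?_, fun v => ?_, h.str.T4⟩
      · rw [← h.str.supp e]
        by_cases hge : γ e = 0
        · have e1 : z e = 0 := by
            by_contra hne
            exact (hz1 e hne).1 hge
          have e2 : e ≠ f := fun hh => hall f hf (hh ▸ hge)
          have e3 : e ≠ g := fun hh => hall g hg (hh ▸ hge)
          simp [β', e1, sgl, e2, e3]
        · simp [hge]
      · change D s t (fun e => β e + (z e + (sgl f (1 : ZMod 2) e + sgl g (1 : ZMod 2) e))) v = 0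
        rw [D_add, D_add s t z, D_add s t (sgl f (1 : ZMod 2)), D_sgl2, D_sgl2, one_oth hf,
          one_oth hg, h.str.bD, hz2]
        have e1 := z2_add_self (one x v)
        have e2 := z2_add_self (one (oth s t x f) v)
        have e3 := z2_add_self (one (oth s t x g) v)
        linear_combination e1 + e2 + e3
    have hbf : β' f ≠ 0 := by
      have e1 : z f = 0 := by
        by_contra hne
        exact (hz1 f hne).2 hf
      simp [β', e1, sgl, hfg, hz f hf]
    obtain ⟨γ', h8, h9⟩ := hC.drop hstr hx hall hf hbf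
    have := h.h3 β' γ' h8
    omega
  · exact ⟨Z, h1, h2, fun e he1 he2 => h3 e ⟨he1, he2⟩⟩

theorem Ctx.star (hC : Ctx s t S) (h : Mn s t S β γ) : ∀ x ∈ Ts s t γ, Zero s t S β x →
    ∀ f ∈ inc s t S x, ∃ Z : Finset V, x ∉ Z ∧
      (dl s t S Z).filter (fun e => γ e ≠ 0) = {f} := by
  intro x hx hz f hf
  have hall : ∀ e ∈ inc s t S x, γ e ≠ 0 := fun e he =>
    ((h.str.supp e).2 (mem_inc.1 he).1).resolve_left (fun hh => hh (hz e he))
  obtain ⟨g, k, h1, h2, h3, h4⟩ := hC.inc3 h.str hf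
  have hg : g ∈ inc s t S x := by rw [h4]; simp
  have hk : k ∈ inc s t S x := by rw [h4]; simp
  obtain ⟨Z, a1, a2, a3⟩ := hC.star_aux h hx hz hf hg h1
  obtain ⟨W, b1, b2, b3⟩ := hC.star_aux h hx hz hf hk h2
  have hxn : x ∉ (Z ∩ W).erase x := notMem_erase x _
  refine ⟨(Z ∩ W).erase x, hxn, ?_⟩
  ext e
  rw [mem_filter, mem_dl, mem_singleton]
  constructor
  · rintro ⟨⟨heS, hcr⟩, hge⟩
    by_cases he : e ∈ inc s t S x
    · rw [crs_oth he hxn, mem_erase, mem_inter] at hcr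
      rw [h4] at he
      simp only [mem_insert, mem_singleton] at he
      rcases he with rfl | rfl | rfl
      · rfl
      · exact absurd hcr.2.1 a2
      · exact absurd hcr.2.2 b2
    · exfalso
      have h5 : crs s t (Z ∩ W) e := by
        have e1 : s e ≠ x := fun hh => he (mem_inc.2 ⟨heS, Or.inl hh⟩)
        have e2 : t e ≠ x := fun hh => he (mem_inc.2 ⟨heS, Or.inr hh⟩)
        unfold crs at hcr ⊢
        simp only [mem_erase] at hcr
        tauto
      rcases crs_inter h5 with h6 | h6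
      · exact a3 e hge he h6
      · exact b3 e hge he h6
  · rintro rfl
    refine ⟨⟨(mem_inc.1 hf).1, ?_⟩, hall _ hf⟩
    rw [crs_oth hf hxn, mem_erase, mem_inter]
    exact ⟨oth_ne hC.base.loop hf, a1, b1⟩

theorem crs_inter_iff {x : V} {e : E} (he : e ∈ inc s t S x) {Z W : Finset V} (hx : x ∉ Z)
    (hc : crs s t (Z ∩ W) e) : oth s t x e ∈ Z ∧ oth s t x e ∈ W := by
  rw [crs_oth he (fun hh => hx (mem_inter.1 hh).1)] at hc
  exact mem_inter.1 hc

theorem mem_star {Z : Finset V} {f e : E} (h : (dl s t S Z).filter (fun e => γ e ≠ 0) = {f})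
    (heS : e ∈ S) (hg : γ e ≠ 0) (hc : crs s t Z e) : e = f := by
  have : e ∈ (dl s t S Z).filter (fun e => γ e ≠ 0) := mem_filter.2 ⟨mem_dl.2 ⟨heS, hc⟩, hg⟩
  rw [h] at this
  exact mem_singleton.1 this

/-- Two branches at a vertex have no edge of the support of `γ` leaving their intersection. -/
theorem star_inter {x : V} {f g : E} (hf : f ∈ inc s t S x) (hg : g ∈ inc s t S x)
    (hfg : f ≠ g) {Z W : Finset V} (hZ : x ∉ Z) (hW : x ∉ W)
    (h1 : (dl s t S Z).filter (fun e => γ e ≠ 0) = {f})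
    (h2 : (dl s t S W).filter (fun e => γ e ≠ 0) = {g}) :
    (dl s t S (Z ∩ W)).filter (fun e => γ e ≠ 0) = ∅ := by
  rw [filter_eq_empty_iff]
  intro e he hge
  obtain ⟨heS, hc⟩ := mem_dl.1 he
  rcases crs_inter hc with h3 | h3
  · have h4 := mem_star h1 heS hge h3
    subst h4
    have h5 := crs_inter_iff hf hZ hc
    exact hfg (mem_star h2 heS hge ((crs_oth hf hW).2 h5.2))
  · have h4 := mem_star h2 heS hge h3
    subst h4
    have h5 := crs_inter_iff hg hZ hc
    exact hfg (mem_star h1 heS hge ((crs_oth hg hZ).2 h5.1)).symm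

theorem three_odd {ι : Type*} [DecidableEq ι] {P A B C : Finset ι} (hP : P.card = 3) (hA : A ⊆ P)
    (hB : B ⊆ P) (hC : C ⊆ P) (a : A.card % 2 = 1) (b : B.card % 2 = 1) (c : C.card % 2 = 1)
    (ab : (A ∩ B).card % 2 = 0) (ac : (A ∩ C).card % 2 = 0) (bc : (B ∩ C).card % 2 = 0) {u : ι}
    (hu : u ∈ P) : A = {u} ∨ B = {u} ∨ C = {u} := by
  have key : ∀ A B : Finset ι, A ⊆ P → B ⊆ P → A.card % 2 = 1 → B.card % 2 = 1 →
      (A ∩ B).card % 2 = 0 → A.card = 1 := by
    intro A B hA hB a b ab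
    have h1 := card_le_card hA
    by_contra hne
    have h2 : A = P := eq_of_subset_of_card_le hA (by omega)
    rw [h2, inter_eq_right.2 hB] at ab
    omega
  have hA1 := key A B hA hB a b ab
  have hB1 := key B A hB hA b a (by rw [inter_comm]; exact ab)
  have hC1 := key C A hC hA c a (by rw [inter_comm]; exact ac)
  have e1 : (A ∩ B).card = 0 := by
    have := card_le_card (inter_subset_left (s₁ := A) (s₂ := B)); omega
  have e2 : (A ∩ C).card = 0 := by
    have := card_le_card (inter_subset_left (s₁ := A) (s₂ := C)); omega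
  have e3 : (B ∩ C).card = 0 := by
    have := card_le_card (inter_subset_left (s₁ := B) (s₂ := C)); omega
  rw [card_eq_zero] at e1 e2 e3
  have e4 : ((A ∪ B) ∩ C).card = 0 := by
    rw [union_inter_distrib_right, e2, e3]; rfl
  have e5 := card_union_add_card_inter A B
  have e6 := card_union_add_card_inter (A ∪ B) C
  rw [e1, card_empty] at e5
  have e7 : (A ∪ B) ∪ C = P := eq_of_subset_of_card_le (union_subset (union_subset hA hB) hC)
    (by omega)
  rw [← e7, mem_union, mem_union] at hu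
  have sing : ∀ A : Finset ι, A.card = 1 → u ∈ A → A = {u} := by
    intro A hA huA
    obtain ⟨w, hw⟩ := card_eq_one.1 hA
    rw [hw, mem_singleton] at huA
    rw [hw, huA]
  rcases hu with (hu | hu) | hu
  · exact Or.inl (sing A hA1 hu)
  · exact Or.inr (Or.inl (sing B hB1 hu))
  · exact Or.inr (Or.inr (sing C hC1 hu))

/-- Every other defect is the only defect of a branch at a `Zero` defect. -/
theorem Ctx.star_cover (hC : Ctx s t S) (h : Str s t S β γ) {x : V} (hx : x ∈ Ts s t γ)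
    (hst : ∀ f ∈ inc s t S x, ∃ Z : Finset V, x ∉ Z ∧
      (dl s t S Z).filter (fun e => γ e ≠ 0) = {f}) {u : V} (hu : u ∈ Ts s t γ) (hux : u ≠ x) :
    ∃ f ∈ inc s t S x, ∃ Z : Finset V, x ∉ Z ∧
      (dl s t S Z).filter (fun e => γ e ≠ 0) = {f} ∧ Ts s t γ ∩ Z = {u} := by
  obtain ⟨a, ha⟩ := nonempty_iff_ne_empty.2 (Ts_inc hC.base.loop h.g hx)
  obtain ⟨b, c, h1, h2, h3, h4⟩ := hC.inc3 h ha
  have hb : b ∈ inc s t S x := by rw [h4]; simp
  have hc : c ∈ inc s t S x := by rw [h4]; simp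
  obtain ⟨A, a1, a2⟩ := hst a ha
  obtain ⟨B, b1, b2⟩ := hst b hb
  obtain ⟨C, c1, c2⟩ := hst c hc
  have hP : ((Ts s t γ).erase x).card = 3 := by rw [card_erase_of_mem hx, hC.four h]
  have hsub : ∀ Z : Finset V, x ∉ Z → Ts s t γ ∩ Z ⊆ (Ts s t γ).erase x := by
    intro Z hZ v hv
    rw [mem_inter] at hv
    refine mem_erase.2 ⟨?_, hv.1⟩
    rintro rfl
    exact hZ hv.2
  have hodd : ∀ (Z : Finset V) (f : E), (dl s t S Z).filter (fun e => γ e ≠ 0) = {f} →
      (Ts s t γ ∩ Z).card % 2 = 1 := by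
    intro Z f hZ
    rw [parity h.g Z, hZ, card_singleton]
  have hev : ∀ Z W : Finset V, (dl s t S (Z ∩ W)).filter (fun e => γ e ≠ 0) = ∅ →
      ((Ts s t γ ∩ Z) ∩ (Ts s t γ ∩ W)).card % 2 = 0 := by
    intro Z W hZ
    have e1 : (Ts s t γ ∩ Z) ∩ (Ts s t γ ∩ W) = Ts s t γ ∩ (Z ∩ W) := by
      ext v; simp only [mem_inter]; tauto
    rw [e1, parity h.g (Z ∩ W), hZ, card_empty]
  rcases three_odd hP (hsub A a1) (hsub B b1) (hsub C c1) (hodd A a a2) (hodd B b b2)
    (hodd C c c2) (hev A B (star_inter ha hb h1 a1 b1 a2 b2))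
    (hev A C (star_inter ha hc h2 a1 c1 a2 c2)) (hev B C (star_inter hb hc h3 b1 c1 b2 c2))
    (mem_erase.2 ⟨hux, hu⟩) with h5 | h5 | h5
  · exact ⟨a, ha, A, a1, a2, h5⟩
  · exact ⟨b, hb, B, b1, b2, h5⟩
  · exact ⟨c, hc, C, c1, c2, h5⟩

/-- There is at most one `Zero` defect. -/
theorem Ctx.star_uniq (hC : Ctx s t S) (h : Str s t S β γ) {x x' : V} (hx : x ∈ Ts s t γ)
    (hx' : x' ∈ Ts s t γ)
    (hst : ∀ f ∈ inc s t S x, ∃ Z : Finset V, x ∉ Z ∧
      (dl s t S Z).filter (fun e => γ e ≠ 0) = {f})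
    (hst' : ∀ f ∈ inc s t S x', ∃ Z : Finset V, x' ∉ Z ∧
      (dl s t S Z).filter (fun e => γ e ≠ 0) = {f}) : x = x' := by
  by_contra hne
  obtain ⟨u, hu, hux, hux'⟩ : ∃ u ∈ Ts s t γ, u ≠ x ∧ u ≠ x' := by
    by_contra hc
    push Not at hc
    have h1 : Ts s t γ ⊆ {x, x'} := by
      intro u hu
      rw [mem_insert, mem_singleton]
      by_cases hux : u = x
      · exact Or.inl hux
      · exact Or.inr (hc u hu hux)
    have h2 := card_le_card h1
    have h3 : ({x, x'} : Finset V).card ≤ 2 := card_le_two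
    have h4 := hC.four h
    omega
  obtain ⟨f, hf, Z, a1, a2, a3⟩ := hC.star_cover h hx hst hu hux
  obtain ⟨g, hg, W, b1, b2, b3⟩ := hC.star_cover h hx' hst' hu hux'
  have hx'Z : x' ∉ Z := by
    intro hc
    have : x' ∈ Ts s t γ ∩ Z := mem_inter.2 ⟨hx', hc⟩
    rw [a3, mem_singleton] at this
    exact hux' this.symm
  have hxW : x ∉ W := by
    intro hc
    have : x ∈ Ts s t γ ∩ W := mem_inter.2 ⟨hx, hc⟩
    rw [b3, mem_singleton] at this
    exact hux this.symm
  have h1 := parity h.g (s := s) (t := t) (Z ∩ W)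
  have h2 : Ts s t γ ∩ (Z ∩ W) = {u} := by
    rw [← inter_assoc, a3]
    have : u ∈ Ts s t γ ∩ W := by rw [b3]; exact mem_singleton_self u
    ext v
    rw [mem_inter, mem_singleton]
    constructor
    · exact fun hh => hh.1
    · rintro rfl; exact ⟨rfl, (mem_inter.1 this).2⟩
  rw [h2, card_singleton] at h1
  obtain ⟨e, he⟩ : ((dl s t S (Z ∩ W)).filter fun e => γ e ≠ 0).Nonempty := by
    rw [← card_pos]; omega
  obtain ⟨he, hge⟩ := mem_filter.1 he
  obtain ⟨heS, hc⟩ := mem_dl.1 he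
  rcases crs_inter hc with h3 | h3
  · have h4 := mem_star a2 heS hge h3
    subst h4
    have h5 := crs_inter_iff hf a1 hc
    have h6 := mem_star b2 heS hge ((crs_oth hf hxW).2 h5.2)
    subst h6
    rcases (inc_iff hf).1 hg with h7 | h7
    · exact hne h7.symm
    · rw [← h7] at h5; exact hx'Z h5.1
  · have h4 := mem_star b2 heS hge h3
    subst h4
    have h5 := crs_inter_iff hg hx'Z hc
    have h6 := mem_star a2 heS hge ((crs_oth hg hx'Z).2 h5.1)
    subst h6
    rcases (inc_iff hg).1 hf with h7 | h7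
    · exact hne h7
    · rw [← h7] at h5; exact hxW h5.2

theorem not_zero_of_D (hl : ∀ e ∈ S, s e ≠ t e) {z : E → ZMod 2}
    (hb : ∀ e, β e ≠ 0 → e ∈ S) (hz : ∀ e, z e ≠ 0 → β e ≠ 0) {v : V} (hv : D s t z v ≠ 0) :
    ∃ b ∈ inc s t S v, β b ≠ 0 := by
  rw [D2_inc hl (fun e he => hb e (hz e he))] at hv
  obtain ⟨b, h1, h2⟩ := exists_ne_zero_of_sum_ne_zero hv
  exact ⟨b, h1, hz b h2⟩

theorem Ctx.mv (hC : Ctx s t S) (h : Mn s t S β γ) : ∀ x0 ∈ Ts s t γ, Zero s t S β x0 →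
    ∀ x ∈ Ts s t γ, x ≠ x0 → (∀ e ∈ inc s t S x0, e ∉ inc s t S x) → ∀ y, y ∉ Ts s t γ →
    (∃ e ∈ inc s t S x0, e ∈ inc s t S y) → ∃ Z, Cl s t β Z ∧ x ∈ Z ∧ y ∉ Z := by
  intro x0 hx0 hz0 x hx hxx0 hadj y hy hay
  obtain ⟨a, ha0, hay⟩ := hay
  by_contra hno
  push Not at hno
  have hxy : x ≠ y := fun hh => hy (hh ▸ hx)
  have hyx0 : y ≠ x0 := fun hh => hy (hh ▸ hx0)
  rcases chain (s := s) (t := t) (fun e => β e ≠ 0) x y with ⟨z0, hz1, hz2⟩ | ⟨Z, h1, h2, h3⟩
  · obtain ⟨b, hby, hbb⟩ : ∃ b ∈ inc s t S y, β b ≠ 0 :=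
      not_zero_of_D hC.base.loop h.str.b hz1 (by rw [hz2]; simp [one, hxy])
    -- choose the chain so that `b` leaves the support
    obtain ⟨z, hzs, hzD, hzb⟩ : ∃ z : E → ZMod 2, (∀ e, z e ≠ 0 → β e ≠ 0) ∧
        (∀ v, D s t z v = one x v + one y v) ∧ γ b + z b = 0 := by
      by_cases hgb : γ b + z0 b = 0
      · exact ⟨z0, hz1, hz2, hgb⟩
      · refine ⟨fun e => z0 e + β e, fun e he hb => ?_, fun v => ?_, ?_⟩
        · have h4 : z0 e ≠ 0 := by simpa [hb] using he
          exact hz1 e h4 hb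
        · rw [D_add, hz2, h.str.bD, add_zero]
        · beta_reduce
          rw [← add_assoc, z2_ne.1 hgb, z2_ne.1 hbb]; decide
    obtain ⟨Z, hZ, hxZ, hZT⟩ := hC.sepAll h.str hx
    have hyZ : y ∈ Z := hno Z hZ hxZ
    have hD : ∀ v, D s t (fun e => γ e + innP s t Z z e) v
        = D s t γ v + (one x v + one y v) := by
      intro v
      rw [D_add, D_innP_cl hZ hzs]
      by_cases hv : v ∈ Z
      · rw [if_pos hv, hzD]
      · rw [if_neg hv]
        have e1 : x ≠ v := fun hh => hv (hh ▸ hxZ)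
        have e2 : y ≠ v := fun hh => hv (hh ▸ hyZ)
        simp [one, e1, e2]
    have hT : Ts s t (fun e => γ e + innP s t Z z e) = insert y ((Ts s t γ).erase x) := by
      ext v
      rw [mem_Ts, hD, mem_insert, mem_erase, mem_Ts]
      by_cases hvy : v = y
      · subst hvy
        have e1 : D s t γ v = 0 := by
          by_contra hh
          exact hy (mem_Ts.2 hh)
        simp [one, hxy, e1]
      · by_cases hvx : v = x
        · subst hvx
          have e1 := z2_ne.1 (mem_Ts.1 hx)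
          have e2 : (1 : ZMod 2) + 1 = 0 := by decide
          simp [one, Ne.symm hxy, e1, hxy, e2]
        · simp [one, Ne.symm hvx, Ne.symm hvy, hvx, hvy]
    have hTc : (Ts s t (fun e => γ e + innP s t Z z e)).card ≤ 4 := by
      rw [hT, card_insert_of_notMem (fun hh => hy (mem_erase.1 hh).2), card_erase_of_mem hx,
        hC.four h.str]
    have hstr := h.str.add (innP_supp hzs) hTc
    have hH : (H3 s t S (fun e => γ e + innP s t Z z e)).card ≤ (H3 s t S γ).card := by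
      apply card_le_card
      intro v hv
      obtain ⟨h4, h5⟩ := mem_H3.1 hv
      rw [hT, mem_insert, mem_erase] at h4
      rcases h4 with h4 | ⟨h4, h6⟩
      · exfalso
        subst h4
        apply h5 b hby
        beta_reduce
        rw [innP_at_in hZ hyZ hby hbb, hzb]
      · refine mem_H3.2 ⟨h6, fun e he => ?_⟩
        have h7 := h5 e he
        beta_reduce at h7
        rwa [innP_at_out (fun hc => h4 (hZT v h6 hc)) he, add_zero] at h7
    have hJ := h.jj _ _ hstr hH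
    have hlt : (Jt s t S β γ).card < (Jt s t S β (fun e => γ e + innP s t Z z e)).card := by
      apply card_lt_card
      have hx0T : x0 ∈ Ts s t (fun e => γ e + innP s t Z z e) := by
        rw [hT]; exact mem_insert_of_mem (mem_erase.2 ⟨hxx0.symm, hx0⟩)
      rw [ssubset_iff_of_subset]
      · refine ⟨a, mem_Jt.2 ⟨x0, hx0T, hz0, ha0, y, ?_, hyx0, hay⟩, fun hc => ?_⟩
        · rw [hT]; exact mem_insert_self _ _
        · obtain ⟨x1, c1, c2, c3, w, c4, c5, c6⟩ := mem_Jt.1 hc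
          have e1 : x1 = x0 := hC.star_uniq h.str c1 hx0 (hC.star h x1 c1 c2)
            (hC.star h x0 hx0 hz0)
          subst e1
          have e2 := ((inc_iff c3).1 c6).resolve_left c5
          have e3 := ((inc_iff c3).1 hay).resolve_left hyx0
          apply hy
          rw [e3, ← e2]
          exact c4
      · intro e he
        obtain ⟨x1, c1, c2, c3, w, c4, c5, c6⟩ := mem_Jt.1 he
        have e1 : x1 = x0 := hC.star_uniq h.str c1 hx0 (hC.star h x1 c1 c2)
          (hC.star h x0 hx0 hz0)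
        subst e1
        refine mem_Jt.2 ⟨x1, hx0T, hz0, c3, w, ?_, c5, c6⟩
        rw [hT]
        refine mem_insert_of_mem (mem_erase.2 ⟨?_, c4⟩)
        rintro rfl
        exact hadj e c3 c6
    omega
  · exact h2 (hno Z (fun e he => by by_contra hne; exact h3 e hne he) h1)

/-- Normalised pairs exist. -/
theorem exists_norm (hC : Ctx s t S) (h : Str s t S β γ) : ∃ β' γ', Norm s t S β' γ' := by
  obtain ⟨β', γ', hm⟩ := exists_mn h
  exact ⟨β', γ', hm.str, hC.low hm, fun x hx y hy hxy => hC.sep hm.str hx hy hxy, hC.star hm,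
    hC.mv hm⟩

/-- In a normalised pair there is at most one `Zero` defect. -/
theorem Norm.uniq (hC : Ctx s t S) (h : Norm s t S β γ) {x x' : V} (hx : x ∈ Ts s t γ)
    (hx' : x' ∈ Ts s t γ) (hz : Zero s t S β x) (hz' : Zero s t S β x') : x = x' :=
  hC.star_uniq h.str hx hx' (h.star x hx hz) (h.star x' hx' hz')

end MP974d84.J
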