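import Mathlib
import Pool.Agent.Work.MP_974d84_co.J10

/-!
Corners of two obstructing cuts, the structure of corners with five boundary edges, and the end
game without `Zero` defects.
-/

namespace MP974d84.J

open Finset

variable {V E : Type*} [Fintype V] [DecidableEq V] [Fintype E] [DecidableEq E]
variable {s t : E → V} {S : Finset E} {β γ : E → ZMod 2}

/-- Edges between two sets of vertices. -/
def ebt (s t : E → V) (S : Finset E) (A B : Finset V) : Finset E :=
  S.filter fun e => (s e ∈ A ∧ t e ∈ B) ∨ (s e ∈ B ∧ t e ∈ A)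

theorem mem_ebt {A B : Finset V} {e : E} :
    e ∈ ebt s t S A B ↔ e ∈ S ∧ ((s e ∈ A ∧ t e ∈ B) ∨ (s e ∈ B ∧ t e ∈ A)) := by simp [ebt]

theorem ebt_comm (A B : Finset V) : ebt s t S A B = ebt s t S B A := by
  ext e; rw [mem_ebt, mem_ebt]; tauto

/-- Counting edges at the corners `X ∩ Y` and `(X ∪ Y)ᶜ`. -/
theorem corner1 (X Y : Finset V) :
    (dl s t S (X ∩ Y)).card + (dl s t S (X ∪ Y)ᶜ).card + 2 * (ebt s t S (X \ Y) (Y \ X)).card
      = (dl s t S X).card + (dl s t S Y).card := by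
  rw [dl_compl]
  simp only [dl, ebt, card_filter, mul_sum, ← sum_add_distrib]
  refine sum_congr rfl fun e _ => ?_
  unfold crs
  by_cases c1 : s e ∈ X <;> by_cases c2 : s e ∈ Y <;> by_cases c3 : t e ∈ X <;>
    by_cases c4 : t e ∈ Y <;> simp [c1, c2, c3, c4]

/-- Counting edges at the corners `X \ Y` and `Y \ X`. -/
theorem corner2 (X Y : Finset V) :
    (dl s t S (X \ Y)).card + (dl s t S (Y \ X)).card + 2 * (ebt s t S (X ∩ Y) (X ∪ Y)ᶜ).card
      = (dl s t S X).card + (dl s t S Y).card := by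
  simp only [dl, ebt, card_filter, mul_sum, ← sum_add_distrib]
  refine sum_congr rfl fun e _ => ?_
  unfold crs
  by_cases c1 : s e ∈ X <;> by_cases c2 : s e ∈ Y <;> by_cases c3 : t e ∈ X <;>
    by_cases c4 : t e ∈ Y <;> simp [c1, c2, c3, c4]

theorem dl_inter_sub (X Y : Finset V) : dl s t S (X ∩ Y) ⊆ dl s t S X ∪ dl s t S Y := by
  intro e he
  rw [mem_union, mem_dl, mem_dl]
  obtain ⟨h1, h2⟩ := mem_dl.1 he
  rcases crs_inter h2 with h | h
  · exact Or.inl ⟨h1, h⟩
  · exact Or.inr ⟨h1, h⟩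

theorem dl_union_sub (X Y : Finset V) : dl s t S (X ∪ Y) ⊆ dl s t S X ∪ dl s t S Y := by
  have h1 : X ∪ Y = (Xᶜ ∩ Yᶜ)ᶜ := by ext v; simp
  rw [h1, dl_compl]
  have h2 := dl_inter_sub (s := s) (t := t) (S := S) Xᶜ Yᶜ
  rwa [dl_compl, dl_compl] at h2

theorem dl_sdiff_sub (X Y : Finset V) : dl s t S (X \ Y) ⊆ dl s t S X ∪ dl s t S Y := by
  have h1 : X \ Y = X ∩ Yᶜ := by ext v; simp
  rw [h1]
  have h2 := dl_inter_sub (s := s) (t := t) (S := S) X Yᶜ
  rwa [dl_compl] at h2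

theorem inn_or_dl {A : Finset V} {v : V} {e : E} (he : e ∈ inc s t S v) (hv : v ∈ A) :
    e ∈ inn s t S A ∨ e ∈ dl s t S A := by
  obtain ⟨h1, h2⟩ := mem_inc.1 he
  rw [mem_inn, mem_dl]
  unfold crs
  rcases h2 with h2 | h2
  · subst h2
    by_cases h3 : t e ∈ A
    · exact Or.inl ⟨h1, hv, h3⟩
    · exact Or.inr ⟨h1, Or.inl ⟨hv, h3⟩⟩
  · subst h2
    by_cases h3 : s e ∈ A
    · exact Or.inl ⟨h1, h3, hv⟩
    · exact Or.inr ⟨h1, Or.inr ⟨h3, hv⟩⟩

theorem inn_end {A : Finset V} {v : V} {e : E} (he : e ∈ inn s t S A) (hv : e ∈ inc s t S v) :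
    v ∈ A := by
  obtain ⟨_, h1, h2⟩ := mem_inn.1 he
  rcases (mem_inc.1 hv).2 with h | h
  · rw [← h]; exact h1
  · rw [← h]; exact h2

theorem inn_not_dl {A : Finset V} {e : E} (he : e ∈ inn s t S A) : e ∉ dl s t S A := by
  intro h
  exact crs_not_inn (mem_dl.1 h).2 (mem_inn.1 he).2

theorem nv_mem {A : Finset V} {v : V} {e : E} (he : e ∈ inc s t S v) (hv : v ∈ A) :
    v ∈ nv s t S A :=
  mem_nv.2 ⟨hv, fun h => by rw [h] at he; exact notMem_empty e he⟩

theorem dl_end {A : Finset V} {e : E} (he : e ∈ dl s t S A) :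
    ∃ v ∈ nv s t S A, e ∈ inc s t S v := by
  obtain ⟨h1, h2⟩ := mem_dl.1 he
  rcases h2 with ⟨h2, _⟩ | ⟨_, h2⟩
  · exact ⟨s e, nv_mem (mem_inc.2 ⟨h1, Or.inl rfl⟩) h2, mem_inc.2 ⟨h1, Or.inl rfl⟩⟩
  · exact ⟨t e, nv_mem (mem_inc.2 ⟨h1, Or.inr rfl⟩) h2, mem_inc.2 ⟨h1, Or.inr rfl⟩⟩

/-- A crossing edge with an end in `A` has no second end in `A`. -/
theorem dl_two {A : Finset V} {u v : V} {e : E} (he : e ∈ dl s t S A) (hu : e ∈ inc s t S u)
    (hv : e ∈ inc s t S v) (huA : u ∈ A) (hvA : v ∈ A) : u = v := by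
  by_contra hne
  have h1 := ((inc_iff hu).1 hv).resolve_left (fun h => hne h.symm)
  have h2 : oth s t u e ∈ A := h1 ▸ hvA
  obtain ⟨_, h3⟩ := mem_dl.1 he
  unfold crs at h3
  rcases oth_spec hu with ⟨h4, h5⟩ | ⟨h4, h5⟩
  · rw [h4, h5] at h3; tauto
  · rw [h4, h5] at h3; tauto

theorem dl_oth {A : Finset V} {u : V} {e : E} (he : e ∈ dl s t S A) (hu : e ∈ inc s t S u)
    (huA : u ∈ A) : oth s t u e ∉ A := by
  intro h2
  obtain ⟨_, h3⟩ := mem_dl.1 he
  unfold crs at h3
  rcases oth_spec hu with ⟨h4, h5⟩ | ⟨h4, h5⟩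
  · rw [h4, h5] at h3; tauto
  · rw [h4, h5] at h3; tauto

theorem oth_eq {u v : V} {e : E} (hu : e ∈ inc s t S u) (hv : e ∈ inc s t S v) (huv : u ≠ v) :
    oth s t u e = v :=
  (((inc_iff hu).1 hv).resolve_left (fun h => huv h.symm)).symm

/-- The two `β`-edges at a defect which is not `Zero`. -/
theorem Norm.beta (hC : Ctx s t S) (h : Norm s t S β γ) {x : V} (hx : x ∈ Ts s t γ)
    (hz : ¬ Zero s t S β x) : ∃ e1 e2 c, e1 ≠ e2 ∧ e1 ≠ c ∧ e2 ≠ c ∧ inc s t S x = {e1, e2, c} ∧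
      β e1 ≠ 0 ∧ β e2 ≠ 0 ∧ β c = 0 ∧ γ e1 = 0 ∧ γ e2 = 0 ∧ γ c ≠ 0 := by
  have h1 : ∃ e ∈ inc s t S x, β e ≠ 0 := by
    by_contra hc
    push Not at hc
    exact hz hc
  obtain ⟨e1, he1, hb1⟩ := h1
  obtain ⟨e2, c, h2, h3, h4, h5, h6, h7⟩ := hC.beta3 h.str he1 hb1
  have h8 := (h.low x hx).resolve_left hz
  have he2 : e2 ∈ inc s t S x := by rw [h5]; simp
  have hc : c ∈ inc s t S x := by rw [h5]; simp
  exact ⟨e1, e2, c, h2, h3, h4, h5, hb1, h6, h7, h8 e1 he1 hb1, h8 e2 he2 h6,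
    ((h.str.supp c).2 (mem_inc.1 hc).1).resolve_left (fun hh => hh h7)⟩

theorem T_compl_card (hC : Ctx s t S) (h : Str s t S β γ) {A : Finset V} {x : V}
    (hA : Ts s t γ ∩ A = {x}) : 3 ≤ (nv s t S Aᶜ).card := by
  have h1 : (Ts s t γ).erase x ⊆ nv s t S Aᶜ := by
    intro v hv
    obtain ⟨h2, h3⟩ := mem_erase.1 hv
    refine hC.T_nv h h3 (mem_compl.2 fun h4 => h2 ?_)
    have : v ∈ Ts s t γ ∩ A := mem_inter.2 ⟨h3, h4⟩
    rw [hA] at this
    exact mem_singleton.1 this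
  have hx : x ∈ Ts s t γ := by
    have : x ∈ Ts s t γ ∩ A := by rw [hA]; exact mem_singleton_self x
    exact (mem_inter.1 this).1
  have h2 := card_le_card h1
  rw [card_erase_of_mem hx, hC.four h] at h2
  omega

theorem single_mem {T A : Finset V} {x : V} (hA : T ∩ A = {x}) : x ∈ T ∧ x ∈ A := by
  have : x ∈ T ∩ A := by rw [hA]; exact mem_singleton_self x
  exact mem_inter.1 this

/-- Corners have at least five boundary edges and at least three vertices. -/
theorem Norm.big (hC : Ctx s t S) (h : Norm s t S β γ) {A : Finset V} {x : V}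
    (hA : Ts s t γ ∩ A = {x}) (hz : ¬ Zero s t S β x) (hH : ∀ e ∈ dl s t S A, γ e ≠ 0) :
    (dl s t S A).card % 2 = 1 ∧ 5 ≤ (dl s t S A).card ∧ 3 ≤ (nv s t S A).card ∧
      2 ≤ (inn s t S A).card := by
  obtain ⟨hxT, hxA⟩ := single_mem hA
  have h1 := parity h.str.g (s := s) (t := t) A
  rw [hA, card_singleton, filter_true_of_mem hH] at h1
  obtain ⟨e1, e2, c, h2, _, _, h5, _, _, _, g1, g2, _⟩ := h.beta hC hxT hz
  have he1 : e1 ∈ inn s t S A :=
    (inn_or_dl (by rw [h5]; simp) hxA).resolve_right (fun hh => hH e1 hh g1)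
  have he2 : e2 ∈ inn s t S A :=
    (inn_or_dl (by rw [h5]; simp) hxA).resolve_right (fun hh => hH e2 hh g2)
  have h6 : 2 ≤ (inn s t S A).card := by
    rw [← card_pair h2]
    exact card_le_card (by
      intro e he
      simp only [mem_insert, mem_singleton] at he
      rcases he with rfl | rfl
      · exact he1
      · exact he2)
  have h7 := hC.count h.str A
  have h8 := hC.base.br A
  have h9 := T_compl_card hC h.str hA
  have h10 : (dl s t S A).card ≠ 3 := by
    intro h3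
    rcases hC.three h.str h3 with h11 | h11
    · omega
    · omega
  refine ⟨by omega, by omega, by omega, h6⟩

/-- The side condition of `Five` always holds for normalised pairs. -/
theorem Norm.cond (hC : Ctx s t S) (h : Norm s t S β γ) {W : Finset V} (y : V)
    (hH : ∀ e ∈ dl s t S W, γ e ≠ 0) :
    ∃ x1 : V, ∀ v, v ≠ x1 → ∀ e ∈ dl s t S W, ∀ e' ∈ dl s t S W, e ≠ e' →
      e ∈ inc s t S v → e' ∈ inc s t S v → β e ≠ β e' := by
  have key : ∀ v, ∀ e ∈ dl s t S W, ∀ e' ∈ dl s t S W, e ≠ e' →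
      e ∈ inc s t S v → e' ∈ inc s t S v → β e = β e' → v ∈ Ts s t γ ∧ Zero s t S β v := by
    intro v e he e' he' hne hev hev' hb
    obtain ⟨b, c, h1, h2, h3, h4⟩ := hC.inc3 h.str hev
    obtain ⟨k, hk1, hk2, hk3⟩ : ∃ k, inc s t S v = {e, e', k} ∧ e ≠ k ∧ e' ≠ k := by
      have : e' ∈ inc s t S v := hev'
      rw [h4] at this
      simp only [mem_insert, mem_singleton] at this
      rcases this with h5 | h5 | h5
      · exact absurd h5.symm hne
      · exact ⟨c, by rw [h4, h5], h2, by rw [h5]; exact h3⟩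
      · exact ⟨b, by rw [h4, h5, pair_comm], h1, by rw [h5]; exact h3.symm⟩
    have h5 := h.str.bD v
    rw [D2_inc hC.base.loop h.str.b, hk1, sum3 hne hk2 hk3] at h5
    have hbk : β k = 0 := by
      rw [hb, ← add_assoc, z2_add_self, zero_add] at h5
      exact h5
    have hkS : k ∈ S := by
      have : k ∈ inc s t S v := by rw [hk1]; simp
      exact (mem_inc.1 this).1
    have hgk : γ k ≠ 0 := ((h.str.supp k).2 hkS).resolve_left (fun hh => hh hbk)
    have hge := hH e he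
    have hge' := hH e' he'
    have hT : v ∈ Ts s t γ := by
      rw [mem_Ts, D2_inc hC.base.loop h.str.g, hk1, sum3 hne hk2 hk3, z2_ne.1 hge,
        z2_ne.1 hge', z2_ne.1 hgk]
      decide
    refine ⟨hT, ?_⟩
    rcases h.low v hT with h6 | h6
    · exact h6
    · have hbe : β e = 0 := by
        by_contra hc
        exact hge (h6 e hev hc)
      intro f hf
      rw [hk1] at hf
      simp only [mem_insert, mem_singleton] at hf
      rcases hf with rfl | rfl | rfl
      · exact hbe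
      · rw [← hb]; exact hbe
      · exact hbk
  by_cases hex : ∃ x0 ∈ Ts s t γ, Zero s t S β x0
  · obtain ⟨x0, h1, h2⟩ := hex
    refine ⟨x0, fun v hv e he e' he' hne hev hev' hb => ?_⟩
    obtain ⟨h3, h4⟩ := key v e he e' he' hne hev hev' hb
    exact hv (h.uniq hC h3 h1 h4 h2)
  · push Not at hex
    refine ⟨y, fun v hv e he e' he' hne hev hev' hb => ?_⟩
    obtain ⟨h3, h4⟩ := key v e he e' he' hne hev hev' hb
    exact hex v h3 h4

/-- A corner with five boundary edges: a defect `x` with its two neighbours `p`, `q` along the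
edges `e1`, `e2`; the other `β`-edges at `p` and `q` are `g1` and `g2`. -/
structure Cor (s t : E → V) (S : Finset E) (β γ : E → ZMod 2) (A : Finset V) (x p q : V)
    (e1 e2 g1 g2 : E) : Prop where
  TA : Ts s t γ ∩ A = {x}
  xp : x ≠ p
  xq : x ≠ q
  pq : p ≠ q
  nvA : nv s t S A = {x, p, q}
  innA : inn s t S A = {e1, e2}
  e12 : e1 ≠ e2
  e1x : e1 ∈ inc s t S x
  e1p : e1 ∈ inc s t S p
  e2x : e2 ∈ inc s t S x
  e2q : e2 ∈ inc s t S q
  be1 : β e1 ≠ 0
  be2 : β e2 ≠ 0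
  ge1 : γ e1 = 0
  ge2 : γ e2 = 0
  g1A : g1 ∈ dl s t S A
  g1p : g1 ∈ inc s t S p
  bg1 : β g1 ≠ 0
  g2A : g2 ∈ dl s t S A
  g2q : g2 ∈ inc s t S q
  bg2 : β g2 ≠ 0
  g12 : g1 ≠ g2
  only : ∀ e ∈ dl s t S A, β e ≠ 0 → e = g1 ∨ e = g2

theorem Norm.five_corner (hC : Ctx s t S) (h : Norm s t S β γ) (h5 : Five s t S β γ)
    {A : Finset V} {x : V} (hA : Ts s t γ ∩ A = {x}) (hz : ¬ Zero s t S β x)
    (hd : (dl s t S A).card = 5) (hH : ∀ e ∈ dl s t S A, γ e ≠ 0)
    (hAc : 5 ≤ (nv s t S Aᶜ).card) :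
    ∃ p q e1 e2 g1 g2, Cor s t S β γ A x p q e1 e2 g1 g2 := by
  obtain ⟨hxT, hxA⟩ := single_mem hA
  have hnv : (nv s t S A).card = 3 := h5 A hd hH (by rw [hA, card_singleton]) hAc (h.cond hC x hH)
  obtain ⟨e1, e2, c, h12, h1c, h2c, hix, hb1, hb2, hbc, hg1, hg2, hgc⟩ := h.beta hC hxT hz
  have h1x : e1 ∈ inc s t S x := by rw [hix]; simp
  have h2x : e2 ∈ inc s t S x := by rw [hix]; simp
  have he1 : e1 ∈ inn s t S A := (inn_or_dl h1x hxA).resolve_right (fun hh => hH e1 hh hg1)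
  have he2 : e2 ∈ inn s t S A := (inn_or_dl h2x hxA).resolve_right (fun hh => hH e2 hh hg2)
  have hcnt := hC.count h.str A
  have hsub : ({e1, e2} : Finset E) ⊆ inn s t S A := by
    intro e he
    simp only [mem_insert, mem_singleton] at he
    rcases he with rfl | rfl
    · exact he1
    · exact he2
  have hinn : inn s t S A = {e1, e2} := by
    symm
    apply eq_of_subset_of_card_le hsub
    rw [card_pair h12]
    omega
  have h1p := oth_inc h1x
  have h2q := oth_inc h2x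
  have hpA := inn_end he1 h1p
  have hqA := inn_end he2 h2q
  have hxp := oth_ne hC.base.loop h1x
  have hxq := oth_ne hC.base.loop h2x
  set p := oth s t x e1 with hp
  set q := oth s t x e2 with hq
  have hpq : p ≠ q := by
    intro hpq
    have h6 := hC.count h.str ({x, p} : Finset V)
    have h7 : inn s t S {x, p} = {e1, e2} := by
      apply Subset.antisymm
      · intro e he
        rw [← hinn]
        obtain ⟨k1, k2, k3⟩ := mem_inn.1 he
        have hxpA : ∀ v ∈ ({x, p} : Finset V), v ∈ A := by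
          intro v hv
          simp only [mem_insert, mem_singleton] at hv
          rcases hv with rfl | rfl
          · exact hxA
          · exact hpA
        exact mem_inn.2 ⟨k1, hxpA _ k2, hxpA _ k3⟩
      · intro e he
        simp only [mem_insert, mem_singleton] at he
        rcases he with rfl | rfl
        · refine mem_inn.2 ⟨(mem_inc.1 h1x).1, ?_⟩
          rcases oth_spec h1x with ⟨k1, k2⟩ | ⟨k1, k2⟩
          · rw [k1, k2]; simp [hp]
          · rw [k1, k2]; simp [hp]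
        · refine mem_inn.2 ⟨(mem_inc.1 h2x).1, ?_⟩
          rcases oth_spec h2x with ⟨k1, k2⟩ | ⟨k1, k2⟩
          · rw [k1, k2]; simp [hpq, hq]
          · rw [k1, k2]; simp [hpq, hq]
    have h8 : nv s t S ({x, p} : Finset V) = {x, p} := by
      apply Subset.antisymm
      · exact filter_subset _ _
      · intro v hv
        simp only [mem_insert, mem_singleton] at hv
        rcases hv with rfl | rfl
        · exact nv_mem h1x (by simp)
        · exact nv_mem h1p (by simp)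
    rw [h7, h8, card_pair h12, card_pair hxp.symm] at h6
    exact hC.no2 h.str ({x, p} : Finset V) (by omega)
  have hnvA : nv s t S A = {x, p, q} := by
    symm
    apply eq_of_subset_of_card_le
    · intro v hv
      simp only [mem_insert, mem_singleton] at hv
      rcases hv with rfl | rfl | rfl
      · exact nv_mem h1x hxA
      · exact nv_mem h1p hpA
      · exact nv_mem h2q hqA
    · rw [hnv, card_insert_of_notMem, card_pair hpq]
      simp [hxp.symm, hxq.symm]
  obtain ⟨g1, c1, k1, k2, k3, k4, k5, k6⟩ := hC.beta3 h.str h1p hb1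
  obtain ⟨g2, c2, l1, l2, l3, l4, l5, l6⟩ := hC.beta3 h.str h2q hb2
  have hg1p : g1 ∈ inc s t S p := by rw [k4]; simp
  have hg2q : g2 ∈ inc s t S q := by rw [l4]; simp
  have n1 : e2 ∉ inc s t S p := by
    intro hh
    rcases (inc_iff h2x).1 hh with h6 | h6
    · exact hxp h6
    · exact hpq h6
  have n2 : e1 ∉ inc s t S q := by
    intro hh
    rcases (inc_iff h1x).1 hh with h6 | h6
    · exact hxq h6
    · exact hpq h6.symm
  have hg1A : g1 ∈ dl s t S A := by
    refine (inn_or_dl hg1p hpA).resolve_left (fun hh => ?_)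
    rw [hinn] at hh
    simp only [mem_insert, mem_singleton] at hh
    rcases hh with hh | hh
    · exact k1 hh.symm
    · exact n1 (hh ▸ hg1p)
  have hg2A : g2 ∈ dl s t S A := by
    refine (inn_or_dl hg2q hqA).resolve_left (fun hh => ?_)
    rw [hinn] at hh
    simp only [mem_insert, mem_singleton] at hh
    rcases hh with hh | hh
    · exact n2 (hh ▸ hg2q)
    · exact l1 hh.symm
  refine ⟨p, q, e1, e2, g1, g2, hA, hxp.symm, hxq.symm, hpq, hnvA, hinn, h12, h1x, h1p, h2x, h2q,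
    hb1, hb2, hg1, hg2, hg1A, hg1p, k5, hg2A, hg2q, l5, ?_, ?_⟩
  · intro hh
    exact hpq (dl_two hg1A hg1p (hh ▸ hg2q) hpA hqA)
  · intro e he hbe
    obtain ⟨v, hv, hev⟩ := dl_end he
    rw [hnvA] at hv
    simp only [mem_insert, mem_singleton] at hv
    rcases hv with rfl | rfl | rfl
    · exfalso
      rw [hix] at hev
      simp only [mem_insert, mem_singleton] at hev
      rcases hev with rfl | rfl | rfl
      · exact inn_not_dl he1 he
      · exact inn_not_dl he2 he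
      · exact hbe hbc
    · left
      rw [k4] at hev
      simp only [mem_insert, mem_singleton] at hev
      rcases hev with rfl | rfl | rfl
      · exact absurd he (inn_not_dl he1)
      · rfl
      · exact absurd k6 hbe
    · right
      rw [l4] at hev
      simp only [mem_insert, mem_singleton] at hev
      rcases hev with rfl | rfl | rfl
      · exact absurd he (inn_not_dl he2)
      · rfl
      · exact absurd l6 hbe

theorem Cor.xA {A : Finset V} {x p q : V} {e1 e2 g1 g2 : E}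
    (c : Cor s t S β γ A x p q e1 e2 g1 g2) : x ∈ A := (single_mem c.TA).2

theorem Cor.xT {A : Finset V} {x p q : V} {e1 e2 g1 g2 : E}
    (c : Cor s t S β γ A x p q e1 e2 g1 g2) : x ∈ Ts s t γ := (single_mem c.TA).1

theorem Cor.pA {A : Finset V} {x p q : V} {e1 e2 g1 g2 : E}
    (c : Cor s t S β γ A x p q e1 e2 g1 g2) : p ∈ A := by
  have : p ∈ nv s t S A := by rw [c.nvA]; simp
  exact (mem_nv.1 this).1

theorem Cor.qA {A : Finset V} {x p q : V} {e1 e2 g1 g2 : E}
    (c : Cor s t S β γ A x p q e1 e2 g1 g2) : q ∈ A := by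
  have : q ∈ nv s t S A := by rw [c.nvA]; simp
  exact (mem_nv.1 this).1

theorem Cor.pT {A : Finset V} {x p q : V} {e1 e2 g1 g2 : E}
    (c : Cor s t S β γ A x p q e1 e2 g1 g2) : p ∉ Ts s t γ := by
  intro h
  have : p ∈ Ts s t γ ∩ A := mem_inter.2 ⟨h, c.pA⟩
  rw [c.TA] at this
  exact c.xp (mem_singleton.1 this).symm

theorem Cor.qT {A : Finset V} {x p q : V} {e1 e2 g1 g2 : E}
    (c : Cor s t S β γ A x p q e1 e2 g1 g2) : q ∉ Ts s t γ := by
  intro h
  have : q ∈ Ts s t γ ∩ A := mem_inter.2 ⟨h, c.qA⟩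
  rw [c.TA] at this
  exact c.xq (mem_singleton.1 this).symm

/-- Closed sets contain both ends of an edge with `β ≠ 0` or none. -/
theorem Cl.both {Z : Finset V} (hZ : Cl s t β Z) {u v : V} {e : E} (hu : e ∈ inc s t S u)
    (hv : e ∈ inc s t S v) (hb : β e ≠ 0) (h : u ∈ Z) : v ∈ Z := by
  by_contra hc
  have huv : u ≠ v := fun hh => hc (hh ▸ h)
  have h1 := oth_eq hu hv huv
  apply hb
  apply hZ
  unfold crs
  rcases oth_spec hu with ⟨h4, h5⟩ | ⟨h4, h5⟩
  · rw [h4, h5, h1]; tauto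
  · rw [h4, h5, h1]; tauto

/-- A closed set containing the defect of a corner contains the whole corner. -/
theorem Cor.sub {A : Finset V} {x p q : V} {e1 e2 g1 g2 : E}
    (c : Cor s t S β γ A x p q e1 e2 g1 g2) {Z : Finset V} (hZ : Cl s t β Z) (hx : x ∈ Z) :
    p ∈ Z ∧ q ∈ Z :=
  ⟨hZ.both c.e1x c.e1p c.be1 hx, hZ.both c.e2x c.e2q c.be2 hx⟩

theorem Cor.sub' {A : Finset V} {x p q : V} {e1 e2 g1 g2 : E}
    (c : Cor s t S β γ A x p q e1 e2 g1 g2) {Z : Finset V} (hZ : Cl s t β Z) (hx : x ∉ Z) :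
    p ∉ Z ∧ q ∉ Z :=
  ⟨fun h => hx (hZ.both c.e1p c.e1x c.be1 h), fun h => hx (hZ.both c.e2q c.e2x c.be2 h)⟩

theorem Cor.swap {A : Finset V} {x p q : V} {e1 e2 g1 g2 : E}
    (c : Cor s t S β γ A x p q e1 e2 g1 g2) : Cor s t S β γ A x q p e2 e1 g2 g1 where
  TA := c.TA
  xp := c.xq
  xq := c.xp
  pq := c.pq.symm
  nvA := by rw [c.nvA, pair_comm p q]
  innA := by rw [c.innA, pair_comm]
  e12 := c.e12.symm
  e1x := c.e2x
  e1p := c.e2q
  e2x := c.e1x
  e2q := c.e1p
  be1 := c.be2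
  be2 := c.be1
  ge1 := c.ge2
  ge2 := c.ge1
  g1A := c.g2A
  g1p := c.g2q
  bg1 := c.bg2
  g2A := c.g1A
  g2q := c.g1p
  bg2 := c.bg1
  g12 := c.g12.symm
  only e he hb := (c.only e he hb).symm

/-- The `β`-edge `g1` leaves the union of two corners. -/
theorem Cor.leave {A B : Finset V} {x p q x' p' q' : V} {e1 e2 g1 g2 e1' e2' g1' g2' : E}
    (c : Cor s t S β γ A x p q e1 e2 g1 g2) (c' : Cor s t S β γ B x' p' q' e1' e2' g1' g2')
    (hAB : Disjoint A B) {Z : Finset V} (hZ : Cl s t β Z) (hx : x ∈ Z) (hx' : x' ∉ Z) :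
    g1 ∈ dl s t S (A ∪ B) := by
  have hpAB : p ∈ A ∪ B := mem_union_left _ c.pA
  refine (inn_or_dl c.g1p hpAB).resolve_left (fun hh => ?_)
  have ho := oth_inc c.g1p
  have h1 := inn_end hh ho
  rcases mem_union.1 h1 with h2 | h2
  · exact absurd h2 (dl_oth c.g1A c.g1p c.pA)
  · have h3 : oth s t p g1 ∈ nv s t S B := nv_mem ho h2
    have h4 : oth s t p g1 ∈ Z := hZ.both c.g1p ho c.bg1 (c.sub hZ hx).1
    rw [c'.nvA] at h3
    simp only [mem_insert, mem_singleton] at h3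
    rcases h3 with h5 | h5 | h5
    · exact hx' (h5 ▸ h4)
    · exact (c'.sub' hZ hx').1 (h5 ▸ h4)
    · exact (c'.sub' hZ hx').2 (h5 ▸ h4)

/-- The four `β`-edges leaving two disjoint corners leave their union. -/
theorem four_beta (hC : Ctx s t S) (h : Norm s t S β γ) {A B : Finset V}
    {x p q x' p' q' : V} {e1 e2 g1 g2 e1' e2' g1' g2' : E}
    (c : Cor s t S β γ A x p q e1 e2 g1 g2) (c' : Cor s t S β γ B x' p' q' e1' e2' g1' g2')
    (hAB : Disjoint A B) (hxx : x ≠ x') :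
    4 ≤ ((dl s t S (A ∪ B)).filter fun e => β e ≠ 0).card := by
  obtain ⟨Z, hZ, hx, hx'⟩ := h.sep x c.xT x' c'.xT hxx
  obtain ⟨W, hW, kx', kx⟩ := h.sep x' c'.xT x c.xT hxx.symm
  have a1 := c.leave c' hAB hZ hx hx'
  have a2 := c.swap.leave c' hAB hZ hx hx'
  have a3 := c'.leave c hAB.symm hW kx' kx
  have a4 := c'.swap.leave c hAB.symm hW kx' kx
  rw [union_comm B A] at a3 a4
  have dis : ∀ {u v : V} {e f : E}, u ∈ A → v ∈ B → e ∈ inc s t S u → f ∈ inc s t S v →
      e ∈ dl s t S (A ∪ B) → e ≠ f := by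
    rintro u v e f hu hv heu hfv he rfl
    have h1 := dl_two he heu hfv (mem_union_left _ hu) (mem_union_right _ hv)
    subst h1
    exact (disjoint_left.1 hAB hu) hv
  have b1 := dis c.pA c'.pA c.g1p c'.g1p a1
  have b2 := dis c.pA c'.qA c.g1p c'.g2q a1
  have b3 := dis c.qA c'.pA c.g2q c'.g1p a2
  have b4 := dis c.qA c'.qA c.g2q c'.g2q a2
  have hcard : ({g1, g2, g1', g2'} : Finset E).card = 4 := by
    rw [card_insert_of_notMem, card_insert_of_notMem, card_pair c'.g12]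
    · simp [b3, b4]
    · simp [b1, b2, c.g12]
  rw [← hcard]
  apply card_le_card
  intro e he
  simp only [mem_insert, mem_singleton] at he
  rw [mem_filter]
  rcases he with rfl | rfl | rfl | rfl
  · exact ⟨a1, c.bg1⟩
  · exact ⟨a2, c.bg2⟩
  · exact ⟨a3, c'.bg1⟩
  · exact ⟨a4, c'.bg2⟩

theorem nv_card_add {A B W : Finset V} (hA : A ⊆ W) (hB : B ⊆ W) (hAB : Disjoint A B) :
    (nv s t S A).card + (nv s t S B).card ≤ (nv s t S W).card := by
  rw [← card_union_of_disjoint]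
  · apply card_le_card
    intro v hv
    rcases mem_union.1 hv with h | h
    · exact mem_nv.2 ⟨hA (mem_nv.1 h).1, (mem_nv.1 h).2⟩
    · exact mem_nv.2 ⟨hB (mem_nv.1 h).1, (mem_nv.1 h).2⟩
  · exact disjoint_left.2 fun v hv hv' =>
      (disjoint_left.1 hAB (mem_nv.1 hv).1) (mem_nv.1 hv').1

/-- An obstructing cut for every feasible set of sinks. -/
theorem Norm.bad (hC : Ctx s t S) (h : Norm s t S β γ) {P : Finset V} (hP : P ⊆ Ts s t γ)
    (hP2 : P.card = 2)
    (hf : ∀ Z : Finset V, (∀ e ∈ dl s t S Z, γ e = 0) → Ts s t γ ∩ Z ≠ P) :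
    ∃ (a : E → ℤ) (X : Finset V), Ts s t γ ∩ X = P ∧ Bad s t S β γ a X := by
  have h4 := hC.four h.str
  obtain ⟨a, ha1, ha2, ha3⟩ := exists_lift h.str.g hP (by omega) (by omega)
    (fun Z hZ _ => hf Z hZ)
  obtain ⟨X, h1, h2⟩ := exists_bad h.str.supp hC.base.br (hC.no2 h.str) h.str.bD hC.hno hP h4
    hP2 ha1 ha2 ha3
  exact ⟨a, X, h1, h2⟩

theorem closed_inter {X Y : Finset V} (hX : ∀ e ∈ dl s t S X, γ e = 0)
    (hY : ∀ e ∈ dl s t S Y, γ e = 0) : ∀ e ∈ dl s t S (X ∩ Y), γ e = 0 := by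
  intro e he
  rcases mem_union.1 (dl_inter_sub X Y he) with h | h
  · exact hX e h
  · exact hY e h

/-- Of two sets of sinks with one common element at least one is feasible. -/
theorem Norm.feas (h : Norm s t S β γ) {P P' : Finset V} (hPP : (P ∩ P').card = 1) :
    (∀ Z : Finset V, (∀ e ∈ dl s t S Z, γ e = 0) → Ts s t γ ∩ Z ≠ P) ∨
    (∀ Z : Finset V, (∀ e ∈ dl s t S Z, γ e = 0) → Ts s t γ ∩ Z ≠ P') := by
  by_contra hc
  push Not at hc
  obtain ⟨⟨Z, h1, h2⟩, W, h3, h4⟩ := hc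
  have h5 := parity h.str.g (s := s) (t := t) (Z ∩ W)
  have h6 : Ts s t γ ∩ (Z ∩ W) = P ∩ P' := by
    rw [← h2, ← h4]
    ext v; simp only [mem_inter]; tauto
  have h7 : (dl s t S (Z ∩ W)).filter (fun e => γ e ≠ 0) = ∅ := by
    rw [filter_eq_empty_iff]
    intro e he hne
    exact hne (closed_inter h1 h3 e he)
  rw [h6, h7, hPP, card_empty] at h5
  omega

/-- Two obstructing cuts crossing at the defects, all corners without `Zero` defects. -/
theorem two_bad (hC : Ctx s t S) (h : Norm s t S β γ) (h5 : Five s t S β γ)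
    (h0 : ∀ v ∈ Ts s t γ, ¬ Zero s t S β v) {X Y : Finset V} {a a' : E → ℤ}
    (hX : Bad s t S β γ a X) (hY : Bad s t S β γ a' Y) {x1 x2 x3 x4 : V}
    (h1 : Ts s t γ ∩ (X ∩ Y) = {x1}) (h2 : Ts s t γ ∩ (X \ Y) = {x2})
    (h3 : Ts s t γ ∩ (Y \ X) = {x3}) (h4 : Ts s t γ ∩ (X ∪ Y)ᶜ = {x4}) : False := by
  have hsub : ∀ {A : Finset V}, dl s t S A ⊆ dl s t S X ∪ dl s t S Y →
      ∀ e ∈ dl s t S A, γ e ≠ 0 := by
    intro A hA e he
    rcases mem_union.1 (hA he) with hh | hh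
    · exact hX.H e hh
    · exact hY.H e hh
  have s1 := hsub (dl_inter_sub (s := s) (t := t) (S := S) X Y)
  have s2 := hsub (dl_sdiff_sub (s := s) (t := t) (S := S) X Y)
  have s3 := hsub (A := Y \ X) (by rw [union_comm]; exact dl_sdiff_sub Y X)
  have s4 := hsub (A := (X ∪ Y)ᶜ) (by rw [dl_compl]; exact dl_union_sub X Y)
  obtain ⟨o1, g1, n1, _⟩ := h.big hC h1 (h0 _ (single_mem h1).1) s1
  obtain ⟨o2, g2, n2, _⟩ := h.big hC h2 (h0 _ (single_mem h2).1) s2
  obtain ⟨o3, g3, n3, _⟩ := h.big hC h3 (h0 _ (single_mem h3).1) s3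
  obtain ⟨o4, g4, n4, _⟩ := h.big hC h4 (h0 _ (single_mem h4).1) s4
  have c1 := corner1 (s := s) (t := t) (S := S) X Y
  have c2 := corner2 (s := s) (t := t) (S := S) X Y
  rw [hX.six, hY.six] at c1 c2
  -- the four sets are disjoint
  have d12 : Disjoint (X ∩ Y) (X \ Y) := disjoint_left.2 fun v hv hv' =>
    (mem_sdiff.1 hv').2 (mem_inter.1 hv).2
  have d13 : Disjoint (X ∩ Y) (Y \ X) := disjoint_left.2 fun v hv hv' =>
    (mem_sdiff.1 hv').2 (mem_inter.1 hv).1
  have d42 : Disjoint (X ∪ Y)ᶜ (X \ Y) := disjoint_left.2 fun v hv hv' =>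
    (mem_compl.1 hv) (mem_union_left _ (mem_sdiff.1 hv').1)
  have d43 : Disjoint (X ∪ Y)ᶜ (Y \ X) := disjoint_left.2 fun v hv hv' =>
    (mem_compl.1 hv) (mem_union_right _ (mem_sdiff.1 hv').1)
  have d14 : Disjoint (X ∩ Y) (X ∪ Y)ᶜ := disjoint_left.2 fun v hv hv' =>
    (mem_compl.1 hv') (mem_union_left _ (mem_inter.1 hv).1)
  have d23 : Disjoint (X \ Y) (Y \ X) := disjoint_left.2 fun v hv hv' =>
    (mem_sdiff.1 hv').2 (mem_sdiff.1 hv).1
  have cc : ∀ {A B : Finset V}, Disjoint A B → B ⊆ Aᶜ := fun hAB v hv =>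
    mem_compl.2 fun hv' => (disjoint_left.1 hAB hv') hv
  have m1 : 5 ≤ (nv s t S (X ∩ Y)ᶜ).card := by
    have := nv_card_add (s := s) (t := t) (S := S) (cc d12) (cc d13) d23; omega
  have m2 : 5 ≤ (nv s t S (X \ Y)ᶜ).card := by
    have := nv_card_add (s := s) (t := t) (S := S) (cc d12.symm) (cc d42.symm) d14; omega
  have m3 : 5 ≤ (nv s t S (Y \ X)ᶜ).card := by
    have := nv_card_add (s := s) (t := t) (S := S) (cc d13.symm) (cc d43.symm) d14; omega
  have m4 : 5 ≤ (nv s t S ((X ∪ Y)ᶜ)ᶜ).card := by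
    have := nv_card_add (s := s) (t := t) (S := S) (cc d42) (cc d43) d23; omega
  have u12 : (X ∩ Y) ∪ (X \ Y) = X := by ext v; simp only [mem_union, mem_inter, mem_sdiff]; tauto
  have u13 : (X ∩ Y) ∪ (Y \ X) = Y := by ext v; simp only [mem_union, mem_inter, mem_sdiff]; tauto
  have u42 : (X ∪ Y)ᶜ ∪ (X \ Y) = Yᶜ := by
    ext v; simp only [mem_union, mem_compl, mem_sdiff]; tauto
  have u43 : (X ∪ Y)ᶜ ∪ (Y \ X) = Xᶜ := by
    ext v; simp only [mem_union, mem_compl, mem_sdiff]; tauto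
  have e12 : x1 ≠ x2 := by
    rintro rfl; exact (disjoint_left.1 d12 (single_mem h1).2) (single_mem h2).2
  have e13 : x1 ≠ x3 := by
    rintro rfl; exact (disjoint_left.1 d13 (single_mem h1).2) (single_mem h3).2
  have e42 : x4 ≠ x2 := by
    rintro rfl; exact (disjoint_left.1 d42 (single_mem h4).2) (single_mem h2).2
  have e43 : x4 ≠ x3 := by
    rintro rfl; exact (disjoint_left.1 d43 (single_mem h4).2) (single_mem h3).2
  have f1 : (dl s t S (X ∩ Y)).card = 5 → ∃ p q e1 e2 g1 g2,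
      Cor s t S β γ (X ∩ Y) x1 p q e1 e2 g1 g2 := fun hd =>
    h.five_corner hC h5 h1 (h0 _ (single_mem h1).1) hd s1 m1
  have f2 : (dl s t S (X \ Y)).card = 5 → ∃ p q e1 e2 g1 g2,
      Cor s t S β γ (X \ Y) x2 p q e1 e2 g1 g2 := fun hd =>
    h.five_corner hC h5 h2 (h0 _ (single_mem h2).1) hd s2 m2
  have f3 : (dl s t S (Y \ X)).card = 5 → ∃ p q e1 e2 g1 g2,
      Cor s t S β γ (Y \ X) x3 p q e1 e2 g1 g2 := fun hd =>
    h.five_corner hC h5 h3 (h0 _ (single_mem h3).1) hd s3 m3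
  have f4 : (dl s t S (X ∪ Y)ᶜ).card = 5 → ∃ p q e1 e2 g1 g2,
      Cor s t S β γ (X ∪ Y)ᶜ x4 p q e1 e2 g1 g2 := fun hd =>
    h.five_corner hC h5 h4 (h0 _ (single_mem h4).1) hd s4 m4
  have t1 : (dl s t S (X ∩ Y)).card = 5 ∨ (dl s t S (X ∪ Y)ᶜ).card = 5 := by omega
  have t2 : (dl s t S (X \ Y)).card = 5 ∨ (dl s t S (Y \ X)).card = 5 := by omega
  rcases t1 with t1 | t1 <;> rcases t2 with t2 | t2
  · obtain ⟨p, q, e1, e2, k1, k2, hc⟩ := f1 t1
    obtain ⟨p', q', e1', e2', k1', k2', hc'⟩ := f2 t2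
    have := four_beta hC h hc hc' d12 e12
    rw [u12, hX.two] at this; omega
  · obtain ⟨p, q, e1, e2, k1, k2, hc⟩ := f1 t1
    obtain ⟨p', q', e1', e2', k1', k2', hc'⟩ := f3 t2
    have := four_beta hC h hc hc' d13 e13
    rw [u13, hY.two] at this; omega
  · obtain ⟨p, q, e1, e2, k1, k2, hc⟩ := f4 t1
    obtain ⟨p', q', e1', e2', k1', k2', hc'⟩ := f2 t2
    have := four_beta hC h hc hc' d42 e42
    rw [u42, dl_compl, hY.two] at this; omega
  · obtain ⟨p, q, e1, e2, k1, k2, hc⟩ := f4 t1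
    obtain ⟨p', q', e1', e2', k1', k2', hc'⟩ := f3 t2
    have := four_beta hC h hc hc' d43 e43
    rw [u43, dl_compl, hX.two] at this; omega

/-- The end game without `Zero` defects. -/
theorem endgame0 (hC : Ctx s t S) (h : Norm s t S β γ) (h5 : Five s t S β γ)
    (h0 : ∀ v ∈ Ts s t γ, ¬ Zero s t S β v) : False := by
  have h4 := hC.four h.str
  obtain ⟨w, hw⟩ : (Ts s t γ).Nonempty := by rw [← card_pos]; omega
  have h3 : ((Ts s t γ).erase w).card = 3 := by rw [card_erase_of_mem hw, h4]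
  obtain ⟨x, y, z, hxy, hxz, hyz, hT⟩ := card_eq_three.1 h3
  have hTw : Ts s t γ = {w, x, y, z} := by
    rw [← insert_erase hw, hT]
  have hne : ∀ v ∈ ({x, y, z} : Finset V), v ≠ w := by
    intro v hv
    rw [← hT] at hv
    exact (mem_erase.1 hv).1
  have hwx : w ≠ x := (hne x (by simp)).symm
  have hwy : w ≠ y := (hne y (by simp)).symm
  have hwz : w ≠ z := (hne z (by simp)).symm
  -- two sets of sinks suffice
  have key : ∀ x y z : V, w ≠ x → w ≠ y → w ≠ z → x ≠ y → x ≠ z → y ≠ z →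
      Ts s t γ = {w, x, y, z} →
      (∀ Z : Finset V, (∀ e ∈ dl s t S Z, γ e = 0) → Ts s t γ ∩ Z ≠ {w, x}) →
      (∀ Z : Finset V, (∀ e ∈ dl s t S Z, γ e = 0) → Ts s t γ ∩ Z ≠ {w, y}) → False := by
    intro x y z hwx hwy hwz hxy hxz hyz hT fx fy
    obtain ⟨a, X, hX, hbX⟩ := h.bad hC (P := {w, x}) (by rw [hT]; intro v hv; simp at hv ⊢; tauto)
      (card_pair hwx) fx
    obtain ⟨a', Y, hY, hbY⟩ := h.bad hC (P := {w, y}) (by rw [hT]; intro v hv; simp at hv ⊢; tauto)
      (card_pair hwy) fy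
    have mX : ∀ v ∈ Ts s t γ, (v ∈ X ↔ v = w ∨ v = x) := by
      intro v hv
      have : v ∈ Ts s t γ ∩ X ↔ v ∈ ({w, x} : Finset V) := by rw [hX]
      rw [mem_inter] at this
      simp only [mem_insert, mem_singleton] at this
      tauto
    have mY : ∀ v ∈ Ts s t γ, (v ∈ Y ↔ v = w ∨ v = y) := by
      intro v hv
      have : v ∈ Ts s t γ ∩ Y ↔ v ∈ ({w, y} : Finset V) := by rw [hY]
      rw [mem_inter] at this
      simp only [mem_insert, mem_singleton] at this
      tauto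
    have wT : w ∈ Ts s t γ := by rw [hT]; simp
    have xT : x ∈ Ts s t γ := by rw [hT]; simp
    have yT : y ∈ Ts s t γ := by rw [hT]; simp
    have zT : z ∈ Ts s t γ := by rw [hT]; simp
    have wX : w ∈ X := (mX w wT).2 (Or.inl rfl)
    have xX : x ∈ X := (mX x xT).2 (Or.inr rfl)
    have yX : y ∉ X := fun hh => by
      rcases (mX y yT).1 hh with h | h
      · exact hwy h.symm
      · exact hxy h.symm
    have zX : z ∉ X := fun hh => by
      rcases (mX z zT).1 hh with h | h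
      · exact hwz h.symm
      · exact hxz h.symm
    have wY : w ∈ Y := (mY w wT).2 (Or.inl rfl)
    have yY : y ∈ Y := (mY y yT).2 (Or.inr rfl)
    have xY : x ∉ Y := fun hh => by
      rcases (mY x xT).1 hh with h | h
      · exact hwx h.symm
      · exact hxy h
    have zY : z ∉ Y := fun hh => by
      rcases (mY z zT).1 hh with h | h
      · exact hwz h.symm
      · exact hyz h.symm
    refine two_bad hC h h5 h0 hbX hbY (x1 := w) (x2 := x) (x3 := y) (x4 := z) ?_ ?_ ?_ ?_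
    · ext v
      rw [hT]
      simp only [mem_inter, mem_insert, mem_singleton]
      constructor
      · rintro ⟨rfl | rfl | rfl | rfl, h6, h7⟩
        · rfl
        · exact absurd h7 xY
        · exact absurd h6 yX
        · exact absurd h6 zX
      · rintro rfl; exact ⟨Or.inl rfl, wX, wY⟩
    · ext v
      rw [hT]
      simp only [mem_inter, mem_sdiff, mem_insert, mem_singleton]
      constructor
      · rintro ⟨rfl | rfl | rfl | rfl, h6, h7⟩
        · exact absurd wY h7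
        · rfl
        · exact absurd h6 yX
        · exact absurd h6 zX
      · rintro rfl; exact ⟨Or.inr (Or.inl rfl), xX, xY⟩
    · ext v
      rw [hT]
      simp only [mem_inter, mem_sdiff, mem_insert, mem_singleton]
      constructor
      · rintro ⟨rfl | rfl | rfl | rfl, h6, h7⟩
        · exact absurd wX h7
        · exact absurd xX h7
        · rfl
        · exact absurd h6 zY
      · rintro rfl; exact ⟨Or.inr (Or.inr (Or.inl rfl)), yY, yX⟩
    · ext v
      rw [hT]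
      simp only [mem_inter, mem_compl, mem_union, mem_insert, mem_singleton]
      constructor
      · rintro ⟨rfl | rfl | rfl | rfl, h6⟩
        · exact absurd (Or.inl wX) h6
        · exact absurd (Or.inl xX) h6
        · exact absurd (Or.inr yY) h6
        · rfl
      · rintro rfl; exact ⟨Or.inr (Or.inr (Or.inr rfl)), fun hh => hh.elim zX zY⟩
  have inter1 : ∀ a b : V, w ≠ a → w ≠ b → a ≠ b → (({w, a} : Finset V) ∩ {w, b}).card = 1 := by
    intro a b h6 h7 h8
    rw [card_eq_one]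
    refine ⟨w, ?_⟩
    ext v
    simp only [mem_inter, mem_insert, mem_singleton]
    constructor
    · rintro ⟨rfl | rfl, h9 | h9⟩
      · rfl
      · rfl
      · exact h9
      · exact absurd h9 h8
    · rintro rfl; exact ⟨Or.inl rfl, Or.inl rfl⟩
  rcases h.feas (inter1 x y hwx hwy hxy) with f | f
  · rcases h.feas (inter1 y z hwy hwz hyz) with f' | f'
    · exact key x y z hwx hwy hwz hxy hxz hyz hTw f f'
    · exact key x z y hwx hwz hwy hxz hxy hyz.symm (by rw [hTw, pair_comm y z]) f f'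
  · rcases h.feas (inter1 x z hwx hwz hxz) with f' | f'
    · exact key x y z hwx hwy hwz hxy hxz hyz hTw f' f
    · exact key y z x hwy hwz hwx hyz hxy.symm hxz.symm (by
        rw [hTw]; ext v; simp only [mem_insert, mem_singleton]; tauto) f f'

end MP974d84.J
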