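import Mathlib
import Pool.Agent.Work.MP_974d84_co.J11a

/-!
End of the proof when some defect has no edge in the support of `β`.
-/

namespace MP974d84.J

open Finset

variable {V E : Type*} [Fintype V] [DecidableEq V] [Fintype E] [DecidableEq E]
variable {s t : E → V} {S : Finset E} {β γ : E → ZMod 2}

/-- The branches at the defect `x0`. -/
structure Star (s t : E → V) (S : Finset E) (γ : E → ZMod 2) (x0 : V) (f : V → E)
    (Z : V → Finset V) : Prop where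
  mem : ∀ u ∈ Ts s t γ, u ≠ x0 → f u ∈ inc s t S x0
  out : ∀ u ∈ Ts s t γ, u ≠ x0 → x0 ∉ Z u
  dl : ∀ u ∈ Ts s t γ, u ≠ x0 → (dl s t S (Z u)).filter (fun e => γ e ≠ 0) = {f u}
  T : ∀ u ∈ Ts s t γ, u ≠ x0 → Ts s t γ ∩ Z u = {u}

theorem exists_star (hC : Ctx s t S) (h : Norm s t S β γ) {x0 : V} (hx0 : x0 ∈ Ts s t γ)
    (hz : Zero s t S β x0) : ∃ f Z, Star s t S γ x0 f Z := by
  obtain ⟨a, _⟩ := nonempty_iff_ne_empty.2 (Ts_inc hC.base.loop h.str.g hx0)
  have key : ∀ u, ∃ (f : E) (Z : Finset V), u ∈ Ts s t γ → u ≠ x0 → f ∈ inc s t S x0 ∧ x0 ∉ Z ∧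
      (MP974d84.J.dl s t S Z).filter (fun e => γ e ≠ 0) = {f} ∧ Ts s t γ ∩ Z = {u} := by
    intro u
    by_cases hu : u ∈ Ts s t γ ∧ u ≠ x0
    · obtain ⟨f, hf, Z, h1, h2, h3⟩ := hC.star_cover h.str hx0 (h.star x0 hx0 hz) hu.1 hu.2
      exact ⟨f, Z, fun _ _ => ⟨hf, h1, h2, h3⟩⟩
    · exact ⟨a, ∅, fun h1 h2 => absurd ⟨h1, h2⟩ hu⟩
  choose f Z hfZ using key
  exact ⟨f, Z, fun u hu hux => (hfZ u hu hux).1, fun u hu hux => (hfZ u hu hux).2.1,
    fun u hu hux => (hfZ u hu hux).2.2.1, fun u hu hux => (hfZ u hu hux).2.2.2⟩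

section
variable {x0 : V} {f : V → E} {Z : V → Finset V} (hS : Star s t S γ x0 f Z)
include hS

theorem Star.mem_dl {u : V} (hu : u ∈ Ts s t γ) (hux : u ≠ x0) :
    f u ∈ MP974d84.J.dl s t S (Z u) ∧ γ (f u) ≠ 0 := by
  have : f u ∈ (MP974d84.J.dl s t S (Z u)).filter (fun e => γ e ≠ 0) := by
    rw [hS.dl u hu hux]; exact mem_singleton_self _
  exact mem_filter.1 this

theorem Star.y_mem {u : V} (hu : u ∈ Ts s t γ) (hux : u ≠ x0) : oth s t x0 (f u) ∈ Z u :=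
  (crs_oth (hS.mem u hu hux) (hS.out u hu hux)).1
    (MP974d84.J.mem_dl.1 (hS.mem_dl hu hux).1).2

theorem Star.u_mem {u : V} (hu : u ∈ Ts s t γ) (hux : u ≠ x0) : u ∈ Z u := by
  have : u ∈ Ts s t γ ∩ Z u := by rw [hS.T u hu hux]; exact mem_singleton_self _
  exact (mem_inter.1 this).2

theorem Star.inj (h : Str s t S β γ) {u v : V} (hu : u ∈ Ts s t γ) (hux : u ≠ x0)
    (hv : v ∈ Ts s t γ) (hvx : v ≠ x0) (huv : f u = f v) : u = v := by
  by_contra hne
  have h1 : (MP974d84.J.dl s t S (Z u ∩ Z v)).filter (fun e => γ e ≠ 0) = {f u} := by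
    ext e
    rw [mem_filter, mem_singleton]
    constructor
    · rintro ⟨h2, h3⟩
      obtain ⟨h4, h5⟩ := MP974d84.J.mem_dl.1 h2
      rcases crs_inter h5 with h6 | h6
      · exact mem_star (hS.dl u hu hux) h4 h3 h6
      · rw [huv]; exact mem_star (hS.dl v hv hvx) h4 h3 h6
    · rintro rfl
      refine ⟨MP974d84.J.mem_dl.2 ⟨(mem_inc.1 (hS.mem u hu hux)).1, ?_⟩, (hS.mem_dl hu hux).2⟩
      rw [crs_oth (hS.mem u hu hux) (fun hc => hS.out u hu hux (mem_inter.1 hc).1)]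
      refine mem_inter.2 ⟨hS.y_mem hu hux, ?_⟩
      rw [huv]; exact hS.y_mem hv hvx
  have h2 := parity h.g (s := s) (t := t) (Z u ∩ Z v)
  rw [h1, card_singleton] at h2
  have h3 : Ts s t γ ∩ (Z u ∩ Z v) = ∅ := by
    rw [eq_empty_iff_forall_notMem]
    intro w hw
    rw [mem_inter, mem_inter] at hw
    have h4 : w ∈ Ts s t γ ∩ Z u := mem_inter.2 ⟨hw.1, hw.2.1⟩
    have h5 : w ∈ Ts s t γ ∩ Z v := mem_inter.2 ⟨hw.1, hw.2.2⟩
    rw [hS.T u hu hux, mem_singleton] at h4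
    rw [hS.T v hv hvx, mem_singleton] at h5
    exact hne (h4.symm.trans h5)
  rw [h3, card_empty] at h2
  omega

theorem Star.surj (hC : Ctx s t S) (h : Str s t S β γ) (hx0 : x0 ∈ Ts s t γ) {e : E}
    (he : e ∈ inc s t S x0) : ∃ u ∈ Ts s t γ, u ≠ x0 ∧ f u = e := by
  have h1 : ((Ts s t γ).erase x0).image f = inc s t S x0 := by
    apply eq_of_subset_of_card_le
    · intro e' he'
      obtain ⟨u, hu, rfl⟩ := mem_image.1 he'
      exact hS.mem u (mem_erase.1 hu).2 (mem_erase.1 hu).1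
    · rw [card_image_of_injOn, card_erase_of_mem hx0, hC.four h]
      · exact hC.base.deg x0
      · intro u hu v hv huv
        exact hS.inj h (mem_erase.1 hu).2 (mem_erase.1 hu).1 (mem_erase.1 hv).2
          (mem_erase.1 hv).1 huv
  rw [← h1] at he
  obtain ⟨u, hu, hu'⟩ := mem_image.1 he
  exact ⟨u, (mem_erase.1 hu).2, (mem_erase.1 hu).1, hu'⟩

/-- Defects adjacent to `x0`. -/
theorem Star.adj (hC : Ctx s t S) (h : Str s t S β γ) (hx0 : x0 ∈ Ts s t γ) {u : V}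
    (hu : u ∈ Ts s t γ) (hux : u ≠ x0) {e : E} (he : e ∈ inc s t S x0) (heu : e ∈ inc s t S u) :
    e = f u ∧ oth s t x0 (f u) = u := by
  obtain ⟨v, hv, hvx, rfl⟩ := hS.surj hC h hx0 he
  have h1 : u = oth s t x0 (f v) := ((inc_iff he).1 heu).resolve_left hux
  have h2 : u ∈ Ts s t γ ∩ Z v := mem_inter.2 ⟨hu, by rw [h1]; exact hS.y_mem hv hvx⟩
  rw [hS.T v hv hvx, mem_singleton] at h2
  rw [h2] at h1 ⊢
  exact ⟨rfl, h1.symm⟩

/-- All lifts exist. -/
theorem Star.lift (hC : Ctx s t S) (h : Str s t S β γ) (hx0 : x0 ∈ Ts s t γ) {u : V}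
    (hu : u ∈ Ts s t γ) (hux : u ≠ x0) :
    ∃ a : E → ℤ, (∀ e, -1 ≤ a e ∧ a e ≤ 1) ∧ (∀ v, D s t a v = sg {x0, u} (Ts s t γ) v) ∧
      ∀ e, ((a e : ℤ) : ZMod 2) = γ e := by
  have hc2 : ({x0, u} : Finset V).card = 2 := card_pair (Ne.symm hux)
  have hsub : ({x0, u} : Finset V) ⊆ Ts s t γ := by
    intro v hv
    rcases mem_insert.1 hv with rfl | hv
    · exact hx0
    · rw [mem_singleton.1 hv]; exact hu
  refine exists_lift h.g hsub (by rw [hC.four h, hc2]) hc2.le (fun W hW _ hTW => ?_)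
  obtain ⟨v, hv, hvn⟩ : ∃ v ∈ Ts s t γ, v ∉ ({x0, u} : Finset V) := by
    by_contra hcc
    push Not at hcc
    have := card_le_card (show Ts s t γ ⊆ {x0, u} from hcc)
    rw [hC.four h, hc2] at this
    omega
  have hvx : v ≠ x0 := fun hh => hvn (by rw [hh]; simp)
  have hx0W : x0 ∈ W := by
    have : x0 ∈ Ts s t γ ∩ W := by rw [hTW]; simp
    exact (mem_inter.1 this).2
  have hfv := hS.mem v hv hvx
  have hg := (hS.mem_dl hv hvx).2
  have hyW : oth s t x0 (f v) ∈ W := by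
    by_contra hc
    apply hg
    apply hW
    refine MP974d84.J.mem_dl.2 ⟨(mem_inc.1 hfv).1, ?_⟩
    rw [← crs_compl, crs_oth hfv (by simpa using hx0W)]
    exact mem_compl.2 hc
  have h1 : (MP974d84.J.dl s t S (W ∩ Z v)).filter (fun e => γ e ≠ 0) = {f v} := by
    ext e
    rw [mem_filter, mem_singleton]
    constructor
    · rintro ⟨h2, h3⟩
      obtain ⟨h4, h5⟩ := MP974d84.J.mem_dl.1 h2
      rcases crs_inter h5 with h6 | h6
      · exact absurd (hW e (MP974d84.J.mem_dl.2 ⟨h4, h6⟩)) h3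
      · exact mem_star (hS.dl v hv hvx) h4 h3 h6
    · rintro rfl
      refine ⟨MP974d84.J.mem_dl.2 ⟨(mem_inc.1 hfv).1, ?_⟩, hg⟩
      rw [crs_oth hfv (fun hc => hS.out v hv hvx (mem_inter.1 hc).2)]
      exact mem_inter.2 ⟨hyW, hS.y_mem hv hvx⟩
  have h2 := parity h.g (s := s) (t := t) (W ∩ Z v)
  rw [h1, card_singleton] at h2
  have h3 : Ts s t γ ∩ (W ∩ Z v) = ∅ := by
    rw [eq_empty_iff_forall_notMem]
    intro w hw
    rw [mem_inter, mem_inter] at hw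
    have h4 : w ∈ Ts s t γ ∩ W := mem_inter.2 ⟨hw.1, hw.2.1⟩
    have h5 : w ∈ Ts s t γ ∩ Z v := mem_inter.2 ⟨hw.1, hw.2.2⟩
    rw [hS.T v hv hvx, mem_singleton] at h5
    rw [hTW, h5] at h4
    exact hvn h4
  rw [h3, card_empty] at h2
  omega

end

/-- The obstructing cut for a given lift. -/
structure QC (s t : E → V) (S : Finset E) (β γ : E → ZMod 2) (x0 u : V) (a : E → ℤ)
    (Q : Finset V) : Prop where
  T : Ts s t γ ∩ Q = {x0, u}
  bad : Bad s t S β γ a Q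

/-- The lifts. -/
structure LF (s t : E → V) (γ : E → ZMod 2) (x0 u : V) (a : E → ℤ) : Prop where
  le : ∀ e, -1 ≤ a e ∧ a e ≤ 1
  D : ∀ v, D s t a v = sg {x0, u} (Ts s t γ) v
  mod : ∀ e, ((a e : ℤ) : ZMod 2) = γ e

theorem LF.cut (hC : Ctx s t S) (h : Str s t S β γ) {x0 u : V} (hx0 : x0 ∈ Ts s t γ)
    (hu : u ∈ Ts s t γ) (hux : u ≠ x0) {a : E → ℤ} (ha : LF s t γ x0 u a) :
    ∃ Q, QC s t S β γ x0 u a Q := by
  have hc2 : ({x0, u} : Finset V).card = 2 := card_pair (Ne.symm hux)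
  have hsub : ({x0, u} : Finset V) ⊆ Ts s t γ := by
    intro v hv
    rcases mem_insert.1 hv with rfl | hv
    · exact hx0
    · rw [mem_singleton.1 hv]; exact hu
  obtain ⟨Q, h1, h2⟩ := exists_bad h.supp hC.base.br (hC.no2 h) h.bD hC.hno hsub (hC.four h)
    hc2 ha.le ha.D ha.mod
  exact ⟨Q, h1, h2⟩

theorem LF.ne {x0 u : V} {a : E → ℤ} (ha : LF s t γ x0 u a) {e : E} (he : a e ≠ 0) :
    γ e ≠ 0 := by
  rw [← ha.mod e, ne_eq, ZMod.intCast_zmod_eq_zero_iff_dvd]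
  have := ha.le e
  rintro ⟨c, hc⟩
  push_cast at hc
  omega

/-- The edge `f u` does not cross the obstructing cut. -/
theorem QC.y (h : Norm s t S β γ) {x0 u : V} {f : V → E} {Z : V → Finset V}
    (hS : Star s t S γ x0 f Z) (hx0 : x0 ∈ Ts s t γ) (hz : Zero s t S β x0)
    (hu : u ∈ Ts s t γ) (hux : u ≠ x0) {a : E → ℤ} (ha : LF s t γ x0 u a) {Q : Finset V}
    (hQ : QC s t S β γ x0 u a Q) : oth s t x0 (f u) ∈ Q := by
  by_contra hc
  have hfu := hS.mem u hu hux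
  have hx0Q : x0 ∈ Q := by
    have : x0 ∈ Ts s t γ ∩ Q := by rw [hQ.T]; simp
    exact (mem_inter.1 this).2
  have h1 : f u ∈ dl s t S Q := by
    refine mem_dl.2 ⟨(mem_inc.1 hfu).1, ?_⟩
    rw [← crs_compl, crs_oth hfu (by simpa using hx0Q)]
    exact mem_compl.2 hc
  have h2 := hQ.bad.dir (f u) h1 (hz _ hfu)
  have h3 : ∑ v ∈ Z u, D s t a v = ov s t a (Z u) (f u) := by
    rw [D_cut]
    refine sum_eq_single_of_mem (f u) (mem_univ _) (fun e _ hne => ?_)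
    by_cases hae : a e = 0
    · exact ov_zero hae
    · by_cases hce : crs s t (Z u) e
      · exact absurd (mem_star (hS.dl u hu hux) (h.str.g e (ha.ne hae)) (ha.ne hae) hce) hne
      · unfold ov
        unfold crs at hce
        by_cases c1 : s e ∈ Z u <;> by_cases c2 : t e ∈ Z u <;> simp_all
  have hsub : ({x0, u} : Finset V) ⊆ Ts s t γ := by
    intro v hv
    rcases mem_insert.1 hv with rfl | hv
    · exact hx0
    · rw [mem_singleton.1 hv]; exact hu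
  have h4 : ∑ v ∈ Z u, D s t a v = -1 := by
    simp only [ha.D]
    rw [sum_sg hsub, hS.T u hu hux]
    have h5 : ({x0, u} : Finset V) ∩ Z u = {u} := by
      ext v
      simp only [mem_inter, mem_insert, mem_singleton]
      constructor
      · rintro ⟨rfl | rfl, h6⟩
        · exact absurd h6 (hS.out u hu hux)
        · rfl
      · rintro rfl
        exact ⟨Or.inr rfl, hS.u_mem hu hux⟩
    rw [h5, card_singleton]; norm_num
  rw [h3] at h4
  have hy := hS.y_mem hu hux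
  have hxo := hS.out u hu hux
  unfold ov at h2 h4
  rcases oth_spec hfu with ⟨e1, e2⟩ | ⟨e1, e2⟩
  · rw [e1, e2] at h2 h4
    simp only [hx0Q, hc, hy, hxo, if_true, if_false] at h2 h4
    omega
  · rw [e1, e2] at h2 h4
    simp only [hx0Q, hc, hy, hxo, if_true, if_false] at h2 h4
    omega

end MP974d84.J
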