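import Mathlib
import Pool.Agent.Work.MP_974d84_co.J11b

/-!
Five-edge corners around a defect with no edge in the support of `β`.
-/

namespace MP974d84.J

open Finset

variable {V E : Type*} [Fintype V] [DecidableEq V] [Fintype E] [DecidableEq E]
variable {s t : E → V} {S : Finset E} {β γ : E → ZMod 2}

theorem Cl.compl {Z : Finset V} (h : Cl s t β Z) : Cl s t β Zᶜ := by
  intro e he
  exact h e ((crs_compl s t Z e).1 he)

/-- Both ends of an edge in the support of `β` are in a closed set or none. -/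
theorem Cl.oth {Z : Finset V} (h : Cl s t β Z) {v : V} {e : E} (he : e ∈ inc s t S v)
    (hb : β e ≠ 0) (hv : v ∈ Z) : oth s t v e ∈ Z := by
  by_contra hc
  apply hb
  apply h
  rw [← crs_compl, crs_oth he (by simpa using hv)]
  exact mem_compl.2 hc

/-- At a vertex which is not a defect there is a unique edge outside the support of `γ`. -/
theorem Ctx.gam (hC : Ctx s t S) (h : Str s t S β γ) {v : V} (hv : v ∉ Ts s t γ)
    (hi : inc s t S v ≠ ∅) : ∃ a b c, a ≠ b ∧ a ≠ c ∧ b ≠ c ∧ inc s t S v = {a, b, c} ∧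
      β a ≠ 0 ∧ γ a = 0 ∧ β b ≠ 0 ∧ γ b ≠ 0 ∧ β c = 0 ∧ γ c ≠ 0 := by
  obtain ⟨e0, he0⟩ := nonempty_iff_ne_empty.2 hi
  have hDγ : D s t γ v = 0 := by
    by_contra hc
    exact hv (mem_Ts.2 hc)
  obtain ⟨e, he, hbe⟩ : ∃ e ∈ inc s t S v, β e ≠ 0 := by
    by_contra hc
    push Not at hc
    obtain ⟨b, c, h1, h2, h3, h4⟩ := hC.inc3 h he0
    have hg : ∀ e ∈ inc s t S v, γ e = 1 := by
      intro e he
      rcases (h.supp e).2 (mem_inc.1 he).1 with h5 | h5
      · exact absurd (hc e he) h5
      · exact z2_ne.1 h5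
    rw [D2_inc hC.base.loop h.g, sum_congr rfl hg, h4, sum_const,
      card_insert_of_notMem (by simp [h1, h2]), card_pair h3] at hDγ
    exact absurd hDγ (by decide)
  obtain ⟨b, c, h1, h2, h3, h4, h5, h6⟩ := hC.beta3 h he hbe
  have hc' : c ∈ inc s t S v := by rw [h4]; simp
  have hgc : γ c ≠ 0 := by
    rcases (h.supp c).2 (mem_inc.1 hc').1 with h7 | h7
    · exact absurd h6 h7
    · exact h7
  rw [D2_inc hC.base.loop h.g, h4, sum3 h1 h2 h3] at hDγ
  have hx : ∀ x y z : ZMod 2, z ≠ 0 → x + (y + z) = 0 → (x = 0 ∧ y ≠ 0) ∨ (x ≠ 0 ∧ y = 0) := by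
    decide
  rcases hx _ _ _ hgc hDγ with ⟨h7, h8⟩ | ⟨h7, h8⟩
  · exact ⟨e, b, c, h1, h2, h3, h4, hbe, h7, h5, h8, h6, hgc⟩
  · exact ⟨b, e, c, h1.symm, h3, h2, by rw [h4]; exact Finset.insert_comm e b {c}, h5, h8, hbe, h7,
      h6, hgc⟩

/-- An edge at a vertex of `A` which is not in the cut is inside. -/
theorem inner_of {A : Finset V} {v : V} (hv : v ∈ A) {e : E} (he : e ∈ inc s t S v)
    (hn : e ∉ dl s t S A) : e ∈ inn s t S A := by
  rw [mem_dl] at hn
  rw [mem_inn]
  obtain ⟨h1, h2⟩ := mem_inc.1 he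
  refine ⟨h1, ?_⟩
  unfold crs at hn
  rcases h2 with h2 | h2 <;> rw [h2] at hn ⊢ <;> tauto

theorem inner_oth {A : Finset V} {v : V} {e : E} (he : e ∈ inc s t S v)
    (hn : e ∈ inn s t S A) : oth s t v e ∈ A := by
  rw [mem_inn] at hn
  rcases oth_spec he with ⟨_, h⟩ | ⟨_, h⟩
  · rw [← h]; exact hn.2.2
  · rw [← h]; exact hn.2.1

theorem inner_nv {A : Finset V} {v : V} {e : E} (he : e ∈ inc s t S v)
    (hn : e ∈ inn s t S A) : oth s t v e ∈ nv s t S A :=
  mem_nv.2 ⟨inner_oth he hn, nonempty_iff_ne_empty.1 ⟨e, oth_inc he⟩⟩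

/-- The structure of a five-edge corner at a `Zero` defect. -/
theorem Norm.zc (hC : Ctx s t S) (h : Norm s t S β γ) (h5 : Five s t S β γ) {A : Finset V}
    {x0 : V} (hT : Ts s t γ ∩ A = {x0}) (hz : Zero s t S β x0) (hH : ∀ e ∈ dl s t S A, γ e ≠ 0)
    (hd : (dl s t S A).card = 5) (hn : 5 ≤ (nv s t S Aᶜ).card) :
    (∃ e ∈ inc s t S x0, oth s t x0 e ∈ A ∧ oth s t x0 e ∉ Ts s t γ ∧
      ∀ Z, Cl s t β Z → oth s t x0 e ∈ Z → ∀ v ∈ nv s t S A, v ≠ x0 → v ∈ Z) ∧
      2 ≤ ((dl s t S A).filter fun e => β e ≠ 0).card := by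
  have hx0 : x0 ∈ Ts s t γ ∩ A := by rw [hT]; simp
  obtain ⟨hx0T, hx0A⟩ := mem_inter.1 hx0
  have h3 : (nv s t S A).card = 3 := by
    refine h5 A hd hH (by rw [hT, card_singleton]) hn ⟨x0, fun v hv e he e' he' hee hev hev' => ?_⟩
    intro hb
    apply hv
    -- `v` is a defect
    obtain ⟨c, d, g1, g2, g3, g4⟩ : ∃ c d, e ≠ c ∧ e ≠ d ∧ c ≠ d ∧ inc s t S v = {e, c, d} :=
      hC.inc3 h.str hev
    have hvT : v ∈ Ts s t γ := by
      by_contra hvT
      obtain ⟨a, b, c, n1, n2, n3, n4, b1, c1, b2, c2, b3, c3⟩ := hC.gam h.str hvT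
        (nonempty_iff_ne_empty.1 ⟨e, hev⟩)
      rw [n4] at hev hev'
      simp only [mem_insert, mem_singleton] at hev hev'
      have e1 := hH e he
      have e2 := hH e' he'
      rcases hev with rfl | rfl | rfl
      · exact e1 c1
      · rcases hev' with rfl | rfl | rfl
        · exact e2 c1
        · exact hee rfl
        · exact b2 (hb.trans b3)
      · rcases hev' with rfl | rfl | rfl
        · exact e2 c1
        · exact b2 (hb.symm.trans b3)
        · exact hee rfl
    rcases h.low v hvT with h6 | h6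
    · exact h.uniq hC hvT hx0T h6 hz
    · -- at most one edge of the support of `γ`
      exfalso
      have b1 : β e = 0 := by
        by_contra hc
        exact hH e he (h6 e hev hc)
      have b2 : β e' = 0 := hb.symm.trans b1
      by_cases hz' : Zero s t S β v
      · exact hv (h.uniq hC hvT hx0T hz' hz)
      · unfold Zero at hz'
        push Not at hz'
        obtain ⟨e3, he3, hb3⟩ := hz'
        obtain ⟨b, c, m1, m2, m3, m4, m5, m6⟩ := hC.beta3 h.str he3 hb3
        rw [m4] at hev hev'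
        simp only [mem_insert, mem_singleton] at hev hev'
        have : e = c := by
          rcases hev with rfl | rfl | rfl
          · exact absurd b1 hb3
          · exact absurd b1 m5
          · rfl
        have : e' = c := by
          rcases hev' with rfl | rfl | rfl
          · exact absurd b2 hb3
          · exact absurd b2 m5
          · rfl
        exact hee (by simp_all)
  have hcnt := hC.count h.str A
  rw [h3, hd] at hcnt
  have hinn : (inn s t S A).card = 2 := by omega
  have hx0n : x0 ∈ nv s t S A := hC.T_nv h.str hx0T hx0A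
  obtain ⟨p, q, hxp, hxq, hpq, hnv⟩ := three_split h3 hx0n
  have hp : p ∈ nv s t S A := by rw [hnv]; simp
  have hq : q ∈ nv s t S A := by rw [hnv]; simp
  have hnT : ∀ v ∈ nv s t S A, v ≠ x0 → v ∉ Ts s t γ := by
    intro v hv hvx hvT
    have : v ∈ Ts s t γ ∩ A := mem_inter.2 ⟨hvT, (mem_nv.1 hv).1⟩
    rw [hT, mem_singleton] at this
    exact hvx this
  -- the inner edge in the support of `β`
  obtain ⟨a, b, c, n1, n2, n3, n4, b1, c1, b2, c2, b3, c3⟩ := hC.gam h.str
    (hnT p hp hxp.symm) (mem_nv.1 hp).2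
  obtain ⟨a', b', c', n1', n2', n3', n4', b1', c1', b2', c2', b3', c3'⟩ := hC.gam h.str
    (hnT q hq hxq.symm) (mem_nv.1 hq).2
  have hap : a ∈ inc s t S p := by rw [n4]; simp
  have hbp : b ∈ inc s t S p := by rw [n4]; simp
  have haq' : a' ∈ inc s t S q := by rw [n4']; simp
  have hbq : b' ∈ inc s t S q := by rw [n4']; simp
  have hain : a ∈ inn s t S A := inner_of (mem_nv.1 hp).1 hap (fun hc => hH a hc c1)
  have haq : oth s t p a = q := by
    have h7 := inner_nv hap hain
    rw [hnv] at h7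
    simp only [mem_insert, mem_singleton] at h7
    rcases h7 with h7 | h7 | h7
    · exfalso
      apply b1
      apply hz
      rw [← h7]; exact oth_inc hap
    · exact absurd h7 (oth_ne hC.base.loop hap)
    · exact h7
  have hain' : a ∈ inc s t S q := by rw [← haq]; exact oth_inc hap
  -- the other inner edge
  obtain ⟨g, hg⟩ : ∃ g, g ∈ (inn s t S A).erase a := by
    apply card_pos.1
    rw [card_erase_of_mem hain, hinn]; norm_num
  obtain ⟨hga, hgin⟩ := mem_erase.1 hg
  have hinneq : inn s t S A = {a, g} := by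
    symm
    apply eq_of_subset_of_card_le
    · intro e he
      rcases mem_insert.1 he with rfl | he
      · exact hain
      · rw [mem_singleton.1 he]; exact hgin
    · rw [hinn, card_pair hga.symm]
  have hgx : g ∈ inc s t S x0 := by
    by_contra hgx
    -- both ends of `g` are `p` and `q`
    have hsg : s g ∈ nv s t S A := mem_nv.2 ⟨(mem_inn.1 hgin).2.1,
      nonempty_iff_ne_empty.1 ⟨g, mem_inc.2 ⟨(mem_inn.1 hgin).1, Or.inl rfl⟩⟩⟩
    have htg : t g ∈ nv s t S A := mem_nv.2 ⟨(mem_inn.1 hgin).2.2,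
      nonempty_iff_ne_empty.1 ⟨g, mem_inc.2 ⟨(mem_inn.1 hgin).1, Or.inr rfl⟩⟩⟩
    have hsx : s g ≠ x0 := fun hc => hgx (mem_inc.2 ⟨(mem_inn.1 hgin).1, Or.inl hc⟩)
    have htx : t g ≠ x0 := fun hc => hgx (mem_inc.2 ⟨(mem_inn.1 hgin).1, Or.inr hc⟩)
    have hmem : ∀ v ∈ nv s t S A, v ≠ x0 → v ∈ ({p, q} : Finset V) := by
      intro v hv hvx
      rw [hnv] at hv
      simp only [mem_insert, mem_singleton] at hv ⊢
      exact hv.resolve_left hvx
    have hsub : ({p, q} : Finset V) ⊆ A := by
      intro v hv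
      rcases mem_insert.1 hv with rfl | hv
      · exact (mem_nv.1 hp).1
      · rw [mem_singleton.1 hv]; exact (mem_nv.1 hq).1
    have i1 : ({a, g} : Finset E) ⊆ inn s t S {p, q} := by
      intro e he
      rcases mem_insert.1 he with rfl | he
      · rw [mem_inn]
        refine ⟨(mem_inn.1 hain).1, ?_⟩
        rcases oth_spec hap with ⟨w1, w2⟩ | ⟨w1, w2⟩
        · rw [w1, w2, haq]; simp
        · rw [w1, w2, haq]; simp
      · rw [mem_singleton.1 he, mem_inn]
        exact ⟨(mem_inn.1 hgin).1, hmem _ hsg hsx, hmem _ htg htx⟩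
    have i2 : inn s t S {p, q} ⊆ inn s t S A := by
      intro e he
      rw [mem_inn] at he ⊢
      exact ⟨he.1, hsub he.2.1, hsub he.2.2⟩
    have i3 := card_le_card i1
    have i4 := card_le_card i2
    rw [card_pair hga.symm] at i3
    have i5 := hC.count h.str ({p, q} : Finset V)
    have i6 : nv s t S {p, q} = {p, q} := by
      ext v
      rw [mem_nv]
      simp only [mem_insert, mem_singleton]
      constructor
      · exact fun hh => hh.1
      · rintro (rfl | rfl)
        · exact ⟨Or.inl rfl, (mem_nv.1 hp).2⟩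
        · exact ⟨Or.inr rfl, (mem_nv.1 hq).2⟩
    rw [i6, card_pair hpq] at i5
    exact hC.no2 h.str {p, q} (by omega)
  have hβg : β g = 0 := hz g hgx
  refine ⟨⟨g, hgx, inner_oth hgx hgin, ?_, ?_⟩, ?_⟩
  · exact hnT _ (inner_nv hgx hgin) (oth_ne hC.base.loop hgx)
  · intro Z hZ hg' v hv hvx
    have h7 := inner_nv hgx hgin
    have hpqZ : p ∈ Z ↔ q ∈ Z := by
      constructor
      · intro hh
        have := hZ.oth hap b1 hh
        rwa [haq] at this
      · intro hh
        by_contra hc
        have := hZ.compl.oth hap b1 (mem_compl.2 hc)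
        rw [haq] at this
        exact (mem_compl.1 this) hh
    rw [hnv] at h7 hv
    simp only [mem_insert, mem_singleton] at h7 hv
    have h8 : p ∈ Z := by
      rcases h7 with h7 | h7 | h7
      · exact absurd h7 (oth_ne hC.base.loop hgx)
      · rw [← h7]; exact hg'
      · rw [hpqZ, ← h7]; exact hg'
    rcases hv with hv | hv | hv
    · exact absurd hv hvx
    · rw [hv]; exact h8
    · rw [hv]; exact hpqZ.1 h8
  · -- two edges
    have hb1 : b ∈ dl s t S A := by
      by_contra hc
      have := inner_of (mem_nv.1 hp).1 hbp hc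
      rw [hinneq] at this
      simp only [mem_insert, mem_singleton] at this
      rcases this with h7 | h7
      · exact n1 h7.symm
      · rw [h7] at b2; exact b2 hβg
    have hb2 : b' ∈ dl s t S A := by
      by_contra hc
      have := inner_of (mem_nv.1 hq).1 hbq hc
      rw [hinneq] at this
      simp only [mem_insert, mem_singleton] at this
      rcases this with h7 | h7
      · rw [h7] at c2'; exact c2' c1
      · rw [h7] at b2'; exact b2' hβg
    have hbb : b ≠ b' := by
      intro hc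
      have h7 : q = p ∨ q = oth s t p b := (inc_iff hbp).1 (by rw [hc]; exact hbq)
      rcases h7 with h7 | h7
      · exact hpq h7.symm
      · have h8 : b ∈ inn s t S A := by
          rw [mem_inn]
          refine ⟨(mem_inc.1 hbp).1, ?_⟩
          rcases oth_spec hbp with ⟨w1, w2⟩ | ⟨w1, w2⟩
          · rw [w1, w2, ← h7]; exact ⟨(mem_nv.1 hp).1, (mem_nv.1 hq).1⟩
          · rw [w1, w2, ← h7]; exact ⟨(mem_nv.1 hq).1, (mem_nv.1 hp).1⟩
        exact crs_not_inn (mem_dl.1 hb1).2 (mem_inn.1 h8).2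
    have : ({b, b'} : Finset E) ⊆ (dl s t S A).filter fun e => β e ≠ 0 := by
      intro e he
      rcases mem_insert.1 he with rfl | he
      · exact mem_filter.2 ⟨hb1, b2⟩
      · rw [mem_singleton.1 he]; exact mem_filter.2 ⟨hb2, b2'⟩
    have := card_le_card this
    rwa [card_pair hbb] at this

end MP974d84.J
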