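import Mathlib
import Pool.Agent.Work.MP_974d84_co.J11c

/-!
Crossing obstructing cuts at a defect with no edge in the support of `β`.
-/

namespace MP974d84.J

open Finset

variable {V E : Type*} [Fintype V] [DecidableEq V] [Fintype E] [DecidableEq E]
variable {s t : E → V} {S : Finset E} {β γ : E → ZMod 2}

/-- Edges of the support of `β` leaving a disjoint union. -/
theorem beta_union {A B : Finset V} (hAB : Disjoint A B)
    (hno : ∀ e ∈ S, β e ≠ 0 → ¬ ((s e ∈ A ∧ t e ∈ B) ∨ (s e ∈ B ∧ t e ∈ A))) :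
    ((dl s t S A).filter fun e => β e ≠ 0).card + ((dl s t S B).filter fun e => β e ≠ 0).card
      ≤ ((dl s t S (A ∪ B)).filter fun e => β e ≠ 0).card := by
  have hd : ∀ v, v ∈ A → v ∉ B := fun v hv hv' => disjoint_left.1 hAB hv hv'
  rw [← card_union_of_disjoint]
  · apply card_le_card
    intro e he
    rw [mem_union, mem_filter, mem_filter, mem_dl, mem_dl] at he
    rw [mem_filter, mem_dl]
    unfold crs at he ⊢
    simp only [mem_union]
    have hsd := hd (s e)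
    have htd := hd (t e)
    rcases he with ⟨⟨h1, h2⟩, h3⟩ | ⟨⟨h1, h2⟩, h3⟩
    · have := hno e h1 h3
      refine ⟨⟨h1, ?_⟩, h3⟩
      tauto
    · have := hno e h1 h3
      refine ⟨⟨h1, ?_⟩, h3⟩
      tauto
  · rw [disjoint_left]
    intro e he he'
    rw [mem_filter, mem_dl] at he he'
    have := hno e he.1.1 he.2
    have h1 := he.1.2
    have h2 := he'.1.2
    unfold crs at h1 h2
    have hsd := hd (s e)
    have htd := hd (t e)
    tauto

/-- Neighbours along the support of `β`. -/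
def nb (s t : E → V) (S : Finset E) (β : E → ZMod 2) (u : V) : Finset V :=
  insert u (((inc s t S u).filter fun e => β e ≠ 0).image (oth s t u))

theorem Cor.nb (hC : Ctx s t S) (h : Norm s t S β γ) {A : Finset V} {u p q : V}
    {e1 e2 g1 g2 : E} (c : Cor s t S β γ A u p q e1 e2 g1 g2) :
    nv s t S A = MP974d84.J.nb s t S β u := by
  have hz : ¬ Zero s t S β u := fun hc => c.be1 (hc e1 c.e1x)
  obtain ⟨a, b, d, n1, n2, n3, n4, m1, m2, m3, _, _, _⟩ := h.beta hC c.xT hz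
  have h1 : (inc s t S u).filter (fun e => β e ≠ 0) = {e1, e2} := by
    symm
    apply eq_of_subset_of_card_le
    · intro e he
      rcases mem_insert.1 he with rfl | he
      · exact mem_filter.2 ⟨c.e1x, c.be1⟩
      · rw [mem_singleton.1 he]; exact mem_filter.2 ⟨c.e2x, c.be2⟩
    · rw [card_pair c.e12]
      have : (inc s t S u).filter (fun e => β e ≠ 0) ⊆ {a, b} := by
        intro e he
        rw [mem_filter, n4] at he
        simp only [mem_insert, mem_singleton] at he ⊢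
        rcases he with ⟨h2 | h2 | h2, h3⟩
        · exact Or.inl h2
        · exact Or.inr h2
        · rw [h2] at h3; exact absurd m3 h3
      exact (card_le_card this).trans card_le_two
  rw [c.nvA, MP974d84.J.nb, h1, image_insert, image_singleton, oth_eq c.e1x c.e1p c.xp,
    oth_eq c.e2x c.e2q c.xq]

section pair
variable {x0 : V} {f : V → E} {Z : V → Finset V}

theorem four_T (hC : Ctx s t S) (h : Str s t S β γ) (hx0 : x0 ∈ Ts s t γ) {u v w : V}
    (hu : u ∈ Ts s t γ) (hv : v ∈ Ts s t γ) (hw : w ∈ Ts s t γ)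
    (hux : u ≠ x0) (hvx : v ≠ x0) (hwx : w ≠ x0) (huv : u ≠ v) (huw : u ≠ w) (hvw : v ≠ w) :
    Ts s t γ = {x0, u, v, w} := by
  symm
  apply eq_of_subset_of_card_le
  · intro z hz
    simp only [mem_insert, mem_singleton] at hz
    rcases hz with rfl | rfl | rfl | rfl <;> assumption
  · rw [hC.four h, card_insert_of_notMem, card_insert_of_notMem, card_pair hvw]
    · simp [huv, huw]
    · simp [Ne.symm hux, Ne.symm hvx, Ne.symm hwx]

/-- Data for two crossing cuts. -/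
structure Two (s t : E → V) (S : Finset E) (β γ : E → ZMod 2) (x0 u v w : V)
    (Q R : Finset V) : Prop where
  hu : u ∈ Ts s t γ
  hv : v ∈ Ts s t γ
  hw : w ∈ Ts s t γ
  hux : u ≠ x0
  hvx : v ≠ x0
  hwx : w ≠ x0
  huv : u ≠ v
  huw : u ≠ w
  hvw : v ≠ w
  Q : ∃ a, LF s t γ x0 u a ∧ QC s t S β γ x0 u a Q
  R : ∃ a, LF s t γ x0 v a ∧ QC s t S β γ x0 v a R

theorem Two.swap {u v w : V} {Q R : Finset V} (h : Two s t S β γ x0 u v w Q R) :
    Two s t S β γ x0 v u w R Q :=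
  ⟨h.hv, h.hu, h.hw, h.hvx, h.hux, h.hwx, h.huv.symm, h.hvw, h.huw, h.R, h.Q⟩

section
variable (hC : Ctx s t S) (h : Norm s t S β γ) (hx0 : x0 ∈ Ts s t γ) (hz : Zero s t S β x0)
  {u v w : V} {Q R : Finset V} (hT : Two s t S β γ x0 u v w Q R)
include hC h hx0 hT

theorem Two.mem {z : V} (hzT : z ∈ Ts s t γ) :
    (z ∈ Q ↔ z = x0 ∨ z = u) ∧ (z ∈ R ↔ z = x0 ∨ z = v) ∧ (z = x0 ∨ z = u ∨ z = v ∨ z = w) := by
  obtain ⟨a, _, hQ, _⟩ := hT.Q
  obtain ⟨a', _, hR, _⟩ := hT.R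
  refine ⟨?_, ?_, ?_⟩
  · have : z ∈ Ts s t γ ∩ Q ↔ z ∈ ({x0, u} : Finset V) := by rw [hQ]
    simpa [hzT] using this
  · have : z ∈ Ts s t γ ∩ R ↔ z ∈ ({x0, v} : Finset V) := by rw [hR]
    simpa [hzT] using this
  · have := four_T hC h.str hx0 hT.hu hT.hv hT.hw hT.hux hT.hvx hT.hwx hT.huv hT.huw hT.hvw
    rw [this] at hzT
    simpa using hzT

theorem Two.TO : Ts s t γ ∩ (Q ∩ R) = {x0} := by
  ext z
  rw [mem_inter, mem_inter, mem_singleton]
  constructor
  · rintro ⟨h1, h2, h3⟩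
    obtain ⟨k1, k2, _⟩ := hT.mem hC h hx0 h1
    rcases k1.1 h2 with h4 | h4
    · exact h4
    · rcases k2.1 h3 with h5 | h5
      · exact h5
      · exact absurd (h4.symm.trans h5) hT.huv
  · rintro rfl
    obtain ⟨k1, k2, _⟩ := hT.mem hC h hx0 hx0
    exact ⟨hx0, k1.2 (Or.inl rfl), k2.2 (Or.inl rfl)⟩

theorem Two.TL : Ts s t γ ∩ (Q \ R) = {u} := by
  ext z
  rw [mem_inter, mem_sdiff, mem_singleton]
  constructor
  · rintro ⟨h1, h2, h3⟩
    obtain ⟨k1, k2, _⟩ := hT.mem hC h hx0 h1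
    rcases k1.1 h2 with h4 | h4
    · exact absurd (k2.2 (Or.inl h4)) h3
    · exact h4
  · rintro rfl
    obtain ⟨k1, k2, _⟩ := hT.mem hC h hx0 hT.hu
    refine ⟨hT.hu, k1.2 (Or.inr rfl), fun hc => ?_⟩
    rcases k2.1 hc with h5 | h5
    · exact hT.hux h5
    · exact hT.huv h5

theorem Two.TM : Ts s t γ ∩ (Q ∪ R)ᶜ = {w} := by
  ext z
  rw [mem_inter, mem_compl, mem_union, mem_singleton]
  constructor
  · rintro ⟨h1, h2⟩
    obtain ⟨k1, k2, k3⟩ := hT.mem hC h hx0 h1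
    rcases k3 with k3 | k3 | k3 | k3
    · exact absurd (Or.inl (k1.2 (Or.inl k3))) h2
    · exact absurd (Or.inl (k1.2 (Or.inr k3))) h2
    · exact absurd (Or.inr (k2.2 (Or.inr k3))) h2
    · exact k3
  · rintro rfl
    obtain ⟨k1, k2, k3⟩ := hT.mem hC h hx0 hT.hw
    refine ⟨hT.hw, ?_⟩
    rintro (hc | hc)
    · rcases k1.1 hc with h5 | h5
      · exact hT.hwx h5
      · exact hT.huw h5.symm
    · rcases k2.1 hc with h5 | h5
      · exact hT.hwx h5
      · exact hT.hvw h5.symm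

omit hx0 hC h in
theorem Two.H {A : Finset V} (hA : dl s t S A ⊆ dl s t S Q ∪ dl s t S R) :
    ∀ e ∈ dl s t S A, γ e ≠ 0 := by
  obtain ⟨a, _, _, hQ⟩ := hT.Q
  obtain ⟨a', _, _, hR⟩ := hT.R
  intro e he
  rcases mem_union.1 (hA he) with hh | hh
  · exact hQ.H e hh
  · exact hR.H e hh

omit hT in
include hz in
theorem nz_of {z : V} (hzT : z ∈ Ts s t γ) (hzx : z ≠ x0) : ¬ Zero s t S β z :=
  fun hc => hzx (h.uniq hC hzT hx0 hc hz)

include hz in
theorem Two.bigL : (dl s t S (Q \ R)).card % 2 = 1 ∧ 5 ≤ (dl s t S (Q \ R)).card ∧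
    3 ≤ (nv s t S (Q \ R)).card := by
  have := h.big hC (hT.TL hC h hx0) (nz_of hC h hx0 hz hT.hu hT.hux) (hT.H (dl_sdiff_sub Q R))
  exact ⟨this.1, this.2.1, this.2.2.1⟩

omit hC h hx0 in
theorem Two.HM : ∀ e ∈ dl s t S (Q ∪ R)ᶜ, γ e ≠ 0 :=
  hT.H (by rw [dl_compl]; exact dl_union_sub Q R)

include hz in
theorem Two.bigM : (dl s t S (Q ∪ R)ᶜ).card % 2 = 1 ∧ 5 ≤ (dl s t S (Q ∪ R)ᶜ).card ∧
    3 ≤ (nv s t S (Q ∪ R)ᶜ).card := by
  have := h.big hC (hT.TM hC h hx0) (nz_of hC h hx0 hz hT.hw hT.hwx) hT.HM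
  exact ⟨this.1, this.2.1, this.2.2.1⟩

omit hC h hx0 in
theorem Two.sum1 : (dl s t S (Q ∩ R)).card + (dl s t S (Q ∪ R)ᶜ).card ≤ 12 := by
  have := corner1 (s := s) (t := t) (S := S) Q R
  obtain ⟨a, _, _, hQ⟩ := hT.Q
  obtain ⟨a', _, _, hR⟩ := hT.R
  rw [hQ.six, hR.six] at this
  omega

omit hC h hx0 in
theorem Two.sum2 : (dl s t S (Q \ R)).card + (dl s t S (R \ Q)).card
    + 2 * (ebt s t S (Q ∩ R) (Q ∪ R)ᶜ).card = 12 := by
  have := corner2 (s := s) (t := t) (S := S) Q R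
  obtain ⟨a, _, _, hQ⟩ := hT.Q
  obtain ⟨a', _, _, hR⟩ := hT.R
  rw [hQ.six, hR.six] at this
  omega

end

/-- The main step. -/
theorem Two.main (hC : Ctx s t S) (h : Norm s t S β γ) (h5 : Five s t S β γ)
    (hS : Star s t S γ x0 f Z) (hx0 : x0 ∈ Ts s t γ) (hz : Zero s t S β x0) {u v w : V}
    {Q R : Finset V} (hT : Two s t S β γ x0 u v w Q R) (hd : (dl s t S (Q \ R)).card = 5) :
    oth s t x0 (f u) = u ∧ nv s t S (Q \ R) = nb s t S β u ∧
      ((∀ z ∈ Ts s t γ, z ≠ x0 → oth s t x0 (f z) = z) → nv s t S (Q ∩ R) = {x0}) := by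
  obtain ⟨a, ha, hQ⟩ := hT.Q
  obtain ⟨a', ha', hR⟩ := hT.R
  have hnu := nz_of hC h hx0 hz hT.hu hT.hux
  have hnw := nz_of hC h hx0 hz hT.hw hT.hwx
  obtain ⟨L1, L2, L3⟩ := hT.bigL hC h hx0 hz
  obtain ⟨R1, R2, R3⟩ := hT.swap.bigL hC h hx0 hz
  obtain ⟨M1, M2, M3⟩ := hT.bigM hC h hx0 hz
  have dLR : Disjoint (Q \ R) (R \ Q) := by
    rw [disjoint_left]; intro z h1 h2; exact (mem_sdiff.1 h1).2 (mem_sdiff.1 h2).1
  have dLM : Disjoint (Q \ R) (Q ∪ R)ᶜ := by
    rw [disjoint_left]; intro z h1 h2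
    exact (mem_compl.1 h2) (mem_union_left _ (mem_sdiff.1 h1).1)
  have dRM : Disjoint (R \ Q) (Q ∪ R)ᶜ := by
    rw [disjoint_left]; intro z h1 h2
    exact (mem_compl.1 h2) (mem_union_right _ (mem_sdiff.1 h1).1)
  have dOL : Disjoint (Q ∩ R) (Q \ R) := by
    rw [disjoint_left]; intro z h1 h2; exact (mem_sdiff.1 h2).2 (mem_inter.1 h1).2
  -- the complements are large
  have cL : 5 ≤ (nv s t S (Q \ R)ᶜ).card := by
    have := nv_card_add (s := s) (t := t) (S := S) (A := R \ Q) (B := (Q ∪ R)ᶜ) (W := (Q \ R)ᶜ)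
      (fun z hz' => mem_compl.2 fun hc => disjoint_left.1 dLR hc hz')
      (fun z hz' => mem_compl.2 fun hc => disjoint_left.1 dLM hc hz') dRM
    omega
  have cM : 5 ≤ (nv s t S (Q ∪ R)ᶜᶜ).card := by
    have := nv_card_add (s := s) (t := t) (S := S) (A := Q \ R) (B := R \ Q) (W := (Q ∪ R)ᶜᶜ)
      (fun z hz' => mem_compl.2 fun hc => disjoint_left.1 dLM hz' hc)
      (fun z hz' => mem_compl.2 fun hc => disjoint_left.1 dRM hz' hc) dLR
    omega
  have cO : 5 ≤ (nv s t S (Q ∩ R)ᶜ).card := by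
    have := nv_card_add (s := s) (t := t) (S := S) (A := Q \ R) (B := R \ Q) (W := (Q ∩ R)ᶜ)
      (fun z hz' => mem_compl.2 fun hc => disjoint_left.1 dOL hc hz')
      (fun z hz' => mem_compl.2 fun hc => (mem_sdiff.1 hz').2 (mem_inter.1 hc).1) dLR
    omega
  obtain ⟨p, q, e1, e2, g1, g2, cor⟩ := h.five_corner hC h5 (hT.TL hC h hx0) hnu hd
    (hT.H (dl_sdiff_sub Q R)) cL
  have hnvL := cor.nb hC h
  -- the opposite corner is larger
  have hM7 : (dl s t S (Q ∪ R)ᶜ).card ≠ 5 := by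
    intro hM
    obtain ⟨p', q', e1', e2', g1', g2', cor'⟩ := h.five_corner hC h5 (hT.TM hC h hx0) hnw hM
      hT.HM cM
    have h4 := four_beta hC h cor cor' dLM hT.huw
    have hU : (Q \ R) ∪ (Q ∪ R)ᶜ = Rᶜ := by
      ext z
      simp only [mem_union, mem_sdiff, mem_compl]
      tauto
    rw [hU, dl_compl, hR.bad.two] at h4
    omega
  have hsum := hT.sum1
  have hO : (dl s t S (Q ∩ R)).card % 2 = 1 := by
    have h1 := parity h.str.g (s := s) (t := t) (Q ∩ R)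
    rw [hT.TO hC h hx0, card_singleton, filter_true_of_mem (hT.H (dl_inter_sub Q R))] at h1
    exact h1.symm
  have hO1 := hC.base.br (Q ∩ R)
  have hO35 : (dl s t S (Q ∩ R)).card = 3 ∨ (dl s t S (Q ∩ R)).card = 5 := by omega
  have hyQ := hQ.y h hS hx0 hz hT.hu hT.hux ha
  have hfu := hS.mem u hT.hu hT.hux
  have hmv : oth s t x0 (f u) ≠ u → ∀ y, y ∉ Ts s t γ → (∃ e ∈ inc s t S x0, e ∈ inc s t S y) →
      ∃ Z, Cl s t β Z ∧ u ∈ Z ∧ y ∉ Z := fun hyu y hy hyx =>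
    h.mv x0 hx0 hz u hT.hu hT.hux (fun e he heu =>
      hyu (hS.adj hC h.str hx0 hT.hu hT.hux he heu).2) y hy hyx
  rcases hO35 with hO3 | hO5
  · -- the corner is the defect `x0`
    have hnvO : nv s t S (Q ∩ R) = {x0} := by
      have h1 := hC.three h.str hO3
      have h2 : (nv s t S (Q ∩ R)).card = 1 := by omega
      obtain ⟨z, hz'⟩ := card_eq_one.1 h2
      obtain ⟨h3, h4⟩ := single_mem (hT.TO hC h hx0)
      have h5 := hC.T_nv h.str h3 h4
      rw [hz', mem_singleton] at h5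
      rw [hz', h5]
    refine ⟨?_, hnvL, fun _ => hnvO⟩
    by_contra hyu
    have hyR : oth s t x0 (f u) ∉ R := by
      intro hc
      have h1 : oth s t x0 (f u) ∈ nv s t S (Q ∩ R) := nv_mem (oth_inc hfu) (mem_inter.2 ⟨hyQ, hc⟩)
      rw [hnvO, mem_singleton] at h1
      exact oth_ne hC.base.loop hfu h1
    have h1 : oth s t x0 (f u) ∈ nv s t S (Q \ R) :=
      nv_mem (oth_inc hfu) (mem_sdiff.2 ⟨hyQ, hyR⟩)
    rw [cor.nvA] at h1
    simp only [mem_insert, mem_singleton] at h1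
    have hyT : oth s t x0 (f u) ∉ Ts s t γ := by
      rcases h1 with h1 | h1 | h1
      · exact absurd h1 hyu
      · rw [h1]; exact cor.pT
      · rw [h1]; exact cor.qT
    obtain ⟨W, hW1, hW2, hW3⟩ := hmv hyu _ hyT ⟨f u, hfu, oth_inc hfu⟩
    have h2 := cor.sub hW1 hW2
    rcases h1 with h1 | h1 | h1
    · exact hyu h1
    · rw [h1] at hW3; exact hW3 h2.1
    · rw [h1] at hW3; exact hW3 h2.2
  · -- the corner has three vertices
    obtain ⟨⟨e, he, heO, heT, hcl⟩, htwo⟩ := h.zc hC h5 (hT.TO hC h hx0) hz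
      (hT.H (dl_inter_sub Q R)) hO5 cO
    refine ⟨?_, hnvL, fun hall => ?_⟩
    · by_contra hyu
      have hLb : 2 ≤ ((dl s t S (Q \ R)).filter fun e => β e ≠ 0).card := by
        refine le_trans (card_pair cor.g12).ge (card_le_card ?_)
        intro e he
        rcases mem_insert.1 he with rfl | he
        · exact mem_filter.2 ⟨cor.g1A, cor.bg1⟩
        · rw [mem_singleton.1 he]; exact mem_filter.2 ⟨cor.g2A, cor.bg2⟩
      have hex : ∃ e ∈ S, β e ≠ 0 ∧ ((s e ∈ Q ∩ R ∧ t e ∈ Q \ R) ∨ (s e ∈ Q \ R ∧ t e ∈ Q ∩ R)) := by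
        by_contra hc
        push Not at hc
        have h1 := beta_union (s := s) (t := t) (S := S) (β := β) dOL (fun e he hb hh => by
          rcases hh with hh | hh
          · exact (hc e he hb).1 hh.1 hh.2
          · exact (hc e he hb).2 hh.1 hh.2)
        have hU : (Q ∩ R) ∪ (Q \ R) = Q := by
          ext z
          simp only [mem_union, mem_sdiff, mem_inter]
          tauto
        rw [hU, hQ.bad.two] at h1
        omega
      obtain ⟨W, hW1, hW2, hW3⟩ := hmv hyu _ heT ⟨e, he, oth_inc he⟩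
      have hnvLW : ∀ z ∈ nv s t S (Q \ R), z ∈ W := by
        intro z hz'
        have h2 := cor.sub hW1 hW2
        rw [cor.nvA] at hz'
        simp only [mem_insert, mem_singleton] at hz'
        rcases hz' with rfl | rfl | rfl
        · exact hW2
        · exact h2.1
        · exact h2.2
      have hnvOW : ∀ z ∈ nv s t S (Q ∩ R), z ≠ x0 → z ∉ W := fun z hz' hzx =>
        mem_compl.1 (hcl Wᶜ hW1.compl (mem_compl.2 hW3) z hz' hzx)
      obtain ⟨g, hgS, hgb, hg⟩ := hex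
      have hs : g ∈ inc s t S (s g) := mem_inc.2 ⟨hgS, Or.inl rfl⟩
      have ht : g ∈ inc s t S (t g) := mem_inc.2 ⟨hgS, Or.inr rfl⟩
      rcases hg with ⟨k1, k2⟩ | ⟨k1, k2⟩
      · have l1 := hnvLW _ (nv_mem ht k2)
        refine hnvOW _ (nv_mem hs k1) ?_ (hW1.both ht hs hgb l1)
        intro hc
        exact hgb (hz g (by rw [← hc]; exact hs))
      · have l1 := hnvLW _ (nv_mem hs k1)
        refine hnvOW _ (nv_mem ht k2) ?_ (hW1.both hs ht hgb l1)
        intro hc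
        exact hgb (hz g (by rw [← hc]; exact ht))
    · exfalso
      obtain ⟨z, hzT, hzx, rfl⟩ := hS.surj hC h.str hx0 he
      apply heT
      rw [hall z hzT hzx]; exact hzT

end pair

end MP974d84.J
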