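import Mathlib
import Pool.Agent.Work.MP_974d84_co.J11b

/-!
Two lifts which differ away from the `Zero` defect cannot have obstructing cuts with the same
vertices when all defects are adjacent to the `Zero` defect.
-/

namespace MP974d84.J

open Finset

variable {V E : Type*} [Fintype V] [DecidableEq V] [Fintype E] [DecidableEq E]
variable {s t : E → V} {S : Finset E} {β γ : E → ZMod 2}

theorem D_congr {A : Type*} [AddCommGroup A] {f g : E → A} {v : V}
    (h : ∀ e, (s e = v ∨ t e = v) → f e = g e) : D s t f v = D s t g v := by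
  unfold D
  refine sum_congr rfl fun e _ => ?_
  by_cases h1 : s e = v
  · rw [h e (Or.inl h1)]
  · by_cases h2 : t e = v
    · rw [h e (Or.inr h2)]
    · simp [h1, h2]

theorem two_lifts (hC : Ctx s t S) (h : Norm s t S β γ) {x0 u : V} (hx0 : x0 ∈ Ts s t γ)
    (hz : Zero s t S β x0) (hu : u ∈ Ts s t γ) (hux : u ≠ x0) {f : V → E} {Z : V → Finset V}
    (hS : Star s t S γ x0 f Z) (hadj : ∀ v ∈ Ts s t γ, v ≠ x0 → oth s t x0 (f v) = v)
    (N : Finset V)
    (hN : ∀ (a : E → ℤ) (Q : Finset V), LF s t γ x0 u a → QC s t S β γ x0 u a Q →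
      nv s t S Q = N) : False := by
  obtain ⟨a, a1, a2, a3⟩ := hS.lift hC h.str hx0 hu hux
  have ha : LF s t γ x0 u a := ⟨a1, a2, a3⟩
  have haS : ∀ e, a e ≠ 0 → e ∈ S := fun e he => h.str.g e (ha.ne he)
  let a' : E → ℤ := fun e => if e ∈ inc s t S x0 then a e else - a e
  have hin : ∀ e, e ∈ inc s t S x0 → a' e = a e := fun e he => if_pos he
  have hout : ∀ e, e ∉ inc s t S x0 → a' e = - a e := fun e he => if_neg he
  have ha' : LF s t γ x0 u a' := by
    refine ⟨fun e => ?_, fun v => ?_, fun e => ?_⟩
    · have := a1 e
      by_cases he : e ∈ inc s t S x0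
      · rw [hin e he]; exact this
      · rw [hout e he]; omega
    · by_cases hvT : v ∈ Ts s t γ
      · rw [← a2 v]
        apply D_congr
        intro e he
        by_cases hae : a e = 0
        · by_cases hei : e ∈ inc s t S x0
          · exact hin e hei
          · rw [hout e hei, hae]; rfl
        · have hev : e ∈ inc s t S v := mem_inc.2 ⟨haS e hae, he⟩
          apply hin
          by_cases hvx : v = x0
          · rw [← hvx]; exact hev
          · have hnz : ¬ Zero s t S β v := fun hh => hvx (h.uniq hC hvT hx0 hh hz)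
            obtain ⟨e1, e2, c, _, _, _, hi, _, _, _, hg1, hg2, _⟩ := h.beta hC hvT hnz
            have hfc : f v ∈ inc s t S v := by
              have := oth_inc (hS.mem v hvT hvx)
              rwa [hadj v hvT hvx] at this
            have hfc' : f v = c := by
              have h1 := hfc
              rw [hi] at h1
              simp only [mem_insert, mem_singleton] at h1
              rcases h1 with h1 | h1 | h1
              · exact absurd (h1 ▸ hg1) (hS.mem_dl hvT hvx).2
              · exact absurd (h1 ▸ hg2) (hS.mem_dl hvT hvx).2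
              · exact h1
            have hec : e = c := by
              have h1 := hev
              rw [hi] at h1
              simp only [mem_insert, mem_singleton] at h1
              rcases h1 with h1 | h1 | h1
              · exact absurd (h1 ▸ hg1) (ha.ne hae)
              · exact absurd (h1 ▸ hg2) (ha.ne hae)
              · exact h1
            rw [hec, ← hfc']
            exact hS.mem v hvT hvx
      · have h1 : D s t a' v = D s t (fun e => - a e) v := by
          apply D_congr
          intro e he
          by_cases hae : a e = 0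
          · by_cases hei : e ∈ inc s t S x0
            · rw [hin e hei, hae]; rfl
            · exact hout e hei
          · apply hout
            intro hei
            obtain ⟨w, hw, hwx, rfl⟩ := hS.surj hC h.str hx0 hei
            have hev : f w ∈ inc s t S v := mem_inc.2 ⟨haS _ hae, he⟩
            rcases (inc_iff hei).1 hev with h2 | h2
            · exact hvT (h2 ▸ hx0)
            · rw [hadj w hw hwx] at h2
              exact hvT (h2 ▸ hw)
        have hv0 : v ∉ ({x0, u} : Finset V) := by
          intro hh
          simp only [mem_insert, mem_singleton] at hh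
          rcases hh with hh | hh
          · exact hvT (hh ▸ hx0)
          · exact hvT (hh ▸ hu)
        rw [h1, D_neg, a2]
        unfold sg
        rw [if_neg hv0, if_neg hvT]
        rfl
    · by_cases he : e ∈ inc s t S x0
      · rw [hin e he]; exact a3 e
      · rw [hout e he]
        push_cast
        rw [a3 e, z2_neg]
  obtain ⟨Q, hQ⟩ := ha.cut hC h.str hx0 hu hux
  obtain ⟨Q', hQ'⟩ := ha'.cut hC h.str hx0 hu hux
  have hnv : nv s t S Q = nv s t S Q' := (hN a Q ha hQ).trans (hN a' Q' ha' hQ').symm
  have hmem : ∀ v e, e ∈ inc s t S v → (v ∈ Q ↔ v ∈ Q') := by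
    intro v e he
    constructor
    · intro hv
      have h1 := nv_mem he hv
      rw [hnv] at h1
      exact (mem_nv.1 h1).1
    · intro hv
      have h1 := nv_mem he hv
      rw [← hnv] at h1
      exact (mem_nv.1 h1).1
  have hsS : ∀ e ∈ S, (s e ∈ Q ↔ s e ∈ Q') := fun e he =>
    hmem _ e (mem_inc.2 ⟨he, Or.inl rfl⟩)
  have htS : ∀ e ∈ S, (t e ∈ Q ↔ t e ∈ Q') := fun e he =>
    hmem _ e (mem_inc.2 ⟨he, Or.inr rfl⟩)
  have hcard : ((dl s t S Q).filter fun e => ¬ β e ≠ 0).card = 4 := by
    have h1 := card_filter_add_card_filter_not (s := dl s t S Q) (fun e => β e ≠ 0)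
    rw [hQ.bad.two, hQ.bad.six] at h1
    omega
  obtain ⟨g, hg, hgi⟩ : ∃ g ∈ (dl s t S Q).filter (fun e => ¬ β e ≠ 0), g ∉ inc s t S x0 := by
    by_contra hc
    push Not at hc
    have h1 : (dl s t S Q).filter (fun e => ¬ β e ≠ 0) ⊆ inc s t S x0 := by
      intro g hg
      apply hc g
      simpa using hg
    have h2 := card_le_card h1
    have h3 := hC.base.deg x0
    omega
  obtain ⟨hgQ, hgb⟩ := mem_filter.1 hg
  rw [ne_eq, not_not] at hgb
  have hgS := (mem_dl.1 hgQ).1
  have hgQ' : g ∈ dl s t S Q' := by
    refine mem_dl.2 ⟨hgS, ?_⟩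
    have h1 := (mem_dl.1 hgQ).2
    unfold crs at h1 ⊢
    rw [hsS g hgS, htS g hgS] at h1
    exact h1
  have e1 := hQ.bad.dir g hgQ hgb
  have e2 := hQ'.bad.dir g hgQ' hgb
  unfold ov at e1 e2
  rw [hout g hgi] at e2
  simp only [← hsS g hgS, ← htS g hgS] at e2
  have e3 : (if s g ∈ Q then - a g else 0) - (if t g ∈ Q then - a g else 0)
      = - ((if s g ∈ Q then a g else 0) - (if t g ∈ Q then a g else 0)) := by
    split_ifs <;> ring
  rw [e3, e1] at e2
  norm_num at e2

end MP974d84.J
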