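import Mathlib
import Pool.Agent.Work.MP_974d84_co.Kochol

/-!
The finite part of the reduction of five-edge cuts.
-/

namespace MP974d84.J

open Finset

/-- Admissible boundary values. -/
def Nz (τ : Fin 5 → ZMod 5) : Prop := (∀ i, τ i ≠ 0) ∧ ∑ i, τ i = 0

/-- Symmetric coefficients. -/
def sy (x : Fin 5 → Fin 5 → ℤ) (i j : Fin 5) : ℤ :=
  if i < j then x i j else if j < i then x j i else 0

theorem sy_comm (x : Fin 5 → Fin 5 → ℤ) (i j : Fin 5) : sy x i j = sy x j i := by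
  unfold sy
  rcases lt_trichotomy i j with h | h | h
  · simp [h, not_lt.2 h.le]
  · simp [h]
  · simp [h, not_lt.2 h.le]

theorem sy_self (x : Fin 5 → Fin 5 → ℤ) (i : Fin 5) : sy x i i = 0 := by simp [sy]

theorem sy_sum (x : Fin 5 → Fin 5 → ℤ) (τ : Fin 5 → ZMod 5) :
    ∑ i, ∑ j, (if τ i + τ j = 0 then sy x i j else 0)
      = 2 * ∑ i, ∑ j, (if i < j ∧ τ i + τ j = 0 then x i j else 0) := by
  have h1 : ∀ i j, (if τ i + τ j = 0 then sy x i j else 0)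
      = (if i < j ∧ τ i + τ j = 0 then x i j else 0)
        + (if j < i ∧ τ j + τ i = 0 then x j i else 0) := by
    intro i j
    unfold sy
    rw [add_comm (τ j) (τ i)]
    rcases lt_trichotomy i j with h | h | h
    · simp [h, not_lt.2 h.le]
    · simp [h]
    · simp [h, not_lt.2 h.le]
  simp only [h1, sum_add_distrib]
  rw [sum_comm (f := fun i j => if j < i ∧ τ j + τ i = 0 then x j i else 0), two_mul]

/-- Symmetric form. -/
structure SForm (n : (Fin 5 → ZMod 5) → ℤ) (x0 : ℤ) (x : Fin 5 → Fin 5 → ℤ) : Prop where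
  symm : ∀ i j, x i j = x j i
  self : ∀ i, x i i = 0
  eval : ∀ τ, Nz τ → 2 * n τ = 2 * x0 + ∑ i, ∑ j, (if τ i + τ j = 0 then x i j else 0)

theorem exists_sform {n : (Fin 5 → ZMod 5) → ℤ} (hn : Form n) : ∃ x0 x, SForm n x0 x := by
  obtain ⟨x0, x, hx⟩ := hn
  refine ⟨x0, sy x, sy_comm x, sy_self x, fun τ hτ => ?_⟩
  rw [sy_sum, hx τ hτ.1 hτ.2]; ring

/-- Special boundary values. -/
def tv (e : Fin 5) (L : Finset (Fin 5)) (i : Fin 5) : ZMod 5 :=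
  if i = e then 4 else if i ∈ L then 1 else if L.card = 2 then 2 else 3

theorem tv_spec : ∀ (e : Fin 5) (L : Finset (Fin 5)), e ∉ L → (L.card = 2 ∨ L.card = 3) →
    ((∀ i, tv e L i ≠ 0) ∧ ∑ i, tv e L i = 0) ∧
      ∀ i j, i ≠ j → (tv e L i + tv e L j = 0 ↔ (i = e ∧ j ∈ L) ∨ (j = e ∧ i ∈ L)) := by
  decide +kernel

theorem SForm.at_tv {n : (Fin 5 → ZMod 5) → ℤ} {x0 : ℤ} {x : Fin 5 → Fin 5 → ℤ}
    (h : SForm n x0 x) {e : Fin 5} {L : Finset (Fin 5)} (he : e ∉ L)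
    (hL : L.card = 2 ∨ L.card = 3) : n (tv e L) = x0 + ∑ j ∈ L, x e j := by
  obtain ⟨h1, h2⟩ := tv_spec e L he hL
  have h3 := h.eval (tv e L) h1
  have h4 : ∀ i j, (if tv e L i + tv e L j = 0 then x i j else 0)
      = (if i = e then (if j ∈ L then x e j else 0) else 0)
        + (if j = e then (if i ∈ L then x e i else 0) else 0) := by
    intro i j
    by_cases hij : i = j
    · subst hij
      rw [h.self]
      by_cases c : i = e
      · subst c; simp [he]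
      · simp [c]
    · have h5 := h2 i j hij
      by_cases c1 : i = e
      · subst c1
        have c2 : j ≠ i := fun hc => hij hc.symm
        by_cases c3 : j ∈ L <;> simp [h5, c2, c3, he]
      · by_cases c2 : j = e
        · subst c2
          by_cases c3 : i ∈ L <;> simp [h5, c1, c3, he, h.symm i j]
        · simp [h5, c1, c2]
  simp only [h4, sum_add_distrib, sum_ite_eq', mem_univ, if_true] at h3
  have h5 : ∑ i, ∑ j, (if i = e then (if j ∈ L then x e j else 0) else 0) = ∑ j ∈ L, x e j := by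
    rw [sum_eq_single e]
    · simp
    · intro b _ hb; simp [hb]
    · simp
  have h6 : ∑ i, (if i ∈ L then x e i else 0) = ∑ j ∈ L, x e j := by simp
  rw [h5, h6] at h3
  omega

theorem SForm.at_one {n : (Fin 5 → ZMod 5) → ℤ} {x0 : ℤ} {x : Fin 5 → Fin 5 → ℤ}
    (h : SForm n x0 x) : n (fun _ => 1) = x0 := by
  have h3 := h.eval (fun _ => 1) ⟨by decide, by decide⟩
  have : ¬ ((1 : ZMod 5) + 1 = 0) := by decide
  simp only [this, if_false, sum_const_zero, add_zero] at h3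
  omega

/-- All coefficients that matter vanish. -/
theorem SForm.zero {n : (Fin 5 → ZMod 5) → ℤ} {x0 : ℤ} {x : Fin 5 → Fin 5 → ℤ}
    (h : SForm n x0 x) {τ : Fin 5 → ZMod 5} (hτ : Nz τ)
    (hz : ∀ i j, i ≠ j → τ i + τ j = 0 → x i j = 0) : n τ = x0 := by
  have h3 := h.eval τ hτ
  have h4 : ∑ i, ∑ j, (if τ i + τ j = 0 then x i j else 0) = 0 := by
    refine sum_eq_zero fun i _ => sum_eq_zero fun j _ => ?_
    by_cases hij : i = j
    · subst hij; rw [h.self]; simp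
    · split_ifs with hc
      · exact hz i j hij hc
      · rfl
  omega

theorem SForm.ge {n : (Fin 5 → ZMod 5) → ℤ} {x0 : ℤ} {x : Fin 5 → Fin 5 → ℤ}
    (h : SForm n x0 x) (hnn : ∀ i j, 0 ≤ x i j) {τ : Fin 5 → ZMod 5} (hτ : Nz τ) {a b : Fin 5}
    (hab : τ a + τ b = 0) (hpos : 0 < x a b) : x0 < n τ := by
  have h3 := h.eval τ hτ
  have h4 : 0 < ∑ i, ∑ j, (if τ i + τ j = 0 then x i j else 0) := by
    refine sum_pos' (fun i _ => sum_nonneg fun j _ => ?_) ⟨a, mem_univ a, ?_⟩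
    · split_ifs
      · exact hnn i j
      · exact le_rfl
    · refine sum_pos' (fun j _ => ?_) ⟨b, mem_univ b, ?_⟩
      · split_ifs
        · exact hnn a j
        · exact le_rfl
      · rw [if_pos hab]; exact hpos
  omega

theorem other4 : ∀ e a b : Fin 5, a ≠ e → b ≠ e → a ≠ b → ∃ c d, c ≠ e ∧ d ≠ e ∧ c ≠ d ∧
    c ≠ a ∧ c ≠ b ∧ d ≠ a ∧ d ≠ b := by
  decide +kernel

theorem other2 : ∀ e a : Fin 5, ∃ b, b ≠ e ∧ a ≠ b := by
  decide +kernel

/-- One centre, first kind. -/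
theorem centreA {x0 : ℤ} {X Y : Fin 5 → ℤ} {e : Fin 5} (h0 : 0 < x0)
    (h : ∀ L : Finset (Fin 5), e ∉ L → (L.card = 2 ∨ L.card = 3) →
      0 ≤ x0 + ∑ j ∈ L, X j ∧ 0 ≤ ∑ j ∈ L, Y j ∧ (x0 + ∑ j ∈ L, X j = 0 ∨ ∑ j ∈ L, Y j = 0)) :
    (∀ a, a ≠ e → 0 ≤ Y a) ∧ ∀ a b, a ≠ e → b ≠ e → a ≠ b → Y a = 0 ∨ Y b = 0 := by
  have two : ∀ a b, a ≠ e → b ≠ e → a ≠ b →
      0 ≤ x0 + (X a + X b) ∧ 0 ≤ Y a + Y b ∧ (x0 + (X a + X b) = 0 ∨ Y a + Y b = 0) := by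
    intro a b h1 h2 h3
    have := h {a, b} (by simp [h1.symm, h2.symm]) (Or.inl (card_pair h3))
    rwa [sum_pair h3, sum_pair h3] at this
  have three : ∀ a b c, a ≠ e → b ≠ e → c ≠ e → a ≠ b → a ≠ c → b ≠ c →
      0 ≤ x0 + (X a + (X b + X c)) ∧ 0 ≤ Y a + (Y b + Y c) ∧
        (x0 + (X a + (X b + X c)) = 0 ∨ Y a + (Y b + Y c) = 0) := by
    intro a b c h1 h2 h3 h4 h5 h6
    have hn : a ∉ ({b, c} : Finset (Fin 5)) := by simp [h4, h5]
    have := h {a, b, c} (by simp [h1.symm, h2.symm, h3.symm])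
      (Or.inr (by rw [card_insert_of_notMem hn, card_pair h6]))
    rwa [sum_insert hn, sum_insert hn, sum_pair h6, sum_pair h6] at this
  have four := other4 e
  have tri : ∀ a b c, a ≠ e → b ≠ e → c ≠ e → a ≠ b → a ≠ c → b ≠ c →
      Y a + Y b = 0 ∨ Y a + Y c = 0 ∨ Y b + Y c = 0 := by
    intro a b c h1 h2 h3 h4 h5 h6
    obtain ⟨p1, q1, r1⟩ := two a b h1 h2 h4
    obtain ⟨p2, q2, r2⟩ := two a c h1 h3 h5
    obtain ⟨p3, q3, r3⟩ := two b c h2 h3 h6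
    obtain ⟨p4, q4, r4⟩ := three a b c h1 h2 h3 h4 h5 h6
    rcases r1 with r1 | r1
    · rcases r2 with r2 | r2
      · rcases r3 with r3 | r3
        · exfalso; omega
        · exact Or.inr (Or.inr r3)
      · exact Or.inr (Or.inl r2)
    · exact Or.inl r1
  have main : ∀ a b, a ≠ e → b ≠ e → a ≠ b → (0 ≤ Y a ∧ 0 ≤ Y b) ∧ (Y a = 0 ∨ Y b = 0) := by
    intro a b h1 h2 h3
    obtain ⟨c, d, g1, g2, g3, g4, g5, g6, g7⟩ := four a b h1 h2 h3
    have k1 := (two a b h1 h2 h3).2.1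
    have k2 := (two a c h1 g1 g4.symm).2.1
    have k3 := (two a d h1 g2 g6.symm).2.1
    have k4 := (two b c h2 g1 g5.symm).2.1
    have k5 := (two b d h2 g2 g7.symm).2.1
    have k6 := (two c d g1 g2 g3).2.1
    have t1 := tri a b c h1 h2 g1 h3 g4.symm g5.symm
    have t2 := tri a b d h1 h2 g2 h3 g6.symm g7.symm
    have t3 := tri a c d h1 g1 g2 g4.symm g6.symm g3
    have t4 := tri b c d h2 g1 g2 g5.symm g7.symm g3
    clear two three four tri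
    rcases t1 with t1 | t1 | t1 <;> rcases t2 with t2 | t2 | t2 <;> rcases t3 with t3 | t3 | t3 <;>
      rcases t4 with t4 | t4 | t4 <;> omega
  refine ⟨fun a ha => ?_, fun a b h1 h2 h3 => (main a b h1 h2 h3).2⟩
  obtain ⟨b, hb1, hb2⟩ := other2 e a
  exact (main a b ha hb1 hb2).1.1

/-- One centre, second kind. -/
theorem centreB {X Y : Fin 5 → ℤ} {e : Fin 5}
    (h : ∀ L : Finset (Fin 5), e ∉ L → (L.card = 2 ∨ L.card = 3) →
      0 ≤ ∑ j ∈ L, X j ∧ 0 ≤ ∑ j ∈ L, Y j ∧ (∑ j ∈ L, X j = 0 ∨ ∑ j ∈ L, Y j = 0)) :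
    (∀ a, a ≠ e → X a = 0) ∨ (∀ a, a ≠ e → Y a = 0) := by
  have two : ∀ a b, a ≠ e → b ≠ e → a ≠ b → 0 ≤ X a + X b ∧ 0 ≤ Y a + Y b := by
    intro a b h1 h2 h3
    have := h {a, b} (by simp [h1.symm, h2.symm]) (Or.inl (card_pair h3))
    rw [sum_pair h3, sum_pair h3] at this
    exact ⟨this.1, this.2.1⟩
  have three : ∀ a b c, a ≠ e → b ≠ e → c ≠ e → a ≠ b → a ≠ c → b ≠ c →
      (X a + (X b + X c) = 0 ∨ Y a + (Y b + Y c) = 0) := by
    intro a b c h1 h2 h3 h4 h5 h6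
    have hn : a ∉ ({b, c} : Finset (Fin 5)) := by simp [h4, h5]
    have := h {a, b, c} (by simp [h1.symm, h2.symm, h3.symm])
      (Or.inr (by rw [card_insert_of_notMem hn, card_pair h6]))
    rw [sum_insert hn, sum_insert hn, sum_pair h6, sum_pair h6] at this
    exact this.2.2
  have tri : ∀ a b c, a ≠ e → b ≠ e → c ≠ e → a ≠ b → a ≠ c → b ≠ c →
      (X a = 0 ∧ X b = 0 ∧ X c = 0) ∨ (Y a = 0 ∧ Y b = 0 ∧ Y c = 0) := by
    intro a b c h1 h2 h3 h4 h5 h6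
    obtain ⟨p1, q1⟩ := two a b h1 h2 h4
    obtain ⟨p2, q2⟩ := two a c h1 h3 h5
    obtain ⟨p3, q3⟩ := two b c h2 h3 h6
    rcases three a b c h1 h2 h3 h4 h5 h6 with r | r
    · left; refine ⟨?_, ?_, ?_⟩ <;> omega
    · right; refine ⟨?_, ?_, ?_⟩ <;> omega
  obtain ⟨a, ha, -⟩ := other2 e e
  obtain ⟨b, hb, hab⟩ := other2 e a
  obtain ⟨c, d, g1, g2, g3, g4, g5, g6, g7⟩ := other4 e a b ha hb hab
  have hall : ∀ e a b c d : Fin 5, a ≠ e → b ≠ e → a ≠ b → c ≠ e → d ≠ e → c ≠ d → c ≠ a →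
      c ≠ b → d ≠ a → d ≠ b → ∀ z, z ≠ e → z = a ∨ z = b ∨ z = c ∨ z = d := by
    decide +kernel
  have hz := hall e a b c d ha hb hab g1 g2 g3 g4 g5 g6 g7
  have t1 := tri a b c ha hb g1 hab g4.symm g5.symm
  have t2 := tri a b d ha hb g2 hab g6.symm g7.symm
  have t3 := tri a c d ha g1 g2 g4.symm g6.symm g3
  have key : (X a = 0 ∧ X b = 0 ∧ X c = 0 ∧ X d = 0) ∨ (Y a = 0 ∧ Y b = 0 ∧ Y c = 0 ∧ Y d = 0) := by
    clear two three tri
    rcases t1 with t1 | t1 <;> rcases t2 with t2 | t2 <;> rcases t3 with t3 | t3 <;> simp_all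
  rcases key with k | k
  · left
    intro z hze
    rcases hz z hze with rfl | rfl | rfl | rfl
    · exact k.1
    · exact k.2.1
    · exact k.2.2.1
    · exact k.2.2.2
  · right
    intro z hze
    rcases hz z hze with rfl | rfl | rfl | rfl
    · exact k.1
    · exact k.2.1
    · exact k.2.2.1
    · exact k.2.2.2

theorem all5 : ∀ a b c d e z : Fin 5, a ≠ b → a ≠ c → a ≠ d → a ≠ e → b ≠ c → b ≠ d → b ≠ e →
    c ≠ d → c ≠ e → d ≠ e → z = a ∨ z = b ∨ z = c ∨ z = d ∨ z = e := by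
  decide +kernel

theorem rest1 : ∀ a b c d : Fin 5, ∃ e, a ≠ e ∧ b ≠ e ∧ c ≠ e ∧ d ≠ e := by
  decide +kernel

theorem rest3 (a b : Fin 5) (hab : a ≠ b) : ∃ c d e : Fin 5, a ≠ c ∧ a ≠ d ∧ a ≠ e ∧ b ≠ c ∧
    b ≠ d ∧ b ≠ e ∧ c ≠ d ∧ c ≠ e ∧ d ≠ e := by
  obtain ⟨e, h1, h2, -, -⟩ := rest1 a b a b
  obtain ⟨c, d, h3, h4, h5, h6, h7, h8, h9⟩ := other4 e a b h1 h2 hab
  exact ⟨c, d, e, h6.symm, h8.symm, h1, h7.symm, h9.symm, h2, h5, h3, h4⟩

theorem Nz.sum5 {τ : Fin 5 → ZMod 5} (hτ : Nz τ) {a b c d e : Fin 5} (h1 : a ≠ b) (h2 : a ≠ c)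
    (h3 : a ≠ d) (h4 : a ≠ e) (h5 : b ≠ c) (h6 : b ≠ d) (h7 : b ≠ e) (h8 : c ≠ d) (h9 : c ≠ e)
    (h10 : d ≠ e) : τ a + τ b + (τ c + τ d) + τ e = 0 := by
  rw [← hτ.2]
  have h11 : (univ : Finset (Fin 5)) = {a, b, c, d, e} := by
    ext z
    simp only [mem_univ, mem_insert, mem_singleton, true_iff]
    exact all5 a b c d e z h1 h2 h3 h4 h5 h6 h7 h8 h9 h10
  rw [h11, sum_insert (by simp [*]), sum_insert (by simp [*]), sum_insert (by simp [*]),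
    sum_pair h10]
  ring

/-- Two disjoint pairs cannot both be zero pairs. -/
theorem Nz.disj {τ : Fin 5 → ZMod 5} (hτ : Nz τ) {a b c d : Fin 5} (h1 : a ≠ b) (h2 : a ≠ c)
    (h3 : a ≠ d) (h5 : b ≠ c) (h6 : b ≠ d) (h8 : c ≠ d) (hab : τ a + τ b = 0)
    (hcd : τ c + τ d = 0) : False := by
  obtain ⟨e, h4, h7, h9, h10⟩ := rest1 a b c d
  have := hτ.sum5 h1 h2 h3 h4 h5 h6 h7 h8 h9 h10
  rw [hab, hcd] at this
  exact hτ.1 e (by simpa using this)

/-- Supported on two disjoint pairs. -/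
theorem matching {x : Fin 5 → Fin 5 → ℤ} (hs : ∀ i j, x i j = x j i)
    (hm : ∀ e a b, a ≠ e → b ≠ e → a ≠ b → x e a = 0 ∨ x e b = 0) {a b : Fin 5} (hab : a ≠ b)
    (h0 : x a b ≠ 0 ∨ ∀ i j, i ≠ j → x i j = 0) :
    ∃ c d : Fin 5, a ≠ c ∧ a ≠ d ∧ b ≠ c ∧ b ≠ d ∧ c ≠ d ∧
      ∀ i j, i ≠ j → x i j ≠ 0 → (i = a ∧ j = b) ∨ (i = b ∧ j = a) ∨ (i = c ∧ j = d) ∨
        (i = d ∧ j = c) := by
  rcases h0 with h0 | h0
  · -- edges at `a` or `b` vanish
    have ha : ∀ j, j ≠ a → j ≠ b → x a j = 0 := fun j h1 h2 =>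
      (hm a b j hab.symm h1 h2.symm).resolve_left h0
    have hb : ∀ j, j ≠ a → j ≠ b → x b j = 0 := fun j h1 h2 =>
      (hm b a j hab h2 h1.symm).resolve_left (by rw [← hs a b]; exact h0)
    obtain ⟨c, d, e, g1, g2, g3, g4, g5, g6, g7, g8, g9⟩ := rest3 a b hab
    -- choose the pair among c, d, e
    have key : ∀ c d e : Fin 5, a ≠ c → a ≠ d → a ≠ e → b ≠ c → b ≠ d → b ≠ e → c ≠ d → c ≠ e →
        d ≠ e → x c e = 0 → x d e = 0 → ∀ i j, i ≠ j → x i j ≠ 0 → (i = a ∧ j = b) ∨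
        (i = b ∧ j = a) ∨ (i = c ∧ j = d) ∨ (i = d ∧ j = c) := by
      intro c d e g1 g2 g3 g4 g5 g6 g7 g8 g9 z1 z2 i j hij hne
      have z1' : x e c = 0 := by rw [hs]; exact z1
      have z2' : x e d = 0 := by rw [hs]; exact z2
      rcases all5 a b c d e i hab g1 g2 g3 g4 g5 g6 g7 g8 g9 with rfl | rfl | rfl | rfl | rfl <;>
        rcases all5 _ _ _ _ _ j hab g1 g2 g3 g4 g5 g6 g7 g8 g9 with rfl | rfl | rfl | rfl | rfl <;>
        first
        | exact absurd rfl hij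
        | (simp; done)
        | exact absurd (ha _ (Ne.symm ‹_›) (Ne.symm ‹_›)) hne
        | exact absurd (hb _ (Ne.symm ‹_›) (Ne.symm ‹_›)) hne
        | exact absurd z1 hne
        | exact absurd z2 hne
        | exact absurd z1' hne
        | exact absurd z2' hne
        | exact absurd ((hs _ _).trans (ha _ (Ne.symm ‹_›) (Ne.symm ‹_›))) hne
        | exact absurd ((hs _ _).trans (hb _ (Ne.symm ‹_›) (Ne.symm ‹_›))) hne
    by_cases y1 : x c d = 0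
    · by_cases y2 : x c e = 0
      · exact ⟨d, e, g2, g3, g5, g6, g9, key d e c g2 g3 g1 g5 g6 g4 g9 g7.symm g8.symm
          (by rw [hs]; exact y1) (by rw [hs]; exact y2)⟩
      · refine ⟨c, e, g1, g3, g4, g6, g8, key c e d g1 g3 g2 g4 g6 g5 g8 g7 g9.symm y1 ?_⟩
        exact (hm e c d g8 g9 g7).resolve_left (by rw [hs]; exact y2)
    · refine ⟨c, d, g1, g2, g4, g5, g7, key c d e g1 g2 g3 g4 g5 g6 g7 g8 g9 ?_ ?_⟩
      · exact (hm c d e g7.symm g8.symm g9).resolve_left y1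
      · exact (hm d c e g7 g9.symm g8).resolve_left (by rw [hs]; exact y1)
  · obtain ⟨c, d, e, g1, g2, g3, g4, g5, g6, g7, g8, g9⟩ := rest3 a b hab
    exact ⟨c, d, g1, g2, g4, g5, g7, fun i j hij hne => absurd (h0 i j hij) hne⟩

end MP974d84.J
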