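import Mathlib
import Pool.Agent.Work.MP_974d84_co.J7

/-!
The finite lemma for five-edge cuts.
-/

namespace MP974d84.J

open Finset

/-- Four distinct indices. -/
def D4 (a b c d : Fin 5) : Prop := a ≠ b ∧ a ≠ c ∧ a ≠ d ∧ b ≠ c ∧ b ≠ d ∧ c ≠ d

theorem finiteF (n m : (Fin 5 → ZMod 5) → ℤ) (hn : Form n) (hm : Form m)
    (hn0 : ∀ τ, 0 ≤ n τ) (hm0 : ∀ τ, 0 ≤ m τ) (hdis : ∀ τ, Nz τ → n τ = 0 ∨ m τ = 0)
    (K : Fin 5 → ZMod 2) (exc : Fin 5 → Fin 5 → Prop)
    (hTA : ∀ a b c d, D4 a b c d → (K a ≠ K b ∨ K c ≠ K d) →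
      ∃ τ, Nz τ ∧ τ a + τ b ≠ 0 ∧ τ c + τ d ≠ 0 ∧ 0 < n τ)
    (hTB : ∀ a b c d, D4 a b c d → ∃ τ, Nz τ ∧ τ a + τ b ≠ 0 ∧ τ c + τ d ≠ 0 ∧ 0 < m τ)
    (hPB : ∀ a b, a ≠ b → K a = K b → ¬ exc a b → ∃ τ, Nz τ ∧ τ a + τ b = 0 ∧ 0 < m τ)
    (hPA : ∀ a b c d, D4 a b c d → exc a b → K c = K d → ∃ τ, Nz τ ∧ τ c + τ d = 0 ∧ 0 < n τ)
    (hNA : ∃ τ, Nz τ ∧ 0 < n τ)
    (hexc : ∀ a b c d, D4 a b c d → exc a b → exc c d → False) : False := by
  obtain ⟨x0, x, hx⟩ := exists_sform hn
  obtain ⟨y0, y, hy⟩ := exists_sform hm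
  have hx1 := hx.at_one
  have hy1 := hy.at_one
  have hx0 : 0 ≤ x0 := by rw [← hx1]; exact hn0 _
  have hy0 : 0 ≤ y0 := by rw [← hy1]; exact hm0 _
  have hxy : x0 = 0 ∨ y0 = 0 := by
    rw [← hx1, ← hy1]; exact hdis _ ⟨by decide, by decide⟩
  have facts : ∀ (e : Fin 5) (L : Finset (Fin 5)), e ∉ L → (L.card = 2 ∨ L.card = 3) →
      0 ≤ x0 + ∑ j ∈ L, x e j ∧ 0 ≤ y0 + ∑ j ∈ L, y e j ∧
        (x0 + ∑ j ∈ L, x e j = 0 ∨ y0 + ∑ j ∈ L, y e j = 0) := by
    intro e L h1 h2
    rw [← hx.at_tv h1 h2, ← hy.at_tv h1 h2]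
    exact ⟨hn0 _, hm0 _, hdis _ (tv_spec e L h1 h2).1⟩
  have hend : ∀ a b, a ≠ b → (K a ≠ K b ∨ exc a b) →
      (∀ τ, Nz τ → 0 < n τ → τ a + τ b = 0) → False := by
    intro a b hab hor hall
    obtain ⟨c, d, e, g1, g2, g3, g4, g5, g6, g7, g8, g9⟩ := rest3 a b hab
    have hd : D4 a b c d := ⟨hab, g1, g2, g4, g5, g7⟩
    by_cases hk : K a ≠ K b ∨ K c ≠ K d
    · obtain ⟨τ, t1, t2, _, t4⟩ := hTA a b c d hd hk
      exact t2 (hall τ t1 t4)
    · push Not at hk
      obtain ⟨τ, t1, t2, t3⟩ := hPA a b c d hd (hor.resolve_left (fun h => h hk.1)) hk.2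
      exact t1.disj hab g1 g2 g4 g5 g7 (hall τ t1 t3) t2
  -- a nonzero coefficient from a positive value
  have hget : ∀ (f : (Fin 5 → ZMod 5) → ℤ) (z : Fin 5 → Fin 5 → ℤ), SForm f 0 z →
      ∀ τ, Nz τ → 0 < f τ → ∃ i j, i ≠ j ∧ τ i + τ j = 0 ∧ z i j ≠ 0 := by
    intro f z hz τ hτ hpos
    by_contra hc
    push Not at hc
    have := hz.zero hτ hc
    omega
  rcases hx0.lt_or_eq with hx0' | hx0'
  · -- first case: `y` is a nonnegative matching
    have h0 := hxy.resolve_left hx0'.ne'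
    subst h0
    have hA : ∀ e, (∀ a, a ≠ e → 0 ≤ y e a) ∧
        ∀ a b, a ≠ e → b ≠ e → a ≠ b → y e a = 0 ∨ y e b = 0 := by
      intro e
      refine centreA (X := x e) (Y := y e) hx0' (fun L h1 h2 => ?_)
      obtain ⟨p, q, r⟩ := facts e L h1 h2
      rw [zero_add] at q
      rw [zero_add] at r
      exact ⟨p, q, r⟩
    obtain ⟨a, b, hab, h0⟩ : ∃ a b, a ≠ b ∧ (y a b ≠ 0 ∨ ∀ i j, i ≠ j → y i j = 0) := by
      by_cases hc : ∃ a b, a ≠ b ∧ y a b ≠ 0
      · obtain ⟨a, b, h1, h2⟩ := hc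
        exact ⟨a, b, h1, Or.inl h2⟩
      · push Not at hc
        exact ⟨0, 1, by decide, Or.inr hc⟩
    obtain ⟨c, d, g1, g2, g4, g5, g7, hsup⟩ := matching hy.symm
      (fun e a b h1 h2 h3 => (hA e).2 a b h1 h2 h3) hab h0
    obtain ⟨τ, t1, t2, t3, t4⟩ := hTB a b c d ⟨hab, g1, g2, g4, g5, g7⟩
    have : m τ = 0 := by
      refine hy.zero t1 (fun i j hij hz => ?_)
      by_contra hne
      rcases hsup i j hij hne with ⟨rfl, rfl⟩ | ⟨rfl, rfl⟩ | ⟨rfl, rfl⟩ | ⟨rfl, rfl⟩
      · exact t2 hz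
      · exact t2 (by rw [add_comm]; exact hz)
      · exact t3 hz
      · exact t3 (by rw [add_comm]; exact hz)
    omega
  · subst hx0'
    obtain ⟨τ0, hτ0, hpos0⟩ := hNA
    obtain ⟨a, b, hab, _, hxab⟩ := hget n x hx τ0 hτ0 hpos0
    rcases hy0.lt_or_eq with hy0' | hy0'
    · -- second case: `x` is a nonnegative matching
      have hA : ∀ e, (∀ a, a ≠ e → 0 ≤ x e a) ∧
          ∀ a b, a ≠ e → b ≠ e → a ≠ b → x e a = 0 ∨ x e b = 0 := by
        intro e
        refine centreA (X := y e) (Y := x e) hy0' (fun L h1 h2 => ?_)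
        obtain ⟨p, q, r⟩ := facts e L h1 h2
        rw [zero_add] at p r
        exact ⟨q, p, r.symm⟩
      have hxn : ∀ i j, 0 ≤ x i j := by
        intro i j
        by_cases hij : j = i
        · rw [hij, hx.self]
        · exact (hA i).1 j hij
      obtain ⟨c, d, g1, g2, g4, g5, g7, hsup⟩ := matching hx.symm
        (fun e a b h1 h2 h3 => (hA e).2 a b h1 h2 h3) hab (Or.inl hxab)
      have hd : D4 a b c d := ⟨hab, g1, g2, g4, g5, g7⟩
      have hd' : D4 c d a b := ⟨g7, g1.symm, g4.symm, g2.symm, g5.symm, hab⟩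
      have hpab : 0 < x a b := lt_of_le_of_ne (hxn a b) (Ne.symm hxab)
      have hzero : ∀ τ, Nz τ → τ a + τ b ≠ 0 → τ c + τ d ≠ 0 → n τ = 0 := by
        intro τ t1 t2 t3
        refine hx.zero t1 (fun i j hij hz => ?_)
        by_contra hne
        rcases hsup i j hij hne with ⟨rfl, rfl⟩ | ⟨rfl, rfl⟩ | ⟨rfl, rfl⟩ | ⟨rfl, rfl⟩
        · exact t2 hz
        · exact t2 (by rw [add_comm]; exact hz)
        · exact t3 hz
        · exact t3 (by rw [add_comm]; exact hz)
      have hno : ∀ a b, a ≠ b → 0 < x a b → K a = K b → ¬ exc a b → False := by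
        intro a b hab hp hk he
        obtain ⟨τ, t1, t2, t3⟩ := hPB a b hab hk he
        have := hx.ge hxn t1 t2 hp
        rcases hdis τ t1 with h | h <;> omega
      have hTA' : K a ≠ K b ∨ K c ≠ K d → False := by
        intro hk
        obtain ⟨τ, t1, t2, t3, t4⟩ := hTA a b c d hd hk
        have := hzero τ t1 t2 t3
        omega
      have hk1 : K a = K b := by
        by_contra hc; exact hTA' (Or.inl hc)
      have hk2 : K c = K d := by
        by_contra hc; exact hTA' (Or.inr hc)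
      have he : exc a b := by
        by_contra hc; exact hno a b hab hpab hk1 hc
      have hcd : x c d = 0 := by
        by_contra hc
        exact hno c d g7 (lt_of_le_of_ne (hxn c d) (Ne.symm hc)) hk2
          (fun hc' => hexc a b c d hd he hc')
      refine hend a b hab (Or.inr he) (fun τ t1 t2 => ?_)
      by_contra hne
      have : n τ = 0 := by
        refine hx.zero t1 (fun i j hij hz => ?_)
        by_contra hne'
        rcases hsup i j hij hne' with ⟨rfl, rfl⟩ | ⟨rfl, rfl⟩ | ⟨rfl, rfl⟩ | ⟨rfl, rfl⟩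
        · exact hne hz
        · exact hne (by rw [add_comm]; exact hz)
        · exact hne' hcd
        · exact hne' (by rw [hx.symm]; exact hcd)
      omega
    · -- third case
      subst hy0'
      have hB : ∀ e, (∀ a, a ≠ e → x e a = 0) ∨ (∀ a, a ≠ e → y e a = 0) := by
        intro e
        refine centreB (fun L h1 h2 => ?_)
        obtain ⟨p, q, r⟩ := facts e L h1 h2
        rw [zero_add] at p q r
        rw [zero_add] at r
        exact ⟨p, q, r⟩
      have hya : ∀ j, j ≠ a → y a j = 0 :=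
        (hB a).resolve_left (fun h => hxab (h b hab.symm))
      have hyb : ∀ j, j ≠ b → y b j = 0 :=
        (hB b).resolve_left (fun h => hxab (by rw [hx.symm]; exact h a hab))
      have hyn : ∀ i j, i ≠ j → y i j ≠ 0 → a ≠ i ∧ a ≠ j ∧ b ≠ i ∧ b ≠ j := by
        intro i j hij hne
        refine ⟨?_, ?_, ?_, ?_⟩ <;> rintro rfl
        · exact hne (hya j hij.symm)
        · exact hne (by rw [hy.symm]; exact hya i hij)
        · exact hne (hyb j hij.symm)
        · exact hne (by rw [hy.symm]; exact hyb i hij)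
      have hor : K a ≠ K b ∨ exc a b := by
        by_contra hc
        push Not at hc
        obtain ⟨τ, t1, t2, t3⟩ := hPB a b hab hc.1 hc.2
        obtain ⟨i, j, hij, hz, hne⟩ := hget m y hy τ t1 t3
        obtain ⟨u1, u2, u3, u4⟩ := hyn i j hij hne
        exact t1.disj hab u1 u2 u3 u4 hij t2 hz
      obtain ⟨c1, d1, e1, g1, g2, g3, g4, g5, g6, g7, g8, g9⟩ := rest3 a b hab
      obtain ⟨τ1, s1, _, _, s4⟩ := hTB a b c1 d1 ⟨hab, g1, g2, g4, g5, g7⟩
      obtain ⟨c, d, hcd, _, hycd⟩ := hget m y hy τ1 s1 s4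
      obtain ⟨u1, u2, u3, u4⟩ := hyn c d hcd hycd
      obtain ⟨τ2, r1, _, r3, r4⟩ := hTB a b c d ⟨hab, u1, u2, u3, u4, hcd⟩
      obtain ⟨i, j, hij, hz, hyij⟩ := hget m y hy τ2 r1 r4
      obtain ⟨w1, w2, w3, w4⟩ := hyn i j hij hyij
      obtain ⟨e, q1, q2, q3, q4⟩ := rest1 a b c d
      -- `x` vanishes at every vertex of a `y` pair
      have hxz : ∀ i j, i ≠ j → y i j ≠ 0 → ∀ k, k ≠ i → x i k = 0 := by
        intro i j hij hne
        exact (hB i).resolve_right (fun h => hne (h j hij.symm))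
      have hxc := hxz c d hcd hycd
      have hxd := hxz d c hcd.symm (by rw [hy.symm]; exact hycd)
      have hxe : ∀ k, k ≠ e → x e k = 0 := by
        rcases all5 a b c d e i hab u1 u2 q1 u3 u4 q2 hcd q3 q4 with k | k | k | k | k
        · exact absurd k.symm w1
        · exact absurd k.symm w3
        · rcases all5 a b c d e j hab u1 u2 q1 u3 u4 q2 hcd q3 q4 with l | l | l | l | l
          · exact absurd l.symm w2
          · exact absurd l.symm w4
          · exact absurd (k.trans l.symm) hij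
          · rw [k, l] at hz; exact absurd hz r3
          · subst l; exact hxz j i hij.symm (by rw [hy.symm]; exact hyij)
        · rcases all5 a b c d e j hab u1 u2 q1 u3 u4 q2 hcd q3 q4 with l | l | l | l | l
          · exact absurd l.symm w2
          · exact absurd l.symm w4
          · rw [k, l, add_comm] at hz; exact absurd hz r3
          · exact absurd (k.trans l.symm) hij
          · subst l; exact hxz j i hij.symm (by rw [hy.symm]; exact hyij)
        · subst k; exact hxz i j hij hyij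
      refine hend a b hab hor (fun τ t1 t2 => ?_)
      obtain ⟨i', j', hij', hz', hne'⟩ := hget n x hx τ t1 t2
      have hi' : i' = a ∨ i' = b := by
        rcases all5 a b c d e i' hab u1 u2 q1 u3 u4 q2 hcd q3 q4 with k | k | k | k | k
        · exact Or.inl k
        · exact Or.inr k
        · subst k; exact absurd (hxc j' hij'.symm) hne'
        · subst k; exact absurd (hxd j' hij'.symm) hne'
        · subst k; exact absurd (hxe j' hij'.symm) hne'
      have hj' : j' = a ∨ j' = b := by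
        rcases all5 a b c d e j' hab u1 u2 q1 u3 u4 q2 hcd q3 q4 with k | k | k | k | k
        · exact Or.inl k
        · exact Or.inr k
        · subst k; exact absurd ((hx.symm _ _).trans (hxc i' hij')) hne'
        · subst k; exact absurd ((hx.symm _ _).trans (hxd i' hij')) hne'
        · subst k; exact absurd ((hx.symm _ _).trans (hxe i' hij')) hne'
      rcases hi' with rfl | rfl <;> rcases hj' with rfl | rfl
      · exact absurd rfl hij'
      · exact hz'
      · rw [add_comm]; exact hz'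
      · exact absurd rfl hij'

end MP974d84.J
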