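import Mathlib
import Pool.Agent.Work.MP_974d84_co.J6
import Pool.Agent.Work.MP_974d84_co.J8
import Pool.Agent.Work.MP_974d84_co.JN

/-!
Replacement of one side of a five-edge cut by small graphs.
-/

namespace MP974d84.J

open Finset

variable {V E : Type*} [Fintype V] [DecidableEq V] [Fintype E] [DecidableEq E] {d : ℕ}

theorem mem_dl_compl {s t : E → V} {S : Finset E} {Y : Finset V} {e : E} :
    e ∈ dl s t S Yᶜ ↔ e ∈ dl s t S Y := by rw [dl_compl]

section
variable {s t : E → V} {S : Finset E} {Z : Finset V} {P Q : E → V} {G0 : Finset E}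
  (h : Rep s t S Z P Q G0)
include h

/-- The cut of the outer part of `Y` in terms of the cut of `Y` in the new graph. -/
theorem Rep.dl_sdiff {K : E → V} (hK : ∀ e ∈ dl s t S Z, P e = K e ∧ Q e = K e) (Y : Finset V)
    (e : E) : e ∈ dl s t S (Y \ Z) ↔
      (¬ (s e ∈ Z ∧ t e ∈ Z)) ∧ ((e ∈ dl (rs s Z P) (rs t Z Q) (rS s t S Z G0) Y ∧
        ¬ (e ∈ dl s t S Z ∧ K e ∈ Y)) ∨
        (e ∉ dl (rs s Z P) (rs t Z Q) (rS s t S Z G0) Y ∧ (e ∈ dl s t S Z ∧ K e ∈ Y))) := by
  by_cases c1 : s e ∈ Z <;> by_cases c2 : t e ∈ Z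
  · have : e ∉ dl s t S (Y \ Z) := by
      rw [mem_dl]; unfold crs; simp [c1, c2]
    simp [this, c1, c2]
  · rw [mem_dl, mem_dl, h.mem_out (fun hh => c2 hh.2)]
    unfold crs
    rw [rs_in c1, rs_out c2]
    have h1 : e ∈ dl s t S Z ↔ e ∈ S := by
      rw [mem_dl]; unfold crs; tauto
    by_cases hS : e ∈ S
    · rw [(hK e (h1.2 hS)).1]
      simp only [h1, hS, c1, c2, mem_sdiff, true_and, not_true_eq_false, and_false, false_and,
        not_false_iff, and_true, false_or]
      tauto
    · simp [hS, h1]
  · rw [mem_dl, mem_dl, h.mem_out (fun hh => c1 hh.1)]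
    unfold crs
    rw [rs_out c1, rs_in c2]
    have h1 : e ∈ dl s t S Z ↔ e ∈ S := by
      rw [mem_dl]; unfold crs; tauto
    by_cases hS : e ∈ S
    · rw [(hK e (h1.2 hS)).2]
      simp only [h1, hS, c1, c2, mem_sdiff, true_and, not_true_eq_false, and_false, false_and,
        not_false_iff, and_true, or_false]
      tauto
    · simp [hS, h1]
  · rw [mem_dl, mem_dl, h.mem_out (fun hh => c1 hh.1)]
    unfold crs
    rw [rs_out c1, rs_out c2]
    have h1 : e ∉ dl s t S Z := by
      rw [mem_dl]; unfold crs; tauto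
    simp only [h1, c1, c2, mem_sdiff, false_and, not_false_iff, and_true, and_false, or_false,
      true_and]

end

/-- Degrees, boundaries and defects, at a vertex, all edges given. -/
theorem card_dl_term {s t : E → V} {S : Finset E} {Z : Finset V} {tm : Fin d → E}
    (hT : Term s t S Z tm) : dl s t S Z = univ.image tm := by
  ext e
  rw [mem_dl, mem_image]
  constructor
  · rintro ⟨h1, h2⟩
    obtain ⟨i, hi⟩ := hT.all e h1 h2
    exact ⟨i, mem_univ i, hi.symm⟩
  · rintro ⟨i, _, rfl⟩
    exact ⟨hT.mem i, hT.crs i⟩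

theorem tm_mem_dl {s t : E → V} {S : Finset E} {Z : Finset V} {tm : Fin d → E}
    (hT : Term s t S Z tm) (i : Fin d) : tm i ∈ dl s t S Z :=
  mem_dl.2 ⟨hT.mem i, hT.crs i⟩

theorem card_dl5 {s t : E → V} {S : Finset E} {Z : Finset V} {tm : Fin d → E}
    (hT : Term s t S Z tm) : (dl s t S Z).card = d := by
  rw [card_dl_term hT, card_image_of_injective _ hT.inj, card_univ, Fintype.card_fin]

theorem attO_inc {s t : E → V} {S : Finset E} {Z : Finset V} {e : E} (he : e ∈ S) :
    e ∈ inc s t S (attO s t Z e) := by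
  rw [mem_inc]
  refine ⟨he, ?_⟩
  unfold attO
  split_ifs
  · exact Or.inr rfl
  · exact Or.inl rfl

/-- Pair gadget. -/
theorem Ctx.pair {s t : E → V} {S : Finset E} {β γ : E → ZMod 2} (hC : Ctx s t S)
    (h : Str s t S β γ) {Z : Finset V} {tm : Fin 5 → E} (hT : Term s t S Z tm) {p q : Fin 5}
    (hpq : p ≠ q) (hβ : β (tm p) = β (tm q)) (hγ : γ (tm p) = γ (tm q))
    (hv : ∀ v, v ∉ Z → tm p ∈ inc s t S v → tm q ∈ inc s t S v → False)
    (hn : 3 ≤ (nv s t S Z).card) :
    ∃ τ, Nz τ ∧ τ p + τ q = 0 ∧
      0 < cnt s t (S.filter fun e => s e ∉ Z ∧ t e ∉ Z) (fun i => attO s t Z (tm i))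
        (fun i => - τ i) := by
  obtain ⟨k0, hk0, k1, hk1, hk⟩ := one_lt_card.1 (show 1 < (nv s t S Z).card by omega)
  replace hk0 := (mem_nv.1 hk0).1
  replace hk1 := (mem_nv.1 hk1).1
  set K : E → V := fun e => if e = tm p ∨ e = tm q then k0 else k1 with hKdef
  have hKZ : ∀ e, K e ∈ Z := by
    intro e; simp only [hKdef]; split_ifs <;> assumption
  have hR : Rep s t S Z K K ∅ := ⟨hKZ, hKZ, fun e he => absurd he (notMem_empty e)⟩
  have hK : ∀ e ∈ dl s t S Z, K e = K e ∧ K e = K e := fun _ _ => ⟨rfl, rfl⟩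
  have hl' := hR.loop' hC.base.loop (fun e he => absurd he (notMem_empty e))
  have hd5 := card_dl5 hT
  have hinc : ∀ a ∈ Z, ∀ e, e ∈ inc (rs s Z K) (rs t Z K) (rS s t S Z ∅) a ↔
      e ∈ dl s t S Z ∧ K e = a := by
    intro a ha e
    rw [hR.mem_inc_in hK ha]
    simp
  have hpq' : tm p ≠ tm q := fun hc => hpq (hT.inj hc)
  have hinc0 : inc (rs s Z K) (rs t Z K) (rS s t S Z ∅) k0 = {tm p, tm q} := by
    ext e
    rw [hinc k0 hk0, mem_insert, mem_singleton]
    simp only [hKdef]
    constructor
    · rintro ⟨_, h2⟩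
      by_contra hc
      rw [if_neg hc] at h2
      exact hk h2.symm
    · intro h1
      refine ⟨?_, if_pos h1⟩
      rcases h1 with rfl | rfl <;> exact tm_mem_dl hT _
  have hinc1 : inc (rs s Z K) (rs t Z K) (rS s t S Z ∅) k1 = dl s t S Z \ {tm p, tm q} := by
    ext e
    rw [hinc k1 hk1, mem_sdiff, mem_insert, mem_singleton]
    simp only [hKdef]
    constructor
    · rintro ⟨h1, h2⟩
      refine ⟨h1, fun hc => ?_⟩
      rw [if_pos hc] at h2
      exact hk h2
    · rintro ⟨h1, h2⟩
      exact ⟨h1, if_neg h2⟩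
  have hince : ∀ a ∈ Z, a ≠ k0 → a ≠ k1 →
      inc (rs s Z K) (rs t Z K) (rS s t S Z ∅) a = ∅ := by
    intro a ha h0 h1
    rw [eq_empty_iff_forall_notMem]
    intro e he
    have := ((hinc a ha e).1 he).2
    simp only [hKdef] at this
    split_ifs at this
    · exact h0 this.symm
    · exact h1 this.symm
  have hz0 : ∀ e : E, ((fun _ : E => (0 : ZMod 2)) e) ≠ 0 → e ∈ (∅ : Finset E) :=
    fun e he => absurd rfl he
  have hz : ∀ f : E → ZMod 2, (∀ e, f e ≠ 0 → e ∈ S) → f (tm p) = f (tm q) →
      ∀ a ∈ Z, a ≠ k1 → D (rs s Z K) (rs t Z K) (tr s t Z f fun _ => 0) a = 0 := by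
    intro f hf hf2 a ha hak
    rw [hR.D_tr_in hl' hf hz0]
    by_cases h0 : a = k0
    · rw [h0, hinc0, sum_pair hpq', tr_out (crs_not_inn (hT.crs p)),
        tr_out (crs_not_inn (hT.crs q)), hf2]
      exact CharTwo.add_self_eq_zero _
    · rw [hince a ha h0 hak, sum_empty]
  have hflow : HasFlow (ZMod 5) (rs s Z K) (rs t Z K) (rS s t S Z ∅) := by
    refine hC.ih _ _ _ (tr s t Z β fun _ => 0) (tr s t Z γ fun _ => 0) ?_ ⟨hl', ?_, ?_⟩
      ⟨?_, ?_, ?_⟩
    · refine hR.card_lt card_empty rfl ?_
      have := hC.count h Z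
      omega
    · intro a
      by_cases ha : a ∈ Z
      · by_cases h0 : a = k0
        · rw [h0, hinc0]; exact (card_le_two).trans (by norm_num)
        · by_cases h1 : a = k1
          · rw [h1, hinc1, card_sdiff_of_subset, hd5, card_pair hpq']
            intro e he
            rcases mem_insert.1 he with rfl | he
            · exact tm_mem_dl hT _
            · rw [mem_singleton.1 he]; exact tm_mem_dl hT _
          · rw [hince a ha h0 h1]; simp
      · rw [hR.inc_out ha]; exact hC.base.deg a
    · have key : ∀ Y : Finset V, k0 ∈ Y → k1 ∉ Y →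
          (dl (rs s Z K) (rs t Z K) (rS s t S Z ∅) Y).card ≠ 1 := by
        intro Y hY0 hY1 hc
        obtain ⟨g, hg⟩ := card_eq_one.1 hc
        have hKY : ∀ e, K e ∈ Y ↔ (e = tm p ∨ e = tm q) := by
          intro e
          simp only [hKdef]
          split_ifs with hcc
          · simp [hY0, hcc]
          · simp [hY1, hcc]
        have hsd := hR.dl_sdiff hK Y
        simp only [hg, hKY, mem_singleton] at hsd
        have hgn : ¬ (s g ∈ Z ∧ t g ∈ Z) := by
          intro hcc
          have h1 : g ∈ dl (rs s Z K) (rs t Z K) (rS s t S Z ∅) Y := by rw [hg]; simp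
          exact notMem_empty g ((hR.mem_inn hcc).1 (mem_dl.1 h1).1)
        have hpn := crs_not_inn (hT.crs p)
        have hqn := crs_not_inn (hT.crs q)
        have hpd := tm_mem_dl hT p
        have hqd := tm_mem_dl hT q
        by_cases hgp : g = tm p
        · apply hC.base.br (Y \ Z)
          rw [card_eq_one]
          refine ⟨tm q, ?_⟩
          ext e
          rw [hsd e, mem_singleton]
          constructor
          · rintro ⟨h1, ⟨h2, h3⟩ | ⟨h2, h3, h4⟩⟩
            · exact absurd ⟨by rw [h2, hgp]; exact hpd, Or.inl (h2.trans hgp)⟩ h3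
            · exact h4.resolve_left (fun hc' => h2 (hc'.trans hgp.symm))
          · rintro rfl
            exact ⟨hqn, Or.inr ⟨fun hc' => hpq' (hgp.symm.trans hc'.symm), hqd, Or.inr rfl⟩⟩
        · by_cases hgq : g = tm q
          · apply hC.base.br (Y \ Z)
            rw [card_eq_one]
            refine ⟨tm p, ?_⟩
            ext e
            rw [hsd e, mem_singleton]
            constructor
            · rintro ⟨h1, ⟨h2, h3⟩ | ⟨h2, h3, h4⟩⟩
              · exact absurd ⟨by rw [h2, hgq]; exact hqd, Or.inr (h2.trans hgq)⟩ h3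
              · exact h4.resolve_right (fun hc' => h2 (hc'.trans hgq.symm))
            · rintro rfl
              exact ⟨hpn, Or.inr ⟨fun hc' => hpq' (hc'.trans hgq), hpd, Or.inl rfl⟩⟩
          · have h3 : (dl s t S (Y \ Z)).card = 3 := by
              have : dl s t S (Y \ Z) = {g, tm p, tm q} := by
                ext e
                rw [hsd e, mem_insert, mem_insert, mem_singleton]
                constructor
                · rintro ⟨h1, ⟨h2, h3⟩ | ⟨h2, h3, h4⟩⟩
                  · exact Or.inl h2
                  · exact Or.inr h4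
                · rintro (rfl | rfl | rfl)
                  · refine ⟨hgn, Or.inl ⟨rfl, ?_⟩⟩
                    rintro ⟨_, h4 | h4⟩
                    · exact hgp h4
                    · exact hgq h4
                  · exact ⟨hpn, Or.inr ⟨fun hc' => hgp hc'.symm, hpd, Or.inl rfl⟩⟩
                  · exact ⟨hqn, Or.inr ⟨fun hc' => hgq hc'.symm, hqd, Or.inr rfl⟩⟩
              rw [this, card_insert_of_notMem (by simp [hgp, hgq]), card_pair hpq']
            rcases hC.three h h3 with h4 | h4
            · obtain ⟨v, hv'⟩ := card_eq_one.1 h4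
              -- the outer ends of both edges are `v`
              have hend : ∀ i, tm i ∈ dl s t S (Y \ Z) → tm i ∈ inc s t S v ∧ v ∉ Z := by
                intro i hi
                have h5 := attO_inc (s := s) (t := t) (Z := Z) (hT.mem i)
                have h6 := attO_notMem (hT.crs i)
                have h7 : attO s t Z (tm i) ∈ Y \ Z := by
                  have h8 := (mem_dl.1 hi).2
                  have h9 := hT.crs i
                  unfold attO at h6 ⊢
                  unfold MP974d84.crs at h8 h9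
                  simp only [mem_sdiff] at h8 ⊢
                  split_ifs at h6 ⊢ <;> tauto
                have h10 : attO s t Z (tm i) ∈ nv s t S (Y \ Z) :=
                  mem_nv.2 ⟨h7, nonempty_iff_ne_empty.1 ⟨_, h5⟩⟩
                rw [hv', mem_singleton] at h10
                rw [h10] at h5 h6
                exact ⟨h5, h6⟩
              have e1 := hend p ((hsd _).2 ⟨hpn, Or.inr ⟨fun hc' => hgp hc'.symm, hpd, Or.inl rfl⟩⟩)
              have e2 := hend q ((hsd _).2 ⟨hqn, Or.inr ⟨fun hc' => hgq hc'.symm, hqd, Or.inr rfl⟩⟩)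
              exact hv v e1.2 e1.1 e2.1
            · have h5 : nv s t S Z ⊆ nv s t S (Y \ Z)ᶜ := by
                intro v hv'
                rw [mem_nv] at hv' ⊢
                refine ⟨?_, hv'.2⟩
                simp [hv'.1]
              have := card_le_card h5
              omega
      intro Y
      by_cases hu : k0 ∈ Y ↔ k1 ∈ Y
      · have hKu : ∀ e, K e ∈ Y ↔ k0 ∈ Y := by
          intro e
          simp only [hKdef]
          split_ifs
          · rfl
          · exact hu.symm
        rw [hR.uniform (x := k0) (fun e _ _ => hKu e) (fun e _ _ => hKu e)]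
        exact hC.base.br _
      · by_cases h0 : k0 ∈ Y
        · exact key Y h0 (fun hc => hu (by simp [h0, hc]))
        · have h1 : k1 ∈ Y := by
            by_contra hc; exact hu (by simp [h0, hc])
          rw [← dl_compl]
          -- symmetric: use the complement
          exact key Yᶜ (mem_compl.2 h0) (fun hc => (mem_compl.1 hc) h1)
    · exact hR.supp' h.supp (by simp)
    · intro a
      by_cases ha : a ∈ Z
      · by_cases hak : a = k1
        · have h1 := D_total (rs s Z K) (rs t Z K) (tr s t Z β fun _ => 0)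
          rw [sum_eq_single a] at h1
          · exact h1
          · intro b _ hb
            by_cases hbZ : b ∈ Z
            · exact hz β h.b hβ b hbZ (fun hc => hb (hc.trans hak.symm))
            · rw [hR.D_tr_out hC.base.loop hl' h.b hz0 hbZ]; exact h.bD b
          · simp
        · exact hz β h.b hβ a ha hak
      · rw [hR.D_tr_out hC.base.loop hl' h.b hz0 ha]; exact h.bD a
    · have h1 : Ts (rs s Z K) (rs t Z K) (tr s t Z γ fun _ => 0) ⊆ (Ts s t γ \ Z) ∪ {k1} := by
        refine hR.Ts_sub hC.base.loop hl' h.g hz0 (fun a ha hne => ?_)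
        rw [mem_singleton]
        by_contra hak
        exact hne (hz γ h.g hγ a ha hak)
      have h2 := card_le_card h1
      have h3 := card_union_le (Ts s t γ \ Z) {k1}
      have h4 : (Ts s t γ \ Z).card ≤ (Ts s t γ).card := card_le_card sdiff_subset
      have h5 := h.T4
      have h6 : ∀ e, tr s t Z γ (fun _ => 0) e ≠ 0 → e ∈ rS s t S Z ∅ := hR.tr_supp h.g hz0
      have h7 := Ts_even h6 (s := rs s Z K) (t := rs t Z K)
      rw [card_singleton] at h3
      omega
  obtain ⟨τ, f0, t1, t2, t3, t4, t5⟩ := hR.back hT hflow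
  refine ⟨τ, ⟨t1, t2⟩, ?_, t5⟩
  have h1 := t4 k0
  have h2 : D (rs s Z K) (rs t Z K) f0 k0 = 0 := by
    have : ∀ e, f0 e = 0 := by
      intro e
      by_contra hc
      exact notMem_empty e ((t3 e).1 hc)
    unfold D
    refine sum_eq_zero fun e _ => ?_
    simp [this e]
  rw [h2] at h1
  unfold inj at h1
  have h3 : ∀ i, attI (rs s Z K) (rs t Z K) Z (tm i) = K (tm i) :=
    fun i => hR.attI_K hK (tm_mem_dl hT i)
  simp only [h3] at h1
  have h4 : ∀ i, (if K (tm i) = k0 then τ i else 0)
      = (if i = p then τ i else 0) + (if i = q then τ i else 0) := by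
    intro i
    have h5 : K (tm i) = k0 ↔ (i = p ∨ i = q) := by
      simp only [hKdef]
      constructor
      · intro h6
        by_contra hc
        push Not at hc
        rw [if_neg] at h6
        · exact hk h6.symm
        · rintro (h7 | h7)
          · exact hc.1 (hT.inj h7)
          · exact hc.2 (hT.inj h7)
      · rintro (rfl | rfl)
        · simp
        · simp
    by_cases c1 : i = p
    · have c2 : i ≠ q := fun hc => hpq (c1.symm.trans hc)
      rw [if_pos (h5.2 (Or.inl c1)), if_pos c1, if_neg c2, add_zero]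
    · by_cases c2 : i = q
      · rw [if_pos (h5.2 (Or.inr c2)), if_neg c1, if_pos c2, zero_add]
      · rw [if_neg (fun hc => (h5.1 hc).elim c1 c2), if_neg c1, if_neg c2, add_zero]
  simp only [h4, sum_add_distrib, sum_ite_eq', mem_univ, if_true] at h1
  exact h1.symm

end MP974d84.J
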