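import Mathlib
import Pool.Agent.Work.MP_974d84_co.J9

/-!
Replacement of one side of a five-edge cut by a path with three vertices.
-/

namespace MP974d84.J

open Finset

variable {V E : Type*} [Fintype V] [DecidableEq V] [Fintype E] [DecidableEq E] {d : ℕ}

/-- Tree gadget. -/
theorem Ctx.tree {s t : E → V} {S : Finset E} {β γ : E → ZMod 2} (hC : Ctx s t S)
    (h : Str s t S β γ) {Z : Finset V} {tm : Fin 5 → E} (hT : Term s t S Z tm)
    (hγ : ∀ i, γ (tm i) ≠ 0) {a b c d : Fin 5} (hd : D4 a b c d)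
    (hn : 5 ≤ (nv s t S Z).card)
    (hTZ : (Ts s t γ \ Z).card ≤ 1 ∨ ((Ts s t γ \ Z).card ≤ 3 ∧
      (β (tm a) ≠ β (tm b) ∨ β (tm c) ≠ β (tm d)))) :
    ∃ τ, Nz τ ∧ τ a + τ b ≠ 0 ∧ τ c + τ d ≠ 0 ∧
      0 < cnt s t (S.filter fun e => s e ∉ Z ∧ t e ∉ Z) (fun i => attO s t Z (tm i))
        (fun i => - τ i) := by
  obtain ⟨nab, nac, nad, nbc, nbd, ncd⟩ := hd
  have hd5 := card_dl5 hT
  have hcnt := hC.count h Z
  obtain ⟨k0, k1, k2, hk0, hk1, hk2, h01, h02, h12⟩ := two_lt_card_iff.1
    (show 2 < (nv s t S Z).card by omega)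
  replace hk0 := (mem_nv.1 hk0).1
  replace hk1 := (mem_nv.1 hk1).1
  replace hk2 := (mem_nv.1 hk2).1
  obtain ⟨g1, hg1, g2, hg2, hg⟩ := one_lt_card.1 (show 1 < (inn s t S Z).card by omega)
  rw [mem_inn] at hg1 hg2
  have tmg1 : ∀ i, tm i ≠ g1 := fun i hc => crs_not_inn (hT.crs i) (hc ▸ hg1.2)
  have tmg2 : ∀ i, tm i ≠ g2 := fun i hc => crs_not_inn (hT.crs i) (hc ▸ hg2.2)
  set K : E → V := fun e => if e = tm a ∨ e = tm b then k0 else
    if e = tm c ∨ e = tm d then k2 else k1 with hKdef
  have hKab : ∀ e, K e = k0 ↔ (e = tm a ∨ e = tm b) := by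
    intro e
    simp only [hKdef]
    split_ifs with c1 c2
    · simp [c1]
    · simp [c1, h02.symm]
    · simp [c1, h01.symm]
  have tne : ∀ {i j : Fin 5}, i ≠ j → tm i ≠ tm j := fun hij hc => hij (hT.inj hc)
  have hKcd : ∀ e, K e = k2 ↔ (e = tm c ∨ e = tm d) := by
    intro e
    simp only [hKdef]
    split_ifs with c1 c2
    · constructor
      · intro hc; exact absurd hc h02
      · rintro (c3 | c3) <;> rcases c1 with c1 | c1
        · exact absurd (c1.symm.trans c3) (tne nac)
        · exact absurd (c1.symm.trans c3) (tne nbc)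
        · exact absurd (c1.symm.trans c3) (tne nad)
        · exact absurd (c1.symm.trans c3) (tne nbd)
    · simp [c2]
    · simp [c2, h12]
  have hKZ : ∀ e, K e ∈ Z := by
    intro e; simp only [hKdef]; split_ifs <;> assumption
  have hKe : ∀ e, K e = k0 ∨ K e = k1 ∨ K e = k2 := by
    intro e; simp only [hKdef]; split_ifs <;> simp
  set P : E → V := fun e => if e = g1 then k0 else if e = g2 then k1 else K e with hPdef
  set Q : E → V := fun e => if e = g1 then k1 else if e = g2 then k2 else K e with hQdef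
  have hPZ : ∀ e, P e ∈ Z := by
    intro e; simp only [hPdef]; split_ifs
    · exact hk0
    · exact hk1
    · exact hKZ e
  have hQZ : ∀ e, Q e ∈ Z := by
    intro e; simp only [hQdef]; split_ifs
    · exact hk1
    · exact hk2
    · exact hKZ e
  have hP1 : P g1 = k0 := by simp [hPdef]
  have hP2 : P g2 = k1 := by simp [hPdef, hg.symm]
  have hQ1 : Q g1 = k1 := by simp [hQdef]
  have hQ2 : Q g2 = k2 := by simp [hQdef, hg.symm]
  have hR : Rep s t S Z P Q {g1, g2} := by
    refine ⟨hPZ, hQZ, fun e he => ?_⟩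
    rcases mem_insert.1 he with rfl | he
    · exact hg1
    · rw [mem_singleton.1 he]; exact hg2
  have hdn : ∀ e ∈ dl s t S Z, e ≠ g1 ∧ e ≠ g2 := by
    intro e he
    constructor
    · rintro rfl; exact crs_not_inn (mem_dl.1 he).2 hg1.2
    · rintro rfl; exact crs_not_inn (mem_dl.1 he).2 hg2.2
  have hK : ∀ e ∈ dl s t S Z, P e = K e ∧ Q e = K e := by
    intro e he
    obtain ⟨h1, h2⟩ := hdn e he
    simp [hPdef, hQdef, h1, h2]
  have hl' := hR.loop' hC.base.loop (by
    intro e he
    rcases mem_insert.1 he with rfl | he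
    · rw [hP1, hQ1]; exact h01
    · rw [mem_singleton.1 he, hP2, hQ2]; exact h12)
  have hinc : ∀ v ∈ Z, ∀ e, e ∈ inc (rs s Z P) (rs t Z Q) (rS s t S Z {g1, g2}) v ↔
      (e ∈ dl s t S Z ∧ K e = v) ∨ (e = g1 ∧ (v = k0 ∨ v = k1)) ∨ (e = g2 ∧ (v = k1 ∨ v = k2)) := by
    intro v hv e
    rw [hR.mem_inc_in hK hv, mem_insert, mem_singleton]
    constructor
    · rintro (h1 | ⟨rfl | rfl, h2⟩)
      · exact Or.inl h1
      · rw [hP1, hQ1] at h2
        exact Or.inr (Or.inl ⟨rfl, h2.imp Eq.symm Eq.symm⟩)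
      · rw [hP2, hQ2] at h2
        exact Or.inr (Or.inr ⟨rfl, h2.imp Eq.symm Eq.symm⟩)
    · rintro (h1 | ⟨rfl, h2⟩ | ⟨rfl, h2⟩)
      · exact Or.inl h1
      · right; rw [hP1, hQ1]; exact ⟨Or.inl rfl, h2.imp Eq.symm Eq.symm⟩
      · right; rw [hP2, hQ2]; exact ⟨Or.inr rfl, h2.imp Eq.symm Eq.symm⟩
  have hinc0 : inc (rs s Z P) (rs t Z Q) (rS s t S Z {g1, g2}) k0 = {tm a, tm b, g1} := by
    ext e
    rw [hinc k0 hk0, hKab]
    simp only [mem_insert, mem_singleton]
    constructor
    · rintro (⟨_, h1 | h1⟩ | ⟨h1, _⟩ | ⟨_, h2 | h2⟩)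
      · exact Or.inl h1
      · exact Or.inr (Or.inl h1)
      · exact Or.inr (Or.inr h1)
      · exact absurd h2 h01
      · exact absurd h2 h02
    · rintro (rfl | rfl | rfl)
      · exact Or.inl ⟨tm_mem_dl hT _, Or.inl rfl⟩
      · exact Or.inl ⟨tm_mem_dl hT _, Or.inr rfl⟩
      · exact Or.inr (Or.inl ⟨rfl, by simp⟩)
  have hinc2 : inc (rs s Z P) (rs t Z Q) (rS s t S Z {g1, g2}) k2 = {tm c, tm d, g2} := by
    ext e
    rw [hinc k2 hk2, hKcd]
    simp only [mem_insert, mem_singleton]
    constructor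
    · rintro (⟨_, h1 | h1⟩ | ⟨_, h2 | h2⟩ | ⟨h1, _⟩)
      · exact Or.inl h1
      · exact Or.inr (Or.inl h1)
      · exact absurd h2.symm h02
      · exact absurd h2.symm h12
      · exact Or.inr (Or.inr h1)
    · rintro (rfl | rfl | rfl)
      · exact Or.inl ⟨tm_mem_dl hT _, Or.inl rfl⟩
      · exact Or.inl ⟨tm_mem_dl hT _, Or.inr rfl⟩
      · exact Or.inr (Or.inr ⟨rfl, by simp⟩)
  obtain ⟨e5, ne1, ne2, ne3, ne4⟩ := rest1 a b c d
  have hinc1 : inc (rs s Z P) (rs t Z Q) (rS s t S Z {g1, g2}) k1 = {tm e5, g1, g2} := by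
    ext e
    rw [hinc k1 hk1]
    simp only [mem_insert, mem_singleton]
    constructor
    · rintro (⟨h1, h2⟩ | ⟨h1, _⟩ | ⟨h1, _⟩)
      · left
        have u1 := hKab e
        have u2 := hKcd e
        rw [h2] at u1 u2
        obtain ⟨i, rfl⟩ := hT.all e (mem_dl.1 h1).1 (mem_dl.1 h1).2
        rcases all5 a b c d e5 i nab nac nad ne1 nbc nbd ne2 ncd ne3 ne4 with
          rfl | rfl | rfl | rfl | rfl
        · exact absurd (u1.2 (Or.inl rfl)) h01.symm
        · exact absurd (u1.2 (Or.inr rfl)) h01.symm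
        · exact absurd (u2.2 (Or.inl rfl)) h12
        · exact absurd (u2.2 (Or.inr rfl)) h12
        · rfl
      · exact Or.inr (Or.inl h1)
      · exact Or.inr (Or.inr h1)
    · rintro (rfl | rfl | rfl)
      · left
        refine ⟨tm_mem_dl hT _, ?_⟩
        rcases hKe (tm e5) with h1 | h1 | h1
        · rcases (hKab _).1 h1 with h2 | h2
          · exact absurd (hT.inj h2).symm ne1
          · exact absurd (hT.inj h2).symm ne2
        · exact h1
        · rcases (hKcd _).1 h1 with h2 | h2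
          · exact absurd (hT.inj h2).symm ne3
          · exact absurd (hT.inj h2).symm ne4
      · exact Or.inr (Or.inl ⟨rfl, by simp⟩)
      · exact Or.inr (Or.inr ⟨rfl, by simp⟩)
  have hince : ∀ v ∈ Z, v ≠ k0 → v ≠ k1 → v ≠ k2 →
      inc (rs s Z P) (rs t Z Q) (rS s t S Z {g1, g2}) v = ∅ := by
    intro v hv n0 n1 n2
    rw [eq_empty_iff_forall_notMem]
    intro e he
    rw [hinc v hv] at he
    rcases he with ⟨_, h2⟩ | ⟨_, h2 | h2⟩ | ⟨_, h2 | h2⟩
    · rcases hKe e with h3 | h3 | h3
      · exact n0 (h2.symm.trans h3)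
      · exact n1 (h2.symm.trans h3)
      · exact n2 (h2.symm.trans h3)
    · exact n0 h2
    · exact n1 h2
    · exact n1 h2
    · exact n2 h2
  -- the new values
  set b0 : E → ZMod 2 := fun e => if e = g1 then β (tm a) + β (tm b) else
    if e = g2 then β (tm c) + β (tm d) else 0 with hb0
  set c0 : E → ZMod 2 := fun e => if e = g1 then (if β (tm a) = β (tm b) then 1 else 0) else
    if e = g2 then (if β (tm c) = β (tm d) then 1 else 0) else 0 with hc0
  have hbc : ∀ e, (b0 e ≠ 0 ∨ c0 e ≠ 0) ↔ e ∈ ({g1, g2} : Finset E) := by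
    have hx : ∀ x y : ZMod 2, (x + y ≠ 0 ∨ (if x = y then (1 : ZMod 2) else 0) ≠ 0) := by decide
    intro e
    simp only [hb0, hc0, mem_insert, mem_singleton]
    by_cases c1 : e = g1
    · simp only [c1, if_true, true_or, iff_true]
      exact hx _ _
    · by_cases c2 : e = g2
      · simp only [c2, hg.symm, if_true, if_false, or_true, iff_true]
        exact hx _ _
      · simp [c1, c2]
  have hb0s : ∀ e, b0 e ≠ 0 → e ∈ ({g1, g2} : Finset E) := fun e he => (hbc e).1 (Or.inl he)
  have hc0s : ∀ e, c0 e ≠ 0 → e ∈ ({g1, g2} : Finset E) := fun e he => (hbc e).1 (Or.inr he)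
  have hn1 := fun i => crs_not_inn (hT.crs i)
  -- boundaries
  have hz : ∀ f f0 : E → ZMod 2, (∀ e, f e ≠ 0 → e ∈ S) →
      (∀ e, f0 e ≠ 0 → e ∈ ({g1, g2} : Finset E)) →
      (D (rs s Z P) (rs t Z Q) (tr s t Z f f0) k0 = f (tm a) + f (tm b) + f0 g1) ∧
      (D (rs s Z P) (rs t Z Q) (tr s t Z f f0) k2 = f (tm c) + f (tm d) + f0 g2) ∧
      ∀ v ∈ Z, v ≠ k0 → v ≠ k1 → v ≠ k2 → D (rs s Z P) (rs t Z Q) (tr s t Z f f0) v = 0 := by
    intro f f0 hf hf0
    refine ⟨?_, ?_, ?_⟩
    · rw [hR.D_tr_in hl' hf hf0, hinc0, sum_insert, sum_pair (tmg1 b), tr_out (hn1 a),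
        tr_out (hn1 b), tr_in hg1.2, add_assoc]
      simp [tne nab, tmg1 a]
    · rw [hR.D_tr_in hl' hf hf0, hinc2, sum_insert, sum_pair (tmg2 d), tr_out (hn1 c),
        tr_out (hn1 d), tr_in hg2.2, add_assoc]
      simp [tne ncd, tmg2 c]
    · intro v hv n0 n1 n2
      rw [hR.D_tr_in hl' hf hf0, hince v hv n0 n1 n2, sum_empty]
  have hflow : HasFlow (ZMod 5) (rs s Z P) (rs t Z Q) (rS s t S Z {g1, g2}) := by
    have hbD0 : ∀ v, v ≠ k1 → D (rs s Z P) (rs t Z Q) (tr s t Z β b0) v = 0 := by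
      intro v hv1
      obtain ⟨u0, u2, u3⟩ := hz β b0 h.b hb0s
      by_cases hvZ : v ∈ Z
      · by_cases n0 : v = k0
        · rw [n0, u0]
          simp only [hb0, if_true]
          exact CharTwo.add_self_eq_zero _
        · by_cases n2 : v = k2
          · rw [n2, u2]
            simp only [hb0, hg.symm, if_true, if_false]
            exact CharTwo.add_self_eq_zero _
          · exact u3 v hvZ n0 hv1 n2
      · rw [hR.D_tr_out hC.base.loop hl' h.b hb0s hvZ]; exact h.bD v
    refine hC.ih _ _ _ (tr s t Z β b0) (tr s t Z γ c0) ?_ ⟨hl', ?_, ?_⟩ ⟨?_, ?_, ?_⟩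
    · refine hR.card_lt (card_pair hg) rfl ?_
      omega
    · intro v
      by_cases hv : v ∈ Z
      · by_cases n0 : v = k0
        · rw [n0, hinc0]; exact card_le_three
        · by_cases n1 : v = k1
          · rw [n1, hinc1]; exact card_le_three
          · by_cases n2 : v = k2
            · rw [n2, hinc2]; exact card_le_three
            · rw [hince v hv n0 n1 n2]; simp
      · rw [hR.inc_out hv]; exact hC.base.deg v
    · -- no cut of size one
      have key : ∀ (Y : Finset V) (x y : Fin 5) (g : E), x ≠ y → (g = g1 ∨ g = g2) →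
          g ∈ dl (rs s Z P) (rs t Z Q) (rS s t S Z {g1, g2}) Y →
          (∀ e, K e ∈ Y ↔ (e = tm x ∨ e = tm y)) →
          (dl (rs s Z P) (rs t Z Q) (rS s t S Z {g1, g2}) Y).card ≠ 1 := by
        intro Y x y g hxy hgg hgY hKY hc
        obtain ⟨g', hg'⟩ := card_eq_one.1 hc
        have hgg' : g = g' := by rw [hg'] at hgY; exact mem_singleton.1 hgY
        subst hgg'
        have hsd := hR.dl_sdiff hK Y
        simp only [hg', hKY, mem_singleton] at hsd
        have hgin : s g ∈ Z ∧ t g ∈ Z := by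
          rcases hgg with rfl | rfl
          · exact hg1.2
          · exact hg2.2
        have hgt : ∀ i, tm i ≠ g := by
          rcases hgg with rfl | rfl
          · exact tmg1
          · exact tmg2
        apply hC.no2 h (Y \ Z)
        have : dl s t S (Y \ Z) = {tm x, tm y} := by
          ext e
          rw [hsd e, mem_insert, mem_singleton]
          constructor
          · rintro ⟨u1, ⟨u2, u3⟩ | ⟨u2, u3, u4⟩⟩
            · exact absurd (u2 ▸ hgin) u1
            · exact u4
          · rintro (rfl | rfl)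
            · exact ⟨hn1 x, Or.inr ⟨hgt x, tm_mem_dl hT _, Or.inl rfl⟩⟩
            · exact ⟨hn1 y, Or.inr ⟨hgt y, tm_mem_dl hT _, Or.inr rfl⟩⟩
        rw [this, card_pair (tne hxy)]
      have hgm1 : g1 ∈ rS s t S Z {g1, g2} := (hR.mem_inn hg1.2).2 (by simp)
      have hgm2 : g2 ∈ rS s t S Z {g1, g2} := (hR.mem_inn hg2.2).2 (by simp)
      have hcr1 : ∀ Y : Finset V, (k0 ∈ Y ∧ k1 ∉ Y) ∨ (k0 ∉ Y ∧ k1 ∈ Y) →
          g1 ∈ dl (rs s Z P) (rs t Z Q) (rS s t S Z {g1, g2}) Y := by
        intro Y hY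
        rw [mem_dl]
        refine ⟨hgm1, ?_⟩
        unfold crs
        rw [rs_in hg1.2.1, rs_in hg1.2.2, hP1, hQ1]
        exact hY
      have hcr2 : ∀ Y : Finset V, (k1 ∈ Y ∧ k2 ∉ Y) ∨ (k1 ∉ Y ∧ k2 ∈ Y) →
          g2 ∈ dl (rs s Z P) (rs t Z Q) (rS s t S Z {g1, g2}) Y := by
        intro Y hY
        rw [mem_dl]
        refine ⟨hgm2, ?_⟩
        unfold crs
        rw [rs_in hg2.2.1, rs_in hg2.2.2, hP2, hQ2]
        exact hY
      -- the vertex `k1` outside
      have main : ∀ Y : Finset V, k1 ∉ Y →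
          (dl (rs s Z P) (rs t Z Q) (rS s t S Z {g1, g2}) Y).card ≠ 1 := by
        intro Y n1
        have hKY : ∀ e, K e ∈ Y ↔ ((K e = k0 ∧ k0 ∈ Y) ∨ (K e = k2 ∧ k2 ∈ Y)) := by
          intro e
          rcases hKe e with u | u | u <;> rw [u]
          · simp [h02]
          · simp [n1, h01.symm, h12]
          · simp [h02.symm]
        by_cases n0 : k0 ∈ Y <;> by_cases n2 : k2 ∈ Y
        · intro hc
          have u1 := hcr1 Y (Or.inl ⟨n0, n1⟩)
          have u2 := hcr2 Y (Or.inr ⟨n1, n2⟩)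
          obtain ⟨g, hg'⟩ := card_eq_one.1 hc
          rw [hg', mem_singleton] at u1 u2
          exact hg (u1.trans u2.symm)
        · refine key Y a b g1 nab (Or.inl rfl) (hcr1 Y (Or.inl ⟨n0, n1⟩)) (fun e => ?_)
          rw [hKY, ← hKab]; simp [n0, n2]
        · refine key Y c d g2 ncd (Or.inr rfl) (hcr2 Y (Or.inr ⟨n1, n2⟩)) (fun e => ?_)
          rw [hKY, ← hKcd]; simp [n0, n2]
        · have hKu : ∀ e, K e ∈ Y ↔ k1 ∈ Y := by
            intro e
            rw [hKY]; simp [n0, n1, n2]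
          rw [hR.uniform (x := k1)]
          · exact hC.base.br _
          · intro e _ _
            simp only [hPdef]
            split_ifs
            · simp [n0, n1]
            · rfl
            · exact hKu e
          · intro e _ _
            simp only [hQdef]
            split_ifs
            · rfl
            · simp [n1, n2]
            · exact hKu e
      intro Y
      by_cases n1 : k1 ∈ Y
      · rw [← dl_compl]
        exact main Yᶜ (fun hc => (mem_compl.1 hc) n1)
      · exact main Y n1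
    · exact hR.supp' h.supp hbc
    · intro v
      by_cases hv1 : v = k1
      · have h1 := D_total (rs s Z P) (rs t Z Q) (tr s t Z β b0)
        rw [sum_eq_single v (fun w _ hw => hbD0 w (fun hc => hw (hc.trans hv1.symm)))
          (by simp)] at h1
        exact h1
      · exact hbD0 v hv1
    · -- defects
      obtain ⟨u0, u2, u3⟩ := hz γ c0 h.g hc0s
      have g1' : ∀ i, γ (tm i) = 1 := fun i => z2_ne.1 (hγ i)
      have v0 : D (rs s Z P) (rs t Z Q) (tr s t Z γ c0) k0 ≠ 0 → β (tm a) = β (tm b) := by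
        rw [u0, g1', g1']
        simp only [hc0, if_true]
        intro hne
        by_contra hc
        rw [if_neg hc] at hne
        exact hne rfl
      have v2 : D (rs s Z P) (rs t Z Q) (tr s t Z γ c0) k2 ≠ 0 → β (tm c) = β (tm d) := by
        rw [u2, g1', g1']
        simp only [hc0, hg.symm, if_true, if_false]
        intro hne
        by_contra hc
        rw [if_neg hc] at hne
        exact hne rfl
      have v1 : D (rs s Z P) (rs t Z Q) (tr s t Z γ c0) k1 ≠ 0 →
          ¬ (β (tm a) = β (tm b) ∧ ¬ β (tm c) = β (tm d)) ∧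
          ¬ (¬ β (tm a) = β (tm b) ∧ β (tm c) = β (tm d)) := by
        rw [hR.D_tr_in hl' h.g hc0s, hinc1, sum_insert (by simp [tmg1 e5, tmg2 e5]),
          sum_pair hg, tr_out (hn1 e5), tr_in hg1.2, tr_in hg2.2, g1']
        simp only [hc0, hg.symm, if_true, if_false]
        intro hne
        constructor
        · rintro ⟨w1, w2⟩
          rw [if_pos w1, if_neg w2] at hne
          exact hne (by decide)
        · rintro ⟨w1, w2⟩
          rw [if_neg w1, if_pos w2] at hne
          exact hne (by decide)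
      have hsub : Ts (rs s Z P) (rs t Z Q) (tr s t Z γ c0) ⊆ (Ts s t γ \ Z) ∪ {k0, k1, k2} := by
        refine hR.Ts_sub hC.base.loop hl' h.g hc0s (fun v hv hne => ?_)
        simp only [mem_insert, mem_singleton]
        by_contra hcc
        push Not at hcc
        exact hne (u3 v hv hcc.1 hcc.2.1 hcc.2.2)
      have heven := Ts_even (s := rs s Z P) (t := rs t Z Q) (hR.tr_supp h.g hc0s)
      rcases hTZ with hTZ | ⟨hTZ, hor⟩
      · have h2 := card_le_card hsub
        have h3 := card_union_le (Ts s t γ \ Z) ({k0, k1, k2} : Finset V)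
        have h4 : ({k0, k1, k2} : Finset V).card ≤ 3 := card_le_three
        omega
      · obtain ⟨w, hw⟩ : ∃ w : V, Ts (rs s Z P) (rs t Z Q) (tr s t Z γ c0)
            ⊆ (Ts s t γ \ Z) ∪ {w} := by
          by_cases e1 : β (tm a) = β (tm b)
          · have e2 : β (tm c) ≠ β (tm d) := hor.resolve_left (fun hc => hc e1)
            refine ⟨k0, hR.Ts_sub hC.base.loop hl' h.g hc0s (fun v hv hne => ?_)⟩
            rw [mem_singleton]
            by_contra n0
            by_cases n1 : v = k1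
            · exact (v1 (n1 ▸ hne)).1 ⟨e1, e2⟩
            · by_cases n2 : v = k2
              · exact e2 (v2 (n2 ▸ hne))
              · exact hne (u3 v hv n0 n1 n2)
          · by_cases e2 : β (tm c) = β (tm d)
            · refine ⟨k2, hR.Ts_sub hC.base.loop hl' h.g hc0s (fun v hv hne => ?_)⟩
              rw [mem_singleton]
              by_contra n2
              by_cases n1 : v = k1
              · exact (v1 (n1 ▸ hne)).2 ⟨e1, e2⟩
              · by_cases n0 : v = k0
                · exact e1 (v0 (n0 ▸ hne))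
                · exact hne (u3 v hv n0 n1 n2)
            · refine ⟨k1, hR.Ts_sub hC.base.loop hl' h.g hc0s (fun v hv hne => ?_)⟩
              rw [mem_singleton]
              by_contra n1
              by_cases n0 : v = k0
              · exact e1 (v0 (n0 ▸ hne))
              · by_cases n2 : v = k2
                · exact e2 (v2 (n2 ▸ hne))
                · exact hne (u3 v hv n0 n1 n2)
        have h2 := card_le_card hw
        have h3 := card_union_le (Ts s t γ \ Z) ({w} : Finset V)
        rw [card_singleton] at h3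
        omega
  obtain ⟨τ, f0, t1, t2, t3, t4, t5⟩ := hR.back hT hflow
  have h3 : ∀ i, attI (rs s Z P) (rs t Z Q) Z (tm i) = K (tm i) :=
    fun i => hR.attI_K hK (tm_mem_dl hT i)
  have hinj : ∀ (x y : Fin 5) (k : V), x ≠ y → (∀ i, K (tm i) = k ↔ (i = x ∨ i = y)) →
      inj (fun i => attI (rs s Z P) (rs t Z Q) Z (tm i)) τ k = τ x + τ y := by
    intro x y k hxy hk
    unfold inj
    have h4 : ∀ i, (if attI (rs s Z P) (rs t Z Q) Z (tm i) = k then τ i else 0)
        = (if i = x then τ i else 0) + (if i = y then τ i else 0) := by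
      intro i
      rw [h3]
      by_cases c1 : i = x
      · have c2 : i ≠ y := fun hc => hxy (c1.symm.trans hc)
        rw [if_pos ((hk i).2 (Or.inl c1)), if_pos c1, if_neg c2, add_zero]
      · by_cases c2 : i = y
        · rw [if_pos ((hk i).2 (Or.inr c2)), if_neg c1, if_pos c2, zero_add]
        · rw [if_neg (fun hc => ((hk i).1 hc).elim c1 c2), if_neg c1, if_neg c2, add_zero]
    simp only [h4, sum_add_distrib, sum_ite_eq', mem_univ, if_true]
  have hDf : ∀ v, D (rs s Z P) (rs t Z Q) f0 v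
      = ((if k0 = v then f0 g1 else 0) - (if k1 = v then f0 g1 else 0))
        + ((if k1 = v then f0 g2 else 0) - (if k2 = v then f0 g2 else 0)) := by
    intro v
    unfold D
    rw [← sum_subset (subset_univ ({g1, g2} : Finset E)), sum_pair hg,
      rs_in hg1.2.1, rs_in hg1.2.2, rs_in hg2.2.1, rs_in hg2.2.2, hP1, hP2, hQ1, hQ2]
    intro e _ he
    have : f0 e = 0 := by
      by_contra hc
      exact he ((t3 e).1 hc)
    simp [this]
  refine ⟨τ, ⟨t1, t2⟩, ?_, ?_, t5⟩
  · have h1 := t4 k0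
    rw [hinj a b k0 nab (fun i => by
      rw [hKab]
      exact ⟨fun hc => hc.imp (fun hc => hT.inj hc) (fun hc => hT.inj hc),
        fun hc => hc.imp (fun hc => by rw [hc]) (fun hc => by rw [hc])⟩), hDf] at h1
    rw [← h1]
    simp only [if_true, h01.symm, h02.symm, if_false, sub_zero, add_zero]
    exact (t3 g1).2 (by simp)
  · have h1 := t4 k2
    rw [hinj c d k2 ncd (fun i => by
      rw [hKcd]
      exact ⟨fun hc => hc.imp (fun hc => hT.inj hc) (fun hc => hT.inj hc),
        fun hc => hc.imp (fun hc => by rw [hc]) (fun hc => by rw [hc])⟩), hDf] at h1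
    rw [← h1]
    simp only [if_true, h12, h02, if_false, sub_zero, zero_sub, zero_add]
    exact neg_ne_zero.2 ((t3 g2).2 (by simp))

end MP974d84.J
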