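import Mathlib
import Pool.Agent.Work.MP_974d84_co.J9b

/-!
Five-edge cuts with one defect inside are trivial.
-/

namespace MP974d84.J

open Finset

variable {V E : Type*} [Fintype V] [DecidableEq V] [Fintype E] [DecidableEq E] {d : ℕ}

theorem Nz.neg {τ : Fin 5 → ZMod 5} (h : Nz τ) : Nz (fun i => - τ i) :=
  ⟨fun i => neg_ne_zero.2 (h.1 i), by rw [sum_neg_distrib, h.2, neg_zero]⟩

theorem form_negArg {n : (Fin 5 → ZMod 5) → ℤ} (hn : Form n) :
    Form (fun τ => n (fun i => - τ i)) := by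
  obtain ⟨x0, x, hx⟩ := hn
  refine ⟨x0, x, fun τ h1 h2 => ?_⟩
  simp only
  rw [hx (fun i => - τ i) (fun i => neg_ne_zero.2 (h1 i)) (by rw [sum_neg_distrib, h2, neg_zero])]
  congr 1
  refine sum_congr rfl fun i _ => sum_congr rfl fun j _ => ?_
  have : - τ i + - τ j = 0 ↔ τ i + τ j = 0 := by
    rw [← neg_add, neg_eq_zero]
  simp only [this]

/-- Five-edge cuts contained in the support of `γ` with one defect inside are trivial. -/
theorem Ctx.five {s t : E → V} {S : Finset E} {β γ : E → ZMod 2} (hC : Ctx s t S)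
    (h : Str s t S β γ) : Five s t S β γ := by
  intro W hd hH hT1 hn ⟨x1, hx⟩
  by_contra hne
  have hcnt := hC.count h W
  rw [hd] at hcnt
  have hn5 : 5 ≤ (nv s t S W).card := by omega
  obtain ⟨tm, hT⟩ := exists_term s t S W hd
  have hmem := tm_mem_dl hT
  have hγ : ∀ i, γ (tm i) ≠ 0 := fun i => hH _ (hmem i)
  have hγ1 : ∀ i, γ (tm i) = 1 := fun i => z2_ne.1 (hγ i)
  have tne : ∀ {i j : Fin 5}, i ≠ j → tm i ≠ tm j := fun hij hc => hij (hT.inj hc)
  have hT3 : (Ts s t γ \ W).card ≤ 3 := by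
    have h1 := card_sdiff_add_card_inter (Ts s t γ) W
    have h2 := h.T4
    omega
  have hTc : (Ts s t γ \ Wᶜ).card ≤ 1 := by
    have : Ts s t γ \ Wᶜ = Ts s t γ ∩ W := by
      ext v; simp
    rw [this, hT1]
  -- two edges with the same `β` at the same vertex
  have hx1 : ∀ i j : Fin 5, i ≠ j → β (tm i) = β (tm j) → ∀ v, tm i ∈ inc s t S v →
      tm j ∈ inc s t S v → v = x1 := by
    intro i j hij hb v h1 h2
    by_contra hv
    exact hx v hv _ (hmem i) _ (hmem j) (tne hij) h1 h2 hb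
  -- transfer between the two descriptions of the inner side
  have hin : ∀ τ : Fin 5 → ZMod 5,
      cnt s t (S.filter fun e => s e ∉ Wᶜ ∧ t e ∉ Wᶜ) (fun i => attO s t Wᶜ (tm i)) (fun i => - τ i)
      = cnt s t (S.filter fun e => s e ∈ W ∧ t e ∈ W) (fun i => attI s t W (tm i))
        (fun i => - τ i) := by
    intro τ
    rw [filter_compl]
    congr 1
    ext i
    exact attO_compl (hT.crs i)
  set n : (Fin 5 → ZMod 5) → ℤ := fun τ =>
    (cnt s t (S.filter fun e => s e ∉ W ∧ t e ∉ W) (fun i => attO s t W (tm i))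
      (fun i => - τ i) : ℤ) with hndef
  set m : (Fin 5 → ZMod 5) → ℤ := fun τ =>
    (cnt s t (S.filter fun e => s e ∈ W ∧ t e ∈ W) (fun i => attI s t W (tm i)) τ : ℤ) with hmdef
  refine finiteF n m ?_ ?_ ?_ ?_ ?_ (fun i => β (tm i))
    (fun a b => a ≠ b ∧ β (tm a) = β (tm b) ∧ ∃ v ∈ W, tm a ∈ inc s t S v ∧ tm b ∈ inc s t S v)
    ?_ ?_ ?_ ?_ ?_ ?_
  · exact form_negArg (MP974d84.cnt_form (S.filter fun e => s e ∉ W ∧ t e ∉ W) s t
      (fun i => attO s t W (tm i)))
  · exact MP974d84.cnt_form (S.filter fun e => s e ∈ W ∧ t e ∈ W) s t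
      (fun i => attI s t W (tm i))
  · intro τ; exact Int.natCast_nonneg _
  · intro τ; exact Int.natCast_nonneg _
  · intro τ hτ
    rcases glue hT hC.hno τ hτ.1 with h1 | h1
    · right; simp only [hmdef, h1]; rfl
    · left; simp only [hndef, h1]; rfl
  · -- trees inside
    intro a b c d hd4 hk
    obtain ⟨τ, t1, t2, t3, t4⟩ := hC.tree h hT hγ hd4 hn5 (Or.inr ⟨hT3, hk⟩)
    exact ⟨τ, t1, t2, t3, by simp only [hndef]; exact_mod_cast t4⟩
  · -- trees outside
    intro a b c d hd4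
    obtain ⟨τ, t1, t2, t3, t4⟩ := hC.tree h hT.compl hγ hd4 hn (Or.inl hTc)
    rw [hin] at t4
    refine ⟨fun i => - τ i, t1.neg, ?_, ?_, by simp only [hmdef]; exact_mod_cast t4⟩
    · rw [← neg_add]; exact neg_ne_zero.2 t2
    · rw [← neg_add]; exact neg_ne_zero.2 t3
  · -- pairs outside
    intro a b hab hk hexc
    obtain ⟨τ, t1, t2, t4⟩ := hC.pair h hT.compl hab hk ((hγ1 a).trans (hγ1 b).symm)
      (fun v hv h1 h2 => hexc ⟨hab, hk, v, by simpa using hv, h1, h2⟩) (by omega)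
    rw [hin] at t4
    refine ⟨fun i => - τ i, t1.neg, ?_, by simp only [hmdef]; exact_mod_cast t4⟩
    rw [← neg_add, t2, neg_zero]
  · -- pairs inside
    rintro a b c d ⟨nab, nac, nad, nbc, nbd, ncd⟩ ⟨_, hk, v0, hv0, w1, w2⟩ hkcd
    have h1 := hx1 a b nab hk v0 w1 w2
    obtain ⟨τ, t1, t2, t4⟩ := hC.pair h hT ncd hkcd ((hγ1 c).trans (hγ1 d).symm)
      (fun v hv h3 h4 => hv (by rw [hx1 c d ncd hkcd v h3 h4, ← h1]; exact hv0)) (by omega)
    exact ⟨τ, t1, t2, by simp only [hndef]; exact_mod_cast t4⟩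
  · -- some value
    by_cases hmono : ∃ a b : Fin 5, β (tm a) ≠ β (tm b)
    · obtain ⟨a, b, hab⟩ := hmono
      have nab : a ≠ b := fun hc => hab (by rw [hc])
      obtain ⟨c, d, e, g1, g2, g3, g4, g5, g6, g7, g8, g9⟩ := rest3 a b nab
      obtain ⟨τ, t1, _, _, t4⟩ := hC.tree h hT hγ ⟨nab, g1, g2, g4, g5, g7⟩ hn5
        (Or.inr ⟨hT3, Or.inl hab⟩)
      exact ⟨τ, t1, by simp only [hndef]; exact_mod_cast t4⟩
    · push Not at hmono
      obtain ⟨p, q, hpq, hv⟩ : ∃ p q : Fin 5, p ≠ q ∧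
          ∀ v, v ∉ W → tm p ∈ inc s t S v → tm q ∈ inc s t S v → False := by
        by_contra hc
        push Not at hc
        have hall : ∀ i : Fin 5, tm i ∈ inc s t S x1 := by
          intro i
          obtain ⟨j, hj, _⟩ := rest1 i i i i
          obtain ⟨v, _, h1, h2, _⟩ := hc i j hj
          rw [← hx1 i j hj (hmono i j) v h1 h2]; exact h1
        have h1 : dl s t S W ⊆ inc s t S x1 := by
          rw [card_dl_term hT]
          intro e he
          obtain ⟨i, _, rfl⟩ := mem_image.1 he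
          exact hall i
        have h2 := card_le_card h1
        have h3 := hC.base.deg x1
        omega
      obtain ⟨τ, t1, t2, t4⟩ := hC.pair h hT hpq (hmono p q) ((hγ1 p).trans (hγ1 q).symm) hv
        (by omega)
      exact ⟨τ, t1, by simp only [hndef]; exact_mod_cast t4⟩
  · rintro a b c d ⟨nab, nac, nad, nbc, nbd, ncd⟩ ⟨_, hk, v0, hv0, w1, w2⟩ ⟨_, hk', v0', _, w3, w4⟩
    have e1 := hx1 a b nab hk v0 w1 w2
    have e2 := hx1 c d ncd hk' v0' w3 w4
    rw [e1] at w1 w2
    rw [e2] at w3 w4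
    have h1 : ({tm a, tm b, tm c, tm d} : Finset E) ⊆ inc s t S x1 := by
      intro e he
      simp only [mem_insert, mem_singleton] at he
      rcases he with rfl | rfl | rfl | rfl <;> assumption
    have h2 := card_le_card h1
    have h3 := hC.base.deg x1
    have h4 : ({tm a, tm b, tm c, tm d} : Finset E).card = 4 := by
      rw [card_insert_of_notMem, card_insert_of_notMem, card_pair (tne ncd)]
      · simp [tne nbc, tne nbd]
      · simp [tne nab, tne nac, tne nad]
    omega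

end MP974d84.J
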