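import Mathlib
import Pool.Agent.Work.MP_974d84_co.J11d
import Pool.Agent.Work.MP_974d84_co.J11e
import Pool.Agent.Work.MP_974d84_co.J9c

/-!
End of the proof.
-/

namespace MP974d84.J

open Finset

variable {V E : Type*} [Fintype V] [DecidableEq V] [Fintype E] [DecidableEq E]
variable {s t : E → V} {S : Finset E} {β γ : E → ZMod 2}

/-- The other two defects. -/
theorem others (hC : Ctx s t S) (h : Str s t S β γ) {x0 u : V} (hx0 : x0 ∈ Ts s t γ)
    (hu : u ∈ Ts s t γ) (hux : u ≠ x0) : ∃ v w, v ∈ Ts s t γ ∧ w ∈ Ts s t γ ∧ v ≠ x0 ∧ w ≠ x0 ∧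
      u ≠ v ∧ u ≠ w ∧ v ≠ w := by
  have h1 : (((Ts s t γ).erase x0).erase u).card = 2 := by
    rw [card_erase_of_mem (mem_erase.2 ⟨hux, hu⟩), card_erase_of_mem hx0, hC.four h]
  obtain ⟨v, w, hvw, h2⟩ := card_eq_two.1 h1
  have hv : v ∈ ((Ts s t γ).erase x0).erase u := by rw [h2]; simp
  have hw : w ∈ ((Ts s t γ).erase x0).erase u := by rw [h2]; simp
  rw [mem_erase, mem_erase] at hv hw
  exact ⟨v, w, hv.2.2, hw.2.2, hv.2.1, hw.2.1, hv.1.symm, hw.1.symm, hvw⟩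

theorem endgame1 (hC : Ctx s t S) (h : Norm s t S β γ) (h5 : Five s t S β γ) {x0 : V}
    (hx0 : x0 ∈ Ts s t γ) (hz : Zero s t S β x0) : False := by
  obtain ⟨f, Z, hS⟩ := exists_star hC h hx0 hz
  have hcut : ∀ u ∈ Ts s t γ, u ≠ x0 → ∃ Q, ∃ a, LF s t γ x0 u a ∧ QC s t S β γ x0 u a Q := by
    intro u hu hux
    obtain ⟨a, h1, h2, h3⟩ := hS.lift hC h.str hx0 hu hux
    obtain ⟨Q, hQ⟩ := LF.cut hC h.str hx0 hu hux ⟨h1, h2, h3⟩
    exact ⟨Q, a, ⟨h1, h2, h3⟩, hQ⟩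
  -- an adjacent third defect gives an edge between opposite corners
  have hebt : ∀ {u v w : V} {Q R : Finset V}, Two s t S β γ x0 u v w Q R →
      oth s t x0 (f w) = w → 1 ≤ (ebt s t S (Q ∩ R) (Q ∪ R)ᶜ).card := by
    intro u v w Q R hT hw
    have h1 := (single_mem (hT.TO hC h hx0)).2
    have h2 := (single_mem (hT.TM hC h hx0)).2
    apply card_pos.2
    refine ⟨f w, mem_ebt.2 ⟨(mem_inc.1 (hS.mem w hT.hw hT.hwx)).1, ?_⟩⟩
    rcases oth_spec (hS.mem w hT.hw hT.hwx) with ⟨k1, k2⟩ | ⟨k1, k2⟩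
    · left; rw [k1, k2, hw]; exact ⟨h1, h2⟩
    · right; rw [k1, k2, hw]; exact ⟨h2, h1⟩
  have hfive : ∀ {u v w : V} {Q R : Finset V}, Two s t S β γ x0 u v w Q R →
      oth s t x0 (f w) = w → (dl s t S (Q \ R)).card = 5 := by
    intro u v w Q R hT hw
    have h1 := hT.sum2
    have h2 := hebt hT hw
    have h3 := hT.bigL hC h hx0 hz
    have h4 := hT.swap.bigL hC h hx0 hz
    omega
  have hall : ∀ z ∈ Ts s t γ, z ≠ x0 → oth s t x0 (f z) = z := by
    intro u hu hux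
    by_contra hnu
    have hone : ∀ v w, v ∈ Ts s t γ → w ∈ Ts s t γ → v ≠ x0 → w ≠ x0 → u ≠ v → u ≠ w → v ≠ w →
        oth s t x0 (f v) = v := by
      intro v w hv hw hvx hwx huv huw hvw
      obtain ⟨Q, hQ⟩ := hcut u hu hux
      obtain ⟨R, hR⟩ := hcut v hv hvx
      have hT : Two s t S β γ x0 u v w Q R := ⟨hu, hv, hw, hux, hvx, hwx, huv, huw, hvw, hQ, hR⟩
      have h1 := hT.sum2
      have h3 := hT.bigL hC h hx0 hz
      have h4 := hT.swap.bigL hC h hx0 hz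
      by_cases h6 : (dl s t S (Q \ R)).card = 5
      · exact absurd (hT.main hC h h5 hS hx0 hz h6).1 hnu
      · exact (hT.swap.main hC h h5 hS hx0 hz (by omega)).1
    obtain ⟨v, w, hv, hw, hvx, hwx, huv, huw, hvw⟩ := others hC h.str hx0 hu hux
    have hwa := hone w v hw hv hwx hvx huw huv hvw.symm
    obtain ⟨Q, hQ⟩ := hcut u hu hux
    obtain ⟨R, hR⟩ := hcut v hv hvx
    have hT : Two s t S β γ x0 u v w Q R := ⟨hu, hv, hw, hux, hvx, hwx, huv, huw, hvw, hQ, hR⟩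
    exact hnu (hT.main hC h h5 hS hx0 hz (hfive hT hwa)).1
  obtain ⟨u, hu⟩ : ((Ts s t γ).erase x0).Nonempty := by
    rw [← card_pos, card_erase_of_mem hx0, hC.four h.str]; norm_num
  obtain ⟨hux, hu⟩ := mem_erase.1 hu
  obtain ⟨v, w, hv, hw, hvx, hwx, huv, huw, hvw⟩ := others hC h.str hx0 hu hux
  refine two_lifts hC h hx0 hz hu hux hS hall ({x0} ∪ nb s t S β u) (fun a Q ha hQ => ?_)
  obtain ⟨R, hR⟩ := hcut v hv hvx
  have hT : Two s t S β γ x0 u v w Q R :=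
    ⟨hu, hv, hw, hux, hvx, hwx, huv, huw, hvw, ⟨a, ha, hQ⟩, hR⟩
  obtain ⟨_, h1, h2⟩ := hT.main hC h h5 hS hx0 hz (hfive hT (hall w hw hwx))
  rw [← h1, ← h2 hall]
  ext z
  rw [mem_union, mem_nv, mem_nv, mem_nv, mem_inter, mem_sdiff]
  tauto

theorem endgame (hC : Ctx s t S) (h : Norm s t S β γ) (h5 : Five s t S β γ) : False := by
  by_cases h0 : ∃ x0 ∈ Ts s t γ, Zero s t S β x0
  · obtain ⟨x0, h1, h2⟩ := h0
    exact endgame1 hC h h5 h1 h2
  · push Not at h0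
    exact endgame0 hC h h5 h0

/-- The main theorem for multigraphs. -/
theorem main_D4 {s t : E → V} {S : Finset E} (hB : Base s t S) {β γ : E → ZMod 2}
    (h : Str s t S β γ) : HasFlow (ZMod 5) s t S := by
  obtain ⟨n, hn⟩ : ∃ n, S.card = n := ⟨_, rfl⟩
  induction n using Nat.strong_induction_on generalizing s t S β γ with
  | _ n ih =>
    by_contra hno
    have hC : Ctx s t S := ⟨hB, hno, fun s' t' S' β' γ' hlt hB' hS' =>
      ih _ (hn ▸ hlt) hB' hS' rfl⟩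
    obtain ⟨β', γ', hN⟩ := exists_norm hC h
    exact endgame hC hN (hC.five hN.str)

end MP974d84.J
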