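import Mathlib
import Pool.Agent.Work.MP_974d84_co.J11a

/-!
Choice of two edges at a vertex of degree at least four whose splitting creates no bridge.
-/

namespace MP974d84.J

open Finset

variable {V E : Type*} [Fintype V] [DecidableEq V] [Fintype E] [DecidableEq E]
variable {s t : E → V} {S : Finset E}

/-- The six numbers of edges between the four corners. -/
theorem corner_all (s t : E → V) (S : Finset E) (X Y : Finset V) :
    (dl s t S (X ∩ Y)).card = (ebt s t S (X ∩ Y) (X \ Y)).card + (ebt s t S (X ∩ Y) (Y \ X)).card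
      + (ebt s t S (X ∩ Y) (X ∪ Y)ᶜ).card ∧
    (dl s t S (X \ Y)).card = (ebt s t S (X ∩ Y) (X \ Y)).card + (ebt s t S (X \ Y) (Y \ X)).card
      + (ebt s t S (X \ Y) (X ∪ Y)ᶜ).card ∧
    (dl s t S (Y \ X)).card = (ebt s t S (X ∩ Y) (Y \ X)).card + (ebt s t S (X \ Y) (Y \ X)).card
      + (ebt s t S (Y \ X) (X ∪ Y)ᶜ).card ∧
    (dl s t S (X ∪ Y)).card = (ebt s t S (X ∩ Y) (X ∪ Y)ᶜ).card
      + (ebt s t S (X \ Y) (X ∪ Y)ᶜ).card + (ebt s t S (Y \ X) (X ∪ Y)ᶜ).card ∧
    (dl s t S X).card = (ebt s t S (X ∩ Y) (Y \ X)).card + (ebt s t S (X ∩ Y) (X ∪ Y)ᶜ).card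
      + (ebt s t S (X \ Y) (Y \ X)).card + (ebt s t S (X \ Y) (X ∪ Y)ᶜ).card ∧
    (dl s t S Y).card = (ebt s t S (X ∩ Y) (X \ Y)).card + (ebt s t S (X ∩ Y) (X ∪ Y)ᶜ).card
      + (ebt s t S (X \ Y) (Y \ X)).card + (ebt s t S (Y \ X) (X ∪ Y)ᶜ).card := by
  refine ⟨?_, ?_, ?_, ?_, ?_, ?_⟩ <;>
  · simp only [dl, ebt, card_filter, ← sum_add_distrib]
    refine sum_congr rfl fun e _ => ?_
    unfold crs
    by_cases c1 : s e ∈ X <;> by_cases c2 : s e ∈ Y <;> by_cases c3 : t e ∈ X <;>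
      by_cases c4 : t e ∈ Y <;> simp [c1, c2, c3, c4]

/-- Edges at a vertex crossing a set which does not contain it. -/
theorem dl_at {v : V} {e : E} (he : e ∈ inc s t S v) {W : Finset V} (hv : v ∉ W) :
    e ∈ dl s t S W ↔ oth s t v e ∈ W := by
  rw [mem_dl, crs_oth he hv]
  exact ⟨fun h => h.2, fun h => ⟨(mem_inc.1 he).1, h⟩⟩

theorem ebt_at {v : V} {e : E} (he : e ∈ inc s t S v) {A B : Finset V} (hv : v ∈ B)
    (ho : oth s t v e ∈ A) : e ∈ ebt s t S A B := by
  rw [mem_ebt]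
  refine ⟨(mem_inc.1 he).1, ?_⟩
  rcases oth_spec he with ⟨h1, h2⟩ | ⟨h1, h2⟩
  · right; rw [h1, h2]; exact ⟨hv, ho⟩
  · left; rw [h1, h2]; exact ⟨ho, hv⟩

/-- Splitting with a new edge. -/
theorem choose_edge (hbr : ∀ Z : Finset V, (dl s t S Z).card ≠ 1) {v : V} {e f h : E}
    (he : e ∈ inc s t S v) (hf : f ∈ inc s t S v) (hh : h ∈ inc s t S v) (hef : e ≠ f)
    (heh : e ≠ h) (hfh : f ≠ h) :
    (∀ W : Finset V, v ∉ W → dl s t S W ≠ {e, f}) ∨
      (∀ W : Finset V, v ∉ W → dl s t S W ≠ {e, h}) := by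
  by_contra hc
  push Not at hc
  obtain ⟨⟨X, hX, hXd⟩, Y, hY, hYd⟩ := hc
  have eX : oth s t v e ∈ X := (dl_at he hX).1 (by rw [hXd]; simp)
  have fX : oth s t v f ∈ X := (dl_at hf hX).1 (by rw [hXd]; simp)
  have eY : oth s t v e ∈ Y := (dl_at he hY).1 (by rw [hYd]; simp)
  have hYm : oth s t v h ∈ Y := (dl_at hh hY).1 (by rw [hYd]; simp)
  have hU : v ∉ X ∪ Y := fun hc => (mem_union.1 hc).elim hX hY
  have hI : v ∉ X ∩ Y := fun hc => hX (mem_inter.1 hc).1
  have h3 : 3 ≤ (dl s t S (X ∪ Y)).card := by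
    have : ({e, f, h} : Finset E) ⊆ dl s t S (X ∪ Y) := by
      intro g hg
      simp only [mem_insert, mem_singleton] at hg
      rcases hg with rfl | rfl | rfl
      · exact (dl_at he hU).2 (mem_union_left _ eX)
      · exact (dl_at hf hU).2 (mem_union_left _ fX)
      · exact (dl_at hh hU).2 (mem_union_right _ hYm)
    have h4 := card_le_card this
    rwa [card_insert_of_notMem (by simp [hef, heh]), card_pair hfh] at h4
  have h2 : 1 ≤ (dl s t S (X ∩ Y)).card :=
    card_pos.2 ⟨e, (dl_at he hI).2 (mem_inter.2 ⟨eX, eY⟩)⟩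
  have h1 := hbr (X ∩ Y)
  obtain ⟨c1, c2, c3, c4, c5, c6⟩ := corner_all s t S X Y
  rw [hXd, card_pair hef] at c5
  rw [hYd, card_pair heh] at c6
  omega

/-- Splitting without a new edge. -/
theorem choose_pair (hbr : ∀ Z : Finset V, (dl s t S Z).card ≠ 1) {v : V}
    (h4 : 4 ≤ (inc s t S v).card) : ∃ e ∈ inc s t S v, ∃ f ∈ inc s t S v, e ≠ f ∧
      ∀ W : Finset V, v ∉ W → ∀ k, k ≠ e → k ≠ f → dl s t S W ≠ {e, f, k} := by
  by_cases hcut : ∃ W : Finset V, v ∉ W ∧ dl s t S W ⊆ inc s t S v ∧ dl s t S W ≠ ∅ ∧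
      dl s t S W ≠ inc s t S v
  · obtain ⟨W, hW, hsub, hne, hne'⟩ := hcut
    obtain ⟨e, he⟩ := nonempty_iff_ne_empty.2 hne
    obtain ⟨h, hh, hhn⟩ : ∃ h ∈ inc s t S v, h ∉ dl s t S W := by
      by_contra hc
      push Not at hc
      exact hne' (Subset.antisymm hsub hc)
    have hev := hsub he
    refine ⟨e, hev, h, hh, fun hc => hhn (hc ▸ he), fun W1 hW1 k hke hkh hd => ?_⟩
    have eW : oth s t v e ∈ W := (dl_at hev hW).1 he
    have hWn : oth s t v h ∉ W := fun hc => hhn ((dl_at hh hW).2 hc)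
    have eW1 : oth s t v e ∈ W1 := (dl_at hev hW1).1 (by rw [hd]; simp)
    have hW1' : oth s t v h ∈ W1 := (dl_at hh hW1).1 (by rw [hd]; simp)
    have a1 : 1 ≤ (dl s t S (W1 ∩ W)).card :=
      card_pos.2 ⟨e, (dl_at hev (fun hc => hW (mem_inter.1 hc).2)).2 (mem_inter.2 ⟨eW1, eW⟩)⟩
    have a2 : 1 ≤ (dl s t S (W1 \ W)).card :=
      card_pos.2 ⟨h, (dl_at hh (fun hc => hW1 (mem_sdiff.1 hc).1)).2 (mem_sdiff.2 ⟨hW1', hWn⟩)⟩
    have b1 := hbr (W1 ∩ W)
    have b2 := hbr (W1 \ W)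
    have hv2 : v ∉ W1 ∪ W := fun hc => (mem_union.1 hc).elim hW1 hW
    -- edges between `W` and its complement are at `v`
    have z : ∀ A B : Finset V, A ⊆ W → (∀ x ∈ B, x ∉ W) → v ∉ B → ebt s t S A B = ∅ := by
      intro A B hA hB hvB
      rw [eq_empty_iff_forall_notMem]
      intro g hg
      rw [mem_ebt] at hg
      have h5 : g ∈ dl s t S W := by
        rw [mem_dl]
        unfold crs
        rcases hg.2 with ⟨h6, h7⟩ | ⟨h6, h7⟩
        · exact ⟨hg.1, Or.inl ⟨hA h6, hB _ h7⟩⟩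
        · exact ⟨hg.1, Or.inr ⟨hB _ h6, hA h7⟩⟩
      have h6 := hsub h5
      rcases (mem_inc.1 h6).2 with h7 | h7
      · rcases hg.2 with ⟨h8, h9⟩ | ⟨h8, h9⟩
        · exact hW (h7 ▸ hA h8)
        · exact hvB (h7 ▸ h8)
      · rcases hg.2 with ⟨h8, h9⟩ | ⟨h8, h9⟩
        · exact hvB (h7 ▸ h9)
        · exact hW (h7 ▸ hA h9)
    have z1 := z (W1 ∩ W) (W1 \ W) inter_subset_right (fun x hx => (mem_sdiff.1 hx).2)
      (fun hc => hW1 (mem_sdiff.1 hc).1)
    have z2 : ebt s t S (W1 \ W) (W \ W1) = ∅ := by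
      rw [ebt_comm]
      exact z (W \ W1) (W1 \ W) sdiff_subset (fun x hx => (mem_sdiff.1 hx).2)
        (fun hc => hW1 (mem_sdiff.1 hc).1)
    obtain ⟨c1, c2, c3, c4, c5, c6⟩ := corner_all s t S W1 W
    rw [z1, card_empty] at c1 c2
    rw [z2, card_empty] at c2 c5
    have hcard : (dl s t S W1).card ≤ 3 := by rw [hd]; exact card_le_three
    omega
  · push Not at hcut
    have hcut' : ∀ W : Finset V, v ∉ W → dl s t S W ⊆ inc s t S v → (dl s t S W).Nonempty →
        ¬ (dl s t S W).card ≤ 3 := by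
      intro W hW hsub hne hc
      have := hcut W hW hsub hne
      rw [this] at hc
      omega
    obtain ⟨T, hTs, hTc⟩ := exists_subset_card_eq (show 3 ≤ (inc s t S v).card by omega)
    obtain ⟨e, f, h, hef, heh, hfh, hT⟩ := card_eq_three.1 hTc
    have he : e ∈ inc s t S v := hTs (by rw [hT]; simp)
    have hf : f ∈ inc s t S v := hTs (by rw [hT]; simp)
    have hh : h ∈ inc s t S v := hTs (by rw [hT]; simp)
    by_contra hc
    push Not at hc
    obtain ⟨X, hX, k, hk1, hk2, hXd⟩ := hc e he f hf hef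
    obtain ⟨Y, hY, k', hk1', hk2', hYd⟩ := hc e he h hh heh
    have eX : oth s t v e ∈ X := (dl_at he hX).1 (by rw [hXd]; simp)
    have fX : oth s t v f ∈ X := (dl_at hf hX).1 (by rw [hXd]; simp)
    have eY : oth s t v e ∈ Y := (dl_at he hY).1 (by rw [hYd]; simp)
    have hYm : oth s t v h ∈ Y := (dl_at hh hY).1 (by rw [hYd]; simp)
    have hU : v ∉ X ∪ Y := fun hc => (mem_union.1 hc).elim hX hY
    have hI : v ∉ X ∩ Y := fun hc => hX (mem_inter.1 hc).1
    have fY : oth s t v f ∉ Y := by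
      intro hc'
      have h5 := (dl_at hf hY).2 hc'
      rw [hYd] at h5
      simp only [mem_insert, mem_singleton] at h5
      rcases h5 with h5 | h5 | h5
      · exact hef h5.symm
      · exact hfh h5
      · refine hcut' Y hY ?_ ⟨e, by rw [hYd]; simp⟩ (by rw [hYd]; exact card_le_three)
        rw [hYd]
        intro g hg
        simp only [mem_insert, mem_singleton] at hg
        rcases hg with rfl | rfl | rfl
        · exact he
        · exact hh
        · rw [← h5]; exact hf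
    have hXn : oth s t v h ∉ X := by
      intro hc'
      have h5 := (dl_at hh hX).2 hc'
      rw [hXd] at h5
      simp only [mem_insert, mem_singleton] at h5
      rcases h5 with h5 | h5 | h5
      · exact heh h5.symm
      · exact hfh h5.symm
      · refine hcut' X hX ?_ ⟨e, by rw [hXd]; simp⟩ (by rw [hXd]; exact card_le_three)
        rw [hXd]
        intro g hg
        simp only [mem_insert, mem_singleton] at hg
        rcases hg with rfl | rfl | rfl
        · exact he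
        · exact hf
        · rw [← h5]; exact hh
    obtain ⟨c1, c2, c3, c4, c5, c6⟩ := corner_all s t S X Y
    have hvD : v ∈ (X ∪ Y)ᶜ := mem_compl.2 hU
    have m1 : 1 ≤ (ebt s t S (X ∩ Y) (X ∪ Y)ᶜ).card :=
      card_pos.2 ⟨e, ebt_at he hvD (mem_inter.2 ⟨eX, eY⟩)⟩
    have m2 : 1 ≤ (ebt s t S (X \ Y) (X ∪ Y)ᶜ).card :=
      card_pos.2 ⟨f, ebt_at hf hvD (mem_sdiff.2 ⟨fX, fY⟩)⟩
    have m3 : 1 ≤ (ebt s t S (Y \ X) (X ∪ Y)ᶜ).card :=
      card_pos.2 ⟨h, ebt_at hh hvD (mem_sdiff.2 ⟨hYm, hXn⟩)⟩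
    have b1 := hbr (X ∩ Y)
    have b2 := hbr (X \ Y)
    have b3 := hbr (Y \ X)
    have hXc : (dl s t S X).card = 3 := by
      rw [hXd, card_insert_of_notMem, card_pair hk2.symm]
      simp [hef, hk1.symm]
    have hYc : (dl s t S Y).card = 3 := by
      rw [hYd, card_insert_of_notMem, card_pair hk2'.symm]
      simp [heh, hk1'.symm]
    have h3 : (dl s t S (X ∪ Y)).card = 3 := by omega
    have hsub : ({e, f, h} : Finset E) ⊆ dl s t S (X ∪ Y) := by
      intro g hg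
      simp only [mem_insert, mem_singleton] at hg
      rcases hg with rfl | rfl | rfl
      · exact (dl_at he hU).2 (mem_union_left _ eX)
      · exact (dl_at hf hU).2 (mem_union_left _ fX)
      · exact (dl_at hh hU).2 (mem_union_right _ hYm)
    have heq : ({e, f, h} : Finset E) = dl s t S (X ∪ Y) := by
      apply eq_of_subset_of_card_le hsub
      rw [h3, card_insert_of_notMem (by simp [hef, heh]), card_pair hfh]
    refine hcut' (X ∪ Y) hU ?_ ⟨e, by rw [← heq]; simp⟩ h3.le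
    rw [← heq]
    intro g hg
    simp only [mem_insert, mem_singleton] at hg
    rcases hg with rfl | rfl | rfl <;> assumption

end MP974d84.J
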