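import Mathlib
import Pool.Agent.Work.MP_974d84_co.K1

/-!
Splitting two edges off a vertex of degree at least four.
-/

namespace MP974d84.J

open Finset

variable {V E : Type*} [Fintype V] [DecidableEq V] [Fintype E] [DecidableEq E]

/-- New endpoint maps: the edges `e`, `f` are moved from `v` to the new vertex `none`; the new
edge `none` has the endpoint `d`. -/
def en (s : E → V) (v : V) (e f : E) (d : Option V) : Option E → Option V
  | some x => if (x = e ∨ x = f) ∧ s x = v then none else some (s x)
  | none => d

theorem en_some_of_not {s : E → V} {v : V} {e f : E} {d : Option V} {x : E}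
    (h : ¬ ((x = e ∨ x = f) ∧ s x = v)) : en s v e f d (some x) = some (s x) := if_neg h

theorem en_some_of {s : E → V} {v : V} {e f : E} {d : Option V} {x : E}
    (h : (x = e ∨ x = f) ∧ s x = v) : en s v e f d (some x) = none := if_pos h

theorem en_some_ne {s : E → V} {v : V} {e f : E} {d : Option V} {x : E} {u : V} (hu : u ≠ v) :
    en s v e f d (some x) = some u ↔ s x = u := by
  by_cases h : (x = e ∨ x = f) ∧ s x = v
  · rw [en_some_of h]
    constructor
    · intro hc; cases hc
    · intro hc; exact absurd (hc.symm.trans h.2) hu
  · rw [en_some_of_not h, Option.some_inj]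

theorem en_none_iff {s : E → V} {v : V} {e f : E} {d : Option V} {x : E} :
    en s v e f d (some x) = none ↔ (x = e ∨ x = f) ∧ s x = v := by
  by_cases h : (x = e ∨ x = f) ∧ s x = v
  · simp [en_some_of h, h]
  · simp [en_some_of_not h, h]

theorem en_v_iff {s : E → V} {v : V} {e f : E} {d : Option V} {x : E} :
    en s v e f d (some x) = some v ↔ ¬ (x = e ∨ x = f) ∧ s x = v := by
  by_cases h : (x = e ∨ x = f) ∧ s x = v
  · simp [en_some_of h, h.1]
  · rw [en_some_of_not h, Option.some_inj]; tauto

/-- New edge set. -/
def nS (S : Finset E) (w : Bool) : Finset (Option E) :=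
  (S.map Function.Embedding.some) ∪ (if w then {none} else ∅)

theorem mem_nS_some {S : Finset E} {w : Bool} {x : E} : some x ∈ nS S w ↔ x ∈ S := by
  cases w <;> simp [nS]

theorem mem_nS_none {S : Finset E} {w : Bool} : none ∈ nS S w ↔ w = true := by
  cases w <;> simp [nS]

/-- Extension of a function to the new edge. -/
def ex {A : Type*} (g : E → A) (c : A) : Option E → A
  | some x => g x
  | none => c

section
variable {A : Type*} [AddCommGroup A] {s t : E → V} {v : V} {e f : E}

theorem D_ne (g : Option E → A) {u : V} (hu : u ≠ v) :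
    D (en s v e f (some v)) (en t v e f none) g (some u) = D s t (fun x => g (some x)) u := by
  unfold D
  rw [Fintype.sum_option]
  have h1 : en s v e f (some v) none = some v := rfl
  have h2 : en t v e f none none = none := rfl
  rw [h1, h2, if_neg (by simpa using hu.symm), if_neg (by simp), sub_zero, zero_add]
  refine sum_congr rfl fun x _ => ?_
  simp only [en_some_ne hu]

theorem D_both (g : Option E → A) :
    D (en s v e f (some v)) (en t v e f none) g (some v)
      + D (en s v e f (some v)) (en t v e f none) g none = D s t (fun x => g (some x)) v := by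
  unfold D
  rw [Fintype.sum_option, Fintype.sum_option]
  have h1 : en s v e f (some v) none = some v := rfl
  have h2 : en t v e f none none = none := rfl
  rw [h1, h2, if_pos rfl, if_neg (by simp), if_neg (by simp), if_pos rfl]
  have h3 : ∀ x, (if s x = v then g (some x) else 0) - (if t x = v then g (some x) else 0)
      = ((if en s v e f (some v) (some x) = some v then g (some x) else 0)
        - (if en t v e f none (some x) = some v then g (some x) else 0))
      + ((if en s v e f (some v) (some x) = none then g (some x) else 0)
        - (if en t v e f none (some x) = none then g (some x) else 0)) := by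
    intro x
    simp only [en_v_iff, en_none_iff]
    by_cases c0 : x = e ∨ x = f <;> by_cases c1 : s x = v <;> by_cases c2 : t x = v <;>
      simp [c0, c1, c2]
  simp only [h3]
  rw [sum_add_distrib]
  abel

end

section
variable {s t : E → V} {S : Finset E} {v : V} {e f : E}

theorem inc_ne {w : Bool} {u : V} (hu : u ≠ v) :
    inc (en s v e f (some v)) (en t v e f none) (nS S w) (some u)
      = (inc s t S u).map Function.Embedding.some := by
  ext x
  rw [mem_inc, mem_map]
  cases x with
  | none =>
    have h1 : en s v e f (some v) none = some v := rfl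
    have h2 : en t v e f none none = none := rfl
    rw [h1, h2]
    simp only [Option.some_inj, reduceCtorEq, or_false, Function.Embedding.some_apply]
    constructor
    · rintro ⟨_, h⟩; exact absurd h.symm hu
    · rintro ⟨_, _, h⟩; exact absurd h (by simp)
  | some x =>
    rw [mem_nS_some, en_some_ne hu, en_some_ne hu]
    constructor
    · intro h; exact ⟨x, mem_inc.2 h, rfl⟩
    · rintro ⟨y, hy, h⟩
      have : y = x := by simpa using h
      rw [← this]; exact mem_inc.1 hy

theorem inc_v {w : Bool} : inc (en s v e f (some v)) (en t v e f none) (nS S w) (some v)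
      ⊆ insert none (((inc s t S v).erase e |>.erase f).map Function.Embedding.some) := by
  intro x hx
  rw [mem_inc] at hx
  rw [mem_insert, mem_map]
  cases x with
  | none => exact Or.inl rfl
  | some x =>
    right
    rw [mem_nS_some, en_v_iff, en_v_iff] at hx
    refine ⟨x, ?_, rfl⟩
    rw [mem_erase, mem_erase, mem_inc]
    tauto

theorem inc_none {w : Bool} : inc (en s v e f (some v)) (en t v e f none) (nS S w) none
      ⊆ {none, some e, some f} := by
  intro x hx
  rw [mem_inc] at hx
  simp only [mem_insert, mem_singleton]
  cases x with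
  | none => exact Or.inl rfl
  | some x =>
    right
    rw [en_none_iff, en_none_iff] at hx
    simp only [Option.some_inj]
    tauto

/-- Cuts which do not separate the two copies of the vertex. -/
theorem dl_same {w : Bool} {Y : Finset (Option V)} (hY : none ∈ Y ↔ some v ∈ Y) :
    dl (en s v e f (some v)) (en t v e f none) (nS S w) Y
      = (dl s t S (univ.filter fun x => some x ∈ Y)).map Function.Embedding.some := by
  have key : ∀ (r : E → V) (d : Option V) (x : E), en r v e f d (some x) ∈ Y ↔ some (r x) ∈ Y := by
    intro r d x
    by_cases h : (x = e ∨ x = f) ∧ r x = v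
    · rw [en_some_of h, h.2]; exact hY
    · rw [en_some_of_not h]
  ext x
  rw [mem_dl, mem_map]
  unfold crs
  cases x with
  | none =>
    have h1 : en s v e f (some v) none = some v := rfl
    have h2 : en t v e f none none = none := rfl
    rw [h1, h2]
    constructor
    · rintro ⟨_, h⟩; tauto
    · rintro ⟨_, _, h⟩; exact absurd h (by simp)
  | some x =>
    rw [mem_nS_some, key, key]
    constructor
    · rintro ⟨h3, h4⟩
      refine ⟨x, ?_, rfl⟩
      rw [mem_dl]
      unfold crs
      simp only [mem_filter, mem_univ, true_and]
      exact ⟨h3, h4⟩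
    · rintro ⟨y, hy, h⟩
      have : y = x := by simpa using h
      rw [this, mem_dl] at hy
      unfold crs at hy
      simpa only [mem_filter, mem_univ, true_and] using hy

/-- Cuts which separate the two copies of the vertex. -/
theorem dl_sep {w : Bool} (hl : ∀ e ∈ S, s e ≠ t e) (he : e ∈ inc s t S v) (hf : f ∈ inc s t S v)
    {Y : Finset (Option V)} (hY1 : none ∈ Y) (hY2 : some v ∉ Y) (x : E) :
    some x ∈ dl (en s v e f (some v)) (en t v e f none) (nS S w) Y ↔
      x ∈ S ∧ ((x ∈ dl s t S (univ.filter fun x => some x ∈ Y) ∧ ¬ (x = e ∨ x = f)) ∨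
        (x ∉ dl s t S (univ.filter fun x => some x ∈ Y) ∧ (x = e ∨ x = f))) := by
  rw [mem_dl, mem_nS_some, mem_dl]
  unfold crs
  simp only [mem_filter, mem_univ, true_and]
  by_cases hx : x = e ∨ x = f
  · have hxi : x ∈ inc s t S v := by
      rcases hx with rfl | rfl
      · exact he
      · exact hf
    obtain ⟨hxS, hxv⟩ := mem_inc.1 hxi
    have hne := hl x hxS
    rcases hxv with h1 | h1
    · have h2 : ¬ ((x = e ∨ x = f) ∧ t x = v) := fun hc => hne (h1.trans hc.2.symm)
      rw [en_some_of ⟨hx, h1⟩, en_some_of_not h2, h1]
      tauto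
    · have h2 : ¬ ((x = e ∨ x = f) ∧ s x = v) := fun hc => hne (hc.2.trans h1.symm)
      rw [en_some_of ⟨hx, h1⟩, en_some_of_not h2, h1]
      tauto
  · rw [en_some_of_not (fun hc => hx hc.1), en_some_of_not (fun hc => hx hc.1)]
    tauto

end

/-- Total excess of the degrees. -/
def exc (s t : E → V) (S : Finset E) : ℕ := ∑ u, ((inc s t S u).card - 3)

theorem exc_lt {s t : E → V} {S : Finset E} {v : V} {e f : E} {w : Bool}
    (he : e ∈ inc s t S v) (hf : f ∈ inc s t S v) (hef : e ≠ f) (h4 : 4 ≤ (inc s t S v).card) :
    exc (en s v e f (some v)) (en t v e f none) (nS S w) < exc s t S := by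
  unfold exc
  rw [Fintype.sum_option]
  have h1 : (inc (en s v e f (some v)) (en t v e f none) (nS S w) none).card - 3 = 0 := by
    have := card_le_card (inc_none (s := s) (t := t) (S := S) (v := v) (e := e) (f := f) (w := w))
    have h3 : ({none, some e, some f} : Finset (Option E)).card ≤ 3 := card_le_three
    omega
  rw [h1, zero_add]
  apply sum_lt_sum
  · intro u _
    by_cases hu : u = v
    · subst hu
      have h2 := card_le_card (inc_v (s := s) (t := t) (S := S) (v := u) (e := e) (f := f) (w := w))
      have h3 := card_insert_le (none : Option E)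
        (((inc s t S u).erase e |>.erase f).map Function.Embedding.some)
      rw [card_map, card_erase_of_mem (mem_erase.2 ⟨hef.symm, hf⟩), card_erase_of_mem he] at h3
      omega
    · rw [inc_ne hu, card_map]
  · refine ⟨v, mem_univ v, ?_⟩
    have h2 := card_le_card (inc_v (s := s) (t := t) (S := S) (v := v) (e := e) (f := f) (w := w))
    have h3 := card_insert_le (none : Option E)
      (((inc s t S v).erase e |>.erase f).map Function.Embedding.some)
    rw [card_map, card_erase_of_mem (mem_erase.2 ⟨hef.symm, hf⟩), card_erase_of_mem he] at h3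
    omega

/-- Flows of the new graph give flows of the old one. -/
theorem flow_back {A : Type*} [AddCommGroup A] {s t : E → V} {S : Finset E} {v : V} {e f : E}
    {w : Bool} (h : HasFlow A (en s v e f (some v)) (en t v e f none) (nS S w)) :
    HasFlow A s t S := by
  obtain ⟨g, h1, h2⟩ := h
  refine ⟨fun x => g (some x), fun x => ?_, fun u => ?_⟩
  · rw [h1 (some x), mem_nS_some]
  · by_cases hu : u = v
    · subst hu
      rw [← D_both (e := e) (f := f) g, h2, h2, add_zero]
    · rw [← D_ne (e := e) (f := f) g hu]
      exact h2 _

theorem prop0 {P Q S : Prop} (h3 : False ↔ S ∧ ((P ∧ ¬ Q) ∨ (¬ P ∧ Q))) (h4 : P → S)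
    (h5 : Q → S) : P ↔ Q := by tauto

theorem prop1 {P Q S K : Prop} (h3 : K ↔ S ∧ ((P ∧ ¬ Q) ∨ (¬ P ∧ Q))) (h4 : P → S) (h5 : Q → S)
    (h6 : K → ¬ Q) : P ↔ Q ∨ K := by tauto

theorem prop2 {P A B S : Prop} (h3 : A ↔ S ∧ ((P ∧ ¬ (A ∨ B)) ∨ (¬ P ∧ (A ∨ B)))) (h4 : P → S)
    (h6 : B → S) (hAB : A → ¬ B) : P ↔ B := by tauto

/-- The splitting step. -/
theorem split_step {s t : E → V} {S : Finset E} {β γ : E → ZMod 2}
    (hl : ∀ e ∈ S, s e ≠ t e) (hbr : ∀ Z : Finset V, (dl s t S Z).card ≠ 1)
    (h : Str s t S β γ) {v : V} {e f : E} (he : e ∈ inc s t S v) (hf : f ∈ inc s t S v)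
    (hef : e ≠ f) {w : Bool} (hw : w = true ↔ ¬ (β e = β f ∧ γ e = γ f))
    (hg1 : w = true → ∀ W : Finset V, v ∉ W → dl s t S W ≠ {e, f})
    (hg2 : w = false → ∀ W : Finset V, v ∉ W → ∀ k, k ≠ e → k ≠ f → dl s t S W ≠ {e, f, k}) :
    (∀ x ∈ nS S w, en s v e f (some v) x ≠ en t v e f none x) ∧
    (∀ Y : Finset (Option V), (dl (en s v e f (some v)) (en t v e f none) (nS S w) Y).card ≠ 1) ∧
    Str (en s v e f (some v)) (en t v e f none) (nS S w) (ex β (β e + β f)) (ex γ (γ e + γ f)) := by
  have hx0 : ∀ a b c d : ZMod 2, (a + b ≠ 0 ∨ c + d ≠ 0) ↔ ¬ (a = b ∧ c = d) := by decide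
  have hloop : ∀ x ∈ nS S w, en s v e f (some v) x ≠ en t v e f none x := by
    intro x hx
    cases x with
    | none =>
      show (some v : Option V) ≠ none
      simp
    | some x =>
      rw [mem_nS_some] at hx
      have hne := hl x hx
      by_cases c1 : (x = e ∨ x = f) ∧ s x = v
      · have c2 : ¬ ((x = e ∨ x = f) ∧ t x = v) := fun hc => hne (c1.2.trans hc.2.symm)
        rw [en_some_of c1, en_some_of_not c2]; simp
      · rw [en_some_of_not c1]
        by_cases c2 : (x = e ∨ x = f) ∧ t x = v
        · rw [en_some_of c2]; simp
        · rw [en_some_of_not c2]; simpa using hne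
  have hsupp : ∀ x, (ex β (β e + β f) x ≠ 0 ∨ ex γ (γ e + γ f) x ≠ 0) ↔ x ∈ nS S w := by
    intro x
    cases x with
    | none => rw [mem_nS_none, hw, ← hx0]; rfl
    | some x => rw [mem_nS_some, ← h.supp x]; rfl
  refine ⟨hloop, ?_, ?_⟩
  · have key : ∀ Y : Finset (Option V), none ∈ Y → some v ∉ Y →
        (dl (en s v e f (some v)) (en t v e f none) (nS S w) Y).card ≠ 1 := by
      intro Y hY1 hY2 hc
      obtain ⟨k, hk⟩ := card_eq_one.1 hc
      have hsep := dl_sep (w := w) hl he hf hY1 hY2
      simp only [hk, mem_singleton] at hsep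
      set W : Finset V := univ.filter fun x => some x ∈ Y with hW
      have hvW : v ∉ W := by simp [hW, hY2]
      have heS := (mem_inc.1 he).1
      have hfS := (mem_inc.1 hf).1
      have hWS : ∀ x, x ∈ dl s t S W → x ∈ S := fun x hx => (mem_dl.1 hx).1
      cases k with
      | none =>
        have hw' : w = true := by
          have : (none : Option E) ∈ dl (en s v e f (some v)) (en t v e f none) (nS S w) Y := by
            rw [hk]; simp
          exact mem_nS_none.1 (mem_dl.1 this).1
        apply hg1 hw' W hvW
        ext x
        have h3 := hsep x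
        simp only [reduceCtorEq] at h3
        rw [mem_insert, mem_singleton]
        exact prop0 h3 (hWS x) (fun hc => hc.elim (fun hc => hc ▸ heS) (fun hc => hc ▸ hfS))
      | some k =>
        have hw' : w = false := by
          by_contra hcw
          rw [Bool.not_eq_false] at hcw
          have : (none : Option E) ∈ dl (en s v e f (some v)) (en t v e f none) (nS S w) Y := by
            rw [mem_dl, mem_nS_none]
            refine ⟨hcw, Or.inr ⟨?_, ?_⟩⟩
            · exact hY2
            · exact hY1
          rw [hk] at this
          simp at this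
        simp only [Option.some_inj] at hsep
        by_cases c1 : k = e
        · apply hbr W
          rw [card_eq_one]
          refine ⟨f, ?_⟩
          ext x
          have h3 := hsep x
          rw [c1] at h3
          rw [mem_singleton]
          exact prop2 h3 (hWS x) (fun hc => hc ▸ hfS) (fun h1 h2 => hef (h1.symm.trans h2))
        · by_cases c1' : k = f
          · apply hbr W
            rw [card_eq_one]
            refine ⟨e, ?_⟩
            ext x
            have h3 := hsep x
            rw [c1', or_comm (a := x = e)] at h3
            rw [mem_singleton]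
            exact prop2 h3 (hWS x) (fun hc => hc ▸ heS) (fun h1 h2 => hef (h2.symm.trans h1))
          · apply hg2 hw' W hvW k c1 c1'
            ext x
            have h3 := hsep x
            rw [mem_insert, mem_insert, mem_singleton, ← or_assoc]
            refine prop1 h3 (hWS x) (fun hc => hc.elim (fun hc => hc ▸ heS) (fun hc => hc ▸ hfS)) ?_
            rintro rfl (h5 | h5)
            · exact c1 h5
            · exact c1' h5
    intro Y
    by_cases hY : none ∈ Y ↔ some v ∈ Y
    · rw [dl_same hY, card_map]
      exact hbr _
    · by_cases hY1 : none ∈ Y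
      · exact key Y hY1 (fun hc => hY ⟨fun _ => hc, fun _ => hY1⟩)
      · have hY2 : some v ∈ Y := by
          by_contra hc
          exact hY ⟨fun h => absurd h hY1, fun h => absurd h hc⟩
        rw [← dl_compl]
        exact key Yᶜ (mem_compl.2 hY1) (fun hc => (mem_compl.1 hc) hY2)
  · -- boundaries
    have hDn : ∀ g : E → ZMod 2, (∀ x, ex g (g e + g f) x ≠ 0 → x ∈ nS S w) →
        D (en s v e f (some v)) (en t v e f none) (ex g (g e + g f)) none = 0 := by
      intro g hg
      rw [D2_inc hloop hg]
      have h1 : ∑ x ∈ inc (en s v e f (some v)) (en t v e f none) (nS S w) none,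
          ex g (g e + g f) x = ∑ x ∈ ({none, some e, some f} : Finset (Option E)),
            ex g (g e + g f) x := by
        apply sum_subset inc_none
        intro x hx hxn
        by_contra hne
        apply hxn
        rw [mem_inc]
        refine ⟨hg x hne, ?_⟩
        simp only [mem_insert, mem_singleton] at hx
        rcases hx with rfl | rfl | rfl
        · right; rfl
        · rcases (mem_inc.1 he).2 with h2 | h2
          · left; exact en_some_of ⟨Or.inl rfl, h2⟩
          · right; exact en_some_of ⟨Or.inl rfl, h2⟩
        · rcases (mem_inc.1 hf).2 with h2 | h2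
          · left; exact en_some_of ⟨Or.inr rfl, h2⟩
          · right; exact en_some_of ⟨Or.inr rfl, h2⟩
      rw [h1, sum_insert (by simp), sum_pair (by simpa using hef)]
      show (g e + g f) + (g e + g f) = 0
      exact CharTwo.add_self_eq_zero _
    have hgb : ∀ x, ex β (β e + β f) x ≠ 0 → x ∈ nS S w := fun x hx => (hsupp x).1 (Or.inl hx)
    have hgc : ∀ x, ex γ (γ e + γ f) x ≠ 0 → x ∈ nS S w := fun x hx => (hsupp x).1 (Or.inr hx)
    have hDs : ∀ g : E → ZMod 2, (∀ x, ex g (g e + g f) x ≠ 0 → x ∈ nS S w) → ∀ u,
        D (en s v e f (some v)) (en t v e f none) (ex g (g e + g f)) (some u) = D s t g u := by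
      intro g hg u
      by_cases hu : u = v
      · subst hu
        have h1 := D_both (s := s) (t := t) (v := u) (e := e) (f := f) (ex g (g e + g f))
        rw [hDn g hg, add_zero] at h1
        exact h1
      · exact D_ne (ex g (g e + g f)) hu
    refine ⟨hsupp, fun x => ?_, ?_⟩
    · cases x with
      | none => exact hDn β hgb
      | some u => rw [hDs β hgb]; exact h.bD u
    · have h1 : Ts (en s v e f (some v)) (en t v e f none) (ex γ (γ e + γ f))
          ⊆ (Ts s t γ).map Function.Embedding.some := by
        intro x hx
        rw [mem_Ts] at hx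
        cases x with
        | none => exact absurd (hDn γ hgc) hx
        | some u =>
          rw [hDs γ hgc] at hx
          exact mem_map.2 ⟨u, mem_Ts.2 hx, rfl⟩
      have h2 := card_le_card h1
      rw [card_map] at h2
      exact h2.trans h.T4

end MP974d84.J
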