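import Mathlib
import Pool.Agent.Work.MP_974d84_co.K2
import Pool.Agent.Work.MP_974d84_co.J11f

/-!
The main theorem for arbitrary degrees.
-/

namespace MP974d84.J

open Finset

universe u w

theorem exists_split {V : Type u} {E : Type w} [Fintype V] [DecidableEq V] [Fintype E]
    [DecidableEq E] {s t : E → V} {S : Finset E} (β γ : E → ZMod 2)
    (hbr : ∀ Z : Finset V, (dl s t S Z).card ≠ 1) {v : V} (h4 : 4 ≤ (inc s t S v).card) :
    ∃ e ∈ inc s t S v, ∃ f ∈ inc s t S v, e ≠ f ∧ ∃ w : Bool,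
      (w = true ↔ ¬ (β e = β f ∧ γ e = γ f)) ∧
      (w = true → ∀ W : Finset V, v ∉ W → dl s t S W ≠ {e, f}) ∧
      (w = false → ∀ W : Finset V, v ∉ W → ∀ k, k ≠ e → k ≠ f → dl s t S W ≠ {e, f, k}) := by
  by_cases hm : ∀ e ∈ inc s t S v, ∀ f ∈ inc s t S v, β e = β f ∧ γ e = γ f
  · obtain ⟨e, he, f, hf, hef, h⟩ := choose_pair hbr h4
    refine ⟨e, he, f, hf, hef, false, ?_, ?_, fun _ => h⟩
    · simp [hm e he f hf]
    · intro hc; cases hc
  · have hm' : ∃ e ∈ inc s t S v, ∃ f ∈ inc s t S v, ¬ (β e = β f ∧ γ e = γ f) := by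
      by_contra hc
      apply hm
      intro e he f hf
      by_contra hh
      exact hc ⟨e, he, f, hf, hh⟩
    obtain ⟨e, he, f, hf, hn⟩ := hm'
    have hef : e ≠ f := by
      rintro rfl; exact hn ⟨rfl, rfl⟩
    have h2 : 1 ≤ (((inc s t S v).erase e).erase f).card := by
      rw [card_erase_of_mem (mem_erase.2 ⟨hef.symm, hf⟩), card_erase_of_mem he]
      omega
    obtain ⟨h, hh⟩ := card_pos.1 h2
    rw [mem_erase, mem_erase] at hh
    obtain ⟨hhf, hhe, hh⟩ := hh
    -- a pair with different colours and good cuts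
    have key : ∀ a ∈ inc s t S v, ∀ b ∈ inc s t S v, ∀ c ∈ inc s t S v, a ≠ b → a ≠ c → b ≠ c →
        ¬ (β a = β b ∧ γ a = γ b) → ¬ (β a = β c ∧ γ a = γ c) →
        ∃ e ∈ inc s t S v, ∃ f ∈ inc s t S v, e ≠ f ∧ ∃ w : Bool,
          (w = true ↔ ¬ (β e = β f ∧ γ e = γ f)) ∧
          (w = true → ∀ W : Finset V, v ∉ W → dl s t S W ≠ {e, f}) ∧
          (w = false → ∀ W : Finset V, v ∉ W → ∀ k, k ≠ e → k ≠ f →
            dl s t S W ≠ {e, f, k}) := by
      intro a ha b hb c hc hab hac hbc n1 n2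
      rcases choose_edge hbr ha hb hc hab hac hbc with h5 | h5
      · refine ⟨a, ha, b, hb, hab, true, ?_, fun _ => h5, ?_⟩
        · simp only [true_iff]; exact n1
        · intro hc; cases hc
      · refine ⟨a, ha, c, hc, hac, true, ?_, fun _ => h5, ?_⟩
        · simp only [true_iff]; exact n2
        · intro hc; cases hc
    by_cases hc : β e = β h ∧ γ e = γ h
    · refine key f hf e he h hh hef.symm hhf.symm hhe.symm (fun hh => hn ⟨hh.1.symm, hh.2.symm⟩)
        (fun hh => hn ⟨hc.1.trans hh.1.symm, hc.2.trans hh.2.symm⟩)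
    · exact key e he f hf h hh hef hhe.symm hhf.symm hn hc

/-- The main theorem for multigraphs with arbitrary degrees. -/
theorem main_gen : ∀ (n : ℕ) (V : Type u) (E : Type w) [Fintype V] [DecidableEq V] [Fintype E]
    [DecidableEq E] (s t : E → V) (S : Finset E) (β γ : E → ZMod 2), exc s t S = n →
    (∀ e ∈ S, s e ≠ t e) → (∀ Z : Finset V, (dl s t S Z).card ≠ 1) → Str s t S β γ →
    HasFlow (ZMod 5) s t S := by
  intro n
  induction n using Nat.strong_induction_on with
  | _ n ih =>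
    intro V E _ _ _ _ s t S β γ hn hl hbr h
    by_cases hd : ∀ v, (inc s t S v).card ≤ 3
    · exact main_D4 ⟨hl, hd, hbr⟩ h
    · push Not at hd
      obtain ⟨v, hv⟩ := hd
      obtain ⟨e, he, f, hf, hef, w, hw, hg1, hg2⟩ := exists_split β γ hbr (show 4 ≤ _ from hv)
      obtain ⟨k1, k2, k3⟩ := split_step hl hbr h he hf hef hw hg1 hg2
      apply flow_back (v := v) (e := e) (f := f) (w := w)
      refine ih _ ?_ (Option V) (Option E) _ _ _ _ _ rfl k1 k2 k3
      rw [← hn]
      exact exc_lt he hf hef hv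

end MP974d84.J
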