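import Mathlib
import Pool.Agent.Work.MP_974d84_co.K0
import Pool.Agent.Work.MP_974d84_co.K3

/-!
The translation of the main theorem to simple graphs.
-/

namespace MP974d84.K

open Finset MP974d84 MP974d84.J

variable {V : Type*} [Fintype V] [DecidableEq V]

theorem exists_str {G : SimpleGraph V} [DecidableRel G.Adj] {ν : V → ℕ}
    (hν : Function.Injective ν) {F : SimpleGraph V} (hF : F ≤ G)
    (hdeg : ∀ v, Even (F.neighborSet v).ncard)
    (hodd : {c : F.ConnectedComponent |
      Odd {v | v ∈ c.supp ∧ Odd (G.neighborSet v).ncard}.ncard}.ncard ≤ 4) :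
    ∃ β γ : V × V → ZMod 2, Str (Prod.fst : V × V → V) Prod.snd (oe ν G) β γ := by
  classical
  set odd : V → Prop := fun v => Odd (G.neighborSet v).ncard with hodddef
  set β : V × V → ZMod 2 := fun e => if e ∈ oe ν G ∧ F.Adj e.1 e.2 then 1 else 0 with hβ
  set o : V × V → ZMod 2 := fun e => if e ∈ oe ν G then 1 else 0 with ho
  have hsym : ∀ (H : SimpleGraph V) (_ : H ≤ G) (v w : V),
      ((if (v, w) ∈ oe ν G ∧ H.Adj v w then (1 : ZMod 2) else 0)
        - (if (w, v) ∈ oe ν G ∧ H.Adj w v then 1 else 0)) = if H.Adj v w then 1 else 0 := by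
    intro H hH v w
    by_cases hadj : H.Adj v w
    · have hGa := hH hadj
      have hne : ν v ≠ ν w := fun h => G.ne_of_adj hGa (hν h)
      rcases lt_or_gt_of_ne hne with hlt | hlt
      · simp [mem_oe, hadj, hGa, hlt, not_lt.2 hlt.le]
      · simp [mem_oe, hadj, hadj.symm, hGa.symm, hlt, not_lt.2 hlt.le]
    · have : ¬ H.Adj w v := fun h => hadj h.symm
      simp [hadj, this]
  have hcard : ∀ (H : SimpleGraph V) (v : V),
      (∑ w, if H.Adj v w then (1 : ZMod 2) else 0) = ((H.neighborSet v).ncard : ZMod 2) := by
    intro H v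
    rw [sum_boole, Set.ncard_eq_toFinset_card' ]
    congr 2
    ext w; simp
  have hDβ : ∀ v, D (Prod.fst : V × V → V) Prod.snd β v = 0 := by
    intro v
    rw [D_pair]
    have h1 : ∀ w, β (v, w) - β (w, v) = if F.Adj v w then 1 else 0 := fun w => hsym F hF v w
    simp only [h1]
    rw [hcard]
    obtain ⟨k, hk⟩ := hdeg v
    rw [hk]
    push_cast
    exact CharTwo.add_self_eq_zero _
  have hDo : ∀ v, D (Prod.fst : V × V → V) Prod.snd o v = if odd v then 1 else 0 := by
    intro v
    rw [D_pair]
    have h1 : ∀ w, o (v, w) - o (w, v) = if G.Adj v w then 1 else 0 := by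
      intro w
      have h3 := hsym G le_rfl v w
      simp only [ho]
      have h2 : ∀ a b : V, ((a, b) ∈ oe ν G ∧ G.Adj a b) ↔ (a, b) ∈ oe ν G :=
        fun a b => ⟨fun h => h.1, fun h => ⟨h, (mem_oe.1 h).1⟩⟩
      simp only [h2] at h3
      convert h3
    simp only [h1]
    have h4 : (∑ w, if G.Adj v w then (1 : ZMod 2) else 0) = ((G.neighborSet v).ncard : ZMod 2) := by
      convert hcard G v
    rw [h4]
    by_cases hv : odd v
    · rw [if_pos hv]
      exact (ZMod.natCast_eq_one_iff_odd).2 hv
    · rw [if_neg hv]
      exact (ZMod.natCast_eq_zero_iff_even).2 (Nat.not_odd_iff_even.1 hv)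
  -- representatives
  choose r hr using fun c : F.ConnectedComponent => c.exists_rep
  have hch : ∀ v : V, ∃ z : V × V → ZMod 2, (∀ e, z e ≠ 0 → e ∈ oe ν G ∧ F.Adj e.1 e.2) ∧
      ∀ w, D (Prod.fst : V × V → V) Prod.snd z w = one (r (F.connectedComponentMk v)) w + one v w := by
    intro v
    rcases chain (s := (Prod.fst : V × V → V)) (t := Prod.snd)
      (fun e => e ∈ oe ν G ∧ F.Adj e.1 e.2) (r (F.connectedComponentMk v)) v with h | h
    · exact h
    · exfalso
      obtain ⟨Z, h1, h2, h3⟩ := h
      have h4 : F.Reachable (r (F.connectedComponentMk v)) v :=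
        SimpleGraph.ConnectedComponent.exact (hr (F.connectedComponentMk v))
      rw [SimpleGraph.reachable_iff_reflTransGen] at h4
      apply h2
      have key : ∀ a, Relation.ReflTransGen F.Adj (r (F.connectedComponentMk v)) a → a ∈ Z := by
        intro a ha
        induction ha with
        | refl => exact h1
        | @tail b c _ hbc ih =>
          by_contra hc
          have hGa := hF hbc
          have hne : ν b ≠ ν c := fun h => G.ne_of_adj hGa (hν h)
          rcases lt_or_gt_of_ne hne with hlt | hlt
          · exact h3 (b, c) ⟨mem_oe.2 ⟨hGa, hlt⟩, hbc⟩ (Or.inl ⟨ih, hc⟩)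
          · exact h3 (c, b) ⟨mem_oe.2 ⟨hGa.symm, hlt⟩, hbc.symm⟩ (Or.inr ⟨hc, ih⟩)
      exact key v h4
  choose z hz1 hz2 using hch
  set Z : V × V → ZMod 2 := fun e => ∑ v, (if odd v then z v e else 0) with hZ
  have hZs : ∀ e, Z e ≠ 0 → e ∈ oe ν G ∧ F.Adj e.1 e.2 := by
    intro e he
    by_contra hc
    apply he
    simp only [hZ]
    refine sum_eq_zero fun v _ => ?_
    split_ifs
    · by_contra hne
      exact hc (hz1 v e hne)
    · rfl
  have hDZ : ∀ w, D (Prod.fst : V × V → V) Prod.snd Z w
      = ((univ.filter fun v => odd v ∧ r (F.connectedComponentMk v) = w).card : ZMod 2)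
        + if odd w then 1 else 0 := by
    intro w
    have h1 : D (Prod.fst : V × V → V) Prod.snd Z w
        = ∑ v, if odd v then D (Prod.fst : V × V → V) Prod.snd (z v) w else 0 := by
      simp only [D, hZ]
      have h2 : ∀ v, (if odd v then ∑ e : V × V, ((if e.1 = w then z v e else 0)
          - (if e.2 = w then z v e else 0)) else 0)
          = ∑ e : V × V, ((if e.1 = w then (if odd v then z v e else 0) else 0)
          - (if e.2 = w then (if odd v then z v e else 0) else 0)) := by
        intro v
        by_cases hv : odd v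
        · simp [hv]
        · simp [hv]
      simp only [h2]
      rw [sum_comm]
      refine sum_congr rfl fun e _ => ?_
      rw [sum_sub_distrib]
      congr 1
      · by_cases hc : e.1 = w <;> simp [hc]
      · by_cases hc : e.2 = w <;> simp [hc]
    rw [h1]
    have h3 : ∀ v, (if odd v then D (Prod.fst : V × V → V) Prod.snd (z v) w else 0)
        = (if odd v ∧ r (F.connectedComponentMk v) = w then (1 : ZMod 2) else 0)
          + (if v = w then (if odd w then 1 else 0) else 0) := by
      intro v
      rw [hz2]
      unfold one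
      by_cases hv : odd v
      · by_cases hvw : v = w
        · subst hvw; simp [hv]
        · simp [hv, hvw]
      · by_cases hvw : v = w
        · subst hvw; simp [hv]
        · simp [hv, hvw]
    simp only [h3, sum_add_distrib]
    rw [sum_boole, sum_ite_eq']
    simp
  refine ⟨β, fun e => (o e + β e) + Z e, ⟨?_, hDβ, ?_⟩⟩
  · intro e
    by_cases he : e ∈ oe ν G
    · simp only [he, iff_true]
      by_cases hFe : F.Adj e.1 e.2
      · left; simp [hβ, he, hFe]
      · right
        have : Z e = 0 := by
          by_contra hc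
          exact hFe (hZs e hc).2
        simp [hβ, ho, he, hFe, this]
    · have : Z e = 0 := by
        by_contra hc
        exact he (hZs e hc).1
      simp [hβ, ho, he, this]
  · have hD : ∀ w, D (Prod.fst : V × V → V) Prod.snd (fun e => (o e + β e) + Z e) w
        = ((univ.filter fun v => odd v ∧ r (F.connectedComponentMk v) = w).card : ZMod 2) := by
      intro w
      rw [D_add (Prod.fst : V × V → V) Prod.snd (fun e => o e + β e) Z w,
        D_add (Prod.fst : V × V → V) Prod.snd o β w, hDo, hDβ, hDZ]
      have : ∀ x y : ZMod 2, y + 0 + (x + y) = x := by decide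
      exact this _ _
    rw [← Set.ncard_coe_finset]
    refine le_trans ?_ hodd
    have hT : ∀ w ∈ Ts (Prod.fst : V × V → V) Prod.snd (fun e => (o e + β e) + Z e),
        Odd (univ.filter fun v => odd v ∧ r (F.connectedComponentMk v) = w).card := by
      intro w hw
      rw [mem_Ts, hD] at hw
      rw [← Nat.not_even_iff_odd]
      intro hc
      apply hw
      exact (ZMod.natCast_eq_zero_iff_even).2 hc
    have hrw : ∀ w ∈ Ts (Prod.fst : V × V → V) Prod.snd (fun e => (o e + β e) + Z e),
        r (F.connectedComponentMk w) = w := by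
      intro w hw
      obtain ⟨v, hv⟩ := card_pos.1 (hT w hw).pos
      simp only [mem_filter, mem_univ, true_and] at hv
      have h1 := hr (F.connectedComponentMk v)
      rw [hv.2] at h1
      have h2 : F.connectedComponentMk w = F.connectedComponentMk v := h1
      rw [h2]; exact hv.2
    refine Set.ncard_le_ncard_of_injOn (fun w => F.connectedComponentMk w) ?_ ?_ (Set.toFinite _)
    · intro w hw
      have hw' : w ∈ Ts (Prod.fst : V × V → V) Prod.snd (fun e => (o e + β e) + Z e) := hw
      have h1 := hT w hw'
      have h2 := hrw w hw'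
      show Odd {v | v ∈ (F.connectedComponentMk w).supp ∧ Odd (G.neighborSet v).ncard}.ncard
      rw [Set.ncard_eq_toFinset_card']
      convert h1 using 2
      ext v
      simp only [Set.mem_toFinset, Set.mem_ofPred_eq, SimpleGraph.ConnectedComponent.mem_supp_iff,
        mem_filter, mem_univ, true_and]
      constructor
      · rintro ⟨h3, h5⟩
        refine ⟨h5, ?_⟩
        rw [h3]; exact h2
      · rintro ⟨h5, h3⟩
        refine ⟨?_, h5⟩
        have h4 := hr (F.connectedComponentMk v)
        rw [h3] at h4
        exact h4.symm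
    · intro w hw w' hw' h
      have h1 := hrw w hw
      have h2 := hrw w' hw'
      rw [← h1, ← h2]
      exact congrArg r h

/-- The translation of the main theorem. -/
theorem four_final (G : SimpleGraph V) [DecidableRel G.Adj]
    (hbr : ∀ e ∈ G.edgeSet, ¬ G.IsBridge e) (F : SimpleGraph V) (hF : F ≤ G)
    (hdeg : ∀ v, Even (F.neighborSet v).ncard)
    (hodd : {c : F.ConnectedComponent |
      Odd {v | v ∈ c.supp ∧ Odd (G.neighborSet v).ncard}.ncard}.ncard ≤ 4) :
    ∀ i : ℕ, 5 ≤ i → HasNZFlow (ZMod i) G := by
  classical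
  let ν : V → ℕ := fun v => (Fintype.equivFin V v : ℕ)
  have hν : Function.Injective ν := fun a b h => (Fintype.equivFin V).injective (Fin.ext h)
  apply lift_five
  apply hasNZ_of_hasFlow hν
  obtain ⟨β, γ, h⟩ := exists_str hν hF hdeg hodd
  refine main_gen _ V (V × V) _ _ _ β γ rfl ?_ ?_ h
  · intro e he h
    rw [mem_oe] at he
    rw [h] at he
    exact lt_irrefl _ he.2
  · intro Z
    have := crs_card (G := G) hν Z
    rw [dl, this]
    exact interedges_ne_one G hbr Z

end MP974d84.K
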