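import Mathlib
import Pool.Agent.Work.MP_974d84_co.Defs
import Pool.Agent.Work.MP_974d84_co.K4

/-!
Nowhere-zero 5-flows of bridgeless graphs with an even subgraph having at most four odd components.

Former hand-in FourOddComponents, replaced by ExpandingPieces. Its claim:

Proves: Let G be a finite simple graph without bridges (any degrees). Suppose G has a subgraph F
on the same vertex set in which every vertex has even degree and such that at most four connected
components of F contain an odd number of vertices of odd G-degree (isolated vertices of F are
components). Then G has a nowhere-zero flow over Z_i for every integer i >= 5. For cubic G and F a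
2-factor this is: every bridgeless cubic graph of oddness at most 4 has a nowhere-zero 5-flow.
Definitions: HasNZFlow A G (A an abelian group) says there is f on ordered pairs of vertices with
values in A such that f(u,v) = -f(v,u), f(u,v) is nonzero exactly when u and v are adjacent in G,
and for each v the sum of f(v,u) over all vertices u is 0. Bridges, neighborSet and connected
components are Mathlib's.
Relation: Partial answer to Q1 through its equivalent form, Tutte's 5-flow conjecture: for these G
the cographic matroid M(G)^* has nonzero characteristic polynomial at every i >= 5. No
connectivity beyond bridgelessness is assumed. Known before: at most two such components (Jaeger);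
at most four only for cyclically 6-edge-connected cubic graphs (Mazzuoccolo and Steffen 2017;
Steffen 2010). 5-edge-cuts are handled with Kochol's counting method (2004).
-/

namespace Pool.Agent.Work.MP974d84Four

open MP974d84

/-- Let `G` be a finite graph without bridges and `F` a subgraph of `G` on the same vertex set all
of whose degrees are even, such that at most four connected components of `F` contain an odd number
of vertices whose degree in `G` is odd (isolated vertices of `F` count as components). Then `G` has
a nowhere-zero flow with values in `ZMod i` for every `i ≥ 5`. For cubic `G` and a 2-factor `F` the
hypothesis says that at most four of the cycles of `F` are odd. -/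
theorem result {V : Type} [Fintype V] [DecidableEq V] (G : SimpleGraph V) [DecidableRel G.Adj]
    (hbr : ∀ e ∈ G.edgeSet, ¬ G.IsBridge e)
    (F : SimpleGraph V) (hF : F ≤ G) (hdeg : ∀ v, Even (F.neighborSet v).ncard)
    (hodd : {c : F.ConnectedComponent |
      Odd {v | v ∈ c.supp ∧ Odd (G.neighborSet v).ncard}.ncard}.ncard ≤ 4) :
    ∀ i : ℕ, 5 ≤ i → HasNZFlow (ZMod i) G :=
  K.four_final G hbr F hF hdeg hodd

end Pool.Agent.Work.MP974d84Four
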