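import Mathlib
import Pool.Agent.Work.MP_974d84_co.Core

/-!
Nowhere-zero 5-flows in cubic graphs with two disjoint edges whose removal leaves a graph with a
nowhere-zero 4-flow.
-/

namespace MP974d84

open Finset

variable {V : Type*} [Fintype V] [DecidableEq V]

theorem cs_dart (x y : V) (Z : Finset V) :
    ∑ a ∈ Z, ∑ b ∈ Zᶜ, (if a = x ∧ b = y then (1 : ℤ) else 0)
      = if x ∈ Z ∧ y ∉ Z then 1 else 0 := by
  have h1 : ∀ a, ∑ b ∈ Zᶜ, (if a = x ∧ b = y then (1 : ℤ) else 0)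
      = if a = x then (if y ∉ Z then 1 else 0) else 0 := by
    intro a
    by_cases ha : a = x
    · simp [ha]
    · simp [ha]
  simp only [h1]
  rw [sum_ite_eq']
  by_cases hx : x ∈ Z <;> simp [hx]

theorem gcut_delete_two (G : SimpleGraph V) [DecidableRel G.Adj] {x y z w : V}
    (hxy : G.Adj x y) (hzw : G.Adj z w) (hxz : x ≠ z) (hxw : x ≠ w) (hyz : y ≠ z) (hyw : y ≠ w)
    (Z : Finset V) :
    gcut G Z = gcut (G.deleteEdges {s(x, y), s(z, w)}) Z
      + ((if x ∈ Z ∧ y ∉ Z then 1 else 0) + (if y ∈ Z ∧ x ∉ Z then 1 else 0))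
      + ((if z ∈ Z ∧ w ∉ Z then 1 else 0) + (if w ∈ Z ∧ z ∉ Z then 1 else 0)) := by
  rw [← cs_dart x y, ← cs_dart y x, ← cs_dart z w, ← cs_dart w z, gcut, gcut]
  simp only [← sum_add_distrib]
  refine sum_congr rfl fun a _ => sum_congr rfl fun b _ => ?_
  have hxy' : x ≠ y := hxy.ne
  have hzw' : z ≠ w := hzw.ne
  by_cases h1 : a = x ∧ b = y
  · obtain ⟨rfl, rfl⟩ := h1
    simp [hxy, hxy', hxy'.symm, hxz, hxw]
  by_cases h2 : a = y ∧ b = x
  · obtain ⟨rfl, rfl⟩ := h2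
    simp [hxy.symm, hxy', hxy'.symm, hyz, hyw]
  by_cases h3 : a = z ∧ b = w
  · obtain ⟨rfl, rfl⟩ := h3
    simp [hzw, hzw', hzw'.symm, hxz.symm, hyz.symm]
  by_cases h4 : a = w ∧ b = z
  · obtain ⟨rfl, rfl⟩ := h4
    simp [hzw.symm, hzw', hzw'.symm, hxw.symm, hyw.symm]
  simp only [h1, h2, h3, h4, if_false, add_zero]
  have h5 : (G.deleteEdges {s(x, y), s(z, w)}).Adj a b ↔ G.Adj a b := by
    rw [SimpleGraph.deleteEdges_adj]
    simp only [Set.mem_insert_iff, Set.mem_singleton_iff, Sym2.eq_iff]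
    tauto
  simp only [h5]

theorem two_edges_main (G : SimpleGraph V) [DecidableRel G.Adj] (hG : G.IsRegularOfDegree 3)
    (hbr : ∀ Z : Finset V, (G.interedges Z Zᶜ).card ≠ 1) (x y z w : V)
    (hxy : G.Adj x y) (hzw : G.Adj z w) (hxz : x ≠ z) (hxw : x ≠ w) (hyz : y ≠ z) (hyw : y ≠ w)
    (h5 : ∀ Z : Finset V, x ∈ Z → y ∉ Z → z ∉ Z → w ∉ Z → (G.interedges Z Zᶜ).card = 5 →
      (G.induce (Z : Set V)).IsAcyclic ∨ (G.induce ((Z : Set V)ᶜ)).IsAcyclic)
    (h4 : HasNZFlow (ZMod 4) (G.deleteEdges {s(x, y), s(z, w)})) :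
    ∀ i : ℕ, 5 ≤ i → HasNZFlow (ZMod i) G := by
  set H := G.deleteEdges {s(x, y), s(z, w)} with hH
  have hxy' : x ≠ y := hxy.ne
  have hzw' : z ≠ w := hzw.ne
  have hHadj : ∀ a b, H.Adj a b ↔ G.Adj a b ∧ ¬ (a = x ∧ b = y) ∧ ¬ (a = y ∧ b = x) ∧
      ¬ (a = z ∧ b = w) ∧ ¬ (a = w ∧ b = z) := by
    intro a b
    rw [hH, SimpleGraph.deleteEdges_adj]
    simp only [Set.mem_insert_iff, Set.mem_singleton_iff, Sym2.eq_iff]
    tauto
  have hle : H ≤ G := SimpleGraph.deleteEdges_le _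
  have hbr' : ∀ Z : Finset V, gcut G Z ≠ 1 := by
    intro Z h
    rw [← card_interedges] at h
    exact hbr Z (by exact_mod_cast h)
  -- the two other neighbours of x
  obtain ⟨p, q, hpq, hN⟩ : ∃ p q, p ≠ q ∧ (G.neighborFinset x).erase y = {p, q} := by
    have h1 : ((G.neighborFinset x).erase y).card = 2 := by
      rw [card_erase_of_mem (by simpa using hxy), SimpleGraph.card_neighborFinset_eq_degree, hG x]
    obtain ⟨p, q, h2, h3⟩ := card_eq_two.1 h1
    exact ⟨p, q, h2, h3⟩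
  have hNx : ∀ b, H.Adj x b ↔ b = p ∨ b = q := by
    intro b
    have : b ∈ (G.neighborFinset x).erase y ↔ b ∈ ({p, q} : Finset V) := by rw [hN]
    simp only [mem_erase, SimpleGraph.mem_neighborFinset, mem_insert, mem_singleton] at this
    rw [hHadj, ← this]
    tauto
  have hxp : H.Adj x p := (hNx p).2 (Or.inl rfl)
  have hxq : H.Adj x q := (hNx q).2 (Or.inr rfl)
  obtain ⟨φ0, hφ0⟩ := lift_four h4
  obtain ⟨φ, hφ, hp⟩ := exists_two hφ0 hxp
  have hq : φ x q = 2 ∨ φ x q = -2 := by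
    have h1 : φ x p + φ x q = 0 := by
      have h2 := hφ.2.2.2 x
      rw [dv, ← sum_subset (subset_univ {p, q})] at h2
      · rwa [sum_pair hpq] at h2
      · intro b _ hb
        by_contra hne
        apply hb
        have := (hNx b).1 ((hφ.2.1 x b).1 hne)
        simpa using this
    omega
  by_contra hno
  have hgz : ∀ ψ : V → V → ℤ, IntFlow4 H ψ → ∀ Z, cs (ub ψ) Z = 0 → gcut H Z = 0 := by
    intro ψ hψ Z h0
    have h6 := cs_ub_zero hψ h0
    exact sum_eq_zero fun a ha => sum_eq_zero fun b hb => if_neg (h6 a ha b (by simpa using hb))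
  have hcutf := gcut_delete_two G hxy hzw hxz hxw hyz hyw
  -- one demand
  have fail : ∀ ψ : V → V → ℤ, IntFlow4 H ψ → ∀ z' w' : V, ((z' = z ∧ w' = w) ∨ (z' = w ∧ w' = z)) →
      ∃ Z : Finset V, cs (ub ψ) Z ≤ 1 ∧ x ∈ Z ∧ y ∉ Z ∧ w' ∈ Z ∧ z' ∉ Z := by
    intro ψ hψ z' w' hzw2
    have hx1 : x ≠ z' := by rcases hzw2 with ⟨rfl, rfl⟩ | ⟨rfl, rfl⟩ <;> assumption
    have hx2 : x ≠ w' := by rcases hzw2 with ⟨rfl, rfl⟩ | ⟨rfl, rfl⟩ <;> assumption
    have hy1 : y ≠ z' := by rcases hzw2 with ⟨rfl, rfl⟩ | ⟨rfl, rfl⟩ <;> assumption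
    have hy2 : y ≠ w' := by rcases hzw2 with ⟨rfl, rfl⟩ | ⟨rfl, rfl⟩ <;> assumption
    have hzwne : z' ≠ w' := by
      rcases hzw2 with ⟨rfl, rfl⟩ | ⟨rfl, rfl⟩
      · exact hzw'
      · exact hzw'.symm
    by_contra hnot
    apply hno
    let ρ : V → V → ℤ := fun a b =>
      ((if a = y ∧ b = x then 1 else 0) - (if a = x ∧ b = y then 1 else 0))
      + ((if a = z' ∧ b = w' then 1 else 0) - (if a = w' ∧ b = z' then 1 else 0))
    have hρ : Anti ρ := by
      intro a b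
      simp only [ρ]
      have e1 : (a = y ∧ b = x) ↔ (b = x ∧ a = y) := and_comm
      have e2 : (a = x ∧ b = y) ↔ (b = y ∧ a = x) := and_comm
      have e3 : (a = z' ∧ b = w') ↔ (b = w' ∧ a = z') := and_comm
      have e4 : (a = w' ∧ b = z') ↔ (b = z' ∧ a = w') := and_comm
      simp only [e1, e2, e3, e4]
      ring
    have hdart : ∀ s t c : V, ∑ b, (if c = s ∧ b = t then (1 : ℤ) else 0)
        = if c = s then 1 else 0 := by
      intro s t c
      by_cases h : c = s <;> simp [h]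
    have hdρ : ∀ c, dv ρ c = ((if c = y then 1 else 0) - (if c = x then 1 else 0))
        + ((if c = z' then 1 else 0) - (if c = w' then 1 else 0)) := by
      intro c
      simp only [dv, ρ, sum_add_distrib, sum_sub_distrib, hdart]
    refine extend_flow hψ ρ hρ ?_ ?_ ?_ ?_
    · intro a b
      rw [hHadj]
      by_cases c1 : a = x ∧ b = y
      · obtain ⟨rfl, rfl⟩ := c1
        simp [ρ, hxy, hxy', hx1, hx2]
      by_cases c2 : a = y ∧ b = x
      · obtain ⟨rfl, rfl⟩ := c2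
        simp [ρ, hxy.symm, hxy', hy1, hy2]
      by_cases c3 : a = z' ∧ b = w'
      · obtain ⟨rfl, rfl⟩ := c3
        have : G.Adj a b := by
          rcases hzw2 with ⟨rfl, rfl⟩ | ⟨rfl, rfl⟩
          · exact hzw
          · exact hzw.symm
        simp [ρ, this, hzwne, hx1.symm, hy1.symm]
      by_cases c4 : a = w' ∧ b = z'
      · obtain ⟨rfl, rfl⟩ := c4
        have : G.Adj a b := by
          rcases hzw2 with ⟨rfl, rfl⟩ | ⟨rfl, rfl⟩
          · exact hzw.symm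
          · exact hzw
        simp [ρ, this, hzwne, hx2.symm, hy2.symm]
      have c5 : ¬ (a = z ∧ b = w) := by
        rcases hzw2 with ⟨rfl, rfl⟩ | ⟨rfl, rfl⟩ <;> assumption
      have c6 : ¬ (a = w ∧ b = z) := by
        rcases hzw2 with ⟨rfl, rfl⟩ | ⟨rfl, rfl⟩ <;> assumption
      simp only [ρ, c1, c2, c3, c4, c5, c6, if_false, not_false_iff, and_true]
      simp
    · intro a b hab
      have h6 := (hHadj a b).1 hab
      have c3 : ¬ (a = z' ∧ b = w') := by
        rcases hzw2 with ⟨rfl, rfl⟩ | ⟨rfl, rfl⟩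
        · exact h6.2.2.2.1
        · exact h6.2.2.2.2
      have c4 : ¬ (a = w' ∧ b = z') := by
        rcases hzw2 with ⟨rfl, rfl⟩ | ⟨rfl, rfl⟩
        · exact h6.2.2.2.2
        · exact h6.2.2.2.1
      simp only [ρ, h6.2.1, h6.2.2.1, c3, c4, if_false]
      rfl
    · intro a b
      simp only [ρ]; split_ifs <;> norm_num
    · intro Z
      by_contra hlt
      push Not at hlt
      have hsum : - ∑ c ∈ Z, dv ρ c = ((if x ∈ Z then 1 else 0) - (if y ∈ Z then 1 else 0))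
          + ((if w' ∈ Z then 1 else 0) - (if z' ∈ Z then 1 else 0)) := by
        simp only [hdρ, sum_add_distrib, sum_sub_distrib, sum_ite_eq']
        ring
      rw [hsum] at hlt
      have hcs0 := cs_ub_nonneg hψ Z
      have hcz : cs (ub ψ) Z = 0 → gcut G Z = ((if x ∈ Z ∧ y ∉ Z then 1 else 0)
          + (if y ∈ Z ∧ x ∉ Z then 1 else 0))
          + ((if z' ∈ Z ∧ w' ∉ Z then 1 else 0) + (if w' ∈ Z ∧ z' ∉ Z then 1 else 0)) := by
        intro h0
        rw [hcutf Z, hgz ψ hψ Z h0, zero_add]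
        rcases hzw2 with ⟨rfl, rfl⟩ | ⟨rfl, rfl⟩
        · rfl
        · ring
      have hne1 := hbr' Z
      by_cases hxZ : x ∈ Z
      · by_cases hyZ : y ∈ Z
        · by_cases hwZ : w' ∈ Z <;> by_cases hzZ : z' ∈ Z <;>
            simp only [hxZ, hyZ, hwZ, hzZ, if_true, if_false, and_true, true_and,
              not_true_eq_false, not_false_iff, and_false, false_and] at hlt hcz <;> omega
        · by_cases hwZ : w' ∈ Z
          · by_cases hzZ : z' ∈ Z
            · simp only [hxZ, hyZ, hwZ, hzZ, if_true, if_false, and_true, true_and,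
                not_true_eq_false, not_false_iff, and_false, false_and] at hlt hcz
              omega
            · refine hnot ⟨Z, ?_, hxZ, hyZ, hwZ, hzZ⟩
              simp only [hxZ, hyZ, hwZ, hzZ, if_true, if_false] at hlt
              omega
          · by_cases hzZ : z' ∈ Z <;>
            simp only [hxZ, hyZ, hwZ, hzZ, if_true, if_false, and_true, true_and,
              not_true_eq_false, not_false_iff, and_false, false_and] at hlt hcz <;> omega
      · by_cases hyZ : y ∈ Z <;> by_cases hwZ : w' ∈ Z <;> by_cases hzZ : z' ∈ Z <;>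
            simp only [hxZ, hyZ, hwZ, hzZ, if_true, if_false, and_true, true_and,
              not_true_eq_false, not_false_iff, and_false, false_and] at hlt hcz <;> omega
  have tight : ∀ ψ : V → V → ℤ, IntFlow4 H ψ → ∃ T : Finset V, cs (ub ψ) T = 1 ∧ x ∈ T ∧ y ∉ T ∧
      z ∉ T ∧ w ∉ T ∧ gcut G T = 5 := by
    intro ψ hψ
    obtain ⟨Z1, a1, a2, a3, a4, a5⟩ := fail ψ hψ z w (Or.inl ⟨rfl, rfl⟩)
    obtain ⟨Z2, b1, b2, b3, b4, b5⟩ := fail ψ hψ w z (Or.inr ⟨rfl, rfl⟩)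
    have hsub := cs_submod (ub ψ) (by
      intro a b
      have h1 := hψ.1 a b
      unfold ub
      split_ifs <;> omega) Z1 Z2
    have hI0 := cs_ub_nonneg hψ (Z1 ∩ Z2)
    have hU0 := cs_ub_nonneg hψ (Z1 ∪ Z2)
    have hI : cs (ub ψ) (Z1 ∩ Z2) ≠ 0 := by
      intro h0
      apply hbr' (Z1 ∩ Z2)
      rw [hcutf, hgz ψ hψ _ h0]
      simp [a2, a3, a5, b2, b5]
    have hU : cs (ub ψ) (Z1 ∪ Z2) ≠ 0 := by
      intro h0
      apply hbr' (Z1 ∪ Z2)
      rw [hcutf, hgz ψ hψ _ h0]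
      simp [a2, a3, a4, b3, b4]
    have hI1 : cs (ub ψ) (Z1 ∩ Z2) = 1 := by omega
    refine ⟨Z1 ∩ Z2, hI1, by simp [a2, b2], by simp [a3], by simp [a5], by simp [b5], ?_⟩
    have h6 := (cs_ub_one hψ hI1).2
    rw [hcutf, gcut, h6]
    simp [a2, a3, a5, b2, b5]
  obtain ⟨T, t1, t2, t3, t4, t5, t6⟩ := tight φ hφ
  obtain ⟨T', t1', t2', t3', t4', t5', t6'⟩ := tight _ hφ.neg
  have hd : ∀ S : Finset V, y ∉ S → z ∉ S → w ∉ S → Sᶜ.card = 3 →
      ∀ c ∉ S, ∃ b, G.Adj b c ∧ ¬ H.Adj b c := by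
    intro S hy hz hw hc c hcS
    have h1 : ({y, z, w} : Finset V) = Sᶜ := by
      apply eq_of_subset_of_card_le
      · intro a ha
        simp only [mem_insert, mem_singleton] at ha
        rcases ha with rfl | rfl | rfl <;> simpa
      · rw [hc, card_insert_of_notMem, card_insert_of_notMem, card_singleton]
        · simpa using hzw'
        · simp [hyz, hyw]
    have h2 : c ∈ ({y, z, w} : Finset V) := by rw [h1]; simpa using hcS
    simp only [mem_insert, mem_singleton] at h2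
    rcases h2 with rfl | rfl | rfl
    · exact ⟨x, hxy, fun hh => ((hHadj x c).1 hh).2.1 ⟨rfl, rfl⟩⟩
    · exact ⟨w, hzw.symm, fun hh => ((hHadj w c).1 hh).2.2.2.2 ⟨rfl, rfl⟩⟩
    · exact ⟨z, hzw, fun hh => ((hHadj z c).1 hh).2.2.2.1 ⟨rfl, rfl⟩⟩
  have hac : ∀ S : Finset V, x ∈ S → y ∉ S → z ∉ S → w ∉ S → gcut G S = 5 →
      (G.induce (S : Set V)).IsAcyclic ∨ (G.induce ((S : Set V)ᶜ)).IsAcyclic := by
    intro S h1 h2 h3 h3' h6
    apply h5 S h1 h2 h3 h3'
    rw [← card_interedges] at h6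
    exact_mod_cast h6
  exact two_tight hG hle hφ hxp.ne hxq.ne hpq hp hq t1 t1' t2 t2' t6 t6' (hd T t3 t4 t5)
    (hd T' t3' t4' t5') (hac T t2 t3 t4 t5 t6) (hac T' t2' t3' t4' t5' t6')

end MP974d84
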