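import Mathlib
import Pool.Agent.Work.MP_974d84_co.Core

/-!
Nowhere-zero 5-flows in cubic graphs with a vertex whose removal leaves a graph with a
nowhere-zero 4-flow.
-/

namespace MP974d84

open Finset

variable {V : Type*} [Fintype V] [DecidableEq V]

theorem cs_congr_isolated (u : V → V → ℤ) (v : V) (h1 : ∀ b, u v b = 0) (h2 : ∀ b, u b v = 0)
    (Z : Finset V) : cs u (Z.erase v) = cs u Z := by
  by_cases hv : v ∈ Z
  · have e1 : (Z.erase v)ᶜ = insert v Zᶜ := by
      ext a; simp only [mem_compl, mem_erase, mem_insert]; tauto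
    rw [cs, cs, e1]
    have e2 : ∀ a, ∑ b ∈ insert v Zᶜ, u a b = ∑ b ∈ Zᶜ, u a b := by
      intro a
      rw [sum_insert (by simpa using hv), h2 a, zero_add]
    simp only [e2]
    rw [← sum_erase_add Z _ hv]
    simp [h1]
  · rw [erase_eq_of_notMem hv]

theorem gcut_delete (G : SimpleGraph V) [DecidableRel G.Adj] (v : V) {T : Finset V} (hv : v ∉ T) :
    gcut G T = gcut (G.deleteIncidenceSet v) T + ∑ z ∈ T, (if G.Adj v z then (1 : ℤ) else 0) := by
  rw [gcut, gcut, ← sum_add_distrib]
  refine sum_congr rfl fun a ha => ?_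
  have hav : a ≠ v := by rintro rfl; exact hv ha
  have hvT : v ∈ Tᶜ := by simpa using hv
  rw [← add_sum_erase _ _ hvT, ← add_sum_erase Tᶜ
    (fun b => if (G.deleteIncidenceSet v).Adj a b then (1 : ℤ) else 0) hvT]
  have h1 : ¬ (G.deleteIncidenceSet v).Adj a v := by
    rw [SimpleGraph.deleteIncidenceSet_adj]; simp
  have h2 : ∑ b ∈ Tᶜ.erase v, (if G.Adj a b then (1 : ℤ) else 0)
      = ∑ b ∈ Tᶜ.erase v, (if (G.deleteIncidenceSet v).Adj a b then (1 : ℤ) else 0) := by
    refine sum_congr rfl fun b hb => ?_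
    have hbv : b ≠ v := (mem_erase.1 hb).1
    simp only [SimpleGraph.deleteIncidenceSet_adj, hav, hbv, ne_eq, not_false_iff, and_true]
  rw [h2, if_neg h1]
  simp only [G.adj_comm a v]
  ring

theorem vertex_main (G : SimpleGraph V) [DecidableRel G.Adj] (hG : G.IsRegularOfDegree 3)
    (hbr : ∀ Z : Finset V, (G.interedges Z Zᶜ).card ≠ 1) (v x : V) (hvx : G.Adj v x)
    (h5 : ∀ Z : Finset V, x ∈ Z → v ∉ Z → (∀ y, G.Adj v y → y ≠ x → y ∉ Z) →
      (G.interedges Z Zᶜ).card = 5 →
      (G.induce (Z : Set V)).IsAcyclic ∨ (G.induce ((Z : Set V)ᶜ)).IsAcyclic)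
    (h4 : HasNZFlow (ZMod 4) (G.deleteIncidenceSet v)) :
    ∀ i : ℕ, 5 ≤ i → HasNZFlow (ZMod i) G := by
  set H := G.deleteIncidenceSet v with hH
  have hHadj : ∀ a b, H.Adj a b ↔ G.Adj a b ∧ a ≠ v ∧ b ≠ v := fun a b =>
    SimpleGraph.deleteIncidenceSet_adj
  have hle : H ≤ G := SimpleGraph.deleteIncidenceSet_le G v
  have hxv : x ≠ v := hvx.ne'
  have hbr' : ∀ Z : Finset V, gcut G Z ≠ 1 := by
    intro Z h
    rw [← card_interedges] at h
    exact hbr Z (by exact_mod_cast h)
  -- the two other neighbours of x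
  obtain ⟨p, q, hpq, hN⟩ : ∃ p q, p ≠ q ∧ (G.neighborFinset x).erase v = {p, q} := by
    have h1 : ((G.neighborFinset x).erase v).card = 2 := by
      rw [card_erase_of_mem (by simpa using hvx.symm), SimpleGraph.card_neighborFinset_eq_degree, hG x]
    obtain ⟨p, q, h2, h3⟩ := card_eq_two.1 h1
    exact ⟨p, q, h2, h3⟩
  have hNx : ∀ b, H.Adj x b ↔ b = p ∨ b = q := by
    intro b
    have : b ∈ (G.neighborFinset x).erase v ↔ b ∈ ({p, q} : Finset V) := by rw [hN]
    simp only [mem_erase, SimpleGraph.mem_neighborFinset, mem_insert, mem_singleton] at this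
    rw [hHadj, ← this]
    tauto
  have hxp : H.Adj x p := (hNx p).2 (Or.inl rfl)
  have hxq : H.Adj x q := (hNx q).2 (Or.inr rfl)
  obtain ⟨φ0, hφ0⟩ := lift_four h4
  obtain ⟨φ, hφ, hp⟩ := exists_two hφ0 hxp
  have hq : φ x q = 2 ∨ φ x q = -2 := by
    have h1 : φ x p + φ x q = 0 := by
      have h2 := hφ.2.2.2 x
      rw [dv, ← sum_subset (subset_univ {p, q})] at h2
      · rwa [sum_pair hpq] at h2
      · intro b _ hb
        by_contra hne
        apply hb
        have := (hNx b).1 ((hφ.2.1 x b).1 hne)
        simpa using this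
    omega
  by_contra hno
  -- the values on the edges at `v`
  let m : V → ℤ := fun b => 3 * (if b = x then 1 else 0) - (if G.Adj v b then 1 else 0)
  have hm0 : ∑ b, m b = 0 := by
    simp only [m, sum_sub_distrib, ← mul_sum, deg_sum hG v]
    simp
  have hmv : m v = 0 := by simp [m, hxv.symm]
  have hmne : ∀ b, m b ≠ 0 ↔ G.Adj v b := by
    intro b
    by_cases h1 : b = x
    · subst h1; simp [m, hvx]
    · by_cases h2 : G.Adj v b <;> simp [m, h1, h2]
  have hm2 : ∀ b, m b ≤ 2 ∧ -1 ≤ m b := by
    intro b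
    by_cases h1 : b = x
    · subst h1; simp [m, hvx]
    · by_cases h2 : G.Adj v b <;> simp [m, h1, h2]
  let ρ : V → V → ℤ := fun a b => (if a = v then m b else 0) - (if b = v then m a else 0)
  have hρ : Anti ρ := fun a b => by simp only [ρ]; ring
  have hdρ : ∀ z, dv ρ z = - m z := by
    intro z
    simp only [dv, ρ, sum_sub_distrib]
    by_cases hz : z = v
    · simp [hz, hm0, hmv]
    · simp [hz]
  have tight : ∀ ψ : V → V → ℤ, IntFlow4 H ψ → ∃ T : Finset V, cs (ub ψ) T = 1 ∧ x ∈ T ∧ v ∉ T ∧
      (∀ y, G.Adj v y → y ≠ x → y ∉ T) ∧ gcut G T = 5 := by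
    intro ψ hψ
    by_contra hnot
    apply hno
    refine extend_flow hψ ρ hρ ?_ ?_ ?_ ?_
    · intro a b
      rw [hHadj]
      by_cases ha : a = v
      · subst ha
        simp only [ne_eq, not_true_eq_false, false_and, and_false, false_or, ρ, if_true, hmv]
        have := hmne b
        by_cases hb : b = a
        · subst hb; simpa using hmv
        · simp only [hb, if_false, sub_zero]; exact this.symm
      · by_cases hb : b = v
        · subst hb
          simp only [ne_eq, not_true_eq_false, and_false, false_or, ρ, if_true, ha, if_false,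
            zero_sub, neg_eq_zero]
          rw [G.adj_comm]
          exact (hmne a).symm
        · simp [ρ, ha, hb]
    · intro a b hab
      have := (hHadj a b).1 hab
      simp [ρ, this.2.1, this.2.2]
    · intro a b
      have := hm2 a
      have := hm2 b
      simp only [ρ]; split_ifs <;> omega
    · intro Z
      simp only [hdρ, sum_neg_distrib, neg_neg]
      by_contra hlt
      push Not at hlt
      -- remove v
      have hisoA : ∀ b, ψ v b = 0 := by
        intro b
        by_contra hne
        exact ((hHadj v b).1 ((hψ.2.1 v b).1 hne)).2.1 rfl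
      have hisoB : ∀ b, ψ b v = 0 := by
        intro b
        by_contra hne
        exact ((hHadj b v).1 ((hψ.2.1 b v).1 hne)).2.2 rfl
      have e1 : cs (ub ψ) (Z.erase v) = cs (ub ψ) Z :=
        cs_congr_isolated _ v (fun b => by simp [ub, hisoA]) (fun b => by simp [ub, hisoB]) Z
      have e2 : ∑ z ∈ Z.erase v, m z = ∑ z ∈ Z, m z := sum_erase _ hmv
      rw [← e1, ← e2] at hlt
      set T := Z.erase v with hT
      have hvT : v ∉ T := notMem_erase v Z
      have hsum : ∑ z ∈ T, m z = 3 * (if x ∈ T then 1 else 0)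
          - ∑ z ∈ T, (if G.Adj v z then (1 : ℤ) else 0) := by
        simp only [m, sum_sub_distrib, ← mul_sum]
        simp
      set n := ∑ z ∈ T, (if G.Adj v z then (1 : ℤ) else 0) with hn
      have hn0 : 0 ≤ n := sum_nonneg fun z _ => by split_ifs <;> norm_num
      have hcs0 := cs_ub_nonneg hψ T
      have hxT : x ∈ T := by
        by_contra hx
        simp only [hx, if_false] at hsum
        omega
      simp only [hxT, if_true] at hsum
      have hn1 : n = 1 + ∑ z ∈ T.erase x, (if G.Adj v z then (1 : ℤ) else 0) := by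
        rw [hn, ← add_sum_erase T _ hxT, if_pos hvx]
      have hn2 : 0 ≤ ∑ z ∈ T.erase x, (if G.Adj v z then (1 : ℤ) else 0) :=
        sum_nonneg fun z _ => by split_ifs <;> norm_num
      have hg := gcut_delete G v hvT
      have hzero : cs (ub ψ) T = 0 → ∀ S : Finset V, (S ⊆ Tᶜ ∧ Sᶜ ⊆ insert v T) ∨ S = T →
          gcut H S = 0 := by
        intro h0 S hS
        have h6 := cs_ub_zero hψ h0
        refine sum_eq_zero fun a ha => sum_eq_zero fun b hb => if_neg ?_
        rcases hS with ⟨h7, h8⟩ | rfl
        · have h9 := h8 hb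
          rcases mem_insert.1 h9 with rfl | h10
          · intro hab; exact ((hHadj a b).1 hab).2.2 rfl
          · intro hab
            exact h6 b h10 a (by simpa using h7 ha) hab.symm
        · exact h6 a ha b (by simpa using hb)
      by_cases hcs : cs (ub ψ) T = 0
      · by_cases hn' : n = 1
        · -- the edge `vx` is a cut
          apply hbr' T
          rw [hg, hzero hcs T (Or.inr rfl)]
          omega
        · -- the third edge is a cut
          have hn2' : n = 2 := by omega
          have hS : v ∉ (insert v T)ᶜ := by simp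
          apply hbr' (insert v T)ᶜ
          rw [gcut_delete G v hS, hzero hcs (insert v T)ᶜ (Or.inl ⟨?_, by simp⟩)]
          · have h7 := deg_sum hG v
            rw [← sum_add_sum_compl (insert v T), sum_insert hvT, if_neg G.irrefl, ← hn] at h7
            omega
          · intro a ha
            simp only [mem_compl, mem_insert, not_or] at ha ⊢
            exact ha.2
      · have hcs1 : cs (ub ψ) T = 1 := by omega
        have hn' : n = 1 := by omega
        refine hnot ⟨T, hcs1, hxT, hvT, ?_, ?_⟩
        · intro y hy hyx hyT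
          have h6 : ∑ z ∈ T.erase x, (if G.Adj v z then (1 : ℤ) else 0) = 0 := by omega
          have h7 := (sum_eq_zero_iff_of_nonneg (fun z _ => by split_ifs <;> norm_num)).1 h6 y
            (mem_erase.2 ⟨hyx, hyT⟩)
          rw [if_pos hy] at h7
          norm_num at h7
        · have h6 := (cs_ub_one hψ hcs1).2
          rw [hg, gcut, h6]
          omega
  obtain ⟨T, t1, t2, t3, t4, t5⟩ := tight φ hφ
  obtain ⟨T', t1', t2', t3', t4', t5'⟩ := tight _ hφ.neg
  have hd : ∀ S : Finset V, v ∉ S → (∀ y, G.Adj v y → y ≠ x → y ∉ S) → Sᶜ.card = 3 →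
      ∀ z ∉ S, ∃ b, G.Adj b z ∧ ¬ H.Adj b z := by
    intro S hv hS hc z hz
    -- the complement consists of `v` and its two other neighbours
    have h1 : insert v ((G.neighborFinset v).erase x) = Sᶜ := by
      apply eq_of_subset_of_card_le
      · intro a ha
        rcases mem_insert.1 ha with rfl | ha
        · simpa using hv
        · rw [mem_erase, SimpleGraph.mem_neighborFinset] at ha
          simpa using hS a ha.2 ha.1
      · rw [hc, card_insert_of_notMem (by simp), card_erase_of_mem (by simpa using hvx),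
          SimpleGraph.card_neighborFinset_eq_degree, hG v]
    have h2 : z ∈ insert v ((G.neighborFinset v).erase x) := by rw [h1]; simpa using hz
    rcases mem_insert.1 h2 with rfl | h3
    · exact ⟨x, hvx.symm, fun hh => ((hHadj x z).1 hh).2.2 rfl⟩
    · rw [mem_erase, SimpleGraph.mem_neighborFinset] at h3
      exact ⟨v, h3.2, fun hh => ((hHadj v z).1 hh).2.1 rfl⟩
  have hac : ∀ S : Finset V, x ∈ S → v ∉ S → (∀ y, G.Adj v y → y ≠ x → y ∉ S) → gcut G S = 5 →
      (G.induce (S : Set V)).IsAcyclic ∨ (G.induce ((S : Set V)ᶜ)).IsAcyclic := by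
    intro S h1 h2 h3 h6
    apply h5 S h1 h2 h3
    rw [← card_interedges] at h6
    exact_mod_cast h6
  exact two_tight hG hle hφ hxp.ne hxq.ne hpq hp hq t1 t1' t2 t2' t5 t5' (hd T t3 t4)
    (hd T' t3' t4') (hac T t2 t3 t4 t5) (hac T' t2' t3' t4' t5')

end MP974d84
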